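import Pool.Agent.NRN.StG
import Pool.Agent.RHC.TSC

/-!
NRN, block G: [ABT] the alternating sum over the shifts (helper16).
-/

set_option autoImplicit false

namespace Pool.Agent.NRN

open scoped BigOperators
open Classical NumberField IsDedekindDomain
open Pool.Agent.RHP (Mon mono ev Sys Prim pd WB WW)
open Pool.Agent.RHK Pool.Agent.RHC Pool.Agent.NRM

section ABT

/-- the number of the compatible pairs in terms of the distributions -/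
private theorem ABT_num {V Z : Type} [CommRing Z] [Fintype Z] (D : Finset V)
    (x x' : V → Z) (l u v : Z) (M : ℝ) (P : Z → ℝ)
    (h : ∀ c, ((D.filter fun δ => x δ = c).card : ℝ) = P c * M)
    (h' : ∀ c, ((D.filter fun δ => x' δ = c).card : ℝ) = P c * M) :
    (((D ×ˢ D).filter fun δ => x' δ.2 + v = l * (x δ.1 + u)).card : ℝ) =
      M ^ 2 * ∑ c, P (c - u) * P (l * c - v) := by
  rw [Finset.card_eq_sum_card_fiberwise (f := fun δ : V × V => x δ.1 + u) (t := Finset.univ)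
    (fun _ _ => Finset.mem_coe.2 (Finset.mem_univ _)), Nat.cast_sum, Finset.mul_sum]
  refine Finset.sum_congr rfl fun c _ => ?_
  have e1 : (((D ×ˢ D).filter fun δ => x' δ.2 + v = l * (x δ.1 + u)).filter
      fun δ => x δ.1 + u = c) =
      (D.filter fun δ => x δ = c - u) ×ˢ (D.filter fun δ => x' δ = l * c - v) := by
    ext δ
    simp only [Finset.mem_filter, Finset.mem_product]
    constructor
    · rintro ⟨⟨⟨h1, h2⟩, h3⟩, h4⟩
      rw [h4] at h3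
      exact ⟨⟨h1, eq_sub_of_add_eq h4⟩, h2, eq_sub_of_add_eq h3⟩
    · rintro ⟨⟨h1, h2⟩, h3, h4⟩
      rw [h2, h4]
      refine ⟨⟨⟨h1, h3⟩, ?_⟩, ?_⟩ <;> ring
  rw [e1, Finset.card_product, Nat.cast_mul, h, h']
  ring

/-- averages over `T` in terms of the distribution of `T` -/
private theorem ABT_av {R Z : Type} [Fintype Z] (T : Finset R) (φ : R → Z) (g : Z → ℝ) :
    1 / (T.card : ℝ) * ∑ v ∈ T, g (φ v) =
      ∑ c, ((T.filter fun u => φ u = c).card : ℝ) / (T.card : ℝ) * g c := by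
  rw [← Finset.sum_fiberwise T φ fun v => g (φ v), Finset.mul_sum]
  refine Finset.sum_congr rfl fun c _ => ?_
  have e1 : ∑ v ∈ T.filter (fun v => φ v = c), g (φ v) =
      ∑ v ∈ T.filter (fun v => φ v = c), g c :=
    Finset.sum_congr rfl fun v hv => by rw [(Finset.mem_filter.1 hv).2]
  rw [e1, Finset.sum_const, nsmul_eq_mul]
  ring

variable {K : Type} [Field K]

private theorem ABT_lin (T : Finset (𝓞 K)) (F χ : 𝓞 K → 𝓞 K → ℝ) (F0 : ℝ) (α β : 𝓞 K) :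
    alt T F α β = alt T (fun α β => F α β - F0 * χ α β) α β + F0 * alt T χ α β := by
  unfold alt
  simp only [Finset.sum_sub_distrib, ← Finset.mul_sum]
  ring

/-- the sum with positive signs -/
private noncomputable def ABT_pl (T : Finset (𝓞 K)) (F : 𝓞 K → 𝓞 K → ℝ) (α β : 𝓞 K) : ℝ :=
  F α β + 1 / (T.card : ℝ) * ∑ v ∈ T, F α (β + v) + 1 / (T.card : ℝ) * ∑ u ∈ T, F (α + u) β +
    1 / (T.card : ℝ) ^ 2 * ∑ p ∈ T ×ˢ T, F (α + p.1) (β + p.2)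

private theorem ABT_bd (T : Finset (𝓞 K)) (h0 : (0 : 𝓞 K) ∈ T) (G χ : 𝓞 K → 𝓞 K → ℝ) (e : ℝ)
    (α β : 𝓞 K)
    (hG : ∀ u ∈ T, ∀ v ∈ T, |G (α + u) (β + v)| ≤ e * χ (α + u) (β + v)) :
    |alt T G α β| ≤ e * ABT_pl T χ α β := by
  have ht : (0 : ℝ) ≤ 1 / (T.card : ℝ) := by positivity
  have ht2 : (0 : ℝ) ≤ 1 / (T.card : ℝ) ^ 2 := by positivity
  have b0 : |G α β| ≤ e * χ α β := by simpa using hG 0 h0 0 h0
  have b1 : |1 / (T.card : ℝ) * ∑ v ∈ T, G α (β + v)| ≤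
      1 / (T.card : ℝ) * (e * ∑ v ∈ T, χ α (β + v)) := by
    rw [abs_mul, abs_of_nonneg ht, Finset.mul_sum]
    refine mul_le_mul_of_nonneg_left ?_ ht
    refine (Finset.abs_sum_le_sum_abs _ _).trans (Finset.sum_le_sum fun v hv => ?_)
    simpa using hG 0 h0 v hv
  have b2 : |1 / (T.card : ℝ) * ∑ u ∈ T, G (α + u) β| ≤
      1 / (T.card : ℝ) * (e * ∑ u ∈ T, χ (α + u) β) := by
    rw [abs_mul, abs_of_nonneg ht, Finset.mul_sum]
    refine mul_le_mul_of_nonneg_left ?_ ht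
    refine (Finset.abs_sum_le_sum_abs _ _).trans (Finset.sum_le_sum fun u hu => ?_)
    simpa using hG u hu 0 h0
  have b3 : |1 / (T.card : ℝ) ^ 2 * ∑ p ∈ T ×ˢ T, G (α + p.1) (β + p.2)| ≤
      1 / (T.card : ℝ) ^ 2 * (e * ∑ p ∈ T ×ˢ T, χ (α + p.1) (β + p.2)) := by
    rw [abs_mul, abs_of_nonneg ht2, Finset.mul_sum]
    refine mul_le_mul_of_nonneg_left ?_ ht2
    refine (Finset.abs_sum_le_sum_abs _ _).trans (Finset.sum_le_sum fun p hp => ?_)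
    exact hG _ (Finset.mem_product.1 hp).1 _ (Finset.mem_product.1 hp).2
  have e1 : e * ABT_pl T χ α β = e * χ α β + 1 / (T.card : ℝ) * (e * ∑ v ∈ T, χ α (β + v)) +
      1 / (T.card : ℝ) * (e * ∑ u ∈ T, χ (α + u) β) +
      1 / (T.card : ℝ) ^ 2 * (e * ∑ p ∈ T ×ˢ T, χ (α + p.1) (β + p.2)) := by
    unfold ABT_pl
    ring
  rw [e1]
  unfold alt
  rw [abs_le] at b0 b1 b2 b3 ⊢
  constructor
  · linarith [b0.1, b1.1, b1.2, b2.1, b2.2, b3.1]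
  · linarith [b0.2, b1.1, b1.2, b2.1, b2.2, b3.2]

private theorem ABT_sumalt {V : Type} (S : Finset V) (T : Finset (𝓞 K)) (χ : 𝓞 K → 𝓞 K → ℝ)
    (x x' : V → 𝓞 K) :
    ∑ δ ∈ S, alt T χ (x δ) (x' δ) =
      ∑ δ ∈ S, χ (x δ) (x' δ) - 1 / (T.card : ℝ) * ∑ v ∈ T, ∑ δ ∈ S, χ (x δ) (x' δ + v) -
        1 / (T.card : ℝ) * ∑ u ∈ T, ∑ δ ∈ S, χ (x δ + u) (x' δ) +
        1 / (T.card : ℝ) ^ 2 * ∑ p ∈ T ×ˢ T, ∑ δ ∈ S, χ (x δ + p.1) (x' δ + p.2) := by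
  unfold alt
  rw [Finset.sum_add_distrib, Finset.sum_sub_distrib, Finset.sum_sub_distrib,
    ← Finset.mul_sum, ← Finset.mul_sum, ← Finset.mul_sum]
  rw [Finset.sum_comm (s := S) (t := T), Finset.sum_comm (s := S) (t := T),
    Finset.sum_comm (s := S) (t := T ×ˢ T)]

private theorem ABT_sumpl {V : Type} (S : Finset V) (T : Finset (𝓞 K)) (χ : 𝓞 K → 𝓞 K → ℝ)
    (x x' : V → 𝓞 K) :
    ∑ δ ∈ S, ABT_pl T χ (x δ) (x' δ) =
      ∑ δ ∈ S, χ (x δ) (x' δ) + 1 / (T.card : ℝ) * ∑ v ∈ T, ∑ δ ∈ S, χ (x δ) (x' δ + v) +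
        1 / (T.card : ℝ) * ∑ u ∈ T, ∑ δ ∈ S, χ (x δ + u) (x' δ) +
        1 / (T.card : ℝ) ^ 2 * ∑ p ∈ T ×ˢ T, ∑ δ ∈ S, χ (x δ + p.1) (x' δ + p.2) := by
  unfold ABT_pl
  rw [Finset.sum_add_distrib, Finset.sum_add_distrib, Finset.sum_add_distrib,
    ← Finset.mul_sum, ← Finset.mul_sum, ← Finset.mul_sum]
  rw [Finset.sum_comm (s := S) (t := T), Finset.sum_comm (s := S) (t := T),
    Finset.sum_comm (s := S) (t := T ×ˢ T)]

/-- an average of values at most `B` -/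
private theorem ABT_avle {V : Type} (T : Finset V) (hT : 0 < T.card) (f : V → ℝ) (B c : ℝ)
    (hc : c = T.card) (h : ∀ v ∈ T, f v ≤ B) : 1 / c * ∑ v ∈ T, f v ≤ B := by
  have h1 := Finset.sum_le_sum h
  rw [Finset.sum_const, nsmul_eq_mul, ← hc] at h1
  have h2 : (0 : ℝ) < c := by rw [hc]; exact_mod_cast hT
  calc 1 / c * ∑ v ∈ T, f v ≤ 1 / c * (c * B) :=
        mul_le_mul_of_nonneg_left h1 (by positivity)
    _ = B := by field_simp

theorem thm_ABT (h1 : St_SHA) (h2 : St_AVT) (h3 : St_FLM) (h4 : St_FLG) (h5 : St_ABU)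
    (h6 : St_GBA) : St_ABT := by
  intro K _ _
  obtain ⟨C, hC, hAVT⟩ := h2 K
  refine ⟨2 * C ^ 2, by positivity, ?_⟩
  intro r a ha I lam hI hlam Θ W hW hN F Fm e w w' he hF0 hFm hFc hFe
  have hfin : Finite (𝓞 K ⧸ I) := Ideal.finiteQuotientOfFreeOfNeBot I hI
  let _ : Fintype (𝓞 K ⧸ I) := Fintype.ofFinite _
  obtain ⟨hTc, hT0⟩ := thm_TSC K Θ W hW
  set T := TS K Θ W with hT
  have hTpos : 0 < T.card := Finset.card_pos.2 ⟨0, hT0⟩
  set N : ℕ := Ideal.absNorm I with hNdef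
  have hNpos : 0 < N := by
    rw [hNdef, Nat.pos_iff_ne_zero, Ne, Ideal.absNorm_eq_zero_iff]
    exact hI
  have hNR : (0 : ℝ) < N := by exact_mod_cast hNpos
  set M : ℝ := ((N : ℝ) ^ dg K) ^ r with hM
  have hMpos : 0 < M := by positivity
  set D := db K r N with hD
  set X : (Fin r → 𝓞 K) → 𝓞 K := fun δ => a fun j => w j + δ j with hX
  set X' : (Fin r → 𝓞 K) → 𝓞 K := fun δ => a fun j => w' j + δ j with hX'
  obtain ⟨g1, -, -, -, ⟨g5, -⟩, -⟩ := h6 K r a ha I hI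
  have hGI : GI a I = (N : ℝ) * ∑ c : 𝓞 K ⧸ I, PQ a I c ^ 2 := g1
  -- the indicator of the compatible pairs
  set χ : 𝓞 K → 𝓞 K → ℝ := fun α β => if β - lam * α ∈ I then 1 else 0 with hχ
  have hχ0 : ∀ α β, 0 ≤ χ α β := by
    intro α β
    simp only [hχ]
    split_ifs <;> norm_num
  -- numbers of compatible pairs
  have hcnt : ∀ u v : 𝓞 K, ∑ δ ∈ D ×ˢ D, χ (X δ.1 + u) (X' δ.2 + v) =
      (((D ×ˢ D).filter fun δ => (X' δ.2 + v) - lam * (X δ.1 + u) ∈ I).card : ℝ) := by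
    intro u v
    simp only [hχ]
    rw [Finset.sum_boole]
  have hABU : ∀ u v : 𝓞 K, ∑ δ ∈ D ×ˢ D, χ (X δ.1 + u) (X' δ.2 + v) ≤ M ^ 2 / N * GI a I := by
    intro u v
    rw [hcnt u v]
    have h7 := h5 K r a ha I lam hI hlam w w' u v
    rw [div_mul_eq_mul_div, le_div_iff₀ hNR]
    exact h7
  have hmk : ∀ c : 𝓞 K ⧸ I, ((D.filter fun δ => Ideal.Quotient.mk I (X δ) = c).card : ℝ) =
      PQ a I c * M := fun c => (h1 K r a ha I N hI hNpos (Ideal.absNorm_mem I)).2 w c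
  have hmk' : ∀ c : 𝓞 K ⧸ I, ((D.filter fun δ => Ideal.Quotient.mk I (X' δ) = c).card : ℝ) =
      PQ a I c * M := fun c => (h1 K r a ha I N hI hNpos (Ideal.absNorm_mem I)).2 w' c
  set l : 𝓞 K ⧸ I := Ideal.Quotient.mk I lam with hl
  have hnum : ∀ u v : 𝓞 K, ∑ δ ∈ D ×ˢ D, χ (X δ.1 + u) (X' δ.2 + v) =
      M ^ 2 * ∑ c, PQ a I (c - Ideal.Quotient.mk I u) * PQ a I (l * c - Ideal.Quotient.mk I v) := by
    intro u v
    rw [hcnt u v, ← ABT_num D (fun δ => Ideal.Quotient.mk I (X δ))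
      (fun δ => Ideal.Quotient.mk I (X' δ)) l (Ideal.Quotient.mk I u) (Ideal.Quotient.mk I v) M
      (PQ a I) hmk hmk']
    congr 2
    ext δ
    simp only [Finset.mem_filter]
    refine and_congr_right fun _ => ?_
    rw [← Ideal.Quotient.eq, map_mul, map_add, map_add]
  have hP0 : ∀ c, 0 ≤ PQ a I c := fun c => by
    unfold PQ
    positivity
  -- the choice of F0
  obtain ⟨F0, hF00, hF0m, hF0c⟩ : ∃ F0 : ℝ, 0 ≤ F0 ∧ F0 ≤ Fm ∧
      ∀ δ ∈ D ×ˢ D, ∀ u ∈ T, ∀ v ∈ T,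
      |F (X δ.1 + u) (X' δ.2 + v) - F0 * χ (X δ.1 + u) (X' δ.2 + v)| ≤
        e * χ (X δ.1 + u) (X' δ.2 + v) := by
    by_cases hex : ∃ δ ∈ D ×ˢ D, ∃ u ∈ T, ∃ v ∈ T, (X' δ.2 + v) - lam * (X δ.1 + u) ∈ I
    · obtain ⟨ε, hε, u', hu', v', hv', hc⟩ := hex
      refine ⟨F (X ε.1 + u') (X' ε.2 + v'), hF0 _ _, hFm _ _, fun δ hδ u hu v hv => ?_⟩
      by_cases hd : (X' δ.2 + v) - lam * (X δ.1 + u) ∈ I
      · have hone : χ (X δ.1 + u) (X' δ.2 + v) = 1 := if_pos hd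
        rw [hone, mul_one, mul_one]
        exact hFe _ (Finset.mem_product.1 hδ).1 _ (Finset.mem_product.1 hδ).2 _
          (Finset.mem_product.1 hε).1 _ (Finset.mem_product.1 hε).2 u hu v hv u' hu' v' hv' hd hc
      · have hzero : χ (X δ.1 + u) (X' δ.2 + v) = 0 := if_neg hd
        rw [hzero, hFc _ _ hd]
        simp
    · refine ⟨0, le_rfl, (hF0 0 0).trans (hFm 0 0), fun δ hδ u hu v hv => ?_⟩
      have hd : ¬ ((X' δ.2 + v) - lam * (X δ.1 + u) ∈ I) :=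
        fun h => hex ⟨δ, hδ, u, hu, v, hv, h⟩
      have hzero : χ (X δ.1 + u) (X' δ.2 + v) = 0 := if_neg hd
      rw [hzero, hFc _ _ hd]
      simp
  have hsplit : ∑ δ ∈ D ×ˢ D, alt T F (X δ.1) (X' δ.2) =
      ∑ δ ∈ D ×ˢ D, alt T (fun α β => F α β - F0 * χ α β) (X δ.1) (X' δ.2) +
        F0 * ∑ δ ∈ D ×ˢ D, alt T χ (X δ.1) (X' δ.2) := by
    rw [Finset.mul_sum, ← Finset.sum_add_distrib]
    exact Finset.sum_congr rfl fun δ _ => ABT_lin T F χ F0 _ _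
  -- first part
  have hpart1 : |∑ δ ∈ D ×ˢ D, alt T (fun α β => F α β - F0 * χ α β) (X δ.1) (X' δ.2)| ≤
      4 * e * (M ^ 2 / N * GI a I) := by
    refine (Finset.abs_sum_le_sum_abs _ _).trans ?_
    refine (Finset.sum_le_sum fun δ hδ => ABT_bd T hT0 (fun α β => F α β - F0 * χ α β) χ e
      (X δ.1) (X' δ.2) (fun u hu v hv => hF0c δ hδ u hu v hv)).trans ?_
    rw [← Finset.mul_sum, ABT_sumpl (D ×ˢ D) T χ (fun δ => X δ.1) (fun δ => X' δ.2)]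
    have b0 : ∑ δ ∈ D ×ˢ D, χ (X δ.1) (X' δ.2) ≤ M ^ 2 / N * GI a I := by
      simpa using hABU 0 0
    have b1 : 1 / (T.card : ℝ) * ∑ v ∈ T, ∑ δ ∈ D ×ˢ D, χ (X δ.1) (X' δ.2 + v) ≤
        M ^ 2 / N * GI a I :=
      ABT_avle T hTpos _ _ _ rfl fun v _ => by simpa using hABU 0 v
    have b2 : 1 / (T.card : ℝ) * ∑ u ∈ T, ∑ δ ∈ D ×ˢ D, χ (X δ.1 + u) (X' δ.2) ≤
        M ^ 2 / N * GI a I :=
      ABT_avle T hTpos _ _ _ rfl fun u _ => by simpa using hABU u 0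
    have b3 : 1 / (T.card : ℝ) ^ 2 * ∑ p ∈ T ×ˢ T, ∑ δ ∈ D ×ˢ D,
        χ (X δ.1 + p.1) (X' δ.2 + p.2) ≤ M ^ 2 / N * GI a I :=
      ABT_avle (T ×ˢ T) (by rw [Finset.card_product]; positivity) _ _ _
        (by rw [Finset.card_product]; push_cast; ring) fun p _ => hABU p.1 p.2
    have b4 := mul_le_mul_of_nonneg_left (add_le_add (add_le_add (add_le_add b0 b1) b2) b3) he
    refine b4.trans (le_of_eq ?_)
    ring
  -- second part
  set η : ℝ := C * ((N : ℝ) / ((Θ / W : ℕ) : ℝ)) with hη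
  have hη0 : 0 ≤ η := by positivity
  set Tf : 𝓞 K ⧸ I → ℝ := fun c =>
    ((T.filter fun u => Ideal.Quotient.mk I u = c).card : ℝ) / (T.card : ℝ) with hTf
  obtain ⟨hU, hG⟩ := h4 K r a ha I W hI hW
  obtain ⟨lu, hlu⟩ := hlam
  have hfl := (h3 (𝓞 K ⧸ I) (PQ a I) Tf (UV I W)
    (Ideal.map (Ideal.Quotient.mk I) (Ideal.span {(W : 𝓞 K)})) lu η hη0 hP0 hU
    (fun c => hAVT Θ W I hW hI hN c)).1
  rw [hlu] at hfl
  have hpart2 : |∑ δ ∈ D ×ˢ D, alt T χ (X δ.1) (X' δ.2)| ≤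
      M ^ 2 / N * (2 * (GI a I - GI a (I ⊔ Ideal.span {(W : 𝓞 K)})) + 2 * η ^ 2 * GI a I) := by
    have a0 : ∑ δ ∈ D ×ˢ D, χ (X δ.1) (X' δ.2) = M ^ 2 * ∑ c, PQ a I c * PQ a I (l * c) := by
      simpa using hnum 0 0
    have a1 : 1 / (T.card : ℝ) * ∑ v ∈ T, ∑ δ ∈ D ×ˢ D, χ (X δ.1) (X' δ.2 + v) =
        M ^ 2 * ∑ v, Tf v * ∑ c, PQ a I c * PQ a I (l * c - v) := by
      have q1 : ∀ v ∈ T, ∑ δ ∈ D ×ˢ D, χ (X δ.1) (X' δ.2 + v) =
          M ^ 2 * ∑ c, PQ a I c * PQ a I (l * c - Ideal.Quotient.mk I v) := fun v _ => by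
        simpa using hnum 0 v
      rw [Finset.sum_congr rfl q1, ABT_av T (Ideal.Quotient.mk I)
        (fun v => M ^ 2 * ∑ c, PQ a I c * PQ a I (l * c - v)), Finset.mul_sum]
      refine Finset.sum_congr rfl fun v _ => ?_
      simp only [hTf]
      ring
    have a2 : 1 / (T.card : ℝ) * ∑ u ∈ T, ∑ δ ∈ D ×ˢ D, χ (X δ.1 + u) (X' δ.2) =
        M ^ 2 * ∑ u, Tf u * ∑ c, PQ a I (c - u) * PQ a I (l * c) := by
      have q1 : ∀ u ∈ T, ∑ δ ∈ D ×ˢ D, χ (X δ.1 + u) (X' δ.2) =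
          M ^ 2 * ∑ c, PQ a I (c - Ideal.Quotient.mk I u) * PQ a I (l * c) := fun u _ => by
        simpa using hnum u 0
      rw [Finset.sum_congr rfl q1, ABT_av T (Ideal.Quotient.mk I)
        (fun u => M ^ 2 * ∑ c, PQ a I (c - u) * PQ a I (l * c)), Finset.mul_sum]
      refine Finset.sum_congr rfl fun v _ => ?_
      simp only [hTf]
      ring
    have a3 : 1 / (T.card : ℝ) ^ 2 * ∑ p ∈ T ×ˢ T, ∑ δ ∈ D ×ˢ D,
        χ (X δ.1 + p.1) (X' δ.2 + p.2) =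
        M ^ 2 * ∑ u, ∑ v, Tf u * Tf v * ∑ c, PQ a I (c - u) * PQ a I (l * c - v) := by
      rw [Finset.sum_product]
      have q1 : ∀ u ∈ T, 1 / (T.card : ℝ) * ∑ v ∈ T, ∑ δ ∈ D ×ˢ D,
          χ (X δ.1 + (u, v).1) (X' δ.2 + (u, v).2) =
          M ^ 2 * ∑ v, Tf v * ∑ c, PQ a I (c - Ideal.Quotient.mk I u) * PQ a I (l * c - v) := by
        intro u _
        rw [Finset.sum_congr rfl fun v _ => hnum u v, ABT_av T (Ideal.Quotient.mk I)
          (fun v => M ^ 2 * ∑ c, PQ a I (c - Ideal.Quotient.mk I u) * PQ a I (l * c - v)),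
          Finset.mul_sum]
        refine Finset.sum_congr rfl fun v _ => ?_
        simp only [hTf]
        ring
      have q2 : 1 / (T.card : ℝ) ^ 2 * ∑ u ∈ T, ∑ v ∈ T, ∑ δ ∈ D ×ˢ D,
          χ (X δ.1 + (u, v).1) (X' δ.2 + (u, v).2) =
          1 / (T.card : ℝ) * ∑ u ∈ T, (1 / (T.card : ℝ) * ∑ v ∈ T, ∑ δ ∈ D ×ˢ D,
          χ (X δ.1 + (u, v).1) (X' δ.2 + (u, v).2)) := by
        rw [← Finset.mul_sum]
        ring
      rw [q2, Finset.sum_congr rfl q1, ABT_av T (Ideal.Quotient.mk I)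
        (fun u => M ^ 2 * ∑ v, Tf v * ∑ c, PQ a I (c - u) * PQ a I (l * c - v)),
        Finset.mul_sum]
      refine Finset.sum_congr rfl fun u _ => ?_
      rw [Finset.mul_sum, Finset.mul_sum, Finset.mul_sum]
      refine Finset.sum_congr rfl fun v _ => ?_
      simp only [hTf]
      ring
    rw [ABT_sumalt (D ×ˢ D) T χ (fun δ => X δ.1) (fun δ => X' δ.2), a0, a1, a2, a3,
      ← mul_sub, ← mul_sub, ← mul_add, abs_mul, abs_of_nonneg (by positivity : (0 : ℝ) ≤ M ^ 2)]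
    refine (mul_le_mul_of_nonneg_left hfl (by positivity)).trans (le_of_eq ?_)
    rw [← hG, hGI, ← hNdef]
    field_simp
  have hpart3 : |F0 * ∑ δ ∈ D ×ˢ D, alt T χ (X δ.1) (X' δ.2)| ≤
      Fm * (M ^ 2 / N * (2 * (GI a I - GI a (I ⊔ Ideal.span {(W : 𝓞 K)})) +
        2 * η ^ 2 * GI a I)) := by
    rw [abs_mul, abs_of_nonneg hF00]
    exact mul_le_mul hF0m hpart2 (abs_nonneg _) (hF00.trans hF0m)
  change |∑ δ ∈ D ×ˢ D, alt T F (X δ.1) (X' δ.2)| ≤ _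
  rw [hsplit]
  refine (abs_add_le _ _).trans ((add_le_add hpart1 hpart3).trans (le_of_eq ?_))
  rw [hη]
  ring

end ABT

end Pool.Agent.NRN
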