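import Pool.Agent.NRN.StG

/-!
# NRN [ABU]: compatible shifts, upper bound (helper70)
-/

set_option autoImplicit false

namespace Pool.Agent.NRN

open scoped BigOperators
open Classical NumberField IsDedekindDomain
open Pool.Agent.RHP (Mon mono ev Sys Prim pd WB WW)
open Pool.Agent.RHK Pool.Agent.RHC Pool.Agent.NRM
open Pool.Agent.RHKB (mI hh jj qv MK uu BadK)
open Pool.Agent.RHCB (BadC cred cemb uk PrC hM f00)

theorem ABU_card {K : Type} [Field K] [NumberField K] {r : ℕ} (a : (Fin r → 𝓞 K) → 𝓞 K)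
    (I : Ideal (𝓞 K)) [Fintype (𝓞 K ⧸ I)] (lam : 𝓞 K) (w w' : Fin r → 𝓞 K) (u v : 𝓞 K)
    (D : Finset (Fin r → 𝓞 K)) :
    ((D ×ˢ D).filter fun δ =>
        (a (fun j => w' j + δ.2 j) + v) - lam * (a (fun j => w j + δ.1 j) + u) ∈ I).card =
      ∑ c : 𝓞 K ⧸ I, (D.filter fun δ => Ideal.Quotient.mk I (a fun j => w j + δ j) =
          c - Ideal.Quotient.mk I u).card *
        (D.filter fun δ => Ideal.Quotient.mk I (a fun j => w' j + δ j) =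
          Ideal.Quotient.mk I lam * c - Ideal.Quotient.mk I v).card := by
  rw [Finset.card_eq_sum_card_fiberwise (t := (Finset.univ : Finset (𝓞 K ⧸ I)))
    (f := fun δ => Ideal.Quotient.mk I (a (fun j => w j + δ.1 j) + u))
    (fun _ _ => Finset.mem_coe.2 (Finset.mem_univ _))]
  refine Finset.sum_congr rfl fun c _ => ?_
  rw [← Finset.card_product]
  congr 1
  ext δ
  simp only [Finset.mem_filter, Finset.mem_product, ← Ideal.Quotient.eq_zero_iff_mem,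
    map_sub, map_add, map_mul]
  constructor
  · rintro ⟨⟨⟨h1, h2⟩, h3⟩, h4⟩
    refine ⟨⟨h1, ?_⟩, h2, ?_⟩
    · rw [← h4]; ring
    · rw [h4] at h3
      linear_combination h3
  · rintro ⟨⟨h1, h3⟩, h2, h4⟩
    refine ⟨⟨⟨h1, h2⟩, ?_⟩, ?_⟩
    · rw [h3, h4]; ring
    · rw [h3]; ring

theorem thm_ABU (h1 : St_SHA) (h2 : St_FLM) (h3 : St_GBA) : St_ABU := by
  intro K _ _ r a ha I lam hI hlam w w' u v
  have hN : 0 < Ideal.absNorm I :=
    Nat.pos_of_ne_zero fun h => hI (Ideal.absNorm_eq_zero_iff.1 h)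
  haveI : Finite (𝓞 K ⧸ I) := Ideal.finiteQuotientOfFreeOfNeBot I hI
  letI : Fintype (𝓞 K ⧸ I) := Fintype.ofFinite _
  have hG : GI a I = (Ideal.absNorm I : ℝ) * ∑ c : 𝓞 K ⧸ I, PQ a I c ^ 2 :=
    (h3 K r a ha I hI).1
  have hS := (h1 K r a ha I (Ideal.absNorm I) hI hN (Ideal.absNorm_mem I)).2
  obtain ⟨lam', hlam'⟩ := hlam
  have hP : ∀ c : 𝓞 K ⧸ I, 0 ≤ PQ a I c := fun c =>
    div_nonneg (Nat.cast_nonneg _) (pow_nonneg (Nat.cast_nonneg _) _)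
  have hF := (h2 (𝓞 K ⧸ I) (PQ a I)
    (fun c => if c ∈ (⊥ : Ideal (𝓞 K ⧸ I)) then 1 / (Nat.card (⊥ : Ideal (𝓞 K ⧸ I)) : ℝ) else 0)
    (fun c => if c ∈ (⊥ : Ideal (𝓞 K ⧸ I)) then 1 / (Nat.card (⊥ : Ideal (𝓞 K ⧸ I)) : ℝ) else 0)
    ⊥ lam' 0 le_rfl hP (fun _ => rfl) (fun c => by simp)).2
    (Ideal.Quotient.mk I u) (Ideal.Quotient.mk I v)
  rw [ABU_card a I lam w w' u v, hG]
  push_cast
  simp_rw [hS]
  rw [hlam'] at hF
  have e1 : (∑ c : 𝓞 K ⧸ I, PQ a I (c - Ideal.Quotient.mk I u) *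
        ((Ideal.absNorm I : ℝ) ^ dg K) ^ r *
      (PQ a I (Ideal.Quotient.mk I lam * c - Ideal.Quotient.mk I v) *
        ((Ideal.absNorm I : ℝ) ^ dg K) ^ r)) = (((Ideal.absNorm I : ℝ) ^ dg K) ^ r) ^ 2 *
      ∑ c : 𝓞 K ⧸ I, PQ a I (c - Ideal.Quotient.mk I u) *
        PQ a I (Ideal.Quotient.mk I lam * c - Ideal.Quotient.mk I v) := by
    rw [Finset.mul_sum]
    exact Finset.sum_congr rfl fun c _ => by ring
  rw [e1, mul_assoc, mul_comm (∑ c : 𝓞 K ⧸ I, _ * _)]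
  exact mul_le_mul_of_nonneg_left (mul_le_mul_of_nonneg_left hF.2 (Nat.cast_nonneg _))
    (sq_nonneg _)

end Pool.Agent.NRN
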