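import Pool.Agent.NRN.StS
import Pool.Agent.RHK.CMP
import Pool.Agent.RHK.Sz
import Pool.Agent.RHKB.LIPK

/-!
NRN, block S, module ACM: the values of a form at two points, at the infinite places (helper88).
-/

set_option autoImplicit false

namespace Pool.Agent.NRN

open scoped BigOperators
open Classical NumberField IsDedekindDomain
open Pool.Agent.RHP (Mon mono ev Sys Prim pd WB WW)
open Pool.Agent.RHK Pool.Agent.RHC Pool.Agent.NRM
open Pool.Agent.RHKB (mI hh jj qv MK uu BadK)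

theorem thm_ACM : St_ACM := by
  intro K _ _ d _
  obtain ⟨C0, _, hC1, _⟩ := thm_CMP K
  refine ⟨2 ^ d * (Fintype.card (Mon 2 d) * (C0 * 2) * d) + 1, ?_, ?_⟩
  · have : (0 : ℝ) ≤ 2 ^ d * (Fintype.card (Mon 2 d) * (C0 * 2) * d) := by positivity
    linarith
  intro X H x y hX hx hy v
  have hX1 : (1 : ℝ) ≤ X := by exact_mod_cast hX
  have hX0 : (0 : ℝ) < X := by linarith
  have hnorm : ∀ a : 𝓞 K, ‖v.embedding (a : K)‖ = av v a := fun a => v.norm_embedding_eq (a : K)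
  obtain ⟨i, hi⟩ := exists_av_eq_vs v x (by norm_num)
  have hxi : (X : ℝ) < 2 * av v (x i) := by rw [hi]; exact (hx v).1
  have hxi0 : 0 < av v (x i) := by linarith
  have hσxi : v.embedding (x i : K) ≠ 0 := by
    rw [← norm_pos_iff, hnorm]; exact hxi0
  set μ0 : ℂ := v.embedding (y i : K) / v.embedding (x i : K) with hμ0
  have hμ2 : ‖μ0‖ ≤ 2 := by
    rw [hμ0, norm_div, hnorm, hnorm, div_le_iff₀ hxi0]
    have := (av_le_vs v y i).trans (hy v)
    linarith
  refine ⟨μ0 ^ d, ?_, ?_⟩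
  · rw [norm_pow]; exact pow_le_pow_left₀ (norm_nonneg _) hμ2 d
  intro f hf
  set σ : 𝓞 K →+* ℂ := v.embedding.comp (algebraMap (𝓞 K) K) with hσ
  have hσa : ∀ a : 𝓞 K, σ a = v.embedding (a : K) := fun a => rfl
  set c : ℂ := ((2 * X : ℝ) : ℂ) with hc
  have hcn : ‖c‖ = 2 * X := by
    rw [hc, Complex.norm_real, Real.norm_of_nonneg (by positivity)]
  have hc0 : c ≠ 0 := by
    rw [← norm_pos_iff, hcn]; positivity
  set F : Mon 2 d → ℂ := fun m => σ (f m) with hF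
  set y' : Fin 2 → ℂ := fun j => c⁻¹ * σ (y j) with hy'
  set x' : Fin 2 → ℂ := fun j => c⁻¹ * (μ0 * σ (x j)) with hx'
  have h1 : v.embedding ((ev f y : 𝓞 K) : K) = c ^ d * ev F y' := by
    rw [← hσa, ← Pool.Agent.RHP.ev_map, ← Pool.Agent.RHP.ev_smul_pt]
    congr 1
    funext j
    rw [hy', mul_inv_cancel_left₀ hc0]
  have h2 : μ0 ^ d * v.embedding ((ev f x : 𝓞 K) : K) = c ^ d * ev F x' := by
    rw [← hσa, ← Pool.Agent.RHP.ev_map, ← Pool.Agent.RHP.ev_smul_pt,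
      ← Pool.Agent.RHP.ev_smul_pt]
    congr 1
    funext j
    rw [hx', mul_inv_cancel_left₀ hc0]
  have hcinv : ‖c⁻¹‖ = (2 * (X : ℝ))⁻¹ := by rw [norm_inv, hcn]
  have hy1 : ‖y'‖ ≤ 1 := by
    rw [pi_norm_le_iff_of_nonneg zero_le_one]
    intro j
    rw [hy', norm_mul, hcinv, hσa, hnorm, inv_mul_le_iff₀ (by positivity)]
    have := (av_le_vs v y j).trans (hy v)
    linarith
  have hx1 : ‖x'‖ ≤ 1 := by
    rw [pi_norm_le_iff_of_nonneg zero_le_one]
    intro j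
    rw [hx', norm_mul, hcinv, norm_mul, hσa, hnorm, inv_mul_le_iff₀ (by positivity)]
    have h3 := (av_le_vs v x j).trans (hx v).2
    have h4 : ‖μ0‖ * av v (x j) ≤ 2 * X :=
      mul_le_mul hμ2 h3 (av_nonneg v _) (by norm_num)
    linarith
  have hw0 : 0 ≤ wv v x y := wv_nonneg v x y
  have hxy : ‖y' - x'‖ ≤ wv v x y / (X : ℝ) ^ 2 := by
    rw [pi_norm_le_iff_of_nonneg (by positivity)]
    intro j
    have h3 : (y' - x') j = c⁻¹ * (σ (mn x y (i, j)) / σ (x i)) := by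
      have h4 : σ (mn x y (i, j)) = σ (x i) * σ (y j) - σ (x j) * σ (y i) := by
        rw [← map_mul, ← map_mul, ← map_sub]; rfl
      have h5 : σ (x i) ≠ 0 := hσxi
      rw [Pi.sub_apply, hy', hx', h4, hμ0]
      simp only [← hσa]
      field_simp
    rw [h3, norm_mul, hcinv, norm_div, hσa, hσa, hnorm, hnorm]
    have h6 := av_mn_le v x y (i, j)
    have h7 : av v (mn x y (i, j)) / av v (x i) ≤ wv v x y / (X / 2) := by
      apply div_le_div₀ hw0 h6 (by positivity) (by linarith)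
    calc (2 * (X : ℝ))⁻¹ * (av v (mn x y (i, j)) / av v (x i))
        ≤ (2 * (X : ℝ))⁻¹ * (wv v x y / (X / 2)) :=
          mul_le_mul_of_nonneg_left h7 (by positivity)
      _ = wv v x y / (X : ℝ) ^ 2 := by field_simp
  have hB : ∀ m, ‖F m‖ ≤ C0 * (2 * H) := by
    intro m
    show ‖σ (f m)‖ ≤ _
    rw [hσa, hnorm]
    refine (hC1 (f m) v).trans ?_
    have h8 : cz (f m) ≤ 2 * H := mem_cb.1 (Fintype.mem_piFinset.1 hf m)
    have h9 : (cz (f m) : ℝ) ≤ 2 * H := by exact_mod_cast h8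
    exact mul_le_mul_of_nonneg_left h9 (Nat.cast_nonneg _)
  have hL := (Pool.Agent.RHKB.thm_LIPK ℂ 2 d F _ hB y' x' hy1 hx1).2.1
  rw [h1, h2, ← mul_sub, norm_mul, norm_pow, hcn]
  have hk : (0 : ℝ) ≤ Fintype.card (Mon 2 d) * (C0 * (2 * H)) * d := by positivity
  have hq : 0 ≤ wv v x y / (X : ℝ) ^ 2 := by positivity
  calc (2 * (X : ℝ)) ^ d * ‖ev F y' - ev F x'‖
      ≤ (2 * (X : ℝ)) ^ d * (Fintype.card (Mon 2 d) * (C0 * (2 * H)) * d *
          (wv v x y / (X : ℝ) ^ 2)) :=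
        mul_le_mul_of_nonneg_left (hL.trans (mul_le_mul_of_nonneg_left hxy hk)) (by positivity)
    _ = 2 ^ d * (Fintype.card (Mon 2 d) * (C0 * 2) * d) * (H * (X : ℝ) ^ d) *
          (wv v x y / (X : ℝ) ^ 2) := by rw [mul_pow]; ring
    _ ≤ _ := by
        refine mul_le_mul_of_nonneg_right ?_ hq
        refine mul_le_mul_of_nonneg_right ?_ (by positivity)
        linarith

end Pool.Agent.NRN
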