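import Pool.Agent.NRN.StS
import Pool.Agent.RHC.CTYP
import Pool.Agent.RHC.PHI
import Pool.Agent.RHC.DLT
import Pool.Agent.RHC.TSC

/-!
NRN [ATS]: all pairs which are not parallel, upper bound.
-/

set_option autoImplicit false

namespace Pool.Agent.NRN

open scoped BigOperators
open Classical NumberField IsDedekindDomain
open Pool.Agent.RHP (Mon mono ev Sys Prim pd WB WW)
open Pool.Agent.RHK Pool.Agent.RHC Pool.Agent.NRM
open Pool.Agent.RHKB (mI hh jj qv MK uu BadK)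
open Pool.Agent.RHCB (BadC cred cemb uk PrC hM f00)

/-- the number of the vectors with coordinates in `[0, M)` -/
theorem ATS_db (K : Type) [Field K] [NumberField K] (r M : ℕ) :
    (db K r M).card = (M ^ dg K) ^ r := by
  have h1 : ((cb K M).filter fun a : 𝓞 K => ∀ i, 0 ≤ co a i ∧ co a i < M) =
      (Fintype.piFinset fun _ : IX K => Finset.Ico (0 : ℤ) (M : ℤ)).map
        (RingOfIntegers.basis K).equivFun.symm.toEquiv.toEmbedding := by
    ext a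
    rw [Finset.mem_filter, mem_cb, Finset.mem_map_equiv, Fintype.mem_piFinset]
    unfold cz
    rw [Finset.sup_le_iff]
    constructor
    · rintro ⟨-, h⟩ j
      rw [Finset.mem_Ico]
      exact h j
    · intro h
      have h2 : ∀ j, 0 ≤ co a j ∧ co a j < M := fun j => Finset.mem_Ico.1 (h j)
      refine ⟨fun j _ => ?_, h2⟩
      have := h2 j
      omega
  unfold db
  rw [h1, Fintype.card_piFinset, Finset.prod_const, Finset.card_univ, Fintype.card_fin,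
    Finset.card_map, Fintype.card_piFinset, Finset.prod_const, Finset.card_univ, card_IX,
    Int.card_Ico]
  congr 2

/-- the values of the weighted numbers -/
theorem ATS_val {K : Type} [Field K] [NumberField K] {s d H : ℕ} {x y : Fin s → 𝓞 K} {α β : 𝓞 K}
    (h : cP d H x y α β ≠ 0) : ∃ f ∈ box K s d (2 * H), ev f x = α ∧ ev f y = β := by
  unfold cP at h
  obtain ⟨f, hf, -⟩ := Finset.exists_ne_zero_of_sum_ne_zero h
  exact ⟨f, (Finset.mem_filter.1 hf).1, (Finset.mem_filter.1 hf).2⟩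

/-- the sum over the shifts (abstract form) -/
theorem ATS_core {V A : Type} [AddCommGroup V] [AddCommGroup A] (hS : St_SHF)
    (B Dn : Finset V) (a : V → A) (F : A → A → ℝ)
    (Fm G R b N : ℝ) (u v : A) (cmp : V → V → V × V → Prop) (near : V → V → Prop)
    (hDn : 0 < Dn.card) (hN : 0 < N) (hG : 0 ≤ G) (_hR : 0 ≤ R)
    (hF0 : ∀ α β, 0 ≤ F α β) (hFm : ∀ α β, F α β ≤ Fm)
    (hval : ∀ w ∈ B, ∀ w' ∈ B, ∀ δ ∈ Dn, ∀ δ' ∈ Dn,
      F (a (w + δ) + u) (a (w' + δ') + v) ≠ 0 → near w w' ∧ cmp w w' (δ, δ'))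
    (hcmp : ∀ w ∈ B, ∀ w' ∈ B, ∀ S : Finset (V × V),
      (∀ δ ∈ S, δ ∈ Dn ×ˢ Dn ∧ cmp w w' δ) → (S.card : ℝ) * N ≤ (Dn.card : ℝ) ^ 2 * G)
    (hcnt : ∀ w ∈ B, ∀ S : Finset V, (∀ w' ∈ S, w' ∈ B ∧ near w w') → (S.card : ℝ) ≤ R)
    (hsh : ∀ δ ∈ Dn, ∀ S : Finset V, ((∀ w ∈ S, w ∈ B ∧ w + δ ∉ B) ∨
      (∀ w ∈ S, w ∈ B ∧ w - δ ∉ B)) → (S.card : ℝ) ≤ b) :
    ∑ p ∈ B ×ˢ B, F (a p.1 + u) (a p.2 + v) ≤
      B.card * R * (Fm * G / N) + 4 * b * B.card * Fm := by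
  have hFm0 : 0 ≤ Fm := (hF0 0 0).trans (hFm 0 0)
  have hDR : (0 : ℝ) < (Dn.card : ℝ) := by exact_mod_cast hDn
  have key : ∀ δ ∈ Dn ×ˢ Dn, ∑ p ∈ B ×ˢ B, F (a p.1 + u) (a p.2 + v) ≤
      ∑ p ∈ B ×ˢ B, F (a (p.1 + δ.1) + u) (a (p.2 + δ.2) + v) + 4 * b * B.card * Fm := by
    intro δ hδ
    obtain ⟨h1, h2⟩ := Finset.mem_product.1 hδ
    have h3 := hS V B δ.1 δ.2 b
      (hsh _ h1 _ (Or.inl fun w hw => Finset.mem_filter.1 hw))
      (hsh _ h1 _ (Or.inr fun w hw => Finset.mem_filter.1 hw))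
      (hsh _ h2 _ (Or.inl fun w hw => Finset.mem_filter.1 hw))
      (hsh _ h2 _ (Or.inr fun w hw => Finset.mem_filter.1 hw))
      (fun w w' => F (a w + u) (a w' + v)) Fm (fun w w' => by
        rw [abs_of_nonneg (hF0 _ _)]
        exact hFm _ _)
    have h4 := (abs_le.1 h3).2
    linarith
  have h1 := Finset.sum_le_sum key
  rw [Finset.sum_const, Finset.sum_add_distrib, Finset.sum_const, Finset.sum_comm,
    Finset.card_product, nsmul_eq_mul, nsmul_eq_mul, Nat.cast_mul] at h1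
  have h2 : ∀ p ∈ B ×ˢ B,
      ∑ δ ∈ Dn ×ˢ Dn, F (a (p.1 + δ.1) + u) (a (p.2 + δ.2) + v) ≤
        if near p.1 p.2 then (Dn.card : ℝ) ^ 2 * (Fm * G / N) else 0 := by
    intro p hp
    obtain ⟨hp1, hp2⟩ := Finset.mem_product.1 hp
    by_cases hn : near p.1 p.2
    · rw [if_pos hn]
      have h3 : ∀ δ ∈ Dn ×ˢ Dn, F (a (p.1 + δ.1) + u) (a (p.2 + δ.2) + v) ≤
          if cmp p.1 p.2 δ then Fm else 0 := by
        intro δ hδ
        obtain ⟨hδ1, hδ2⟩ := Finset.mem_product.1 hδ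
        by_cases h0 : F (a (p.1 + δ.1) + u) (a (p.2 + δ.2) + v) = 0
        · rw [h0]
          split_ifs
          · exact hFm0
          · exact le_rfl
        · rw [if_pos (hval _ hp1 _ hp2 _ hδ1 _ hδ2 h0).2]
          exact hFm _ _
      refine (Finset.sum_le_sum h3).trans ?_
      rw [← Finset.sum_filter, Finset.sum_const, nsmul_eq_mul]
      have h4 := hcmp _ hp1 _ hp2 ((Dn ×ˢ Dn).filter fun δ => cmp p.1 p.2 δ)
        fun δ hδ => Finset.mem_filter.1 hδ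
      have h5 : (((Dn ×ˢ Dn).filter fun δ => cmp p.1 p.2 δ).card : ℝ) ≤
          (Dn.card : ℝ) ^ 2 * G / N := by
        rw [le_div_iff₀ hN]
        exact h4
      calc _ ≤ (Dn.card : ℝ) ^ 2 * G / N * Fm := mul_le_mul_of_nonneg_right h5 hFm0
        _ = _ := by ring
    · rw [if_neg hn]
      refine Finset.sum_nonpos fun δ hδ => ?_
      obtain ⟨hδ1, hδ2⟩ := Finset.mem_product.1 hδ
      by_contra h0
      push Not at h0
      exact hn (hval _ hp1 _ hp2 _ hδ1 _ hδ2 h0.ne').1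
  have h3 : ∑ p ∈ B ×ˢ B, (if near p.1 p.2 then (Dn.card : ℝ) ^ 2 * (Fm * G / N) else 0) ≤
      B.card * (R * ((Dn.card : ℝ) ^ 2 * (Fm * G / N))) := by
    rw [Finset.sum_product]
    have h4 : ∀ w ∈ B, ∑ w' ∈ B, (if near w w' then (Dn.card : ℝ) ^ 2 * (Fm * G / N) else 0) ≤
        R * ((Dn.card : ℝ) ^ 2 * (Fm * G / N)) := by
      intro w hw
      rw [← Finset.sum_filter, Finset.sum_const, nsmul_eq_mul]
      exact mul_le_mul_of_nonneg_right (hcnt w hw _ fun w' hw' => Finset.mem_filter.1 hw')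
        (by positivity)
    refine (Finset.sum_le_sum h4).trans ?_
    rw [Finset.sum_const, nsmul_eq_mul]
  have h4 := (Finset.sum_le_sum h2).trans h3
  have h5 : ((Dn.card : ℝ) * Dn.card) * ∑ p ∈ B ×ˢ B, F (a p.1 + u) (a p.2 + v) ≤
      ((Dn.card : ℝ) * Dn.card) *
        (B.card * R * (Fm * G / N) + 4 * b * B.card * Fm) := by
    refine h1.trans ?_
    have h6 := add_le_add_left h4 ((Dn.card : ℝ) * Dn.card * (4 * b * B.card * Fm))
    calc _ ≤ _ := h6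
      _ = _ := by ring
  exact le_of_mul_le_mul_left h5 (mul_pos hDR hDR)

/-- the sum over the shifts for a pair of points -/
theorem ATS_pair (h1 : St_ABU) (h2 : St_SHF) {K : Type} [Field K] [NumberField K]
    {D m c t V H r : ℕ} {B : Finset (Fin r → 𝓞 K)} {a : (Fin r → 𝓞 K) → 𝓞 K} {C0 : ℝ}
    (hfam : FAMR D m c t V H B a C0) (hC0 : 0 ≤ C0) {x y : Fin 2 → 𝓞 K} (hP : ¬ Par x y)
    (u v lam : 𝓞 K) (CA Fm : ℝ) (hlam : IsUnit (Ideal.Quotient.mk (gI x y) lam))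
    (hlam2 : ∀ f : Mon 2 (D * m) → 𝓞 K, ev f y - lam ^ (D * m) * ev f x ∈ gI x y)
    (μ : InfinitePlace K → ℂ) (hμ : ∀ v0, ‖μ v0‖ ≤ 2 ^ (D * m))
    (hμ2 : ∀ v0 : InfinitePlace K, ∀ f ∈ box K 2 (D * m) (2 * H),
      ‖v0.embedding ((ev f y : 𝓞 K) : K) - μ v0 * v0.embedding ((ev f x : 𝓞 K) : K)‖ ≤
        CA * (H * (XC 2 c t : ℝ) ^ (D * m)) * (wv v0 x y / (XC 2 c t : ℝ) ^ 2))
    (hF0 : ∀ α β, 0 ≤ cP (D * m) H x y α β) (hFm : ∀ α β, cP (D * m) H x y α β ≤ Fm)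
    (hX : 1 ≤ XC 2 c t) (hQ : 1 ≤ QN 2 m c t V) (hMQ : wn x y ≤ QN 2 m c t V) (hCA : 0 ≤ CA)
    (hth : ∀ v0 : InfinitePlace K, C0 * (1 + 2 ^ (D * m)) * wn x y * (XC 2 c t : ℝ) ^ 2 ≤
      QN 2 m c t V * wv v0 x y)
    (hPT : 1 ≤ PT (fun v0 => (CA + 1) * (wv v0 x y / (XC 2 c t : ℝ) ^ 2)) *
      (QN 2 m c t V : ℝ) ^ dg K) :
    ∑ p ∈ B ×ˢ B, cP (D * m) H x y (a p.1 + u) (a p.2 + v) ≤
      B.card * (C0 * ((QN 2 m c t V : ℝ) ^ r) ^ dg K *
        PT (fun v0 => (CA + 1) * (wv v0 x y / (XC 2 c t : ℝ) ^ 2)) ^ ((1 : ℝ) / D)) *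
        (Fm * GI a (gI x y) / wn x y) +
      4 * (C0 * wn x y * ((QN 2 m c t V : ℝ) ^ r) ^ dg K / QN 2 m c t V) * B.card * Fm := by
  have hwn : 0 < wn x y := wn_pos hP
  have hwnR : (0 : ℝ) < wn x y := by exact_mod_cast hwn
  have hQR : (0 : ℝ) < QN 2 m c t V := by exact_mod_cast hQ
  have hXR : (0 : ℝ) < XC 2 c t := by exact_mod_cast hX
  have hG0 : 0 ≤ GI a (gI x y) := by
    unfold GI
    positivity
  have hcard : ((db K r (wn x y)).card : ℝ) = ((wn x y : ℝ) ^ dg K) ^ r := by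
    rw [ATS_db]
    push_cast
    rfl
  refine ATS_core h2 B (db K r (wn x y)) a (cP (D * m) H x y) Fm (GI a (gI x y)) _ _ (wn x y) u v
    (fun w w' δ => (a (fun j => w' j + δ.2 j) + v) -
      lam ^ (D * m) * (a (fun j => w j + δ.1 j) + u) ∈ gI x y)
    (fun w w' => ∀ v0 : InfinitePlace K, ‖v0.embedding (a w' : K) -
      (μ v0 * v0.embedding ((a w + u : 𝓞 K) : K) - v0.embedding (v : K))‖ ≤
        ((CA + 1) * (wv v0 x y / (XC 2 c t : ℝ) ^ 2)) * (H * (XC 2 c t : ℝ) ^ (D * m)))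
    ?_ hwnR hG0 ?_ hF0 hFm ?_ ?_ ?_ ?_
  · have : (0 : ℝ) < ((db K r (wn x y)).card : ℝ) := by
      rw [hcard]
      positivity
    exact_mod_cast this
  · have : 0 ≤ PT (fun v0 : InfinitePlace K => (CA + 1) * (wv v0 x y / (XC 2 c t : ℝ) ^ 2)) := by
      unfold PT
      refine Finset.prod_nonneg fun v0 _ => ?_
      have := wv_pos (v := v0) hP
      positivity
    positivity
  · intro w hw w' hw' δ hδ δ' hδ' hne
    obtain ⟨f, hf, hfx, hfy⟩ := ATS_val hne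
    refine ⟨fun v0 => ?_, ?_⟩
    · have e1 := hμ2 v0 f hf
      rw [hfx, hfy] at e1
      have e2 := hfam.lip (wn x y) hwn hMQ w hw δ hδ v0
      have e3 := hfam.lip (wn x y) hwn hMQ w' hw' δ' hδ' v0
      have hav : ∀ z : 𝓞 K, av v0 z = ‖v0.embedding (z : K)‖ := by
        intro z
        unfold av
        exact (v0.norm_embedding_eq _).symm
      rw [hav] at e2 e3
      have hHX : (0 : ℝ) ≤ H * (XC 2 c t : ℝ) ^ (D * m) := by positivity
      set HX : ℝ := H * (XC 2 c t : ℝ) ^ (D * m) with hHXd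
      set wd : Fin r → 𝓞 K := w + δ with hwd
      set wd' : Fin r → 𝓞 K := w' + δ' with hwd'
      have e2' : ‖v0.embedding ((a wd - a w : 𝓞 K) : K)‖ ≤ C0 * wn x y * HX / QN 2 m c t V := by
        rw [le_div_iff₀ hQR]
        exact e2
      have e3' : ‖v0.embedding ((a wd' - a w' : 𝓞 K) : K)‖ ≤
          C0 * wn x y * HX / QN 2 m c t V := by
        rw [le_div_iff₀ hQR]
        exact e3
      have e4 : v0.embedding (a w' : K) -
          (μ v0 * v0.embedding ((a w + u : 𝓞 K) : K) - v0.embedding (v : K)) =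
          (v0.embedding ((a wd' + v : 𝓞 K) : K) - μ v0 * v0.embedding ((a wd + u : 𝓞 K) : K)) -
          v0.embedding ((a wd' - a w' : 𝓞 K) : K) +
          μ v0 * v0.embedding ((a wd - a w : 𝓞 K) : K) := by
        push_cast
        simp only [map_add, map_sub]
        ring
      rw [e4]
      have e5 : ‖μ v0 * v0.embedding ((a wd - a w : 𝓞 K) : K)‖ ≤
          2 ^ (D * m) * (C0 * wn x y * HX / QN 2 m c t V) := by
        rw [norm_mul]
        exact mul_le_mul (hμ v0) e2' (norm_nonneg _) (by positivity)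
      have e6 : C0 * wn x y * HX / QN 2 m c t V + 2 ^ (D * m) *
          (C0 * wn x y * HX / QN 2 m c t V) ≤ wv v0 x y / (XC 2 c t : ℝ) ^ 2 * HX := by
        have e7 : C0 * (1 + 2 ^ (D * m)) * wn x y / QN 2 m c t V ≤
            wv v0 x y / (XC 2 c t : ℝ) ^ 2 := by
          rw [div_le_div_iff₀ hQR (by positivity)]
          have := hth v0
          linarith
        calc _ = C0 * (1 + 2 ^ (D * m)) * wn x y / QN 2 m c t V * HX := by ring
          _ ≤ _ := mul_le_mul_of_nonneg_right e7 hHX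
      refine (norm_add_le _ _).trans ?_
      have e8 := norm_sub_le (v0.embedding ((a wd' + v : 𝓞 K) : K) -
        μ v0 * v0.embedding ((a wd + u : 𝓞 K) : K)) (v0.embedding ((a wd' - a w' : 𝓞 K) : K))
      have e9 : (CA + 1) * (wv v0 x y / (XC 2 c t : ℝ) ^ 2) * HX =
          CA * HX * (wv v0 x y / (XC 2 c t : ℝ) ^ 2) + wv v0 x y / (XC 2 c t : ℝ) ^ 2 * HX := by
        ring
      rw [e9]
      linarith
    · have e1 := hlam2 f
      rw [hfx, hfy] at e1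
      exact e1
  · intro w hw w' hw' S hS
    have hu : IsUnit (Ideal.Quotient.mk (gI x y) (lam ^ (D * m))) := by
      rw [map_pow]
      exact hlam.pow _
    have e1 := h1 K r a hfam.loc.cp (gI x y) (lam ^ (D * m)) (gI_ne_bot hP) hu w w' u v
    rw [hcard]
    have e2 : (((wn x y : ℝ) ^ dg K) ^ r) ^ 2 * GI a (gI x y) =
      ((((Ideal.absNorm (gI x y) : ℝ) ^ dg K) ^ r) ^ 2) * GI a (gI x y) := rfl
    rw [e2]
    refine le_trans ?_ e1
    refine mul_le_mul_of_nonneg_right ?_ (Nat.cast_nonneg _)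
    rw [Nat.cast_le]
    refine Finset.card_le_card fun δ hδ => ?_
    exact Finset.mem_filter.2 (hS δ hδ)
  · intro w hw S hS
    have e1 := hfam.arc (fun v0 => (CA + 1) * (wv v0 x y / (XC 2 c t : ℝ) ^ 2))
      (fun v0 => by
        have := wv_pos (v := v0) hP
        positivity) hPT
      (fun v0 => μ v0 * v0.embedding ((a w + u : 𝓞 K) : K) - v0.embedding (v : K))
    refine le_trans ?_ e1
    rw [Nat.cast_le]
    refine Finset.card_le_card fun w' hw' => ?_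
    exact Finset.mem_filter.2 (hS w' hw')
  · intro δ hδ S hS
    obtain ⟨e1, e2⟩ := hfam.shift (wn x y) hwn δ hδ
    rw [le_div_iff₀ hQR]
    rcases hS with hS | hS
    · refine le_trans ?_ e1
      refine mul_le_mul_of_nonneg_right ?_ hQR.le
      rw [Nat.cast_le]
      refine Finset.card_le_card fun w' hw' => ?_
      exact Finset.mem_filter.2 (hS w' hw')
    · refine le_trans ?_ e2
      refine mul_le_mul_of_nonneg_right ?_ hQR.le
      rw [Nat.cast_le]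
      refine Finset.card_le_card fun w' hw' => ?_
      exact Finset.mem_filter.2 (hS w' hw')



/-- the size of the arc -/
theorem ATS_PT {K : Type} [Field K] [NumberField K] {x y : Fin 2 → 𝓞 K} (CA X : ℝ) :
    PT (fun v : InfinitePlace K => (CA + 1) * (wv v x y / X ^ 2)) =
      (CA + 1) ^ dg K * (wp x y / (X ^ 2) ^ dg K) := by
  unfold PT wp
  rw [← prod_pow_mult (K := K) (CA + 1), ← prod_pow_mult (K := K) (X ^ 2), ← Finset.prod_div_distrib,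
    ← Finset.prod_mul_distrib]
  refine Finset.prod_congr rfl fun v _ => ?_
  rw [mul_pow, div_pow]

/-- the product of the sizes of the minors -/
theorem ATS_wp {K : Type} [Field K] [NumberField K] {x y : Fin 2 → 𝓞 K} {X : ℝ} (hX : 0 ≤ X)
    (hx : ∀ v : InfinitePlace K, vs v x ≤ X) (hy : ∀ v : InfinitePlace K, vs v y ≤ X) :
    wp x y ≤ 2 ^ dg K * (X ^ 2) ^ dg K := by
  rw [← mul_pow, ← prod_pow_mult (K := K) (2 * X ^ 2)]
  unfold wp
  refine Finset.prod_le_prod (fun v _ => pow_nonneg (wv_nonneg v x y) _) fun v _ => ?_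
  refine pow_le_pow_left₀ (wv_nonneg v x y) ?_ _
  refine (wv_le_mul v x y).trans ?_
  have := mul_le_mul (hx v) (hy v) (vs_nonneg v y) hX
  nlinarith

/-- the power of the ratio -/
theorem ATS_pow {D ρ : ℕ} {s : ℝ} (hD : 2 ≤ D) (hs : 1 ≤ 2 ^ ρ * s) :
    1 ≤ 2 ^ ρ * s ^ (1 - (1 : ℝ) / D) := by
  have h2 : (0 : ℝ) < 2 ^ ρ := by positivity
  have hs0 : 0 < s := by
    by_contra h
    push Not at h
    have := mul_nonpos_of_nonneg_of_nonpos h2.le h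
    linarith
  have hDR : (2 : ℝ) ≤ D := by exact_mod_cast hD
  have h3 : (0 : ℝ) ≤ 1 / D := by positivity
  have h4 : (1 : ℝ) / D ≤ 1 := by
    rw [div_le_one (by linarith)]
    linarith
  rcases le_or_gt 1 s with h | h
  · have h5 : 1 ≤ s ^ (1 - (1 : ℝ) / D) := Real.one_le_rpow h (by linarith)
    have h6 : (1 : ℝ) ≤ 2 ^ ρ := one_le_pow₀ (by norm_num)
    nlinarith
  · have h5 : s ^ (1 : ℝ) ≤ s ^ (1 - (1 : ℝ) / D) :=
      Real.rpow_le_rpow_of_exponent_ge hs0 h.le (by linarith)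
    rw [Real.rpow_one] at h5
    have h6 := mul_le_mul_of_nonneg_left h5 h2.le
    linarith

/-- the final arithmetic -/
theorem ATS_fin {D ρ : ℕ} (hD : 2 ≤ D) {Bc C0 Nn P CA CB G ω X2 Q E2 Bx wnr : ℝ} (_hBc0 : 0 ≤ Bc)
    (hC0 : 1 ≤ C0) (hBc : Bc ≤ C0 * Nn) (hNn : 0 < Nn) (hCA : 1 ≤ CA) (hCB : 0 < CB)
    (hG : 1 ≤ G) (hω : 0 < ω) (hX2 : 0 < X2) (hQ : 0 < Q) (hE2 : 0 < E2) (hBx : 0 ≤ Bx)
    (hwn : wnr = ω) (hP : P = (CA + 1) ^ ρ * (ω / X2)) (hs : ω ≤ 2 ^ ρ * X2)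
    (hωQ : ω * X2 ≤ Q) :
    Bc * (C0 * Nn * P ^ ((1 : ℝ) / D)) * (2 * CB * X2 / E2 * Bx * G / wnr) +
      4 * (C0 * wnr * Nn / Q) * Bc * (2 * CB * X2 / E2 * Bx) ≤
    (2 * CB * (CA + 1) ^ ρ + 8 * CB * 2 ^ ρ) * C0 ^ 2 * (G * (X2 / ω) ^ (1 - (1 : ℝ) / D)) *
      (Nn ^ 2 / E2 * Bx) := by
  rw [hwn]
  have hDR : (2 : ℝ) ≤ D := by exact_mod_cast hD
  have hD1 : (0 : ℝ) ≤ 1 / D := by positivity
  have hD2 : (1 : ℝ) / D ≤ 1 := by
    rw [div_le_one (by linarith)]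
    linarith
  have hC00 : 0 < C0 := by linarith
  set s : ℝ := X2 / ω with hsdef
  have hs0 : 0 < s := div_pos hX2 hω
  have hs1 : 1 ≤ 2 ^ ρ * s := by
    rw [hsdef, mul_div_assoc', le_div_iff₀ hω, one_mul]
    exact hs
  have hs2 := ATS_pow hD hs1
  set sp : ℝ := s ^ (1 - (1 : ℝ) / D) with hsp
  have hsp0 : 0 < sp := Real.rpow_pos_of_pos hs0 _
  have hCA1 : (1 : ℝ) ≤ (CA + 1) ^ ρ := one_le_pow₀ (by linarith)
  -- the power of P
  have hP1 : P ^ ((1 : ℝ) / D) * s ≤ (CA + 1) ^ ρ * sp := by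
    have e1 : P = (CA + 1) ^ ρ * s⁻¹ := by
      rw [hP, hsdef, inv_div]
    rw [e1, Real.mul_rpow (by positivity) (by positivity), Real.inv_rpow hs0.le]
    have e2 : ((CA + 1) ^ ρ) ^ ((1 : ℝ) / D) ≤ (CA + 1) ^ ρ := by
      calc _ ≤ ((CA + 1) ^ ρ) ^ (1 : ℝ) := Real.rpow_le_rpow_of_exponent_le hCA1 hD2
        _ = _ := Real.rpow_one _
    have e3 : (s ^ ((1 : ℝ) / D))⁻¹ * s = sp := by
      rw [hsp, Real.rpow_sub hs0, Real.rpow_one]
      field_simp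
    calc _ = ((CA + 1) ^ ρ) ^ ((1 : ℝ) / D) * ((s ^ ((1 : ℝ) / D))⁻¹ * s) := by ring
      _ = ((CA + 1) ^ ρ) ^ ((1 : ℝ) / D) * sp := by rw [e3]
      _ ≤ _ := mul_le_mul_of_nonneg_right e2 hsp0.le
  have hPp : 0 ≤ P ^ ((1 : ℝ) / D) := by
    apply Real.rpow_nonneg
    rw [hP]
    positivity
  -- first term
  have hT1 : Bc * (C0 * Nn * P ^ ((1 : ℝ) / D)) * (2 * CB * X2 / E2 * Bx * G / ω) ≤
      2 * CB * (CA + 1) ^ ρ * C0 ^ 2 * (G * sp) * (Nn ^ 2 / E2 * Bx) := by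
    have e1 : Bc * (C0 * Nn * P ^ ((1 : ℝ) / D)) * (2 * CB * X2 / E2 * Bx * G / ω) =
        Bc * (C0 * Nn * (2 * CB / E2 * Bx * G)) * (P ^ ((1 : ℝ) / D) * s) := by
      rw [hsdef]
      field_simp
    rw [e1]
    have e2 : Bc * (C0 * Nn * (2 * CB / E2 * Bx * G)) ≤
        (C0 * Nn) * (C0 * Nn * (2 * CB / E2 * Bx * G)) :=
      mul_le_mul_of_nonneg_right hBc (by positivity)
    have e3 := mul_le_mul e2 hP1 (by positivity) (by positivity)
    refine e3.trans (le_of_eq ?_)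
    ring
  -- second term
  have hT2 : 4 * (C0 * ω * Nn / Q) * Bc * (2 * CB * X2 / E2 * Bx) ≤
      8 * CB * 2 ^ ρ * C0 ^ 2 * (G * sp) * (Nn ^ 2 / E2 * Bx) := by
    have e1 : ω * X2 / Q ≤ 1 := by
      rw [div_le_one hQ]
      exact hωQ
    have e2 : 4 * (C0 * ω * Nn / Q) * Bc * (2 * CB * X2 / E2 * Bx) =
        8 * CB * C0 * Nn / E2 * Bx * Bc * (ω * X2 / Q) := by ring
    rw [e2]
    have e3 : 8 * CB * C0 * Nn / E2 * Bx * Bc * (ω * X2 / Q) ≤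
        8 * CB * C0 * Nn / E2 * Bx * (C0 * Nn) * 1 := by
      refine mul_le_mul ?_ e1 (by positivity) (by positivity)
      exact mul_le_mul_of_nonneg_left hBc (by positivity)
    refine e3.trans ?_
    have e4 : 1 ≤ 2 ^ ρ * (G * sp) := by
      calc (1 : ℝ) ≤ 2 ^ ρ * sp := hs2
        _ ≤ 2 ^ ρ * (G * sp) := by
          apply mul_le_mul_of_nonneg_left _ (by positivity)
          nlinarith
    have e5 : 0 ≤ 8 * CB * C0 ^ 2 * (Nn ^ 2 / E2 * Bx) := by positivity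
    calc _ = 8 * CB * C0 ^ 2 * (Nn ^ 2 / E2 * Bx) * 1 := by ring
      _ ≤ 8 * CB * C0 ^ 2 * (Nn ^ 2 / E2 * Bx) * (2 ^ ρ * (G * sp)) :=
        mul_le_mul_of_nonneg_left e4 e5
      _ = _ := by ring
  refine (add_le_add hT1 hT2).trans (le_of_eq ?_)
  ring

/-- [ATS] -/
theorem thm_ATS (h1 : St_ABU) (h2 : St_SHF) (h3 : St_ACM) (h4 : St_CMU) (h5 : St_CB1)
    (h6 : St_DTB) (h7 : St_SIZ) (h8 : St_GBA) : St_ATS := by
  intro K _ _ D m hD hm
  have hd : 1 ≤ D * m := Nat.one_le_iff_ne_zero.2 (by positivity)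
  obtain ⟨CA, hCA, hA⟩ := h3 K (D * m) hd
  obtain ⟨CB, hCB, hB⟩ := h5 K 2 D m ⟨le_rfl, hD, hm⟩
  refine ⟨2 * (2 * CB * (CA + 1) ^ dg K + 8 * CB * 2 ^ dg K), by positivity, ?_⟩
  intro r c v κ W C0 hcv hcv2 hκ hW hC0
  obtain ⟨t1, ht1⟩ := hB c v hcv
  obtain ⟨t2, ht2⟩ := h7 K D m c v hD hm hcv2 (C0 * (1 + 2 ^ (D * m))) κ W hκ hW
  refine ⟨max t1 t2, fun t ht V H hCR B a hfam x hx y hy hP => ?_⟩
  obtain ⟨-, hB2⟩ := ht1 t (le_trans (le_max_left _ _) ht) V H hCR x hx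
  obtain ⟨-, hc2⟩ := hB2 y hy hP
  obtain ⟨s1, s2, s3, s4, -, -, s7⟩ := ht2 t (le_trans (le_max_right _ _) ht) V H hCR x hx y hy hP
  have hH : 1 ≤ H := CTYP_H s1 hCR
  obtain ⟨hgx1, hgx2⟩ := CTYP_good hx
  obtain ⟨hgy1, hgy2⟩ := CTYP_good hy
  obtain ⟨-, -, -, hwnp, hwp1⟩ := h6 K x y
  have hwp1 := hwp1 hP
  have hX1 : 1 ≤ XC 2 c t := Nat.one_le_pow _ _ s1
  have hXR : (1 : ℝ) ≤ (XC 2 c t : ℝ) := by exact_mod_cast hX1
  have hQR : (1 : ℝ) ≤ (QN 2 m c t V : ℝ) := by exact_mod_cast s2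
  have htR : (1 : ℝ) ≤ (t : ℝ) := by exact_mod_cast s1
  have hHR : (1 : ℝ) ≤ (H : ℝ) := by exact_mod_cast hH
  obtain ⟨-, -, hPh, -⟩ := thm_PHI K 2 (D * m) H hH
  obtain ⟨lam, hlam, hlam2⟩ := h4 K 2 x y hgx1 hgy1
  have hμ := hA (XC 2 c t) H x y hX1 hgx2 (fun v => (hgy2 v).2)
  choose μ hμ1 hμ2 using hμ
  set X2 : ℝ := ((XC 2 c t : ℝ) ^ 2) ^ dg K with hX2
  have hX21 : 1 ≤ X2 := one_le_pow₀ (one_le_pow₀ hXR)
  set E2 : ℝ := (((H : ℝ) * (XC 2 c t : ℝ) ^ (D * m)) ^ dg K) ^ 2 with hE2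
  have hE20 : 0 < E2 := by positivity
  set Bx : ℝ := ((box K 2 (D * m) H).card : ℝ) with hBx
  have hBx0 : 0 ≤ Bx := Nat.cast_nonneg _
  set Nn : ℝ := ((QN 2 m c t V : ℝ) ^ r) ^ dg K with hNn
  have hNn0 : 0 < Nn := by positivity
  -- the maximum
  have hFm : ∀ α β : 𝓞 K, cP (D * m) H x y α β ≤ 2 * CB * X2 / E2 * Bx := by
    intro α β
    refine (hPh x y α β).2.trans ?_
    have e1 := hc2 α β
    rw [hwnp] at e1
    have e2 : (c2 (d := D * m) (3 * H) x y α β : ℝ) * E2 * wp x y ≤ CB * X2 * Bx * wp x y := by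
      calc _ = (c2 (d := D * m) (3 * H) x y α β : ℝ) * (E2 * wp x y) := by ring
        _ ≤ CB * (wp x y * X2) * Bx := e1
        _ = _ := by ring
    have e3 := le_of_mul_le_mul_right e2 (by linarith)
    have e4 : (c2 (d := D * m) (3 * H) x y α β : ℝ) ≤ CB * X2 * Bx / E2 := by
      rw [le_div_iff₀ hE20]
      exact e3
    calc 2 * (c2 (d := D * m) (3 * H) x y α β : ℝ) ≤ 2 * (CB * X2 * Bx / E2) := by linarith
      _ = _ := by ring
  have hwnR : (0 : ℝ) ≤ wn x y := Nat.cast_nonneg _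
  have hA1 : 1 ≤ C0 * (1 + 2 ^ (D * m)) := by
    have : (0 : ℝ) < 2 ^ (D * m) := by positivity
    nlinarith
  -- sizes
  have hwX : (wn x y : ℝ) * X2 ≤ QN 2 m c t V := by
    refine le_trans ?_ s3
    have e1 : 1 ≤ C0 * (1 + 2 ^ (D * m)) * t * X2 := by
      have e2 : (1 : ℝ) ≤ C0 * (1 + 2 ^ (D * m)) * t := by nlinarith
      nlinarith
    calc (wn x y : ℝ) * X2 = 1 * ((wn x y : ℝ) * X2) := by ring
      _ ≤ (C0 * (1 + 2 ^ (D * m)) * t * X2) * ((wn x y : ℝ) * X2) :=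
        mul_le_mul_of_nonneg_right e1 (by positivity)
      _ = _ := by ring
  have hMQ : wn x y ≤ QN 2 m c t V := by
    have e1 : (wn x y : ℝ) ≤ (QN 2 m c t V : ℝ) := by nlinarith
    exact_mod_cast e1
  have hPTe : PT (fun v0 : InfinitePlace K => (CA + 1) * (wv v0 x y / (XC 2 c t : ℝ) ^ 2)) =
      (CA + 1) ^ dg K * (wp x y / X2) := ATS_PT CA _
  have hPT : 1 ≤ PT (fun v0 : InfinitePlace K => (CA + 1) * (wv v0 x y / (XC 2 c t : ℝ) ^ 2)) *
      (QN 2 m c t V : ℝ) ^ dg K := by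
    rw [hPTe]
    have e1 : (1 : ℝ) ≤ (CA + 1) ^ dg K := one_le_pow₀ (by linarith)
    have e2 : 1 ≤ wp x y / X2 * (QN 2 m c t V : ℝ) ^ dg K := by
      rw [div_mul_eq_mul_div, le_div_iff₀ (by linarith), one_mul]
      exact s7
    rw [mul_assoc]
    nlinarith
  have hbd : ∀ u w : 𝓞 K, ∑ p ∈ B ×ˢ B, cP (D * m) H x y (a p.1 + u) (a p.2 + w) ≤
      (2 * CB * (CA + 1) ^ dg K + 8 * CB * 2 ^ dg K) * C0 ^ 2 *
        (GI a (gI x y) * (X2 / wp x y) ^ (1 - (1 : ℝ) / D)) * (Nn ^ 2 / E2 * Bx) := by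
    intro u w
    refine (ATS_pair h1 h2 hfam (by linarith) hP u w lam CA (2 * CB * X2 / E2 * Bx) hlam
      (hlam2 (D * m)) μ hμ1 hμ2 (fun α β => (hPh x y α β).1) hFm hX1 s2 hMQ (by linarith) s4
      hPT).trans ?_
    refine ATS_fin hD (Nat.cast_nonneg _) hC0 hfam.card hNn0 hCA hCB
      (h8 K r a hfam.loc.cp (gI x y) (gI_ne_bot hP)).2.2.2.2.1.1 (by linarith) (by linarith)
      (by linarith) hE20 hBx0 hwnp hPTe ?_ ?_
    · exact ATS_wp (by linarith) (fun v => (hgx2 v).2) (fun v => (hgy2 v).2)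
    · rw [← hwnp]
      exact hwX
  rw [Finset.sum_add_distrib]
  set Θ := ThC 2 c t H κ (D * m) with hΘ
  set Bd : ℝ := (2 * CB * (CA + 1) ^ dg K + 8 * CB * 2 ^ dg K) * C0 ^ 2 *
        (GI a (gI x y) * (X2 / wp x y) ^ (1 - (1 : ℝ) / D)) * (Nn ^ 2 / E2 * Bx) with hBd
  have hT : (0 : ℝ) < ((TS K Θ W).card : ℝ) := by
    obtain ⟨-, h0⟩ := thm_TSC K Θ W hW
    exact_mod_cast Finset.card_pos.2 ⟨0, h0⟩
  have hS1 : ∑ q ∈ B ×ˢ B, ∑ f ∈ box K 2 (D * m) (2 * H),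
      Ph H f * (dlt (a q.1) x f * dlt (a q.2) y f) ≤ Bd := by
    have e1 : ∀ q ∈ B ×ˢ B, ∑ f ∈ box K 2 (D * m) (2 * H),
        Ph H f * (dlt (a q.1) x f * dlt (a q.2) y f) =
        cP (D * m) H x y (a q.1 + 0) (a q.2 + 0) := by
      intro q _
      rw [add_zero, add_zero]
      exact (thm_DLT K 2 (D * m) H Θ W x y (a q.1) (a q.2) hW).1
    rw [Finset.sum_congr rfl e1]
    exact hbd 0 0
  have hS2 : ∑ q ∈ B ×ˢ B, ∑ f ∈ box K 2 (D * m) (2 * H),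
      Ph H f * (lmt Θ W (a q.1) x f * lmt Θ W (a q.2) y f) ≤ Bd := by
    have e1 : ∀ q ∈ B ×ˢ B, ∑ f ∈ box K 2 (D * m) (2 * H),
        Ph H f * (lmt Θ W (a q.1) x f * lmt Θ W (a q.2) y f) =
        1 / ((TS K Θ W).card : ℝ) ^ 2 * ∑ p ∈ TS K Θ W ×ˢ TS K Θ W,
          cP (D * m) H x y (a q.1 + p.1) (a q.2 + p.2) := by
      intro q _
      exact (thm_DLT K 2 (D * m) H Θ W x y (a q.1) (a q.2) hW).2.1
    rw [Finset.sum_congr rfl e1, ← Finset.mul_sum, Finset.sum_comm]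
    have e2 : ∑ p ∈ TS K Θ W ×ˢ TS K Θ W, ∑ q ∈ B ×ˢ B,
        cP (D * m) H x y (a q.1 + p.1) (a q.2 + p.2) ≤
        ∑ p ∈ TS K Θ W ×ˢ TS K Θ W, Bd := Finset.sum_le_sum fun p _ => hbd p.1 p.2
    rw [Finset.sum_const, Finset.card_product, nsmul_eq_mul] at e2
    push_cast at e2
    rw [one_div, inv_mul_le_iff₀ (by positivity)]
    calc _ ≤ _ := e2
      _ = _ := by ring
  refine (add_le_add hS1 hS2).trans (le_of_eq ?_)
  rw [hBd]
  ring

end Pool.Agent.NRN
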