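import Pool.Agent.NRN.StG
import Pool.Agent.RHC.TSC

/-!
NRN [AVT]: the residues of the multiples of `W` in a cube (helper44).
-/

set_option autoImplicit false

namespace Pool.Agent.NRN

open scoped BigOperators
open Classical NumberField IsDedekindDomain
open Pool.Agent.RHK Pool.Agent.RHC

section

variable {K : Type} [Field K] [NumberField K]

private theorem AVT_dvd (N : ℕ) (a : 𝓞 K) : (N : 𝓞 K) ∣ a ↔ ∀ j, (N : ℤ) ∣ co a j := by
  constructor
  · rintro ⟨b, rfl⟩ j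
    refine ⟨co b j, ?_⟩
    unfold co
    rw [← nsmul_eq_mul, map_nsmul, Finsupp.smul_apply, nsmul_eq_mul]
  · intro h
    choose q hq using h
    refine ⟨(RingOfIntegers.basis K).equivFun.symm q, ?_⟩
    apply (RingOfIntegers.basis K).equivFun.injective
    funext j
    rw [← nsmul_eq_mul, map_nsmul, LinearEquiv.apply_symm_apply, Pi.smul_apply, nsmul_eq_mul]
    exact hq j

/-- residue classes in an interval -/
private theorem AVT_g (N T : ℕ) (hN : 0 < N) (v : ℤ) :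
    ((2 * T + 1 : ℕ) : ℝ) / N - 1 ≤
      (((Finset.Icc (-(T : ℤ)) T).filter fun x => (N : ℤ) ∣ x - v).card : ℝ) ∧
    (((Finset.Icc (-(T : ℤ)) T).filter fun x => (N : ℤ) ∣ x - v).card : ℝ) ≤
      ((2 * T + 1 : ℕ) : ℝ) / N + 1 := by
  have hN' : (0 : ℤ) < N := by exact_mod_cast hN
  have h1 := Int.Ico_filter_modEq_card (-(T : ℤ)) (T + 1) hN' v
  have h2 : ((Finset.Icc (-(T : ℤ)) T).filter fun x => (N : ℤ) ∣ x - v) =
      (Finset.Ico (-(T : ℤ)) (T + 1)).filter fun x => x ≡ v [ZMOD N] := by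
    ext x
    rw [Finset.mem_filter, Finset.mem_filter, Finset.mem_Icc, Finset.mem_Ico, Int.lt_add_one_iff,
      Int.modEq_comm, Int.modEq_iff_dvd]
  rw [h2]
  obtain ⟨x, hx⟩ : ∃ x : ℚ, x = (((T : ℤ) + 1 : ℤ) - (v : ℚ)) / ((N : ℤ) : ℚ) := ⟨_, rfl⟩
  obtain ⟨y, hy⟩ : ∃ y : ℚ, y = (((-(T : ℤ) : ℤ) : ℚ) - (v : ℚ)) / ((N : ℤ) : ℚ) := ⟨_, rfl⟩
  rw [← hx, ← hy] at h1
  have hNQ : (0 : ℚ) < N := by exact_mod_cast hN
  have hxy : x - y = ((2 * T + 1 : ℕ) : ℚ) / N := by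
    rw [hx, hy]
    push_cast
    field_simp
    ring
  have hle : ⌈y⌉ ≤ ⌈x⌉ := by
    apply Int.ceil_mono
    have : 0 ≤ x - y := by
      rw [hxy]
      positivity
    linarith
  rw [max_eq_left (by omega)] at h1
  have hx1 := Int.le_ceil x
  have hx2 := Int.ceil_lt_add_one x
  have hy1 := Int.le_ceil y
  have hy2 := Int.ceil_lt_add_one y
  obtain ⟨n, hn⟩ : ∃ n : ℕ, n = ((Finset.Ico (-(T : ℤ)) (T + 1)).filter
    fun x => x ≡ v [ZMOD N]).card := ⟨_, rfl⟩
  rw [← hn] at h1 ⊢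
  have h3 : (n : ℚ) = (⌈x⌉ : ℚ) - (⌈y⌉ : ℚ) := by
    have : ((n : ℤ) : ℚ) = ((⌈x⌉ - ⌈y⌉ : ℤ) : ℚ) := by rw [h1]
    push_cast at this
    exact this
  have h4 : ((2 * T + 1 : ℕ) : ℚ) / N - 1 ≤ (n : ℚ) := by
    rw [h3, ← hxy]
    linarith
  have h5 : (n : ℚ) ≤ ((2 * T + 1 : ℕ) : ℚ) / N + 1 := by
    rw [h3, ← hxy]
    linarith
  constructor
  · have := (Rat.cast_le (K := ℝ)).2 h4
    push_cast at this ⊢
    exact this
  · have := (Rat.cast_le (K := ℝ)).2 h5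
    push_cast at this ⊢
    exact this

private theorem AVT_f (N T : ℕ) (t0 : 𝓞 K) :
    ((cb K T).filter fun t => (N : 𝓞 K) ∣ t - t0).card =
      ∏ j : IX K, ((Finset.Icc (-(T : ℤ)) T).filter fun x => (N : ℤ) ∣ x - co t0 j).card := by
  unfold cb
  rw [Finset.filter_map, Finset.card_map, ← Fintype.card_piFinset]
  congr 1
  ext f
  rw [Finset.mem_filter, Fintype.mem_piFinset, Fintype.mem_piFinset]
  simp only [Finset.mem_filter, Function.comp_apply]
  have h1 : ∀ j, co ((RingOfIntegers.basis K).equivFun.symm f - t0) j = f j - co t0 j := by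
    intro j
    have h2 : co ((RingOfIntegers.basis K).equivFun.symm f) j = f j := by
      show (RingOfIntegers.basis K).equivFun ((RingOfIntegers.basis K).equivFun.symm f) j = f j
      rw [LinearEquiv.apply_symm_apply]
    rw [← h2]
    unfold co
    rw [map_sub, Finsupp.sub_apply]
  have h3 : (N : 𝓞 K) ∣ (RingOfIntegers.basis K).equivFun.symm f - t0 ↔
      ∀ j, (N : ℤ) ∣ f j - co t0 j := by
    rw [AVT_dvd]
    exact forall_congr' fun j => by rw [h1 j]
  constructor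
  · rintro ⟨h4, h5⟩ j
    exact ⟨h4 j, h3.1 h5 j⟩
  · intro h4
    exact ⟨fun j => (h4 j).1, h3.2 fun j => (h4 j).2⟩

/-- bounds for the number of elements of a class modulo `N` in the cube -/
private theorem AVT_fb (N T : ℕ) (hN : 0 < N) (hNT : N ≤ 2 * T + 1) (t0 : 𝓞 K) :
    (((2 * T + 1 : ℕ) : ℝ) / N - 1) ^ dg K ≤
      (((cb K T).filter fun t => (N : 𝓞 K) ∣ t - t0).card : ℝ) ∧
    (((cb K T).filter fun t => (N : 𝓞 K) ∣ t - t0).card : ℝ) ≤
      (((2 * T + 1 : ℕ) : ℝ) / N + 1) ^ dg K := by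
  have hN' : (0 : ℝ) < N := by exact_mod_cast hN
  have h0 : (0 : ℝ) ≤ ((2 * T + 1 : ℕ) : ℝ) / N - 1 := by
    rw [sub_nonneg, le_div_iff₀ hN', one_mul]
    exact_mod_cast hNT
  rw [AVT_f, Nat.cast_prod, ← card_IX, ← Finset.card_univ, ← Finset.prod_const,
    ← Finset.prod_const]
  constructor
  · exact Finset.prod_le_prod (fun _ _ => h0) fun j _ => (AVT_g N T hN _).1
  · exact Finset.prod_le_prod (fun _ _ => Nat.cast_nonneg _) fun j _ => (AVT_g N T hN _).2

/-- fibres of homomorphisms of finite groups -/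
private theorem AVT_hom {G H : Type} [AddCommGroup G] [AddCommGroup H] [Finite G] (φ : G →+ H)
    (c : H) (hc : c ∈ φ.range) :
    Nat.card {x : G // φ x = c} * Nat.card φ.range = Nat.card G := by
  obtain ⟨x0, hx0⟩ := hc
  have h1 : Nat.card {x : G // φ x = c} = Nat.card φ.ker := by
    refine Nat.card_congr ⟨fun x => ⟨x.1 - x0, ?_⟩, fun y => ⟨y.1 + x0, ?_⟩, fun x => ?_,
      fun y => ?_⟩
    · rw [AddMonoidHom.mem_ker, map_sub, x.2, hx0, sub_self]
    · rw [map_add, y.2, hx0, zero_add]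
    · exact Subtype.ext (sub_add_cancel _ _)
    · exact Subtype.ext (add_sub_cancel_right _ _)
  rw [h1, ← AddSubgroup.index_ker, AddSubgroup.card_mul_index]

private theorem AVT_norm (N : ℕ) : Ideal.absNorm (Ideal.span {(N : 𝓞 K)}) = N ^ dg K := by
  rw [Ideal.absNorm_span_singleton]
  have h1 : (N : 𝓞 K) = algebraMap ℤ (𝓞 K) N := by simp
  rw [h1, Algebra.norm_algebraMap, Int.natAbs_pow, Int.natAbs_natCast, RingOfIntegers.rank]

private theorem AVT_fib (J : Ideal (𝓞 K)) (hJ : J ≠ ⊥) (W N : ℕ) (hN : N = Ideal.absNorm J)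
    (h : Ideal.span {(N : 𝓞 K)} ≤ J) (c : 𝓞 K ⧸ J) :
    (Nat.card {x : 𝓞 K ⧸ Ideal.span {(N : 𝓞 K)} //
      Ideal.Quotient.mk J (W : 𝓞 K) * Ideal.Quotient.factor h x = c} : ℝ) =
      (N : ℝ) ^ dg K * UV J W c := by
  have hN0 : 0 < N := by
    rw [hN]
    exact Nat.pos_of_ne_zero (by rwa [Ne, Ideal.absNorm_eq_zero_iff])
  let φ : (𝓞 K ⧸ Ideal.span {(N : 𝓞 K)}) →+ (𝓞 K ⧸ J) :=
    (AddMonoidHom.mulLeft (Ideal.Quotient.mk J (W : 𝓞 K))).comp
      (Ideal.Quotient.factor h).toAddMonoidHom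
  have hφ : ∀ x, φ x = Ideal.Quotient.mk J (W : 𝓞 K) * Ideal.Quotient.factor h x := fun _ => rfl
  have hI0 : Ideal.span {(N : 𝓞 K)} ≠ ⊥ := by
    rw [Ne, Ideal.span_singleton_eq_bot]
    exact_mod_cast hN0.ne'
  have hfin : Finite (𝓞 K ⧸ Ideal.span {(N : 𝓞 K)}) := Ideal.finiteQuotientOfFreeOfNeBot _ hI0
  have hfin' : Finite (𝓞 K ⧸ J) := Ideal.finiteQuotientOfFreeOfNeBot _ hJ
  -- the range
  have hr : ∀ c, c ∈ φ.range ↔
      c ∈ Ideal.map (Ideal.Quotient.mk J) (Ideal.span {(W : 𝓞 K)}) := by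
    intro c
    rw [Ideal.map_span, Set.image_singleton, Ideal.mem_span_singleton]
    constructor
    · rintro ⟨x, rfl⟩
      exact Dvd.intro _ (hφ x).symm
    · rintro ⟨y, rfl⟩
      obtain ⟨x, rfl⟩ := Ideal.Quotient.factor_surjective h y
      exact ⟨x, hφ x⟩
  by_cases hc : c ∈ Ideal.map (Ideal.Quotient.mk J) (Ideal.span {(W : 𝓞 K)})
  · have h1 := AVT_hom φ c ((hr c).2 hc)
    have h2 : Nat.card (𝓞 K ⧸ Ideal.span {(N : 𝓞 K)}) = N ^ dg K := by
      rw [← Submodule.cardQuot_apply, ← Ideal.absNorm_apply, AVT_norm]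
    have h3 : φ.range =
        (Ideal.map (Ideal.Quotient.mk J) (Ideal.span {(W : 𝓞 K)})).toAddSubgroup := by
      ext x
      exact hr x
    have h4 : Nat.card φ.range * Ideal.absNorm (J ⊔ Ideal.span {(W : 𝓞 K)}) = N := by
      refine Eq.trans ?_ hN.symm
      rw [h3, Ideal.absNorm_apply, Ideal.absNorm_apply, Submodule.cardQuot_apply,
        Submodule.cardQuot_apply, ← Nat.card_congr (DoubleQuot.quotQuotEquivQuotSup J
        (Ideal.span {(W : 𝓞 K)})).toEquiv]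
      exact AddSubgroup.card_mul_index _
    rw [h2] at h1
    unfold UV
    rw [if_pos hc, ← hN]
    have h5 : (0 : ℝ) < N := by exact_mod_cast hN0
    have h6 : (Nat.card {x // φ x = c} : ℝ) * (Nat.card φ.range : ℝ) = (N : ℝ) ^ dg K := by
      exact_mod_cast h1
    have h7 : (Nat.card φ.range : ℝ) * (Ideal.absNorm (J ⊔ Ideal.span {(W : 𝓞 K)}) : ℝ) = N := by
      exact_mod_cast h4
    show (Nat.card {x // φ x = c} : ℝ) = _
    rw [mul_div_assoc', eq_div_iff h5.ne', ← h6]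
    rw [← h7]
    ring
  · have h1 : IsEmpty {x : 𝓞 K ⧸ Ideal.span {(N : 𝓞 K)} //
        Ideal.Quotient.mk J (W : 𝓞 K) * Ideal.Quotient.factor h x = c} := by
      refine ⟨fun x => hc ((hr c).1 ⟨x.1, x.2⟩)⟩
    unfold UV
    rw [if_neg hc, mul_zero, Nat.card_of_isEmpty, Nat.cast_zero]

private theorem AVT_pow (n : ℕ) (x : ℝ) (h0 : 0 ≤ x) (h1 : x ≤ 1) :
    (1 + x) ^ n ≤ 1 + 2 ^ n * x := by
  induction n with
  | zero => simp [h0]
  | succ n ih =>
    have h2 : (1 + x) ^ n ≤ 2 ^ n := pow_le_pow_left₀ (by linarith) (by linarith) n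
    rw [pow_succ, pow_succ]
    nlinarith

private theorem AVT_pow2 (n : ℕ) (x : ℝ) (h0 : 0 ≤ x) (h1 : x ≤ 1) :
    1 - 2 ^ n * x ≤ (1 - x) ^ n := by
  have h2 := one_add_mul_le_pow (a := -x) (by linarith) n
  have h3 : (n : ℝ) ≤ 2 ^ n := by exact_mod_cast Nat.lt_two_pow_self.le
  have h4 : (1 - x) ^ n = (1 + -x) ^ n := by rw [sub_eq_add_neg]
  rw [h4]
  nlinarith [mul_le_mul_of_nonneg_right h3 h0]

end

theorem thm_AVT : St_AVT := by
  intro K _ _
  refine ⟨2 ^ dg K, by positivity, fun Θ W J hW hJ hN c => ?_⟩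
  obtain ⟨T, hT⟩ : ∃ T : ℕ, T = Θ / W := ⟨_, rfl⟩
  obtain ⟨N, hNdef⟩ : ∃ N : ℕ, N = Ideal.absNorm J := ⟨_, rfl⟩
  have hN0 : 0 < N := by
    rw [hNdef]
    exact Nat.pos_of_ne_zero (by rwa [Ne, Ideal.absNorm_eq_zero_iff])
  have hle : Ideal.span {(N : 𝓞 K)} ≤ J := by
    rw [Ideal.span_le, Set.singleton_subset_iff, hNdef]
    exact Ideal.absNorm_mem J
  have hfib := AVT_fib J hJ W N hNdef hle c
  rw [(thm_TSC K Θ W hW).1, ← hT, ← hNdef]
  rw [← hT, ← hNdef] at hN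
  have hW0 : (W : 𝓞 K) ≠ 0 := by exact_mod_cast hW.ne'
  -- the elements of `TS`
  have h1 : TS K Θ W = (cb K T).image fun a => (W : 𝓞 K) * a := by
    ext a
    unfold TS
    rw [Finset.mem_filter, mem_cb, Finset.mem_image]
    constructor
    · rintro ⟨h2, ⟨b, rfl⟩⟩
      refine ⟨b, ?_, rfl⟩
      rw [mem_cb, hT, Nat.le_div_iff_mul_le hW, mul_comm]
      rwa [cz_natCast_mul] at h2
    · rintro ⟨b, hb, rfl⟩
      rw [mem_cb, hT, Nat.le_div_iff_mul_le hW, mul_comm] at hb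
      refine ⟨?_, dvd_mul_right _ _⟩
      rwa [cz_natCast_mul]
  have h2 : ((TS K Θ W).filter fun u => Ideal.Quotient.mk J u = c).card =
      ((cb K T).filter fun a => Ideal.Quotient.mk J ((W : 𝓞 K) * a) = c).card := by
    rw [h1, Finset.filter_image, Finset.card_image_of_injective _ (mul_right_injective₀ hW0)]
  -- the fibres
  have hI0 : Ideal.span {(N : 𝓞 K)} ≠ ⊥ := by
    rw [Ne, Ideal.span_singleton_eq_bot]
    exact_mod_cast hN0.ne'
  have hfin : Finite (𝓞 K ⧸ Ideal.span {(N : 𝓞 K)}) :=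
    Ideal.finiteQuotientOfFreeOfNeBot _ hI0
  let _ : Fintype (𝓞 K ⧸ Ideal.span {(N : 𝓞 K)}) := Fintype.ofFinite _
  have h3 : ((cb K T).filter fun a => Ideal.Quotient.mk J ((W : 𝓞 K) * a) = c).card =
      ∑ x ∈ Finset.univ.filter (fun x : 𝓞 K ⧸ Ideal.span {(N : 𝓞 K)} =>
        Ideal.Quotient.mk J (W : 𝓞 K) * Ideal.Quotient.factor hle x = c),
        ((cb K T).filter fun a => Ideal.Quotient.mk (Ideal.span
          {(N : 𝓞 K)}) a = x).card := by
    rw [Finset.card_eq_sum_card_fiberwise (f := fun a => Ideal.Quotient.mk (Ideal.span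
          {(N : 𝓞 K)}) a)
      (t := Finset.univ.filter (fun x : 𝓞 K ⧸ Ideal.span {(N : 𝓞 K)} =>
        Ideal.Quotient.mk J (W : 𝓞 K) * Ideal.Quotient.factor hle x = c))]
    · refine Finset.sum_congr rfl fun x hx => ?_
      rw [Finset.mem_filter] at hx
      congr 1
      ext a
      rw [Finset.mem_filter, Finset.mem_filter, Finset.mem_filter]
      constructor
      · rintro ⟨⟨h4, h5⟩, h6⟩
        exact ⟨h4, h6⟩
      · rintro ⟨h4, h6⟩
        refine ⟨⟨h4, ?_⟩, h6⟩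
        rw [map_mul, ← hx.2, ← h6]
        rfl
    · intro a ha
      have ha2 := (Finset.mem_filter.1 ha).2
      rw [Finset.coe_filter]
      refine ⟨Finset.mem_univ _, ?_⟩
      rw [← ha2, map_mul]
      rfl
  have hNT : N ≤ 2 * T + 1 := by omega
  have h4 : ∀ x : 𝓞 K ⧸ Ideal.span {(N : 𝓞 K)},
      (((2 * T + 1 : ℕ) : ℝ) / N - 1) ^ dg K ≤
        (((cb K T).filter fun a => Ideal.Quotient.mk (Ideal.span
          {(N : 𝓞 K)}) a = x).card : ℝ) ∧
      (((cb K T).filter fun a => Ideal.Quotient.mk (Ideal.span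
          {(N : 𝓞 K)}) a = x).card : ℝ) ≤
        (((2 * T + 1 : ℕ) : ℝ) / N + 1) ^ dg K := by
    intro x
    obtain ⟨t0, rfl⟩ := Ideal.Quotient.mk_surjective x
    have h5 : ((cb K T).filter fun a => Ideal.Quotient.mk (Ideal.span
          {(N : 𝓞 K)}) a = Ideal.Quotient.mk _ t0) =
        (cb K T).filter fun t => (N : 𝓞 K) ∣ t - t0 := by
      refine Finset.filter_congr fun a _ => ?_
      rw [Ideal.Quotient.eq, Ideal.mem_span_singleton]
    rw [h5]
    exact AVT_fb N T hN0 hNT t0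
  have h5 : ((Finset.univ.filter (fun x : 𝓞 K ⧸ Ideal.span {(N : 𝓞 K)} =>
        Ideal.Quotient.mk J (W : 𝓞 K) * Ideal.Quotient.factor hle x = c)).card : ℝ) =
      (N : ℝ) ^ dg K * UV J W c := by
    rw [← hfib, Nat.card_eq_fintype_card, Fintype.card_subtype]
  rw [h2, h3]
  -- estimates
  obtain ⟨S, hS⟩ : ∃ S : ℝ, S = ((2 * T + 1 : ℕ) : ℝ) := ⟨_, rfl⟩
  have hS0 : 0 < S := by
    rw [hS]
    positivity
  have hNR : (0 : ℝ) < N := by exact_mod_cast hN0
  have hTR : (0 : ℝ) < T := by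
    have : 0 < T := lt_of_lt_of_le hN0 hN
    exact_mod_cast this
  have hx0 : 0 ≤ (N : ℝ) / S := by positivity
  have hx1 : (N : ℝ) / S ≤ 1 := by
    rw [div_le_one hS0, hS]
    exact_mod_cast hNT
  have hxT : (N : ℝ) / S ≤ (N : ℝ) / T := by
    apply div_le_div_of_nonneg_left hNR.le hTR
    rw [hS]
    push_cast
    linarith
  have hU : 0 ≤ UV J W c := by
    unfold UV
    split_ifs
    · positivity
    · exact le_refl _
  obtain ⟨A, hA⟩ : ∃ A : ℝ, A = ((∑ x ∈ Finset.univ.filter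
      (fun x : 𝓞 K ⧸ Ideal.span {(N : 𝓞 K)} =>
        Ideal.Quotient.mk J (W : 𝓞 K) * Ideal.Quotient.factor hle x = c),
        ((cb K T).filter fun a => Ideal.Quotient.mk (Ideal.span
          {(N : 𝓞 K)}) a = x).card : ℕ) : ℝ) := ⟨_, rfl⟩
  rw [← hA, Nat.cast_pow, ← hS]
  have hlow : (N : ℝ) ^ dg K * UV J W c * (S / N - 1) ^ dg K ≤ A := by
    rw [← h5, hA, Nat.cast_sum, ← nsmul_eq_mul, ← Finset.sum_const, hS]
    exact Finset.sum_le_sum fun x _ => (h4 x).1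
  have hupp : A ≤ (N : ℝ) ^ dg K * UV J W c * (S / N + 1) ^ dg K := by
    rw [← h5, hA, Nat.cast_sum, ← nsmul_eq_mul, ← Finset.sum_const, hS]
    exact Finset.sum_le_sum fun x _ => (h4 x).2
  have e1 : (N : ℝ) ^ dg K * UV J W c * (S / N - 1) ^ dg K / S ^ dg K =
      UV J W c * (1 - N / S) ^ dg K := by
    have : (1 - (N : ℝ) / S) = N * (S / N - 1) / S := by
      field_simp
    rw [this, div_pow, mul_pow]
    ring
  have e2 : (N : ℝ) ^ dg K * UV J W c * (S / N + 1) ^ dg K / S ^ dg K =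
      UV J W c * (1 + N / S) ^ dg K := by
    have : (1 + (N : ℝ) / S) = N * (S / N + 1) / S := by
      field_simp
    rw [this, div_pow, mul_pow]
    ring
  have hSp : 0 < S ^ dg K := by positivity
  have b1 : UV J W c * (1 - N / S) ^ dg K ≤ A / S ^ dg K := by
    rw [← e1]
    exact div_le_div_of_nonneg_right hlow hSp.le
  have b2 : A / S ^ dg K ≤ UV J W c * (1 + N / S) ^ dg K := by
    rw [← e2]
    exact div_le_div_of_nonneg_right hupp hSp.le
  have c1 := AVT_pow2 (dg K) _ hx0 hx1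
  have c2 := AVT_pow (dg K) _ hx0 hx1
  have d1 : (2 : ℝ) ^ dg K * (N / S) * UV J W c ≤ 2 ^ dg K * (N / T) * UV J W c := by
    apply mul_le_mul_of_nonneg_right _ hU
    exact mul_le_mul_of_nonneg_left hxT (by positivity)
  rw [abs_le]
  constructor
  · have := mul_le_mul_of_nonneg_left c1 hU
    linarith
  · have := mul_le_mul_of_nonneg_left c2 hU
    linarith

end Pool.Agent.NRN
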