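import Pool.Agent.NRN.StF

/-!
NRN: intermediate statements of block B for two or more variables (copies of NRM/StB.lean with `NHyp1`).
-/

set_option autoImplicit false

namespace Pool.Agent.NRN

open scoped BigOperators
open Classical NumberField IsDedekindDomain
open Pool.Agent.RHP (Mon mono ev Sys Prim pd WB WW)
open Pool.Agent.RHK Pool.Agent.RHC Pool.Agent.NRM
open Pool.Agent.RHKB (mI hh jj qv MK uu BadK)
open Pool.Agent.RHCB (BadC cred cemb uk PrC hM f00)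
open Pool.Agent.RHCW (cmk)

/-- [NL1] St_NLOWN of NRM/StB.lean with `NHyp1` -/
def St_NL1 : Prop :=
  ∀ (K : Type) [Field K] [NumberField K] (s r D m : ℕ), NHyp1 s D m → ∀ g : Mon r D → 𝓞 K, g ≠ 0 →
    ∀ A c v b : ℕ, 1 ≤ A → 1 ≤ c → 1 ≤ v → 1 ≤ b → ∀ c₁ σ₀ : ℝ, 0 < c₁ → 0 < σ₀ →
    ∀ κ W q : ℕ, 0 < κ → 0 < W → q ∣ b * W → ∃ t0 : ℕ, ∀ t ≥ t0, ∀ V H : ℕ, CR D v t V H →
    ∀ (ρ₀ : Fin s → 𝓞 K) (ω₀ : Fin r → 𝓞 K) (f : Mon s (D * m) → 𝓞 K),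
    σ₀ ≤ wsigN b q (cred (Ideal.span {((b * W : ℕ) : 𝓞 K)}) g)
      (cmk (Ideal.span {((b * W : ℕ) : 𝓞 K)}) ρ₀) (cmk (Ideal.span {((b * W : ℕ) : 𝓞 K)}) ω₀)
      (cred (Ideal.span {((b * W : ℕ) : 𝓞 K)}) f) →
    ∀ P : Set ((Fin s → 𝓞 K) × (Fin r → 𝓞 K)),
    (∀ (ρ : Fin s → 𝓞 K) (ω : Fin r → 𝓞 K), PrC (b * W) ρ →
      c₁ * ((XC s c t : ℝ) ^ s * (QN s m c t V : ℝ) ^ r) ^ dg K /
        ((κ : ℝ) ^ dg K * ((b * W : ℕ) : ℝ) ^ (dg K * (s + r))) ≤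
        (RCnN P b g (A * QN s m c t V) (XC s c t) H κ (b * W) f ρ ω : ℝ)) →
      σ₀ * c₁ / (2 * 3 ^ dg K * (b : ℝ) ^ dg K) * EN (dg K) s D m r c t V H ≤
        NAL (BG g b (A * QN s m c t V)) (aG g b)
          {p | p ∈ P ∧ (∀ l, (q : 𝓞 K) ∣ p.1 l - ρ₀ l) ∧ ∀ j, (q : 𝓞 K) ∣ p.2 j - ω₀ j}
          c t H κ W f

/-- [FP1] St_FPL of NRM/StB.lean with `NHyp1` -/
def St_FP1 : Prop :=
  ∀ (K : Type) [Field K] [NumberField K] (s r D m : ℕ), NHyp1 s D m → ∀ g : Mon r D → 𝓞 K,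
    ∀ (p0 : ℕ) (S : Finset (HeightOneSpectrum (𝓞 K))), (∀ v ∈ S, LowP p0 v) →
    ∀ η δ : ℝ, 0 < η → 0 < δ → ∃ dl q : ℕ, 1 ≤ dl ∧ 0 < q ∧
      (∀ p : ℕ, p.Prime → p ∣ dl → p ≤ p0) ∧ (∀ p : ℕ, p.Prime → p ∣ q → p ≤ p0) ∧
    ∃ T : Finset ((Fin s → 𝓞 K) × (Fin r → 𝓞 K)), ∀ f : Mon s (D * m) → 𝓞 K,
      (∀ v ∈ S, ∃ μ, δ ≤ ‖jj (v.adicCompletion K) (f μ)‖) →
      (∀ v : HeightOneSpectrum (𝓞 K), ∃ (x : Fin s → v.adicCompletion K)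
        (w : Fin r → v.adicCompletion K), IsPtN g f x w) →
      ∀ (z : (v : HeightOneSpectrum (𝓞 K)) → Fin s → v.adicCompletion K)
        (a : (v : HeightOneSpectrum (𝓞 K)) → Fin r → v.adicCompletion K),
        (∀ v ∈ S, IsPtN g f (z v) (a v) ∧ SizN D m f η (z v) (a v)) →
      ∃ τ ∈ T, (∀ v, LowP p0 v → LocZN v (dl ^ D) q g τ.1 τ.2 f) ∧
        ∀ p : (Fin s → 𝓞 K) × (Fin r → 𝓞 K), (∀ l, (q : 𝓞 K) ∣ p.1 l - τ.1 l) →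
          (∀ j, (q : 𝓞 K) ∣ p.2 j - τ.2 j) → ∀ v ∈ S,
          CloN D m f η (fun l => algebraMap K (v.adicCompletion K) (p.1 l : K))
            (fun j => algebraMap K (v.adicCompletion K) ((p.2 j : K) / (dl : K))) (z v) (a v)

/-- [IP1] St_IPL of NRM/StB.lean with `NHyp1` -/
def St_IP1 : Prop :=
  ∀ (K : Type) [Field K] [NumberField K] (s r D m : ℕ), NHyp1 s D m → ∀ g : Mon r D → 𝓞 K,
    ∀ η δ : ℝ, 0 < η → 0 < δ → ∃ (B : ℕ) (η' : ℝ), 0 < η' ∧ η' ≤ 1 / 16 ∧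
    ∃ T : Finset ((v : InfinitePlace K) → Fin r ⊕ Fin s → v.Completion),
      ∀ dl V H : ℕ, 1 ≤ dl → 0 < V → V ^ D ≤ H → H ≤ (V + 1) ^ D → ∀ f ∈ box K s (D * m) H,
      (∀ v : InfinitePlace K, ∃ μ, δ * H ≤ ‖jj v.Completion (f μ)‖) →
      ∀ (y : (v : InfinitePlace K) → Fin s → v.Completion)
        (b : (v : InfinitePlace K) → Fin r → v.Completion),
        (∀ v, IsPtN g f (y v) (b v) ∧ SizN D m f η (y v) (b v)) →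
      ∃ τ ∈ T, (∀ v, InfZN v V B g (τ v) η' f) ∧
        ∀ (X : ℕ) (p : (Fin s → 𝓞 K) × (Fin r → 𝓞 K)), 0 < X →
          NearN τ (3 * η') X (dl * (X ^ m * V)) p → ∀ v : InfinitePlace K,
          CloN D m f η (fun l => algebraMap K v.Completion (p.1 l : K))
            (fun j => algebraMap K v.Completion ((p.2 j : K) / (dl : K))) (y v) (b v)

end Pool.Agent.NRN
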