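import Pool.Agent.NRM.Main
import Pool.Agent.NRN.StL

/-!
NRN: assembly (helper95).
-/

set_option autoImplicit false

namespace Pool.Agent.NRN

open scoped BigOperators
open Classical NumberField IsDedekindDomain
open Pool.Agent.RHP (Mon)
open Pool.Agent.RHK Pool.Agent.RHC Pool.Agent.NRM
open Pool.Agent.RHCB (InC)

/-- parameters exist -/
theorem parN1_of (hSM : St_SM1) (hFAR : St_FAR) (K : Type) [Field K] [NumberField K] (D m : ℕ)
    (hD : 2 ≤ D) (hm : 1 ≤ m) (g : Mon D D → 𝓞 K) (hdec : Decomp g) (hg : g ≠ 0) : ParN1 m g := by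
  have h1 : 2 * 1 + 4 ≤ D * (16 * dg K + 16) := by
    have h2 : 2 * 16 ≤ D * (16 * dg K + 16) := Nat.mul_le_mul hD (by omega)
    omega
  have h3 : (8 * dg K + 8) * (1 + 1) ≤ 16 * dg K + 16 := le_of_eq (by ring)
  refine ⟨1, 16 * dg K + 16, le_rfl, by omega,
    hSM K D m D 1 _ hD hm le_rfl h1 h3, fun A b k hA hb hk hbk => ?_⟩
  exact hFAR K D m hD hm g hdec hg 1 _ le_rfl A b k hA hb hk hbk

/-- the theorem for polynomials with two variables `x`, from the blocks -/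
theorem main1_of (hSM : St_SM1) (hFAR : St_FAR) (hSG : St_SG2) (hFN : St_FN1) (hPO : St_PO1)
    (hTP : St_TP1) (hHP : St_HP1) (K : Type) [Field K] [NumberField K] (D m : ℕ) (hD : 2 ≤ D)
    (hm : 1 ≤ m) (g : MvPolynomial (Fin D) (𝓞 K)) (hg : g.IsHomogeneous D) (hg0 : g ≠ 0)
    (hdec : DecP D g) :
    (∃ c : ℝ, 0 < c ∧ ∀ᶠ H : ℕ in Filter.atTop,
      c * (({f | InC (D * m) H f} : Set (MvPolynomial (Fin (1 + 1)) (𝓞 K))).ncard : ℝ) ≤
      (({f | InC (D * m) H f ∧ (SmoP g f ∧ LocP g f)} :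
        Set (MvPolynomial (Fin (1 + 1)) (𝓞 K))).ncard : ℝ)) ∧
    ∀ (S : Finset (HeightOneSpectrum (𝓞 K))) (η : ℝ), 0 < η → Filter.Tendsto (fun H : ℕ =>
      (({f | InC (D * m) H f ∧ (SmoP g f ∧ HasPtP g f K ∧ AppP D m S η g f)} :
        Set (MvPolynomial (Fin (1 + 1)) (𝓞 K))).ncard : ℝ) /
      (({f | InC (D * m) H f ∧ (SmoP g f ∧ LocP g f)} :
        Set (MvPolynomial (Fin (1 + 1)) (𝓞 K))).ncard : ℝ)) Filter.atTop (nhds 1) := by
  have hyp : NHyp1 2 D m := ⟨le_rfl, hD, hm⟩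
  have hg1 := gcv_ne g hg hg0
  have hd1 := gcv_dec g hg hdec
  have hDm : 1 ≤ D * m := Nat.one_le_iff_ne_zero.2 (Nat.mul_ne_zero (by omega) (by omega))
  have hSGP := hSG K D (D * m) hD hDm _ hd1 hg1
  have hPar := parN1_of hSM hFAR K D m hD hm _ hd1 hg1
  have hfin := hFN K D m hD hm _ hg1 hSGP hPar
  exact finN_poly K 1 D D m hD hm g hg (hPO K D m hD hm _ hg1 hSGP hPar)
    (hTP K 2 D D m hyp _ hfin) (hHP K 2 D D m hyp _)

/-- the theorem for polynomials with at least two variables `x`, from the blocks -/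
theorem main_all_of (hSM : St_SM1) (hFAR : St_FAR) (hSG : St_SG2) (hFN : St_FN1) (hPO : St_PO1)
    (hTP : St_TP1) (hHP : St_HP1) (K : Type) [Field K]
    [NumberField K] (n r D m : ℕ) (hn : 1 ≤ n) (hD : 2 ≤ D) (hm : 1 ≤ m)
    (g : MvPolynomial (Fin r) (𝓞 K)) (hg : g.IsHomogeneous D) (hg0 : g ≠ 0)
    (hF : (2 ≤ n ∧ m * (D - 1) ≤ n) ∨
      (DecP D g ∧ m * D ≤ n + m * r ∧ (2 ≤ n ∨ r = D))) :
    (∃ c : ℝ, 0 < c ∧ ∀ᶠ H : ℕ in Filter.atTop,
      c * (({f | InC (D * m) H f} : Set (MvPolynomial (Fin (n + 1)) (𝓞 K))).ncard : ℝ) ≤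
      (({f | InC (D * m) H f ∧ (SmoP g f ∧ LocP g f)} :
        Set (MvPolynomial (Fin (n + 1)) (𝓞 K))).ncard : ℝ)) ∧
    ∀ (S : Finset (HeightOneSpectrum (𝓞 K))) (η : ℝ), 0 < η → Filter.Tendsto (fun H : ℕ =>
      (({f | InC (D * m) H f ∧ (SmoP g f ∧ HasPtP g f K ∧ AppP D m S η g f)} :
        Set (MvPolynomial (Fin (n + 1)) (𝓞 K))).ncard : ℝ) /
      (({f | InC (D * m) H f ∧ (SmoP g f ∧ LocP g f)} :
        Set (MvPolynomial (Fin (n + 1)) (𝓞 K))).ncard : ℝ)) Filter.atTop (nhds 1) := by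
  rcases Nat.lt_or_ge n 2 with hn2 | hn2
  · rcases hF with hF | ⟨hdec, -, hF⟩
    · omega
    · have hr : r = D := by omega
      subst hr
      obtain rfl : n = 1 := by omega
      exact main1_of hSM hFAR hSG hFN hPO hTP hHP K r m hD hm g hg hg0 hdec
  · refine main_polyN K n r D m hn2 hD hm g hg hg0 ?_
    rcases hF with hF | ⟨hdec, hF, -⟩
    · exact Or.inl hF.2
    · exact Or.inr ⟨hdec, hF⟩

end Pool.Agent.NRN
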