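import Pool.Agent.NRN.StS
import Pool.Agent.RHP.Ev

/-!
NRN [CMU] (helper90).
-/

set_option autoImplicit false

namespace Pool.Agent.NRN

open Classical NumberField
open Pool.Agent.RHP (Mon mono ev Prim)
open Pool.Agent.RHK Pool.Agent.RHC

private theorem CMU_lin {K : Type} [Field K] [NumberField K] {s : ℕ} (x y c : Fin s → 𝓞 K)
    (hc : ∑ i, c i * x i = 1) (j : Fin s) : y j - (∑ i, c i * y i) * x j ∈ gI x y := by
  have h1 : y j - (∑ i, c i * y i) * x j = ∑ i, c i * (x i * y j - x j * y i) := by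
    calc y j - (∑ i, c i * y i) * x j = (∑ i, c i * x i) * y j - (∑ i, c i * y i) * x j := by
          rw [hc, one_mul]
      _ = ∑ i, c i * (x i * y j - x j * y i) := by
          rw [Finset.sum_mul, Finset.sum_mul, ← Finset.sum_sub_distrib]
          exact Finset.sum_congr rfl fun i _ => by ring
  rw [h1]
  exact Ideal.sum_mem _ fun i _ => Ideal.mul_mem_left _ _ (Ideal.subset_span ⟨(i, j), rfl⟩)

theorem thm_CMU : St_CMU := by
  intro K _ _ s x y hx hy
  obtain ⟨c, hc⟩ := hx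
  obtain ⟨c', hc'⟩ := hy
  have hl := CMU_lin x y c hc
  obtain ⟨lam, hlam⟩ : ∃ lam : 𝓞 K, lam = ∑ i, c i * y i := ⟨_, rfl⟩
  rw [← hlam] at hl
  refine ⟨lam, ?_, fun d f => ?_⟩
  · refine IsUnit.of_mul_eq_one (Ideal.Quotient.mk (gI x y) (∑ j, c' j * x j)) ?_
    rw [← map_mul, ← map_one (Ideal.Quotient.mk (gI x y)), eq_comm,
      Ideal.Quotient.mk_eq_mk_iff_sub_mem]
    have h1 : (1 : 𝓞 K) - lam * ∑ j, c' j * x j = ∑ j, c' j * (y j - lam * x j) := by
      rw [← hc', Finset.mul_sum, ← Finset.sum_sub_distrib]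
      exact Finset.sum_congr rfl fun j _ => by ring
    rw [h1]
    exact Ideal.sum_mem _ fun j _ => Ideal.mul_mem_left _ _ (hl j)
  · rw [← Pool.Agent.RHP.ev_smul_pt, ← Ideal.Quotient.mk_eq_mk_iff_sub_mem,
      ← Pool.Agent.RHP.ev_map, ← Pool.Agent.RHP.ev_map]
    congr 1
    funext j
    rw [Ideal.Quotient.mk_eq_mk_iff_sub_mem]
    exact hl j

end Pool.Agent.NRN
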