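import Pool.Agent.NRN.StS

/-!
NRN [CP1]: parallel pairs (copy of NRM/CPARN.lean by helper67 with two or more variables).
-/

set_option autoImplicit false

namespace Pool.Agent.NRN

open scoped BigOperators
open Classical NumberField IsDedekindDomain
open Pool.Agent.RHP (Mon mono ev Sys Prim pd WB WW)
open Pool.Agent.RHK Pool.Agent.RHC Pool.Agent.NRM

/-- values at parallel primitive points are proportional, the factor is not zero -/
theorem CPARN_par {K : Type} [Field K] [NumberField K] {s : ℕ} {x y : Fin s → 𝓞 K} (hx : Prim x)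
    (hyp : Prim y) (hp : Par x y) (d : ℕ) :
    ∃ e : 𝓞 K, e ≠ 0 ∧ ∀ f : Mon s d → 𝓞 K, ev f y = e * ev f x := by
  obtain ⟨c, hc⟩ := hx
  obtain ⟨c', hc'⟩ := hyp
  have hy : ∀ j, y j = (∑ i, c i * y i) * x j := by
    intro j
    have h2 : ∀ i, x i * y j = x j * y i := fun i => by
      have := hp (i, j)
      unfold mn at this
      exact sub_eq_zero.1 this
    calc y j = (∑ i, c i * x i) * y j := by rw [hc, one_mul]
      _ = ∑ i, c i * (x i * y j) := by
        rw [Finset.sum_mul]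
        exact Finset.sum_congr rfl fun i _ => mul_assoc _ _ _
      _ = ∑ i, c i * y i * x j := by
        refine Finset.sum_congr rfl fun i _ => ?_
        rw [h2 i]
        ring
      _ = (∑ i, c i * y i) * x j := by rw [Finset.sum_mul]
  have hne : (∑ i, c i * y i) ≠ 0 := by
    intro h0
    have h1 : ∀ j, y j = 0 := fun j => by rw [hy j, h0, zero_mul]
    have h2 : (∑ i, c' i * y i) = 0 := Finset.sum_eq_zero fun i _ => by rw [h1 i, mul_zero]
    rw [hc'] at h2
    exact one_ne_zero h2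
  refine ⟨(∑ i, c i * y i) ^ d, pow_ne_zero _ hne, fun f => ?_⟩
  rw [← Pool.Agent.RHP.ev_smul_pt]
  congr 1
  funext j
  exact hy j

/-- the pairs with proportional values and the diagonal pairs -/
theorem CPARN_cnt {K : Type} [Field K] [NumberField K] {Q : Type} (B : Finset Q) (a : Q → 𝓞 K)
    {e : 𝓞 K} (he : e ≠ 0) :
    (∑ w ∈ B, ((B.filter fun w' => a w' = e * a w).card : ℝ)) ≤
      (((B ×ˢ B).filter fun p => a p.1 = a p.2).card : ℝ) := by
  set N : 𝓞 K → ℝ := fun c => ((B.filter fun w => a w = c).card : ℝ) with hN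
  set S := B.image a with hS
  have hgen : ∀ e' : 𝓞 K, (∑ w ∈ B, ((B.filter fun w' => a w' = e' * a w).card : ℝ)) =
      ∑ c ∈ S, N c * N (e' * c) := by
    intro e'
    have h1 := Finset.sum_comp (s := B) (fun c : 𝓞 K => N (e' * c)) a
    rw [show (∑ w ∈ B, ((B.filter fun w' => a w' = e' * a w).card : ℝ)) =
      ∑ w ∈ B, N (e' * a w) from rfl, h1]
    refine Finset.sum_congr rfl fun c _ => ?_
    rw [nsmul_eq_mul]
  have hdg : (((B ×ˢ B).filter fun p => a p.1 = a p.2).card : ℝ) = ∑ c ∈ S, N c * N c := by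
    have h1 := hgen 1
    simp only [one_mul] at h1
    rw [← h1, Finset.card_filter, Finset.sum_product]
    push_cast
    refine Finset.sum_congr rfl fun w _ => ?_
    rw [Finset.card_filter]
    push_cast
    refine Finset.sum_congr rfl fun w' _ => ?_
    by_cases h : a w = a w'
    · rw [if_pos h, if_pos h.symm]
    · rw [if_neg h, if_neg fun h' => h h'.symm]
  rw [hgen e, hdg]
  have h2 : ∑ c ∈ S, N c * N (e * c) ≤ ∑ c ∈ S, (N c * N c + N (e * c) * N (e * c)) / 2 := by
    refine Finset.sum_le_sum fun c _ => ?_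
    nlinarith [sq_nonneg (N c - N (e * c))]
  have h3 : ∑ c ∈ S, N (e * c) * N (e * c) ≤ ∑ c ∈ S, N c * N c := by
    have h4 : ∑ c ∈ S, N (e * c) * N (e * c) = ∑ c ∈ S.image (fun c => e * c), N c * N c := by
      refine (Finset.sum_image (f := fun c => N c * N c) (g := fun c => e * c) ?_).symm
      intro c _ c' _ h
      exact mul_left_cancel₀ he h
    rw [h4]
    have h5 : ∑ c ∈ S.image (fun c => e * c), N c * N c =
        ∑ c ∈ (S.image (fun c => e * c)).filter (fun c => c ∈ S), N c * N c := by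
      symm
      refine Finset.sum_filter_of_ne fun c _ hc => ?_
      by_contra hcS
      apply hc
      have : N c = 0 := by
        rw [hN]
        simp only [Nat.cast_eq_zero, Finset.card_eq_zero]
        refine Finset.filter_false_of_mem fun w hw h => hcS ?_
        rw [hS, ← h]
        exact Finset.mem_image_of_mem a hw
      rw [this, mul_zero]
    rw [h5]
    refine Finset.sum_le_sum_of_subset_of_nonneg ?_ fun c _ _ => mul_self_nonneg _
    intro c hc
    exact (Finset.mem_filter.1 hc).2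
  refine h2.trans ?_
  rw [← Finset.sum_div, Finset.sum_add_distrib]
  linarith

/-- the estimate for one pair of parallel points -/
theorem CPARN_pair (hPHI : Pool.Agent.RHC.St_PHI) (hDLT : Pool.Agent.RHC.St_DLT) {K : Type} [Field K]
    [NumberField K] {s d H Θ W : ℕ} (hH : 1 ≤ H) (hW : 0 < W) {x y : Fin s → 𝓞 K} (hx : Prim x)
    (hy : Prim y) (hp : Par x y) {Q : Type} (B : Finset Q) (a : Q → 𝓞 K) (M : ℝ) (hM0 : 0 ≤ M)
    (hT : 0 < (TS K Θ W).card) (hM : ∀ b : 𝓞 K, 2 * (c1 (d := d) (3 * H) x b : ℝ) ≤ M) :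
    ∑ q ∈ B ×ˢ B,
        (∑ f ∈ box K s d (2 * H), Ph H f * (dlt (a q.1) x f * dlt (a q.2) y f) +
        ∑ f ∈ box K s d (2 * H), Ph H f *
          (lmt Θ W (a q.1) x f * lmt Θ W (a q.2) y f)) ≤
      (((B ×ˢ B).filter fun p => a p.1 = a p.2).card : ℝ) * M +
        (B.card : ℝ) ^ 2 * (M / (TS K Θ W).card) := by
  obtain ⟨e, he0, he⟩ := CPARN_par hx hy hp d
  obtain ⟨-, -, hP3, -⟩ := hPHI K s d H hH
  have hcP : ∀ b b' : 𝓞 K, cP d H x y b b' ≤ if b' = e * b then M else 0 := by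
    intro b b'
    by_cases hb : b' = e * b
    · rw [if_pos hb]
      refine le_trans (hP3 x y b b').2 (le_trans ?_ (hM b))
      have : c2 (d := d) (3 * H) x y b b' ≤ c1 (d := d) (3 * H) x b := by
        unfold c1 c2
        refine Finset.card_le_card fun f hf => ?_
        rw [Finset.mem_filter] at hf ⊢
        exact ⟨hf.1, hf.2.1⟩
      have h2 : (c2 (d := d) (3 * H) x y b b' : ℝ) ≤ c1 (d := d) (3 * H) x b := by
        exact_mod_cast this
      linarith
    · rw [if_neg hb]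
      unfold cP
      rw [Finset.filter_false_of_mem, Finset.sum_empty]
      intro f _ hf
      apply hb
      rw [← hf.1, ← hf.2]
      exact he f
  rw [Finset.sum_add_distrib]
  refine add_le_add ?_ ?_
  · have h1 : ∀ q ∈ B ×ˢ B,
        ∑ f ∈ box K s d (2 * H), Ph H f * (dlt (a q.1) x f * dlt (a q.2) y f) ≤
          if a q.2 = e * a q.1 then M else 0 := by
      intro q _
      rw [(hDLT K s d H Θ W x y (a q.1) (a q.2) hW).1]
      exact hcP _ _
    refine le_trans (Finset.sum_le_sum h1) ?_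
    rw [Finset.sum_product]
    have h2 : ∀ w ∈ B, ∑ w' ∈ B, (if a w' = e * a w then M else 0) =
        ((B.filter fun w' => a w' = e * a w).card : ℝ) * M := by
      intro w _
      rw [← Finset.sum_filter, Finset.sum_const, nsmul_eq_mul]
    rw [Finset.sum_congr rfl h2, ← Finset.sum_mul]
    exact mul_le_mul_of_nonneg_right (CPARN_cnt B a he0) hM0
  · have hTR : (0 : ℝ) < (TS K Θ W).card := by exact_mod_cast hT
    have h1 : ∀ q ∈ B ×ˢ B,
        ∑ f ∈ box K s d (2 * H), Ph H f * (lmt Θ W (a q.1) x f * lmt Θ W (a q.2) y f) ≤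
          M / (TS K Θ W).card := by
      intro q _
      rw [(hDLT K s d H Θ W x y (a q.1) (a q.2) hW).2.1]
      have h2 : ∑ p ∈ TS K Θ W ×ˢ TS K Θ W, cP d H x y (a q.1 + p.1) (a q.2 + p.2) ≤
          (TS K Θ W).card * M := by
        refine le_trans (Finset.sum_le_sum (fun p _ => hcP _ _)) ?_
        rw [Finset.sum_product]
        have h3 : ∀ u ∈ TS K Θ W, ∑ v ∈ TS K Θ W,
            (if a q.2 + v = e * (a q.1 + u) then M else 0) ≤ M := by
          intro u _
          rw [← Finset.sum_filter, Finset.sum_const, nsmul_eq_mul]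
          have h4 : ((TS K Θ W).filter fun v => a q.2 + v = e * (a q.1 + u)).card ≤ 1 := by
            rw [Finset.card_le_one]
            intro v hv v' hv'
            have e1 := (Finset.mem_filter.1 hv).2
            have e2 := (Finset.mem_filter.1 hv').2
            exact add_left_cancel (e1.trans e2.symm)
          have h5 : (((TS K Θ W).filter fun v => a q.2 + v = e * (a q.1 + u)).card : ℝ) ≤ 1 := by
            exact_mod_cast h4
          calc _ ≤ 1 * M := mul_le_mul_of_nonneg_right h5 hM0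
            _ = M := one_mul M
        refine le_trans (Finset.sum_le_sum h3) ?_
        rw [Finset.sum_const, nsmul_eq_mul]
      calc 1 / ((TS K Θ W).card : ℝ) ^ 2 *
            ∑ p ∈ TS K Θ W ×ˢ TS K Θ W, cP d H x y (a q.1 + p.1) (a q.2 + p.2)
          ≤ 1 / ((TS K Θ W).card : ℝ) ^ 2 * ((TS K Θ W).card * M) :=
            mul_le_mul_of_nonneg_left h2 (by positivity)
        _ = M / (TS K Θ W).card := by
            field_simp
    refine le_trans (Finset.sum_le_sum h1) (le_of_eq ?_)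
    rw [Finset.sum_const, nsmul_eq_mul, Finset.card_product]
    push_cast
    ring

/-- [CPARN] -/
theorem thm_CP1 (hCB : St_CB1) (hPHI : Pool.Agent.RHC.St_PHI) (hDLT : Pool.Agent.RHC.St_DLT)
    (hTSC : Pool.Agent.RHC.St_TSC) (hPAR : Pool.Agent.RHK.St_PAR) (hPBC : Pool.Agent.RHM.St_PBC) :
    St_CP1 := by
  intro K _ _ s D m hyp
  obtain ⟨C1, hC1, h1⟩ := hCB K s D m hyp
  obtain ⟨Cp, hp⟩ := hPAR K s
  obtain ⟨Cg, hCg, hg⟩ := hPBC K s
  refine ⟨4 * C1 * Cg * (Cp + 1), by positivity, fun c v κ W par hκ hW => ?_⟩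
  obtain ⟨t0, h2⟩ := h1 c v par
  refine ⟨max t0 (κ * W), fun t ht V H hR r Q B a C0 hC0 hcard hdiag => ?_⟩
  have ht0 : t0 ≤ t := (le_max_left _ _).trans ht
  have ht1 : κ * W ≤ t := (le_max_right _ _).trans ht
  have htp : 1 ≤ t := le_trans (Nat.mul_pos hκ hW) ht1
  have h3 := h2 t ht0 V H hR
  have hV1 : 1 ≤ V := le_trans (Nat.one_le_pow _ _ htp) hR.1
  have hVH : V ^ D ≤ H := hR.2.2.1
  have hH1 : 1 ≤ H := le_trans (Nat.one_le_pow _ _ hV1) hVH
  have hX1 : 1 ≤ XC s c t := Nat.one_le_pow _ _ htp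
  have htX : t ≤ XC s c t := by
    unfold XC
    exact Nat.le_self_pow (by omega) t
  unfold EN
  set X := XC s c t with hX
  have hs3 := hyp.hs
  set Θ := ThC s c t H κ (D * m) with hΘ
  obtain ⟨hTc, -⟩ := hTSC K Θ W hW
  have hTpos : 0 < (TS K Θ W).card := by
    rw [hTc]
    positivity
  -- the sizes
  have hXR : (1 : ℝ) ≤ X := by exact_mod_cast hX1
  have hHR : (1 : ℝ) ≤ H := by exact_mod_cast hH1
  have htR : (1 : ℝ) ≤ t := by exact_mod_cast htp
  have hX0 : (0 : ℝ) < X := by linarith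
  have hH0 : (0 : ℝ) < H := by linarith
  have ht00 : (0 : ℝ) < t := by linarith
  have hC00 : (0 : ℝ) < C0 := by linarith
  set N : ℝ := ((box K s (D * m) H).card : ℝ) with hN
  have hN0 : 0 ≤ N := Nat.cast_nonneg _
  set E : ℝ := ((H : ℝ) * (X : ℝ) ^ (D * m)) ^ dg K with hE
  have hE0 : 0 < E := by positivity
  set Xs : ℝ := ((X : ℝ) ^ s) ^ dg K with hXs
  have hXs0 : 0 < Xs := by positivity
  set Qr : ℝ := ((QN s m c t V : ℝ) ^ r) ^ dg K with hQr
  have hQN1 : 1 ≤ QN s m c t V := Nat.mul_pos (Nat.pow_pos hX1) hV1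
  have hQNR : (0 : ℝ) < (QN s m c t V : ℝ) := by exact_mod_cast hQN1
  have hQr0 : 0 < Qr := by positivity
  set M : ℝ := 2 * (C1 * N / E) with hM
  have hM0 : 0 ≤ M := by positivity
  have hTR0 : (0 : ℝ) < ((TS K Θ W).card : ℝ) := by exact_mod_cast hTpos
  -- the size of the local model
  have hTE : E ≤ ((κ * W : ℕ) : ℝ) ^ dg K * (TS K Θ W).card := by
    have e1 : H * X ^ (D * m) ≤ (κ * W) * (2 * (Θ / W) + 1) := by
      have e2 : Θ / W = H * X ^ (D * m) / (κ * W) := by
        rw [hΘ]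
        unfold ThC
        rw [Nat.div_div_eq_div_mul]
      rw [e2]
      have e3 := Nat.lt_mul_div_succ (H * X ^ (D * m)) (Nat.mul_pos hκ hW)
      have e4 : (κ * W) * (H * X ^ (D * m) / (κ * W) + 1) ≤
          (κ * W) * (2 * (H * X ^ (D * m) / (κ * W)) + 1) := Nat.mul_le_mul_left _ (by omega)
      exact e3.le.trans e4
    have e5 : (H : ℝ) * (X : ℝ) ^ (D * m) ≤ ((κ * W : ℕ) : ℝ) * ((2 * (Θ / W) + 1 : ℕ) : ℝ) := by
      exact_mod_cast e1
    rw [hE, hTc]
    push_cast
    push_cast at e5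
    rw [← mul_pow]
    exact pow_le_pow_left₀ (by positivity) e5 _
  have htW : (t : ℝ) * ((κ * W : ℕ) : ℝ) ^ dg K ≤ Xs := by
    have hr : dg K ≠ 0 := (dg_pos (K := K)).ne'
    have e1 : (t : ℝ) ≤ (t : ℝ) ^ dg K := le_self_pow₀ htR hr
    have e2 : t * (κ * W) ≤ X ^ s := by
      calc t * (κ * W) ≤ X * X := Nat.mul_le_mul htX (ht1.trans htX)
        _ = X ^ 2 := by ring
        _ ≤ X ^ s := Nat.pow_le_pow_right hX1 (by omega)
    have e3 : (t : ℝ) * ((κ * W : ℕ) : ℝ) ≤ (X : ℝ) ^ s := by exact_mod_cast e2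
    calc (t : ℝ) * ((κ * W : ℕ) : ℝ) ^ dg K ≤ (t : ℝ) ^ dg K * ((κ * W : ℕ) : ℝ) ^ dg K :=
          mul_le_mul_of_nonneg_right e1 (by positivity)
      _ = ((t : ℝ) * ((κ * W : ℕ) : ℝ)) ^ dg K := by rw [mul_pow]
      _ ≤ Xs := pow_le_pow_left₀ (by positivity) e3 _
  have hTt : (t : ℝ) * E ≤ Xs * (TS K Θ W).card := by
    calc (t : ℝ) * E ≤ (t : ℝ) * (((κ * W : ℕ) : ℝ) ^ dg K * (TS K Θ W).card) :=
          mul_le_mul_of_nonneg_left hTE ht00.le
      _ = ((t : ℝ) * ((κ * W : ℕ) : ℝ) ^ dg K) * (TS K Θ W).card := by ring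
      _ ≤ _ := mul_le_mul_of_nonneg_right htW hTR0.le
  -- the two terms
  set Z : ℝ := C0 ^ 2 / t * (Xs * Qr ^ 2 / E) * M with hZ
  have hZ0 : 0 ≤ Z := by positivity
  have hA : (((B ×ˢ B).filter fun p => a p.1 = a p.2).card : ℝ) * M ≤ Z := by
    refine mul_le_mul_of_nonneg_right ?_ hM0
    have e1 : (((B ×ˢ B).filter fun p => a p.1 = a p.2).card : ℝ) ≤ C0 * Xs * Qr ^ 2 / (t * E) := by
      rw [le_div_iff₀ (by positivity)]
      calc _ = (((B ×ˢ B).filter fun p => a p.1 = a p.2).card : ℝ) * t * E := by ring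
        _ ≤ _ := hdiag
    refine e1.trans ?_
    have e2 : C0 ≤ C0 ^ 2 := by nlinarith
    calc C0 * Xs * Qr ^ 2 / (t * E) = C0 * (Xs * Qr ^ 2 / (t * E)) := by ring
      _ ≤ C0 ^ 2 * (Xs * Qr ^ 2 / (t * E)) := mul_le_mul_of_nonneg_right e2 (by positivity)
      _ = C0 ^ 2 / t * (Xs * Qr ^ 2 / E) := by field_simp
  have hB : (B.card : ℝ) ^ 2 * (M / (TS K Θ W).card) ≤ Z := by
    have e1 : (B.card : ℝ) ^ 2 ≤ (C0 * Qr) ^ 2 := pow_le_pow_left₀ (Nat.cast_nonneg _) hcard 2
    have e2 : 1 / ((TS K Θ W).card : ℝ) ≤ Xs / (t * E) := by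
      rw [div_le_div_iff₀ hTR0 (by positivity)]
      linarith
    calc (B.card : ℝ) ^ 2 * (M / (TS K Θ W).card)
        = (B.card : ℝ) ^ 2 * (1 / ((TS K Θ W).card : ℝ)) * M := by ring
      _ ≤ (C0 * Qr) ^ 2 * (Xs / (t * E)) * M := by
        refine mul_le_mul_of_nonneg_right ?_ hM0
        exact mul_le_mul e1 e2 (by positivity) (by positivity)
      _ = Z := by
        rw [hZ]
        field_simp
  have hpair : ∀ p ∈ (CG K s c t ×ˢ CG K s c t).filter (fun p => Par p.1 p.2),
      ∑ q ∈ B ×ˢ B,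
        (∑ f ∈ box K s (D * m) (2 * H), Ph H f * (dlt (a q.1) p.1 f * dlt (a q.2) p.2 f) +
        ∑ f ∈ box K s (D * m) (2 * H), Ph H f *
          (lmt Θ W (a q.1) p.1 f * lmt Θ W (a q.2) p.2 f)) ≤ 2 * Z := by
    intro p hpm
    rw [Finset.mem_filter, Finset.mem_product] at hpm
    have hx := (Finset.mem_filter.1 hpm.1.1).2
    have hy := (Finset.mem_filter.1 hpm.1.2).2
    have h4 := CPARN_pair (d := D * m) (Θ := Θ) hPHI hDLT hH1 hW hx.1 hy.1 hpm.2 B a M hM0 hTpos (by
      intro b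
      have h5 := (h3 p.1 hpm.1.1).1 b
      rw [hM]
      refine mul_le_mul_of_nonneg_left ?_ (by norm_num)
      rw [le_div_iff₀ hE0]
      exact h5)
    linarith
  have hcount : (((CG K s c t ×ˢ CG K s c t).filter (fun p => Par p.1 p.2)).card : ℝ) ≤
      Cg * Xs * (Cp + 1) := by
    have e1 : ((CG K s c t ×ˢ CG K s c t).filter (fun p => Par p.1 p.2)).card =
        ∑ x ∈ CG K s c t, ((CG K s c t).filter fun y => Par x y).card := by
      rw [Finset.card_filter, Finset.sum_product]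
      refine Finset.sum_congr rfl fun x _ => ?_
      rw [Finset.card_filter]
    have e2 : ∀ x ∈ CG K s c t, ((CG K s c t).filter fun y => Par x y).card ≤ Cp := by
      intro x hx
      have hx' := (Finset.mem_filter.1 hx).2
      refine le_trans (Finset.card_le_card ?_) (hp (X : ℝ) x hX0.le hx'.1 hx'.2.1)
      intro y hy
      rw [Finset.mem_filter] at hy ⊢
      exact ⟨(Finset.mem_filter.1 hy.1).1, hy.2⟩
    have e3 : ((CG K s c t).card : ℝ) ≤ Cg * Xs := by
      refine le_trans ?_ (hg X hX1)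
      rw [Nat.cast_le]
      exact Finset.card_le_card (Finset.filter_subset _ _)
    have e4 : ((CG K s c t ×ˢ CG K s c t).filter (fun p => Par p.1 p.2)).card ≤
        (CG K s c t).card * Cp := by
      rw [e1]
      refine le_trans (Finset.sum_le_sum e2) ?_
      rw [Finset.sum_const, smul_eq_mul]
    have e5 : (((CG K s c t ×ˢ CG K s c t).filter (fun p => Par p.1 p.2)).card : ℝ) ≤
        ((CG K s c t).card : ℝ) * Cp := by exact_mod_cast e4
    refine e5.trans ?_
    have e6 : (0 : ℝ) ≤ Cp := Nat.cast_nonneg _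
    refine mul_le_mul e3 (by linarith) e6 (by positivity)
  refine le_trans (Finset.sum_le_sum hpair) ?_
  rw [Finset.sum_const, nsmul_eq_mul]
  refine (mul_le_mul_of_nonneg_right hcount (by positivity)).trans (le_of_eq ?_)
  rw [hZ, hM, div_pow, mul_pow]
  rw [← hXs, ← hQr, ← hE]
  field_simp
  ring

end Pool.Agent.NRN
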