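import Pool.Agent.NRN.StS
import Pool.Agent.RHK.TYP

/-!
NRN [CTW] (helper95): translations with given compatible values (from RHC/CTR.lean by helper87).
-/

set_option autoImplicit false

namespace Pool.Agent.NRN

open scoped BigOperators
open Classical NumberField IsDedekindDomain
open Pool.Agent.RHP (Mon mono ev Prim ev_add ev_smul ev_sub ev_zero ev_map)
open Pool.Agent.RHK Pool.Agent.RHC

theorem thm_CTW (hF : St_RF2) (hG : St_GCD) (hC : St_CMP) : St_CTW := by
  intro K _ _ s d hd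
  obtain ⟨C0, hC0, hC1, -, hC3, -, hC5, hC6⟩ := hC K
  refine ⟨2 ^ (d + 2) * C0 ^ 2 + 8 * C0, by positivity, ?_⟩
  intro X H κ m1 k ρ x y lam0 hX0 hx hy hX1 hX2 hpar hCv hρ0 hgW hXm hk hK hH a b hab haK hbK
  obtain ⟨v0⟩ : Nonempty (InfinitePlace K) := inferInstance
  have hX0' : (1 : ℝ) ≤ X := by exact_mod_cast hX0
  have hw0 : ∀ v : InfinitePlace K, 0 < wv v x y := fun v => wv_pos hpar
  have hm1 : 1 ≤ m1 := by
    rcases Nat.eq_zero_or_pos m1 with h | h
    · have h1 := hXm v0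
      rw [h, Nat.cast_zero, zero_mul] at h1
      nlinarith
    · exact h
  have hC01 : (1 : ℝ) ≤ C0 := by exact_mod_cast hC0
  have hK0 : 0 < κ := lt_of_lt_of_le (by positivity) hK
  have hkR : (1 : ℝ) ≤ k := by exact_mod_cast hk
  have hk0 : (0 : ℝ) < k := by linarith
  have hKR : (0 : ℝ) < κ := by exact_mod_cast hK0
  have hpar' : ¬ Par y x := by
    intro h
    apply hpar
    intro p
    have h1 := h p
    rw [mn_swap] at h1
    exact neg_eq_zero.1 h1
  have hCρ0 : (0 : ℝ) ≤ C0 * ρ := by positivity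
  have hH8 : 8 * (k : ℝ) * (C0 * ρ) ≤ H := by
    have h1 := hH
    push_cast at h1
    have h2 : (0 : ℝ) ≤ 2 ^ (d + 2) * C0 ^ 2 * k * ρ := by positivity
    linarith
  -- the form with the values `a`, `b`
  obtain ⟨f, hf1, hf2, hfm⟩ := hF K s d (by omega) x y hpar
  obtain ⟨f', hf1', hf2', hfm'⟩ := hF K s d (by omega) y x hpar'
  obtain ⟨h, hh⟩ := hx.exists_one d
  have hgT : b - a * ev h y ∈ gI x y := by
    have h1 : b - a * ev h y = (b - lam0 * a) - a * (ev h y - lam0 * ev h x) := by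
      rw [hh]
      ring
    rw [h1]
    exact (gI x y).sub_mem hab (Ideal.mul_mem_left _ _ (hgW h))
  obtain ⟨f0, hf0, hf0'⟩ := hG K s d (by omega) x y hy _ hgT
  obtain ⟨lam, hl, hl', hlm⟩ := hCv
    (fun m => (em a * f m + em b * f' m) - em (a * h m + f0 m)) (by
      rw [ev_sub, ev_add, ev_smul, ev_smul, hf1, hf2', TYP_evem (fun m => a * h m + f0 m),
        ev_add, ev_smul, hh, hf0]
      rw [mul_one, mul_zero, mul_one, add_zero, add_zero, sub_self]) (by
      rw [ev_sub, ev_add, ev_smul, ev_smul, hf2, hf1', TYP_evem (fun m => a * h m + f0 m),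
        ev_add, ev_smul, hf0']
      rw [mul_zero, mul_one, zero_add, add_sub_cancel, sub_self])
  have hsz : ∀ m j, |(co (a * h m + f0 m + lam m) j : ℝ)| ≤ 1 / (2 * (k : ℝ)) * H := by
    intro m j
    obtain ⟨B, hB⟩ : ∃ B : ℝ, B = C0 * (2 ^ (d - 1) * (H : ℝ) * m1 / κ) := ⟨_, rfl⟩
    have hB0 : 0 ≤ B := by rw [hB]; positivity
    have e1 : ‖em a * f m‖ ≤ B := by
      rw [hC6 _ _ hB0]
      intro v
      rw [TYP_nv_mul, nv_em, hB]
      have h1 : av v a ≤ C0 * cz a := hC1 a v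
      have h2 := TYP_size hd (hw0 v) hK0 (hX1 v).1 (hX2 v).2 (hXm v) haK
      have h3 : 0 ≤ vs v y / (wv v x y * vs v x ^ (d - 1)) :=
        div_nonneg (vs_nonneg v y) (mul_nonneg (wv_nonneg v x y) (pow_nonneg (vs_nonneg v x) _))
      calc av v a * nv v (f m) ≤ (C0 * cz a) * (vs v y / (wv v x y * vs v x ^ (d - 1))) := by
            have h4 : 0 ≤ av v a := av_nonneg v a
            exact (mul_le_mul_of_nonneg_left (hfm v m) h4).trans (mul_le_mul_of_nonneg_right h1 h3)
        _ = C0 * (cz a * (vs v y / (wv v x y * vs v x ^ (d - 1)))) := by ring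
        _ ≤ _ := mul_le_mul_of_nonneg_left h2 (by positivity)
    have e2 : ‖em b * f' m‖ ≤ B := by
      rw [hC6 _ _ hB0]
      intro v
      rw [TYP_nv_mul, nv_em, hB]
      have h1 : av v b ≤ C0 * cz b := hC1 b v
      have h2 := TYP_size hd (hw0 v) hK0 (hX2 v).1 (hX1 v).2 (hXm v) hbK
      have h3 : 0 ≤ vs v x / (wv v x y * vs v y ^ (d - 1)) :=
        div_nonneg (vs_nonneg v x) (mul_nonneg (wv_nonneg v x y) (pow_nonneg (vs_nonneg v y) _))
      have h5 := hfm' v m
      rw [wv_swap] at h5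
      calc av v b * nv v (f' m) ≤ (C0 * cz b) * (vs v x / (wv v x y * vs v y ^ (d - 1))) := by
            have h4 : 0 ≤ av v b := av_nonneg v b
            exact (mul_le_mul_of_nonneg_left h5 h4).trans (mul_le_mul_of_nonneg_right h1 h3)
        _ = C0 * (cz b * (vs v x / (wv v x y * vs v y ^ (d - 1)))) := by ring
        _ ≤ _ := mul_le_mul_of_nonneg_left h2 (by positivity)
    have e3 : C0 * B ≤ H / (8 * k) := by
      have h1 : (((2 ^ (d + 2) * C0 ^ 2 + 8 * C0) * m1 * k : ℕ) : ℝ) ≤ κ := by exact_mod_cast hK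
      push_cast at h1
      have h2 : (0 : ℝ) ≤ 8 * C0 * m1 * k := by positivity
      have h3 : (2 : ℝ) ^ (d + 2) = 2 ^ (d - 1) * 8 := by
        rw [show d + 2 = d - 1 + 3 by omega, pow_add]
        norm_num
      rw [h3] at h1
      have h4 : 2 ^ (d - 1) * 8 * (C0 : ℝ) ^ 2 * (m1 : ℝ) * k ≤ κ := by linarith
      have h5 := mul_le_mul_of_nonneg_left h4 (Nat.cast_nonneg H : (0 : ℝ) ≤ H)
      have h6 : C0 * B = (C0 : ℝ) ^ 2 * 2 ^ (d - 1) * (H : ℝ) * m1 / κ := by
        rw [hB]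
        ring
      rw [h6, div_le_div_iff₀ hKR (by positivity)]
      calc (C0 : ℝ) ^ 2 * 2 ^ (d - 1) * (H : ℝ) * m1 * (8 * k) =
            (H : ℝ) * (2 ^ (d - 1) * 8 * (C0 : ℝ) ^ 2 * (m1 : ℝ) * k) := by ring
        _ ≤ (H : ℝ) * κ := h5
    have e4 : C0 * ρ ≤ H / (8 * k) := by
      rw [le_div_iff₀ (by positivity)]
      linarith
    have e5 := hlm m
    have e6 : em (a * h m + f0 m + lam m) = (em a * f m + em b * f' m) -
        ((em a * f m + em b * f' m) - em (a * h m + f0 m) - em (lam m)) := by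
      rw [map_add]
      abel
    have e7 : (1 : ℝ) / (2 * k) * H = 4 * (H / (8 * k)) := by
      field_simp
      ring
    have e8 : ‖em (a * h m + f0 m + lam m)‖ ≤ B + B + ρ := by
      rw [e6]
      exact (norm_sub_le _ _).trans (add_le_add ((norm_add_le _ _).trans (add_le_add e1 e2)) e5)
    have e9 := hC3 (em (a * h m + f0 m + lam m)) j
    rw [hC5] at e9
    have e10 : (C0 : ℝ) * ‖em (a * h m + f0 m + lam m)‖ ≤ C0 * (B + B + ρ) :=
      mul_le_mul_of_nonneg_left e8 (by positivity)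
    have e11 : (0 : ℝ) ≤ H / (8 * k) := by positivity
    rw [e7]
    linarith
  refine ⟨fun m => a * h m + f0 m + lam m, ?_, ?_, ?_⟩
  · rw [ev_add, ev_add, ev_smul, hh, hf0, hl]
    rw [mul_one, add_zero, add_zero]
  · rw [ev_add, ev_add, ev_smul, hf0', hl']
    rw [add_zero, add_sub_cancel]
  · intro m
    have h1 : cz (a * h m + f0 m + lam m) ≤ H / k := by
      rw [cz, Finset.sup_le_iff]
      intro j _
      rw [Nat.le_div_iff_mul_le hk]
      have h2 := hsz m j
      have h3 : ((co (a * h m + f0 m + lam m) j).natAbs : ℝ) =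
          |(co (a * h m + f0 m + lam m) j : ℝ)| := by
        rw [Nat.cast_natAbs, Int.cast_abs]
      rw [← h3] at h2
      have h4 : (((co (a * h m + f0 m + lam m) j).natAbs * k : ℕ) : ℝ) ≤ H := by
        push_cast
        have h5 : ((co (a * h m + f0 m + lam m) j).natAbs : ℝ) * k ≤ 1 / (2 * (k : ℝ)) * H * k :=
          mul_le_mul_of_nonneg_right h2 hk0.le
        have h6 : (1 : ℝ) / (2 * (k : ℝ)) * H * k = H / 2 := by
          field_simp
        rw [h6] at h5
        have h7 : (0 : ℝ) ≤ H := Nat.cast_nonneg H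
        linarith
      exact_mod_cast h4
    calc cz (a * h m + f0 m + lam m) * k ≤ H / k * k := Nat.mul_le_mul_right k h1
      _ ≤ H := Nat.div_mul_le_self H k

end Pool.Agent.NRN
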