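import Pool.Agent.NRN.StF
import Pool.Agent.RHK.CMP
import Pool.Agent.RHK.SM
import Pool.Agent.RHK.Sz

/-!
NRN: block F, [CUB] (helper82): decomposition of the local model into residue classes and cubes.
-/

set_option autoImplicit false

namespace Pool.Agent.NRN

open scoped BigOperators
open Classical NumberField IsDedekindDomain
open Pool.Agent.RHP (Mon mono ev Sys Prim pd ev_map)
open Pool.Agent.RHK Pool.Agent.RHC Pool.Agent.NRM

/-- quotients of the coordinates -/
noncomputable def CUB_dv {K : Type} [Field K] [NumberField K] (k : ℕ) (a : 𝓞 K) : 𝓞 K :=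
  (RingOfIntegers.basis K).equivFun.symm fun i => co a i / k

/-- remainders of the coordinates -/
noncomputable def CUB_rm {K : Type} [Field K] [NumberField K] (k : ℕ) (a : 𝓞 K) : 𝓞 K :=
  (RingOfIntegers.basis K).equivFun.symm fun i => co a i % k

private theorem CUB_co_mk {K : Type} [Field K] [NumberField K] (f : IX K → ℤ) (i : IX K) :
    co ((RingOfIntegers.basis K).equivFun.symm f) i = f i := by
  have h := (RingOfIntegers.basis K).equivFun.apply_symm_apply f
  exact congrFun h i

private theorem CUB_co_add {K : Type} [Field K] [NumberField K] (a b : 𝓞 K) (i : IX K) :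
    co (a + b) i = co a i + co b i := by
  unfold co
  rw [map_add, Finsupp.add_apply]

private theorem CUB_co_sub {K : Type} [Field K] [NumberField K] (a b : 𝓞 K) (i : IX K) :
    co (a - b) i = co a i - co b i := by
  unfold co
  rw [map_sub, Finsupp.sub_apply]

private theorem CUB_co_inj {K : Type} [Field K] [NumberField K] {a b : 𝓞 K}
    (h : ∀ j, co a j = co b j) : a = b :=
  (RingOfIntegers.basis K).equivFun.injective (funext h)

private theorem CUB_dec {K : Type} [Field K] [NumberField K] (k : ℕ) (a : 𝓞 K) :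
    CUB_rm k a + (k : 𝓞 K) * CUB_dv k a = a := by
  apply CUB_co_inj
  intro i
  rw [CUB_co_add, co_natCast_mul]
  unfold CUB_rm CUB_dv
  rw [CUB_co_mk, CUB_co_mk, Int.emod_add_mul_ediv]

private theorem CUB_cz_le {K : Type} [Field K] [NumberField K] {a : 𝓞 K} {N : ℕ} :
    cz a ≤ N ↔ ∀ i, |co a i| ≤ N := by
  unfold cz
  rw [Finset.sup_le_iff]
  refine ⟨fun h i => ?_, fun h i _ => ?_⟩
  · have := h i (Finset.mem_univ i)
    rw [Int.abs_eq_natAbs]
    exact_mod_cast this
  · have := h i
    rw [Int.abs_eq_natAbs] at this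
    exact_mod_cast this

/-- integer division -/
private theorem CUB_div {a : ℤ} {N k : ℕ} (hk : 1 ≤ k) (h : |a| ≤ N) : |a / k| ≤ N := by
  have hk' : (1 : ℤ) ≤ k := by exact_mod_cast hk
  rw [abs_le] at h ⊢
  constructor
  · rw [Int.le_ediv_iff_mul_le (by omega)]
    have h1 : -(N : ℤ) * k ≤ -(N : ℤ) * 1 := by
      apply mul_le_mul_of_nonpos_left hk'
      omega
    omega
  · apply Int.ediv_le_of_le_mul (by omega)
    have h1 : (N : ℤ) * 1 ≤ (N : ℤ) * k := by
      apply mul_le_mul_of_nonneg_left hk'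
      omega
    omega

/-- divisibility of the values -/
private theorem CUB_dvd {K : Type} [Field K] [NumberField K] {r D : ℕ} (g : Mon r D → 𝓞 K)
    (b k : ℕ) (hbk : b ∣ k) (ω w : Fin r → 𝓞 K) :
    (b : 𝓞 K) ∣ ev g (fun j => ω j + k * w j) ↔ (b : 𝓞 K) ∣ ev g ω := by
  have h1 : Ideal.Quotient.mk (Ideal.span {(b : 𝓞 K)}) (ev g (fun j => ω j + k * w j)) =
      Ideal.Quotient.mk (Ideal.span {(b : 𝓞 K)}) (ev g ω) := by
    rw [← ev_map (Ideal.Quotient.mk (Ideal.span {(b : 𝓞 K)})),
      ← ev_map (Ideal.Quotient.mk (Ideal.span {(b : 𝓞 K)}))]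
    congr 1
    funext j
    rw [map_add, map_mul]
    have h2 : Ideal.Quotient.mk (Ideal.span {(b : 𝓞 K)}) (k : 𝓞 K) = 0 := by
      rw [Ideal.Quotient.eq_zero_iff_mem, Ideal.mem_span_singleton]
      obtain ⟨e, rfl⟩ := hbk
      exact ⟨(e : 𝓞 K), by push_cast; ring⟩
    rw [h2, zero_mul, add_zero]
  rw [← Ideal.mem_span_singleton, ← Ideal.mem_span_singleton, ← Ideal.Quotient.eq_zero_iff_mem,
    ← Ideal.Quotient.eq_zero_iff_mem, h1]

/-- a sum over a set is at most the sum over an injective image with larger terms -/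
private theorem CUB_sum {α β : Type} (S : Finset α) (T : Finset β) (τ : α → β) (F : α → ℝ)
    (G : β → ℝ) (hτ : ∀ a ∈ S, τ a ∈ T) (hi : ∀ a ∈ S, ∀ a' ∈ S, τ a = τ a' → a = a')
    (hF : ∀ a ∈ S, F a ≤ G (τ a)) (hG : ∀ b ∈ T, 0 ≤ G b) : ∑ a ∈ S, F a ≤ ∑ b ∈ T, G b := by
  calc ∑ a ∈ S, F a ≤ ∑ a ∈ S, G (τ a) := Finset.sum_le_sum hF
    _ = ∑ b ∈ S.image τ, G b := by
      rw [Finset.sum_image]
      intro a ha a' ha' h
      exact hi a ha a' ha' h
    _ ≤ ∑ b ∈ T, G b := by
      apply Finset.sum_le_sum_of_subset_of_nonneg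
      · intro b hb
        obtain ⟨a, ha, rfl⟩ := Finset.mem_image.1 hb
        exact hτ a ha
      · intro b hb _
        exact hG b hb

private theorem CUB_NAL {K : Type} [Field K] [NumberField K] {s d : ℕ} {Q : Type} (B : Finset Q)
    (a : Q → 𝓞 K) (P : Set ((Fin s → 𝓞 K) × Q)) (c t H κ W : ℕ) (f : Mon s d → 𝓞 K) :
    NAL B a P c t H κ W f = ∑ w ∈ B, ∑ x ∈ CG K s c t, if (x, w) ∈ P then
      (if (W : 𝓞 K) ∣ ev f x - a w ∧ cz (ev f x - a w) ≤ ThC s c t H κ d then
        (1 / (TC (dg K) s c t H κ W d : ℝ)) else 0) else 0 := by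
  unfold NAL
  rw [Finset.sum_comm]

theorem thm_CUB : St_CUB := by
  intro K _ _ r D m _ g A b k hA hb hk hbk ζ hζ
  obtain ⟨C₁, hC₁, hC1, hC2, -⟩ := thm_CMP K
  obtain ⟨l, hl⟩ := exists_nat_ge ((k * C₁ : ℝ) / ζ)
  set ll : ℕ := l + 1 with hll
  set n₁ : ℕ := 2 * ll * C₁ * A + 1 with hn₁
  refine ⟨n₁, n₁, by omega, ll, ?_⟩
  intro c t V hQ
  set Q := QN 2 m c t V with hQdef
  have hll1 : 1 ≤ ll := by omega
  set L : ℕ := Q / ll with hL
  have hL1 : 1 ≤ L := (Nat.le_div_iff_mul_le hll1).2 (by omega)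
  have hLQ : L * ll ≤ Q := Nat.div_mul_le_self Q ll
  have hQL : Q ≤ 2 * ll * L := by
    have h1 : Q < ll * (L + 1) := by
      have := Nat.lt_mul_div_succ Q (show 0 < ll by omega)
      exact this
    nlinarith
  have hLQ' : L ≤ Q := le_trans (Nat.le_mul_of_pos_right L (by omega)) hLQ
  refine ⟨L, ?_, ?_, ?_, ?_⟩
  · exact le_trans hLQ' (Nat.le_mul_of_pos_left Q (by omega))
  · rw [mul_comm]
    exact Nat.mul_le_mul_left n₁ hLQ'
  · intro ω _ e w hw w' hw' v j
    have h1 : (ω j + k * w j) - (ω j + k * w' j) = (k : 𝓞 K) * (w j - w' j) := by ring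
    rw [h1, av_mul, av_natCast]
    unfold BK at hw hw'
    have hw1 := (Finset.mem_filter.1 (Fintype.mem_piFinset.1 (Finset.mem_filter.1 hw).1 j)).2
    have hw2 := (Finset.mem_filter.1 (Fintype.mem_piFinset.1 (Finset.mem_filter.1 hw').1 j)).2
    have h2 : cz (w j - w' j) ≤ L := by
      rw [CUB_cz_le]
      intro i
      rw [CUB_co_sub, abs_le]
      have h3 := hw1 i
      have h4 := hw2 i
      constructor <;> omega
    have h5 : (k : ℝ) * av v (w j - w' j) ≤ k * (C₁ * L) := by
      apply mul_le_mul_of_nonneg_left _ (Nat.cast_nonneg k)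
      refine (hC1 _ v).trans ?_
      apply mul_le_mul_of_nonneg_left _ (Nat.cast_nonneg C₁)
      exact_mod_cast h2
    refine h5.trans ?_
    have h6 : (k * C₁ : ℝ) ≤ ζ * ll := by
      have h7 : (k * C₁ : ℝ) ≤ l * ζ := (div_le_iff₀ hζ).1 hl
      have h8 : (l : ℝ) * ζ ≤ ζ * ll := by
        rw [hll, mul_comm]
        apply mul_le_mul_of_nonneg_left _ hζ.le
        push_cast
        linarith
      linarith
    have h9 : (L : ℝ) * ll ≤ Q := by exact_mod_cast hLQ
    calc (k : ℝ) * (C₁ * L) = (k * C₁) * L := by ring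
      _ ≤ (ζ * ll) * L := mul_le_mul_of_nonneg_right h6 (Nat.cast_nonneg L)
      _ = ζ * (L * ll) := by ring
      _ ≤ ζ * Q := mul_le_mul_of_nonneg_left h9 hζ.le
  · intro P P' hP H κ W f
    -- the class and the cube of `w`
    let om : (Fin r → 𝓞 K) → (Fin r → 𝓞 K) := fun w j => CUB_rm k (w j)
    let wt : (Fin r → 𝓞 K) → (Fin r → 𝓞 K) := fun w j => CUB_dv k (w j)
    let nn : (Fin r → 𝓞 K) → (Fin r → IX K → ℤ) := fun w j i => co (wt w j) i / L
    have hdec : ∀ w : Fin r → 𝓞 K, (fun j => om w j + k * wt w j) = w := fun w =>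
      funext fun j => CUB_dec k (w j)
    have hsize : ∀ w ∈ BG g b (A * Q), ∀ j i, |co (w j) i| ≤ (C₁ * (A * Q) : ℕ) := by
      intro w hw j i
      have h1 := Fintype.mem_piFinset.1 (Finset.mem_filter.1 hw).1 j
      rw [mem_pb] at h1
      have h2 := hC2 (w j) _ h1
      have h3 : cz (w j) ≤ C₁ * (A * Q) := by exact_mod_cast h2
      exact CUB_cz_le.1 h3 i
    have hsize2 : ∀ w ∈ BG g b (A * Q), ∀ j i, |co (wt w j) i| ≤ (C₁ * (A * Q) : ℕ) := by
      intro w hw j i
      change |co (CUB_dv k (w j)) i| ≤ _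
      unfold CUB_dv
      rw [CUB_co_mk]
      exact CUB_div hk (hsize w hw j i)
    have hom : ∀ w ∈ BG g b (A * Q),
        om w ∈ (db K r k).filter (fun ω => (b : 𝓞 K) ∣ ev g ω) := by
      intro w hw
      rw [Finset.mem_filter]
      constructor
      · unfold db
        rw [Fintype.mem_piFinset]
        intro j
        have hk0 : (0 : ℤ) < k := by exact_mod_cast hk
        have h1 : ∀ i, 0 ≤ co (om w j) i ∧ co (om w j) i < k := by
          intro i
          change 0 ≤ co (CUB_rm k (w j)) i ∧ co (CUB_rm k (w j)) i < k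
          unfold CUB_rm
          rw [CUB_co_mk]
          exact ⟨Int.emod_nonneg _ (by omega), Int.emod_lt_of_pos _ hk0⟩
        rw [Finset.mem_filter]
        refine ⟨?_, h1⟩
        rw [mem_cb, CUB_cz_le]
        intro i
        rw [abs_le]
        have := h1 i
        constructor <;> omega
      · rw [← CUB_dvd g b k hbk (om w) (wt w), hdec w]
        exact (Finset.mem_filter.1 hw).2.1
    have hnn : ∀ w ∈ BG g b (A * Q), nn w ∈ Fintype.piFinset (fun _ : Fin r =>
        Fintype.piFinset fun _ : IX K => Finset.Icc (-(n₁ : ℤ)) n₁) := by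
      intro w hw
      rw [Fintype.mem_piFinset]
      intro j
      rw [Fintype.mem_piFinset]
      intro i
      have h1 := hsize2 w hw j i
      have hL0 : (0 : ℤ) < L := by exact_mod_cast hL1
      have h2 : C₁ * (A * Q) ≤ L * n₁ := by
        calc C₁ * (A * Q) ≤ C₁ * (A * (2 * ll * L)) := by gcongr
          _ ≤ L * n₁ := by
            rw [hn₁]
            nlinarith
      have h3 : ((C₁ * (A * Q) : ℕ) : ℤ) ≤ L * n₁ := by exact_mod_cast h2
      rw [abs_le] at h1
      rw [Finset.mem_Icc]
      change -(n₁ : ℤ) ≤ co (wt w j) i / L ∧ co (wt w j) i / L ≤ n₁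
      constructor
      · rw [Int.le_ediv_iff_mul_le hL0]
        nlinarith
      · apply Int.ediv_le_of_le_mul hL0
        nlinarith
    have hBK : ∀ w ∈ BG g b (A * Q), wt w ∈ BK g k (om w) (fun j i => L * nn w j i) L := by
      intro w hw
      unfold BK
      rw [Finset.mem_filter]
      constructor
      · rw [Fintype.mem_piFinset]
        intro j
        have hL0 : (0 : ℤ) < L := by exact_mod_cast hL1
        have h1 : ∀ i, L * nn w j i ≤ co (wt w j) i ∧ co (wt w j) i < L * nn w j i + L := by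
          intro i
          change L * (co (wt w j) i / L) ≤ co (wt w j) i ∧
            co (wt w j) i < L * (co (wt w j) i / L) + L
          have h2 := Int.emod_add_mul_ediv (co (wt w j) i) L
          have h3 := Int.emod_nonneg (co (wt w j) i) (show (L : ℤ) ≠ 0 by omega)
          have h4 := Int.emod_lt_of_pos (co (wt w j) i) hL0
          constructor <;> omega
        rw [Finset.mem_filter]
        refine ⟨?_, h1⟩
        rw [mem_cb, CUB_cz_le]
        intro i
        have h5 : (L * nn w j i : ℤ).natAbs ≤ Finset.univ.sup fun i => (L * nn w j i : ℤ).natAbs :=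
          Finset.le_sup (f := fun i => (L * nn w j i : ℤ).natAbs) (Finset.mem_univ i)
        have h6 := h1 i
        push_cast
        have h7 : ((L * nn w j i : ℤ).natAbs : ℤ) ≤
            ((Finset.univ.sup fun i => (L * nn w j i : ℤ).natAbs : ℕ) : ℤ) := by exact_mod_cast h5
        rw [← Int.abs_eq_natAbs] at h7
        rw [abs_le]
        have h8 := neg_abs_le (L * nn w j i : ℤ)
        have h9 := le_abs_self (L * nn w j i : ℤ)
        constructor <;> omega
      · rw [hdec w]
        exact (Finset.mem_filter.1 hw).2.2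
    have haK : ∀ w : Fin r → 𝓞 K, aK g b k (om w) (wt w) = aG g b w := by
      intro w
      unfold aK
      rw [hdec w]
    -- regroup
    rw [CUB_NAL, ← Finset.sum_product' ((db K r k).filter (fun ω => (b : 𝓞 K) ∣ ev g ω)),
      ← Finset.sum_fiberwise_of_maps_to (t := (db K r k).filter (fun ω => (b : 𝓞 K) ∣ ev g ω) ×ˢ
        Fintype.piFinset (fun _ : Fin r => Fintype.piFinset fun _ : IX K =>
          Finset.Icc (-(n₁ : ℤ)) n₁)) (g := fun w => (om w, nn w))
        (fun w hw => Finset.mem_product.2 ⟨hom w hw, hnn w hw⟩)]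
    apply Finset.sum_le_sum
    rintro ⟨ω, n⟩ -
    split_ifs with hE
    · rw [CUB_NAL]
      apply CUB_sum _ _ wt
      · intro w hw
        obtain ⟨hw1, hw2⟩ := Finset.mem_filter.1 hw
        have h1 : om w = ω := congrArg Prod.fst hw2
        have h2 : nn w = n := congrArg Prod.snd hw2
        rw [← h1, ← h2]
        exact hBK w hw1
      · intro w hw w' hw' h
        have h1 : om w = ω := congrArg Prod.fst (Finset.mem_filter.1 hw).2
        have h2 : om w' = ω := congrArg Prod.fst (Finset.mem_filter.1 hw').2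
        rw [← hdec w, ← hdec w', h1, h2, h]
      · intro w hw
        have h1 : om w = ω := congrArg Prod.fst (Finset.mem_filter.1 hw).2
        apply Finset.sum_le_sum
        intro x _
        have h2 : aK g b k ω (wt w) = aG g b w := by
          rw [← h1]
          exact haK w
        rw [h2]
        by_cases hx : (x, w) ∈ P
        · have hx' : (x, wt w) ∈ {p : (Fin 2 → 𝓞 K) × (Fin r → 𝓞 K) | p.1 ∈ P'} := hP (x, w) hx
          rw [if_pos hx, if_pos hx']
        · rw [if_neg hx]
          split_ifs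
          · positivity
          · exact le_refl _
          · exact le_refl _
      · intro w _
        apply Finset.sum_nonneg
        intro x _
        split_ifs
        · positivity
        · exact le_refl _
        · exact le_refl _
    · apply le_of_eq
      apply Finset.sum_eq_zero
      intro w hw
      obtain ⟨hw1, hw2⟩ := Finset.mem_filter.1 hw
      have h1 : om w = ω := congrArg Prod.fst hw2
      have h2 : nn w = n := congrArg Prod.snd hw2
      apply Finset.sum_eq_zero
      intro x _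
      rw [if_neg]
      intro hx
      apply hE
      refine ⟨wt w, ?_, x, ?_⟩
      · change wt w ∈ BK g k ω (fun j i => L * n j i) L
        rw [← h1, ← h2]
        exact hBK w hw1
      · change (x, fun j => ω j + k * wt w j) ∈ P
        rw [← h1, hdec w]
        exact hx

end Pool.Agent.NRN
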