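import Pool.Agent.NRN.StS

/-!
NRN, block F (families) and block L (local lower bounds, conclusion): statements of the modules (helper95).
Rules as in StG.lean.  `X = XC 2 c t`, `Q = QN 2 m c t V = X^m V`, `d = D m`, `rho = dg K`.
-/

set_option autoImplicit false

namespace Pool.Agent.NRN

open scoped BigOperators
open Classical NumberField IsDedekindDomain
open Pool.Agent.RHP (Mon mono ev Sys Prim pd WB WW)
open Pool.Agent.RHK Pool.Agent.RHC Pool.Agent.NRM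
open Pool.Agent.RHKB (mI hh jj qv MK uu BadK)
open Pool.Agent.RHCB (BadC cred cemb uk PrC hM f00)
open Pool.Agent.RHCW (cmk)

/-! ### Families

In the next statements `ω` has coordinates in `[0, k)` (`ω ∈ db K r k`), `b ∣ g(ω)`, the corner `e` of the cube is at
most `A Q` and its side `L` at most `A Q`. -/

/-- [DGA] the diagonal bound for decomposable forms; from RPB (NRM), PBC (RHM).  PROOF.  As NOKB: the number of the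
pairs is at most `#bx U * C U^(rho kap) ≤ C (U^D)^rho (U^kap)^rho`, and here `r = D`. -/
def St_DGA : Prop :=
  ∀ (K : Type) [Field K] [NumberField K] (D : ℕ), 2 ≤ D → ∀ g : Mon D D → 𝓞 K, Decomp g →
    ∀ kap : ℝ, 0 < kap → DGN g kap

/-- [FCD] `card` and `shift`; from GZ (NRM).  PROOF.  `#BK ≤ L^(r rho) ≤ (A Q)^(r rho)`.  If `w ∈ BK` and `w + δ ∉ BK`
then some coordinate `co (w j) i` is within `M` of the end of its interval of length `L` (at most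
`r rho M L^(r rho - 1) ≤ C M Q^(r rho - 1)` such `w`; for `M ≥ L` this is trivial), or `g(ω + k (w + δ)) = 0`: `w + δ` is
in a box of size `C Q` if `M ≤ L`, so GZ gives at most `C (Q^r)^rho/Q^rho` of them.  The same for `w - δ`. -/
def St_FCD : Prop :=
  ∀ (K : Type) [Field K] [NumberField K] (r D m : ℕ), 1 ≤ r → 2 ≤ D → ∀ g : Mon r D → 𝓞 K, g ≠ 0 →
    ∀ A k : ℕ, 1 ≤ A → 1 ≤ k → ∃ C : ℝ, 0 < C ∧ ∀ c t V : ℕ, 1 ≤ QN 2 m c t V →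
      ∀ ω ∈ db K r k, ∀ (e : Fin r → IX K → ℤ) (L : ℕ),
      (∀ j i, |e j i| ≤ A * QN 2 m c t V) → L ≤ A * QN 2 m c t V →
      ((BK g k ω e L).card : ℝ) ≤ C * ((QN 2 m c t V : ℝ) ^ r) ^ dg K ∧
      ∀ M : ℕ, 1 ≤ M → ∀ δ ∈ db K r M,
        (((BK g k ω e L).filter fun w => (fun j => w j + δ j) ∉ BK g k ω e L).card : ℝ) *
          QN 2 m c t V ≤ C * M * ((QN 2 m c t V : ℝ) ^ r) ^ dg K ∧
        (((BK g k ω e L).filter fun w => (fun j => w j - δ j) ∉ BK g k ω e L).card : ℝ) *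
          QN 2 m c t V ≤ C * M * ((QN 2 m c t V : ℝ) ^ r) ^ dg K

/-- [FDI] `diag`; PROOF.  `w ↦ ω + k w` is injective, its values on `BK` are in `bx K D (C Q)` (CMP), and
`a_w = a_w'` gives `g(ω + k w) = g(ω + k w') ≠ 0` (`aG_mul`): DGN with `U = C Q`; then as the part `diag` of
NRM/FAMG.lean with `s = 2` (`H X^(Dm) ≤ (V+1)^D X^(Dm) ≤ 2^D Q^D`, `Q^kap ≤ C t^(kap (m (c+1) + v))`). -/
def St_FDI : Prop :=
  ∀ (K : Type) [Field K] [NumberField K] (r D m : ℕ), 2 ≤ D → 1 ≤ m → ∀ g : Mon r D → 𝓞 K, g ≠ 0 →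
    ∀ kap : ℝ, 0 ≤ kap → DGN g kap → ∀ c v : ℕ, kap * (m * (c + 1) + v) + 2 ≤ 2 * (c + 1) →
    ∀ A b k : ℕ, 1 ≤ A → 1 ≤ b → 1 ≤ k → b ∣ k → ∃ C : ℝ, 0 < C ∧ ∀ t : ℕ, 1 ≤ t → ∀ V H : ℕ,
      CR D v t V H → ∀ ω ∈ db K r k, (b : 𝓞 K) ∣ ev g ω → ∀ (e : Fin r → IX K → ℤ) (L : ℕ),
      (∀ j i, |e j i| ≤ A * QN 2 m c t V) → L ≤ A * QN 2 m c t V →
      (((BK g k ω e L ×ˢ BK g k ω e L).filter fun p =>
        aK g b k ω p.1 = aK g b k ω p.2).card : ℝ) * t *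
          ((H : ℝ) * (XC 2 c t : ℝ) ^ (D * m)) ^ dg K ≤
        C * ((XC 2 c t : ℝ) ^ 2) ^ dg K * (((QN 2 m c t V : ℝ) ^ r) ^ dg K) ^ 2

/-- [FLI] `lip`; PROOF.  `b (a(w+δ) - a(w)) = g(ω + k (w + δ)) - g(ω + k w)` (`b` divides the values `g(ω + k w)`), all
coordinates are at most `C Q` (CMP), the difference of the monomials is at most `C Q^(D-1) M`, and
`Q^D = X^(Dm) V^D ≤ X^(Dm) H`. -/
def St_FLI : Prop :=
  ∀ (K : Type) [Field K] [NumberField K] (r D m : ℕ), 2 ≤ D → ∀ g : Mon r D → 𝓞 K,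
    ∀ A b k : ℕ, 1 ≤ A → 1 ≤ b → 1 ≤ k → b ∣ k → ∃ C : ℝ, 0 < C ∧ ∀ c v t V H : ℕ, 1 ≤ t →
      CR D v t V H → ∀ ω ∈ db K r k, (b : 𝓞 K) ∣ ev g ω → ∀ (e : Fin r → IX K → ℤ) (L : ℕ),
      (∀ j i, |e j i| ≤ A * QN 2 m c t V) → L ≤ A * QN 2 m c t V →
      ∀ M : ℕ, 1 ≤ M → M ≤ QN 2 m c t V → ∀ w ∈ BK g k ω e L, ∀ δ ∈ db K r M,
      ∀ v : InfinitePlace K,
        av v (aK g b k ω (fun j => w j + δ j) - aK g b k ω w) * QN 2 m c t V ≤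
          C * M * (H * (XC 2 c t : ℝ) ^ (D * m))

/-- [RTS] small values of a polynomial at the infinite places; from IDU (RHK), CMP.  PROOF.  `σ_v = v.embedding`.
Over `ℂ` `σ_v P(T) - z_v = σ_v(alpha) ∏ (T - r_(v,i))`, `i = 1..D`; so the condition implies
`|σ_v(T) - r_(v,i)| ≤ (τ_v/|alpha|_v)^(1/D)` for some `i = i_v`.  For each of the `D^(places)` choices of the `i_v`, the
`T` are at distance at most `2 (τ_v/|alpha|_v)^(1/D)` from each other at all places: at most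
`C (PT τ^(1/D) + 1) ≤ 2 C PT τ^(1/D)` of them by IDU with `I = ⊤` (enlarge the radii by a constant such that their
`PT` is at least one). -/
def St_RTS : Prop :=
  ∀ (K : Type) [Field K] [NumberField K] (D : ℕ), 1 ≤ D → ∀ alpha : 𝓞 K, alpha ≠ 0 → ∃ C : ℝ, 0 < C ∧
    ∀ (P : Polynomial (𝓞 K)), P.natDegree ≤ D → P.coeff D = alpha → ∀ (U : ℝ)
      (τ : InfinitePlace K → ℝ), (∀ v, 0 < τ v) → 1 ≤ PT τ → ∀ z : InfinitePlace K → ℂ,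
      (((pb K U).filter fun T => ∀ v : InfinitePlace K,
        ‖v.embedding ((P.eval T : 𝓞 K) : K) - z v‖ ≤ τ v).card : ℝ) ≤ C * PT τ ^ ((1 : ℝ) / D)

/-- [FAC] `arc`; from PLB, RTS, IDL (RHK), PBC (RHM), CMP.  PROOF.  As NRM/VG.lean: fix `u` with `g(u) ≠ 0`; the map
`(w, T) ↦ (w - T u, T)` from `S × pb K Q` to `bx K r (C Q) × pb K Q` is injective; for given `w₀ = w - T u` the `T` satisfy
`|σ_v P(T) - z_v| ≤ θ_v H X^d` with `P` of PLB: at most `C PT τ^(1/D)` by RTS, `τ_v = C θ_v Q^D`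
(`H X^d ≤ 2^D Q^D`), `PT τ^(1/D) = C PT θ^(1/D) Q^rho` (and `PT τ ≥ 1` as `D ≥ 1`).  So
`#S * c Q^rho ≤ C (Q^r)^rho C PT θ^(1/D) Q^rho` (`#pb Q ≥ c Q^rho`: IDL with `I = ⊤`). -/
def St_FAC : Prop :=
  ∀ (K : Type) [Field K] [NumberField K] (r D m : ℕ), 2 ≤ D → ∀ g : Mon r D → 𝓞 K, g ≠ 0 →
    ∀ A b k : ℕ, 1 ≤ A → 1 ≤ b → 1 ≤ k → b ∣ k → ∃ C : ℝ, 0 < C ∧ ∀ c v t V H : ℕ, 1 ≤ t →
      CR D v t V H → ∀ ω ∈ db K r k, (b : 𝓞 K) ∣ ev g ω → ∀ (e : Fin r → IX K → ℤ) (L : ℕ),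
      (∀ j i, |e j i| ≤ A * QN 2 m c t V) → L ≤ A * QN 2 m c t V →
      ∀ θ : InfinitePlace K → ℝ, (∀ v, 0 < θ v) → 1 ≤ PT θ * (QN 2 m c t V : ℝ) ^ dg K →
      ∀ z : InfinitePlace K → ℂ,
      (((BK g k ω e L).filter fun w => ∀ v : InfinitePlace K,
        ‖v.embedding ((aK g b k ω w : 𝓞 K) : K) - z v‖ ≤
          θ v * (H * (XC 2 c t : ℝ) ^ (D * m))).card : ℝ) ≤
        C * ((QN 2 m c t V : ℝ) ^ r) ^ dg K * PT θ ^ ((1 : ℝ) / D)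

/-- [FAR] the families satisfy FAMR; from LOK, DGA, FCD, FDI, FLI, FAC.  The constant is the maximum of the
constants and of one; `kap = 1/(m (c + 1) + v)`: the inequality of FDI holds as `3 ≤ 2 (c + 1)`. -/
def St_FAR : Prop :=
  ∀ (K : Type) [Field K] [NumberField K] (D m : ℕ), 2 ≤ D → 1 ≤ m → ∀ g : Mon D D → 𝓞 K, Decomp g →
    g ≠ 0 → ∀ c v : ℕ, 1 ≤ c → ∀ A b k : ℕ, 1 ≤ A → 1 ≤ b → 1 ≤ k → b ∣ k → ∃ C : ℝ, 1 ≤ C ∧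
      ∀ t : ℕ, 1 ≤ t → ∀ V H : ℕ, CR D v t V H → ∀ ω ∈ db K D k, (b : 𝓞 K) ∣ ev g ω →
      ∀ (e : Fin D → IX K → ℤ) (L : ℕ),
      (∀ j i, |e j i| ≤ A * QN 2 m c t V) → L ≤ A * QN 2 m c t V →
      FAMR D m c t V H (BK g k ω e L) (aK g b k ω) C

/-! ### The local lower bound, with two or more variables

The statements `..1` are those of NRM/StB.lean with `NHyp1` and (where the variance of the local densities is
used) the hypothesis `SGP`. -/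

/-- few forms have a small local density at the primes `> p0` -/
def SGP (K : Type) [Field K] [NumberField K] (s d : ℕ) {r D : ℕ} (g : Mon r D → 𝓞 K) : Prop :=
  ∀ ε : ℝ, 0 < ε → ∃ p00 : ℕ, ∀ p0 ≥ p00, ∀ q b : ℕ, 0 < q → b.Coprime q →
    (∀ p : ℕ, p.Prime → p ∣ q → p0 < p) →
    (Nat.card {f : Mon s d → 𝓞 K ⧸ Ideal.span {(q : 𝓞 K)} //
      sigN b (cred (Ideal.span {(q : 𝓞 K)}) g) f < 1 / 2} : ℝ) ≤
      ε * (Nat.card (Mon s d → 𝓞 K ⧸ Ideal.span {(q : 𝓞 K)}) : ℝ)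

/-- [SG2] the variance for two variables; from UNI, CNTH, PRM, HSUM (RHKB), PAIRC (RHCB), GBA, GEX, LOK.  PROOF.
`A = 𝓞/(q)`, `n = #A`, `b` is a unit of `A`, so `b f(ρ) = g(ω)` iff `f(ρ) = b⁻¹ g(ω)`.  First moment as in NRM/SIGN.lean:
the average of `sigN` is `#{ρ primitive}/n^2 ≥ 1 - hh A` (PRM) `≥ 1 - C/p0` (HSUM).  Second moment: for primitive
`ρ, ρ'` and `J = mI ρ ρ'` (an ideal of `A`, `𝒥` its preimage in `𝓞`, `A/J = 𝓞/𝒥`) the number of the `f` with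
`b f(ρ) = g(ω)`, `b f(ρ') = g(ω')` is zero unless `g(ω') = lam^d g(ω)` modulo `J` (`lam` a unit modulo `J`), and at most
`#(A/J) Q/n^2` (PAIRC), `Q = #{f}`; the proportion of these `(ω, ω')` is
`∑_c PQ(c) PQ(lam^d c) ≤ GI g 𝒥/#(A/J)` (Cauchy-Schwarz, GBA).  So the average of `sigN^2` is at most
`n^(-4) ∑_(ρ, ρ' primitive) GI g 𝒥(ρ, ρ')`.  For given `ρ` GEX with `U = Fin 2 → A`, `S` = the primitive `ρ'`,
`Z = n^2` (CNTH with `s = 2`: `#{ρ' : 𝒥 ≤ I} ≤ n^2/N(I)` for `I ⊇ (q)`; for other `I` replace `I` by `I ⊔ (q)`... the set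
is `{𝒥 ≤ I}` and `𝒥 ∋ q`, so `I ∋ q` if it is not empty) and `p0`: at most `(1 + C'/p0) n^2`.  Variance
`≤ (1 + C'/p0) - (1 - C/p0)^2 ≤ C''/p0`, Chebyshev: the proportion of the `f` with `sigN < 1/2` is at most
`C''/p0/(1/2 - C/p0)^2`.  LOC for `ev g`: LOK with `b = k = 1`, `ω = 0`. -/
def St_SG2 : Prop :=
  ∀ (K : Type) [Field K] [NumberField K] (D d : ℕ), 2 ≤ D → 1 ≤ d → ∀ g : Mon D D → 𝓞 K,
    Decomp g → g ≠ 0 → SGP K 2 d g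

/-- [SL1].  Port of NRM/SIGLOWN.lean: the hypothesis `SGP` replaces SIGN, HSUM, HMQ. -/
def St_SL1 : Prop :=
  ∀ (K : Type) [Field K] [NumberField K] (s r D m : ℕ), NHyp1 s D m → ∀ g : Mon r D → 𝓞 K, g ≠ 0 →
    SGP K s (D * m) g →
    ∀ ε : ℝ, 0 < ε → ∃ p00 : ℕ, ∀ p0 ≥ p00, ∀ b q : ℕ, 0 < b → 0 < q →
    (∀ p : ℕ, p.Prime → p ∣ b → p ≤ p0) → (∀ p : ℕ, p.Prime → p ∣ q → p ≤ p0) →
    ∃ σ₀ : ℝ, 0 < σ₀ ∧ ∃ m2 : ℕ, ∀ m0 ≥ m2, ∃ H0 : ℕ, ∀ H ≥ H0,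
      (((box K s (D * m) H).filter fun f => ∃ (ρ₀ : Fin s → 𝓞 K) (ω₀ : Fin r → 𝓞 K),
        (∀ v, LowP p0 v → LocZN v b q g ρ₀ ω₀ f) ∧
        wsigN b q (cred (Ideal.span {(WW m0 : 𝓞 K)}) g) (cmk (Ideal.span {(WW m0 : 𝓞 K)}) ρ₀)
          (cmk (Ideal.span {(WW m0 : 𝓞 K)}) ω₀) (cred (Ideal.span {(WW m0 : 𝓞 K)}) f) <
          σ₀).card : ℝ) ≤ ε * ((box K s (D * m) H).card : ℝ)

/-- [SP1].  Port of NRM/SIGPOSN.lean with `SGP` (`ε = 1/4`). -/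
def St_SP1 : Prop :=
  ∀ (K : Type) [Field K] [NumberField K] (s r D m : ℕ), NHyp1 s D m → ∀ (g : Mon r D → 𝓞 K)
    (e : Fin r → 𝓞 K), ev g e ≠ 0 → SGP K s (D * m) g →
    ∃ σ₀ : ℝ, 0 < σ₀ ∧ ∃ m2 : ℕ, ∀ δ : ℝ, 0 < δ → ∃ c' : ℝ, 0 < c' ∧ ∀ m0 ≥ m2, ∃ H0 : ℕ,
      ∀ H ≥ H0, c' * ((box K s (D * m) H).card : ℝ) ≤ (((box K s (D * m) H).filter fun f =>
        (∀ μ j, |(co (f μ) j : ℝ) / H - w00N g e s (D * m) μ j| ≤ δ) ∧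
          σ₀ ≤ sigN 1 (cred (Ideal.span {(WW m0 : 𝓞 K)}) g)
            (cred (Ideal.span {(WW m0 : 𝓞 K)}) f)).card : ℝ)

/-- [DT1].  NRM DETN (with NLOWN inside) for `NHyp1`. -/
def St_DT1 : Prop :=
  ∀ (K : Type) [Field K] [NumberField K] (s r D m : ℕ), NHyp1 s D m → ∀ g : Mon r D → 𝓞 K, g ≠ 0 →
    ∀ A B dl c v : ℕ, 1 ≤ dl → dl * (B + 1) ≤ A → 1 ≤ c → 1 ≤ v → ∀ (q : ℕ), 0 < q →
    ∀ δ ε σ₀ : ℝ, 0 < δ → 0 < ε → ε ≤ 1 / 16 → 0 < σ₀ → ∃ γ : ℝ, 0 < γ ∧ ∃ m2 : ℕ, ∀ m0 ≥ m2,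
    ∀ κ : ℕ, 0 < κ → ∃ t0 : ℕ, ∀ t ≥ t0, ∀ V H : ℕ, CR D v t V H →
    ∀ (ρ₀ : Fin s → 𝓞 K) (ω₀ : Fin r → 𝓞 K) (f : Mon s (D * m) → 𝓞 K), f ∈ box K s (D * m) H →
      σ₀ ≤ wsigN (dl ^ D) q (cred (Ideal.span {(WW m0 : 𝓞 K)}) g)
        (cmk (Ideal.span {(WW m0 : 𝓞 K)}) ρ₀) (cmk (Ideal.span {(WW m0 : 𝓞 K)}) ω₀)
        (cred (Ideal.span {(WW m0 : 𝓞 K)}) f) →
      ∀ z₀ : (v : InfinitePlace K) → Fin r ⊕ Fin s → v.Completion,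
      (∀ v, ‖xz (z₀ v)‖ = 3 / 4) → (∀ v j, ‖wz (z₀ v) j‖ ≤ B) →
      (∀ v : InfinitePlace K, NZN (cemb (uk v D V) f) (gL v.Completion g) (z₀ v) δ ε) →
      γ * EN (dg K) s D m r c t V H ≤
        NAL (BG g (dl ^ D) (A * QN s m c t V)) (aG g (dl ^ D))
          (CellN q ρ₀ ω₀ z₀ (2 * ε) (XC s c t) (dl * QN s m c t V)) c t H κ (WW m0 / dl ^ D) f

/-- [LL1], from SL1, BADC, UIFTN, PLW, DT1.  Port of NRM/LLSN.lean with `η/2` in UIFTN and DETN, so that the cell in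
the conclusion is `2 η` (instead of `3 η`): `InfZN` gives a point within `η` of `y₀`, DT1 with `ε = η/2` the cell `η`
around it. -/
def St_LL1 : Prop :=
  ∀ (K : Type) [Field K] [NumberField K] (s r D m : ℕ), NHyp1 s D m → ∀ g : Mon r D → 𝓞 K, g ≠ 0 →
    SGP K s (D * m) g →
    ∀ ε : ℝ, 0 < ε → ∃ p00 : ℕ, ∀ p0 ≥ p00, ∀ A B dl c v q : ℕ, 1 ≤ dl → dl * (B + 1) ≤ A →
    1 ≤ c → 1 ≤ v → 0 < q → (∀ p : ℕ, p.Prime → p ∣ dl → p ≤ p0) →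
    (∀ p : ℕ, p.Prime → p ∣ q → p ≤ p0) → ∀ η : ℝ, 0 < η → η ≤ 1 / 16 →
    ∃ γ : ℝ, 0 < γ ∧ ∃ m2 : ℕ, ∀ m0 ≥ m2, ∀ κ : ℕ,
      0 < κ → ∃ t0 : ℕ, ∀ t ≥ t0, ∀ V H : ℕ, CR D v t V H →
      (((box K s (D * m) H).filter fun f => ∃ (ρ₀ : Fin s → 𝓞 K) (ω₀ : Fin r → 𝓞 K)
        (y₀ : (v : InfinitePlace K) → Fin r ⊕ Fin s → v.Completion),
        (∀ v : InfinitePlace K, InfZN v V B g (y₀ v) η f) ∧
        (∀ v, LowP p0 v → LocZN v (dl ^ D) q g ρ₀ ω₀ f) ∧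
        NAL (BG g (dl ^ D) (A * QN s m c t V)) (aG g (dl ^ D))
          (CellN q ρ₀ ω₀ y₀ (2 * η) (XC s c t) (dl * QN s m c t V)) c t H κ (WW m0 / dl ^ D) f <
          γ * EN (dg K) s D m r c t V H).card : ℝ) ≤ ε * ((box K s (D * m) H).card : ℝ)

/-- [TP1].  NRM TOPN (with FPL, IPL inside) for `NHyp1`. -/
def St_TP1 : Prop :=
  ∀ (K : Type) [Field K] [NumberField K] (s r D m : ℕ), NHyp1 s D m → ∀ g : Mon r D → 𝓞 K,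
    FinN s m g → ∀ (S : Finset (HeightOneSpectrum (𝓞 K))) (η : ℝ), 0 < η → ∀ ε : ℝ, 0 < ε →
      ∃ H0 : ℕ, ∀ H ≥ H0, (((box K s (D * m) H).filter fun f =>
        ELSN g f ∧ ¬ DenseN m S η g f).card : ℝ) ≤ ε * ((box K s (D * m) H).card : ℝ)

/-- [HP1].  NRM HPN for `NHyp1`. -/
def St_HP1 : Prop :=
  ∀ (K : Type) [Field K] [NumberField K] (s r D m : ℕ), NHyp1 s D m → ∀ g : Mon r D → 𝓞 K,
    ∃ η : ℝ, 0 < η ∧ ∀ f : Mon s (D * m) → 𝓞 K, ELSN g f → DenseN m ∅ η g f →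
      ∃ (x : Fin s → K) (w : Fin r → K), IsPtN g f x w

/-- [LP1].  NRM LPN for `NHyp1`, with `SGP`. -/
def St_LP1 : Prop :=
  ∀ (K : Type) [Field K] [NumberField K] (s r D m : ℕ), NHyp1 s D m → ∀ g : Mon r D → 𝓞 K, g ≠ 0 →
    SGP K s (D * m) g →
    ∀ c v : ℕ, 1 ≤ c → 1 ≤ v → ∃ A : ℕ, 1 ≤ A ∧ ∃ γ : ℝ, 0 < γ ∧ ∃ γ' : ℝ, 0 < γ' ∧ ∃ m2 : ℕ,
    ∀ m0 ≥ m2, ∀ κ : ℕ, 0 < κ → ∃ t0 : ℕ, ∀ t ≥ t0, ∀ V H : ℕ, CR D v t V H →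
      γ' * ((box K s (D * m) H).card : ℝ) ≤ (((box K s (D * m) H).filter fun f =>
          γ * EN (dg K) s D m r c t V H ≤
            NAL (BG g 1 (A * QN s m c t V)) (aG g 1) Set.univ c t H κ (WW m0) f).card : ℝ)

/-! ### Cubes -/

/-- there are parameters for which the second moment is known and the values of `g` on cubes satisfy FAMR -/
def ParN1 {K : Type} [Field K] [NumberField K] {D : ℕ} (m : ℕ) (g : Mon D D → 𝓞 K) : Prop :=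
  ∃ c v : ℕ, 1 ≤ c ∧ 1 ≤ v ∧ SMN1 K D m D c v ∧ ∀ A b k : ℕ, 1 ≤ A → 1 ≤ b → 1 ≤ k → b ∣ k →
    ∃ C0 : ℝ, 1 ≤ C0 ∧ ∀ t : ℕ, 1 ≤ t → ∀ V H : ℕ, CR D v t V H → ∀ ω ∈ db K D k,
      (b : 𝓞 K) ∣ ev g ω → ∀ (e : Fin D → IX K → ℤ) (L : ℕ),
      (∀ j i, |e j i| ≤ A * QN 2 m c t V) → L ≤ A * QN 2 m c t V →
      FAMR D m c t V H (BK g k ω e L) (aK g b k ω) C0

/-- [CUB] decomposition of the local model into residue classes and cubes.  PROOF.  Let `A' ≥ 1`, `n₁` be such that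
`(CMP)` every `w ∈ bx K r (A Q)` is `ω + k w̃` with `ω ∈ db K r k` (the class of `w` modulo `k`) and
`|co (w̃ j) i| ≤ A' Q`, and put `L = ⌊λ Q⌋ ≥ 1` (`Q ≥ 1/λ`), `n₁ ≥ 2 A'/λ + 1`: `w̃` is in exactly one of the cubes with the
corners `e = L n`, `|n j i| ≤ n₁` (so `|e| ≤ L n₁ ≤ A'' Q`).  For `w ∈ BG g b (A Q)` with `(x, w) ∈ P` this gives a triple
`(ω, n, w̃)` with `b ∣ g(ω)` (as `b ∣ k`), `w̃ ∈ BK g k ω (L n) L`, `aK g b k ω w̃ = aG g b w`; the map is injective, so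
the sum over `w` is at most the sum over the pairs `(ω, n)` such that `(x, ω + k w̃) ∈ P` for some `x` and some `w̃`
of the cube, of the sums over `w̃` (all terms are nonnegative), with the condition `x ∈ P'`.  Finally two points
`w = ω + k w̃`, `w' = ω + k w̃'` of the same class and cube satisfy `av v (w j - w' j) ≤ C k L ≤ C k λ Q` (CMP). -/
def St_CUB : Prop :=
  ∀ (K : Type) [Field K] [NumberField K] (r D m : ℕ), 1 ≤ D → ∀ g : Mon r D → 𝓞 K,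
    ∀ A b k : ℕ, 1 ≤ A → 1 ≤ b → 1 ≤ k → b ∣ k → ∀ ζ : ℝ, 0 < ζ → ∃ A' n₁ : ℕ, 1 ≤ A' ∧ ∃ Q0 : ℕ,
    ∀ c t V : ℕ, Q0 ≤ QN 2 m c t V → ∃ L : ℕ, L ≤ A' * QN 2 m c t V ∧
      L * n₁ ≤ A' * QN 2 m c t V ∧
      (∀ ω ∈ db K r k, ∀ e : Fin r → IX K → ℤ, ∀ w ∈ BK g k ω e L, ∀ w' ∈ BK g k ω e L,
        ∀ (v : InfinitePlace K) (j : Fin r),
        av v ((ω j + k * w j) - (ω j + k * w' j)) ≤ ζ * QN 2 m c t V) ∧
      ∀ (P : Set ((Fin 2 → 𝓞 K) × (Fin r → 𝓞 K))) (P' : Set (Fin 2 → 𝓞 K)),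
      (∀ p ∈ P, p.1 ∈ P') → ∀ (H κ W : ℕ) (f : Mon 2 (D * m) → 𝓞 K),
      NAL (BG g b (A * QN 2 m c t V)) (aG g b) P c t H κ W f ≤
        ∑ ω ∈ (db K r k).filter (fun ω => (b : 𝓞 K) ∣ ev g ω),
        ∑ n ∈ Fintype.piFinset (fun _ : Fin r => Fintype.piFinset fun _ : IX K =>
          Finset.Icc (-(n₁ : ℤ)) n₁),
          if ∃ w ∈ BK g k ω (fun j i => L * n j i) L, ∃ x, (x, fun j => ω j + k * w j) ∈ P then
            NAL (BK g k ω (fun j i => L * n j i) L) (aK g b k ω) {p | p.1 ∈ P'} c t H κ W f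
          else 0

/-- [FN1], from LL1, CUB.  PROOF.  As NRM/FINN.lean.  Given `ε`: `p00` of LL1 for `ε/2`.  Given
`p0, B, dl, q, η, T`: `A = dl (B + 1)`, `b = dl^D`, `k = b q`, `c, v` of ParN1, `γ, m2` of LL1, `ζ = η dl`, `A', n₁, Q0` of
CUB, `C0` of ParN1 for `A', b, k`, the number of the pairs `(ω, n)` is at most `n₀ = k^(D rho) (2 n₁ + 1)^(D rho)`; `κ, m1` of
SMN1 for `C0` and `ε' = ε (γ/n₀)^2/(2 n₀ (#T + 1))`, `m0 = max m2 (m1 b)`, `W = WW m0 / b`.  For `τ ∈ T`: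
`P = CellN q τ.1 τ.2.1 τ.2.2 (2 η) X (dl Q)`, `P' = {x : x = τ.1 mod q, near part for x}`.  For `f` outside of the
exceptional set of LL1 and `τ` with InfZN, LocZN: `NAL (P) ≥ γ EN`, so by CUB some term of the sum is `≥ γ EN/n₀`; for
this `(ω, n)` (the cube has a point `w` with `(x, w) ∈ P`) all points `w' = ω + k w̃'` of the cube are congruent to `w`
modulo `q` (`q ∣ k`) and within `ζ Q = η dl Q` of `w`, so `(x', w') ∈ CellN .. (3 η)` for `x' ∈ P'` in the box of `x`-points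
(the near part of `P'` is `2 η ≤ 3 η`).  If the corresponding `NA` is zero then `(NA - NAL)^2 ≥ (γ EN/n₀)^2`: at most
`ε'/(γ/n₀)^2 #box` such `f` for every `(τ, ω, n)`.  If `NA > 0`: `x ∈ CG`, `w̃ ∈ BK` with `f(x) = aK w̃`:
`b f(x) = g(ω + k w̃)` (`aG_mul`, `b ∣ g(ω + k w̃)`). -/
def St_FN1 : Prop :=
  ∀ (K : Type) [Field K] [NumberField K] (D m : ℕ), 2 ≤ D → 1 ≤ m → ∀ g : Mon D D → 𝓞 K, g ≠ 0 →
    SGP K 2 (D * m) g → ParN1 m g → FinN 2 m g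

/-- [PO1], from LP1, CUB.  PROOF.  As NRM/POSN.lean (`b = k = 1`, `P = P' = univ`): for the `f` of LP1 some cube has
`NAL ≥ γ EN/n₀`, `n₀ = (2 n₁ + 1)^(D rho)`; SMN1 with `ε = (γ/n₀)^2 γ'/(2 n₀)`. -/
def St_PO1 : Prop :=
  ∀ (K : Type) [Field K] [NumberField K] (D m : ℕ), 2 ≤ D → 1 ≤ m → ∀ g : Mon D D → 𝓞 K, g ≠ 0 →
    SGP K 2 (D * m) g → ParN1 m g → ∃ γ : ℝ, 0 < γ ∧ ∃ H0 : ℕ, ∀ H ≥ H0,
      γ * ((box K 2 (D * m) H).card : ℝ) ≤ (((box K 2 (D * m) H).filter fun f =>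
        ∃ (x : Fin 2 → K) (w : Fin D → K), IsPtN g f x w).card : ℝ)

end Pool.Agent.NRN
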