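import Pool.Agent.RHM.BlockA
import Pool.Agent.NRM.DIV
import Pool.Agent.NRM.UNB
import Pool.Agent.NRM.RPB
import Pool.Agent.NRN.StF

/-!
NRN, module DGA: the diagonal bound for decomposable forms, as many variables as the degree (helper87).
-/

set_option autoImplicit false

namespace Pool.Agent.NRN

open scoped BigOperators
open Classical NumberField IsDedekindDomain
open Pool.Agent.RHP (Mon mono ev Sys Prim pd WB WW)
open Pool.Agent.RHK Pool.Agent.RHC Pool.Agent.NRM

private theorem DGA_card {α : Type} (A : Finset α) (G : α → α → Prop) (P : α → Prop) (C : ℝ)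
    (hC : 0 ≤ C) (h : ∀ a ∈ A, P a → ((A.filter fun b => G a b).card : ℝ) ≤ C) :
    (((A ×ˢ A).filter fun p => G p.1 p.2 ∧ P p.1).card : ℝ) ≤ A.card * C := by
  rw [Finset.card_filter, Finset.sum_product]
  push_cast
  calc ∑ a ∈ A, ∑ b ∈ A, (if G a b ∧ P a then (1 : ℝ) else 0) ≤ ∑ _a ∈ A, C := by
        refine Finset.sum_le_sum fun a ha => ?_
        by_cases hP : P a
        · have h1 := h a ha hP
          rw [Finset.card_filter] at h1
          push_cast at h1
          refine le_trans (le_of_eq ?_) h1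
          refine Finset.sum_congr rfl fun b _ => ?_
          simp [hP]
        · refine le_trans (le_of_eq (Finset.sum_eq_zero fun b _ => ?_)) hC
          simp [hP]
    _ = A.card * C := by rw [Finset.sum_const, nsmul_eq_mul]

theorem thm_DGA : St_DGA := by
  intro K _ _ D hD g hdec kap hkap
  have hRPB : St_RPB := thm_RPB thm_DIV thm_UNB
  have hdg : 1 ≤ dg K := dg_pos
  have hdgr : (0 : ℝ) < dg K := by exact_mod_cast hdg
  obtain ⟨C₁, hC₁, H₁⟩ := hRPB K D D g (by omega) hdec (kap * dg K) (mul_pos hkap hdgr)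
  obtain ⟨C₂, hC₂, H₂⟩ := Pool.Agent.RHM.block_PBC K D
  refine ⟨C₂ * C₁, mul_pos hC₂ hC₁, fun U hU => ?_⟩
  have hUr : (1 : ℝ) ≤ U := by exact_mod_cast hU
  have hU0 : (0 : ℝ) ≤ U := by linarith
  have hcard := DGA_card (bx K D (U : ℝ)) (fun a b => ev g a = ev g b) (fun a => ev g a ≠ 0)
    (C₁ * (U : ℝ) ^ (kap * dg K)) (by positivity) (fun a _ ha => by
      have h3 := H₁ U (ev g a) hU ha
      refine le_trans (le_of_eq ?_) h3
      congr 2
      refine Finset.filter_congr fun b _ => ?_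
      exact eq_comm)
  rw [Real.rpow_mul_natCast hU0] at hcard
  have h3 : (((bx K D (U : ℝ) ×ˢ bx K D (U : ℝ)).filter fun p =>
      ev g p.1 = ev g p.2 ∧ ev g p.1 ≠ 0).card : ℝ) ≤
      C₂ * ((U : ℝ) ^ D) ^ dg K * (C₁ * ((U : ℝ) ^ kap) ^ dg K) := by
    refine le_trans (le_of_eq ?_)
      (hcard.trans (mul_le_mul_of_nonneg_right (H₂ U hU) (by positivity)))
    congr 2
    ext p
    simp only [Finset.mem_filter]
  calc (((bx K D (U : ℝ) ×ˢ bx K D (U : ℝ)).filter fun p =>
        ev g p.1 = ev g p.2 ∧ ev g p.1 ≠ 0).card : ℝ) * ((U : ℝ) ^ D) ^ dg K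
      ≤ C₂ * ((U : ℝ) ^ D) ^ dg K * (C₁ * ((U : ℝ) ^ kap) ^ dg K) * ((U : ℝ) ^ D) ^ dg K :=
        mul_le_mul_of_nonneg_right h3 (by positivity)
    _ = C₂ * C₁ * ((U : ℝ) ^ (2 * D)) ^ dg K * ((U : ℝ) ^ kap) ^ dg K := by
        rw [two_mul, pow_add, mul_pow]
        ring

end Pool.Agent.NRN
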