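import Pool.Agent.NRN.StS
import Pool.Agent.RHC.DLT

/-!
NRN [DLX] (helper95): the exact form of DLT.
-/

set_option autoImplicit false

namespace Pool.Agent.NRN

open scoped BigOperators
open Classical NumberField IsDedekindDomain
open Pool.Agent.RHP (Mon mono ev Sys Prim)
open Pool.Agent.RHK Pool.Agent.RHC

theorem thm_DLX : St_DLX := by
  intro K _ _ s d H Θ W x y a b hW
  obtain ⟨-, hsec, -⟩ := thm_DLT K s d H Θ W x y a b hW
  have hm1 : ∑ f ∈ box K s d (2 * H), Ph H f * (dlt a x f * lmt Θ W b y f) =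
      1 / ((TS K Θ W).card : ℝ) * ∑ v ∈ TS K Θ W, cP d H x y a (b + v) := by
    have h1 : ∀ f : Mon s d → 𝓞 K, Ph H f * (dlt a x f * lmt Θ W b y f) =
        1 / ((TS K Θ W).card : ℝ) * ∑ v ∈ TS K Θ W, Ph H f * (dlt a x f * dlt (b + v) y f) := by
      intro f
      rw [DLT_lmt]
      simp only [Finset.mul_sum]
      refine Finset.sum_congr rfl fun v _ => ?_
      ring
    simp only [h1]
    rw [← Finset.mul_sum, Finset.sum_comm]
    congr 1
    exact Finset.sum_congr rfl fun v _ => DLT_one d H x y _ _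
  have hm2 : ∑ f ∈ box K s d (2 * H), Ph H f * (lmt Θ W a x f * dlt b y f) =
      1 / ((TS K Θ W).card : ℝ) * ∑ u ∈ TS K Θ W, cP d H x y (a + u) b := by
    have h1 : ∀ f : Mon s d → 𝓞 K, Ph H f * (lmt Θ W a x f * dlt b y f) =
        1 / ((TS K Θ W).card : ℝ) * ∑ u ∈ TS K Θ W, Ph H f * (dlt (a + u) x f * dlt b y f) := by
      intro f
      rw [DLT_lmt]
      simp only [Finset.mul_sum, Finset.sum_mul]
      refine Finset.sum_congr rfl fun v _ => ?_
      ring
    simp only [h1]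
    rw [← Finset.mul_sum, Finset.sum_comm]
    congr 1
    exact Finset.sum_congr rfl fun v _ => DLT_one d H x y _ _
  have hsplit : ∑ f ∈ box K s d (2 * H),
      Ph H f * ((dlt a x f - lmt Θ W a x f) * (dlt b y f - lmt Θ W b y f)) =
      ∑ f ∈ box K s d (2 * H), Ph H f * (dlt a x f * dlt b y f) -
      ∑ f ∈ box K s d (2 * H), Ph H f * (dlt a x f * lmt Θ W b y f) -
      ∑ f ∈ box K s d (2 * H), Ph H f * (lmt Θ W a x f * dlt b y f) +
      ∑ f ∈ box K s d (2 * H), Ph H f * (lmt Θ W a x f * lmt Θ W b y f) := by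
    rw [← Finset.sum_sub_distrib, ← Finset.sum_sub_distrib, ← Finset.sum_add_distrib]
    refine Finset.sum_congr rfl fun f _ => ?_
    ring
  rw [hsplit, DLT_one, hm1, hm2, hsec]
  unfold alt
  ring

end Pool.Agent.NRN
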