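import Pool.Agent.NRN.StS

/-!
NRN, block S, [DTB]: basic facts for two variables (helper84).
-/

set_option autoImplicit false

namespace Pool.Agent.NRN

open scoped BigOperators
open Classical NumberField IsDedekindDomain
open Pool.Agent.RHK Pool.Agent.RHC Pool.Agent.NRM

theorem DTB_mn {A : Type} [CommRing A] (x y : Fin 2 → A) (p : Fin 2 × Fin 2) :
    mn x y p = 0 ∨ mn x y p = mn x y (0, 1) ∨ mn x y p = -mn x y (0, 1) := by
  obtain ⟨i, j⟩ := p
  fin_cases i <;> fin_cases j
  · left
    show x 0 * y 0 - x 0 * y 0 = 0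
    ring
  · right; left
    rfl
  · right; right
    show x 1 * y 0 - x 0 * y 1 = -(x 0 * y 1 - x 1 * y 0)
    ring
  · left
    show x 1 * y 1 - x 1 * y 1 = 0
    ring

/-- [DTB] -/
theorem thm_DTB : St_DTB := by
  intro K _ _ x y
  have h1 : gI x y = Ideal.span {mn x y (0, 1)} := by
    unfold gI
    refine le_antisymm (Ideal.span_le.2 ?_) (Ideal.span_le.2 ?_)
    · rintro _ ⟨p, rfl⟩
      have h0 : mn x y (0, 1) ∈ Ideal.span {mn x y (0, 1)} := Ideal.mem_span_singleton_self _
      rcases DTB_mn x y p with h | h | h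
      · rw [h]; exact zero_mem _
      · rw [h]; exact h0
      · rw [h]; exact neg_mem h0
    · intro z hz
      rw [Set.mem_singleton_iff] at hz
      rw [hz]
      exact Ideal.subset_span ⟨(0, 1), rfl⟩
  have h2 : ∀ v : InfinitePlace K, wv v x y = av v (mn x y (0, 1)) := by
    intro v
    have hnn : 0 ≤ av v (mn x y (0, 1)) := by
      unfold av
      exact v.1.nonneg _
    unfold wv
    refine le_antisymm ((pi_norm_le_iff_of_nonneg hnn).2 fun p => ?_) ?_
    · have hn : 0 ≤ av v (mn x y p) := by
        unfold av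
        exact v.1.nonneg _
      rw [Real.norm_of_nonneg hn]
      rcases DTB_mn x y p with h | h | h
      · rw [h]
        have h0 : av v (0 : 𝓞 K) = 0 := by
          have e : ((0 : 𝓞 K) : K) = 0 := map_zero (algebraMap (𝓞 K) K)
          unfold av
          rw [e]
          exact map_zero v
        rw [h0]
        exact hnn
      · rw [h]
      · rw [h]
        refine le_of_eq ?_
        have e : ((-mn x y (0, 1) : 𝓞 K) : K) = -((mn x y (0, 1) : 𝓞 K) : K) :=
          map_neg (algebraMap (𝓞 K) K) _
        unfold av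
        rw [e]
        exact v.1.map_neg _
    · have h := norm_le_pi_norm (fun p : Fin 2 × Fin 2 => av v (mn x y p)) (0, 1)
      rw [Real.norm_of_nonneg hnn] at h
      exact h
  have h3 : Par x y ↔ mn x y (0, 1) = 0 := by
    constructor
    · intro h
      exact h (0, 1)
    · intro h p
      rcases DTB_mn x y p with h' | h' | h'
      · exact h'
      · rw [h', h]
      · rw [h', h, neg_zero]
  have h4 : (wn x y : ℝ) = wp x y := by
    have e1 : wp x y = ∏ v : InfinitePlace K, v ((mn x y (0, 1) : 𝓞 K) : K) ^ v.mult := by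
      unfold wp
      refine Finset.prod_congr rfl fun v _ => ?_
      rw [h2]
      rfl
    rw [e1, InfinitePlace.prod_eq_abs_norm]
    unfold wn
    rw [h1, Ideal.absNorm_span_singleton]
    rw [← Algebra.coe_norm_int]
    simp
  refine ⟨h1, h2, h3, h4, fun h => ?_⟩
  rw [← h4]
  have h5 : wn x y ≠ 0 := by
    unfold wn
    rw [h1, Ne, Ideal.absNorm_eq_zero_iff, Ideal.span_singleton_eq_bot]
    exact fun h' => h (h3.2 h')
  exact_mod_cast Nat.one_le_iff_ne_zero.2 h5

end Pool.Agent.NRN
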