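import Pool.Agent.NRM.StA
import Pool.Agent.NRM.StB

/-!
NRN (NORM, n = 1): the Hasse principle and weak approximation for 100 percent of the equations
`g(w) = f(x_0, x_1)`, `g` a fixed decomposable form of degree `D` in `D` variables (norm forms, of field
extensions or etale algebras), `f` a random binary form of degree `D m`, over a number field `K`.
Definitions (helper95).  Everything continues Pool/Agent/NRM (there at least three variables `x`).

Idea: for `s = 2` two nonparallel primitive points `x`, `y` impose conditions modulo the LARGE ideal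
`gI x y = (x_0 y_1 - x_1 y_0)`, so the cancellation between the count and its local model happens only after
summation over `w`, `w'`.  `V` is a large power of `X`, so `w` can be shifted by all residues modulo `gI`.
-/

set_option autoImplicit false

namespace Pool.Agent.NRN

open scoped BigOperators
open Classical NumberField IsDedekindDomain
open Pool.Agent.RHP (Mon mono ev Sys Prim pd WB WW)
open Pool.Agent.RHK Pool.Agent.RHC Pool.Agent.NRM
open Pool.Agent.RHKB (mI hh jj qv MK uu BadK)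
open Pool.Agent.RHCB (BadC cred cemb uk PrC hM f00)

/-- the hypotheses on the type: at least two variables `x`, degree `D` of `g` at least two, weight `m` at
least one -/
structure NHyp1 (s D m : ℕ) : Prop where
  hs : 2 ≤ s
  hD : 2 ≤ D
  hm : 1 ≤ m

/-! ### Residues -/

section dist

variable {K : Type} [Field K] [NumberField K] {r : ℕ}

/-- congruence preserving maps -/
def CP (a : (Fin r → 𝓞 K) → 𝓞 K) : Prop :=
  ∀ (I : Ideal (𝓞 K)) (w w' : Fin r → 𝓞 K), (∀ j, w j - w' j ∈ I) → a w - a w' ∈ I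

/-- representatives of a residue vector -/
noncomputable def lf {I : Ideal (𝓞 K)} (ω : Fin r → 𝓞 K ⧸ I) : Fin r → 𝓞 K :=
  fun j => Function.surjInv (Ideal.Quotient.mk_surjective (I := I)) (ω j)

omit [NumberField K] in
theorem mk_lf {I : Ideal (𝓞 K)} (ω : Fin r → 𝓞 K ⧸ I) (j : Fin r) :
    Ideal.Quotient.mk I (lf ω j) = ω j := Function.surjInv_eq _ _

/-- the probability that `a(ω) = c` modulo `I` -/
noncomputable def PQ (a : (Fin r → 𝓞 K) → 𝓞 K) (I : Ideal (𝓞 K)) (c : 𝓞 K ⧸ I) : ℝ :=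
  (Nat.card {ω : Fin r → 𝓞 K ⧸ I // Ideal.Quotient.mk I (a (lf ω)) = c} : ℝ) /
    (Ideal.absNorm I : ℝ) ^ r

/-- `G(I) = N(I) ∑_c P(a = c mod I)^2`, written as a number of pairs -/
noncomputable def GI (a : (Fin r → 𝓞 K) → 𝓞 K) (I : Ideal (𝓞 K)) : ℝ :=
  (Nat.card {p : (Fin r → 𝓞 K ⧸ I) × (Fin r → 𝓞 K ⧸ I) //
    Ideal.Quotient.mk I (a (lf p.1)) = Ideal.Quotient.mk I (a (lf p.2))} : ℝ) *
    (Ideal.absNorm I : ℝ) / (Ideal.absNorm I : ℝ) ^ (2 * r)

/-- the local properties of the map `a`: congruence preserving, a weak bound for all ideals, and a strong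
bound at the prime ideals -/
structure LOC (D : ℕ) (a : (Fin r → 𝓞 K) → 𝓞 K) (C : ℝ) : Prop where
  cp : CP a
  weak : ∀ I : Ideal (𝓞 K), I ≠ ⊥ → GI a I ≤ C * (Ideal.absNorm I * rp (Ideal.absNorm I) (MM D))
  str : ∀ (v : HeightOneSpectrum (𝓞 K)) (J : ℕ),
    ∑ j ∈ Finset.Icc 1 J, (GI a (v.asIdeal ^ j) - GI a (v.asIdeal ^ (j - 1))) / (qv v : ℝ) ^ j ≤
      C / (qv v : ℝ) ^ 2

variable (K r) in
/-- the vectors with coordinates in `[0, M)` -/
noncomputable def db (M : ℕ) : Finset (Fin r → 𝓞 K) :=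
  Fintype.piFinset fun _ => (cb K M).filter fun a => ∀ i, 0 ≤ co a i ∧ co a i < M

/-- the alternating sum over shifts by elements of `T` -/
noncomputable def alt (T : Finset (𝓞 K)) (F : 𝓞 K → 𝓞 K → ℝ) (α β : 𝓞 K) : ℝ :=
  F α β - 1 / (T.card : ℝ) * ∑ v ∈ T, F α (β + v) - 1 / (T.card : ℝ) * ∑ u ∈ T, F (α + u) β +
    1 / (T.card : ℝ) ^ 2 * ∑ p ∈ T ×ˢ T, F (α + p.1) (β + p.2)

/-- the weight of the multiples of `W` modulo `J` -/
noncomputable def UV (J : Ideal (𝓞 K)) (W : ℕ) (c : 𝓞 K ⧸ J) : ℝ :=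
  if c ∈ Ideal.map (Ideal.Quotient.mk J) (Ideal.span {(W : 𝓞 K)}) then
    (Ideal.absNorm (J ⊔ Ideal.span {(W : 𝓞 K)}) : ℝ) / (Ideal.absNorm J : ℝ) else 0

end dist

/-! ### The families -/

section fam

variable {K : Type} [Field K] [NumberField K] {r : ℕ}

/-- the properties of the family `a : (𝓞 K)^r → 𝓞 K`, `B ⊆ (𝓞 K)^r` used by the second moment
(`Q = QN 2 m c t V`, `X = XC 2 c t`, `NN = (Q^r)^rho`) -/
structure FAMR (D m c t V H : ℕ) (B : Finset (Fin r → 𝓞 K)) (a : (Fin r → 𝓞 K) → 𝓞 K) (C : ℝ) :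
    Prop where
  loc : LOC D a C
  card : (B.card : ℝ) ≤ C * ((QN 2 m c t V : ℝ) ^ r) ^ dg K
  diag : (((B ×ˢ B).filter fun p => a p.1 = a p.2).card : ℝ) * t *
      ((H : ℝ) * (XC 2 c t : ℝ) ^ (D * m)) ^ dg K ≤
    C * ((XC 2 c t : ℝ) ^ 2) ^ dg K * (((QN 2 m c t V : ℝ) ^ r) ^ dg K) ^ 2
  shift : ∀ M : ℕ, 1 ≤ M → ∀ δ ∈ db K r M,
    ((B.filter fun w => (fun j => w j + δ j) ∉ B).card : ℝ) * QN 2 m c t V ≤
      C * M * ((QN 2 m c t V : ℝ) ^ r) ^ dg K ∧
    ((B.filter fun w => (fun j => w j - δ j) ∉ B).card : ℝ) * QN 2 m c t V ≤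
      C * M * ((QN 2 m c t V : ℝ) ^ r) ^ dg K
  lip : ∀ M : ℕ, 1 ≤ M → M ≤ QN 2 m c t V → ∀ w ∈ B, ∀ δ ∈ db K r M, ∀ v : InfinitePlace K,
    av v (a (fun j => w j + δ j) - a w) * QN 2 m c t V ≤ C * M * (H * (XC 2 c t : ℝ) ^ (D * m))
  arc : ∀ θ : InfinitePlace K → ℝ, (∀ v, 0 < θ v) → 1 ≤ PT θ * (QN 2 m c t V : ℝ) ^ dg K →
    ∀ z : InfinitePlace K → ℂ,
    ((B.filter fun w => ∀ v : InfinitePlace K,
      ‖v.embedding (a w : K) - z v‖ ≤ θ v * (H * (XC 2 c t : ℝ) ^ (D * m))).card : ℝ) ≤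
      C * ((QN 2 m c t V : ℝ) ^ r) ^ dg K * PT θ ^ ((1 : ℝ) / D)

/-- OUTPUT of block A: the second moment for all families and all sets `P1` of points `x`. -/
def SMN1 (K : Type) [Field K] [NumberField K] (D m r c v : ℕ) : Prop :=
  ∀ C0 ε : ℝ, 1 ≤ C0 → 0 < ε → ∃ κ m0 : ℕ, 0 < κ ∧ ∀ W : ℕ, 0 < W →
    (∀ g, 1 ≤ g → g ≤ m0 → g ∣ W) → ∃ t0 : ℕ, ∀ t ≥ t0, ∀ V H : ℕ, CR D v t V H →
      ∀ (B : Finset (Fin r → 𝓞 K)) (a : (Fin r → 𝓞 K) → 𝓞 K), FAMR D m c t V H B a C0 →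
      ∀ P : Set (Fin 2 → 𝓞 K),
      ∑ f ∈ box K 2 (D * m) H,
        (NA B a {p | p.1 ∈ P} c t f - NAL B a {p | p.1 ∈ P} c t H κ W f) ^ 2
        ≤ ε * EN (dg K) 2 D m r c t V H ^ 2 * ((box K 2 (D * m) H).card : ℝ)

/-! ### The families of the values of `g` -/

variable {D : ℕ}

/-- `w ↦ g(ω + k w) / b` -/
noncomputable def aK (g : Mon r D → 𝓞 K) (b k : ℕ) (ω w : Fin r → 𝓞 K) : 𝓞 K :=
  aG g b fun j => ω j + k * w j

/-- the `w` in the cube with the corner `e` and the side `L` with `g(ω + k w) ≠ 0` -/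
noncomputable def BK (g : Mon r D → 𝓞 K) (k : ℕ) (ω : Fin r → 𝓞 K) (e : Fin r → IX K → ℤ) (L : ℕ) :
    Finset (Fin r → 𝓞 K) :=
  (Fintype.piFinset fun j => (cb K ((Finset.univ.sup fun i => (e j i).natAbs) + L)).filter fun a =>
    ∀ i, e j i ≤ co a i ∧ co a i < e j i + L).filter fun w => ev g (fun j => ω j + k * w j) ≠ 0

end fam

end Pool.Agent.NRN
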