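import Pool.Agent.NRN.StS
import Pool.Agent.RHK.IDU
import Pool.Agent.RHK.DVN
import Pool.Agent.RHK.CELL

/-!
NRN EQI: equidistribution of the ideals `(x_0 y_1 - x_1 y_0)` (helper14).
-/

set_option autoImplicit false

namespace Pool.Agent.NRN

open scoped BigOperators
open Classical NumberField IsDedekindDomain
open Pool.Agent.RHP (Mon mono ev Sys Prim pd WB WW)
open Pool.Agent.RHK Pool.Agent.RHC Pool.Agent.NRM

theorem thm_EQI (h1 : St_FBR) (h2 : St_DTB) : St_EQI := by
  intro K _ _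
  obtain ⟨C1, hC1, hI⟩ := (RHK.thm_IDU RHK.thm_DVN RHK.thm_CELL) K
  obtain ⟨C2, hF⟩ := h1 K
  refine ⟨C1 * (C2 + 1), by positivity, ?_⟩
  intro X x hX hx hvx T hT I hI0
  have hPT : 0 < PT T := Finset.prod_pos fun v _ => pow_pos (hT v) _
  obtain ⟨S, hS⟩ : ∃ S : Finset (Fin 2 → 𝓞 K), S = (bx K 2 X).filter fun y =>
    ¬ Par x y ∧ (∀ v, wv v x y ≤ T v) ∧ gI x y ≤ I := ⟨_, rfl⟩
  rw [← hS]
  have hmem : ∀ y ∈ S, mn x y (0, 1) ∈ (pT T).filter fun a => a ∈ I := by
    intro y hy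
    rw [hS, Finset.mem_filter] at hy
    obtain ⟨g1, g2, g3, g4, g5⟩ := h2 K x y
    rw [Finset.mem_filter, mem_pT]
    refine ⟨fun v => ?_, hy.2.2.2 ?_⟩
    · rw [← g2 v]
      exact hy.2.2.1 v
    · rw [g1]
      exact Ideal.mem_span_singleton_self _
  rcases S.eq_empty_or_nonempty with h0 | ⟨y, hy⟩
  · rw [h0, Finset.card_empty, Nat.cast_zero, zero_mul]
    positivity
  · have h3 := hmem y hy
    rw [Finset.mem_filter, mem_pT] at h3
    have h4 : mn x y (0, 1) ≠ 0 := by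
      rw [hS, Finset.mem_filter] at hy
      exact fun h => hy.2.1 ((h2 K x y).2.2.1.2 h)
    have h5 : (Ideal.absNorm I : ℝ) ≤ PT T := by
      refine (RHK.thm_DVN K I _ h3.2 h4).2.trans ?_
      refine Finset.prod_le_prod (fun v _ => pow_nonneg (apply_nonneg _ _) _) fun v _ => ?_
      exact pow_le_pow_left₀ (apply_nonneg _ _) (h3.1 v) _
    have h6 := hI I T hT hI0 h5
    have h7 : S.card ≤ C2 * ((pT T).filter fun a => a ∈ I).card := by
      refine Finset.card_le_mul_card_image_of_maps_to hmem _ fun u _ => ?_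
      refine le_trans (Finset.card_le_card ?_) (hF X x hX hx hvx u)
      intro z hz
      rw [Finset.mem_filter] at hz ⊢
      refine ⟨?_, hz.2⟩
      have := hz.1
      rw [hS, Finset.mem_filter] at this
      exact this.1
    have h8 : (S.card : ℝ) ≤ C2 * (((pT T).filter fun a => a ∈ I).card : ℝ) := by
      exact_mod_cast h7
    have h9 : (0 : ℝ) ≤ Ideal.absNorm I := Nat.cast_nonneg _
    calc (S.card : ℝ) * Ideal.absNorm I ≤
        (C2 * (((pT T).filter fun a => a ∈ I).card : ℝ)) * Ideal.absNorm I :=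
          mul_le_mul_of_nonneg_right h8 h9
      _ = C2 * ((((pT T).filter fun a => a ∈ I).card : ℝ) * Ideal.absNorm I) := by ring
      _ ≤ C2 * (C1 * PT T) := mul_le_mul_of_nonneg_left h6 (Nat.cast_nonneg _)
      _ ≤ C1 * (C2 + 1) * PT T := by nlinarith [mul_pos hC1 hPT]

end Pool.Agent.NRN
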