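import Pool.Agent.NRN.StF
import Pool.Agent.NRM.VG

/-!
NRN [FAC]: small values of the families on cubes (helper13).  The argument is that of NRM/VG.lean.
-/

set_option autoImplicit false

namespace Pool.Agent.NRN

open scoped BigOperators
open Classical NumberField IsDedekindDomain
open Pool.Agent.RHP (Mon mono ev Sys Prim pd WB WW)
open Pool.Agent.RHK Pool.Agent.RHC Pool.Agent.NRM
open Pool.Agent.RHKB (mI hh jj qv MK uu BadK)

section

variable {K : Type} [Field K] [NumberField K] {r D : ℕ}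

/-- the points of the cube are in a box of size `C Q` -/
theorem FAC_box {C0 A k Q L : ℕ} (hC : ∀ (a : 𝓞 K) (v : InfinitePlace K), av v a ≤ C0 * cz a)
    (g : Mon r D → 𝓞 K) {ω w : Fin r → 𝓞 K} {e : Fin r → IX K → ℤ} (hw : w ∈ BK g k ω e L)
    (he : ∀ j i, |e j i| ≤ (A : ℤ) * Q) (hL : L ≤ A * Q) (v : InfinitePlace K) (j : Fin r) :
    av v (w j) ≤ C0 * (2 * ((A : ℝ) * Q)) := by
  have h2 : cz (w j) ≤ (Finset.univ.sup fun i => (e j i).natAbs) + L :=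
    mem_cb.1 (Finset.mem_filter.1 (Fintype.mem_piFinset.1 (Finset.mem_filter.1 hw).1 j)).1
  have h3 : (Finset.univ.sup fun i => (e j i).natAbs) ≤ A * Q := by
    refine Finset.sup_le fun i _ => ?_
    have h4 := he j i
    rw [Int.abs_eq_natAbs] at h4
    exact_mod_cast h4
  have h5 : cz (w j) ≤ 2 * (A * Q) := by omega
  exact (hC _ v).trans (mul_le_mul_of_nonneg_left (by exact_mod_cast h5) (Nat.cast_nonneg _))

/-- `PT` of a multiple -/
theorem FAC_PT (θ : InfinitePlace K → ℝ) (T : ℝ) :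
    PT (K := K) (fun v => θ v * T) = PT θ * T ^ dg K := by
  unfold PT
  rw [← prod_pow_mult (K := K) T, ← Finset.prod_mul_distrib]
  exact Finset.prod_congr rfl fun v _ => mul_pow _ _ _

theorem FAC_PT_pos (θ : InfinitePlace K → ℝ) (h : ∀ v, 0 < θ v) : 0 < PT (K := K) θ :=
  Finset.prod_pos fun v _ => pow_pos (h v) _

end

/-- [FAC] -/
theorem thm_FAC (h1 : St_PLB) (h2 : St_RTS) : St_FAC := by
  intro K _ _ r D m hD g hg A b k hA hb hk hbk
  have : Infinite (𝓞 K) := Infinite.of_injective (Nat.cast : ℕ → 𝓞 K) Nat.cast_injective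
  obtain ⟨u, hu⟩ := VG_exists g hg
  obtain ⟨c1, hc1, hpb⟩ := VG_pb K
  obtain ⟨C2, hC2, hbx⟩ :=
    Pool.Agent.RHM.thm_PBC (Pool.Agent.RHK.thm_IDU Pool.Agent.RHK.thm_DVN Pool.Agent.RHK.thm_CELL) K r
  obtain ⟨C0, hC0, hC, -⟩ := thm_CMP K
  obtain ⟨E, hE⟩ : ∃ E : ℕ, ∀ (v : InfinitePlace K) (j : Fin r), av v (u j) ≤ E := by
    refine ⟨⌈∑ v : InfinitePlace K, ∑ j : Fin r, av v (u j)⌉₊, fun v j => ?_⟩
    refine le_trans ?_ (Nat.le_ceil _)
    refine le_trans ?_ (Finset.single_le_sum (f := fun v : InfinitePlace K => ∑ j : Fin r, av v (u j))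
      (fun v _ => Finset.sum_nonneg fun j _ => av_nonneg v (u j)) (Finset.mem_univ v))
    exact Finset.single_le_sum (f := fun j : Fin r => av v (u j))
      (fun j _ => av_nonneg v (u j)) (Finset.mem_univ j)
  -- the leading coefficient
  obtain ⟨k', hk'⟩ := hbk
  have hb0 : (b : 𝓞 K) ≠ 0 := by exact_mod_cast (by omega : b ≠ 0)
  have hk0 : (k : 𝓞 K) ≠ 0 := by exact_mod_cast (by omega : k ≠ 0)
  have hk'0 : (k' : 𝓞 K) ≠ 0 := by
    have : k' ≠ 0 := by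
      rintro rfl
      rw [mul_zero] at hk'
      omega
    exact_mod_cast this
  set alpha : 𝓞 K := k' * (k : 𝓞 K) ^ (D - 1) * ev g u with halpha
  have ha0 : alpha ≠ 0 := mul_ne_zero (mul_ne_zero hk'0 (pow_ne_zero _ hk0)) hu
  have hal : (b : 𝓞 K) * alpha = (k : 𝓞 K) ^ D * ev g u := by
    obtain ⟨D', rfl⟩ : ∃ D', D = D' + 1 := ⟨D - 1, by omega⟩
    rw [halpha, Nat.add_sub_cancel, pow_succ]
    have : (k : 𝓞 K) = b * k' := by exact_mod_cast congrArg (Nat.cast : ℕ → 𝓞 K) hk'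
    calc (b : 𝓞 K) * (k' * (k : 𝓞 K) ^ D' * ev g u) = (k : 𝓞 K) ^ D' * (b * k') * ev g u := by ring
      _ = (k : 𝓞 K) ^ D' * k * ev g u := by rw [← this]
  obtain ⟨C1, hC1, hR⟩ := h2 K D (by omega) alpha ha0
  have hbk' : b ∣ k := ⟨k', hk'⟩
  set C3 : ℕ := C0 * (2 * A) + E with hC3
  have hC3' : 1 ≤ C3 := by
    have : 0 < C0 * (2 * A) := Nat.mul_pos hC0 (by omega)
    omega
  refine ⟨C1 / c1 * C2 * 2 ^ dg K * ((C3 : ℝ) ^ r) ^ dg K, by positivity, ?_⟩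
  intro c v t V H ht hCR ω hω hbω e L he hL θ hθ hPT z
  set Q : ℕ := QN 2 m c t V with hQd
  set X : ℕ := XC 2 c t with hXd
  have hV : 1 ≤ V := le_trans (Nat.one_le_pow _ _ ht) hCR.1
  have hX : 1 ≤ X := Nat.one_le_pow _ _ ht
  have hQ : 1 ≤ Q := Nat.one_le_iff_ne_zero.2 (mul_ne_zero (pow_ne_zero _ (by omega)) (by omega))
  have hQR : (1 : ℝ) ≤ Q := by exact_mod_cast hQ
  have hQX : (Q : ℝ) = (X : ℝ) ^ m * V := by
    rw [hQd, hXd, QN]
    push_cast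
    rfl
  set Y : ℝ := (H : ℝ) * (X : ℝ) ^ (D * m) with hY
  have hV1 : (1 : ℝ) ≤ V := by exact_mod_cast hV
  have hX1 : (1 : ℝ) ≤ X := by exact_mod_cast hX
  have hH1 : (V : ℝ) ^ D ≤ H := by exact_mod_cast hCR.2.2.1
  have hH2 : (H : ℝ) ≤ ((V : ℝ) + 1) ^ D := by exact_mod_cast hCR.2.2.2
  have hQD : (Q : ℝ) ^ D = (V : ℝ) ^ D * (X : ℝ) ^ (D * m) := by
    rw [hQX, mul_pow, ← pow_mul, mul_comm m D]
    ring
  have hY1 : (Q : ℝ) ^ D ≤ Y := by
    rw [hQD]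
    exact mul_le_mul_of_nonneg_right hH1 (by positivity)
  have hY2 : Y ≤ (2 * (Q : ℝ)) ^ D := by
    rw [mul_pow, hQD, ← mul_assoc, ← mul_pow]
    refine mul_le_mul_of_nonneg_right (hH2.trans ?_) (by positivity)
    exact pow_le_pow_left₀ (by positivity) (by linarith) _
  have hQY : (Q : ℝ) ≤ Y := le_trans (le_self_pow₀ hQR (by omega)) hY1
  have hY0 : 0 < Y := by linarith
  have hPθ := FAC_PT_pos θ hθ
  set τ : InfinitePlace K → ℝ := fun v => θ v * Y with hτ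
  have hτ0 : ∀ v, 0 < τ v := fun v => mul_pos (hθ v) hY0
  have hPτ : PT τ = PT θ * Y ^ dg K := FAC_PT θ Y
  have hPτ1 : 1 ≤ PT τ := by
    rw [hPτ]
    refine hPT.trans (mul_le_mul_of_nonneg_left ?_ hPθ.le)
    exact pow_le_pow_left₀ (by positivity) hQY _
  have hPτ2 : PT τ ^ ((1 : ℝ) / D) ≤ PT θ ^ ((1 : ℝ) / D) * (2 ^ dg K * (Q : ℝ) ^ dg K) := by
    rw [hPτ, Real.mul_rpow hPθ.le (by positivity)]
    refine mul_le_mul_of_nonneg_left ?_ (by positivity)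
    have e1 : (Y ^ dg K) ^ ((1 : ℝ) / D) ≤ (((2 * (Q : ℝ)) ^ dg K) ^ D) ^ ((1 : ℝ) / D) := by
      refine Real.rpow_le_rpow (by positivity) ?_ (by positivity)
      rw [← pow_mul, mul_comm (dg K) D, pow_mul]
      exact pow_le_pow_left₀ hY0.le hY2 _
    refine e1.trans (le_of_eq ?_)
    rw [one_div, Real.pow_rpow_inv_natCast (by positivity) (by omega), mul_pow]
  set S := (BK g k ω e L).filter fun w => ∀ v : InfinitePlace K,
        ‖v.embedding ((aK g b k ω w : 𝓞 K) : K) - z v‖ ≤ θ v * Y with hS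
  have hcount : ((S.card : ℝ)) * ((pb K (Q : ℝ)).card : ℝ) ≤
      ((bx K r ((C3 * Q : ℕ) : ℝ)).card : ℝ) * (C1 * PT τ ^ ((1 : ℝ) / D)) := by
    have hinj : (S ×ˢ pb K (Q : ℝ)).card ≤
        ((bx K r ((C3 * Q : ℕ) : ℝ)).sigma fun w0 =>
          (pb K (Q : ℝ)).filter fun T => ∀ v : InfinitePlace K,
            ‖v.embedding ((aK g b k ω (fun j => w0 j + T * u j) : 𝓞 K) : K) - z v‖ ≤
              τ v).card := by
      refine Finset.card_le_card_of_injOn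
        (fun p => (⟨fun j => p.1 j - p.2 * u j, p.2⟩ : (_ : Fin r → 𝓞 K) × 𝓞 K)) ?_ ?_
      · rintro ⟨w, T⟩ hp
        rw [Finset.mem_coe, Finset.mem_product, hS, Finset.mem_filter] at hp
        rw [Finset.mem_coe, Finset.mem_sigma, Fintype.mem_piFinset, Finset.mem_filter]
        refine ⟨fun j => ?_, hp.2, ?_⟩
        · rw [mem_pb]
          intro v
          have h3 : av v (w j) ≤ C0 * (2 * ((A : ℝ) * Q)) := FAC_box hC g hp.1.1 he hL v j
          have h4 : av v T ≤ Q := mem_pb.1 hp.2 v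
          have h5 : av v (T * u j) ≤ Q * E := by
            rw [av_mul]
            exact mul_le_mul h4 (hE v j) (av_nonneg v _) (Nat.cast_nonneg _)
          have h6 := av_sub_le v (w j) (T * u j)
          rw [hC3]
          push_cast
          show av v (w j - T * u j) ≤ _
          have h7 : ((C0 : ℝ) * (2 * A) + E) * Q = C0 * (2 * ((A : ℝ) * Q)) + Q * E := by ring
          rw [h7]
          linarith
        · have h3 : (fun j => w j - T * u j + T * u j) = w := by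
            funext j
            ring
          intro v
          show ‖v.embedding ((aK g b k ω (fun j => w j - T * u j + T * u j) : 𝓞 K) : K) - z v‖ ≤ _
          rw [h3]
          exact hp.1.2 v
      · rintro ⟨w, T⟩ _ ⟨w', T'⟩ _ hpq
        rw [Sigma.mk.injEq] at hpq
        obtain ⟨h3, h4⟩ := hpq
        have h5 : T = T' := eq_of_heq h4
        subst h5
        refine Prod.ext ?_ rfl
        funext j
        exact sub_left_injective (congrFun h3 j)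
    have h3 : (((bx K r ((C3 * Q : ℕ) : ℝ)).sigma fun w0 =>
          (pb K (Q : ℝ)).filter fun T => ∀ v : InfinitePlace K,
            ‖v.embedding ((aK g b k ω (fun j => w0 j + T * u j) : 𝓞 K) : K) - z v‖ ≤
              τ v).card : ℝ) ≤
        ((bx K r ((C3 * Q : ℕ) : ℝ)).card : ℝ) * (C1 * PT τ ^ ((1 : ℝ) / D)) := by
      rw [Finset.card_sigma, Nat.cast_sum, ← nsmul_eq_mul]
      refine Finset.sum_le_card_nsmul _ _ _ fun w0 _ => ?_
      obtain ⟨P, hP1, hP2, hP3⟩ := h1 K r D g b k ω w0 u hb (by omega) hbk' hbω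
      have hP4 : P.coeff D = alpha := by
        apply mul_left_cancel₀ hb0
        rw [hP3, hal]
      have h4 := hR P hP2 hP4 (Q : ℝ) τ hτ0 hPτ1 z
      simp only [hP1] at h4
      exact h4
    rw [Finset.card_product] at hinj
    refine le_trans ?_ h3
    exact_mod_cast hinj
  have h5 := hpb Q hQ
  have h6 := hbx (C3 * Q) (Nat.mul_pos hC3' hQ)
  have hS0 : (0 : ℝ) ≤ (S.card : ℝ) := Nat.cast_nonneg _
  have hPθ' : 0 ≤ PT θ ^ ((1 : ℝ) / D) := by positivity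
  have h7 : (S.card : ℝ) * (Q : ℝ) ^ dg K * c1 ≤
      (C2 * ((((C3 * Q : ℕ) : ℝ)) ^ r) ^ dg K) *
        (C1 * (PT θ ^ ((1 : ℝ) / D) * (2 ^ dg K * (Q : ℝ) ^ dg K))) := by
    calc (S.card : ℝ) * (Q : ℝ) ^ dg K * c1 = (S.card : ℝ) * (c1 * (Q : ℝ) ^ dg K) := by ring
      _ ≤ (S.card : ℝ) * ((pb K (Q : ℝ)).card : ℝ) := mul_le_mul_of_nonneg_left h5 hS0
      _ ≤ ((bx K r ((C3 * Q : ℕ) : ℝ)).card : ℝ) * (C1 * PT τ ^ ((1 : ℝ) / D)) := hcount
      _ ≤ ((bx K r ((C3 * Q : ℕ) : ℝ)).card : ℝ) *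
          (C1 * (PT θ ^ ((1 : ℝ) / D) * (2 ^ dg K * (Q : ℝ) ^ dg K))) :=
          mul_le_mul_of_nonneg_left (mul_le_mul_of_nonneg_left hPτ2 hC1.le) (Nat.cast_nonneg _)
      _ ≤ _ := mul_le_mul_of_nonneg_right h6 (by positivity)
  have hQd0 : (0 : ℝ) < (Q : ℝ) ^ dg K := by positivity
  have h8 : (((C3 * Q : ℕ) : ℝ) ^ r) ^ dg K = ((C3 : ℝ) ^ r) ^ dg K * ((Q : ℝ) ^ r) ^ dg K := by
    rw [Nat.cast_mul, mul_pow, mul_pow]
  rw [h8] at h7
  have h9 : C1 / c1 * C2 * 2 ^ dg K * ((C3 : ℝ) ^ r) ^ dg K * ((Q : ℝ) ^ r) ^ dg K *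
      PT θ ^ ((1 : ℝ) / D) = (C2 * (((C3 : ℝ) ^ r) ^ dg K * ((Q : ℝ) ^ r) ^ dg K)) *
        (C1 * (PT θ ^ ((1 : ℝ) / D) * (2 ^ dg K * (Q : ℝ) ^ dg K))) / ((Q : ℝ) ^ dg K * c1) := by
    field_simp
  rw [h9, le_div_iff₀ (by positivity)]
  calc (S.card : ℝ) * ((Q : ℝ) ^ dg K * c1) = (S.card : ℝ) * (Q : ℝ) ^ dg K * c1 := by ring
    _ ≤ _ := h7

end Pool.Agent.NRN
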