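import Pool.Agent.NRN.StF

/-!
NRN, module FAR: the values of decomposable forms on cubes satisfy FAMR (helper55).
-/

set_option autoImplicit false

namespace Pool.Agent.NRN

open scoped BigOperators
open Classical NumberField IsDedekindDomain
open Pool.Agent.RHP (Mon mono ev Sys Prim pd WB WW)
open Pool.Agent.RHK Pool.Agent.RHC Pool.Agent.NRM
open Pool.Agent.RHKB (mI hh jj qv MK uu BadK)

theorem FAR_loc {K : Type} [Field K] [NumberField K] {r D : ℕ} {a : (Fin r → 𝓞 K) → 𝓞 K}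
    {C C' : ℝ} (h : LOC D a C) (hC : C ≤ C') : LOC D a C' := by
  refine ⟨h.cp, ?_, ?_⟩
  · intro I hI
    refine (h.weak I hI).trans (mul_le_mul_of_nonneg_right hC ?_)
    exact mul_nonneg (Nat.cast_nonneg _) (Real.rpow_nonneg (Nat.cast_nonneg _) _)
  · intro v J
    exact (h.str v J).trans (div_le_div_of_nonneg_right hC (by positivity))

theorem FAR_PT {K : Type} [Field K] [NumberField K] (θ : InfinitePlace K → ℝ)
    (h : ∀ v, 0 < θ v) : 0 ≤ PT θ := by
  unfold PT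
  exact Finset.prod_nonneg fun v _ => pow_nonneg (h v).le _

theorem thm_FAR (h1 : St_LOK) (h2 : St_DGA) (h3 : St_FCD) (h4 : St_FDI) (h5 : St_FLI)
    (h6 : St_FAC) : St_FAR := by
  intro K _ _ D m hD hm g hg hg0 c v hc A b k hA hb hk hbk
  -- the exponent
  have hN : 0 < m * (c + 1) + v := by
    have := Nat.mul_le_mul hm (show 1 ≤ c + 1 by omega)
    omega
  have hN' : (0 : ℝ) < (m * (c + 1) + v : ℝ) := by exact_mod_cast hN
  obtain ⟨C1, hC1, H1⟩ := h1 K D hD g hg hg0 b k hb hk hbk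
  have hkap : (0 : ℝ) < 1 / (m * (c + 1) + v : ℝ) := div_pos one_pos hN'
  have H2 := h2 K D hD g hg (1 / (m * (c + 1) + v : ℝ)) hkap
  obtain ⟨C3, hC3, H3⟩ := h3 K D D m (by omega) hD g hg0 A k hA hk
  have hin : (1 / (m * (c + 1) + v : ℝ)) * (m * (c + 1) + v) + 2 ≤ 2 * ((c : ℝ) + 1) := by
    rw [one_div_mul_cancel hN'.ne']
    have : (1 : ℝ) ≤ c := by exact_mod_cast hc
    linarith
  obtain ⟨C4, hC4, H4⟩ := h4 K D D m hD hm g hg0 _ hkap.le H2 c v hin A b k hA hb hk hbk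
  obtain ⟨C5, hC5, H5⟩ := h5 K D D m hD g A b k hA hb hk hbk
  obtain ⟨C6, hC6, H6⟩ := h6 K D D m hD g hg0 A b k hA hb hk hbk
  refine ⟨1 + C1 + C3 + C4 + C5 + C6, by linarith, ?_⟩
  intro t ht V H hCR ω hω hbω e L he hL
  have hQ : 1 ≤ QN 2 m c t V := by
    unfold QN XC
    have hV : 1 ≤ V := le_trans (Nat.one_le_pow _ _ ht) hCR.1
    have hX : 1 ≤ (t ^ (c * (2 - 1) + 1)) ^ m := Nat.one_le_pow _ _ (Nat.one_le_pow _ _ ht)
    exact Nat.mul_le_mul hX hV
  obtain ⟨H3a, H3b⟩ := H3 c t V hQ ω hω e L he hL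
  have hQr : (0 : ℝ) ≤ ((QN 2 m c t V : ℝ) ^ D) ^ dg K := by positivity
  refine ⟨FAR_loc (H1 ω hbω) (by linarith), ?_, ?_, ?_, ?_, ?_⟩
  · exact H3a.trans (mul_le_mul_of_nonneg_right (by linarith) hQr)
  · refine (H4 t ht V H hCR ω hω hbω e L he hL).trans ?_
    refine mul_le_mul_of_nonneg_right (mul_le_mul_of_nonneg_right (by linarith) ?_) ?_ <;>
      positivity
  · intro M hM δ hδ
    obtain ⟨ha, hb'⟩ := H3b M hM δ hδ
    have hle : C3 * (M : ℝ) * ((QN 2 m c t V : ℝ) ^ D) ^ dg K ≤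
        (1 + C1 + C3 + C4 + C5 + C6) * M * ((QN 2 m c t V : ℝ) ^ D) ^ dg K :=
      mul_le_mul_of_nonneg_right (mul_le_mul_of_nonneg_right (by linarith)
        (Nat.cast_nonneg _)) hQr
    exact ⟨ha.trans hle, hb'.trans hle⟩
  · intro M hM hMQ w hw δ hδ u
    refine (H5 c v t V H ht hCR ω hω hbω e L he hL M hM hMQ w hw δ hδ u).trans ?_
    refine mul_le_mul_of_nonneg_right (mul_le_mul_of_nonneg_right (by linarith) ?_) ?_ <;>
      positivity
  · intro θ hθ hθ1 z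
    refine (H6 c v t V H ht hCR ω hω hbω e L he hL θ hθ hθ1 z).trans ?_
    refine mul_le_mul_of_nonneg_right (mul_le_mul_of_nonneg_right (by linarith) hQr)
      (Real.rpow_nonneg (FAR_PT θ hθ) _)

end Pool.Agent.NRN
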