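import Pool.Agent.NRN.StS

/-!
NRN, module FBR: the fibres of `y ↦ x_0 y_1 - x_1 y_0` (helper87).
-/

set_option autoImplicit false

namespace Pool.Agent.NRN

open scoped BigOperators
open Classical NumberField IsDedekindDomain
open Pool.Agent.RHP (Mon mono ev Sys Prim pd WB WW)
open Pool.Agent.RHK Pool.Agent.RHC Pool.Agent.NRM

theorem thm_FBR : St_FBR := by
  intro K _ _
  refine ⟨(pb K 4).card, ?_⟩
  intro X x hX hx hv u
  obtain ⟨c, hc⟩ := hx
  rcases Finset.eq_empty_or_nonempty ((bx K 2 X).filter fun y => mn x y (0, 1) = u) with h0 | h0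
  · rw [h0, Finset.card_empty]
    exact Nat.zero_le _
  obtain ⟨y0, hy0⟩ := h0
  have hy : ∀ y ∈ (bx K 2 X).filter fun y => mn x y (0, 1) = u, ∀ j,
      y j - y0 j = (∑ i, c i * (y i - y0 i)) * x j := by
    intro y hy j
    have h1 : x 0 * y 1 - x 1 * y 0 = u := (Finset.mem_filter.1 hy).2
    have h2 : x 0 * y0 1 - x 1 * y0 0 = u := (Finset.mem_filter.1 hy0).2
    have h3 : x 0 * (y 1 - y0 1) = x 1 * (y 0 - y0 0) := by
      linear_combination h1 - h2
    rw [Fin.sum_univ_two] at hc ⊢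
    fin_cases j
    · change y 0 - y0 0 = (c 0 * (y 0 - y0 0) + c 1 * (y 1 - y0 1)) * x 0
      linear_combination (-(y 0 - y0 0)) * hc - c 1 * h3
    · change y 1 - y0 1 = (c 0 * (y 0 - y0 0) + c 1 * (y 1 - y0 1)) * x 1
      linear_combination (-(y 1 - y0 1)) * hc + c 0 * h3
  refine Finset.card_le_card_of_injOn (fun y => ∑ i, c i * (y i - y0 i)) ?_ ?_
  · intro y hy1
    have hy2 := Finset.mem_coe.1 hy1
    refine Finset.mem_coe.2 (mem_pb.2 fun v => ?_)
    have h3 : (fun i => (∑ i, c i * (y i - y0 i)) * x i) = fun i => y i - y0 i :=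
      funext fun j => (hy y hy2 j).symm
    have h4 : vs v (fun i => y i - y0 i) = av v (∑ i, c i * (y i - y0 i)) * vs v x := by
      rw [← vs_smul, h3]
    have h5 : vs v (fun i => y i - y0 i) ≤ 2 * X := (vs_le (by linarith)).2 fun i => by
      have h6 := mem_pb.1 (Fintype.mem_piFinset.1 (Finset.mem_filter.1 hy2).1 i) v
      have h7 := mem_pb.1 (Fintype.mem_piFinset.1 (Finset.mem_filter.1 hy0).1 i) v
      have h8 := av_sub_le v (y i) (y0 i)
      linarith
    have h6 := hv v
    have h7 : 0 < vs v x := by linarith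
    by_contra h8
    have h9 : 4 * vs v x < av v (∑ i, c i * (y i - y0 i)) * vs v x :=
      mul_lt_mul_of_pos_right (not_le.1 h8) h7
    linarith
  · intro y hy1 z hz1 hyz
    funext j
    have h1 := hy y (Finset.mem_coe.1 hy1) j
    have h2 := hy z (Finset.mem_coe.1 hz1) j
    have h3 : (∑ i, c i * (y i - y0 i)) = ∑ i, c i * (z i - y0 i) := hyz
    rw [h3, ← h2] at h1
    exact sub_left_injective h1

end Pool.Agent.NRN
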