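import Pool.Agent.NRN.StF
import Pool.Agent.NRM.GZ
import Pool.Agent.NRM.VG
import Pool.Agent.NRM.VDG
import Pool.Agent.NRM.LNP
import Pool.Agent.RHK.SM
import Pool.Agent.RHK.Sz

/-!
NRN [FCD]: `card` and `shift` for the cubes.
-/

set_option autoImplicit false

namespace Pool.Agent.NRN

open scoped BigOperators
open Classical NumberField IsDedekindDomain
open Pool.Agent.RHP (Mon mono ev Sys Prim pd WB WW)
open Pool.Agent.RHK Pool.Agent.RHC Pool.Agent.NRM
open Pool.Agent.RHKB (mI hh jj qv MK uu BadK)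

theorem FCD_GZ : St_GZ :=
  thm_GZ (thm_VG thm_LNP (thm_VDG Pool.Agent.RHK.thm_CELL Pool.Agent.RHK.thm_DVN))

section

variable {K : Type} [Field K] [NumberField K] {r : ℕ}

theorem FCD_co_add (a b : 𝓞 K) (j : IX K) : co (a + b) j = co a j + co b j := by
  unfold co
  rw [map_add, Finsupp.add_apply]

theorem FCD_co_sub (a b : 𝓞 K) (j : IX K) : co (a - b) j = co a j - co b j := by
  unfold co
  rw [map_sub, Finsupp.sub_apply]

theorem FCD_co_inj {a b : 𝓞 K} (h : ∀ j, co a j = co b j) : a = b :=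
  (RingOfIntegers.basis K).repr.injective (Finsupp.ext h)

/-- the cube -/
noncomputable def FCD_cu (e : Fin r → IX K → ℤ) (L : ℕ) : Finset (Fin r → 𝓞 K) :=
  Fintype.piFinset fun j => (cb K ((Finset.univ.sup fun i => (e j i).natAbs) + L)).filter fun a =>
    ∀ i, e j i ≤ co a i ∧ co a i < e j i + L

theorem FCD_mem_cu {e : Fin r → IX K → ℤ} {L : ℕ} {w : Fin r → 𝓞 K} :
    w ∈ FCD_cu e L ↔ ∀ j i, e j i ≤ co (w j) i ∧ co (w j) i < e j i + L := by
  unfold FCD_cu
  rw [Fintype.mem_piFinset]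
  refine forall_congr' fun j => ?_
  rw [Finset.mem_filter, mem_cb]
  refine ⟨fun h => h.2, fun h => ⟨?_, h⟩⟩
  unfold cz
  rw [Finset.sup_le_iff]
  intro i _
  have h1 : (e j i).natAbs ≤ Finset.univ.sup fun i => (e j i).natAbs :=
    Finset.le_sup (f := fun i => (e j i).natAbs) (Finset.mem_univ i)
  have h2 := h i
  omega

theorem FCD_BK {D : ℕ} (g : Mon r D → 𝓞 K) (k : ℕ) (ω : Fin r → 𝓞 K) (e : Fin r → IX K → ℤ)
    (L : ℕ) : BK g k ω e L = (FCD_cu e L).filter fun w => ev g (fun j => ω j + k * w j) ≠ 0 := rfl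

/-- counting by coordinates -/
theorem FCD_cnt (S : Fin r × IX K → Finset ℤ) (W : Finset (Fin r → 𝓞 K))
    (h : ∀ w ∈ W, ∀ p : Fin r × IX K, co (w p.1) p.2 ∈ S p) : W.card ≤ ∏ p, (S p).card := by
  rw [← Fintype.card_piFinset S]
  refine Finset.card_le_card_of_injOn (fun w p => co (w p.1) p.2) (fun w hw => ?_)
    fun w _ w' _ hww => ?_
  · rw [Finset.mem_coe, Fintype.mem_piFinset]
    exact h w hw
  · funext j
    exact FCD_co_inj fun i => congrFun hww (j, i)

theorem FCD_cardP : Fintype.card (Fin r × IX K) = r * dg K := by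
  rw [Fintype.card_prod, Fintype.card_fin, card_IX]

theorem FCD_card (e : Fin r → IX K → ℤ) (L : ℕ) : (FCD_cu e L).card ≤ L ^ (r * dg K) := by
  refine (FCD_cnt (fun p => Finset.Ico (e p.1 p.2) (e p.1 p.2 + L)) _ fun w hw p => ?_).trans ?_
  · rw [Finset.mem_Ico]
    exact FCD_mem_cu.1 hw p.1 p.2
  · simp only [Int.card_Ico, add_sub_cancel_left, Int.toNat_natCast]
    rw [Finset.prod_const, Finset.card_univ, FCD_cardP]

theorem FCD_face (e : Fin r → IX K → ℤ) (L M : ℕ) (p : Fin r × IX K) (T : Finset ℤ)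
    (hT : T.card ≤ M) (W : Finset (Fin r → 𝓞 K)) (hW : W ⊆ FCD_cu e L)
    (h : ∀ w ∈ W, co (w p.1) p.2 ∈ T) : W.card ≤ M * L ^ (r * dg K - 1) := by
  refine (FCD_cnt (fun q => if q = p then T else Finset.Ico (e q.1 q.2) (e q.1 q.2 + L)) _
    fun w hw q => ?_).trans ?_
  · split_ifs with hq
    · subst hq
      exact h w hw
    · rw [Finset.mem_Ico]
      exact FCD_mem_cu.1 (hW hw) q.1 q.2
  · rw [Fintype.prod_eq_mul_prod_compl p, if_pos rfl]
    refine Nat.mul_le_mul hT ?_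
    rw [Finset.prod_congr rfl (g := fun _ => L) fun q hq => ?_, Finset.prod_const,
      Finset.card_compl, Finset.card_singleton, FCD_cardP]
    rw [Finset.mem_compl, Finset.mem_singleton] at hq
    rw [if_neg hq, Int.card_Ico, add_sub_cancel_left, Int.toNat_natCast]

theorem FCD_near (e : Fin r → IX K → ℤ) (L M : ℕ) (T : Fin r × IX K → Finset ℤ)
    (hT : ∀ p, (T p).card ≤ M) (W : Finset (Fin r → 𝓞 K)) (hW : W ⊆ FCD_cu e L)
    (h : ∀ w ∈ W, ∃ p : Fin r × IX K, co (w p.1) p.2 ∈ T p) :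
    W.card ≤ (r * dg K) * (M * L ^ (r * dg K - 1)) := by
  have h1 : W ⊆ Finset.univ.biUnion fun p => W.filter fun w => co (w p.1) p.2 ∈ T p := by
    intro w hw
    obtain ⟨p, hp⟩ := h w hw
    rw [Finset.mem_biUnion]
    exact ⟨p, Finset.mem_univ p, Finset.mem_filter.2 ⟨hw, hp⟩⟩
  refine (Finset.card_le_card h1).trans (Finset.card_biUnion_le.trans ?_)
  refine (Finset.sum_le_sum fun p _ => FCD_face e L M p (T p) (hT p) _
    ((Finset.filter_subset _ _).trans hW) fun w hw => (Finset.mem_filter.1 hw).2).trans ?_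
  rw [Finset.sum_const, Finset.card_univ, FCD_cardP, smul_eq_mul]

/-- the zeros of `g` in a cube -/
theorem FCD_zero {D : ℕ} (g : Mon r D → 𝓞 K) (C₁ A k Q : ℕ) (C₂ : ℝ) (hC₂ : 0 < C₂) (hA : 1 ≤ A)
    (hk : 1 ≤ k) (hQ : 1 ≤ Q) (hC₁ : 0 < C₁)
    (h1 : ∀ (a : 𝓞 K) (v : InfinitePlace K), av v a ≤ C₁ * cz a)
    (h2 : ∀ (U : ℕ) (a : 𝓞 K), 1 ≤ U →
      (((bx K r (U : ℝ)).filter fun w => ev g w = a).card : ℝ) * (U : ℝ) ^ dg K ≤
        C₂ * ((U : ℝ) ^ r) ^ dg K) (ω : Fin r → 𝓞 K) (hω : ω ∈ db K r k)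
    (e : Fin r → IX K → ℤ) (L : ℕ) (he : ∀ j i, |e j i| ≤ A * Q) (hL : L ≤ A * Q) :
    (((FCD_cu e L).filter fun w => ev g (fun j => ω j + k * w j) = 0).card : ℝ) * Q ≤
      C₂ * (((3 * k * A * C₁ : ℕ) : ℝ) ^ r) ^ dg K * ((Q : ℝ) ^ r) ^ dg K := by
  set B : ℕ := 3 * k * A * C₁ with hB
  have hB1 : 1 ≤ B := Nat.mul_pos (Nat.mul_pos (by omega) hA) hC₁
  have hU : 1 ≤ B * Q := Nat.mul_pos hB1 hQ
  have hle : ((FCD_cu e L).filter fun w => ev g (fun j => ω j + k * w j) = 0).card ≤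
      ((bx K r ((B * Q : ℕ) : ℝ)).filter fun w => ev g w = 0).card := by
    refine Finset.card_le_card_of_injOn (fun w j => ω j + k * w j) (fun w hw => ?_)
      fun w _ w' _ hww => ?_
    · rw [Finset.mem_coe, Finset.mem_filter] at hw
      rw [Finset.mem_coe, Finset.mem_filter]
      refine ⟨?_, hw.2⟩
      rw [Fintype.mem_piFinset]
      intro j
      rw [mem_pb]
      intro v
      have h3 : cz (ω j + (k : 𝓞 K) * w j) ≤ 3 * k * A * Q := by
        unfold cz
        rw [Finset.sup_le_iff]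
        intro i _
        rw [FCD_co_add, co_natCast_mul]
        have h4 := (Fintype.mem_piFinset.1 hω j)
        rw [Finset.mem_filter] at h4
        have h5 := h4.2 i
        have h6 := FCD_mem_cu.1 hw.1 j i
        have h7 := abs_le.1 (he j i)
        have h8 : |co (w j) i| ≤ 2 * (A * Q) := by
          rw [abs_le]
          have : (L : ℤ) ≤ A * Q := by exact_mod_cast hL
          constructor <;> linarith
        have h9 : |co (ω j) i| ≤ k := by
          rw [abs_le]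
          constructor <;> linarith
        have h10 : |co (ω j) i + k * co (w j) i| ≤ 3 * k * A * Q := by
          have hAQ : (1 : ℤ) ≤ A * Q := by exact_mod_cast Nat.mul_pos hA hQ
          calc |co (ω j) i + k * co (w j) i| ≤ |co (ω j) i| + |k * co (w j) i| := abs_add_le _ _
            _ ≤ k + k * (2 * (A * Q)) := by
                rw [abs_mul, Nat.abs_cast]
                exact add_le_add h9 (mul_le_mul_of_nonneg_left h8 (by positivity))
            _ ≤ k * (A * Q) + k * (2 * (A * Q)) := by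
                have : (k : ℤ) * 1 ≤ k * (A * Q) := mul_le_mul_of_nonneg_left hAQ (by positivity)
                linarith
            _ = 3 * k * A * Q := by ring
        have h11 : ((co (ω j) i + k * co (w j) i).natAbs : ℤ) ≤ ((3 * k * A * Q : ℕ) : ℤ) := by
          rw [Int.natCast_natAbs]
          push_cast
          exact h10
        exact_mod_cast h11
      refine (h1 _ v).trans ?_
      have h12 : (cz (ω j + (k : 𝓞 K) * w j) : ℝ) ≤ ((3 * k * A * Q : ℕ) : ℝ) := by exact_mod_cast h3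
      calc (C₁ : ℝ) * cz (ω j + (k : 𝓞 K) * w j) ≤ C₁ * ((3 * k * A * Q : ℕ) : ℝ) :=
            mul_le_mul_of_nonneg_left h12 (by positivity)
        _ = ((B * Q : ℕ) : ℝ) := by
            rw [hB]
            push_cast
            ring
    · funext j
      have h3 := congrFun hww j
      have h4 : (k : 𝓞 K) * w j = k * w' j := add_left_cancel h3
      have h5 : (k : 𝓞 K) ≠ 0 := by
        rw [Nat.cast_ne_zero]
        omega
      exact mul_left_cancel₀ h5 h4
  have h3 := h2 (B * Q) 0 hU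
  have hQR : (1 : ℝ) ≤ Q := by exact_mod_cast hQ
  have hBR : (1 : ℝ) ≤ B := by exact_mod_cast hB1
  have h4 : (Q : ℝ) ≤ ((B * Q : ℕ) : ℝ) ^ dg K := by
    calc (Q : ℝ) ≤ Q ^ dg K := le_self_pow₀ hQR (dg_pos (K := K)).ne'
      _ ≤ ((B * Q : ℕ) : ℝ) ^ dg K := by
          refine pow_le_pow_left₀ (by positivity) ?_ _
          push_cast
          nlinarith
  calc (((FCD_cu e L).filter fun w => ev g (fun j => ω j + k * w j) = 0).card : ℝ) * Q ≤
        (((bx K r ((B * Q : ℕ) : ℝ)).filter fun w => ev g w = 0).card : ℝ) *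
          ((B * Q : ℕ) : ℝ) ^ dg K :=
        mul_le_mul (by exact_mod_cast hle) h4 (by positivity) (by positivity)
    _ ≤ C₂ * (((B * Q : ℕ) : ℝ) ^ r) ^ dg K := h3
    _ = C₂ * ((B : ℝ) ^ r) ^ dg K * ((Q : ℝ) ^ r) ^ dg K := by
        push_cast
        rw [mul_pow, mul_pow]
        ring

theorem FCD_shift {D : ℕ} (g : Mon r D → 𝓞 K) (C₁ A k Q : ℕ) (C₂ : ℝ) (hC₂ : 0 < C₂)
    (hA : 1 ≤ A) (hk : 1 ≤ k) (hQ : 1 ≤ Q) (hC₁ : 0 < C₁) (hr : 1 ≤ r)
    (h1 : ∀ (a : 𝓞 K) (v : InfinitePlace K), av v a ≤ C₁ * cz a)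
    (h2 : ∀ (U : ℕ) (a : 𝓞 K), 1 ≤ U →
      (((bx K r (U : ℝ)).filter fun w => ev g w = a).card : ℝ) * (U : ℝ) ^ dg K ≤
        C₂ * ((U : ℝ) ^ r) ^ dg K) (ω : Fin r → 𝓞 K) (hω : ω ∈ db K r k)
    (e : Fin r → IX K → ℤ) (L : ℕ) (he : ∀ j i, |e j i| ≤ A * Q) (hL : L ≤ A * Q)
    (M : ℕ) (hM : 1 ≤ M) (τ : (Fin r → 𝓞 K) → (Fin r → 𝓞 K)) (hτ : Function.Injective τ)
    (T : Fin r × IX K → Finset ℤ) (hT : ∀ p, (T p).card ≤ M)
    (h : ∀ w ∈ FCD_cu e L, τ w ∉ FCD_cu e L → ∃ p : Fin r × IX K, co (w p.1) p.2 ∈ T p) :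
    (((BK g k ω e L).filter fun w => τ w ∉ BK g k ω e L).card : ℝ) * Q ≤
      ((r * dg K : ℕ) * (A : ℝ) ^ (r * dg K) +
        C₂ * (((3 * k * A * C₁ : ℕ) : ℝ) ^ r) ^ dg K) * M * ((Q : ℝ) ^ r) ^ dg K := by
  have hrd : 1 ≤ r * dg K := Nat.mul_pos hr dg_pos
  have hsub : (BK g k ω e L).filter (fun w => τ w ∉ BK g k ω e L) ⊆
      ((FCD_cu e L).filter fun w => τ w ∉ FCD_cu e L) ∪
        ((FCD_cu e L).filter fun w => τ w ∈ FCD_cu e L ∧
          ev g (fun j => ω j + k * τ w j) = 0) := by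
    intro w hw
    rw [Finset.mem_filter, FCD_BK, Finset.mem_filter, Finset.mem_filter] at hw
    rw [Finset.mem_union, Finset.mem_filter, Finset.mem_filter]
    by_cases hw' : τ w ∈ FCD_cu e L
    · right
      refine ⟨hw.1.1, hw', ?_⟩
      by_contra h0
      exact hw.2 ⟨hw', h0⟩
    · left
      exact ⟨hw.1.1, hw'⟩
  have hc1 : ((FCD_cu e L).filter fun w => τ w ∉ FCD_cu e L).card ≤
      (r * dg K) * (M * L ^ (r * dg K - 1)) := by
    refine FCD_near e L M T hT _ (Finset.filter_subset _ _) fun w hw => ?_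
    rw [Finset.mem_filter] at hw
    exact h w hw.1 hw.2
  have hc2 : ((FCD_cu e L).filter fun w => τ w ∈ FCD_cu e L ∧
      ev g (fun j => ω j + k * τ w j) = 0).card ≤
        ((FCD_cu e L).filter fun w => ev g (fun j => ω j + k * w j) = 0).card := by
    refine Finset.card_le_card_of_injOn τ (fun w hw => ?_) hτ.injOn
    rw [Finset.mem_coe, Finset.mem_filter] at hw
    rw [Finset.mem_coe, Finset.mem_filter]
    exact hw.2
  have hcard := (Finset.card_le_card hsub).trans (Finset.card_union_le _ _)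
  have hcR : (((BK g k ω e L).filter fun w => τ w ∉ BK g k ω e L).card : ℝ) ≤
      ((r * dg K : ℕ) : ℝ) * (M * (L : ℝ) ^ (r * dg K - 1)) +
        (((FCD_cu e L).filter fun w => ev g (fun j => ω j + k * w j) = 0).card : ℝ) := by
    have := hcard.trans (add_le_add hc1 hc2)
    exact_mod_cast this
  have hQR : (1 : ℝ) ≤ Q := by exact_mod_cast hQ
  have hAR : (1 : ℝ) ≤ A := by exact_mod_cast hA
  have hMR : (1 : ℝ) ≤ M := by exact_mod_cast hM
  have hLR : (L : ℝ) ≤ A * Q := by exact_mod_cast hL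
  have hz := FCD_zero g C₁ A k Q C₂ hC₂ hA hk hQ hC₁ h1 h2 ω hω e L he hL
  have hpow : (L : ℝ) ^ (r * dg K - 1) * Q ≤ (A : ℝ) ^ (r * dg K) * ((Q : ℝ) ^ r) ^ dg K := by
    calc (L : ℝ) ^ (r * dg K - 1) * Q ≤ (A * Q) ^ (r * dg K - 1) * (A * Q) := by
          refine mul_le_mul (pow_le_pow_left₀ (by positivity) hLR _) ?_ (by positivity)
            (by positivity)
          nlinarith
      _ = (A * Q) ^ (r * dg K) := by
          rw [← pow_succ, Nat.sub_add_cancel hrd]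
      _ = (A : ℝ) ^ (r * dg K) * ((Q : ℝ) ^ r) ^ dg K := by rw [mul_pow, pow_mul (Q : ℝ)]
  have hP : 0 ≤ ((Q : ℝ) ^ r) ^ dg K := by positivity
  calc (((BK g k ω e L).filter fun w => τ w ∉ BK g k ω e L).card : ℝ) * Q ≤
        (((r * dg K : ℕ) : ℝ) * (M * (L : ℝ) ^ (r * dg K - 1)) +
        (((FCD_cu e L).filter fun w => ev g (fun j => ω j + k * w j) = 0).card : ℝ)) * Q :=
        mul_le_mul_of_nonneg_right hcR (by positivity)
    _ = ((r * dg K : ℕ) : ℝ) * M * ((L : ℝ) ^ (r * dg K - 1) * Q) +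
        (((FCD_cu e L).filter fun w => ev g (fun j => ω j + k * w j) = 0).card : ℝ) * Q := by
        ring
    _ ≤ ((r * dg K : ℕ) : ℝ) * M * ((A : ℝ) ^ (r * dg K) * ((Q : ℝ) ^ r) ^ dg K) +
        C₂ * (((3 * k * A * C₁ : ℕ) : ℝ) ^ r) ^ dg K * ((Q : ℝ) ^ r) ^ dg K :=
        add_le_add (mul_le_mul_of_nonneg_left hpow (by positivity)) hz
    _ ≤ ((r * dg K : ℕ) : ℝ) * M * ((A : ℝ) ^ (r * dg K) * ((Q : ℝ) ^ r) ^ dg K) +
        (C₂ * (((3 * k * A * C₁ : ℕ) : ℝ) ^ r) ^ dg K * ((Q : ℝ) ^ r) ^ dg K) * M := by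
        refine add_le_add le_rfl (le_mul_of_one_le_right (by positivity) hMR)
    _ = _ := by ring

end

/-- **FCD** -/
theorem thm_FCD : St_FCD := by
  intro K _ _ r D m hr hD g hg A k hA hk
  obtain ⟨C₂, hC₂, hG⟩ := FCD_GZ K r D hD g hg
  obtain ⟨C₁, hC₁, h1, -⟩ := Pool.Agent.RHK.thm_CMP K
  refine ⟨(A : ℝ) ^ (r * dg K) + ((r * dg K : ℕ) * (A : ℝ) ^ (r * dg K) +
    C₂ * (((3 * k * A * C₁ : ℕ) : ℝ) ^ r) ^ dg K), by positivity,
    fun c t V hQ ω hω e L he hL => ⟨?_, fun M hM δ hδ => ⟨?_, ?_⟩⟩⟩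
  · have h3 : (BK g k ω e L).card ≤ L ^ (r * dg K) := by
      rw [FCD_BK]
      exact (Finset.card_filter_le _ _).trans (FCD_card e L)
    have h4 : ((BK g k ω e L).card : ℝ) ≤ (L : ℝ) ^ (r * dg K) := by exact_mod_cast h3
    have hLR : (L : ℝ) ≤ A * QN 2 m c t V := by exact_mod_cast hL
    refine h4.trans ((pow_le_pow_left₀ (by positivity) hLR _).trans ?_)
    rw [mul_pow, pow_mul (QN 2 m c t V : ℝ)]
    refine mul_le_mul_of_nonneg_right ?_ (by positivity)
    exact le_add_of_nonneg_right (by positivity)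
  · refine (FCD_shift g C₁ A k (QN 2 m c t V) C₂ hC₂ hA hk hQ hC₁ hr h1 (fun U a hU => hG U a hU)
      ω hω e L he hL M hM (fun w j => w j + δ j) (fun w w' hww => funext fun j =>
        add_right_cancel (congrFun hww j))
      (fun p => Finset.Ico (e p.1 p.2 + L - M) (e p.1 p.2 + L)) (fun p => ?_) ?_).trans ?_
    · rw [Int.card_Ico, sub_sub_cancel, Int.toNat_natCast]
    · intro w hw hw'
      rw [FCD_mem_cu] at hw hw'
      push_neg at hw'
      obtain ⟨j, i, hji⟩ := hw'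
      refine ⟨(j, i), ?_⟩
      rw [FCD_co_add] at hji
      have h5 := (Finset.mem_filter.1 (Fintype.mem_piFinset.1 hδ j)).2 i
      have h6 := hw j i
      rw [Finset.mem_Ico]
      have h7 := hji (by omega)
      constructor <;> simp only <;> omega
    · refine mul_le_mul_of_nonneg_right (mul_le_mul_of_nonneg_right ?_ (by positivity))
        (by positivity)
      exact le_add_of_nonneg_left (by positivity)
  · refine (FCD_shift g C₁ A k (QN 2 m c t V) C₂ hC₂ hA hk hQ hC₁ hr h1 (fun U a hU => hG U a hU)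
      ω hω e L he hL M hM (fun w j => w j - δ j) (fun w w' hww => funext fun j =>
        sub_left_injective (congrFun hww j))
      (fun p => Finset.Ico (e p.1 p.2) (e p.1 p.2 + M)) (fun p => ?_) ?_).trans ?_
    · rw [Int.card_Ico, add_sub_cancel_left, Int.toNat_natCast]
    · intro w hw hw'
      rw [FCD_mem_cu] at hw hw'
      push_neg at hw'
      obtain ⟨j, i, hji⟩ := hw'
      refine ⟨(j, i), ?_⟩
      rw [FCD_co_sub] at hji
      have h5 := (Finset.mem_filter.1 (Fintype.mem_piFinset.1 hδ j)).2 i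
      have h6 := hw j i
      rw [Finset.mem_Ico]
      by_contra hcon
      have h8 : e j i ≤ co (w j) i - co (δ j) i := by
        by_contra h9
        exact hcon ⟨h6.1, by simp only; omega⟩
      have h7 := hji h8
      omega
    · refine mul_le_mul_of_nonneg_right (mul_le_mul_of_nonneg_right ?_ (by positivity))
        (by positivity)
      exact le_add_of_nonneg_left (by positivity)

end Pool.Agent.NRN
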