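import Pool.Agent.NRN.StF
import Pool.Agent.NRM.FAMG
import Pool.Agent.RHK.CMP
import Pool.Agent.RHK.Sz

/-!
NRN, FDI: the diagonal bound for the families of the values of `g` on cubes (from `NRM.FAMG_diag`).
-/

set_option autoImplicit false

namespace Pool.Agent.NRN

open scoped BigOperators
open Classical NumberField IsDedekindDomain
open Pool.Agent.RHP (Mon mono ev Sys Prim pd WB WW)
open Pool.Agent.RHK Pool.Agent.RHC Pool.Agent.NRM

section FDI_aux

variable {K : Type} [Field K] [NumberField K] {r D : ℕ}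

omit [NumberField K] in
/-- the values on the residue class are divisible by `b` -/
theorem FDI_dvd (g : Mon r D → 𝓞 K) {b k : ℕ} (hbk : b ∣ k) (ω w : Fin r → 𝓞 K)
    (h : (b : 𝓞 K) ∣ ev g ω) : (b : 𝓞 K) ∣ ev g (fun j => ω j + k * w j) := by
  have h0 : ∀ j, Ideal.Quotient.mk (Ideal.span {(b : 𝓞 K)}) (ω j + k * w j) =
      Ideal.Quotient.mk (Ideal.span {(b : 𝓞 K)}) (ω j) := by
    intro j
    rw [Ideal.Quotient.eq, add_sub_cancel_left, Ideal.mem_span_singleton]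
    exact Dvd.dvd.mul_right (Nat.cast_dvd_cast hbk) _
  have h1 := Pool.Agent.RHP.ev_map (Ideal.Quotient.mk (Ideal.span {(b : 𝓞 K)})) g
    (fun j => ω j + k * w j)
  have h2 := Pool.Agent.RHP.ev_map (Ideal.Quotient.mk (Ideal.span {(b : 𝓞 K)})) g ω
  simp only [h0] at h1
  rw [h2] at h1
  rw [← Ideal.mem_span_singleton, ← Ideal.Quotient.eq_zero_iff_mem] at h ⊢
  rw [← h1, h]

/-- the points are in a box of size `C Q` -/
theorem FDI_box {C0 A k Q L : ℕ} (hC : ∀ (a : 𝓞 K) (v : InfinitePlace K), av v a ≤ C0 * cz a)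
    (hA : 1 ≤ A) (hQ : 1 ≤ Q) (g : Mon r D → 𝓞 K)
    {ω w : Fin r → 𝓞 K} {e : Fin r → IX K → ℤ} (hω : ω ∈ db K r k) (hw : w ∈ BK g k ω e L)
    (he : ∀ j i, |e j i| ≤ (A : ℤ) * Q) (hL : L ≤ A * Q) :
    (fun j => ω j + k * w j) ∈ bx K r ((3 * C0 * k * A * Q : ℕ) : ℝ) := by
  refine Fintype.mem_piFinset.2 fun j => mem_pb.2 fun v => ?_
  have h1 : cz (ω j) ≤ k :=
    mem_cb.1 (Finset.mem_filter.1 (Fintype.mem_piFinset.1 hω j)).1
  have h2 : cz (w j) ≤ (Finset.univ.sup fun i => (e j i).natAbs) + L :=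
    mem_cb.1 (Finset.mem_filter.1 (Fintype.mem_piFinset.1 (Finset.mem_filter.1 hw).1 j)).1
  have h3 : (Finset.univ.sup fun i => (e j i).natAbs) ≤ A * Q := by
    refine Finset.sup_le fun i _ => ?_
    have h4 := he j i
    rw [Int.abs_eq_natAbs] at h4
    exact_mod_cast h4
  have h5 : cz (w j) ≤ 2 * (A * Q) := by omega
  have h6 : av v (ω j) ≤ C0 * (k : ℝ) :=
    (hC _ v).trans (mul_le_mul_of_nonneg_left (by exact_mod_cast h1) (Nat.cast_nonneg _))
  have h7 : av v (w j) ≤ C0 * (2 * ((A : ℝ) * Q)) :=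
    (hC _ v).trans (mul_le_mul_of_nonneg_left (by exact_mod_cast h5) (Nat.cast_nonneg _))
  have h8 := av_add_le v (ω j) ((k : 𝓞 K) * w j)
  rw [av_mul, av_natCast] at h8
  have h9 : (k : ℝ) * av v (w j) ≤ k * (C0 * (2 * ((A : ℝ) * Q))) :=
    mul_le_mul_of_nonneg_left h7 (Nat.cast_nonneg _)
  have h10 : (C0 : ℝ) * k ≤ C0 * k * (A * Q) := by
    have h11 : (1 : ℝ) ≤ (A : ℝ) * Q := by
      have h12 : 1 ≤ A * Q := Nat.one_le_iff_ne_zero.2 (mul_ne_zero (by omega) (by omega))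
      exact_mod_cast h12
    have h13 : (0 : ℝ) ≤ (C0 : ℝ) * k := by positivity
    nlinarith
  have h14 : ((3 * C0 * k * A * Q : ℕ) : ℝ) = C0 * k * (A * Q) + k * (C0 * (2 * ((A : ℝ) * Q))) := by
    push_cast
    ring
  rw [h14]
  linarith

end FDI_aux

theorem thm_FDI : St_FDI := by
  intro K _ _ r D m hD hm g hg kap hkap hdgn c v hpar A b k hA hb hk hbk
  obtain ⟨C3, hC3, h3⟩ := hdgn
  obtain ⟨C0, hC0, hC, -⟩ := thm_CMP K
  have hA' : 1 ≤ 3 * C0 * k * A :=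
    Nat.one_le_iff_ne_zero.2 (mul_ne_zero (mul_ne_zero (mul_ne_zero (by omega) (by omega))
      (by omega)) (by omega))
  have hA'' : (0 : ℝ) < ((3 * C0 * k * A : ℕ) : ℝ) := by exact_mod_cast hA'
  refine ⟨((2 : ℝ) ^ D) ^ dg K * C3 * ((((3 * C0 * k * A : ℕ) : ℝ) ^ r) ^ dg K) ^ 2 *
      ((((3 * C0 * k * A : ℕ) : ℝ) ^ kap) ^ dg K * (((2 : ℝ) ^ v) ^ kap) ^ dg K),
    by positivity, fun t ht V H hCR ω hω hbω e L he hL => ?_⟩
  have hV : 1 ≤ V := le_trans (Nat.one_le_pow _ _ ht) hCR.1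
  have hX : 1 ≤ XC 2 c t := Nat.one_le_pow _ _ ht
  have hQ : 1 ≤ QN 2 m c t V :=
    Nat.one_le_iff_ne_zero.2 (mul_ne_zero (pow_ne_zero _ (by omega)) (by omega))
  have hpar' : kap * (m * (c * ((2 - 1 : ℕ) : ℝ) + 1) + v) + 2 ≤
      ((2 : ℕ) : ℝ) * (c * ((2 - 1 : ℕ) : ℝ) + 1) := by
    have h4 : ((2 - 1 : ℕ) : ℝ) = 1 := by norm_num
    rw [h4, mul_one]
    push_cast
    exact hpar
  have key := FAMG_diag g kap C3 hkap hC3 h3 2 m c v (3 * C0 * k * A) 1 hA' hpar' t V H ht hCR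
  refine le_trans ?_ key
  have hk0 : (k : 𝓞 K) ≠ 0 := by exact_mod_cast (by omega : k ≠ 0)
  have hcard : ((BK g k ω e L ×ˢ BK g k ω e L).filter fun p =>
        aK g b k ω p.1 = aK g b k ω p.2).card ≤
      ((BG g 1 (3 * C0 * k * A * QN 2 m c t V) ×ˢ BG g 1 (3 * C0 * k * A * QN 2 m c t V)).filter
        fun p => aG g 1 p.1 = aG g 1 p.2).card := by
    refine Finset.card_le_card_of_injOn
      (fun p => ((fun j => ω j + k * p.1 j, fun j => ω j + k * p.2 j) :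
        (Fin r → 𝓞 K) × (Fin r → 𝓞 K))) (fun p hp => ?_) fun p _ p' _ hpp => ?_
    · have h4 := Finset.mem_filter.1 (Finset.mem_coe.1 hp)
      have h5 := Finset.mem_product.1 h4.1
      have e1 := aG_mul (FDI_dvd g hbk ω p.1 hbω)
      have e2 := aG_mul (FDI_dvd g hbk ω p.2 hbω)
      have e3 : ev g (fun j => ω j + k * p.1 j) = ev g (fun j => ω j + k * p.2 j) := by
        rw [← e1, ← e2]
        exact congrArg (fun z => (b : 𝓞 K) * z) h4.2
      have h6 : ∀ z : Fin r → 𝓞 K, ((1 : ℕ) : 𝓞 K) ∣ ev g z := fun z => by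
        rw [Nat.cast_one]
        exact one_dvd _
      have h7 : ∀ z : Fin r → 𝓞 K, aG g 1 z = ev g z := fun z => by
        have h8 := aG_mul (h6 z)
        rwa [Nat.cast_one, one_mul] at h8
      have h9 : ∀ w ∈ BK g k ω e L, (fun j => ω j + k * w j) ∈
          BG g 1 (3 * C0 * k * A * QN 2 m c t V) := fun w hw =>
        Finset.mem_filter.2 ⟨FDI_box hC hA hQ g hω hw he hL, h6 _, (Finset.mem_filter.1 hw).2⟩
      refine Finset.mem_coe.2 (Finset.mem_filter.2 ⟨Finset.mem_product.2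
        ⟨h9 _ h5.1, h9 _ h5.2⟩, ?_⟩)
      change aG g 1 (fun j => ω j + k * p.1 j) = aG g 1 (fun j => ω j + k * p.2 j)
      rw [h7, h7, e3]
    · have inj : ∀ w w' : Fin r → 𝓞 K, (fun j => ω j + k * w j) = (fun j => ω j + k * w' j) →
          w = w' := fun w w' h => funext fun j =>
        mul_left_cancel₀ hk0 (add_left_cancel (congrFun h j))
      exact Prod.ext (inj _ _ (congrArg Prod.fst hpp)) (inj _ _ (congrArg Prod.snd hpp))
  have hcard' : (((BK g k ω e L ×ˢ BK g k ω e L).filter fun p =>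
        aK g b k ω p.1 = aK g b k ω p.2).card : ℝ) ≤
      (((BG g 1 (3 * C0 * k * A * QN 2 m c t V) ×ˢ
        BG g 1 (3 * C0 * k * A * QN 2 m c t V)).filter
        fun p => aG g 1 p.1 = aG g 1 p.2).card : ℝ) := by
    exact_mod_cast hcard
  exact mul_le_mul_of_nonneg_right (mul_le_mul_of_nonneg_right hcard' (Nat.cast_nonneg _))
    (by positivity)

end Pool.Agent.NRN
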