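import Pool.Agent.NRN.StG

/-!
[FLG] the averages over the classes modulo `W` (NRN, block G).

The ideal `V = (W) + I/I` of `O/I` is the kernel of the reduction `O/I → O/(I ⊔ (W))`, so it has
`N(I)/N(I ⊔ (W))` elements, and all the fibres of the reduction have this number of elements.
-/

set_option autoImplicit false

namespace Pool.Agent.NRN

open scoped BigOperators
open Classical NumberField IsDedekindDomain
open Pool.Agent.RHP (Mon mono ev Sys Prim pd WB WW)
open Pool.Agent.RHK Pool.Agent.RHC Pool.Agent.NRM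
open Pool.Agent.RHKB (mI hh jj qv MK uu BadK)
open Pool.Agent.RHCB (BadC cred cemb uk PrC hM f00)

/-- all the fibres of a surjective homomorphism of finite groups have as many elements as the kernel -/
theorem FLG_fib {A B : Type} [AddCommGroup A] [Fintype A] [AddCommGroup B]
    (f : A →+ B) (c : A) :
    (Finset.univ.filter fun x : A => f x = f c).card = (Finset.univ.filter fun x : A => f x = 0).card := by
  refine Finset.card_bij' (fun x _ => x - c) (fun x _ => x + c) ?_ ?_ ?_ ?_
  · intro x hx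
    rw [Finset.mem_filter] at hx ⊢
    exact ⟨Finset.mem_univ _, by rw [map_sub, hx.2, sub_self]⟩
  · intro x hx
    rw [Finset.mem_filter] at hx ⊢
    exact ⟨Finset.mem_univ _, by rw [map_add, hx.2, zero_add]⟩
  · intro x _
    exact sub_add_cancel x c
  · intro x _
    exact add_sub_cancel_right x c

/-- the number of elements of the group is the number of elements of the kernel times that of the image -/
theorem FLG_card {A B : Type} [AddCommGroup A] [Fintype A] [AddCommGroup B] [Fintype B]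
    (f : A →+ B) (hf : Function.Surjective f) :
    (Fintype.card A : ℝ) = ((Finset.univ.filter fun x : A => f x = 0).card : ℝ) * (Fintype.card B : ℝ) := by
  have h1 : Fintype.card A = ∑ b : B, (Finset.univ.filter fun x : A => f x = b).card := by
    rw [← Finset.card_univ]
    exact Finset.card_eq_sum_card_fiberwise (fun x _ => Finset.mem_coe.2 (Finset.mem_univ (f x)))
  have h2 : ∀ b : B, (Finset.univ.filter fun x : A => f x = b).card =
      (Finset.univ.filter fun x : A => f x = 0).card := by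
    intro b
    obtain ⟨c, rfl⟩ := hf b
    exact FLG_fib f c
  rw [h1, Finset.sum_congr rfl (fun b _ => h2 b), Finset.sum_const, Finset.card_univ, smul_eq_mul]
  push_cast
  ring

/-- the averages over the kernel -/
theorem FLG_avg {A B : Type} [AddCommGroup A] [Fintype A] [AddCommGroup B]
    (f : A →+ B) (P : A → ℝ) (U : A → ℝ) (n : ℝ)
    (hU : ∀ c, U c = if f c = 0 then 1 / n else 0) (c : A) :
    ∑ v, U v * P (c - v) =
      1 / n * ∑ c' ∈ Finset.univ.filter (fun c' => f c' = f c), P c' := by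
  have h1 : ∑ v, U v * P (c - v) = ∑ v ∈ Finset.univ.filter (fun v => f v = 0), 1 / n * P (c - v) := by
    rw [Finset.sum_filter]
    refine Finset.sum_congr rfl fun v _ => ?_
    rw [hU v]
    split_ifs
    · rfl
    · ring
  rw [h1, ← Finset.mul_sum]
  congr 1
  refine Finset.sum_bij' (fun v _ => c - v) (fun v _ => c - v) ?_ ?_ ?_ ?_ ?_
  · intro v hv
    rw [Finset.mem_filter] at hv ⊢
    exact ⟨Finset.mem_univ _, by rw [map_sub, hv.2, sub_zero]⟩
  · intro v hv
    rw [Finset.mem_filter] at hv ⊢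
    exact ⟨Finset.mem_univ _, by rw [map_sub, hv.2, sub_self]⟩
  · intro v _
    exact sub_sub_cancel c v
  · intro v _
    exact sub_sub_cancel c v
  · intro v _
    rfl

/-- the sum of the squares of the averages -/
theorem FLG_abs {A B : Type} [AddCommGroup A] [Fintype A] [AddCommGroup B] [Fintype B]
    (f : A →+ B) (hf : Function.Surjective f) (P : A → ℝ) (Q : B → ℝ)
    (hQ : ∀ b, Q b = ∑ c' ∈ Finset.univ.filter (fun c' => f c' = b), P c') (U : A → ℝ)
    (hU : ∀ c, U c = if f c = 0 then 1 / ((Finset.univ.filter fun x : A => f x = 0).card : ℝ) else 0) :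
    ((Finset.univ.filter fun x : A => f x = 0).card : ℝ) * ∑ c, (∑ v, U v * P (c - v)) ^ 2 =
      ∑ b, Q b ^ 2 := by
  have hn : ((Finset.univ.filter fun x : A => f x = 0).card : ℝ) ≠ 0 := by
    have : 0 < (Finset.univ.filter fun x : A => f x = 0).card :=
      Finset.card_pos.2 ⟨0, Finset.mem_filter.2 ⟨Finset.mem_univ _, map_zero f⟩⟩
    exact_mod_cast this.ne'
  have h1 : ∀ c, (∑ v, U v * P (c - v)) ^ 2 =
      (1 / ((Finset.univ.filter fun x : A => f x = 0).card : ℝ)) ^ 2 * Q (f c) ^ 2 := by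
    intro c
    rw [FLG_avg f P U _ hU c, ← hQ (f c), mul_pow]
  rw [Finset.sum_congr rfl (fun c _ => h1 c), ← Finset.mul_sum]
  have h2 : ∑ c, Q (f c) ^ 2 =
      ((Finset.univ.filter fun x : A => f x = 0).card : ℝ) * ∑ b, Q b ^ 2 := by
    rw [← Finset.sum_fiberwise_of_maps_to (s := (Finset.univ : Finset A)) (t := (Finset.univ : Finset B))
      (g := fun c => f c) (fun c _ => Finset.mem_univ _) (fun c => Q (f c) ^ 2), Finset.mul_sum]
    refine Finset.sum_congr rfl fun b _ => ?_
    obtain ⟨c, rfl⟩ := hf b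
    have h3 : ∀ x ∈ Finset.univ.filter (fun x : A => f x = f c), Q (f x) ^ 2 = Q (f c) ^ 2 := by
      intro x hx
      rw [(Finset.mem_filter.1 hx).2]
    rw [Finset.sum_congr rfl h3, Finset.sum_const, FLG_fib f c, nsmul_eq_mul]
  rw [h2]
  field_simp

section ideals

variable {K : Type} [Field K] [NumberField K]

omit [NumberField K] in
/-- the image of `J` in `O/I` is the kernel of the reduction modulo `I ⊔ J` -/
theorem FLG_ker (I J : Ideal (𝓞 K)) (c : 𝓞 K ⧸ I) :
    c ∈ Ideal.map (Ideal.Quotient.mk I) J ↔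
      Ideal.Quotient.factor (le_sup_left : I ≤ I ⊔ J) c = 0 := by
  obtain ⟨x, rfl⟩ := Ideal.Quotient.mk_surjective c
  rw [Ideal.mem_quotient_iff_mem_sup, Ideal.Quotient.factor_mk, Ideal.Quotient.eq_zero_iff_mem, sup_comm]

end ideals

theorem thm_FLG (h1 : St_GBA) : St_FLG := by
  intro K _ _ r a ha I W hI hW _
  obtain ⟨g1, -, g3, -⟩ := h1 K r a ha I hI
  have hJ : I ⊔ Ideal.span {(W : 𝓞 K)} ≠ ⊥ := by
    intro h
    exact hI (le_bot_iff.1 (h ▸ (le_sup_left : I ≤ I ⊔ Ideal.span {(W : 𝓞 K)})))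
  obtain ⟨k1, -⟩ := h1 K r a ha (I ⊔ Ideal.span {(W : 𝓞 K)}) hJ
  set J : Ideal (𝓞 K) := I ⊔ Ideal.span {(W : 𝓞 K)} with hJdef
  have hIJ : I ≤ J := le_sup_left
  have hsurj : Function.Surjective (Ideal.Quotient.factor hIJ) := Ideal.Quotient.factor_surjective hIJ
  let _ : Fintype (𝓞 K ⧸ J) := Fintype.ofSurjective _ hsurj
  let f : (𝓞 K ⧸ I) →+ (𝓞 K ⧸ J) := (Ideal.Quotient.factor hIJ).toAddMonoidHom
  have hf : Function.Surjective f := hsurj
  have hfv : ∀ c, f c = Ideal.Quotient.factor hIJ c := fun _ => rfl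
  have hker : ∀ c : 𝓞 K ⧸ I, c ∈ Ideal.map (Ideal.Quotient.mk I) (Ideal.span {(W : 𝓞 K)}) ↔ f c = 0 :=
    fun c => FLG_ker I _ c
  have hcI : (Ideal.absNorm I : ℝ) = (Fintype.card (𝓞 K ⧸ I) : ℝ) := by
    rw [Ideal.absNorm_apply, Submodule.cardQuot_apply, Nat.card_eq_fintype_card]
  have hcJ : (Ideal.absNorm J : ℝ) = (Fintype.card (𝓞 K ⧸ J) : ℝ) := by
    rw [Ideal.absNorm_apply, Submodule.cardQuot_apply, Nat.card_eq_fintype_card]
  have hcV : (Nat.card (Ideal.map (Ideal.Quotient.mk I) (Ideal.span {(W : 𝓞 K)})) : ℝ) =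
      ((Finset.univ.filter fun x : 𝓞 K ⧸ I => f x = 0).card : ℝ) := by
    rw [Nat.card_eq_fintype_card, Fintype.card_subtype]
    congr 2
    ext c
    simp only [Finset.mem_filter, Finset.mem_univ, true_and]
    exact hker c
  have hcard := FLG_card f hf
  have hposJ : (0 : ℝ) < (Fintype.card (𝓞 K ⧸ J) : ℝ) := by
    exact_mod_cast Fintype.card_pos
  have hn : (0 : ℝ) < ((Finset.univ.filter fun x : 𝓞 K ⧸ I => f x = 0).card : ℝ) := by
    have : 0 < (Finset.univ.filter fun x : 𝓞 K ⧸ I => f x = 0).card :=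
      Finset.card_pos.2 ⟨0, Finset.mem_filter.2 ⟨Finset.mem_univ _, map_zero f⟩⟩
    exact_mod_cast this
  have hq : (Ideal.absNorm J : ℝ) / (Ideal.absNorm I : ℝ) =
      1 / ((Finset.univ.filter fun x : 𝓞 K ⧸ I => f x = 0).card : ℝ) := by
    rw [hcI, hcJ, hcard]
    field_simp
  have hUV : ∀ c, UV I W c = if f c = 0 then
      1 / ((Finset.univ.filter fun x : 𝓞 K ⧸ I => f x = 0).card : ℝ) else 0 := by
    intro c
    unfold UV
    rw [← hJdef, hq]
    exact if_congr (hker c) rfl rfl
  refine ⟨?_, ?_⟩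
  · intro c
    rw [hUV c, hcV]
    exact if_congr (hker c).symm rfl rfl
  · have h5 := FLG_abs f hf (PQ a I) (PQ a J) (fun b => g3 J hIJ b) (UV I W) hUV
    have h6 := k1
    rw [h6, hcI, hcJ, hcard, ← h5]
    ring

end Pool.Agent.NRN
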