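import Pool.Agent.NRN.FDI

/-!
NRN, FLI: the Lipschitz bound for the families of the values of `g` on cubes.
-/

set_option autoImplicit false

namespace Pool.Agent.NRN

open scoped BigOperators
open Classical NumberField IsDedekindDomain
open Pool.Agent.RHP (Mon mono ev Sys Prim pd WB WW)
open Pool.Agent.RHK Pool.Agent.RHC Pool.Agent.NRM

section FLI_aux

variable {K : Type} [Field K] [NumberField K] {r D : ℕ}

/-- powers -/
theorem FLI_pow (v : InfinitePlace K) {R S : ℝ} (hR : 0 ≤ R) (hS : 0 ≤ S) {a b : 𝓞 K}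
    (ha : av v a ≤ R) (hb : av v b ≤ R) (hab : av v (a - b) ≤ S) (n : ℕ) :
    av v (a ^ n - b ^ n) * R ≤ n * S * R ^ n := by
  induction n with
  | zero => simp [av_zero]
  | succ n ih =>
    have e : a ^ (n + 1) - b ^ (n + 1) = a * (a ^ n - b ^ n) + (a - b) * b ^ n := by ring
    have h1 := av_add_le v (a * (a ^ n - b ^ n)) ((a - b) * b ^ n)
    rw [av_mul, av_mul, av_pow] at h1
    have h2 : av v a * av v (a ^ n - b ^ n) ≤ R * av v (a ^ n - b ^ n) :=
      mul_le_mul_of_nonneg_right ha (av_nonneg v _)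
    have h3 : av v (a - b) * av v b ^ n ≤ S * R ^ n :=
      mul_le_mul hab (pow_le_pow_left₀ (av_nonneg v _) hb n) (pow_nonneg (av_nonneg v _) n) hS
    rw [e]
    calc av v (a * (a ^ n - b ^ n) + (a - b) * b ^ n) * R
        ≤ (R * av v (a ^ n - b ^ n) + S * R ^ n) * R :=
          mul_le_mul_of_nonneg_right (by linarith) hR
      _ = R * (av v (a ^ n - b ^ n) * R) + S * R ^ (n + 1) := by ring
      _ ≤ R * (n * S * R ^ n) + S * R ^ (n + 1) := by
          have := mul_le_mul_of_nonneg_left ih hR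
          linarith
      _ = ((n + 1 : ℕ) : ℝ) * S * R ^ (n + 1) := by
          push_cast
          ring

/-- monomials -/
theorem FLI_mono (v : InfinitePlace K) {R S : ℝ} (hR : 0 ≤ R) (hS : 0 ≤ S) {y z : Fin r → 𝓞 K}
    (hy : ∀ j, av v (y j) ≤ R) (hz : ∀ j, av v (z j) ≤ R) (hyz : ∀ j, av v (y j - z j) ≤ S)
    (e : Fin r → ℕ) (J : Finset (Fin r)) :
    av v (∏ j ∈ J, y j ^ e j - ∏ j ∈ J, z j ^ e j) * R ≤
      ((∑ j ∈ J, e j : ℕ) : ℝ) * S * R ^ (∑ j ∈ J, e j) ∧
    av v (∏ j ∈ J, z j ^ e j) ≤ R ^ (∑ j ∈ J, e j) := by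
  induction J using Finset.induction_on with
  | empty => simp [av_zero, av_one]
  | insert i J hi ih =>
    obtain ⟨h1, h2⟩ := ih
    rw [Finset.prod_insert hi, Finset.prod_insert hi, Finset.sum_insert hi]
    have hp := FLI_pow v hR hS (hy i) (hz i) (hyz i) (e i)
    have hyp : av v (y i ^ e i) ≤ R ^ e i := by
      rw [av_pow]
      exact pow_le_pow_left₀ (av_nonneg v _) (hy i) _
    have hzp : av v (z i ^ e i) ≤ R ^ e i := by
      rw [av_pow]
      exact pow_le_pow_left₀ (av_nonneg v _) (hz i) _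
    set P := ∏ j ∈ J, y j ^ e j
    set Z := ∏ j ∈ J, z j ^ e j
    set N := ∑ j ∈ J, e j
    refine ⟨?_, ?_⟩
    · have e1 : y i ^ e i * P - z i ^ e i * Z = y i ^ e i * (P - Z) + (y i ^ e i - z i ^ e i) * Z := by
        ring
      have h3 := av_add_le v (y i ^ e i * (P - Z)) ((y i ^ e i - z i ^ e i) * Z)
      rw [av_mul v (y i ^ e i), av_mul v (y i ^ e i - z i ^ e i)] at h3
      rw [e1]
      have h4 : av v (y i ^ e i) * (av v (P - Z) * R) ≤ R ^ e i * ((N : ℝ) * S * R ^ N) :=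
        mul_le_mul hyp h1 (mul_nonneg (av_nonneg v _) hR) (pow_nonneg hR _)
      have h5 : (av v (y i ^ e i - z i ^ e i) * R) * av v Z ≤ ((e i : ℝ) * S * R ^ e i) * R ^ N :=
        mul_le_mul hp h2 (av_nonneg v _)
          (mul_nonneg (mul_nonneg (Nat.cast_nonneg _) hS) (pow_nonneg hR _))
      calc av v (y i ^ e i * (P - Z) + (y i ^ e i - z i ^ e i) * Z) * R
          ≤ (av v (y i ^ e i) * av v (P - Z) + av v (y i ^ e i - z i ^ e i) * av v Z) * R :=
            mul_le_mul_of_nonneg_right h3 hR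
        _ = av v (y i ^ e i) * (av v (P - Z) * R) +
            (av v (y i ^ e i - z i ^ e i) * R) * av v Z := by ring
        _ ≤ R ^ e i * ((N : ℝ) * S * R ^ N) + ((e i : ℝ) * S * R ^ e i) * R ^ N := add_le_add h4 h5
        _ = ((e i + N : ℕ) : ℝ) * S * R ^ (e i + N) := by
            push_cast
            rw [pow_add]
            ring
    · rw [av_mul, pow_add]
      exact mul_le_mul hzp h2 (av_nonneg v _) (pow_nonneg hR _)

/-- forms -/
theorem FLI_ev (v : InfinitePlace K) {R S : ℝ} (hR : 0 ≤ R) (hS : 0 ≤ S) {y z : Fin r → 𝓞 K}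
    (hy : ∀ j, av v (y j) ≤ R) (hz : ∀ j, av v (z j) ≤ R) (hyz : ∀ j, av v (y j - z j) ≤ S)
    (g : Mon r D → 𝓞 K) :
    av v (ev g y - ev g z) * R ≤ (∑ m, av v (g m)) * (D * S * R ^ D) := by
  have e : ev g y - ev g z = ∑ m : Mon r D, g m * (mono y m.1 - mono z m.1) := by
    unfold ev
    rw [← Finset.sum_sub_distrib]
    exact Finset.sum_congr rfl fun m _ => by ring
  rw [e]
  calc av v (∑ m : Mon r D, g m * (mono y m.1 - mono z m.1)) * R
      ≤ (∑ m : Mon r D, av v (g m * (mono y m.1 - mono z m.1))) * R :=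
        mul_le_mul_of_nonneg_right (av_sum_le v _ _) hR
    _ = ∑ m : Mon r D, av v (g m) * (av v (mono y m.1 - mono z m.1) * R) := by
        rw [Finset.sum_mul]
        refine Finset.sum_congr rfl fun m _ => ?_
        rw [av_mul]
        ring
    _ ≤ ∑ m : Mon r D, av v (g m) * (D * S * R ^ D) := by
        refine Finset.sum_le_sum fun m _ => mul_le_mul_of_nonneg_left ?_ (av_nonneg v _)
        have h := (FLI_mono v hR hS hy hz hyz m.1 Finset.univ).1
        rw [Mon.sum_eq] at h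
        exact h
    _ = _ := by rw [← Finset.sum_mul]

end FLI_aux

theorem thm_FLI : St_FLI := by
  intro K _ _ r D m hD g A b k hA hb hk hbk
  obtain ⟨C0, hC0, hC, -⟩ := thm_CMP K
  let G : ℝ := ∑ v : InfinitePlace K, ∑ m, av v (g m)
  have hG : ∀ v : InfinitePlace K, ∑ m, av v (g m) ≤ G := fun v =>
    Finset.single_le_sum (f := fun v : InfinitePlace K => ∑ m, av v (g m))
      (fun v _ => Finset.sum_nonneg fun m _ => av_nonneg v _) (Finset.mem_univ v)
  have hG0 : 0 ≤ G := Finset.sum_nonneg fun v _ => Finset.sum_nonneg fun m _ => av_nonneg v _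
  -- the coordinates are at most `C1 Q`
  let C1 : ℝ := ((4 * C0 * k * A : ℕ) : ℝ)
  have hC1 : 1 ≤ C1 := by
    have : 1 ≤ 4 * C0 * k * A := Nat.mul_pos (Nat.mul_pos (by omega) (by omega)) (by omega)
    change (1 : ℝ) ≤ ((4 * C0 * k * A : ℕ) : ℝ)
    exact_mod_cast this
  refine ⟨G * (D * (k * C0) * C1 ^ D) + 1, by positivity, ?_⟩
  intro c v t V H ht hCR ω hω hbω e L he hL M hM hMQ w hw δ hδ v
  set Q := QN 2 m c t V with hQdef
  have hQ : 1 ≤ Q := hM.trans hMQ
  have hQ0 : (0 : ℝ) < Q := by exact_mod_cast hQ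
  have hQ1 : (1 : ℝ) ≤ Q := by exact_mod_cast hQ
  have hbox := FDI_box hC hA hQ g hω hw (by exact_mod_cast he) hL
  have hz : ∀ j, av v (ω j + k * w j) ≤ ((3 * C0 * k * A * Q : ℕ) : ℝ) := fun j =>
    mem_pb.1 (Fintype.mem_piFinset.1 hbox j) v
  have hδ' : ∀ j, av v (δ j) ≤ C0 * (M : ℝ) := fun j => by
    have h1 : cz (δ j) ≤ M := mem_cb.1 (Finset.mem_filter.1 (Fintype.mem_piFinset.1 hδ j)).1
    exact (hC _ v).trans (mul_le_mul_of_nonneg_left (by exact_mod_cast h1) (Nat.cast_nonneg _))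
  have hkδ : ∀ j, av v ((k : 𝓞 K) * δ j) ≤ k * (C0 * (M : ℝ)) := fun j => by
    rw [av_mul, av_natCast]
    exact mul_le_mul_of_nonneg_left (hδ' j) (Nat.cast_nonneg _)
  have hdiff : ∀ j, av v ((ω j + k * (w j + δ j)) - (ω j + k * w j)) ≤ k * (C0 * (M : ℝ)) := by
    intro j
    have e1 : (ω j + k * (w j + δ j)) - (ω j + k * w j) = (k : 𝓞 K) * δ j := by ring
    rw [e1]
    exact hkδ j
  have hMQ' : (M : ℝ) ≤ Q := by exact_mod_cast hMQ
  have hA1 : (1 : ℝ) ≤ A := by exact_mod_cast hA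
  have hk0 : (0 : ℝ) ≤ k := Nat.cast_nonneg _
  have hC00 : (0 : ℝ) ≤ C0 := Nat.cast_nonneg _
  have hle : (k : ℝ) * (C0 * (M : ℝ)) ≤ C0 * k * A * Q := by
    have h1 : (k : ℝ) * (C0 * (M : ℝ)) ≤ k * (C0 * (Q : ℝ)) := by gcongr
    have h2 : (k : ℝ) * (C0 * (Q : ℝ)) * 1 ≤ k * (C0 * (Q : ℝ)) * A := by gcongr
    nlinarith
  have hR : ∀ j, av v (ω j + k * w j) ≤ C1 * Q := fun j => by
    have h1 := hz j
    have h2 : ((3 * C0 * k * A * Q : ℕ) : ℝ) ≤ C1 * Q := by
      have : 0 ≤ (C0 : ℝ) * k * A * Q := by positivity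
      simp only [C1]
      push_cast
      nlinarith
    exact h1.trans h2
  have hR' : ∀ j, av v (ω j + k * (w j + δ j)) ≤ C1 * Q := fun j => by
    have e1 : ω j + k * (w j + δ j) = (ω j + k * w j) + (k : 𝓞 K) * δ j := by ring
    rw [e1]
    have h1 := av_add_le v (ω j + k * w j) ((k : 𝓞 K) * δ j)
    have h2 := hz j
    have h3 := hkδ j
    have h4 : ((3 * C0 * k * A * Q : ℕ) : ℝ) + C0 * k * A * Q = C1 * Q := by
      simp only [C1]
      push_cast
      ring
    linarith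
  have hS : (0 : ℝ) ≤ k * (C0 * (M : ℝ)) := by positivity
  have hR0 : 0 ≤ C1 * Q := by positivity
  have h1 := FLI_ev v hR0 hS hR' hR hdiff g
  have e2 := aG_mul (FDI_dvd g hbk ω w hbω)
  have e1 := aG_mul (FDI_dvd g hbk ω (fun j => w j + δ j) hbω)
  have h2 : ev g (fun j => ω j + k * (w j + δ j)) - ev g (fun j => ω j + k * w j) =
      (b : 𝓞 K) * (aK g b k ω (fun j => w j + δ j) - aK g b k ω w) := by
    unfold aK
    rw [mul_sub, e1, e2]
  rw [h2, av_mul, av_natCast] at h1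
  set T := av v (aK g b k ω (fun j => w j + δ j) - aK g b k ω w) with hT
  have hT0 : 0 ≤ T := av_nonneg v _
  have hb1 : (1 : ℝ) ≤ b := by exact_mod_cast hb
  have h3 : T * Q ≤ b * T * (C1 * Q) := by
    have h4 : T * Q * 1 ≤ T * Q * (b * C1) := by
      gcongr
      nlinarith
    nlinarith
  have h5 : (∑ m, av v (g m)) * (D * (k * (C0 * (M : ℝ))) * (C1 * Q) ^ D) ≤
      G * (D * (k * (C0 * (M : ℝ))) * (C1 * Q) ^ D) :=
    mul_le_mul_of_nonneg_right (hG v) (by positivity)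
  have hQD : (Q : ℝ) ^ D ≤ H * (XC 2 c t : ℝ) ^ (D * m) := by
    have h6 : (Q : ℝ) = (XC 2 c t : ℝ) ^ m * V := by
      rw [hQdef]
      unfold QN
      push_cast
      ring
    have h7 : (V : ℝ) ^ D ≤ H := by exact_mod_cast hCR.2.2.1
    rw [h6, mul_pow, ← pow_mul, mul_comm m D, mul_comm]
    exact mul_le_mul_of_nonneg_right h7 (by positivity)
  calc T * Q ≤ G * (D * (k * (C0 * (M : ℝ))) * (C1 * Q) ^ D) := by linarith
    _ = (G * (D * (k * C0) * C1 ^ D)) * M * (Q : ℝ) ^ D := by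
        rw [mul_pow]
        ring
    _ ≤ (G * (D * (k * C0) * C1 ^ D) + 1) * M * (H * (XC 2 c t : ℝ) ^ (D * m)) := by
        have h8 : 0 ≤ G * (D * (k * C0) * C1 ^ D) := by positivity
        have h9 : (0 : ℝ) ≤ M := Nat.cast_nonneg _
        have h10 : (G * (D * (k * C0) * C1 ^ D)) * M ≤ (G * (D * (k * C0) * C1 ^ D) + 1) * M := by
          nlinarith
        exact mul_le_mul h10 hQD (by positivity) (by positivity)

end Pool.Agent.NRN
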