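import Pool.Agent.NRN.StG

/-!
NRN, module FLM (helper92): finite rings: inner products, averages over an ideal, Cauchy-Schwarz.
-/

set_option autoImplicit false

namespace Pool.Agent.NRN

open scoped BigOperators
open Classical

section FLM

variable {Z : Type} [CommRing Z] [Fintype Z]

theorem FLM_bij (f : Z → ℝ) (lam : Zˣ) (v : Z) : ∑ c, f (lam * c - v) = ∑ c, f c :=
  Equiv.sum_comp ((Units.mulLeft lam).trans (Equiv.subRight v)) f

theorem FLM_bij' (f : Z → ℝ) (u : Z) : ∑ c, f (c - u) = ∑ c, f c :=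
  Equiv.sum_comp (Equiv.subRight u) f

theorem FLM_le (f : Z → ℝ) (lam : Zˣ) (u v : Z) :
    ∑ c, f (c - u) * f (lam * c - v) ≤ ∑ c, f c ^ 2 := by
  have h1 : ∀ c, f (c - u) * f (lam * c - v) ≤
      (1 / 2) * f (c - u) ^ 2 + (1 / 2) * f (lam * c - v) ^ 2 := by
    intro c
    nlinarith [sq_nonneg (f (c - u) - f (lam * c - v))]
  refine (Finset.sum_le_sum fun c _ => h1 c).trans ?_
  rw [Finset.sum_add_distrib, ← Finset.mul_sum, ← Finset.mul_sum,
    FLM_bij' (fun c => f c ^ 2) u, FLM_bij (fun c => f c ^ 2) lam v]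
  linarith

theorem FLM_abs (f : Z → ℝ) (lam : Zˣ) : |∑ c, f c * f (lam * c)| ≤ ∑ c, f c ^ 2 := by
  have h0 : ∑ c, f (lam * c) ^ 2 = ∑ c, f c ^ 2 := by
    have h := FLM_bij (fun c => f c ^ 2) lam 0
    simpa using h
  rw [abs_le]
  constructor
  · have h1 : ∀ c, -(f c * f (lam * c)) ≤ (1 / 2) * f c ^ 2 + (1 / 2) * f (lam * c) ^ 2 := by
      intro c
      nlinarith [sq_nonneg (f c + f (lam * c))]
    have h2 := Finset.sum_le_sum (s := Finset.univ) fun c _ => h1 c
    rw [Finset.sum_add_distrib, ← Finset.mul_sum, ← Finset.mul_sum, h0,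
      Finset.sum_neg_distrib] at h2
    linarith
  · have h1 : ∀ c, f c * f (lam * c) ≤ (1 / 2) * f c ^ 2 + (1 / 2) * f (lam * c) ^ 2 := by
      intro c
      nlinarith [sq_nonneg (f c - f (lam * c))]
    have h2 := Finset.sum_le_sum (s := Finset.univ) fun c _ => h1 c
    rw [Finset.sum_add_distrib, ← Finset.mul_sum, ← Finset.mul_sum, h0] at h2
    linarith

/-- the expansion of the alternating sum -/
theorem FLM_exp (P T : Z → ℝ) (lam : Zˣ) :
    ∑ c, P c * P (lam * c) - ∑ v, T v * ∑ c, P c * P (lam * c - v) -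
        ∑ u, T u * ∑ c, P (c - u) * P (lam * c) +
        ∑ u, ∑ v, T u * T v * ∑ c, P (c - u) * P (lam * c - v) =
      ∑ c, (P c - ∑ v, T v * P (c - v)) * (P (lam * c) - ∑ v, T v * P (lam * c - v)) := by
  have h1 : ∑ v, T v * ∑ c, P c * P (lam * c - v) =
      ∑ c, P c * ∑ v, T v * P (lam * c - v) := by
    simp only [Finset.mul_sum]
    rw [Finset.sum_comm]
    refine Finset.sum_congr rfl fun c _ => Finset.sum_congr rfl fun v _ => ?_
    ring
  have h2 : ∑ u, T u * ∑ c, P (c - u) * P (lam * c) =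
      ∑ c, (∑ u, T u * P (c - u)) * P (lam * c) := by
    simp only [Finset.mul_sum, Finset.sum_mul]
    rw [Finset.sum_comm]
    refine Finset.sum_congr rfl fun c _ => Finset.sum_congr rfl fun v _ => ?_
    ring
  have h3 : ∑ u, ∑ v, T u * T v * ∑ c, P (c - u) * P (lam * c - v) =
      ∑ c, (∑ u, T u * P (c - u)) * ∑ v, T v * P (lam * c - v) := by
    have h4 : ∀ u, ∑ v, T u * T v * ∑ c, P (c - u) * P (lam * c - v) =
        ∑ c, (T u * P (c - u)) * ∑ v, T v * P (lam * c - v) := by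
      intro u
      simp only [Finset.mul_sum]
      rw [Finset.sum_comm]
      refine Finset.sum_congr rfl fun c _ => Finset.sum_congr rfl fun v _ => ?_
      ring
    rw [Finset.sum_congr rfl fun u _ => h4 u, Finset.sum_comm]
    refine Finset.sum_congr rfl fun c _ => ?_
    rw [Finset.sum_mul]
  rw [h1, h2, h3, ← Finset.sum_sub_distrib, ← Finset.sum_sub_distrib, ← Finset.sum_add_distrib]
  refine Finset.sum_congr rfl fun c _ => ?_
  ring

/-- the average over an ideal is an orthogonal projection -/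
theorem FLM_proj (P U : Z → ℝ) (V : Ideal Z)
    (hU : ∀ c, U c = if c ∈ V then 1 / (Nat.card V : ℝ) else 0) :
    ∑ c, (P c - ∑ v, U v * P (c - v)) ^ 2 = ∑ c, P c ^ 2 - ∑ c, (∑ v, U v * P (c - v)) ^ 2 := by
  have hcard : (Nat.card V : ℝ) ≠ 0 := by
    have : Nonempty V := ⟨0⟩
    exact_mod_cast Nat.card_pos.ne'
  have h1 : ∑ v, U v = 1 := by
    have h2 : ∑ v, U v = ∑ v : Z, if v ∈ V then 1 / (Nat.card V : ℝ) else 0 :=
      Finset.sum_congr rfl fun v _ => hU v
    rw [h2, Finset.sum_ite, Finset.sum_const_zero, add_zero, Finset.sum_const, nsmul_eq_mul]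
    have h3 : (Finset.univ.filter fun v => v ∈ V).card = Nat.card V := by
      rw [Nat.card_eq_fintype_card, Fintype.card_subtype]
    rw [h3]
    field_simp
  have h2 : ∀ c v, v ∈ V → ∑ w, U w * P (c + v - w) = ∑ w, U w * P (c - w) := by
    intro c v hv
    rw [← Equiv.sum_comp (Equiv.addRight v) (fun w => U w * P (c + v - w))]
    refine Finset.sum_congr rfl fun w _ => ?_
    have h3 : U (w + v) = U w := by
      rw [hU, hU]
      by_cases hw : w ∈ V
      · rw [if_pos (V.add_mem hw hv), if_pos hw]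
      · rw [if_neg hw, if_neg]
        intro h
        apply hw
        have h4 := V.sub_mem h hv
        rwa [add_sub_cancel_right] at h4
    change U (w + v) * P (c + v - (w + v)) = _
    rw [h3, add_sub_add_right_eq_sub]
  have h3 : ∑ c, (∑ v, U v * P (c - v)) ^ 2 = ∑ c, P c * ∑ v, U v * P (c - v) := by
    have h4 : ∑ c, (∑ v, U v * P (c - v)) ^ 2 =
        ∑ v, U v * ∑ c, (∑ w, U w * P (c - w)) * P (c - v) := by
      have h5 : ∀ c, (∑ v, U v * P (c - v)) ^ 2 =
          ∑ v, U v * ((∑ w, U w * P (c - w)) * P (c - v)) := by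
        intro c
        rw [sq]
        conv_lhs => rw [Finset.mul_sum]
        refine Finset.sum_congr rfl fun v _ => ?_
        ring
      rw [Finset.sum_congr rfl fun c _ => h5 c, Finset.sum_comm]
      refine Finset.sum_congr rfl fun v _ => ?_
      rw [Finset.mul_sum]
    rw [h4]
    have h6 : ∀ v, U v * ∑ c, (∑ w, U w * P (c - w)) * P (c - v) =
        U v * ∑ c, P c * ∑ w, U w * P (c - w) := by
      intro v
      by_cases hv : v ∈ V
      · congr 1
        rw [← Equiv.sum_comp (Equiv.addRight v)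
          (fun c => (∑ w, U w * P (c - w)) * P (c - v))]
        refine Finset.sum_congr rfl fun c _ => ?_
        change (∑ w, U w * P (c + v - w)) * P (c + v - v) = _
        rw [h2 c v hv, add_sub_cancel_right, mul_comm]
      · rw [hU v, if_neg hv, zero_mul, zero_mul]
    rw [Finset.sum_congr rfl fun v _ => h6 v, ← Finset.sum_mul, h1, one_mul]
  have h4 : ∀ c, (P c - ∑ v, U v * P (c - v)) ^ 2 =
      P c ^ 2 - 2 * (P c * ∑ v, U v * P (c - v)) + (∑ v, U v * P (c - v)) ^ 2 := by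
    intro c
    ring
  rw [Finset.sum_congr rfl fun c _ => h4 c, Finset.sum_add_distrib, Finset.sum_sub_distrib,
    ← Finset.mul_sum, ← h3]
  ring

end FLM

theorem thm_FLM : St_FLM := by
  intro Z _ _ P T U V lam η hη hP hU hT
  refine ⟨?_, fun u v => ⟨Finset.sum_nonneg fun c _ => mul_nonneg (hP _) (hP _),
    FLM_le P lam u v⟩⟩
  rw [FLM_exp P T lam]
  refine (FLM_abs (fun c => P c - ∑ v, T v * P (c - v)) lam).trans ?_
  have h1 := FLM_proj P U V hU
  have hU0 : ∀ c, 0 ≤ U c := by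
    intro c
    rw [hU]
    split_ifs
    · positivity
    · exact le_rfl
  have h2 : ∀ c, (∑ v, U v * P (c - v) - ∑ v, T v * P (c - v)) ^ 2 ≤
      η ^ 2 * (∑ v, U v * P (c - v)) ^ 2 := by
    intro c
    have h3 : |∑ v, U v * P (c - v) - ∑ v, T v * P (c - v)| ≤ η * ∑ v, U v * P (c - v) := by
      rw [← Finset.sum_sub_distrib, Finset.mul_sum]
      refine (Finset.abs_sum_le_sum_abs _ _).trans (Finset.sum_le_sum fun v _ => ?_)
      rw [← sub_mul, abs_mul, abs_of_nonneg (hP (c - v)), ← mul_assoc]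
      refine mul_le_mul_of_nonneg_right ?_ (hP _)
      rw [abs_sub_comm]
      exact hT v
    have h4 := sq_le_sq' (by linarith [(abs_le.1 h3).1]) (abs_le.1 h3).2
    calc (∑ v, U v * P (c - v) - ∑ v, T v * P (c - v)) ^ 2 ≤ (η * ∑ v, U v * P (c - v)) ^ 2 := h4
      _ = η ^ 2 * (∑ v, U v * P (c - v)) ^ 2 := by ring
  have h3 : ∀ c, (P c - ∑ v, T v * P (c - v)) ^ 2 ≤ 2 * (P c - ∑ v, U v * P (c - v)) ^ 2 +
      2 * (η ^ 2 * (∑ v, U v * P (c - v)) ^ 2) := by
    intro c
    have h4 := h2 c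
    nlinarith [sq_nonneg ((P c - ∑ v, U v * P (c - v)) -
      (∑ v, U v * P (c - v) - ∑ v, T v * P (c - v)))]
  refine (Finset.sum_le_sum fun c _ => h3 c).trans ?_
  rw [Finset.sum_add_distrib, ← Finset.mul_sum, ← Finset.mul_sum, ← Finset.mul_sum, h1]
  have h4 : ∑ c, (∑ v, U v * P (c - v)) ^ 2 ≤ ∑ c, P c ^ 2 := by
    have h5 : 0 ≤ ∑ c, (P c - ∑ v, U v * P (c - v)) ^ 2 :=
      Finset.sum_nonneg fun c _ => sq_nonneg _
    linarith
  have h5 : η ^ 2 * ∑ c, (∑ v, U v * P (c - v)) ^ 2 ≤ η ^ 2 * ∑ c, P c ^ 2 :=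
    mul_le_mul_of_nonneg_left h4 (sq_nonneg η)
  linarith

end Pool.Agent.NRN

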