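import Pool.Agent.NRN.StF
import Pool.Agent.NRM.FINN
import Pool.Agent.RHKB.CUP
import Pool.Agent.RHP.Ev

/-!
NRN, module FN1: the conclusion for finitely many cells (port of NRM/FINN.lean with cubes).
-/

set_option autoImplicit false

namespace Pool.Agent.NRN

open scoped BigOperators
open Classical NumberField IsDedekindDomain
open Pool.Agent.RHP (Mon mono ev Sys Prim pd WB WW WW_pos dvd_WW ev_map)
open Pool.Agent.RHK Pool.Agent.RHC Pool.Agent.NRM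
open Pool.Agent.RHKB (mI hh jj qv MK uu BadK)
open Pool.Agent.RHCB (BadC cred cemb uk PrC hM f00)
open Pool.Agent.RHCW (cmk)

section

variable {K : Type} [Field K] [NumberField K] {r D m : ℕ}

omit [NumberField K] in
/-- the values of a form at points congruent modulo `b` -/
theorem FN1_dvd (g : Mon r D → 𝓞 K) {b k : ℕ} (hbk : b ∣ k) (ω w : Fin r → 𝓞 K)
    (h : (b : 𝓞 K) ∣ ev g ω) : (b : 𝓞 K) ∣ ev g (fun j => ω j + k * w j) := by
  have h1 : Ideal.Quotient.mk (Ideal.span {(b : 𝓞 K)}) (ev g (fun j => ω j + k * w j)) =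
      Ideal.Quotient.mk (Ideal.span {(b : 𝓞 K)}) (ev g ω) := by
    rw [← ev_map, ← ev_map]
    congr 1
    funext j
    rw [Ideal.Quotient.eq, Ideal.mem_span_singleton]
    obtain ⟨l, hl⟩ := hbk
    refine ⟨(l : 𝓞 K) * w j, ?_⟩
    rw [hl]
    push_cast
    ring
  have h2 : Ideal.Quotient.mk (Ideal.span {(b : 𝓞 K)}) (ev g ω) = 0 := by
    rw [Ideal.Quotient.eq_zero_iff_mem, Ideal.mem_span_singleton]
    exact h
  rw [h2, Ideal.Quotient.eq_zero_iff_mem, Ideal.mem_span_singleton] at h1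
  exact h1

/-- a good point over the cube -/
theorem FN1_point {g : Mon r D → 𝓞 K} {b k : ℕ} (hbk : b ∣ k) {ω : Fin r → 𝓞 K}
    (hω : (b : 𝓞 K) ∣ ev g ω) {e : Fin r → IX K → ℤ} {L : ℕ} {P' : Set (Fin 2 → 𝓞 K)} {c t : ℕ}
    {f : Mon 2 (D * m) → 𝓞 K}
    (h : NA (BK g k ω e L) (aK g b k ω) {p | p.1 ∈ P'} c t f ≠ 0) :
    ∃ (x : Fin 2 → 𝓞 K) (w : Fin r → 𝓞 K), Prim x ∧ x ∈ P' ∧ w ∈ BK g k ω e L ∧
      (b : 𝓞 K) * ev f x = ev g (fun j => ω j + k * w j) := by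
  unfold NA at h
  obtain ⟨x, hx, h1⟩ := Finset.exists_ne_zero_of_sum_ne_zero h
  obtain ⟨w, hw, h2⟩ := Finset.exists_ne_zero_of_sum_ne_zero h1
  have hP : (x, w) ∈ ({p | p.1 ∈ P'} : Set ((Fin 2 → 𝓞 K) × (Fin r → 𝓞 K))) := by
    by_contra h3
    exact h2 (if_neg h3)
  rw [if_pos hP] at h2
  have h3 : ev f x = aK g b k ω w := by
    by_contra h3
    exact h2 (if_neg h3)
  unfold CG at hx
  rw [Finset.mem_filter] at hx
  refine ⟨x, w, hx.2.1, hP, hw, ?_⟩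
  rw [h3]
  unfold aK
  exact aG_mul (FN1_dvd g hbk ω w hω)

/-- a large sum has a large term -/
theorem FN1_term {ι : Type} (S : Finset ι) (F : ι → ℝ) (γ : ℝ) (hγ : 0 < γ)
    (h : γ ≤ ∑ i ∈ S, F i) : ∃ i ∈ S, γ / (S.card + 1) ≤ F i := by
  by_contra hcon
  push Not at hcon
  have h1 : ∑ i ∈ S, F i ≤ ∑ _i ∈ S, γ / (S.card + 1) :=
    Finset.sum_le_sum fun i hi => (hcon i hi).le
  rw [Finset.sum_const, nsmul_eq_mul] at h1
  have h2 : (0 : ℝ) < (S.card : ℝ) + 1 := by positivity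
  have h3 : (S.card : ℝ) * (γ / (S.card + 1)) < γ := by
    rw [← mul_div_assoc, div_lt_iff₀ h2]
    nlinarith
  linarith

omit [NumberField K] in
/-- points of a cube near a point of the cell -/
theorem FN1_cell {q : ℕ} {ρ₀ : Fin 2 → 𝓞 K} {ω₀ : Fin r → 𝓞 K}
    {y : (v : InfinitePlace K) → Fin r ⊕ Fin 2 → v.Completion} {η : ℝ} {X dl Q : ℕ}
    {x x₀ : Fin 2 → 𝓞 K} {w w₀ : Fin r → 𝓞 K}
    (h₀ : (x₀, w₀) ∈ CellN q ρ₀ ω₀ y (2 * η) X (dl * Q))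
    (hx1 : ∀ l, (q : 𝓞 K) ∣ x l - ρ₀ l)
    (hx2 : ∀ (v : InfinitePlace K) (l : Fin 2),
      ‖jj v.Completion (x l) - (X : v.Completion) * y v (Sum.inr l)‖ ≤ (3 * η) * X)
    (hw1 : ∀ j, (q : 𝓞 K) ∣ w j - w₀ j)
    (hw2 : ∀ (v : InfinitePlace K) (j : Fin r), av v (w j - w₀ j) ≤ (η * dl) * Q) :
    (x, w) ∈ CellN q ρ₀ ω₀ y (3 * η) X (dl * Q) := by
  obtain ⟨⟨-, h1⟩, h2⟩ := h₀
  refine ⟨⟨hx1, fun j => ?_⟩, fun v => ⟨hx2 v, fun j => ?_⟩⟩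
  · have h3 := dvd_add (hw1 j) (h1 j)
    have h4 : w j - w₀ j + (w₀ j - ω₀ j) = w j - ω₀ j := by ring
    rw [← h4]
    exact h3
  · have h3 := (h2 v).2 j
    have h4 : jj v.Completion (w j) - ((dl * Q : ℕ) : v.Completion) * y v (Sum.inl j) =
        jj v.Completion (w j - w₀ j) +
          (jj v.Completion (w₀ j) - ((dl * Q : ℕ) : v.Completion) * y v (Sum.inl j)) := by
      rw [map_sub]
      ring
    change ‖jj v.Completion (w j) - ((dl * Q : ℕ) : v.Completion) * y v (Sum.inl j)‖ ≤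
      3 * η * ((dl * Q : ℕ) : ℝ)
    rw [h4]
    refine (norm_add_le _ _).trans ?_
    rw [Pool.Agent.RHKB.CUP_jj]
    have h5 := add_le_add (hw2 v j) h3
    refine h5.trans (le_of_eq ?_)
    push_cast
    ring

end

theorem thm_FN1 (h1 : St_LL1) (h2 : St_CUB) : St_FN1 := by
  intro K _ _ D m hD hm g hg hS par ε hε
  obtain ⟨p00, hp⟩ := h1 K 2 D D m ⟨le_rfl, hD, hm⟩ g hg hS (ε / 2) (by positivity)
  refine ⟨p00, fun p0 hp0 B dl q hdl hq hdlp hqp η hη hη' T => ?_⟩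
  obtain ⟨c, v, hc, hv, sm, hfam⟩ := par
  obtain ⟨A, hA⟩ : ∃ A : ℕ, A = dl * (B + 1) := ⟨_, rfl⟩
  obtain ⟨b, hb⟩ : ∃ b : ℕ, b = dl ^ D := ⟨_, rfl⟩
  obtain ⟨k, hk⟩ : ∃ k : ℕ, k = b * q := ⟨_, rfl⟩
  have hA1 : 1 ≤ A := by
    rw [hA]
    exact Nat.mul_pos hdl (Nat.succ_pos B)
  have hb1 : 1 ≤ b := by
    rw [hb]
    exact Nat.pow_pos hdl
  have hk1 : 1 ≤ k := by
    rw [hk]
    exact Nat.mul_pos hb1 hq
  have hbk : b ∣ k := by
    rw [hk]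
    exact Dvd.intro _ rfl
  have hqk : (q : 𝓞 K) ∣ (k : 𝓞 K) := by
    rw [hk]
    push_cast
    exact Dvd.intro_left _ rfl
  have hdl0 : (0 : ℝ) < (dl : ℝ) := by exact_mod_cast hdl
  obtain ⟨γ, hγ, m2, h3⟩ := hp p0 hp0 A B dl c v q hdl hA.ge hc hv hq hdlp hqp η hη hη'
  rw [← hb] at h3 ⊢
  obtain ⟨A', n₁, hA', Q0, h4⟩ := h2 K D D m (by omega) g A b k hA1 hb1 hk1 hbk (η * dl)
    (mul_pos hη hdl0)
  obtain ⟨C0, hC0, hF⟩ := hfam A' b k hA' hb1 hk1 hbk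
  -- the pairs
  obtain ⟨S, hSd⟩ : ∃ S : Finset ((Fin D → 𝓞 K) × (Fin D → IX K → ℤ)), S =
    ((db K D k).filter fun ω => (b : 𝓞 K) ∣ ev g ω) ×ˢ
      Fintype.piFinset (fun _ : Fin D => Fintype.piFinset fun _ : IX K =>
        Finset.Icc (-(n₁ : ℤ)) n₁) := ⟨_, rfl⟩
  obtain ⟨γ', hγd⟩ : ∃ γ' : ℝ, γ' = γ / (S.card + 1) := ⟨_, rfl⟩
  have hγ' : 0 < γ' := by
    rw [hγd]
    positivity
  obtain ⟨ε', hε'd⟩ : ∃ ε' : ℝ, ε' = ε / (2 * ((T ×ˢ S).card + 1)) := ⟨_, rfl⟩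
  have hTS : (0 : ℝ) < 2 * (((T ×ˢ S).card : ℝ) + 1) := by positivity
  have hε' : 0 < ε' := by
    rw [hε'd]
    positivity
  obtain ⟨κ, m1, hκ, h5⟩ := sm C0 (γ' ^ 2 * ε') hC0 (by positivity)
  obtain ⟨M, hM⟩ : ∃ M, M = max m2 ((m1 + 1) * b) := ⟨_, rfl⟩
  have hMb : (m1 + 1) * b ≤ M := by
    rw [hM]
    exact le_max_right _ _
  have hbM : b ∣ WW M := by
    refine dvd_WW M b hb1 (le_trans ?_ hMb)
    nlinarith
  have hW : 0 < WW M / b := Nat.div_pos (Nat.le_of_dvd (WW_pos M) hbM) hb1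
  obtain ⟨t1, h6⟩ := h5 (WW M / b) hW (fun g' hg1 hg2 => by
    have h5 : g' * b ∣ WW M := by
      refine dvd_WW M (g' * b) (Nat.mul_pos hg1 hb1) (le_trans ?_ hMb)
      exact Nat.mul_le_mul_right b (by omega)
    rw [Nat.dvd_div_iff_mul_dvd hbM, mul_comm]
    exact h5)
  obtain ⟨t2, h7⟩ := h3 M (by rw [hM]; exact le_max_left _ _) κ hκ
  obtain ⟨V1, hV1d⟩ := exists_root v (max t1 t2) hv
  obtain ⟨V0, hV0⟩ : ∃ V0 : ℕ, V0 = max V1 (max Q0 1) := ⟨_, rfl⟩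
  refine ⟨(V0 + 1) ^ D, fun H hH V hV1 hV2 => ?_⟩
  have hVV : V0 ≤ V := by
    by_contra hcon
    have h6 : (V + 1) ^ D < (V0 + 1) ^ D := Nat.pow_lt_pow_left (by omega) (by omega)
    omega
  obtain ⟨t, ht, ht1, g3, g4⟩ := hV1d V (by omega)
  have hR : CR D v t V H := ⟨g3, g4.trans (Nat.pow_le_pow_left (by omega) _), hV1, hV2⟩
  have hX : 0 < XC 2 c t := XC_pos 2 c t ht1
  have hQQ : Q0 ≤ QN 2 m c t V := by
    have h8 : 1 * V ≤ XC 2 c t ^ m * V := Nat.mul_le_mul_right V (Nat.pow_pos hX)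
    have h9 : XC 2 c t ^ m * V = QN 2 m c t V := rfl
    omega
  obtain ⟨L, hL1, hL2, hL3, hL4⟩ := h4 c t V hQQ
  have hE := FINN_EN_pos (dg K) 2 D m D c v t V H ht1 hR
  have h8 := h7 t ((le_max_right _ _).trans ht) V H hR
  -- the sets
  have hfin := FINN_cover (box K 2 (D * m) H) (T ×ˢ S)
    (fun f => ∃ τ ∈ T, (∀ v : InfinitePlace K, InfZN v V B g (τ.2.2 v) η f) ∧
        (∀ v, LowP p0 v → LocZN v b q g τ.1 τ.2.1 f) ∧
        ¬ ∃ (X : ℕ) (p : (Fin 2 → 𝓞 K) × (Fin D → 𝓞 K)), 0 < X ∧ Prim p.1 ∧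
          p ∈ CellN q τ.1 τ.2.1 τ.2.2 (3 * η) X (dl * (X ^ m * V)) ∧
          (b : 𝓞 K) * ev f p.1 = ev g p.2) _
    (fun τ F => NA (BK g k τ.2.1 (fun j i => L * τ.2.2 j i) L) (aK g b k τ.2.1)
        {p | p.1 ∈ {x : Fin 2 → 𝓞 K | (∀ l, (q : 𝓞 K) ∣ x l - τ.1.1 l) ∧
          ∀ (v : InfinitePlace K) (l : Fin 2), ‖jj v.Completion (x l) -
            (XC 2 c t : v.Completion) * τ.1.2.2 v (Sum.inr l)‖ ≤ (3 * η) * XC 2 c t}} c t F = 0 ∧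
      γ' * EN (dg K) 2 D m D c t V H ≤
        NAL (BK g k τ.2.1 (fun j i => L * τ.2.2 j i) L) (aK g b k τ.2.1)
        {p | p.1 ∈ {x : Fin 2 → 𝓞 K | (∀ l, (q : 𝓞 K) ∣ x l - τ.1.1 l) ∧
          ∀ (v : InfinitePlace K) (l : Fin 2), ‖jj v.Completion (x l) -
            (XC 2 c t : v.Completion) * τ.1.2.2 v (Sum.inr l)‖ ≤ (3 * η) * XC 2 c t}}
        c t H κ (WW M / b) F)
    _ (ε' * ((box K 2 (D * m) H).card : ℝ)) ?_ h8 ?_
  · refine hfin.trans ?_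
    have hn : (0 : ℝ) ≤ ((box K 2 (D * m) H).card : ℝ) := Nat.cast_nonneg _
    have h8 : ((T ×ˢ S).card : ℝ) * ε' ≤ ε / 2 := by
      rw [hε'd, ← mul_div_assoc, div_le_div_iff₀ hTS (by norm_num)]
      nlinarith
    calc ε / 2 * ((box K 2 (D * m) H).card : ℝ) +
          ((T ×ˢ S).card : ℝ) * (ε' * ((box K 2 (D * m) H).card : ℝ))
        = (ε / 2 + ((T ×ˢ S).card : ℝ) * ε') * ((box K 2 (D * m) H).card : ℝ) := by ring
      _ ≤ ε * ((box K 2 (D * m) H).card : ℝ) :=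
          mul_le_mul_of_nonneg_right (by linarith) hn
  · rintro F - ⟨τ, hτ, hF1, hF2, hF3⟩
    by_cases hc1 : γ * EN (dg K) 2 D m D c t V H ≤ NAL (BG g b (A * QN 2 m c t V)) (aG g b)
        (CellN q τ.1 τ.2.1 τ.2.2 (2 * η) (XC 2 c t) (dl * QN 2 m c t V)) c t H κ (WW M / b) F
    · right
      have h9 := hc1.trans (hL4 (CellN q τ.1 τ.2.1 τ.2.2 (2 * η) (XC 2 c t) (dl * QN 2 m c t V))
        {x : Fin 2 → 𝓞 K | (∀ l, (q : 𝓞 K) ∣ x l - τ.1 l) ∧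
          ∀ (v : InfinitePlace K) (l : Fin 2), ‖jj v.Completion (x l) -
            (XC 2 c t : v.Completion) * τ.2.2 v (Sum.inr l)‖ ≤ (3 * η) * XC 2 c t}
        (by
          rintro p ⟨⟨hp1, -⟩, hp2⟩
          refine ⟨hp1, fun v l => ((hp2 v).1 l).trans ?_⟩
          have hX0 : (0 : ℝ) ≤ (XC 2 c t : ℝ) := Nat.cast_nonneg _
          nlinarith) H κ (WW M / b) F)
      rw [← Finset.sum_product', ← hSd] at h9
      obtain ⟨σ, hσ, h10⟩ := FN1_term S _ _ (mul_pos hγ hE) h9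
      have h11 : γ * EN (dg K) 2 D m D c t V H / (S.card + 1) =
        γ' * EN (dg K) 2 D m D c t V H := by
        rw [hγd]
        ring
      rw [h11] at h10
      have hpos : 0 < γ' * EN (dg K) 2 D m D c t V H := mul_pos hγ' hE
      by_cases hc2 : ∃ w ∈ BK g k σ.1 (fun j i => L * σ.2 j i) L, ∃ x,
          (x, fun j => σ.1 j + k * w j) ∈
            CellN q τ.1 τ.2.1 τ.2.2 (2 * η) (XC 2 c t) (dl * QN 2 m c t V)
      · rw [if_pos hc2] at h10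
        refine ⟨(τ, σ), Finset.mem_product.2 ⟨hτ, hσ⟩, ?_, h10⟩
        by_contra hN
        rw [hSd, Finset.mem_product, Finset.mem_filter] at hσ
        obtain ⟨x, w, hx1, hx2, hw, hxw⟩ := FN1_point hbk hσ.1.2 hN
        obtain ⟨w₀, hw₀, x₀, hx₀⟩ := hc2
        refine hF3 ⟨XC 2 c t, (x, fun j => σ.1 j + k * w j), hX, hx1, ?_, hxw⟩
        refine FN1_cell (w₀ := fun j => σ.1 j + k * w₀ j) hx₀ hx2.1 hx2.2 (fun j => ?_)
          (fun v j => ?_)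
        · have h12 : σ.1 j + (k : 𝓞 K) * w j - (σ.1 j + k * w₀ j) = k * (w j - w₀ j) := by ring
          change (q : 𝓞 K) ∣ σ.1 j + (k : 𝓞 K) * w j - (σ.1 j + k * w₀ j)
          rw [h12]
          exact hqk.mul_right _
        · exact hL3 σ.1 hσ.1.1 _ w hw w₀ hw₀ v j
      · rw [if_neg hc2] at h10
        exact absurd h10 (not_le.2 hpos)
    · exact Or.inl ⟨τ.1, τ.2.1, τ.2.2, hF1, hF2, not_le.1 hc1⟩
  · intro τ hτ
    rw [Finset.mem_product, hSd, Finset.mem_product, Finset.mem_filter] at hτ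
    obtain ⟨-, ⟨hω1, hω2⟩, hn⟩ := hτ
    rw [Fintype.mem_piFinset] at hn
    have hfm := hF t ht1 V H hR τ.2.1 hω1 hω2 (fun j i => L * τ.2.2 j i) L (fun j i => by
      have h9 := hn j
      rw [Fintype.mem_piFinset] at h9
      have h10 := Finset.mem_Icc.1 (h9 i)
      have h11 : |τ.2.2 j i| ≤ n₁ := abs_le.2 h10
      have h12 : ((L * n₁ : ℕ) : ℤ) ≤ ((A' * QN 2 m c t V : ℕ) : ℤ) := by exact_mod_cast hL2
      push_cast at h12
      rw [abs_mul, Nat.abs_cast]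
      refine le_trans ?_ h12
      exact mul_le_mul_of_nonneg_left h11 (Nat.cast_nonneg _)) hL1
    have h9 := h6 t ((le_max_left _ _).trans ht) V H hR
      (BK g k τ.2.1 (fun j i => L * τ.2.2 j i) L) (aK g b k τ.2.1) hfm
      {x : Fin 2 → 𝓞 K | (∀ l, (q : 𝓞 K) ∣ x l - τ.1.1 l) ∧
          ∀ (v : InfinitePlace K) (l : Fin 2), ‖jj v.Completion (x l) -
            (XC 2 c t : v.Completion) * τ.1.2.2 v (Sum.inr l)‖ ≤ (3 * η) * XC 2 c t}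
    have h10 := FINN_cheb (BK g k τ.2.1 (fun j i => L * τ.2.2 j i) L) (aK g b k τ.2.1)
      {p | p.1 ∈ {x : Fin 2 → 𝓞 K | (∀ l, (q : 𝓞 K) ∣ x l - τ.1.1 l) ∧
          ∀ (v : InfinitePlace K) (l : Fin 2), ‖jj v.Completion (x l) -
            (XC 2 c t : v.Completion) * τ.1.2.2 v (Sum.inr l)‖ ≤ (3 * η) * XC 2 c t}}
      c v t V H κ (WW M / b) γ' hγ' ht1 hR _ h9
    have h11 : γ' ^ 2 * ε' / γ' ^ 2 = ε' := by
      field_simp
    rw [h11] at h10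
    exact h10

end Pool.Agent.NRN
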