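import Pool.Agent.NRN.StG

/-!
NRN, GBA: basic facts on the distribution of a congruence preserving map (helper50).
-/

set_option autoImplicit false

namespace Pool.Agent.NRN

open scoped BigOperators
open Classical NumberField IsDedekindDomain

/-! ### finite groups -/

theorem GBA_fib {G H : Type} [AddGroup G] [AddGroup H] [Fintype G] [Fintype H] (φ : G →+ H)
    (hφ : Function.Surjective φ) (S : Finset H) :
    (Finset.univ.filter fun g => φ g ∈ S).card * Fintype.card H = S.card * Fintype.card G := by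
  obtain ⟨k, hk⟩ : ∃ k, k = (Finset.univ.filter fun g => φ g = 0).card := ⟨_, rfl⟩
  have hk' : ∀ h, (Finset.univ.filter fun g => φ g = h).card = k := fun h =>
    (AddMonoidHom.card_fiber_eq_of_mem_range φ (hφ h) (hφ 0)).trans hk.symm
  have h1 : ∀ T : Finset H, (Finset.univ.filter fun g => φ g ∈ T).card = T.card * k := by
    intro T
    rw [Finset.card_eq_sum_card_fiberwise (f := φ) (t := T) (by intro g hg; simpa using hg)]
    rw [Finset.sum_congr rfl (g := fun _ => k), Finset.sum_const, smul_eq_mul]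
    intro h hh
    rw [← hk' h, Finset.filter_filter]
    congr 1
    apply Finset.filter_congr
    intro g _
    exact ⟨fun e => e.2, fun e => ⟨e ▸ hh, e⟩⟩
  have h2 : Fintype.card G = Fintype.card H * k := by
    have := h1 Finset.univ
    simpa using this
  rw [h1 S, h2]
  ring

section

variable {K : Type} [Field K] [NumberField K] {r : ℕ}

/-- the value of the map `a` on a residue vector -/
noncomputable def GBA_v (a : (Fin r → 𝓞 K) → 𝓞 K) (I : Ideal (𝓞 K)) (ω : Fin r → 𝓞 K ⧸ I) :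
    𝓞 K ⧸ I := Ideal.Quotient.mk I (a (lf ω))

theorem GBA_mk {a : (Fin r → 𝓞 K) → 𝓞 K} (ha : CP a) (I : Ideal (𝓞 K)) (ω : Fin r → 𝓞 K ⧸ I)
    (w : Fin r → 𝓞 K) (hw : ∀ j, Ideal.Quotient.mk I (w j) = ω j) :
    Ideal.Quotient.mk I (a w) = GBA_v a I ω := by
  refine Ideal.Quotient.eq.2 (ha I w (lf ω) fun j => Ideal.Quotient.eq.1 ?_)
  rw [hw, mk_lf]

/-- reduction of residue vectors -/
noncomputable def GBA_pi (r : ℕ) {I J : Ideal (𝓞 K)} (h : I ≤ J) :
    (Fin r → 𝓞 K ⧸ I) →+ (Fin r → 𝓞 K ⧸ J) where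
  toFun ω := fun j => Ideal.Quotient.factor h (ω j)
  map_zero' := funext fun _ => map_zero _
  map_add' _ _ := funext fun _ => map_add _ _ _

theorem GBA_pi_surj (r : ℕ) {I J : Ideal (𝓞 K)} (h : I ≤ J) :
    Function.Surjective (GBA_pi r h) := by
  intro ω
  choose w hw using fun j => Ideal.Quotient.factor_surjective h (ω j)
  exact ⟨w, funext hw⟩

theorem GBA_red {a : (Fin r → 𝓞 K) → 𝓞 K} (ha : CP a) {I J : Ideal (𝓞 K)} (h : I ≤ J)
    (ω : Fin r → 𝓞 K ⧸ I) :
    Ideal.Quotient.factor h (GBA_v a I ω) = GBA_v a J (GBA_pi r h ω) := by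
  unfold GBA_v
  rw [Ideal.Quotient.factor_mk]
  refine GBA_mk ha J _ _ fun j => ?_
  change _ = Ideal.Quotient.factor h (ω j)
  rw [← mk_lf ω j, Ideal.Quotient.factor_mk]

theorem GBA_card (I : Ideal (𝓞 K)) [Fintype (𝓞 K ⧸ I)] :
    Fintype.card (𝓞 K ⧸ I) = Ideal.absNorm I := by
  rw [Ideal.absNorm_apply, Submodule.cardQuot_apply, Nat.card_eq_fintype_card]

theorem GBA_cardv (r : ℕ) (I : Ideal (𝓞 K)) [Fintype (𝓞 K ⧸ I)] :
    Fintype.card (Fin r → 𝓞 K ⧸ I) = Ideal.absNorm I ^ r := by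
  rw [Fintype.card_fun, Fintype.card_fin, GBA_card]

theorem GBA_pos {I : Ideal (𝓞 K)} (hI : I ≠ ⊥) : (0 : ℝ) < Ideal.absNorm I := by
  have : Ideal.absNorm I ≠ 0 := fun h => hI (Ideal.absNorm_eq_zero_iff.1 h)
  exact_mod_cast Nat.pos_of_ne_zero this

theorem GBA_fin {I : Ideal (𝓞 K)} (hI : I ≠ ⊥) : Finite (𝓞 K ⧸ I) :=
  (Ideal.absNorm_ne_zero_iff I).1 fun h => hI (Ideal.absNorm_eq_zero_iff.1 h)

theorem GBA_cnt (a : (Fin r → 𝓞 K) → 𝓞 K) (I : Ideal (𝓞 K)) [Fintype (𝓞 K ⧸ I)] (c : 𝓞 K ⧸ I) :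
    Nat.card {ω : Fin r → 𝓞 K ⧸ I // Ideal.Quotient.mk I (a (lf ω)) = c} =
      (Finset.univ.filter fun ω => GBA_v a I ω = c).card := by
  rw [Nat.card_eq_fintype_card, Fintype.card_subtype]
  rfl

theorem GBA_one (a : (Fin r → 𝓞 K) → 𝓞 K) (I : Ideal (𝓞 K)) [Fintype (𝓞 K ⧸ I)] :
    GI a I = (Ideal.absNorm I : ℝ) * ∑ c : 𝓞 K ⧸ I, PQ a I c ^ 2 := by
  have hp : Nat.card {p : (Fin r → 𝓞 K ⧸ I) × (Fin r → 𝓞 K ⧸ I) //
      Ideal.Quotient.mk I (a (lf p.1)) = Ideal.Quotient.mk I (a (lf p.2))} =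
      ∑ c : 𝓞 K ⧸ I, (Finset.univ.filter fun ω => GBA_v a I ω = c).card ^ 2 := by
    rw [Nat.card_eq_fintype_card, Fintype.card_subtype,
      Finset.card_eq_sum_card_fiberwise (f := fun p : (Fin r → 𝓞 K ⧸ I) × (Fin r → 𝓞 K ⧸ I) =>
        GBA_v a I p.1) (t := Finset.univ) (fun _ _ => Finset.mem_coe.2 (Finset.mem_univ _))]
    refine Finset.sum_congr rfl fun c _ => ?_
    rw [pow_two, ← Finset.card_product]
    congr 1
    ext p
    simp only [Finset.mem_filter, Finset.mem_univ, true_and, Finset.mem_product]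
    constructor
    · rintro ⟨h1, h2⟩
      exact ⟨h2, h1.symm.trans h2⟩
    · rintro ⟨h1, h2⟩
      exact ⟨h1.trans h2.symm, h1⟩
  unfold GI PQ
  rw [hp]
  push_cast
  simp_rw [GBA_cnt, div_pow, ← pow_mul, mul_comm r 2]
  rw [← Finset.sum_div]
  ring

theorem GBA_two (a : (Fin r → 𝓞 K) → 𝓞 K) {I : Ideal (𝓞 K)} (hI : I ≠ ⊥) [Fintype (𝓞 K ⧸ I)] :
    ∑ c : 𝓞 K ⧸ I, PQ a I c = 1 := by
  unfold PQ
  simp_rw [GBA_cnt]
  rw [← Finset.sum_div, ← Nat.cast_sum]
  have h1 : ∑ c : 𝓞 K ⧸ I, (Finset.univ.filter fun ω => GBA_v a I ω = c).card =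
      Fintype.card (Fin r → 𝓞 K ⧸ I) := by
    rw [← Finset.card_univ (α := Fin r → 𝓞 K ⧸ I),
      Finset.card_eq_sum_card_fiberwise (f := GBA_v a I) (t := Finset.univ)
        (fun _ _ => Finset.mem_coe.2 (Finset.mem_univ _))]
  rw [h1, GBA_cardv]
  push_cast
  exact div_self (pow_ne_zero _ (GBA_pos hI).ne')

theorem GBA_three {a : (Fin r → 𝓞 K) → 𝓞 K} (ha : CP a) {I J : Ideal (𝓞 K)} (hI : I ≠ ⊥)
    (h : I ≤ J) [Fintype (𝓞 K ⧸ I)] (c : 𝓞 K ⧸ J) :
    PQ a J c =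
      ∑ c' ∈ Finset.univ.filter (fun c' => Ideal.Quotient.factor h c' = c), PQ a I c' := by
  have hJ : J ≠ ⊥ := fun e => hI (le_bot_iff.1 (e ▸ h))
  have := GBA_fin hJ
  have := Fintype.ofFinite (𝓞 K ⧸ J)
  have h1 : (Finset.univ.filter fun ω => GBA_v a J ω = c).card * Ideal.absNorm I ^ r =
      (∑ c' ∈ Finset.univ.filter (fun c' => Ideal.Quotient.factor h c' = c),
        (Finset.univ.filter fun ω => GBA_v a I ω = c').card) * Ideal.absNorm J ^ r := by
    rw [← GBA_cardv r I, ← GBA_cardv r J,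
      ← GBA_fib (GBA_pi r h) (GBA_pi_surj r h) (Finset.univ.filter fun ω => GBA_v a J ω = c)]
    congr 1
    rw [Finset.card_eq_sum_card_fiberwise (f := GBA_v a I)
      (t := Finset.univ.filter (fun c' => Ideal.Quotient.factor h c' = c))]
    · refine Finset.sum_congr rfl fun c' hc' => ?_
      congr 1
      ext ω
      simp only [Finset.mem_filter, Finset.mem_univ, true_and] at hc' ⊢
      constructor
      · exact fun e => e.2
      · intro e
        refine ⟨?_, e⟩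
        rw [← GBA_red ha h, e, hc']
    · intro ω hω
      simp only [Finset.coe_filter, Finset.mem_filter, Finset.mem_univ, true_and,
        Set.mem_ofPred_eq] at hω ⊢
      rw [GBA_red ha h, hω]
  unfold PQ
  simp_rw [GBA_cnt]
  rw [← Finset.sum_div, ← Nat.cast_sum, div_eq_div_iff (pow_ne_zero _ (GBA_pos hJ).ne')
    (pow_ne_zero _ (GBA_pos hI).ne')]
  exact_mod_cast h1

theorem GBA_four {a : (Fin r → 𝓞 K) → 𝓞 K} (ha : CP a) {I J : Ideal (𝓞 K)} (hI : I ≠ ⊥)
    (h : I ≤ J) : GI a J ≤ GI a I := by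
  have hJ : J ≠ ⊥ := fun e => hI (le_bot_iff.1 (e ▸ h))
  have := GBA_fin hJ
  have := Fintype.ofFinite (𝓞 K ⧸ J)
  have := GBA_fin hI
  have := Fintype.ofFinite (𝓞 K ⧸ I)
  rw [GBA_one a I, GBA_one a J, Finset.mul_sum,
    ← Finset.sum_fiberwise Finset.univ (Ideal.Quotient.factor h), Finset.mul_sum]
  refine Finset.sum_le_sum fun c _ => ?_
  have hcard : ((Finset.univ.filter fun c' => Ideal.Quotient.factor h c' = c).card : ℝ) *
      Ideal.absNorm J = Ideal.absNorm I := by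
    have h1 := GBA_fib (Ideal.Quotient.factor h).toAddMonoidHom
      (Ideal.Quotient.factor_surjective h) {c}
    rw [Finset.card_singleton, one_mul, GBA_card, GBA_card] at h1
    have h2 : (Finset.univ.filter fun c' => (Ideal.Quotient.factor h).toAddMonoidHom c' ∈
        ({c} : Finset (𝓞 K ⧸ J))) = Finset.univ.filter fun c' => Ideal.Quotient.factor h c' = c := by
      refine Finset.filter_congr fun c' _ => ?_
      rw [Finset.mem_singleton]
      rfl
    rw [h2] at h1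
    exact_mod_cast h1
  rw [GBA_three ha hI h c, ← hcard]
  have hcs := sq_sum_le_card_mul_sum_sq
    (s := Finset.univ.filter fun c' => Ideal.Quotient.factor h c' = c) (f := PQ a I)
  have hN := GBA_pos hJ
  calc (Ideal.absNorm J : ℝ) * (∑ c' ∈ Finset.univ.filter
        (fun c' => Ideal.Quotient.factor h c' = c), PQ a I c') ^ 2
      ≤ (Ideal.absNorm J : ℝ) * (((Finset.univ.filter
        fun c' => Ideal.Quotient.factor h c' = c).card : ℝ) * ∑ c' ∈ Finset.univ.filter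
        (fun c' => Ideal.Quotient.factor h c' = c), PQ a I c' ^ 2) :=
        mul_le_mul_of_nonneg_left hcs hN.le
    _ = _ := by ring

theorem GBA_top (a : (Fin r → 𝓞 K) → 𝓞 K) : GI a ⊤ = 1 := by
  have hs : Subsingleton (𝓞 K ⧸ (⊤ : Ideal (𝓞 K))) := Ideal.Quotient.subsingleton_iff.2 rfl
  unfold GI
  rw [Ideal.absNorm_top]
  have h1 : Nat.card {p : (Fin r → 𝓞 K ⧸ (⊤ : Ideal (𝓞 K))) × (Fin r → 𝓞 K ⧸ (⊤ : Ideal (𝓞 K))) //
      Ideal.Quotient.mk ⊤ (a (lf p.1)) = Ideal.Quotient.mk ⊤ (a (lf p.2))} = 1 := by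
    rw [Nat.card_eq_one_iff_unique]
    exact ⟨⟨fun x y => Subtype.ext (Subsingleton.elim _ _)⟩,
      ⟨⟨(fun _ => 0, fun _ => 0), Subsingleton.elim _ _⟩⟩⟩
  rw [h1]
  norm_num

theorem GBA_mulc {a : (Fin r → 𝓞 K) → 𝓞 K} (ha : CP a) {I J : Ideal (𝓞 K)}
    (hc : IsCoprime I J) :
    Nat.card {p : (Fin r → 𝓞 K ⧸ I * J) × (Fin r → 𝓞 K ⧸ I * J) //
      GBA_v a (I * J) p.1 = GBA_v a (I * J) p.2} =
    Nat.card {p : (Fin r → 𝓞 K ⧸ I) × (Fin r → 𝓞 K ⧸ I) // GBA_v a I p.1 = GBA_v a I p.2} *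
      Nat.card {p : (Fin r → 𝓞 K ⧸ J) × (Fin r → 𝓞 K ⧸ J) // GBA_v a J p.1 = GBA_v a J p.2} := by
  obtain ⟨e, he⟩ : ∃ e, e = Ideal.quotientMulEquivQuotientProd I J hc := ⟨_, rfl⟩
  have e1 : ∀ x, (e x).1 = Ideal.Quotient.factor Ideal.mul_le_left x := fun x => by
    rw [he, Ideal.quotientMulEquivQuotientProd_fst]
  have e2 : ∀ x, (e x).2 = Ideal.Quotient.factor Ideal.mul_le_right x := fun x => by
    rw [he, Ideal.quotientMulEquivQuotientProd_snd]
  have hinj : ∀ x y : 𝓞 K ⧸ I * J,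
      Ideal.Quotient.factor (Ideal.mul_le_left (I := I) (J := J)) x =
        Ideal.Quotient.factor (Ideal.mul_le_left (I := I) (J := J)) y →
      Ideal.Quotient.factor (Ideal.mul_le_right (I := I) (J := J)) x =
        Ideal.Quotient.factor (Ideal.mul_le_right (I := I) (J := J)) y → x = y := by
    intro x y h1 h2
    apply e.injective
    exact Prod.ext (by rw [e1, e1, h1]) (by rw [e2, e2, h2])
  rw [← Nat.card_prod]
  refine Nat.card_congr (Equiv.ofBijective (fun p =>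
    (⟨(GBA_pi r (Ideal.mul_le_left (I := I) (J := J)) p.1.1,
      GBA_pi r (Ideal.mul_le_left (I := I) (J := J)) p.1.2), ?_⟩,
      ⟨(GBA_pi r (Ideal.mul_le_right (I := I) (J := J)) p.1.1,
      GBA_pi r (Ideal.mul_le_right (I := I) (J := J)) p.1.2), ?_⟩)) ⟨?_, ?_⟩)
  · change GBA_v a I _ = GBA_v a I _
    rw [← GBA_red ha, ← GBA_red ha, p.2]
  · change GBA_v a J _ = GBA_v a J _
    rw [← GBA_red ha, ← GBA_red ha, p.2]
  · intro p q h
    have h1 := congrArg (fun z => z.1.1) h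
    have h2 := congrArg (fun z => z.2.1) h
    have h11 := congrArg Prod.fst h1
    have h12 := congrArg Prod.snd h1
    have h21 := congrArg Prod.fst h2
    have h22 := congrArg Prod.snd h2
    refine Subtype.ext (Prod.ext (funext fun j => ?_) (funext fun j => ?_))
    · exact hinj _ _ (congrFun h11 j) (congrFun h21 j)
    · exact hinj _ _ (congrFun h12 j) (congrFun h22 j)
  · rintro ⟨⟨p, hp⟩, ⟨q, hq⟩⟩
    have k1 : ∀ (x : Fin r → 𝓞 K ⧸ I) (y : Fin r → 𝓞 K ⧸ J),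
        GBA_pi r (Ideal.mul_le_left (I := I) (J := J)) (fun j => e.symm (x j, y j)) = x := by
      intro x y
      funext j
      change Ideal.Quotient.factor (Ideal.mul_le_left (I := I) (J := J)) (e.symm (x j, y j)) = x j
      rw [← e1, RingEquiv.apply_symm_apply]
    have k2 : ∀ (x : Fin r → 𝓞 K ⧸ I) (y : Fin r → 𝓞 K ⧸ J),
        GBA_pi r (Ideal.mul_le_right (I := I) (J := J)) (fun j => e.symm (x j, y j)) = y := by
      intro x y
      funext j
      change Ideal.Quotient.factor (Ideal.mul_le_right (I := I) (J := J)) (e.symm (x j, y j)) = y j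
      rw [← e2, RingEquiv.apply_symm_apply]
    refine ⟨⟨(fun j => e.symm (p.1 j, q.1 j), fun j => e.symm (p.2 j, q.2 j)), ?_⟩, ?_⟩
    · refine hinj _ _ ?_ ?_
      · rw [GBA_red ha, GBA_red ha, k1, k1]
        exact hp
      · rw [GBA_red ha, GBA_red ha, k2, k2]
        exact hq
    · refine Prod.ext (Subtype.ext (Prod.ext ?_ ?_)) (Subtype.ext (Prod.ext ?_ ?_))
      · exact k1 _ _
      · exact k1 _ _
      · exact k2 _ _
      · exact k2 _ _

theorem GBA_mul {a : (Fin r → 𝓞 K) → 𝓞 K} (ha : CP a) {I J : Ideal (𝓞 K)}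
    (hc : IsCoprime I J) : GI a (I * J) = GI a I * GI a J := by
  have h1 := GBA_mulc ha hc
  unfold GBA_v at h1
  unfold GI
  rw [h1, map_mul]
  push_cast
  rw [mul_pow, div_mul_div_comm]
  congr 1
  ring

end

/-- [GBA] basic facts on the distribution of a congruence preserving map -/
theorem thm_GBA : St_GBA := by
  intro K _ _ r a ha I hI
  refine ⟨fun {_} => GBA_one a I, fun {_} => GBA_two a hI, fun J h {_} c => GBA_three ha hI h c,
    fun J h => GBA_four ha hI h, ⟨?_, GBA_top a⟩, fun J _ hc => GBA_mul ha hc,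
    fun ω w hw => GBA_mk ha I ω w hw⟩
  rw [← GBA_top a]
  exact GBA_four ha hI le_top

end Pool.Agent.NRN
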