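import Pool.Agent.NRN.StG
import Pool.Agent.RHKB.PRS

/-!
NRN, block G, module GDF: the part of `G` which is not seen modulo `W` (helper24).
-/

set_option autoImplicit false

namespace Pool.Agent.NRN

open scoped BigOperators
open Classical NumberField IsDedekindDomain
open Pool.Agent.RHP (Mon mono ev Sys Prim pd WB WW)
open Pool.Agent.RHK Pool.Agent.RHC Pool.Agent.NRM
open Pool.Agent.RHKB (mI hh jj qv MK uu BadK)
open Pool.Agent.RHCB (BadC cred cemb uk PrC hM f00)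

section

variable {K : Type} [Field K] [NumberField K]

/-- the increments of `G` at the powers of `v` -/
private noncomputable def GDF_g {r : ℕ} (a : (Fin r → 𝓞 K) → 𝓞 K) (v : HeightOneSpectrum (𝓞 K))
    (j : ℕ) : ℝ :=
  if j = 0 then 1 else GI a (v.asIdeal ^ j) - GI a (v.asIdeal ^ (j - 1))

omit [NumberField K] in
private theorem GDF_powne (v : HeightOneSpectrum (𝓞 K)) (j : ℕ) : v.asIdeal ^ j ≠ ⊥ :=
  pow_ne_zero j v.ne_bot

private theorem GDF_top (h1 : St_GBA) {r : ℕ} {a : (Fin r → 𝓞 K) → 𝓞 K} (ha : CP a) :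
    GI a (⊤ : Ideal (𝓞 K)) = 1 :=
  (h1 K r a ha ⊤ top_ne_bot).2.2.2.2.1.2

private theorem GDF_one (h1 : St_GBA) {r : ℕ} {a : (Fin r → 𝓞 K) → 𝓞 K} (ha : CP a)
    (I : Ideal (𝓞 K)) (hI : I ≠ ⊥) : 1 ≤ GI a I :=
  (h1 K r a ha I hI).2.2.2.2.1.1

private theorem GDF_g0 (h1 : St_GBA) {r : ℕ} {a : (Fin r → 𝓞 K) → 𝓞 K} (ha : CP a)
    (v : HeightOneSpectrum (𝓞 K)) (j : ℕ) : 0 ≤ GDF_g a v j := by
  unfold GDF_g
  split_ifs with h
  · exact zero_le_one
  · have h2 := (h1 K r a ha (v.asIdeal ^ j) (GDF_powne v j)).2.2.2.1 (v.asIdeal ^ (j - 1))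
      (Ideal.pow_le_pow_right (Nat.sub_le j 1))
    linarith

private theorem GDF_sum (h1 : St_GBA) {r : ℕ} {a : (Fin r → 𝓞 K) → 𝓞 K} (ha : CP a)
    (v : HeightOneSpectrum (𝓞 K)) (n : ℕ) :
    ∑ j ∈ Finset.range (n + 1), GDF_g a v j = GI a (v.asIdeal ^ n) := by
  induction n with
  | zero =>
    rw [zero_add, Finset.sum_range_one, pow_zero, Ideal.one_eq_top, GDF_top h1 ha]
    simp [GDF_g]
  | succ n ih =>
    rw [Finset.sum_range_succ, ih]
    simp [GDF_g]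

/-- the strong bound for the terms with `j ≥ 1` -/
private theorem GDF_str {r D : ℕ} {a : (Fin r → 𝓞 K) → 𝓞 K} {C : ℝ} (hL : LOC D a C)
    (v : HeightOneSpectrum (𝓞 K)) (E : ℕ) :
    ∑ j ∈ Finset.Icc 1 E, GDF_g a v j / (qv v : ℝ) ^ j ≤ C / (qv v : ℝ) ^ 2 := by
  refine le_trans (le_of_eq ?_) (hL.str v E)
  refine Finset.sum_congr rfl fun j hj => ?_
  have h5 : j ≠ 0 := by
    have := (Finset.mem_Icc.1 hj).1
    omega
  simp only [GDF_g, if_neg h5]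

private theorem GDF_fac {r D : ℕ} {a : (Fin r → 𝓞 K) → 𝓞 K} {C : ℝ} (hL : LOC D a C)
    (v : HeightOneSpectrum (𝓞 K)) (E : ℕ) :
    ∑ j ∈ Finset.range (E + 1), GDF_g a v j / (qv v : ℝ) ^ j ≤ 1 + C / (qv v : ℝ) ^ 2 := by
  have h1 := GDF_str hL v E
  have h3 : Finset.Icc 1 E = Finset.Ico 1 (E + 1) := by
    ext x
    simp only [Finset.mem_Icc, Finset.mem_Ico]
    omega
  rw [Finset.range_eq_Ico, Finset.sum_eq_sum_Ico_succ_bot (Nat.succ_pos E)]
  have h4 : GDF_g a v 0 / (qv v : ℝ) ^ 0 = 1 := by simp [GDF_g]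
  rw [h4]
  rw [h3] at h1
  linarith

private theorem GDF_q (v : HeightOneSpectrum (𝓞 K)) : (2 : ℝ) ≤ (qv v : ℝ) := by
  obtain ⟨p, hp, hpv⟩ := Pool.Agent.RHKB.PRS_ex v
  have h1 := Pool.Agent.RHKB.PRS_dvd v hp hpv
  have h2 := Nat.le_of_dvd (Pool.Agent.RHKB.PRS_pos v) h1
  have h3 := hp.two_le
  have : 2 ≤ qv v := h3.trans h2
  exact_mod_cast this

/-- the weak bound for one term -/
private theorem GDF_weak (h1 : St_GBA) {r D : ℕ} {a : (Fin r → 𝓞 K) → 𝓞 K} {C : ℝ} (hC : 0 < C)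
    (hL : LOC D a C) (v : HeightOneSpectrum (𝓞 K)) (j : ℕ) :
    GDF_g a v j / (qv v : ℝ) ^ j ≤ (1 + C) * ((2 : ℝ) ^ (-(1 : ℝ) / MM D)) ^ j := by
  have hq := GDF_q v
  have hq0 : (0 : ℝ) < qv v := by linarith
  have hb : 0 ≤ ((2 : ℝ) ^ (-(1 : ℝ) / MM D)) ^ j := by positivity
  by_cases hj : j = 0
  · subst hj
    simp only [GDF_g, if_pos, pow_zero, div_one, mul_one]
    linarith
  · have h2 : GDF_g a v j ≤ GI a (v.asIdeal ^ j) := by
      simp only [GDF_g, if_neg hj]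
      have := GDF_one h1 hL.cp (v.asIdeal ^ (j - 1)) (GDF_powne v _)
      linarith
    have h3 := hL.weak (v.asIdeal ^ j) (GDF_powne v j)
    have h4 : ((Ideal.absNorm (v.asIdeal ^ j) : ℕ) : ℝ) = (qv v : ℝ) ^ j := by
      rw [map_pow, Nat.cast_pow]
      rfl
    rw [h4] at h3
    have h5 : GDF_g a v j / (qv v : ℝ) ^ j ≤ C * rp ((qv v : ℝ) ^ j) (MM D) := by
      rw [div_le_iff₀ (by positivity)]
      calc GDF_g a v j ≤ _ := h2
        _ ≤ _ := h3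
        _ = _ := by ring
    refine h5.trans ?_
    have h6 : rp ((qv v : ℝ) ^ j) (MM D) ≤ ((2 : ℝ) ^ (-(1 : ℝ) / MM D)) ^ j := by
      unfold rp
      rw [← Real.rpow_natCast ((2 : ℝ) ^ (-(1 : ℝ) / MM D)) j, ← Real.rpow_mul (by norm_num),
        mul_comm, Real.rpow_mul (by norm_num), Real.rpow_natCast]
      refine Real.rpow_le_rpow_of_nonpos (by positivity) ?_ ?_
      · gcongr
      · have : (0 : ℝ) ≤ MM D := Nat.cast_nonneg _
        exact div_nonpos_of_nonpos_of_nonneg (by norm_num) this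
    calc C * rp ((qv v : ℝ) ^ j) (MM D) ≤ C * ((2 : ℝ) ^ (-(1 : ℝ) / MM D)) ^ j := by gcongr
      _ ≤ _ := by
        refine mul_le_mul_of_nonneg_right (by linarith) hb

private theorem GDF_beta {D : ℕ} (hD : 2 ≤ D) : (2 : ℝ) ^ (-(1 : ℝ) / MM D) < 1 := by
  refine Real.rpow_lt_one_of_one_lt_of_neg (by norm_num) ?_
  have : 0 < MM D := by
    unfold MM
    have h1 : 6 ≤ D * (D + 1) := by nlinarith
    omega
  have h2 : (0 : ℝ) < MM D := by exact_mod_cast this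
  exact div_neg_of_neg_of_pos (by norm_num) h2

/-- a geometric sum -/
private theorem GDF_geo {b : ℝ} (hb0 : 0 ≤ b) (hb : b < 1) (w E : ℕ) :
    ∑ j ∈ Finset.Ioc w E, b ^ j ≤ b ^ w / (1 - b) := by
  have h0 : 0 < 1 - b := by linarith
  have h1 : Finset.Ioc w E = Finset.Ico (w + 1) (E + 1) := by
    ext x
    simp only [Finset.mem_Ioc, Finset.mem_Ico]
    omega
  rcases le_or_gt (w + 1) (E + 1) with h | h
  · have h2 := geom_sum_Ico_le_of_lt_one (m := w + 1) (n := E + 1) hb0 hb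
    rw [h1]
    refine h2.trans ?_
    exact div_le_div_of_nonneg_right (pow_le_pow_of_le_one hb0 hb.le (Nat.le_succ w)) h0.le
  · rw [h1, Finset.Ico_eq_empty (by omega), Finset.sum_empty]
    positivity

/-- the number of the `v` above small primes -/
private theorem GDF_low (z : ℕ) (P : Finset (HeightOneSpectrum (𝓞 K)))
    (hP : ∀ v ∈ P, LowP z v) : P.card ≤ (z + 1) * dg K := by
  have h1 : P ⊆ ((Finset.range (z + 1)).filter Nat.Prime).biUnion
      fun p => P.filter fun v => (p : 𝓞 K) ∈ v.asIdeal := by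
    intro v hv
    obtain ⟨p, hp, hpz, hpv⟩ := hP v hv
    refine Finset.mem_biUnion.2 ⟨p, ?_, Finset.mem_filter.2 ⟨hv, hpv⟩⟩
    exact Finset.mem_filter.2 ⟨Finset.mem_range.2 (by omega), hp⟩
  refine (Finset.card_le_card h1).trans (Finset.card_biUnion_le.trans ?_)
  calc ∑ p ∈ (Finset.range (z + 1)).filter Nat.Prime,
        (P.filter fun v => (p : 𝓞 K) ∈ v.asIdeal).card
      ≤ ∑ _p ∈ (Finset.range (z + 1)).filter Nat.Prime, dg K := by
        refine Finset.sum_le_sum fun p hp => ?_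
        exact Pool.Agent.RHKB.PRS_card p (Finset.mem_filter.1 hp).2 _
          fun v hv => (Finset.mem_filter.1 hv).2
    _ = ((Finset.range (z + 1)).filter Nat.Prime).card * dg K := by
        rw [Finset.sum_const, smul_eq_mul]
    _ ≤ (z + 1) * dg K := by
        refine Nat.mul_le_mul_right _ ?_
        exact (Finset.card_filter_le _ _).trans (by rw [Finset.card_range])

/-- the sum of the tails -/
private theorem GDF_tail (h1 : St_GBA) {r D : ℕ} (hD : 2 ≤ D) {a : (Fin r → 𝓞 K) → 𝓞 K} {C : ℝ}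
    (hC : 0 < C) (hL : LOC D a C) {CP0 : ℝ}
    (hPRS : ∀ (m0 : ℕ), 1 ≤ m0 → ∀ P : Finset (HeightOneSpectrum (𝓞 K)),
      (∀ v ∈ P, ∀ p : ℕ, p.Prime → p ≤ m0 → (p : 𝓞 K) ∉ v.asIdeal) →
      ∑ v ∈ P, ((qv v : ℝ) ^ 2)⁻¹ ≤ CP0 / m0) (P : Finset (HeightOneSpectrum (𝓞 K)))
    (w : HeightOneSpectrum (𝓞 K) → ℕ) (E z k : ℕ) (hz : 1 ≤ z)
    (hw : ∀ v, LowP z v → k ≤ w v) :
    ∑ v ∈ P, ∑ j ∈ Finset.Ioc (w v) E, GDF_g a v j / (qv v : ℝ) ^ j ≤
      C * (CP0 / z) + ((z + 1) * dg K) *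
        ((1 + C) * (((2 : ℝ) ^ (-(1 : ℝ) / MM D)) ^ k / (1 - (2 : ℝ) ^ (-(1 : ℝ) / MM D)))) := by
  set b : ℝ := (2 : ℝ) ^ (-(1 : ℝ) / MM D) with hbdef
  have hb0 : 0 ≤ b := by rw [hbdef]; positivity
  have hb1 : b < 1 := GDF_beta hD
  have h0b : 0 < 1 - b := by linarith
  rw [← Finset.sum_filter_add_sum_filter_not P (fun v => LowP z v), add_comm]
  refine add_le_add ?_ ?_
  · have h4 := hPRS z hz (P.filter fun v => ¬ LowP z v) fun v hv p hp hpp hmem =>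
      (Finset.mem_filter.1 hv).2 ⟨p, hp, hpp, hmem⟩
    calc ∑ v ∈ P.filter fun v => ¬ LowP z v,
          ∑ j ∈ Finset.Ioc (w v) E, GDF_g a v j / (qv v : ℝ) ^ j
        ≤ ∑ v ∈ P.filter fun v => ¬ LowP z v, C * ((qv v : ℝ) ^ 2)⁻¹ := by
          refine Finset.sum_le_sum fun v _ => ?_
          rw [← div_eq_mul_inv]
          refine le_trans (Finset.sum_le_sum_of_subset_of_nonneg ?_ fun j _ _ =>
            div_nonneg (GDF_g0 h1 hL.cp v j) (by positivity)) (GDF_str hL v E)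
          intro x hx
          rw [Finset.mem_Ioc] at hx
          rw [Finset.mem_Icc]
          omega
      _ = C * ∑ v ∈ P.filter fun v => ¬ LowP z v, ((qv v : ℝ) ^ 2)⁻¹ := by
          rw [Finset.mul_sum]
      _ ≤ _ := mul_le_mul_of_nonneg_left h4 hC.le
  · have h5 := GDF_low z (P.filter fun v => LowP z v) fun v hv => (Finset.mem_filter.1 hv).2
    have h6 : ((P.filter fun v => LowP z v).card : ℝ) ≤ (z + 1) * dg K := by exact_mod_cast h5
    calc ∑ v ∈ P.filter fun v => LowP z v,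
          ∑ j ∈ Finset.Ioc (w v) E, GDF_g a v j / (qv v : ℝ) ^ j
        ≤ ∑ _v ∈ P.filter fun v => LowP z v, (1 + C) * (b ^ k / (1 - b)) := by
          refine Finset.sum_le_sum fun v hv => ?_
          have h7 := hw v (Finset.mem_filter.1 hv).2
          calc ∑ j ∈ Finset.Ioc (w v) E, GDF_g a v j / (qv v : ℝ) ^ j
              ≤ ∑ j ∈ Finset.Ioc (w v) E, (1 + C) * b ^ j :=
                Finset.sum_le_sum fun j _ => GDF_weak h1 hC hL v j
            _ = (1 + C) * ∑ j ∈ Finset.Ioc (w v) E, b ^ j := by rw [Finset.mul_sum]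
            _ ≤ (1 + C) * (b ^ w v / (1 - b)) :=
                mul_le_mul_of_nonneg_left (GDF_geo hb0 hb1 _ _) (by linarith)
            _ ≤ (1 + C) * (b ^ k / (1 - b)) := by
                refine mul_le_mul_of_nonneg_left ?_ (by linarith)
                exact div_le_div_of_nonneg_right (pow_le_pow_of_le_one hb0 hb1.le h7) h0b.le
      _ = ((P.filter fun v => LowP z v).card : ℝ) * ((1 + C) * (b ^ k / (1 - b))) := by
          rw [Finset.sum_const, nsmul_eq_mul]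
      _ ≤ _ := by
          refine mul_le_mul_of_nonneg_right h6 ?_
          positivity

/-- the main estimate -/
private theorem GDF_main (h1 : St_GBA) (h2 : St_GPF) (h3 : St_PEX) {r D : ℕ} (hD : 2 ≤ D)
    {a : (Fin r → 𝓞 K) → 𝓞 K} {C : ℝ} (hC : 0 < C) (hL : LOC D a C) {CP0 : ℝ}
    (hPRS : ∀ (m0 : ℕ), 1 ≤ m0 → ∀ P : Finset (HeightOneSpectrum (𝓞 K)),
      (∀ v ∈ P, ∀ p : ℕ, p.Prime → p ≤ m0 → (p : 𝓞 K) ∉ v.asIdeal) →
      ∑ v ∈ P, ((qv v : ℝ) ^ 2)⁻¹ ≤ CP0 / m0) {U : Type} (S : Finset U)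
    (𝒥 : U → Ideal (𝓞 K)) (Z : ℝ) (hZ : 0 ≤ Z) (hJ : ∀ u ∈ S, 𝒥 u ≠ ⊥)
    (hS : ∀ I : Ideal (𝓞 K), I ≠ ⊥ →
      ((S.filter fun u => 𝒥 u ≤ I).card : ℝ) * Ideal.absNorm I ≤ Z) (W z k : ℕ) (hW : 0 < W)
    (hz : 1 ≤ z) (hWk : ∀ p : ℕ, p.Prime → p ≤ z → p ^ k ∣ W) :
    ∑ u ∈ S, (GI a (𝒥 u) - GI a (𝒥 u ⊔ Ideal.span {(W : 𝓞 K)})) ≤
      Z * (C * (CP0 / z) + ((z + 1) * dg K) *
        ((1 + C) * (((2 : ℝ) ^ (-(1 : ℝ) / MM D)) ^ k / (1 - (2 : ℝ) ^ (-(1 : ℝ) / MM D))))) *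
        Real.exp (C * CP0) := by
  have ha := hL.cp
  obtain ⟨e, he1, he2, he3, he4, he5, he6⟩ := h2 K
  have hWne : Ideal.span {(W : 𝓞 K)} ≠ ⊥ := by
    rw [Ne, Ideal.span_singleton_eq_bot]
    exact_mod_cast hW.ne'
  have hfin : {v : HeightOneSpectrum (𝓞 K) | ∃ u ∈ S, e (𝒥 u) v ≠ 0}.Finite := by
    have h4 : {v : HeightOneSpectrum (𝓞 K) | ∃ u ∈ S, e (𝒥 u) v ≠ 0} =
        ⋃ u ∈ (S : Set U), {v | e (𝒥 u) v ≠ 0} := by
      ext v
      simp
    rw [h4]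
    exact Set.Finite.biUnion S.finite_toSet fun u hu => he2 _ (hJ u (Finset.mem_coe.1 hu))
  obtain ⟨P, hP⟩ : ∃ P : Finset (HeightOneSpectrum (𝓞 K)),
      ∀ v, v ∈ P ↔ ∃ u ∈ S, e (𝒥 u) v ≠ 0 := ⟨hfin.toFinset, fun v => by simp⟩
  have hq : ∀ v : HeightOneSpectrum (𝓞 K), (1 : ℝ) ≤ (qv v : ℝ) := fun v => by
    linarith [GDF_q v]
  set w : HeightOneSpectrum (𝓞 K) → ℕ := fun v => e (Ideal.span {(W : 𝓞 K)}) v with hwdef
  have hw : ∀ v, LowP z v → k ≤ w v := by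
    intro v hv
    obtain ⟨p, hp, hpz, hpv⟩ := hv
    rw [hwdef]
    refine (he1 _ v k hWne).2 ?_
    rw [Ideal.span_singleton_le_iff_mem]
    obtain ⟨c, hc⟩ := hWk p hp hpz
    rw [hc, Nat.cast_mul, Nat.cast_pow]
    exact Ideal.mul_mem_right _ _ (Ideal.pow_mem_pow hpv k)
  have h7 := (h3 {v // v ∈ P} U (fun v j => GDF_g a v.1 j) (fun v => (qv v.1 : ℝ)) S
    (fun u v => e (𝒥 u) v.1) (fun v => w v.1) (S.sup fun u => P.sup fun v => e (𝒥 u) v) Z
    (fun v j => GDF_g0 h1 ha v.1 j) (fun v => by simp [GDF_g]) (fun v => hq v.1) hZ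
    (fun u hu v => (Finset.le_sup (f := fun v => e (𝒥 u) v) v.2).trans
      (Finset.le_sup (f := fun u => P.sup fun v => e (𝒥 u) v) hu))
    (fun k _ => ?_)).2
  · set E : ℕ := S.sup fun u => P.sup fun v => e (𝒥 u) v with hE
    have h8 : ∑ u ∈ S, (GI a (𝒥 u) - GI a (𝒥 u ⊔ Ideal.span {(W : 𝓞 K)})) =
        ∑ u ∈ S, (∏ v : {v // v ∈ P}, ∑ j ∈ Finset.range (e (𝒥 u) v.1 + 1), GDF_g a v.1 j -
          ∏ v : {v // v ∈ P}, ∑ j ∈ Finset.range (min (e (𝒥 u) v.1) (w v.1) + 1),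
            GDF_g a v.1 j) := by
      refine Finset.sum_congr rfl fun u hu => ?_
      have hne : 𝒥 u ⊔ Ideal.span {(W : 𝓞 K)} ≠ ⊥ := by
        intro h
        exact hJ u hu (eq_bot_iff.2 (h ▸ le_sup_left))
      congr 1
      · rw [he6 r a ha (𝒥 u) P (hJ u hu) fun v hv => (hP v).2 ⟨u, hu, hv⟩,
          ← Finset.prod_coe_sort P fun v => GI a (v.asIdeal ^ e (𝒥 u) v)]
        exact Finset.prod_congr rfl fun v _ => (GDF_sum h1 ha v.1 _).symm
      · rw [he6 r a ha (𝒥 u ⊔ Ideal.span {(W : 𝓞 K)}) P hne fun v hv => (hP v).2 ⟨u, hu, by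
            rw [he3 _ _ v (hJ u hu) hWne] at hv
            omega⟩,
          ← Finset.prod_coe_sort P
            fun v => GI a (v.asIdeal ^ e (𝒥 u ⊔ Ideal.span {(W : 𝓞 K)}) v)]
        refine Finset.prod_congr rfl fun v _ => ?_
        rw [he3 _ _ v.1 (hJ u hu) hWne]
        exact (GDF_sum h1 ha v.1 _).symm
    rw [h8]
    refine h7.trans ?_
    have h9 : ∀ v : {v // v ∈ P}, ∑ j ∈ Finset.range (E + 1), GDF_g a v.1 j / (qv v.1 : ℝ) ^ j ≤
        Real.exp (C * ((qv v.1 : ℝ) ^ 2)⁻¹) := fun v => by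
      refine (GDF_fac hL v.1 E).trans ?_
      rw [div_eq_mul_inv]
      have := Real.add_one_le_exp (C * ((qv v.1 : ℝ) ^ 2)⁻¹)
      linarith
    have h10 : ∏ v : {v // v ∈ P}, ∑ j ∈ Finset.range (E + 1), GDF_g a v.1 j / (qv v.1 : ℝ) ^ j ≤
        Real.exp (C * CP0) := by
      refine (Finset.prod_le_prod (fun v _ => Finset.sum_nonneg fun j _ =>
        div_nonneg (GDF_g0 h1 ha v.1 j) (by positivity)) fun v _ => h9 v).trans ?_
      rw [← Real.exp_sum, Finset.sum_coe_sort P (fun v => C * ((qv v : ℝ) ^ 2)⁻¹),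
        ← Finset.mul_sum]
      refine Real.exp_le_exp.2 (mul_le_mul_of_nonneg_left ?_ hC.le)
      have := hPRS 1 le_rfl P fun v _ p hp hp1 => absurd hp.two_le (by omega)
      rwa [Nat.cast_one, div_one] at this
    have h11 : ∑ v : {v // v ∈ P}, ∑ j ∈ Finset.Ioc (w v.1) E, GDF_g a v.1 j / (qv v.1 : ℝ) ^ j ≤
        C * (CP0 / z) + ((z + 1) * dg K) *
        ((1 + C) * (((2 : ℝ) ^ (-(1 : ℝ) / MM D)) ^ k / (1 - (2 : ℝ) ^ (-(1 : ℝ) / MM D)))) := by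
      rw [Finset.sum_coe_sort P
        (fun v => ∑ j ∈ Finset.Ioc (w v) E, GDF_g a v j / (qv v : ℝ) ^ j)]
      exact GDF_tail h1 hD hC hL hPRS P w E z k hz hw
    refine mul_le_mul (mul_le_mul_of_nonneg_left h11 hZ) h10
      (Finset.prod_nonneg fun v _ => Finset.sum_nonneg fun j _ =>
        div_nonneg (GDF_g0 h1 ha v.1 j) (by positivity)) ?_
    refine mul_nonneg hZ (le_trans ?_ h11)
    exact Finset.sum_nonneg fun v _ => Finset.sum_nonneg fun j _ =>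
      div_nonneg (GDF_g0 h1 ha v.1 j) (by positivity)
  · have h10 := he5 P (fun v => if h : v ∈ P then k ⟨v, h⟩ else 0)
    have h11 := hS _ h10.1
    rw [h10.2] at h11
    have h12 : ∏ v ∈ P, (qv v : ℝ) ^ (if h : v ∈ P then k ⟨v, h⟩ else 0) =
        ∏ v : {v // v ∈ P}, (qv v.1 : ℝ) ^ k v := by
      rw [← Finset.prod_coe_sort P]
      exact Finset.prod_congr rfl fun v _ => by rw [dif_pos v.2]
    rw [h12] at h11
    refine le_trans (le_of_eq ?_) h11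
    congr 2
    refine congrArg Finset.card (Finset.filter_congr fun u hu => ?_)
    rw [← he4 (𝒥 u) P _ (hJ u hu)]
    constructor
    · intro h v hv
      rw [dif_pos hv]
      exact h ⟨v, hv⟩
    · intro h v
      have := h v.1 v.2
      rwa [dif_pos v.2] at this

end

theorem thm_GDF (h1 : St_GBA) (h2 : St_GPF) (h3 : St_PEX) : St_GDF := by
  intro K _ _ D hD C ε hC hε
  obtain ⟨CP0, hCP, hPRS, -⟩ := Pool.Agent.RHKB.thm_PRS K
  set b : ℝ := (2 : ℝ) ^ (-(1 : ℝ) / MM D) with hbdef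
  have hb0 : 0 ≤ b := by rw [hbdef]; positivity
  have hb1 : b < 1 := GDF_beta hD
  have h0b : 0 < 1 - b := by linarith
  have hex : 0 < Real.exp (C * CP0) := Real.exp_pos _
  set δ : ℝ := ε / (2 * Real.exp (C * CP0)) with hδ
  have hδ0 : 0 < δ := by positivity
  obtain ⟨z0, hz0⟩ := exists_nat_ge (C * CP0 / δ)
  set z : ℕ := z0 + 1 with hzdef
  have hz : 1 ≤ z := by omega
  have hz' : (0 : ℝ) < z := by exact_mod_cast hz
  have hzz : C * (CP0 / z) ≤ δ := by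
    have h4 : C * CP0 / δ ≤ z := hz0.trans (by exact_mod_cast Nat.le_succ z0)
    rw [div_le_iff₀ hδ0] at h4
    rw [← mul_div_assoc, div_le_iff₀ hz']
    linarith
  set A : ℝ := ((z + 1) * dg K) * ((1 + C) * (1 / (1 - b))) with hA
  have hA0 : 0 ≤ A := by positivity
  obtain ⟨k, hk⟩ := exists_pow_lt_of_lt_one (show 0 < δ / (A + 1) by positivity) hb1
  refine ⟨z ^ k, ?_⟩
  intro r a hL U S 𝒥 Z hZ hJ hS W hW hWd
  have h4 := GDF_main h1 h2 h3 hD hC hL hPRS S 𝒥 Z hZ hJ hS W z k hW hz fun p hp hpz =>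
    hWd (p ^ k) (Nat.one_le_pow _ _ hp.pos) (Nat.pow_le_pow_left hpz k)
  refine h4.trans ?_
  rw [← hbdef]
  have h5 : ((z + 1) * dg K) * ((1 + C) * (b ^ k / (1 - b))) = A * b ^ k := by
    rw [hA]; ring
  have h6 : A * b ^ k ≤ δ := by
    have h7 : A * b ^ k ≤ (A + 1) * b ^ k := by
      refine mul_le_mul_of_nonneg_right (by linarith) (by positivity)
    have h8 : (A + 1) * b ^ k ≤ (A + 1) * (δ / (A + 1)) :=
      mul_le_mul_of_nonneg_left hk.le (by linarith)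
    have h9 : (A + 1) * (δ / (A + 1)) = δ := by
      field_simp
    linarith
  rw [h5]
  have h10 : C * (CP0 / z) + A * b ^ k ≤ 2 * δ := by linarith
  calc Z * (C * (CP0 / z) + A * b ^ k) * Real.exp (C * CP0)
      ≤ Z * (2 * δ) * Real.exp (C * CP0) :=
        mul_le_mul_of_nonneg_right (mul_le_mul_of_nonneg_left h10 hZ) hex.le
    _ = ε * Z := by
        rw [hδ]
        field_simp

end Pool.Agent.NRN
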