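import Pool.Agent.NRN.StG
import Pool.Agent.RHKB.PRS

/-!
NRN, block G, module GEX: sums of `G` over equidistributed families of ideals (helper18).
-/

set_option autoImplicit false

namespace Pool.Agent.NRN

open scoped BigOperators
open Classical NumberField IsDedekindDomain
open Pool.Agent.RHP (Mon mono ev Sys Prim pd WB WW)
open Pool.Agent.RHK Pool.Agent.RHC Pool.Agent.NRM
open Pool.Agent.RHKB (mI hh jj qv MK uu BadK)
open Pool.Agent.RHCB (BadC cred cemb uk PrC hM f00)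

section

variable {K : Type} [Field K] [NumberField K]

/-- the increments of `G` at the powers of `v` -/
private noncomputable def GEX_g {r : ℕ} (a : (Fin r → 𝓞 K) → 𝓞 K) (v : HeightOneSpectrum (𝓞 K))
    (j : ℕ) : ℝ :=
  if j = 0 then 1 else GI a (v.asIdeal ^ j) - GI a (v.asIdeal ^ (j - 1))

private theorem GEX_powne (v : HeightOneSpectrum (𝓞 K)) (j : ℕ) : v.asIdeal ^ j ≠ ⊥ :=
  pow_ne_zero j v.ne_bot

private theorem GEX_top (h1 : St_GBA) {r : ℕ} {a : (Fin r → 𝓞 K) → 𝓞 K} (ha : CP a) :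
    GI a (⊤ : Ideal (𝓞 K)) = 1 :=
  (h1 K r a ha ⊤ top_ne_bot).2.2.2.2.1.2

private theorem GEX_g0 (h1 : St_GBA) {r : ℕ} {a : (Fin r → 𝓞 K) → 𝓞 K} (ha : CP a)
    (v : HeightOneSpectrum (𝓞 K)) (j : ℕ) : 0 ≤ GEX_g a v j := by
  unfold GEX_g
  split_ifs with h
  · exact zero_le_one
  · have h2 := (h1 K r a ha (v.asIdeal ^ j) (GEX_powne v j)).2.2.2.1 (v.asIdeal ^ (j - 1))
      (Ideal.pow_le_pow_right (Nat.sub_le j 1))
    linarith

private theorem GEX_sum (h1 : St_GBA) {r : ℕ} {a : (Fin r → 𝓞 K) → 𝓞 K} (ha : CP a)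
    (v : HeightOneSpectrum (𝓞 K)) (n : ℕ) :
    ∑ j ∈ Finset.range (n + 1), GEX_g a v j = GI a (v.asIdeal ^ n) := by
  induction n with
  | zero =>
    rw [zero_add, Finset.sum_range_one, pow_zero, Ideal.one_eq_top, GEX_top h1 ha]
    simp [GEX_g]
  | succ n ih =>
    rw [Finset.sum_range_succ, ih]
    simp [GEX_g]

private theorem GEX_fac {r D : ℕ} {a : (Fin r → 𝓞 K) → 𝓞 K} {C : ℝ} (hL : LOC D a C)
    (v : HeightOneSpectrum (𝓞 K)) (E : ℕ) :
    ∑ j ∈ Finset.range (E + 1), GEX_g a v j / (qv v : ℝ) ^ j ≤ 1 + C / (qv v : ℝ) ^ 2 := by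
  have h1 := hL.str v E
  have h2 : ∑ j ∈ Finset.range (E + 1), GEX_g a v j / (qv v : ℝ) ^ j =
      1 + ∑ j ∈ Finset.Icc 1 E, (GI a (v.asIdeal ^ j) - GI a (v.asIdeal ^ (j - 1))) /
        (qv v : ℝ) ^ j := by
    have h3 : Finset.Icc 1 E = Finset.Ico 1 (E + 1) := by
      ext x
      simp only [Finset.mem_Icc, Finset.mem_Ico]
      omega
    rw [Finset.range_eq_Ico, Finset.sum_eq_sum_Ico_succ_bot (Nat.succ_pos E), h3]
    have h4 : GEX_g a v 0 / (qv v : ℝ) ^ 0 = 1 := by simp [GEX_g]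
    rw [h4]
    congr 1
    refine Finset.sum_congr rfl fun j hj => ?_
    have h5 : j ≠ 0 := by
      have := (Finset.mem_Ico.1 hj).1
      omega
    simp only [GEX_g, if_neg h5]
  rw [h2]
  linarith

/-- the main estimate -/
private theorem GEX_main (h1 : St_GBA) (h2 : St_GPF) (h3 : St_PEX) {r D : ℕ}
    {a : (Fin r → 𝓞 K) → 𝓞 K} {C : ℝ} (hC : 0 < C) (hL : LOC D a C) {U : Type} (S : Finset U)
    (𝒥 : U → Ideal (𝓞 K)) (Z : ℝ) (hZ : 0 ≤ Z) (hJ : ∀ u ∈ S, 𝒥 u ≠ ⊥)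
    (hS : ∀ I : Ideal (𝓞 K), I ≠ ⊥ →
      ((S.filter fun u => 𝒥 u ≤ I).card : ℝ) * Ideal.absNorm I ≤ Z) :
    ∃ P : Finset (HeightOneSpectrum (𝓞 K)), (∀ v ∈ P, ∃ u ∈ S, 𝒥 u ≤ v.asIdeal) ∧
      ∑ u ∈ S, GI a (𝒥 u) ≤ Z * Real.exp (C * ∑ v ∈ P, ((qv v : ℝ) ^ 2)⁻¹) := by
  have ha := hL.cp
  obtain ⟨e, he1, he2, -, he4, he5, he6⟩ := h2 K
  have hfin : {v : HeightOneSpectrum (𝓞 K) | ∃ u ∈ S, e (𝒥 u) v ≠ 0}.Finite := by
    have h4 : {v : HeightOneSpectrum (𝓞 K) | ∃ u ∈ S, e (𝒥 u) v ≠ 0} =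
        ⋃ u ∈ (S : Set U), {v | e (𝒥 u) v ≠ 0} := by
      ext v
      simp
    rw [h4]
    exact Set.Finite.biUnion S.finite_toSet fun u hu => he2 _ (hJ u (Finset.mem_coe.1 hu))
  obtain ⟨P, hP⟩ : ∃ P : Finset (HeightOneSpectrum (𝓞 K)),
      ∀ v, v ∈ P ↔ ∃ u ∈ S, e (𝒥 u) v ≠ 0 := ⟨hfin.toFinset, fun v => by simp⟩
  refine ⟨P, ?_, ?_⟩
  · intro v hv
    obtain ⟨u, hu, h5⟩ := (hP v).1 hv
    refine ⟨u, hu, ?_⟩
    have h6 := (he1 (𝒥 u) v 1 (hJ u hu)).1 (Nat.one_le_iff_ne_zero.2 h5)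
    rwa [pow_one] at h6
  · have hq : ∀ v : HeightOneSpectrum (𝓞 K), (1 : ℝ) ≤ (qv v : ℝ) := fun v => by
      exact_mod_cast Pool.Agent.RHKB.PRS_pos v
    have h7 := (h3 {v // v ∈ P} U (fun v j => GEX_g a v.1 j) (fun v => (qv v.1 : ℝ)) S
      (fun u v => e (𝒥 u) v.1) (fun _ => 0) (S.sup fun u => P.sup fun v => e (𝒥 u) v) Z
      (fun v j => GEX_g0 h1 ha v.1 j) (fun v => by simp [GEX_g]) (fun v => hq v.1) hZ
      (fun u hu v => (Finset.le_sup (f := fun v => e (𝒥 u) v) v.2).trans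
        (Finset.le_sup (f := fun u => P.sup fun v => e (𝒥 u) v) hu))
      (fun k _ => ?_)).1
    · set E : ℕ := S.sup fun u => P.sup fun v => e (𝒥 u) v with hE
      have h8 : ∑ u ∈ S, GI a (𝒥 u) = ∑ u ∈ S, ∏ v : {v // v ∈ P},
          ∑ j ∈ Finset.range (e (𝒥 u) v.1 + 1), GEX_g a v.1 j := by
        refine Finset.sum_congr rfl fun u hu => ?_
        rw [he6 r a ha (𝒥 u) P (hJ u hu) fun v hv => (hP v).2 ⟨u, hu, hv⟩,
          ← Finset.prod_coe_sort P fun v => GI a (v.asIdeal ^ e (𝒥 u) v)]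
        exact Finset.prod_congr rfl fun v _ => (GEX_sum h1 ha v.1 _).symm
      rw [h8]
      refine h7.trans (mul_le_mul_of_nonneg_left ?_ hZ)
      have h9 : ∀ v : {v // v ∈ P}, ∑ j ∈ Finset.range (E + 1), GEX_g a v.1 j / (qv v.1 : ℝ) ^ j ≤
          Real.exp (C * ((qv v.1 : ℝ) ^ 2)⁻¹) := fun v => by
        refine (GEX_fac hL v.1 E).trans ?_
        rw [div_eq_mul_inv]
        have := Real.add_one_le_exp (C * ((qv v.1 : ℝ) ^ 2)⁻¹)
        linarith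
      refine (Finset.prod_le_prod (fun v _ => Finset.sum_nonneg fun j _ =>
        div_nonneg (GEX_g0 h1 ha v.1 j) (by positivity)) fun v _ => h9 v).trans ?_
      rw [← Real.exp_sum, Finset.mul_sum, ← Finset.sum_coe_sort P]
    · have h10 := he5 P (fun v => if h : v ∈ P then k ⟨v, h⟩ else 0)
      have h11 := hS _ h10.1
      rw [h10.2] at h11
      have h12 : ∏ v ∈ P, (qv v : ℝ) ^ (if h : v ∈ P then k ⟨v, h⟩ else 0) =
          ∏ v : {v // v ∈ P}, (qv v.1 : ℝ) ^ k v := by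
        rw [← Finset.prod_coe_sort P]
        exact Finset.prod_congr rfl fun v _ => by rw [dif_pos v.2]
      rw [h12] at h11
      refine le_trans (le_of_eq ?_) h11
      congr 2
      refine congrArg Finset.card (Finset.filter_congr fun u hu => ?_)
      rw [← he4 (𝒥 u) P _ (hJ u hu)]
      constructor
      · intro h v hv
        rw [dif_pos hv]
        exact h ⟨v, hv⟩
      · intro h v
        have := h v.1 v.2
        rwa [dif_pos v.2] at this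

end

theorem thm_GEX (h1 : St_GBA) (h2 : St_GPF) (h3 : St_PEX) : St_GEX := by
  intro K _ _ D C hC
  obtain ⟨CP0, hCP, hPRS, -⟩ := Pool.Agent.RHKB.thm_PRS K
  have hx : 0 < C * CP0 := mul_pos hC hCP
  have hex : 0 < Real.exp (C * CP0) := Real.exp_pos _
  refine ⟨(C * CP0 + 1) * Real.exp (C * CP0), by positivity, ?_⟩
  intro r a hL U S 𝒥 Z hZ hJ hS
  obtain ⟨P, hP, hmain⟩ := GEX_main h1 h2 h3 hC hL S 𝒥 Z hZ hJ hS
  refine ⟨?_, ?_⟩
  · have h4 := hPRS 1 le_rfl P fun v _ p hp hp1 => absurd hp.two_le (by omega)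
    rw [Nat.cast_one, div_one] at h4
    have h5 : Real.exp (C * ∑ v ∈ P, ((qv v : ℝ) ^ 2)⁻¹) ≤ Real.exp (C * CP0) :=
      Real.exp_le_exp.2 (mul_le_mul_of_nonneg_left h4 hC.le)
    refine hmain.trans ?_
    rw [mul_comm Z]
    refine mul_le_mul_of_nonneg_right (h5.trans ?_) hZ
    nlinarith
  · intro p0 hp0 hlow
    have hp0' : (1 : ℝ) ≤ p0 := by exact_mod_cast hp0
    have h4 := hPRS p0 hp0 P fun v hv p hp hpp hmem => by
      obtain ⟨u, hu, h6⟩ := hP v hv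
      exact hlow u hu v ⟨p, hp, hpp, hmem⟩ h6
    have h5 : Real.exp (C * ∑ v ∈ P, ((qv v : ℝ) ^ 2)⁻¹) ≤ Real.exp (C * (CP0 / p0)) :=
      Real.exp_le_exp.2 (mul_le_mul_of_nonneg_left h4 hC.le)
    refine hmain.trans ?_
    rw [mul_comm Z]
    refine mul_le_mul_of_nonneg_right (h5.trans ?_) hZ
    set x : ℝ := C * (CP0 / p0) with hxd
    have hx0 : 0 ≤ x := by positivity
    have hxle : x ≤ C * CP0 := by
      rw [hxd]
      refine mul_le_mul_of_nonneg_left (div_le_self hCP.le hp0') hC.le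
    -- `exp x ≤ 1 + x exp x`
    have h7 : Real.exp x ≤ 1 + x * Real.exp x := by
      have h8 := Real.add_one_le_exp (-x)
      have h9 : Real.exp x * Real.exp (-x) = 1 := by rw [← Real.exp_add]; simp
      have h10 : 0 < Real.exp x := Real.exp_pos x
      nlinarith
    have h8 : Real.exp x ≤ Real.exp (C * CP0) := Real.exp_le_exp.2 hxle
    have h9 : (C * CP0 + 1) * Real.exp (C * CP0) / p0 =
        x * Real.exp (C * CP0) + Real.exp (C * CP0) / p0 := by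
      rw [hxd]
      field_simp
    rw [h9]
    have h10 : 0 ≤ Real.exp (C * CP0) / p0 := by positivity
    have h11 := mul_le_mul_of_nonneg_left h8 hx0
    linarith

end Pool.Agent.NRN
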