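import Pool.Agent.NRN.StG

/-!
NRN, module GPF: the exponents of an ideal and the product formula for `GI`.  helper19.
-/

set_option autoImplicit false

namespace Pool.Agent.NRN

open scoped BigOperators
open Classical NumberField IsDedekindDomain
open Pool.Agent.RHP (Mon mono ev Sys Prim pd WB WW)
open Pool.Agent.RHK Pool.Agent.RHC Pool.Agent.NRM
open Pool.Agent.RHKB (mI hh jj qv MK uu BadK)
open Pool.Agent.RHCB (BadC cred cemb uk PrC hM f00)

section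

variable {K : Type} [Field K] [NumberField K]

/-- the exponent of `v` in `I` -/
noncomputable def GPF_e (I : Ideal (𝓞 K)) (v : HeightOneSpectrum (𝓞 K)) : ℕ :=
  (Associates.mk v.asIdeal).count (Associates.mk I).factors

theorem GPF_one {I : Ideal (𝓞 K)} (v : HeightOneSpectrum (𝓞 K)) (j : ℕ) (hI : I ≠ ⊥) :
    j ≤ GPF_e I v ↔ I ≤ v.asIdeal ^ j := by
  unfold GPF_e
  rw [← Associates.prime_pow_dvd_iff_le (Associates.mk_ne_zero.mpr hI) v.associates_irreducible,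
    ← Associates.mk_pow, Associates.mk_le_mk_iff_dvd, Ideal.dvd_iff_le]

theorem GPF_fin {I : Ideal (𝓞 K)} (hI : I ≠ ⊥) : {v | GPF_e I v ≠ 0}.Finite := by
  refine (Ideal.finite_factors hI).subset ?_
  intro v hv
  have h1 : 1 ≤ GPF_e I v := Nat.one_le_iff_ne_zero.mpr hv
  rw [GPF_one v 1 hI, pow_one] at h1
  exact Ideal.dvd_iff_le.mpr h1

theorem GPF_sup {I J : Ideal (𝓞 K)} (v : HeightOneSpectrum (𝓞 K)) (hI : I ≠ ⊥) (hJ : J ≠ ⊥) :
    GPF_e (I ⊔ J) v = min (GPF_e I v) (GPF_e J v) := by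
  have hS : I ⊔ J ≠ ⊥ := fun h => hI (le_bot_iff.mp (h ▸ le_sup_left))
  refine eq_of_forall_le_iff fun j => ?_
  rw [GPF_one v j hS, le_min_iff, GPF_one v j hI, GPF_one v j hJ, sup_le_iff]

theorem GPF_cop {v w : HeightOneSpectrum (𝓞 K)} (h : v ≠ w) (j k : ℕ) :
    IsCoprime (v.asIdeal ^ j) (w.asIdeal ^ k) := by
  have h1 : v.asIdeal ⊔ w.asIdeal = ⊤ :=
    v.isMaximal.coprime_of_ne w.isMaximal fun h2 => h (HeightOneSpectrum.ext h2)
  exact (Ideal.isCoprime_iff_sup_eq.mpr h1).pow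

theorem GPF_four {I : Ideal (𝓞 K)} (P : Finset (HeightOneSpectrum (𝓞 K)))
    (k : HeightOneSpectrum (𝓞 K) → ℕ) (hI : I ≠ ⊥) :
    (∀ v ∈ P, k v ≤ GPF_e I v) ↔ I ≤ ∏ v ∈ P, v.asIdeal ^ k v := by
  constructor
  · intro h
    refine Ideal.dvd_iff_le.mp (Finset.prod_dvd_of_coprime ?_ ?_)
    · intro v _ w _ hvw
      exact GPF_cop hvw _ _
    · intro v hv
      exact Ideal.dvd_iff_le.mpr ((GPF_one v (k v) hI).mp (h v hv))
  · intro h v hv
    rw [GPF_one v (k v) hI]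
    exact h.trans (Ideal.dvd_iff_le.mp (Finset.dvd_prod_of_mem _ hv))

theorem GPF_ne (P : Finset (HeightOneSpectrum (𝓞 K))) (k : HeightOneSpectrum (𝓞 K) → ℕ) :
    ∏ v ∈ P, v.asIdeal ^ k v ≠ ⊥ := by
  have h1 : ∏ v ∈ P, v.asIdeal ^ k v ≠ 0 :=
    Finset.prod_ne_zero_iff.mpr fun v _ => pow_ne_zero _ v.ne_bot
  exact h1

theorem GPF_nrm (P : Finset (HeightOneSpectrum (𝓞 K))) (k : HeightOneSpectrum (𝓞 K) → ℕ) :
    (Ideal.absNorm (∏ v ∈ P, v.asIdeal ^ k v) : ℝ) = ∏ v ∈ P, (qv v : ℝ) ^ k v := by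
  rw [map_prod]
  push_cast
  refine Finset.prod_congr rfl fun v _ => ?_
  rw [map_pow]
  push_cast
  rfl

theorem GPF_fac {I : Ideal (𝓞 K)} (hI : I ≠ ⊥) (P : Finset (HeightOneSpectrum (𝓞 K)))
    (hP : ∀ v, GPF_e I v ≠ 0 → v ∈ P) : ∏ v ∈ P, v.asIdeal ^ GPF_e I v = I := by
  conv_rhs => rw [← Ideal.finprod_heightOneSpectrum_factorization hI]
  symm
  refine finprod_eq_prod_of_mulSupport_subset _ ?_
  intro v hv
  by_contra h
  have h0 : GPF_e I v = 0 := by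
    by_contra h1
    exact h (hP v h1)
  apply hv
  change v.asIdeal ^ GPF_e I v = 1
  rw [h0, pow_zero]

theorem GPF_prod (h1 : St_GBA) {r : ℕ} {a : (Fin r → 𝓞 K) → 𝓞 K} (ha : CP a)
    (P : Finset (HeightOneSpectrum (𝓞 K))) (k : HeightOneSpectrum (𝓞 K) → ℕ) :
    GI a (∏ v ∈ P, v.asIdeal ^ k v) = ∏ v ∈ P, GI a (v.asIdeal ^ k v) := by
  induction P using Finset.induction_on with
  | empty =>
    rw [Finset.prod_empty, Finset.prod_empty, Ideal.one_eq_top]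
    exact (h1 K r a ha ⊤ top_ne_bot).2.2.2.2.1.2
  | insert v P hv ih =>
    have h2 : v.asIdeal ^ k v ≠ ⊥ := by
      have h3 : v.asIdeal ^ k v ≠ 0 := pow_ne_zero _ v.ne_bot
      exact h3
    have h4 : IsCoprime (v.asIdeal ^ k v) (∏ w ∈ P, w.asIdeal ^ k w) :=
      IsCoprime.prod_right fun w hw => GPF_cop (fun h : v = w => hv (h.symm ▸ hw)) _ _
    rw [Finset.prod_insert hv, Finset.prod_insert hv, ← ih]
    exact (h1 K r a ha _ h2).2.2.2.2.2.1 _ (GPF_ne P k) h4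

end

/-- [GPF] -/
theorem thm_GPF (h1 : St_GBA) : St_GPF := by
  intro K _ _
  refine ⟨GPF_e, fun I v j hI => GPF_one v j hI, fun I hI => GPF_fin hI,
    fun I J v hI hJ => GPF_sup v hI hJ, fun I P k hI => GPF_four P k hI,
    fun P k => ⟨GPF_ne P k, GPF_nrm P k⟩, fun r a ha I P hI hP => ?_⟩
  have h2 := GPF_prod h1 ha P (GPF_e I)
  rw [GPF_fac hI P hP] at h2
  exact h2

end Pool.Agent.NRN
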