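import Pool.Agent.NRN.StL
import Pool.Agent.RHKB.PLW

/-!
NRN: copy with two or more variables x of the following module.
NRM (NORM), [HPN]: the Hasse principle from the approximation of the points at the infinite places.
-/

set_option autoImplicit false

namespace Pool.Agent.NRN

open scoped BigOperators
open Classical NumberField IsDedekindDomain
open Pool.Agent.RHP (Mon mono ev Sys Prim pd WB WW)
open Pool.Agent.RHK Pool.Agent.RHC Pool.Agent.NRM
open Pool.Agent.RHKB (mI hh jj qv MK uu BadK)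
open Pool.Agent.RHCB (BadC cred cemb uk PrC hM f00)

/-- the size of the value of a form -/
theorem HPN_ev {L : Type} [NormedField L] {s d : ℕ} (F : Mon s d → L) (M : ℝ)
    (hF : ∀ μ, ‖F μ‖ ≤ M) (x : Fin s → L) :
    ‖ev F x‖ ≤ (Fintype.card (Mon s d) : ℝ) * (M * ‖x‖ ^ d) := by
  unfold ev
  refine (norm_sum_le _ _).trans ?_
  have h2 : ∀ μ ∈ (Finset.univ : Finset (Mon s d)), ‖F μ * mono x μ.1‖ ≤ M * ‖x‖ ^ d := by
    intro μ _
    rw [norm_mul]
    have h3 : ‖mono x μ.1‖ ≤ ‖x‖ ^ d := by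
      unfold mono
      rw [norm_prod]
      calc ∏ i, ‖x i ^ μ.1 i‖ ≤ ∏ i, ‖x‖ ^ μ.1 i := by
            refine Finset.prod_le_prod (fun _ _ => norm_nonneg _) fun i _ => ?_
            rw [norm_pow]
            exact pow_le_pow_left₀ (norm_nonneg _) (norm_le_pi_norm x i) _
        _ = ‖x‖ ^ d := by rw [Finset.prod_pow_eq_pow_sum, μ.sum_eq]
    exact mul_le_mul (hF μ) h3 (norm_nonneg _) ((norm_nonneg _).trans (hF μ))
  refine (Finset.sum_le_sum h2).trans (le_of_eq ?_)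
  rw [Finset.sum_const, Finset.card_univ, nsmul_eq_mul]

theorem thm_HP1 (h : St_CONE) : St_HP1 := by
  intro K _ _ s r D m hyp g
  have hD : 1 ≤ D := by
    have := hyp.hD
    omega
  have hs : 0 < s := by
    have := hyp.hs
    omega
  have hw := RHKB.thm_PLW
  have hne : Nonempty (Mon s (D * m)) := by
    refine ⟨⟨fun i => if i = ⟨0, hs⟩ then D * m else 0, ?_⟩⟩
    rw [Finset.Nat.mem_antidiagonalTuple, Finset.sum_ite_eq' Finset.univ (⟨0, hs⟩ : Fin s)]
    simp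
  have e1 : ∀ v : InfinitePlace K, ∃ C : ℝ, 0 < C ∧ ∀ c : v.Completion,
      (∃ w, ev (gL v.Completion g) w = c) →
        ∃ w, ev (gL v.Completion g) w = c ∧ ∀ j, ‖w j‖ ^ D ≤ C * ‖c‖ := by
    intro v
    obtain ⟨hp, hx, -, hq, -, -⟩ := hw K v
    refine h v.Completion hx r D hD ?_ (gL v.Completion g)
    intro h0
    have h1 := hq (D : ℚ)
    rw [Rat.cast_natCast, Rat.cast_natCast, h0, norm_zero] at h1
    have h2 : (0 : ℝ) < |(D : ℝ)| := abs_pos.2 (by
      have : D ≠ 0 := by omega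
      exact_mod_cast this)
    linarith
  choose C hC0 hC using e1
  obtain ⟨C1, hC1⟩ : ∃ C1 : ℝ, C1 = ∑ v, C v := ⟨_, rfl⟩
  have hCle : ∀ v, C v ≤ C1 := fun v => by
    rw [hC1]
    exact Finset.single_le_sum (fun w _ => (hC0 w).le) (Finset.mem_univ v)
  have hC1n : 0 ≤ C1 := by
    rw [hC1]
    exact Finset.sum_nonneg fun w _ => (hC0 w).le
  obtain ⟨N, hN⟩ : ∃ N : ℝ, N = (Fintype.card (Mon s (D * m)) : ℝ) := ⟨_, rfl⟩
  have hNn : 0 ≤ N := by
    rw [hN]
    positivity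
  have hCN : 0 < C1 * N + 1 := by positivity
  refine ⟨(C1 * N + 1)⁻¹, inv_pos.2 hCN, ?_⟩
  intro f hE hDN
  have e2 : ∀ v : InfinitePlace K, ∃ (y : Fin s → v.Completion) (b : Fin r → v.Completion),
      IsPtN g f y b ∧ SizN D m f (C1 * N + 1)⁻¹ y b := by
    intro v
    obtain ⟨x, w, hx, hxw⟩ := hE.1 v
    obtain ⟨w', hw1, hw2⟩ := hC v _ ⟨w, hxw.symm⟩
    refine ⟨x, w', ⟨hx, hw1.symm⟩, ?_⟩
    obtain ⟨μ, hμ⟩ := Finite.exists_max fun μ : Mon s (D * m) => ‖jj v.Completion (f μ)‖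
    refine ⟨μ, fun j => ?_⟩
    have h1 : ‖ev (cemb (1 : v.Completion) f) x‖ ≤
        N * (‖jj v.Completion (f μ)‖ * ‖x‖ ^ (D * m)) := by
      rw [hN]
      refine HPN_ev _ _ (fun ν => ?_) x
      change ‖(1 : v.Completion) * jj v.Completion (f ν)‖ ≤ _
      rw [one_mul]
      exact hμ ν
    have h2 : 0 ≤ ‖jj v.Completion (f μ)‖ * ‖x‖ ^ (D * m) := by positivity
    have h3 : ‖w' j‖ ^ D ≤ (C1 * N + 1) * (‖jj v.Completion (f μ)‖ * ‖x‖ ^ (D * m)) := by
      calc ‖w' j‖ ^ D ≤ C v * ‖ev (cemb (1 : v.Completion) f) x‖ := hw2 j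
        _ ≤ C1 * (N * (‖jj v.Completion (f μ)‖ * ‖x‖ ^ (D * m))) :=
            mul_le_mul (hCle v) h1 (norm_nonneg _) hC1n
        _ ≤ (C1 * N + 1) * (‖jj v.Completion (f μ)‖ * ‖x‖ ^ (D * m)) := by
            rw [add_mul, one_mul, mul_assoc]
            linarith
    rw [inv_mul_le_iff₀ hCN]
    exact h3
  choose y b hyb using e2
  obtain ⟨x, w, hxw, -, -⟩ := hDN (fun _ _ => 0) (fun _ _ => 0) y b
    (fun v hv => absurd hv (Finset.notMem_empty v)) hyb
  exact ⟨x, w, hxw⟩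

end Pool.Agent.NRN
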