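import Pool.Agent.NRN.StG
import Pool.Agent.NRM.VDQN
import Pool.Agent.NRM.VDQP
import Pool.Agent.NRM.LNP

/-!
NRN, block G, [LGB]: the strong bound for `GI` at almost all prime ideals (helper86).
-/

set_option autoImplicit false

namespace Pool.Agent.NRN

open scoped BigOperators
open Classical NumberField IsDedekindDomain
open Pool.Agent.RHP (Mon mono ev Sys Prim pd WB WW)
open Pool.Agent.RHK Pool.Agent.RHC Pool.Agent.NRM
open Pool.Agent.RHKB (mI hh jj qv MK uu BadK)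
open Pool.Agent.RHCB (BadC cred cemb uk PrC hM f00)

/-- values of forms are congruence preserving -/
theorem LGB_cp {K : Type} [Field K] [NumberField K] {r D : ℕ} (g : Mon r D → 𝓞 K) :
    CP (fun w => ev g w) := by
  intro I w w' h
  rw [← Ideal.Quotient.mk_eq_mk_iff_sub_mem, ← RHP.ev_map, ← RHP.ev_map]
  congr 1
  funext j
  exact (Ideal.Quotient.mk_eq_mk_iff_sub_mem _ _).2 (h j)

theorem LGB_PQ_nonneg {K : Type} [Field K] [NumberField K] {r : ℕ} (a : (Fin r → 𝓞 K) → 𝓞 K)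
    (I : Ideal (𝓞 K)) (c : 𝓞 K ⧸ I) : 0 ≤ PQ a I c := by
  unfold PQ
  positivity

/-- the bound from VDQN -/
theorem LGB_weak (K : Type) [Field K] [NumberField K] (r D : ℕ) (hD : 2 ≤ D) (g : Mon r D → 𝓞 K)
    (hg : g ≠ 0) : ∃ C : ℝ, 0 < C ∧ ∀ (I : Ideal (𝓞 K)) (c : 𝓞 K ⧸ I), I ≠ ⊥ →
      PQ (fun w => ev g w) I c * (Ideal.absNorm I : ℝ) ^ ((1 : ℝ) / MM D) ≤ C := by
  obtain ⟨C, hC, h⟩ := thm_VDQN thm_LNP thm_VDQP K r D hD g hg
  refine ⟨C, hC, fun I c hI => ?_⟩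
  have : Finite (𝓞 K ⧸ I) := Ideal.finiteQuotientOfFreeOfNeBot I hI
  have h1 := h (𝓞 K ⧸ I) (Ideal.Quotient.mk I) Ideal.Quotient.mk_surjective c
  have hN : Nat.card (𝓞 K ⧸ I) = Ideal.absNorm I := by
    rw [Ideal.absNorm_apply, Submodule.cardQuot_apply]
  rw [hN] at h1
  have hpos : (0 : ℝ) < (Ideal.absNorm I : ℝ) := by
    rw [← hN]
    exact_mod_cast Nat.card_pos
  have h2 : ∀ ω : Fin r → 𝓞 K ⧸ I, (Ideal.Quotient.mk I (ev g (lf ω)) = c ↔
      ev (fun μ => Ideal.Quotient.mk I (g μ)) ω = c) := by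
    intro ω
    rw [← RHP.ev_map]
    have e1 : (fun i => (Ideal.Quotient.mk I) (lf ω i)) = ω := funext fun i => mk_lf ω i
    rw [e1]
  have h3 : Nat.card {ω : Fin r → 𝓞 K ⧸ I // Ideal.Quotient.mk I (ev g (lf ω)) = c} =
      Nat.card {ω : Fin r → 𝓞 K ⧸ I // ev (fun μ => Ideal.Quotient.mk I (g μ)) ω = c} :=
    Nat.card_congr (Equiv.subtypeEquivRight h2)
  unfold PQ
  rw [h3, div_mul_eq_mul_div, div_le_iff₀ (by positivity)]
  exact h1

/-- number of elements of the kernel of the reduction -/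
theorem LGB_ker {K : Type} [Field K] [NumberField K] {I J : Ideal (𝓞 K)} (h : I ≤ J)
    [Fintype (𝓞 K ⧸ I)] :
    ((Finset.univ.filter fun c : 𝓞 K ⧸ I => Ideal.Quotient.factor h c = 0).card : ℝ) *
      Ideal.absNorm J = Ideal.absNorm I := by
  let f : (𝓞 K ⧸ I) →+ (𝓞 K ⧸ J) := (Ideal.Quotient.factor h).toAddMonoidHom
  have h1 : Nat.card f.ker * f.ker.index = Nat.card (𝓞 K ⧸ I) := f.ker.card_mul_index
  rw [AddSubgroup.index_ker] at h1
  have h2 : f.range = ⊤ := AddMonoidHom.range_eq_top.2 (Ideal.Quotient.factor_surjective h)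
  rw [h2, AddSubgroup.card_top] at h1
  have hNI : Nat.card (𝓞 K ⧸ I) = Ideal.absNorm I := by
    rw [Ideal.absNorm_apply, Submodule.cardQuot_apply]
  have hNJ : Nat.card (𝓞 K ⧸ J) = Ideal.absNorm J := by
    rw [Ideal.absNorm_apply, Submodule.cardQuot_apply]
  rw [hNI, hNJ] at h1
  have h3 : (Finset.univ.filter fun c : 𝓞 K ⧸ I => Ideal.Quotient.factor h c = 0).card =
      Nat.card f.ker := by
    rw [← Fintype.card_subtype, ← Nat.card_eq_fintype_card]
    rfl
  rw [h3]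
  exact_mod_cast h1

/-- real numbers: the sum of the squares, if `P` is constant on `U` and small outside of `U` -/
theorem LGB_sq {X : Type} [Fintype X] (P : X → ℝ) (U : X → Prop) (u b β : ℝ) (n : ℝ)
    (hP : ∀ c, 0 ≤ P c) (h1 : ∑ c, P c = 1) (hu : ∀ c, U c → P c = u)
    (hn : ((Finset.univ.filter U).card : ℝ) = n) (hn0 : 0 < n)
    (hb : ∑ c ∈ Finset.univ.filter (fun c => ¬ U c), P c ≤ b)
    (hβ : ∀ c, ¬ U c → P c ≤ β) (hβ0 : 0 ≤ β) :
    ∑ c, P c ^ 2 ≤ 1 / n + b * β := by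
  rw [← Finset.sum_filter_add_sum_filter_not Finset.univ U (fun c => P c ^ 2)]
  have h2 : ∑ c ∈ Finset.univ.filter U, P c = n * u := by
    rw [Finset.sum_congr rfl fun c hc => hu c (Finset.mem_filter.1 hc).2, Finset.sum_const,
      nsmul_eq_mul, hn]
  have h3 : ∑ c ∈ Finset.univ.filter U, P c ^ 2 = n * u ^ 2 := by
    rw [Finset.sum_congr rfl fun c hc => by rw [hu c (Finset.mem_filter.1 hc).2],
      Finset.sum_const, nsmul_eq_mul, hn]
  have h4 : n * u ≤ 1 := by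
    rw [← h2, ← h1]
    exact Finset.sum_le_univ_sum_of_nonneg hP
  have hu0 : 0 ≤ u := by
    have : 0 ≤ n * u := by
      rw [← h2]
      exact Finset.sum_nonneg fun c _ => hP c
    exact nonneg_of_mul_nonneg_right this hn0
  have h5 : u ≤ 1 / n := by
    rw [le_div_iff₀ hn0]
    linarith
  refine add_le_add ?_ ?_
  · rw [h3]
    calc n * u ^ 2 = (n * u) * u := by ring
      _ ≤ 1 * u := mul_le_mul_of_nonneg_right h4 hu0
      _ ≤ 1 / n := by linarith
  · calc ∑ c ∈ Finset.univ.filter (fun c => ¬ U c), P c ^ 2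
        ≤ ∑ c ∈ Finset.univ.filter (fun c => ¬ U c), P c * β := by
          refine Finset.sum_le_sum fun c hc => ?_
          rw [pow_two]
          exact mul_le_mul_of_nonneg_left (hβ c (Finset.mem_filter.1 hc).2) (hP c)
      _ = (∑ c ∈ Finset.univ.filter (fun c => ¬ U c), P c) * β := by rw [Finset.sum_mul]
      _ ≤ b * β := mul_le_mul_of_nonneg_right hb hβ0

/-- the bound for `GI` at one prime power -/
theorem LGB_one (h1 : St_GBA) {K : Type} [Field K] [NumberField K] {r : ℕ}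
    (a : (Fin r → 𝓞 K) → 𝓞 K) (ha : CP a) (v : HeightOneSpectrum (𝓞 K)) (j : ℕ) (hj : 1 ≤ j)
    (b β : ℝ) (hb0 : 0 ≤ b)
    (hun : ∀ x y : 𝓞 K, x ∉ v.asIdeal → y ∉ v.asIdeal →
      PQ a (v.asIdeal ^ j) (Ideal.Quotient.mk _ x) = PQ a (v.asIdeal ^ j) (Ideal.Quotient.mk _ y))
    (hz : PQ a v.asIdeal 0 ≤ b) (hβ : ∀ c, PQ a (v.asIdeal ^ j) c ≤ β) :
    GI a (v.asIdeal ^ j) ≤ 1 + 2 / (qv v : ℝ) + (qv v : ℝ) ^ j * (b * min b β) := by
  have hvb : v.asIdeal ≠ ⊥ := v.ne_bot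
  have hI : v.asIdeal ^ j ≠ ⊥ := pow_ne_zero j hvb
  have hle : v.asIdeal ^ j ≤ v.asIdeal := Ideal.pow_le_self (by omega)
  have : Finite (𝓞 K ⧸ v.asIdeal ^ j) := Ideal.finiteQuotientOfFreeOfNeBot _ hI
  have : Fintype (𝓞 K ⧸ v.asIdeal ^ j) := Fintype.ofFinite _
  obtain ⟨g1, g2, g3, -, -, -, -⟩ := h1 K r a ha (v.asIdeal ^ j) hI
  have hN : (Ideal.absNorm (v.asIdeal ^ j) : ℝ) = (qv v : ℝ) ^ j := by
    rw [map_pow]
    push_cast
    rfl
  have hq2 : 2 ≤ qv v := by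
    have h0 : qv v ≠ 0 := by
      intro h0
      exact hvb (Ideal.absNorm_eq_zero_iff.1 h0)
    have h01 : qv v ≠ 1 := by
      intro h0
      exact v.isPrime.ne_top (Ideal.absNorm_eq_one_iff.1 h0)
    omega
  have hq2' : (2 : ℝ) ≤ (qv v : ℝ) := by exact_mod_cast hq2
  have hq0 : (0 : ℝ) < (qv v : ℝ) := by linarith
  set q : ℝ := (qv v : ℝ) with hq
  set P : 𝓞 K ⧸ v.asIdeal ^ j → ℝ := PQ a (v.asIdeal ^ j) with hPd
  have hP : ∀ c, 0 ≤ P c := LGB_PQ_nonneg a _
  have hsum : ∑ c, P c = 1 := g2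
  obtain ⟨U, hU⟩ : ∃ U : 𝓞 K ⧸ v.asIdeal ^ j → Prop,
      ∀ c, U c ↔ ¬ Ideal.Quotient.factor hle c = 0 := ⟨_, fun c => Iff.rfl⟩
  have hzs : ∑ c ∈ Finset.univ.filter (fun c => ¬ U c), P c ≤ b := by
    have e1 := g3 v.asIdeal hle 0
    have e2 : (Finset.univ.filter fun c => ¬ U c) =
        Finset.univ.filter fun c' => Ideal.Quotient.factor hle c' = 0 := by
      refine Finset.filter_congr fun c _ => ?_
      rw [hU, not_not]
    rw [e2, ← e1]
    exact hz
  have hcard : ((Finset.univ.filter U).card : ℝ) = q ^ j * (1 - 1 / q) := by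
    have e1 := LGB_ker (K := K) hle
    rw [hN] at e1
    have e2 : (Finset.univ.filter U).card +
        (Finset.univ.filter fun c : 𝓞 K ⧸ v.asIdeal ^ j => Ideal.Quotient.factor hle c = 0).card =
        Fintype.card (𝓞 K ⧸ v.asIdeal ^ j) := by
      have e3 := Finset.card_filter_add_card_filter_not (s := Finset.univ) (p := fun c :
        𝓞 K ⧸ v.asIdeal ^ j => Ideal.Quotient.factor hle c = 0)
      rw [Finset.card_univ] at e3
      have e4 : (Finset.univ.filter U) = Finset.univ.filter fun c :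
          𝓞 K ⧸ v.asIdeal ^ j => ¬ Ideal.Quotient.factor hle c = 0 :=
        Finset.filter_congr fun c _ => hU c
      rw [← e3, add_comm, e4]
    have e4 : (Fintype.card (𝓞 K ⧸ v.asIdeal ^ j) : ℝ) = q ^ j := by
      rw [← hN, ← Nat.card_eq_fintype_card, Ideal.absNorm_apply, Submodule.cardQuot_apply]
    have e5 : ((Finset.univ.filter U).card : ℝ) + ((Finset.univ.filter fun c :
        𝓞 K ⧸ v.asIdeal ^ j => Ideal.Quotient.factor hle c = 0).card : ℝ) = q ^ j := by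
      rw [← e4]
      exact_mod_cast e2
    have e6 : (Ideal.absNorm v.asIdeal : ℝ) = q := rfl
    rw [e6] at e1
    have e7 : ((Finset.univ.filter fun c : 𝓞 K ⧸ v.asIdeal ^ j =>
        Ideal.Quotient.factor hle c = 0).card : ℝ) = q ^ j / q := by
      rw [eq_div_iff hq0.ne']
      exact e1
    rw [e7] at e5
    have e8 : q ^ j * (1 - 1 / q) = q ^ j - q ^ j / q := by ring
    rw [e8]
    linarith
  have hn0 : (0 : ℝ) < q ^ j * (1 - 1 / q) := by
    have : (0 : ℝ) < 1 - 1 / q := by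
      rw [sub_pos, div_lt_one hq0]
      linarith
    positivity
  have hu : ∀ c, U c → P c = P (Ideal.Quotient.mk _ 1) := by
    intro c hc
    obtain ⟨x, rfl⟩ := Ideal.Quotient.mk_surjective c
    refine hun x 1 ?_ ?_
    · intro hx
      refine (hU _).1 hc ?_
      rw [Ideal.Quotient.factor_mk]
      exact Ideal.Quotient.eq_zero_iff_mem.2 hx
    · intro hx
      exact v.isPrime.ne_top ((Ideal.eq_top_iff_one _).2 hx)
  have hβ' : ∀ c, ¬ U c → P c ≤ min b β := by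
    intro c hc
    refine le_min ?_ (hβ c)
    refine le_trans ?_ hzs
    exact Finset.single_le_sum (f := P) (fun c _ => hP c)
      (Finset.mem_filter.2 ⟨Finset.mem_univ c, hc⟩)
  have hβ0 : 0 ≤ β := le_trans (hP (Ideal.Quotient.mk _ 1)) (hβ _)
  have hmain := LGB_sq P U _ b (min b β) _ hP hsum hu hcard hn0 hzs hβ' (le_min hb0 hβ0)
  rw [g1, hN]
  calc q ^ j * ∑ c, P c ^ 2 ≤ q ^ j * (1 / (q ^ j * (1 - 1 / q)) + b * min b β) :=
        mul_le_mul_of_nonneg_left hmain (by positivity)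
    _ = q / (q - 1) + q ^ j * (b * min b β) := by
        have h9 : q - 1 ≠ 0 := by linarith
        field_simp
    _ ≤ 1 + 2 / q + q ^ j * (b * min b β) := by
        have h9 : q / (q - 1) ≤ 1 + 2 / q := by
          rw [div_le_iff₀ (by linarith)]
          have : (1 + 2 / q) * (q - 1) = q + 1 - 2 / q := by
            field_simp
            ring
          rw [this]
          have : 2 / q ≤ 1 := by
            rw [div_le_one hq0]
            exact hq2'
          linarith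
        linarith

theorem LGB_min (q C0 D : ℝ) (M j : ℕ) (hM : 1 ≤ M) (hq : 2 ≤ q) (hC0 : 0 < C0) (hD : 0 ≤ D) :
    min (D / q) (C0 / (q ^ j) ^ ((1 : ℝ) / M)) ≤
      2 * (D + C0) / q * ((2 : ℝ) ^ (-(1 : ℝ) / M)) ^ j := by
  have hq0 : 0 < q := by linarith
  have hM0 : (M : ℝ) ≠ 0 := by
    have : M ≠ 0 := by omega
    exact_mod_cast this
  set y : ℝ := q ^ ((1 : ℝ) / M) with hy
  set z : ℝ := (2 : ℝ) ^ ((1 : ℝ) / M) with hz
  have hy0 : 0 < y := Real.rpow_pos_of_pos hq0 _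
  have hz0 : 0 < z := Real.rpow_pos_of_pos two_pos _
  have hyM : y ^ M = q := by
    rw [hy, ← Real.rpow_natCast, ← Real.rpow_mul hq0.le, one_div_mul_cancel hM0, Real.rpow_one]
  have hzM : z ^ M = 2 := by
    rw [hz, ← Real.rpow_natCast, ← Real.rpow_mul two_pos.le, one_div_mul_cancel hM0,
      Real.rpow_one]
  have hz1 : 1 ≤ z := Real.one_le_rpow (by norm_num) (by positivity)
  have hzy : z ≤ y := Real.rpow_le_rpow two_pos.le hq (by positivity)
  have hρ : (2 : ℝ) ^ (-(1 : ℝ) / M) = z⁻¹ := by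
    rw [hz, ← Real.rpow_neg two_pos.le, neg_div]
  have hyj : (q ^ j) ^ ((1 : ℝ) / M) = y ^ j := by
    rw [hy, ← Real.rpow_natCast q j, ← Real.rpow_mul hq0.le, ← Real.rpow_natCast (q ^ _) j,
      ← Real.rpow_mul hq0.le, mul_comm]
  rw [hρ, hyj]
  rcases le_or_gt j M with hj | hj
  · refine (min_le_left _ _).trans ?_
    have h1 : z ^ j ≤ 2 := by
      rw [← hzM]
      exact pow_le_pow_right₀ hz1 hj
    have h2 : (1 / 2 : ℝ) ≤ z⁻¹ ^ j := by
      rw [inv_pow, ← one_div]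
      exact one_div_le_one_div_of_le (by positivity) h1
    calc D / q ≤ 2 * (D + C0) / q * (1 / 2) := by
          rw [div_mul_eq_mul_div]
          gcongr
          linarith
      _ ≤ 2 * (D + C0) / q * z⁻¹ ^ j := by gcongr
  · refine (min_le_right _ _).trans ?_
    have h1 : q * z ^ (j - M) ≤ y ^ j := by
      have : y ^ j = y ^ M * y ^ (j - M) := by
        rw [← pow_add]
        congr 1
        omega
      rw [this, hyM]
      gcongr
    have h2 : z ^ j = 2 * z ^ (j - M) := by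
      rw [← hzM, ← pow_add]
      congr 1
      omega
    calc C0 / y ^ j ≤ C0 / (q * z ^ (j - M)) := by gcongr
      _ = 2 * C0 / q * z⁻¹ ^ j := by
          rw [inv_pow, h2]
          field_simp
      _ ≤ 2 * (D + C0) / q * z⁻¹ ^ j := by
          gcongr
          linarith

theorem LGB_geom (x : ℝ) (hx0 : 0 ≤ x) (hx1 : x < 1) (J : ℕ) :
    ∑ j ∈ Finset.Icc 1 J, x ^ j ≤ 1 / (1 - x) := by
  have h1 : ∑ j ∈ Finset.Icc 1 J, x ^ j ≤ ∑' j : ℕ, x ^ j :=
    (summable_geometric_of_lt_one hx0 hx1).sum_le_tsum _ fun j _ => by positivity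
  rw [tsum_geometric_of_lt_one hx0 hx1] at h1
  rwa [one_div]

/-- [LGB] the strong bound at almost all prime ideals -/
theorem thm_LGB (h1 : St_GBA) (h2 : St_SUN) (h3 : St_ZRO) : St_LGB := by
  intro K _ _ D hD g hg hg0
  obtain ⟨S1, hS1⟩ := h2 K D (by omega) g hg
  obtain ⟨S2, hS2⟩ := h3 K D D g hg0
  obtain ⟨C0, hC0, hw⟩ := LGB_weak K D D hD g hg0
  have hM : 1 ≤ MM D := by
    have : 2 * 3 / 2 ≤ MM D := Nat.div_le_div_right (Nat.mul_le_mul hD (by omega))
    omega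
  set ρ : ℝ := (2 : ℝ) ^ (-(1 : ℝ) / MM D) with hρ
  have hρ0 : 0 ≤ ρ := Real.rpow_nonneg two_pos.le _
  have hρ1 : ρ < 1 := by
    refine Real.rpow_lt_one_of_one_lt_of_neg (by norm_num) ?_
    have : (0 : ℝ) < MM D := by exact_mod_cast hM
    rw [neg_div]
    have : (0 : ℝ) < 1 / MM D := by positivity
    linarith
  set C1 : ℝ := 2 * ((D : ℝ) + C0) with hC1
  refine ⟨S1 ∪ S2, (12 + 2 * (D : ℝ) ^ 2) * 2 + D * C1 / (1 - ρ), ?_, ?_⟩
  · have : 0 < 1 - ρ := by linarith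
    positivity
  intro v hv J
  have hv1 : v ∉ S1 := fun h => hv (Finset.mem_union_left _ h)
  have hv2 : v ∉ S2 := fun h => hv (Finset.mem_union_right _ h)
  have hvb : v.asIdeal ≠ ⊥ := v.ne_bot
  set a : (Fin D → 𝓞 K) → 𝓞 K := fun w => ev g w with ha
  have hcp : CP a := LGB_cp g
  have hq2 : 2 ≤ qv v := by
    have h0 : qv v ≠ 0 := fun h0 => hvb (Ideal.absNorm_eq_zero_iff.1 h0)
    have h01 : qv v ≠ 1 := fun h0 => v.isPrime.ne_top (Ideal.absNorm_eq_one_iff.1 h0)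
    omega
  have hq2' : (2 : ℝ) ≤ (qv v : ℝ) := by exact_mod_cast hq2
  have hq0 : (0 : ℝ) < (qv v : ℝ) := by linarith
  set q : ℝ := (qv v : ℝ) with hq
  have hz : PQ a v.asIdeal 0 ≤ (D : ℝ) / q := by
    rw [le_div_iff₀ hq0]
    exact hS2 v hv2
  have hGI : ∀ j : ℕ, 1 ≤ GI a (v.asIdeal ^ j) := fun j =>
    (h1 K D a hcp (v.asIdeal ^ j) (pow_ne_zero j hvb)).2.2.2.2.1.1
  have hG0 : GI a (v.asIdeal ^ 0) = 1 := by
    rw [pow_zero, Ideal.one_eq_top]
    exact (h1 K D a hcp v.asIdeal hvb).2.2.2.2.1.2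
  have hone : ∀ j : ℕ, 1 ≤ j → GI a (v.asIdeal ^ j) ≤ 1 + 2 / q + q ^ j *
      ((D : ℝ) / q * min ((D : ℝ) / q) (C0 / (q ^ j) ^ ((1 : ℝ) / MM D))) := by
    intro j hj
    refine LGB_one h1 a hcp v j hj ((D : ℝ) / q) _ (by positivity)
      (fun x y hx hy => hS1 v hv1 j hj x y hx hy) hz fun c => ?_
    have hN : (Ideal.absNorm (v.asIdeal ^ j) : ℝ) = q ^ j := by
      rw [map_pow]
      push_cast
      rfl
    have e1 := hw (v.asIdeal ^ j) c (pow_ne_zero j hvb)
    rw [hN] at e1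
    rw [le_div_iff₀ (Real.rpow_pos_of_pos (by positivity) _)]
    exact e1
  have hterm : ∀ j ∈ Finset.Icc 1 J, (GI a (v.asIdeal ^ j) - GI a (v.asIdeal ^ (j - 1))) / q ^ j ≤
      ((12 + 2 * (D : ℝ) ^ 2) * (1 / 2 : ℝ) ^ j + D * C1 * ρ ^ j) / q ^ 2 := by
    intro j hj
    have hj1 : 1 ≤ j := (Finset.mem_Icc.1 hj).1
    rcases Nat.lt_or_ge 1 j with hj2 | hj2
    · -- `j ≥ 2`
      have e1 := hone j hj1
      have e2 := LGB_min q C0 D (MM D) j hM hq2' hC0 (by positivity)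
      have e3 := hGI (j - 1)
      have e4 : (GI a (v.asIdeal ^ j) - GI a (v.asIdeal ^ (j - 1))) / q ^ j ≤
          (1 + 2 / q + q ^ j * ((D : ℝ) / q * (C1 / q * ρ ^ j))) / q ^ j := by
        refine div_le_div_of_nonneg_right ?_ (by positivity)
        have e5 : q ^ j * ((D : ℝ) / q * min ((D : ℝ) / q) (C0 / (q ^ j) ^ ((1 : ℝ) / MM D))) ≤
            q ^ j * ((D : ℝ) / q * (C1 / q * ρ ^ j)) := by
          gcongr
        linarith
      refine e4.trans ?_
      have e6 : (1 + 2 / q + q ^ j * ((D : ℝ) / q * (C1 / q * ρ ^ j))) / q ^ j =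
          (1 + 2 / q) / q ^ j + D * C1 * ρ ^ j / q ^ 2 := by
        field_simp
      rw [e6, add_div ((12 + 2 * (D : ℝ) ^ 2) * (1 / 2 : ℝ) ^ j)]
      refine add_le_add ?_ le_rfl
      have e7 : q ^ j = q ^ 2 * q ^ (j - 2) := by
        rw [← pow_add]
        congr 1
        omega
      have e8 : (2 : ℝ) ^ (j - 2) ≤ q ^ (j - 2) := by gcongr
      have e9 : (1 / 2 : ℝ) ^ j = 1 / (4 * 2 ^ (j - 2)) := by
        rw [one_div_pow]
        congr 1
        have : (4 : ℝ) = 2 ^ 2 := by norm_num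
        rw [this, ← pow_add]
        congr 1
        omega
      have e10 : 1 + 2 / q ≤ 2 := by
        have : 2 / q ≤ 1 := by
          rw [div_le_one hq0]
          exact hq2'
        linarith
      rw [e7, e9]
      calc (1 + 2 / q) / (q ^ 2 * q ^ (j - 2)) ≤ 2 / (q ^ 2 * 2 ^ (j - 2)) := by gcongr
        _ = (8 * (1 / (4 * 2 ^ (j - 2)))) / q ^ 2 := by
            field_simp
            norm_num
        _ ≤ ((12 + 2 * (D : ℝ) ^ 2) * (1 / (4 * 2 ^ (j - 2)))) / q ^ 2 := by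
            gcongr
            nlinarith [sq_nonneg (D : ℝ)]
    · -- `j = 1`
      have hj' : j = 1 := by omega
      subst hj'
      have e1 := hone 1 le_rfl
      have e2 : GI a (v.asIdeal ^ 1) ≤ 1 + 2 / q + q ^ 1 * ((D : ℝ) / q * ((D : ℝ) / q)) := by
        refine e1.trans ?_
        gcongr
        exact min_le_left _ _
      have e3 : (GI a (v.asIdeal ^ 1) - GI a (v.asIdeal ^ (1 - 1))) / q ^ 1 ≤
          (2 + (D : ℝ) ^ 2) / q ^ 2 := by
        rw [Nat.sub_self, hG0, div_le_div_iff₀ (by positivity) (by positivity)]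
        have e4 : (2 + (D : ℝ) ^ 2) * q ^ 1 =
            (1 + 2 / q + q ^ 1 * ((D : ℝ) / q * ((D : ℝ) / q)) - 1) * q ^ 2 := by
          field_simp
          ring
        rw [e4]
        gcongr
      refine e3.trans (div_le_div_of_nonneg_right ?_ (by positivity))
      have e5 : 0 ≤ D * C1 * ρ ^ 1 := by positivity
      nlinarith [sq_nonneg (D : ℝ)]
  refine (Finset.sum_le_sum hterm).trans ?_
  rw [← Finset.sum_div, Finset.sum_add_distrib, ← Finset.mul_sum, ← Finset.mul_sum]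
  have e1 := LGB_geom (1 / 2) (by norm_num) (by norm_num) J
  have e2 := LGB_geom ρ hρ0 hρ1 J
  have e3 : (1 : ℝ) / (1 - 1 / 2) = 2 := by norm_num
  rw [e3] at e1
  refine div_le_div_of_nonneg_right (add_le_add ?_ ?_) (by positivity)
  · exact mul_le_mul_of_nonneg_left e1 (by positivity)
  · rw [← mul_one_div (D * C1 : ℝ) (1 - ρ)]
    exact mul_le_mul_of_nonneg_left e2 (by positivity)

end Pool.Agent.NRN
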