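import Pool.Agent.NRN.StL
import Pool.Agent.RHCB.LLSC

/-!
NRN: copy with two or more variables x of the following module.
NRM, [LLSN]: the local lower bound for the cells (port of `RHCW/LLSCW.lean`, helper43).
-/

set_option autoImplicit false

namespace Pool.Agent.NRN

open scoped BigOperators
open Classical NumberField IsDedekindDomain
open Pool.Agent.RHP (Mon mono ev Sys Prim pd WB WW ev_smul)
open Pool.Agent.RHK Pool.Agent.RHC Pool.Agent.NRM
open Pool.Agent.RHKB (mI hh jj qv MK uu BadK)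
open Pool.Agent.RHCB (BadC cred cemb uk PrC hM f00 LLSC_bad LLSC_H)
open Pool.Agent.RHCW (cmk)

private theorem LLSN_mono {L : Type} [NormedField L] {s r D d : ℕ} {f : Mon s d → L}
    {G : Mon r D → L} {z₀ : Fin r ⊕ Fin s → L} {δ δ' ε : ℝ} (h : δ' ≤ δ)
    (hF : NZN f G z₀ δ ε) : NZN f G z₀ δ' ε := by
  obtain ⟨j, h3⟩ := hF
  exact ⟨j, fun κ hκ => h3 κ fun l => (hκ l).trans h⟩

private theorem LLSN_nl {K : Type} [Field K] [NumberField K] {s d : ℕ} {Q : Type}
    {P P' : Set ((Fin s → 𝓞 K) × Q)} (hP : P ⊆ P') (B : Finset Q) (a : Q → 𝓞 K)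
    (c t H κ W : ℕ) (f : Mon s d → 𝓞 K) : NAL B a P c t H κ W f ≤ NAL B a P' c t H κ W f := by
  unfold NAL
  refine Finset.sum_le_sum fun x _ => Finset.sum_le_sum fun w _ => ?_
  by_cases h1 : (x, w) ∈ P
  · rw [if_pos h1, if_pos (hP h1)]
  · rw [if_neg h1]
    by_cases h2 : (x, w) ∈ P'
    · rw [if_pos h2]
      split_ifs
      · positivity
      · exact le_refl _
    · rw [if_neg h2]

theorem thm_LL1 (h1 : St_SL1) (h2 : RHCB.St_BADC) (h3 : St_UIFTN) (h4 : RHKB.St_PLW)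
    (h5 : St_DT1) : St_LL1 := by
  intro K _ _ s r D m hyp g hg hSG ε hε
  have hs := hyp.hs
  have hD := hyp.hD
  have hm := hyp.hm
  obtain ⟨p00, hS⟩ := h1 K s r D m hyp g hg hSG (ε / 2) (by positivity)
  refine ⟨p00, fun p0 hp0 A B dl c v q hdl hA hc hv hq hdlp hqp η hη hη16 => ?_⟩
  obtain ⟨σ₀, hσ, m2, hS⟩ := hS p0 hp0 (dl ^ D) q (Nat.pos_of_ne_zero (by positivity)) hq
    (fun p hp hpd => hdlp p hp (hp.dvd_of_dvd_pow hpd)) hqp
  set nv : ℕ := Fintype.card (InfinitePlace K) with hnv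
  have hnv0 : 0 < nv := Fintype.card_pos
  have hnvr : (0 : ℝ) < nv := by exact_mod_cast hnv0
  have hkm : 1 ≤ D * m := Nat.mul_pos (by omega) (by omega)
  have hBv := (h2 K s (D * m) (by omega) hkm (ε / (2 * nv)) (by positivity)).2
  choose τ hτ H1 hBv using hBv
  set B0 : ℕ := MK K * 2 ^ D with hB0
  have hUv : ∀ v : InfinitePlace K, ∃ δ : ℝ, 0 < δ ∧ ∀ f : Mon s (D * m) → v.Completion,
      (∀ μ, ‖f μ‖ ≤ B0) → ¬ BadC (τ v) f → ∀ z : Fin r ⊕ Fin s → v.Completion,
        ‖xz z‖ = 3 / 4 → (∀ j, ‖wz z j‖ ≤ B) → ev f (xz z) = ev (gL v.Completion g) (wz z) →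
        NZN f (gL v.Completion g) z δ (η / 2) := by
    intro v
    obtain ⟨e1, e2, e3, e4, e5, e6⟩ := h4 K v
    have h7 : ‖((3 / 4 : ℚ) : v.Completion)‖ = 3 / 4 := by
      rw [e4]
      push_cast
      rw [abs_of_nonneg (by norm_num)]
    have h8 : ((3 / 4 : ℚ) : v.Completion) ≠ 0 := by
      intro h9
      rw [h9, norm_zero] at h7
      norm_num at h7
    have h10 : (D : v.Completion) ≠ 0 := by
      intro h9
      have h11 := e4 (D : ℚ)
      push_cast at h11
      rw [h9, norm_zero] at h11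
      have h12 : (0 : ℝ) < |(D : ℝ)| := by
        rw [abs_of_nonneg (Nat.cast_nonneg D)]
        exact_mod_cast (by omega : 0 < D)
      linarith
    obtain ⟨δ, hδ, h9⟩ := h3 v.Completion e2 s r D m (by omega) hm h10 (gL v.Completion g) _ h8
      B0 B (τ v) (η / 2) (hτ v) (by positivity)
    rw [h7] at h9
    exact ⟨δ, hδ, fun f ha hb z hz1 hz2 hz3 => h9 f ha hb z hz1 hz2 hz3⟩
  choose δv hδv hUv using hUv
  obtain ⟨δ, hδ, hδle⟩ : ∃ δ : ℝ, 0 < δ ∧ ∀ v, δ ≤ δv v := by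
    obtain ⟨v0, hv0⟩ := Finite.exists_min δv
    exact ⟨δv v0, hδv v0, hv0⟩
  obtain ⟨γ, hγ, m3, hD'⟩ := h5 K s r D m hyp g hg A B dl c v hdl hA hc hv q hq δ (η / 2) σ₀ hδ
    (by positivity) (by linarith) hσ
  refine ⟨γ, hγ, max m2 m3, fun m0 hm0 κ hκ => ?_⟩
  obtain ⟨H0, hS⟩ := hS m0 ((le_max_left _ _).trans hm0)
  obtain ⟨t1, hD'⟩ := hD' m0 ((le_max_right _ _).trans hm0) κ hκ
  refine ⟨max (max t1 1) (max H0 (Finset.univ.sup H1)), fun t ht V H hH => ?_⟩
  have ht1 : t1 ≤ t := ((le_max_left _ _).trans (le_max_left _ _)).trans ht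
  have htone : 1 ≤ t := ((le_max_right _ _).trans (le_max_left _ _)).trans ht
  have htH0 : H0 ≤ t := ((le_max_left _ _).trans (le_max_right _ _)).trans ht
  have htH1 : ∀ v, H1 v ≤ t := fun v => ((Finset.le_sup (Finset.mem_univ v)).trans
    (le_max_right _ _)).trans ((le_max_right _ _).trans ht)
  obtain ⟨htH, hV1⟩ := LLSC_H (by omega) hv htone hH
  have hS := hS H (htH0.trans htH)
  have hVr : (0 : ℝ) < (V : ℝ) ^ D := by positivity
  have hlow : (V : ℝ) ^ D ≤ MK K * H := by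
    have h1 : (V : ℝ) ^ D ≤ H := by exact_mod_cast hH.2.2.1
    have h2 : (1 : ℝ) ≤ MK K := by
      have h3 : 1 ≤ MK K := by
        unfold MK
        omega
      exact_mod_cast h3
    nlinarith [Nat.cast_nonneg (α := ℝ) H]
  have hupp : (MK K : ℝ) * H ≤ B0 * (V : ℝ) ^ D := by
    have h1 : H ≤ 2 ^ D * V ^ D := by
      refine hH.2.2.2.trans ?_
      rw [← mul_pow]
      exact Nat.pow_le_pow_left (by omega) D
    have h2 : (H : ℝ) ≤ 2 ^ D * (V : ℝ) ^ D := by exact_mod_cast h1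
    have h3 : ((B0 : ℕ) : ℝ) = MK K * 2 ^ D := by
      rw [hB0]
      push_cast
      ring
    rw [h3, mul_assoc]
    exact mul_le_mul_of_nonneg_left h2 (Nat.cast_nonneg _)
  have hHpos : (0 : ℝ) < (H : ℝ) := by
    exact_mod_cast (lt_of_lt_of_le (by omega : 0 < t) htH)
  set B1 := (box K s (D * m) H).filter fun f => ∃ (ρ₀ : Fin s → 𝓞 K) (ω₀ : Fin r → 𝓞 K),
        (∀ v, LowP p0 v → LocZN v (dl ^ D) q g ρ₀ ω₀ f) ∧
        wsigN (dl ^ D) q (cred (Ideal.span {(WW m0 : 𝓞 K)}) g)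
          (cmk (Ideal.span {(WW m0 : 𝓞 K)}) ρ₀) (cmk (Ideal.span {(WW m0 : 𝓞 K)}) ω₀)
          (cred (Ideal.span {(WW m0 : 𝓞 K)}) f) < σ₀ with hB1
  set B2 : InfinitePlace K → Finset (Mon s (D * m) → 𝓞 K) := fun v =>
    (box K s (D * m) H).filter fun f => BadC (τ v) (cemb (uu v H) f) with hB2
  set BB := (box K s (D * m) H).filter fun f => ∃ (ρ₀ : Fin s → 𝓞 K) (ω₀ : Fin r → 𝓞 K)
        (y₀ : (v : InfinitePlace K) → Fin r ⊕ Fin s → v.Completion),
        (∀ v : InfinitePlace K, InfZN v V B g (y₀ v) η f) ∧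
        (∀ v, LowP p0 v → LocZN v (dl ^ D) q g ρ₀ ω₀ f) ∧
        NAL (BG g (dl ^ D) (A * QN s m c t V)) (aG g (dl ^ D))
          (CellN q ρ₀ ω₀ y₀ (2 * η) (XC s c t) (dl * QN s m c t V)) c t H κ (WW m0 / dl ^ D) f <
          γ * EN (dg K) s D m r c t V H with hBB
  have hsub : BB ⊆ B1 ∪ Finset.univ.biUnion B2 := by
    intro f hf
    rw [hBB, Finset.mem_filter] at hf
    obtain ⟨hf1, ρ₀, ω₀, y₀, hf2, hf3, hf4⟩ := hf
    by_contra hcon
    rw [Finset.mem_union, not_or, hB1, Finset.mem_filter, Finset.mem_biUnion] at hcon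
    obtain ⟨hc1, hc2⟩ := hcon
    have h1 : σ₀ ≤ wsigN (dl ^ D) q (cred (Ideal.span {(WW m0 : 𝓞 K)}) g)
        (cmk (Ideal.span {(WW m0 : 𝓞 K)}) ρ₀) (cmk (Ideal.span {(WW m0 : 𝓞 K)}) ω₀)
        (cred (Ideal.span {(WW m0 : 𝓞 K)}) f) := by
      by_contra h2
      exact hc1 ⟨hf1, ρ₀, ω₀, hf3, not_le.1 h2⟩
    have h2 : ∀ v, ¬ BadC (τ v) (cemb (uu v H) f) := fun v h3 =>
      hc2 ⟨v, Finset.mem_univ v, by rw [hB2]; exact Finset.mem_filter.2 ⟨hf1, h3⟩⟩
    choose z hz1 hz2 hz3 hz4 using hf2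
    have hcell : CellN q ρ₀ ω₀ z (2 * (η / 2)) (XC s c t) (dl * QN s m c t V) ⊆
        CellN q ρ₀ ω₀ y₀ (2 * η) (XC s c t) (dl * QN s m c t V) := by
      rintro p ⟨hp1, hp2⟩
      refine ⟨hp1, fun v => ?_⟩
      obtain ⟨-, -, -, hqv, -, -⟩ := h4 K v
      have hnear : ∀ (n : ℕ) (u a b : v.Completion), ‖a - b‖ ≤ η →
          ‖u - (n : v.Completion) * a‖ ≤ 2 * (η / 2) * n →
          ‖u - (n : v.Completion) * b‖ ≤ 2 * η * n := by
        intro n u a b h6 h7
        have h8 : u - (n : v.Completion) * b = (u - (n : v.Completion) * a) +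
          (n : v.Completion) * (a - b) := by ring
        rw [h8]
        refine (norm_add_le _ _).trans ?_
        have hnn : ‖(n : v.Completion)‖ = n := by
          have h3 := hqv (n : ℚ)
          rw [Rat.cast_natCast, Rat.cast_natCast, Nat.abs_cast] at h3
          exact h3
        rw [norm_mul, hnn]
        have h9 := mul_le_mul_of_nonneg_left h6 (Nat.cast_nonneg (α := ℝ) n)
        linarith
      exact ⟨fun l => hnear _ _ _ _ (hz3 v (Sum.inr l)) ((hp2 v).1 l),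
        fun j => hnear _ _ _ _ (hz3 v (Sum.inl j)) ((hp2 v).2 j)⟩
    have hall : ∀ v : InfinitePlace K, NZN (cemb (uk v D V) f) (gL v.Completion g) (z v) δ (η / 2) := by
      intro v
      obtain ⟨-, -, hjj, hq, hcb, -⟩ := h4 K v
      have hnV : ‖((V ^ D : ℕ) : v.Completion)‖ = (V : ℝ) ^ D := by
        have h3 := hq ((V ^ D : ℕ) : ℚ)
        rw [Rat.cast_natCast, Rat.cast_natCast] at h3
        rw [h3, abs_of_nonneg (Nat.cast_nonneg _)]
        push_cast
        ring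
      have hnMH : ‖((MK K * H : ℕ) : v.Completion)‖ = MK K * H := by
        have h3 := hq ((MK K * H : ℕ) : ℚ)
        rw [Rat.cast_natCast, Rat.cast_natCast] at h3
        rw [h3, abs_of_nonneg (Nat.cast_nonneg _)]
        push_cast
        ring
      have hMH0 : ((MK K * H : ℕ) : v.Completion) ≠ 0 := by
        intro h3
        rw [h3, norm_zero] at hnMH
        linarith
      have hV0 : ((V ^ D : ℕ) : v.Completion) ≠ 0 := by
        intro h3
        rw [h3, norm_zero] at hnV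
        linarith
      have hmain := hUv v (cemb (uk v D V) f) (fun μ => ?_) (fun h3 => h2 v ?_) (z v) (hz1 v)
        (hz2 v) (hz4 v)
      · exact LLSN_mono (hδle v) hmain
      · have h3 : f μ ∈ cb K H := by
          have h4 := hf1
          unfold box at h4
          rw [Fintype.mem_piFinset] at h4
          exact h4 μ
        have h4 := hcb H _ h3
        show ‖uk v D V * jj v.Completion (f μ)‖ ≤ B0
        unfold uk
        rw [norm_mul, norm_inv, hnV, hjj, inv_mul_le_iff₀ hVr, mul_comm]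
        exact h4.trans hupp
      · refine LLSC_bad (a := ((MK K * H : ℕ) : v.Completion) * ((V ^ D : ℕ) : v.Completion)⁻¹) ?_
          ?_ h3
        · rw [norm_mul, norm_inv, hnV, hnMH, ← div_eq_mul_inv, le_div_iff₀ hVr, one_mul]
          exact hlow
        · funext μ
          show uk v D V * jj v.Completion (f μ) = _ * (uu v H * jj v.Completion (f μ))
          unfold uk uu
          field_simp
    refine absurd hf4 (not_lt.2 ((hD' t ht1 V H hH ρ₀ ω₀ f hf1 h1 z hz1 hz2 hall).trans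
      (LLSN_nl hcell _ _ c t H κ _ f)))
  have h1 : (BB.card : ℝ) ≤ (B1.card : ℝ) + ∑ v, ((B2 v).card : ℝ) := by
    have h2 := ((Finset.card_le_card hsub).trans (Finset.card_union_le _ _)).trans
      (Nat.add_le_add_left Finset.card_biUnion_le _)
    exact_mod_cast h2
  have h2 : ∑ v, ((B2 v).card : ℝ) ≤ ε / 2 * ((box K s (D * m) H).card : ℝ) := by
    have h3 : ∀ v ∈ (Finset.univ : Finset (InfinitePlace K)), ((B2 v).card : ℝ) ≤
        ε / (2 * nv) * ((box K s (D * m) H).card : ℝ) := fun v _ =>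
      hBv v H ((htH1 v).trans htH)
    refine (Finset.sum_le_sum h3).trans (le_of_eq ?_)
    rw [Finset.sum_const, nsmul_eq_mul, Finset.card_univ, ← hnv]
    field_simp
  have h3 : (B1.card : ℝ) ≤ ε / 2 * ((box K s (D * m) H).card : ℝ) := hS
  linarith

end Pool.Agent.NRN
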