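import Pool.Agent.NRN.StG
import Pool.Agent.NRM.VDQP
import Pool.Agent.NRM.VG

/-!
NRN, block G, module LOK: the local properties of the families `w ↦ g(ω + k w)/b` (helper79).
-/

set_option autoImplicit false

namespace Pool.Agent.NRN

open scoped BigOperators
open Classical NumberField IsDedekindDomain
open Pool.Agent.RHP (Mon mono ev Sys Prim pd WB WW ev_map)
open Pool.Agent.RHK Pool.Agent.RHC Pool.Agent.NRM
open Pool.Agent.RHKB (mI hh jj qv MK uu BadK)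
open Pool.Agent.RHCB (BadC cred cemb uk PrC hM f00)

section

variable {K : Type} [Field K] [NumberField K] {r D : ℕ}

omit [NumberField K] in
theorem LOK_cpg (g : Mon r D → 𝓞 K) : CP (fun w => ev g w) := by
  intro I w w' h
  rw [← Ideal.Quotient.eq]
  show Ideal.Quotient.mk I (ev g w) = Ideal.Quotient.mk I (ev g w')
  rw [← ev_map (Ideal.Quotient.mk I), ← ev_map (Ideal.Quotient.mk I)]
  congr 1
  funext j
  rw [Ideal.Quotient.eq]
  exact h j

omit [NumberField K] in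
theorem LOK_dvd (g : Mon r D → 𝓞 K) {b k : ℕ} (hbk : b ∣ k) {ω : Fin r → 𝓞 K}
    (hω : (b : 𝓞 K) ∣ ev g ω) (w : Fin r → 𝓞 K) :
    (b : 𝓞 K) ∣ ev g (fun j => ω j + k * w j) := by
  have h1 := LOK_cpg g (Ideal.span {(b : 𝓞 K)}) (fun j => ω j + k * w j) ω (fun j => by
    rw [add_sub_cancel_left, Ideal.mem_span_singleton]
    obtain ⟨k', rfl⟩ := hbk
    exact ⟨k' * w j, by push_cast; ring⟩)
  rw [Ideal.mem_span_singleton] at h1
  have h2 := dvd_add h1 hω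
  rwa [sub_add_cancel] at h2

theorem LOK_mul (g : Mon r D → 𝓞 K) {b k : ℕ} (hbk : b ∣ k) {ω : Fin r → 𝓞 K}
    (hω : (b : 𝓞 K) ∣ ev g ω) (w : Fin r → 𝓞 K) :
    (b : 𝓞 K) * aK g b k ω w = ev g (fun j => ω j + k * w j) :=
  aG_mul (LOK_dvd g hbk hω w)

theorem LOK_cp (g : Mon r D → 𝓞 K) {b k : ℕ} (hb : 1 ≤ b) (hbk : b ∣ k) {ω : Fin r → 𝓞 K}
    (hω : (b : 𝓞 K) ∣ ev g ω) : CP (aK g b k ω) := by
  intro I w w' h
  have hb0 : (b : 𝓞 K) ≠ 0 := by
    have : b ≠ 0 := by omega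
    exact_mod_cast this
  have h1 := LOK_cpg g (Ideal.span {(b : 𝓞 K)} * I) (fun j => ω j + k * w j)
    (fun j => ω j + k * w' j) (fun j => by
      rw [Ideal.mem_span_singleton_mul]
      obtain ⟨k', rfl⟩ := hbk
      refine ⟨k' * (w j - w' j), I.mul_mem_left _ (h j), ?_⟩
      push_cast
      ring)
  rw [Ideal.mem_span_singleton_mul] at h1
  obtain ⟨z, hz, hz'⟩ := h1
  have h2 : (b : 𝓞 K) * (aK g b k ω w - aK g b k ω w') = b * z := by
    rw [mul_sub, LOK_mul g hbk hω, LOK_mul g hbk hω, hz']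
  rw [mul_left_cancel₀ hb0 h2]
  exact hz

/-- from the lines in the direction of `e` to the whole space -/
theorem LOK_card {B : Type} [CommRing B] [Finite B] (A : (Fin r → B) → B) (e : Fin r → B)
    (a : B) (C : ℝ)
    (h : ∀ w0 : Fin r → B, (Nat.card {T : B // A (fun j => w0 j + T * e j) = a} : ℝ) ≤ C) :
    (Nat.card B : ℝ) * (Nat.card {ω : Fin r → B // A ω = a} : ℝ) ≤ (Nat.card B : ℝ) ^ r * C := by
  have := Fintype.ofFinite B
  let F : B × {ω : Fin r → B // A ω = a} →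
      Σ w0 : Fin r → B, {T : B // A (fun j => w0 j + T * e j) = a} := fun p =>
    ⟨fun j => p.2.1 j - p.1 * e j, ⟨p.1, by
      have h1 : (fun j => p.2.1 j - p.1 * e j + p.1 * e j) = p.2.1 := by
        funext j
        ring
      rw [h1]
      exact p.2.2⟩⟩
  let F' : (Σ w0 : Fin r → B, {T : B // A (fun j => w0 j + T * e j) = a}) →
      B × {ω : Fin r → B // A ω = a} := fun q =>
    (q.2.1, ⟨fun j => q.1 j + q.2.1 * e j, q.2.2⟩)
  have hFF : Function.LeftInverse F' F := by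
    intro p
    refine Prod.ext rfl (Subtype.ext ?_)
    funext j
    change p.2.1 j - p.1 * e j + p.1 * e j = p.2.1 j
    ring
  have h1 : Nat.card (B × {ω : Fin r → B // A ω = a}) ≤
      Nat.card (Σ w0 : Fin r → B, {T : B // A (fun j => w0 j + T * e j) = a}) :=
    Nat.card_le_card_of_injective F hFF.injective
  rw [Nat.card_prod, Nat.card_sigma] at h1
  calc (Nat.card B : ℝ) * (Nat.card {ω : Fin r → B // A ω = a} : ℝ)
      = ((Nat.card B * Nat.card {ω : Fin r → B // A ω = a} : ℕ) : ℝ) := by push_cast; rfl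
    _ ≤ ((∑ w0 : Fin r → B, Nat.card {T : B // A (fun j => w0 j + T * e j) = a} : ℕ) : ℝ) := by
        exact_mod_cast h1
    _ = ∑ w0 : Fin r → B, (Nat.card {T : B // A (fun j => w0 j + T * e j) = a} : ℝ) := by
        push_cast
        rfl
    _ ≤ ∑ _w0 : Fin r → B, C := Finset.sum_le_sum fun w0 _ => h w0
    _ = (Nat.card B : ℝ) ^ r * C := by
        rw [Finset.sum_const, nsmul_eq_mul, Finset.card_univ, Fintype.card_fun, Fintype.card_fin,
          Nat.card_eq_fintype_card]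
        push_cast
        rfl

theorem LOK_N (I : Ideal (𝓞 K)) : Ideal.absNorm I = Nat.card (𝓞 K ⧸ I) := by
  rw [Ideal.absNorm_apply, Submodule.cardQuot_apply]

theorem LOK_Npos {I : Ideal (𝓞 K)} (hI : I ≠ ⊥) : (1 : ℝ) ≤ Ideal.absNorm I := by
  have h1 : Ideal.absNorm I ≠ 0 := by
    rwa [Ne, Ideal.absNorm_eq_zero_iff]
  exact_mod_cast Nat.one_le_iff_ne_zero.2 h1

/-- all values of `PQ` are small -/
theorem LOK_PQ {a : (Fin r → 𝓞 K) → 𝓞 K} {I : Ideal (𝓞 K)} (hI : I ≠ ⊥)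
    (hA : ∀ (ω : Fin r → 𝓞 K ⧸ I) (w : Fin r → 𝓞 K), (∀ j, Ideal.Quotient.mk I (w j) = ω j) →
      Ideal.Quotient.mk I (a w) = Ideal.Quotient.mk I (a (lf ω)))
    (e : Fin r → 𝓞 K) (alpha : 𝓞 K) (C : ℝ)
    (hV : ∀ (B : Type) [CommRing B] [Finite B] (φ : 𝓞 K →+* B), Function.Surjective φ →
      ∀ P : Polynomial (𝓞 K), P.natDegree ≤ D → P.coeff D = alpha → ∀ a : B,
      (Nat.card {T : B // (P.map φ).eval T = a} : ℝ) * (Nat.card B : ℝ) ^ ((1 : ℝ) / MM D) ≤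
        C * (Nat.card B : ℝ))
    (hP : ∀ w₀ : Fin r → 𝓞 K, ∃ P : Polynomial (𝓞 K),
      (∀ T, P.eval T = a (fun j => w₀ j + T * e j)) ∧ P.natDegree ≤ D ∧ P.coeff D = alpha)
    (c : 𝓞 K ⧸ I) : PQ a I c ≤ C * rp (Ideal.absNorm I) (MM D) := by
  have hN1 := LOK_Npos hI
  have hfin : Finite (𝓞 K ⧸ I) := Ideal.finiteQuotientOfFreeOfNeBot I hI
  obtain ⟨N, hN⟩ : ∃ N : ℝ, N = (Ideal.absNorm I : ℝ) := ⟨_, rfl⟩
  have hNB : (Nat.card (𝓞 K ⧸ I) : ℝ) = N := by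
    rw [hN, LOK_N]
  rw [← hN] at hN1
  have hN0 : 0 < N := by linarith
  have hNM : (0 : ℝ) < N ^ ((1 : ℝ) / MM D) := Real.rpow_pos_of_pos hN0 _
  have hline : ∀ w0 : Fin r → 𝓞 K ⧸ I,
      (Nat.card {T : 𝓞 K ⧸ I // Ideal.Quotient.mk I
        (a (lf (fun j => w0 j + T * Ideal.Quotient.mk I (e j)))) = c} : ℝ) ≤
        C * N / N ^ ((1 : ℝ) / MM D) := by
    intro w0
    obtain ⟨P, hP1, hPD, hPc⟩ := hP (lf w0)
    rw [le_div_iff₀ hNM]
    have h3 := hV (𝓞 K ⧸ I) (Ideal.Quotient.mk I) Ideal.Quotient.mk_surjective P hPD hPc c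
    have h4 : ∀ T : 𝓞 K ⧸ I, (P.map (Ideal.Quotient.mk I)).eval T =
        Ideal.Quotient.mk I (a (lf (fun j => w0 j + T * Ideal.Quotient.mk I (e j)))) := by
      intro T
      obtain ⟨T', rfl⟩ := Ideal.Quotient.mk_surjective T
      rw [Polynomial.eval_map, Polynomial.eval₂_at_apply, hP1 T']
      refine hA _ _ fun j => ?_
      rw [map_add, map_mul, mk_lf]
    simp only [h4] at h3
    rw [hNB] at h3
    exact h3
  have h5 := LOK_card (fun ω : Fin r → 𝓞 K ⧸ I => Ideal.Quotient.mk I (a (lf ω)))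
    (fun j => Ideal.Quotient.mk I (e j)) c _ hline
  rw [hNB] at h5
  have h6 : N ^ r * (C * N / N ^ ((1 : ℝ) / MM D)) =
      N * (C * N ^ r / N ^ ((1 : ℝ) / MM D)) := by
    ring
  rw [h6] at h5
  have h7 := le_of_mul_le_mul_left h5 hN0
  unfold PQ
  rw [← hN, div_le_iff₀ (by positivity)]
  refine h7.trans (le_of_eq ?_)
  have h8 : rp N (MM D) = (N ^ ((1 : ℝ) / MM D))⁻¹ := by
    unfold rp
    rw [← Real.rpow_neg hN0.le]
    congr 1
    ring
  rw [h8]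
  ring

/-- the weak bound -/
theorem LOK_weak (h2 : St_GBA) {a : (Fin r → 𝓞 K) → 𝓞 K} (ha : CP a) (e : Fin r → 𝓞 K)
    (alpha : 𝓞 K) (C : ℝ)
    (hV : ∀ (B : Type) [CommRing B] [Finite B] (φ : 𝓞 K →+* B), Function.Surjective φ →
      ∀ P : Polynomial (𝓞 K), P.natDegree ≤ D → P.coeff D = alpha → ∀ a : B,
      (Nat.card {T : B // (P.map φ).eval T = a} : ℝ) * (Nat.card B : ℝ) ^ ((1 : ℝ) / MM D) ≤
        C * (Nat.card B : ℝ))
    (hP : ∀ w₀ : Fin r → 𝓞 K, ∃ P : Polynomial (𝓞 K),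
      (∀ T, P.eval T = a (fun j => w₀ j + T * e j)) ∧ P.natDegree ≤ D ∧ P.coeff D = alpha)
    (I : Ideal (𝓞 K)) (hI : I ≠ ⊥) :
    GI a I ≤ C * (Ideal.absNorm I * rp (Ideal.absNorm I) (MM D)) := by
  have hfin : Finite (𝓞 K ⧸ I) := Ideal.finiteQuotientOfFreeOfNeBot I hI
  let _ : Fintype (𝓞 K ⧸ I) := Fintype.ofFinite _
  obtain ⟨g1, g2, -, -, -, -, g7⟩ := h2 K r a ha I hI
  rw [g1]
  have h3 := LOK_PQ hI g7 e alpha C hV hP
  have hPQ0 : ∀ c, 0 ≤ PQ a I c := fun c => by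
    unfold PQ
    positivity
  have hN1 := LOK_Npos hI
  have h4 : ∑ c : 𝓞 K ⧸ I, PQ a I c ^ 2 ≤ C * rp (Ideal.absNorm I) (MM D) := by
    calc ∑ c : 𝓞 K ⧸ I, PQ a I c ^ 2
        ≤ ∑ c : 𝓞 K ⧸ I, C * rp (Ideal.absNorm I) (MM D) * PQ a I c := by
          refine Finset.sum_le_sum fun c _ => ?_
          rw [pow_two]
          exact mul_le_mul_of_nonneg_right (h3 c) (hPQ0 c)
      _ = C * rp (Ideal.absNorm I) (MM D) := by
          rw [← Finset.mul_sum, g2, mul_one]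
  calc (Ideal.absNorm I : ℝ) * ∑ c : 𝓞 K ⧸ I, PQ a I c ^ 2
      ≤ (Ideal.absNorm I : ℝ) * (C * rp (Ideal.absNorm I) (MM D)) :=
        mul_le_mul_of_nonneg_left h4 (by linarith)
    _ = _ := by ring

/-- away from `k` the function `G` is the one of the form `g` -/
theorem LOK_GI (h2 : St_GBA) (g : Mon r D → 𝓞 K) {b k : ℕ} (hbk : b ∣ k)
    {ω : Fin r → 𝓞 K} (hω : (b : 𝓞 K) ∣ ev g ω) {I : Ideal (𝓞 K)} (hI : I ≠ ⊥)
    (hu : IsUnit (Ideal.Quotient.mk I (k : 𝓞 K))) :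
    GI (aK g b k ω) I = GI (fun w => ev g w) I := by
  have hub : IsUnit (Ideal.Quotient.mk I (b : 𝓞 K)) := by
    obtain ⟨k', rfl⟩ := hbk
    rw [Nat.cast_mul, map_mul] at hu
    exact isUnit_of_mul_isUnit_left hu
  obtain ⟨-, -, -, -, -, -, g7⟩ := h2 K r _ (LOK_cpg g) I hI
  obtain ⟨u, hu'⟩ := hu
  let τ : (Fin r → 𝓞 K ⧸ I) ≃ (Fin r → 𝓞 K ⧸ I) :=
    { toFun := fun x j => Ideal.Quotient.mk I (ω j) + u * x j
      invFun := fun x j => (u⁻¹ : (𝓞 K ⧸ I)ˣ) * (x j - Ideal.Quotient.mk I (ω j))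
      left_inv := fun x => by
        funext j
        simp
      right_inv := fun x => by
        funext j
        simp }
  have key : ∀ x : Fin r → 𝓞 K ⧸ I,
      Ideal.Quotient.mk I (b : 𝓞 K) * Ideal.Quotient.mk I (aK g b k ω (lf x)) =
        Ideal.Quotient.mk I (ev g (lf (τ x))) := by
    intro x
    rw [← map_mul, LOK_mul g hbk hω]
    refine g7 (τ x) _ fun j => ?_
    show Ideal.Quotient.mk I (ω j + k * lf x j) = Ideal.Quotient.mk I (ω j) + u * x j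
    rw [map_add, map_mul, mk_lf, hu']
  unfold GI
  congr 2
  have : Nat.card {p : (Fin r → 𝓞 K ⧸ I) × (Fin r → 𝓞 K ⧸ I) //
        Ideal.Quotient.mk I (aK g b k ω (lf p.1)) = Ideal.Quotient.mk I (aK g b k ω (lf p.2))} =
      Nat.card {p : (Fin r → 𝓞 K ⧸ I) × (Fin r → 𝓞 K ⧸ I) //
        Ideal.Quotient.mk I (ev g (lf p.1)) = Ideal.Quotient.mk I (ev g (lf p.2))} := by
    refine Nat.card_congr (Equiv.subtypeEquiv (Equiv.prodCongr τ τ) fun p => ?_)
    show _ ↔ Ideal.Quotient.mk I (ev g (lf (τ p.1))) = Ideal.Quotient.mk I (ev g (lf (τ p.2)))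
    rw [← key, ← key]
    exact ⟨fun h => by rw [h], fun h => hub.mul_left_cancel h⟩
  rw [this]

end

/-- [LOK] -/
theorem thm_LOK (h1 : St_LGB) (h2 : St_GBA) (h3 : St_PLB) : St_LOK := by
  intro K _ _ D hD g hg hg0 b k hb hk hbk
  have : Infinite (𝓞 K) := Infinite.of_injective (Nat.cast : ℕ → 𝓞 K) Nat.cast_injective
  obtain ⟨e, he⟩ := VG_exists g hg0
  have hb0 : (b : 𝓞 K) ≠ 0 := by
    have : b ≠ 0 := by omega
    exact_mod_cast this
  have hk0 : (k : 𝓞 K) ≠ 0 := by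
    have : k ≠ 0 := by omega
    exact_mod_cast this
  obtain ⟨k', hk'⟩ := hbk
  have hbk : b ∣ k := ⟨k', hk'⟩
  have hkk : (k : 𝓞 K) = b * k' := by rw [hk']; push_cast; ring
  have hk'0 : (k' : 𝓞 K) ≠ 0 := by
    intro h
    rw [h, mul_zero] at hkk
    exact hk0 hkk
  obtain ⟨alpha, halpha⟩ : ∃ alpha : 𝓞 K, alpha = k' * k ^ (D - 1) * ev g e := ⟨_, rfl⟩
  have halpha0 : alpha ≠ 0 := by
    rw [halpha]
    exact mul_ne_zero (mul_ne_zero hk'0 (pow_ne_zero _ hk0)) he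
  have hbalpha : (b : 𝓞 K) * alpha = (k : 𝓞 K) ^ D * ev g e := by
    rw [halpha]
    obtain ⟨D', rfl⟩ : ∃ D', D = D' + 1 := ⟨D - 1, by omega⟩
    rw [Nat.add_sub_cancel, pow_succ]
    nth_rewrite 3 [hkk]
    ring
  obtain ⟨C₁, hC₁, hV⟩ := thm_VDQP K D hD alpha halpha0
  obtain ⟨S, C₂, hC₂, hS⟩ := h1 K D hD g hg hg0
  -- the constants
  have hM : 1 ≤ MM D := by
    unfold MM
    have h1 : 2 ≤ D * (D + 1) := by nlinarith
    have := Nat.div_le_div_right (c := 2) h1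
    omega
  have hMR : (0 : ℝ) < MM D := by exact_mod_cast hM
  obtain ⟨ρ, hρ⟩ : ∃ ρ : ℝ, ρ = (2 : ℝ) ^ (-(1 : ℝ) / MM D) := ⟨_, rfl⟩
  have hρ0 : 0 < ρ := by
    rw [hρ]
    positivity
  have hρ1 : ρ < 1 := by
    rw [hρ]
    refine Real.rpow_lt_one_of_one_lt_of_neg (by norm_num) ?_
    exact div_neg_of_neg_of_pos (by norm_num) hMR
  have hfac : {v : HeightOneSpectrum (𝓞 K) | v.asIdeal ∣ Ideal.span {(k : 𝓞 K)}}.Finite :=
    Ideal.finite_factors (by
      rw [Ne, Ideal.zero_eq_bot, Ideal.span_singleton_eq_bot]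
      exact hk0)
  obtain ⟨S', hS'⟩ : ∃ S' : Finset (HeightOneSpectrum (𝓞 K)), S' = S ∪ hfac.toFinset := ⟨_, rfl⟩
  obtain ⟨Q, hQ⟩ : ∃ Q : ℝ, Q = ∑ v ∈ S', (qv v : ℝ) := ⟨_, rfl⟩
  have hQ0 : 0 ≤ Q := by
    rw [hQ]
    positivity
  have hQv : ∀ v ∈ S', (qv v : ℝ) ≤ Q := fun v hv => by
    rw [hQ]
    exact Finset.single_le_sum (f := fun v => (qv v : ℝ)) (fun i _ => Nat.cast_nonneg _) hv
  have h1ρ : 0 < 1 - ρ := by linarith
  have hqv2 : ∀ v : HeightOneSpectrum (𝓞 K), (2 : ℝ) ≤ qv v := by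
    intro v
    have h1 : Ideal.absNorm v.asIdeal ≠ 0 := by
      rw [Ne, Ideal.absNorm_eq_zero_iff]
      exact v.ne_bot
    have h2 : Ideal.absNorm v.asIdeal ≠ 1 := by
      rw [Ne, Ideal.absNorm_eq_one_iff]
      exact v.isPrime.ne_top
    have : 2 ≤ qv v := by
      unfold qv
      omega
    exact_mod_cast this
  obtain ⟨C, hC⟩ : ∃ C : ℝ, C = C₁ + C₂ + C₁ / (1 - ρ) * Q ^ 2 := ⟨_, rfl⟩
  have hC3 : 0 ≤ C₁ / (1 - ρ) * Q ^ 2 := by positivity
  refine ⟨C, by rw [hC]; positivity, fun ω hω => ?_⟩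
  have hcp : CP (aK g b k ω) := LOK_cp g hb hbk hω
  have hP : ∀ w₀ : Fin D → 𝓞 K, ∃ P : Polynomial (𝓞 K),
      (∀ T, P.eval T = aK g b k ω (fun j => w₀ j + T * e j)) ∧ P.natDegree ≤ D ∧
        P.coeff D = alpha := by
    intro w₀
    obtain ⟨P, hP1, hP2, hP3⟩ := h3 K D D g b k ω w₀ e hb (by omega) hbk hω
    refine ⟨P, hP1, hP2, ?_⟩
    rw [← hbalpha] at hP3
    exact mul_left_cancel₀ hb0 hP3
  have hweak : ∀ I : Ideal (𝓞 K), I ≠ ⊥ → GI (aK g b k ω) I ≤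
      C₁ * (Ideal.absNorm I * rp (Ideal.absNorm I) (MM D)) := fun I hI =>
    LOK_weak h2 hcp e alpha C₁ (fun B _ _ φ hφ => hV B φ hφ) hP I hI
  refine ⟨hcp, fun I hI => ?_, fun v J => ?_⟩
  · refine (hweak I hI).trans ?_
    have hN := LOK_Npos hI
    have h4 : 0 ≤ rp (Ideal.absNorm I) (MM D) := by
      unfold rp
      positivity
    refine mul_le_mul_of_nonneg_right ?_ (by positivity)
    rw [hC]
    linarith
  · have hvI : ∀ j, v.asIdeal ^ j ≠ ⊥ := fun j => pow_ne_zero j v.ne_bot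
    have hq := hqv2 v
    have hq0 : (0 : ℝ) < qv v := by linarith
    by_cases hv : v ∈ S'
    · -- finitely many places
      have hterm : ∀ j ∈ Finset.Icc 1 J,
          (GI (aK g b k ω) (v.asIdeal ^ j) - GI (aK g b k ω) (v.asIdeal ^ (j - 1))) /
            (qv v : ℝ) ^ j ≤ C₁ * ρ ^ j := by
        intro j _
        have h5 : 1 ≤ GI (aK g b k ω) (v.asIdeal ^ (j - 1)) :=
          (h2 K D _ hcp (v.asIdeal ^ (j - 1)) (hvI _)).2.2.2.2.1.1
        have h6 := hweak (v.asIdeal ^ j) (hvI j)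
        have h7 : (Ideal.absNorm (v.asIdeal ^ j) : ℝ) = (qv v : ℝ) ^ j := by
          rw [map_pow]
          unfold qv
          push_cast
          rfl
        rw [h7] at h6
        have h8 : rp ((qv v : ℝ) ^ j) (MM D) ≤ ρ ^ j := by
          unfold rp
          rw [← Real.rpow_natCast, ← Real.rpow_mul hq0.le, mul_comm, Real.rpow_mul hq0.le,
            Real.rpow_natCast]
          refine pow_le_pow_left₀ (by positivity) ?_ _
          rw [hρ]
          refine Real.rpow_le_rpow_of_nonpos (by norm_num) hq ?_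
          exact (div_neg_of_neg_of_pos (by norm_num) hMR).le
        rw [div_le_iff₀ (by positivity)]
        calc GI (aK g b k ω) (v.asIdeal ^ j) - GI (aK g b k ω) (v.asIdeal ^ (j - 1))
            ≤ C₁ * ((qv v : ℝ) ^ j * rp ((qv v : ℝ) ^ j) (MM D)) := by linarith
          _ ≤ C₁ * ((qv v : ℝ) ^ j * ρ ^ j) := by gcongr
          _ = C₁ * ρ ^ j * (qv v : ℝ) ^ j := by ring
      have hsum : ∑ j ∈ Finset.Icc 1 J, ρ ^ j ≤ 1 / (1 - ρ) := by
        have h9 : ∑ j ∈ Finset.Icc 1 J, ρ ^ j ≤ ∑ j ∈ Finset.range (J + 1), ρ ^ j := by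
          refine Finset.sum_le_sum_of_subset_of_nonneg (fun j hj => ?_) fun j _ _ => by positivity
          rw [Finset.mem_Icc] at hj
          rw [Finset.mem_range]
          omega
        refine h9.trans ?_
        rw [geom_sum_eq hρ1.ne, ← neg_div_neg_eq, div_le_div_iff₀ (by linarith) h1ρ]
        have : 0 < ρ ^ (J + 1) := by positivity
        nlinarith
      calc ∑ j ∈ Finset.Icc 1 J, (GI (aK g b k ω) (v.asIdeal ^ j) -
            GI (aK g b k ω) (v.asIdeal ^ (j - 1))) / (qv v : ℝ) ^ j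
          ≤ ∑ j ∈ Finset.Icc 1 J, C₁ * ρ ^ j := Finset.sum_le_sum hterm
        _ = C₁ * ∑ j ∈ Finset.Icc 1 J, ρ ^ j := by rw [Finset.mul_sum]
        _ ≤ C₁ * (1 / (1 - ρ)) := by gcongr
        _ = C₁ / (1 - ρ) := by ring
        _ ≤ C₁ / (1 - ρ) * Q ^ 2 / (qv v : ℝ) ^ 2 := by
            rw [le_div_iff₀ (by positivity)]
            have := hQv v hv
            gcongr
        _ ≤ C / (qv v : ℝ) ^ 2 := by
            rw [hC]
            gcongr
            linarith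
    · -- all others
      rw [hS', Finset.mem_union, not_or, Set.Finite.mem_toFinset] at hv
      have hkv : (k : 𝓞 K) ∉ v.asIdeal := fun h => hv.2 (by
        show v.asIdeal ∣ Ideal.span {(k : 𝓞 K)}
        rw [Ideal.dvd_span_singleton]
        exact h)
      have hmax : v.asIdeal.IsMaximal := v.isMaximal
      have hGI : ∀ j, GI (aK g b k ω) (v.asIdeal ^ j) = GI (fun w => ev g w) (v.asIdeal ^ j) :=
        fun j => LOK_GI h2 g hbk hω (hvI j)
          (Ideal.Quotient.isUnit_mk_pow_of_notMem v.asIdeal hkv)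
      simp only [hGI]
      refine (hS v hv.1 J).trans ?_
      rw [hC]
      gcongr
      linarith

end Pool.Agent.NRN
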