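import Pool.Agent.NRN.StL
import Pool.Agent.NRM.VG
import Pool.Agent.RHCB.LPCB
import Pool.Agent.RHP.Ev

/-!
NRN: copy with two or more variables x of the following module.
NRM (NORM), [LPN]: positivity (port of RHCB/LPCB.lean).
-/

set_option autoImplicit false

namespace Pool.Agent.NRN

open scoped BigOperators
open Classical NumberField IsDedekindDomain
open Pool.Agent.RHP (Mon mono ev Sys Prim pd WB WW ev_map)
open Pool.Agent.RHK Pool.Agent.RHC Pool.Agent.NRM
open Pool.Agent.RHKB (mI hh jj qv MK uu BadK LP_sum)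
open Pool.Agent.RHCB (BadC cred cemb uk PrC hM f00 LPCB_map LPCB_norm LPCB_quot LPCB_root)
open Pool.Agent.RHCW (cmk)

private theorem LPN_mono {L : Type} [NormedField L] {s r D d : ℕ} {f : Mon s d → L}
    {G : Mon r D → L} {z₀ : Fin r ⊕ Fin s → L} {δ δ' ε : ℝ} (h : δ' ≤ δ) (hf : NZN f G z₀ δ ε) :
    NZN f G z₀ δ' ε := by
  obtain ⟨j, hj⟩ := hf
  exact ⟨j, fun κ hκ => hj κ fun l => (hκ l).trans h⟩

variable {K : Type} [Field K] [NumberField K]

private theorem LPN_cz {a : 𝓞 K} (ha : a ≠ 0) : 0 < cz a := by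
  rw [Nat.pos_iff_ne_zero]
  intro h
  have h1 : ∀ j, co a j = 0 := by
    intro j
    have h2 : (co a j).natAbs ≤ cz a := by
      unfold cz
      exact Finset.le_sup (f := fun j => (co a j).natAbs) (Finset.mem_univ j)
    rw [h] at h2
    exact Int.natAbs_eq_zero.1 (Nat.le_zero.1 h2)
  apply ha
  rw [← (RingOfIntegers.basis K).sum_repr a]
  refine Finset.sum_eq_zero fun j _ => ?_
  have h4 : (RingOfIntegers.basis K).repr a j = 0 := h1 j
  rw [h4, zero_smul]

private theorem LPN_near0 (hW : RHKB.St_PLW) (v : InfinitePlace K) (H n : ℕ) (hH : 0 < H)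
    (hn : 0 < n) (a b : 𝓞 K) (δ : ℝ) (hδ : 0 ≤ δ)
    (h : ∀ j, |(co a j : ℝ) / H - (co b j : ℝ) / n| ≤ δ) :
    ‖jj v.Completion a / (H : v.Completion) - jj v.Completion b / (n : v.Completion)‖ ≤
      δ * MK K := by
  obtain ⟨-, -, h3, h4, -, -⟩ := hW K v
  have : CharZero v.Completion :=
    charZero_of_injective_algebraMap (algebraMap K v.Completion).injective
  have hH' : (H : v.Completion) ≠ 0 := by exact_mod_cast hH.ne'
  have hn' : (n : v.Completion) ≠ 0 := by exact_mod_cast hn.ne'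
  have h5 : jj v.Completion a / (H : v.Completion) - jj v.Completion b / (n : v.Completion) =
        ∑ j, (((co a j : ℚ) / H - (co b j : ℚ) / n : ℚ) : v.Completion) *
          jj v.Completion (RingOfIntegers.basis K j) := by
    rw [LP_sum v.Completion a, LP_sum v.Completion b, Finset.sum_div, Finset.sum_div,
      ← Finset.sum_sub_distrib]
    refine Finset.sum_congr rfl fun j _ => ?_
    push_cast
    field_simp
  rw [h5]
  have h8 : ∀ j, 0 ≤ av v (RingOfIntegers.basis K j) := fun j => by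
    unfold av
    exact apply_nonneg v _
  have h9 : ∑ j, av v (RingOfIntegers.basis K j) ≤ MK K := by
    have h10 : ∑ j, av v (RingOfIntegers.basis K j) ≤
        ∑ w : InfinitePlace K, ∑ j, av w (RingOfIntegers.basis K j) :=
      Finset.single_le_sum (f := fun w : InfinitePlace K => ∑ j, av w (RingOfIntegers.basis K j))
        (fun w _ => Finset.sum_nonneg fun j _ => by unfold av; exact apply_nonneg w _)
        (Finset.mem_univ v)
    refine h10.trans ?_
    unfold MK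
    push_cast
    exact (Nat.le_ceil _).trans (le_add_of_nonneg_right zero_le_one)
  calc ‖∑ j, (((co a j : ℚ) / H - (co b j : ℚ) / n : ℚ) : v.Completion) *
          jj v.Completion (RingOfIntegers.basis K j)‖
      ≤ ∑ j, δ * av v (RingOfIntegers.basis K j) := by
        refine (norm_sum_le _ _).trans (Finset.sum_le_sum fun j _ => ?_)
        rw [norm_mul, h4, h3]
        refine mul_le_mul_of_nonneg_right ?_ (h8 j)
        have h10 := h j
        push_cast
        exact h10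
    _ = δ * ∑ j, av v (RingOfIntegers.basis K j) := (Finset.mul_sum _ _ _).symm
    _ ≤ δ * MK K := mul_le_mul_of_nonneg_left h9 hδ

private theorem LPN_near (hW : RHKB.St_PLW) (v : InfinitePlace K) (s D d V H : ℕ) (hV : 0 < V)
    (h1 : V ^ D ≤ H) (h2 : H ≤ (V + 1) ^ D) (f : Mon s d → 𝓞 K) (δ : ℝ) (hδ : 0 ≤ δ)
    (b : 𝓞 K) (hb : 0 < cz b)
    (h : ∀ μ j, |(co (f μ) j : ℝ) / H - (co (b * f00 (𝓞 K) s d μ) j : ℝ) / (cz b : ℝ)| ≤ δ)
    (a : v.Completion) (ha : a ^ D * ((cz b : ℕ) : v.Completion) = 1) (μ : Mon s d) :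
    ‖cemb (uk v D V) f μ - a ^ D * jj v.Completion b * f00 v.Completion s d μ‖ ≤
      2 ^ D * (δ * MK K) + 2 ^ D / V * MK K := by
  obtain ⟨-, -, h3, h4, h5, -⟩ := hW K v
  have : CharZero v.Completion :=
    charZero_of_injective_algebraMap (algebraMap K v.Completion).injective
  have hH : 0 < H := lt_of_lt_of_le (pow_pos hV D) h1
  have hH' : (H : v.Completion) ≠ 0 := by exact_mod_cast hH.ne'
  have hV' : (V : v.Completion) ≠ 0 := by exact_mod_cast hV.ne'
  have hc' : ((cz b : ℕ) : v.Completion) ≠ 0 := by exact_mod_cast hb.ne'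
  have h8 := LPN_near0 hW v H (cz b) hH hb (f μ) (b * f00 (𝓞 K) s d μ) δ hδ (h μ)
  rw [map_mul, LPCB_map s d (jj v.Completion) μ] at h8
  obtain ⟨h10, h11⟩ := LPCB_quot hV h1 h2
  have ha' : a ^ D = ((cz b : ℕ) : v.Completion)⁻¹ := eq_inv_of_mul_eq_one_left ha
  obtain ⟨g, hg⟩ : ∃ g, g = f00 v.Completion s d μ := ⟨_, rfl⟩
  have hg1 : ‖g‖ ≤ 1 := by
    rw [hg]
    exact LPCB_norm s d μ
  rw [← hg] at h8 ⊢
  have h12 : cemb (uk v D V) f μ - a ^ D * jj v.Completion b * g =
      (((H : ℚ) / (V : ℚ) ^ D : ℚ) : v.Completion) *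
        (jj v.Completion (f μ) / (H : v.Completion) -
          jj v.Completion b * g / ((cz b : ℕ) : v.Completion)) +
      (((H : ℚ) / (V : ℚ) ^ D - 1 : ℚ) : v.Completion) *
        (((cz b : ℚ)⁻¹ : ℚ) : v.Completion) * jj v.Completion b * g := by
    unfold cemb uk
    rw [ha']
    push_cast
    field_simp
    ring
  rw [h12]
  refine (norm_add_le _ _).trans (add_le_add ?_ ?_)
  · rw [norm_mul, h4]
    push_cast
    rw [abs_of_nonneg (by positivity)]
    exact mul_le_mul h11 h8 (norm_nonneg _) (by positivity)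
  · rw [norm_mul, norm_mul, norm_mul, h4, h4, h3]
    push_cast
    have hcr : (0 : ℝ) < cz b := by exact_mod_cast hb
    rw [abs_inv, abs_of_nonneg (a := (cz b : ℝ)) hcr.le]
    have h13 : av v b ≤ MK K * cz b := h5 (cz b) b (mem_cb.2 le_rfl)
    have h14 : (cz b : ℝ)⁻¹ * av v b ≤ MK K := by
      rw [inv_mul_le_iff₀ hcr]
      linarith
    have h15 : 0 ≤ (cz b : ℝ)⁻¹ * av v b :=
      mul_nonneg (by positivity) (by unfold av; exact apply_nonneg v _)
    calc |(H : ℝ) / (V : ℝ) ^ D - 1| * (cz b : ℝ)⁻¹ * av v b * ‖g‖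
        = |(H : ℝ) / (V : ℝ) ^ D - 1| * ((cz b : ℝ)⁻¹ * av v b) * ‖g‖ := by ring
      _ ≤ (2 ^ D / V) * MK K * 1 := by
          refine mul_le_mul (mul_le_mul h10 h14 h15 (by positivity)) hg1 (norm_nonneg _)
            (by positivity)
      _ = 2 ^ D / V * MK K := by ring

private theorem LPN_sig {A : Type} [CommRing A] {s r D d : ℕ} (g : Mon r D → A) (ρ₀ : Fin s → A)
    (ω₀ : Fin r → A) (f : Mon s d → A) (b : ℕ) (hb : b = 1) :
    wsigN b 1 g ρ₀ ω₀ f = sigN 1 g f := by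
  subst hb
  unfold wsigN sigN
  have h : wcntN 1 1 g ρ₀ ω₀ f = cntN 1 g f := by
    unfold wcntN cntN
    refine Nat.card_congr (Equiv.subtypeEquivRight fun p => ?_)
    rw [Nat.cast_one]
    exact ⟨fun h => ⟨h.1, h.2.2⟩, fun h => ⟨h.1, ⟨fun _ => one_dvd _, fun _ => one_dvd _⟩, h.2⟩⟩
  rw [h]

private theorem LPN_NAL {s d : ℕ} {Q : Type} (B : Finset Q) (a : Q → 𝓞 K)
    (P : Set ((Fin s → 𝓞 K) × Q)) (c t H κ W : ℕ) (f : Mon s d → 𝓞 K) :
    NAL B a P c t H κ W f ≤ NAL B a Set.univ c t H κ W f := by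
  unfold NAL
  refine Finset.sum_le_sum fun x _ => Finset.sum_le_sum fun w _ => ?_
  rw [if_pos (Set.mem_univ _)]
  split_ifs <;> first | exact le_rfl | positivity

theorem thm_LP1 (h1 : St_SP1) (h2 : St_NZ0N) (h3 : RHKB.St_PLW) (h4 : St_DT1) : St_LP1 := by
  intro K _ _ s r D m hyp g hg hSG c v hc hv
  have hD0 : D ≠ 0 := by have := hyp.hD; omega
  have : Infinite (𝓞 K) := Infinite.of_injective (Nat.cast : ℕ → 𝓞 K) Nat.cast_injective
  obtain ⟨e, he⟩ := VG_exists g hg
  have hcz : 0 < cz (ev g e) := LPN_cz he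
  have hroot : ∀ v : InfinitePlace K, ∃ a : v.Completion,
      a ^ D * ((cz (ev g e) : ℕ) : v.Completion) = 1 := fun v =>
    LPCB_root v D _ hD0 hcz
  choose a ha using hroot
  have hG : ∀ v : InfinitePlace K, ev (gL v.Completion g) (fun j => jj v.Completion (e j)) =
      jj v.Completion (ev g e) := by
    intro v
    have h5 : gL v.Completion g = fun μ => jj v.Completion (g μ) := by
      funext μ
      unfold gL cemb
      rw [one_mul]
    rw [h5]
    exact ev_map (jj v.Completion) g e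
  have hinj : ∀ v : InfinitePlace K, jj v.Completion (ev g e) ≠ 0 := by
    intro v h5
    apply he
    have h6 : Function.Injective (jj v.Completion : 𝓞 K →+* v.Completion) := by
      unfold jj
      exact (algebraMap K v.Completion).injective.comp (RingOfIntegers.coe_injective)
    exact h6 (by rw [h5, map_zero])
  have hv' : ∀ v : InfinitePlace K, ∃ z₀ : Fin r ⊕ Fin s → v.Completion, ‖xz z₀‖ = 3 / 4 ∧
      ∃ δ : ℝ, 0 < δ ∧ ∀ f : Mon s (D * m) → v.Completion,
      (∀ μ, ‖f μ - a v ^ D * jj v.Completion (ev g e) * f00 v.Completion s (D * m) μ‖ ≤ δ) →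
        NZN f (gL v.Completion g) z₀ δ (1 / 16) := by
    intro v
    obtain ⟨h1, h2', h3, h4, h5, h6⟩ := h3 K v
    have h7 : ‖((3 / 4 : ℚ) : v.Completion)‖ = 3 / 4 := by
      rw [h4]
      push_cast
      rw [abs_of_nonneg (by norm_num)]
    have h8 : ((3 / 4 : ℚ) : v.Completion) ≠ 0 := by
      intro h9
      rw [h9, norm_zero] at h7
      norm_num at h7
    have : CharZero v.Completion :=
      charZero_of_injective_algebraMap (algebraMap K v.Completion).injective
    have hDne : (D : v.Completion) ≠ 0 := by exact_mod_cast hD0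
    have ha0 : a v ≠ 0 := by
      intro h9
      have h10 := ha v
      rw [h9, zero_pow hD0, zero_mul] at h10
      exact zero_ne_one h10
    obtain ⟨z₀, hz1, -, δ, hδ, h9⟩ := h2 v.Completion h2' s r D m (by have := hyp.hs; omega)
      (by have := hyp.hD; omega) hyp.hm hDne (gL v.Completion g)
      (fun j => jj v.Completion (e j)) (by rw [hG]; exact hinj v) (a v) _ ha0 h8 (1 / 16)
      (by norm_num)
    rw [h7] at hz1
    rw [hG] at h9
    exact ⟨z₀, hz1, δ, hδ, h9⟩
  choose z₀ hz₀ δv hδv hNv using hv'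
  obtain ⟨δ, hδ, hδle⟩ : ∃ δ : ℝ, 0 < δ ∧ ∀ v, δ ≤ δv v := by
    obtain ⟨v0, hv0⟩ := Finite.exists_min δv
    exact ⟨δv v0, hδv v0, hv0⟩
  obtain ⟨B, hB⟩ : ∃ B : ℕ, ∀ (v : InfinitePlace K) (j : Fin r), ‖wz (z₀ v) j‖ ≤ B := by
    refine ⟨⌈∑ v : InfinitePlace K, ∑ j : Fin r, ‖wz (z₀ v) j‖⌉₊, fun v j => ?_⟩
    refine le_trans ?_ (Nat.le_ceil _)
    refine le_trans ?_ (Finset.single_le_sum
      (f := fun v : InfinitePlace K => ∑ j : Fin r, ‖wz (z₀ v) j‖)
      (fun v _ => Finset.sum_nonneg fun j _ => norm_nonneg _) (Finset.mem_univ v))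
    exact Finset.single_le_sum (f := fun j : Fin r => ‖wz (z₀ v) j‖)
      (fun j _ => norm_nonneg _) (Finset.mem_univ j)
  obtain ⟨σ₀, hσ, m2, hS⟩ := h1 K s r D m hyp g e he hSG
  obtain ⟨γ, hγ, m3, hDt⟩ := h4 K s r D m hyp g hg (B + 1) B 1 c v le_rfl (by omega) hc hv 1
    one_pos δ (1 / 16) σ₀ hδ (by norm_num) le_rfl hσ
  have hMK : (0 : ℝ) < MK K := by
    have h1 : 0 < MK K := by unfold MK; omega
    exact_mod_cast h1
  obtain ⟨c', hc', hS⟩ := hS (δ / (2 ^ (D + 1) * MK K)) (by positivity)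
  refine ⟨B + 1, by omega, γ, hγ, c', hc', max m2 m3, fun m0 hm0 κ hκ => ?_⟩
  obtain ⟨H0, hS⟩ := hS m0 ((le_max_left _ _).trans hm0)
  obtain ⟨t1, hDt⟩ := hDt m0 ((le_max_right _ _).trans hm0) κ hκ
  obtain ⟨t2, ht2⟩ := exists_nat_ge (2 ^ (D + 1) * MK K / δ)
  refine ⟨max (max t1 1) (max H0 t2), fun t ht V H hVH => ?_⟩
  have ht1 : t1 ≤ t := ((le_max_left _ _).trans (le_max_left _ _)).trans ht
  have htone : 1 ≤ t := ((le_max_right _ _).trans (le_max_left _ _)).trans ht
  have htH0 : H0 ≤ t := ((le_max_left _ _).trans (le_max_right _ _)).trans ht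
  have htt2 : t2 ≤ t := ((le_max_right _ _).trans (le_max_right _ _)).trans ht
  obtain ⟨hV1, hV2, hV3, hV4⟩ := hVH
  have htV : t ≤ V := (Nat.le_self_pow (by omega) t).trans hV1
  have hVH' : V ≤ H := (Nat.le_self_pow hD0 V).trans hV3
  have hV0 : 0 < V := by omega
  refine (hS H (by omega)).trans ?_
  have hVr : 2 ^ D / (V : ℝ) * MK K ≤ δ / 2 := by
    have h1 : (t2 : ℝ) ≤ V := by exact_mod_cast htt2.trans htV
    have h2 : 2 ^ (D + 1) * MK K / δ ≤ (V : ℝ) := ht2.trans h1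
    have h3 : (0 : ℝ) < V := by exact_mod_cast hV0
    rw [div_le_iff₀ hδ] at h2
    rw [div_mul_eq_mul_div, div_le_iff₀ h3]
    rw [pow_succ] at h2
    linarith
  have hsub : ((box K s (D * m) H).filter fun f =>
      (∀ μ j, |(co (f μ) j : ℝ) / H - w00N g e s (D * m) μ j| ≤ δ / (2 ^ (D + 1) * MK K)) ∧
        σ₀ ≤ sigN 1 (cred (Ideal.span {(WW m0 : 𝓞 K)}) g)
          (cred (Ideal.span {(WW m0 : 𝓞 K)}) f)) ⊆
      (box K s (D * m) H).filter fun f =>
        γ * EN (dg K) s D m r c t V H ≤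
          NAL (BG g 1 ((B + 1) * QN s m c t V)) (aG g 1) Set.univ c t H κ (WW m0) f := by
    intro f hf
    rw [Finset.mem_filter] at hf
    obtain ⟨hf1, hf2, hf3⟩ := hf
    rw [Finset.mem_filter]
    refine ⟨hf1, ?_⟩
    have h5 := hDt t ht1 V H ⟨hV1, hV2, hV3, hV4⟩ 0 0 f hf1
      (by rw [LPN_sig _ _ _ _ _ (one_pow D)]; exact hf3) z₀ hz₀ hB fun w => by
        refine LPN_mono (hδle w) (hNv w _ fun μ => ?_)
        refine (LPN_near h3 w s D (D * m) V H hV0 hV3 hV4 f _ (by positivity) (ev g e) hcz hf2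
          (a w) (ha w) μ).trans (le_trans ?_ (hδle w))
        have h1 : 2 ^ D * (δ / (2 ^ (D + 1) * MK K) * (MK K : ℝ)) = δ / 2 := by
          rw [pow_succ]
          field_simp
        rw [h1]
        linarith
    rw [one_pow, Nat.div_one] at h5
    exact h5.trans (LPN_NAL _ _ _ _ _ _ _ _ _)
  exact_mod_cast Finset.card_le_card hsub

end Pool.Agent.NRN
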