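import Pool.Agent.NRN.StG

/-!
# NRN [NSF]: finite fields, the determinants of the polynomials in a matrix
-/

set_option autoImplicit false

namespace Pool.Agent.NRN

open Polynomial

/-- the determinant of a polynomial in a matrix over an algebraically closed field -/
theorem NSF_det {E : Type} [Field E] [IsAlgClosed E] {n : Type} [Fintype n] [DecidableEq n]
    (Θ : Matrix n n E) (h : E[X]) :
    (aeval Θ h).det = (Θ.charpoly.roots.map fun θ => h.eval θ).prod := by
  have hs := IsAlgClosed.splits Θ.charpoly
  have hcard : Θ.charpoly.roots.card = Fintype.card n := by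
    rw [← hs.natDegree_eq_card_roots, Matrix.charpoly_natDegree_eq_dim]
  have hC : ∀ c : E, (aeval Θ (C c)).det = (Θ.charpoly.roots.map fun θ => (C c).eval θ).prod := by
    intro c
    simp only [eval_C]
    rw [Multiset.map_const', Multiset.prod_replicate, hcard, aeval_C, Matrix.algebraMap_eq_diagonal,
      Matrix.det_diagonal]
    simp
  have hX : ∀ μ : E, (aeval Θ (X - C μ)).det =
      (Θ.charpoly.roots.map fun θ => (X - C μ).eval θ).prod := by
    intro μ
    have e1 : aeval Θ (X - C μ) = -(Matrix.scalar n μ - Θ) := by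
      rw [map_sub, aeval_X, aeval_C, neg_sub]
      rfl
    rw [e1, Matrix.det_neg, ← Matrix.eval_charpoly, hs.eval_eq_prod_roots_of_monic
      (Matrix.charpoly_monic Θ), ← hcard]
    have e2 : ∀ s : Multiset E, (-1 : E) ^ s.card * (s.map (μ - ·)).prod =
        (s.map fun θ => (X - C μ).eval θ).prod := by
      intro s
      induction s using Multiset.induction_on with
      | empty => simp
      | cons a s ih =>
        rw [Multiset.card_cons, Multiset.map_cons, Multiset.prod_cons, Multiset.map_cons,
          Multiset.prod_cons, ← ih, eval_sub, eval_X, eval_C]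
        ring
    exact e2 _
  have hM : ∀ p q : E[X], (aeval Θ p).det = (Θ.charpoly.roots.map fun θ => p.eval θ).prod →
      (aeval Θ q).det = (Θ.charpoly.roots.map fun θ => q.eval θ).prod →
      (aeval Θ (p * q)).det = (Θ.charpoly.roots.map fun θ => (p * q).eval θ).prod := by
    intro p q hp hq
    rw [map_mul, Matrix.det_mul, hp, hq, ← Multiset.prod_map_mul]
    simp only [eval_mul]
  rw [(IsAlgClosed.splits h).eq_prod_roots]
  refine hM _ _ (hC _) ?_
  induction h.roots using Multiset.induction_on with
  | empty =>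
    rw [Multiset.map_zero, Multiset.prod_zero]
    exact hC 1
  | cons a s ih =>
    rw [Multiset.map_cons, Multiset.prod_cons]
    exact hM _ _ (hX a) ih

/-- the same over a subfield -/
theorem NSF_det' {F E : Type} [Field F] [Field E] [IsAlgClosed E] [Algebra F E] {n : Type}
    [Fintype n] [DecidableEq n] (Θ : Matrix n n F) (h : F[X]) :
    algebraMap F E (aeval Θ h).det = ((Θ.charpoly.map (algebraMap F E)).roots.map
      fun θ => (h.map (algebraMap F E)).eval θ).prod := by
  rw [RingHom.map_det, ← Matrix.charpoly_map, ← NSF_det]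
  congr 1
  refine map_aeval_eq_aeval_map (φ := algebraMap F E) (ψ := (algebraMap F E).mapMatrix) ?_ h Θ
  ext c i j
  rw [RingHom.comp_apply, RingHom.comp_apply, Matrix.algebraMap_eq_diagonal,
    Matrix.algebraMap_eq_diagonal]
  simp only [RingHom.mapMatrix_apply, Matrix.map_apply, Matrix.diagonal_apply,
    Pi.algebraMap_apply, Algebra.algebraMap_self, RingHom.id_apply]
  split_ifs
  · rfl
  · rw [map_zero]

theorem thm_NSF : St_NSF := by
  classical
  intro F _ _ D hD Θ hsep a _
  have hdeg : 0 < Θ.charpoly.natDegree := by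
    rw [Matrix.charpoly_natDegree_eq_dim, Fintype.card_fin]
    omega
  obtain ⟨p, hp, q, hq⟩ := exists_irreducible_of_natDegree_pos hdeg
  have hP0 : Θ.charpoly ≠ 0 := (Matrix.charpoly_monic Θ).ne_zero
  have hp0 : p ≠ 0 := hp.ne_zero
  have hcop : IsCoprime p q := by
    rw [hq] at hsep
    exact hsep.isCoprime
  obtain ⟨u, v, huv⟩ := hcop
  have : Fact (Irreducible p) := ⟨hp⟩
  have : Module.Finite F (AdjoinRoot p) := (AdjoinRoot.powerBasis hp0).finite
  have : Finite (AdjoinRoot p) := Module.finite_of_finite F
  obtain ⟨x, hx⟩ := FiniteField.norm_surjective F (AdjoinRoot p) a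
  obtain ⟨h₁, rfl⟩ := AdjoinRoot.mk_surjective x
  refine ⟨u * p + v * q * h₁, ?_⟩
  let E := AlgebraicClosure F
  apply (algebraMap F E).injective
  rw [NSF_det', ← hx]
  -- the norm
  let pb := AdjoinRoot.powerBasis hp0
  have e1 : Algebra.norm F (AdjoinRoot.mk p h₁) =
      (aeval (Algebra.leftMulMatrix pb.basis pb.gen) h₁).det := by
    rw [Algebra.norm_eq_matrix_det pb.basis, aeval_algHom_apply, AdjoinRoot.powerBasis_gen,
      AdjoinRoot.aeval_eq]
  rw [e1, NSF_det', charpoly_leftMulMatrix, AdjoinRoot.minpoly_powerBasis_gen hp0]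
  have hpm0 : p.map (algebraMap F E) ≠ 0 := Polynomial.map_ne_zero hp0
  have hqm0 : q.map (algebraMap F E) ≠ 0 := by
    refine Polynomial.map_ne_zero fun h => hP0 ?_
    rw [hq, h, mul_zero]
  have e2 : ((p * C p.leadingCoeff⁻¹).map (algebraMap F E)).roots =
      (p.map (algebraMap F E)).roots := by
    rw [Polynomial.map_mul, Polynomial.map_C, mul_comm, roots_C_mul]
    rw [_root_.map_ne_zero]
    exact inv_ne_zero (leadingCoeff_ne_zero.2 hp0)
  have e3 : (Θ.charpoly.map (algebraMap F E)).roots =
      (p.map (algebraMap F E)).roots + (q.map (algebraMap F E)).roots := by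
    rw [hq, Polynomial.map_mul, roots_mul (mul_ne_zero hpm0 hqm0)]
  have huv' : u.map (algebraMap F E) * p.map (algebraMap F E) +
      v.map (algebraMap F E) * q.map (algebraMap F E) = 1 := by
    rw [← Polynomial.map_mul, ← Polynomial.map_mul, ← Polynomial.map_add, huv, Polynomial.map_one]
  rw [e2, e3, Multiset.map_add, Multiset.prod_add]
  have e4 : ((p.map (algebraMap F E)).roots.map fun θ =>
      ((u * p + v * q * h₁).map (algebraMap F E)).eval θ) =
      (p.map (algebraMap F E)).roots.map fun θ => (h₁.map (algebraMap F E)).eval θ := by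
    refine Multiset.map_congr rfl fun θ hθ => ?_
    have h1 : (p.map (algebraMap F E)).eval θ = 0 := (mem_roots hpm0).1 hθ
    have h2 := congrArg (fun g => g.eval θ) huv'
    simp only [eval_add, eval_mul, h1, mul_zero, zero_add, eval_one] at h2
    rw [Polynomial.map_add, Polynomial.map_mul, Polynomial.map_mul, Polynomial.map_mul, eval_add,
      eval_mul, eval_mul, eval_mul, h1, mul_zero, zero_add, h2, one_mul]
  have e5 : ((q.map (algebraMap F E)).roots.map fun θ =>
      ((u * p + v * q * h₁).map (algebraMap F E)).eval θ).prod = 1 := by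
    refine Multiset.prod_eq_one fun y hy => ?_
    obtain ⟨θ, hθ, rfl⟩ := Multiset.mem_map.1 hy
    have h1 : (q.map (algebraMap F E)).eval θ = 0 := (mem_roots hqm0).1 hθ
    have h2 := congrArg (fun g => g.eval θ) huv'
    simp only [eval_add, eval_mul, h1, mul_zero, add_zero, eval_one] at h2
    rw [Polynomial.map_add, Polynomial.map_mul, Polynomial.map_mul, Polynomial.map_mul, eval_add,
      eval_mul, eval_mul, eval_mul, h1, mul_zero, zero_mul, add_zero, h2]
  rw [e4, e5, mul_one]

end Pool.Agent.NRN
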