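import Pool.Agent.NRN.StG

/-!
# NRN [PEX]: expansion of products and exchange of sums (helper70)
-/

set_option autoImplicit false

namespace Pool.Agent.NRN

open Finset

section

open Classical in
theorem PEX_main {ι U : Type} [Fintype ι] (g : ι → ℕ → ℝ) (N : ι → ℝ) (S : Finset U)
    (e : U → ι → ℕ) (E : ℕ) (Z : ℝ) (hg : ∀ i j, 0 ≤ g i j) (hN : ∀ i, 1 ≤ N i)
    (hZ : ∀ k : ι → ℕ, (∀ i, k i ≤ E) →
      ((S.filter fun u => ∀ i, k i ≤ e u i).card : ℝ) * ∏ i, N i ^ k i ≤ Z)
    (P : (ι → ℕ) → Prop) :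
    ∑ u ∈ S, ∑ k ∈ (Fintype.piFinset fun _ : ι => range (E + 1)).filter
        (fun k => (∀ i, k i ≤ e u i) ∧ P k), ∏ i, g i (k i) ≤
      Z * ∑ k ∈ (Fintype.piFinset fun _ : ι => range (E + 1)).filter P,
        ∏ i, (g i (k i) / N i ^ k i) := by
  simp_rw [Finset.sum_filter]
  rw [Finset.sum_comm, Finset.mul_sum]
  refine Finset.sum_le_sum fun k hk => ?_
  have hk' : ∀ i, k i ≤ E := fun i =>
    Nat.lt_succ_iff.1 (Finset.mem_range.1 (Fintype.mem_piFinset.1 hk i))
  by_cases hP : P k
  · simp only [hP, and_true, if_true]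
    rw [← Finset.sum_filter, Finset.sum_const, nsmul_eq_mul, Finset.prod_div_distrib,
      ← mul_div_assoc]
    have h1 : 0 < ∏ i, N i ^ k i :=
      Finset.prod_pos fun i _ => pow_pos (lt_of_lt_of_le one_pos (hN i)) _
    rw [le_div_iff₀ h1, mul_right_comm]
    refine mul_le_mul_of_nonneg_right ?_ (Finset.prod_nonneg fun i _ => hg i _)
    convert hZ k hk' using 3
  · simp only [hP, and_false, if_false, Finset.sum_const_zero, mul_zero, le_refl]

open Classical in
theorem PEX_tail {ι : Type} [Fintype ι] (G : ι → ℕ → ℝ) (w : ι → ℕ) (E : ℕ)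
    (hG : ∀ i j, 0 ≤ G i j) (h0 : ∀ i, G i 0 = 1) :
    ∑ k ∈ (Fintype.piFinset fun _ : ι => range (E + 1)).filter (fun k => ¬ ∀ i, k i ≤ w i),
      ∏ i, G i (k i) ≤
      (∑ i, ∑ j ∈ Ioc (w i) E, G i j) * ∏ i, ∑ j ∈ range (E + 1), G i j := by
  have h1 : ∑ k ∈ (Fintype.piFinset fun _ : ι => range (E + 1)).filter
      (fun k => ¬ ∀ i, k i ≤ w i), ∏ i, G i (k i) ≤
      ∑ i, ∑ k ∈ (Fintype.piFinset fun _ : ι => range (E + 1)).filter (fun k => w i < k i),
        ∏ i, G i (k i) := by
    simp_rw [Finset.sum_filter]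
    rw [Finset.sum_comm]
    refine Finset.sum_le_sum fun k _ => ?_
    have h2 : 0 ≤ ∏ i, G i (k i) := Finset.prod_nonneg fun i _ => hG i _
    have h4 : ∀ i, 0 ≤ if w i < k i then ∏ i, G i (k i) else 0 := by
      intro i
      by_cases h5 : w i < k i
      · rw [if_pos h5]; exact h2
      · rw [if_neg h5]
    by_cases h : ∀ i, k i ≤ w i
    · rw [if_neg (not_not.2 h)]
      exact Finset.sum_nonneg fun i _ => h4 i
    · rw [if_pos h]
      push Not at h
      obtain ⟨i, hi⟩ := h
      refine le_trans ?_ (Finset.single_le_sum (f := fun i =>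
        if w i < k i then ∏ i, G i (k i) else 0) (fun i _ => h4 i) (Finset.mem_univ i))
      simp only [hi, if_true, le_refl]
  refine h1.trans ?_
  rw [Finset.sum_mul]
  refine Finset.sum_le_sum fun i _ => ?_
  have h3 : (Fintype.piFinset fun _ : ι => range (E + 1)).filter (fun k => w i < k i) =
      Fintype.piFinset (Function.update (fun _ : ι => range (E + 1)) i (Ioc (w i) E)) := by
    ext k
    rw [Finset.mem_filter, Fintype.mem_piFinset, Fintype.mem_piFinset]
    constructor
    · rintro ⟨h4, h5⟩ j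
      by_cases hj : j = i
      · subst hj
        rw [Function.update_self, Finset.mem_Ioc]
        exact ⟨h5, Nat.lt_succ_iff.1 (Finset.mem_range.1 (h4 j))⟩
      · rw [Function.update_of_ne hj]
        exact h4 j
    · intro h4
      have h5 := h4 i
      rw [Function.update_self, Finset.mem_Ioc] at h5
      refine ⟨fun j => ?_, h5.1⟩
      by_cases hj : j = i
      · subst hj
        exact Finset.mem_range.2 (Nat.lt_succ_iff.2 h5.2)
      · have h6 := h4 j
        rwa [Function.update_of_ne hj] at h6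
  rw [h3, ← Finset.prod_univ_sum, ← Finset.mul_prod_erase univ _ (Finset.mem_univ i),
    Function.update_self]
  refine mul_le_mul_of_nonneg_left ?_ (Finset.sum_nonneg fun j _ => hG i j)
  rw [← Finset.mul_prod_erase univ _ (Finset.mem_univ i)]
  have h7 : ∏ x ∈ univ.erase i, ∑ j ∈ Function.update (fun _ : ι => range (E + 1)) i
      (Ioc (w i) E) x, G x j = ∏ x ∈ univ.erase i, ∑ j ∈ range (E + 1), G x j := by
    refine Finset.prod_congr rfl fun x hx => ?_
    rw [Function.update_of_ne (Finset.ne_of_mem_erase hx)]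
  rw [h7]
  refine le_mul_of_one_le_left (Finset.prod_nonneg fun x _ =>
    Finset.sum_nonneg fun j _ => hG x j) ?_
  rw [← h0 i]
  exact Finset.single_le_sum (f := fun j => G i j) (fun j _ => hG i j)
    (Finset.mem_range.2 (Nat.succ_pos E))

end

open Classical in
theorem thm_PEX : St_PEX := by
  intro ι U _ g N S e w E Z hg hg0 hN hZ0 hE hZ
  have hK : ∀ (u : U) (f : ι → ℕ), (∀ i, f i ≤ E) →
      ∏ i, ∑ j ∈ range (f i + 1), g i j =
        ∑ k ∈ (Fintype.piFinset fun _ : ι => range (E + 1)).filter (fun k => ∀ i, k i ≤ f i),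
          ∏ i, g i (k i) := by
    intro _ f hf
    rw [Finset.prod_univ_sum]
    refine Finset.sum_congr ?_ fun _ _ => rfl
    ext k
    rw [Finset.mem_filter, Fintype.mem_piFinset, Fintype.mem_piFinset]
    simp only [Finset.mem_range, Nat.lt_succ_iff]
    exact ⟨fun h => ⟨fun i => (h i).trans (hf i), h⟩, fun h => h.2⟩
  constructor
  · have h1 := PEX_main g N S e E Z hg hN hZ (fun _ => True)
    rw [Finset.filter_true, ← Finset.prod_univ_sum (fun _ => range (E + 1))
      (fun i j => g i j / N i ^ j)] at h1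
    refine le_trans (le_of_eq ?_) h1
    refine Finset.sum_congr rfl fun u hu => ?_
    rw [hK u (e u) (hE u hu)]
    simp only [and_true]
  · have h1 := PEX_main g N S e E Z hg hN hZ (fun k => ¬ ∀ i, k i ≤ w i)
    have h2 := PEX_tail (fun i j => g i j / N i ^ j) w E
      (fun i j => div_nonneg (hg i j) (pow_nonneg (zero_le_one.trans (hN i)) _))
      (fun i => by simp [hg0])
    refine le_trans (le_of_eq ?_) (h1.trans ?_)
    · refine Finset.sum_congr rfl fun u hu => ?_
      rw [hK u (e u) (hE u hu), hK u (fun i => min (e u i) (w i))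
        (fun i => (min_le_left _ _).trans (hE u hu i))]
      rw [sub_eq_iff_eq_add, ← Finset.sum_filter_add_sum_filter_not
        ((Fintype.piFinset fun _ : ι => range (E + 1)).filter (fun k => ∀ i, k i ≤ e u i))
        (fun k => ¬ ∀ i, k i ≤ w i), Finset.filter_filter, Finset.filter_filter]
      refine congrArg₂ (· + ·) (Finset.sum_congr ?_ fun _ _ => rfl)
        (Finset.sum_congr ?_ fun _ _ => rfl)
      · ext k
        simp only [Finset.mem_filter]
      · ext k
        simp only [Finset.mem_filter, not_not, le_min_iff]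
        exact ⟨fun h => ⟨h.1, fun i => ⟨h.2.1 i, h.2.2 i⟩⟩,
          fun h => ⟨h.1, fun i => (h.2 i).1, fun i => (h.2 i).2⟩⟩
    · rw [mul_assoc]
      refine mul_le_mul_of_nonneg_left (le_trans (le_of_eq ?_) h2) hZ0
      refine Finset.sum_congr ?_ fun _ _ => rfl
      ext k
      simp only [Finset.mem_filter]

end Pool.Agent.NRN
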