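import Pool.Agent.NRN.StG
import Pool.Agent.NRM.LNP
import Pool.Agent.RHP.Ev

/-!
# NRN [PLB]: the restriction of `w ↦ g(ω + k w)/b` to a line (helper70)
-/

set_option autoImplicit false

namespace Pool.Agent.NRN

open scoped BigOperators
open Classical NumberField IsDedekindDomain
open Pool.Agent.RHP (Mon mono ev Sys Prim pd WB WW)
open Pool.Agent.RHK Pool.Agent.RHC Pool.Agent.NRM
open Pool.Agent.RHKB (mI hh jj qv MK uu BadK)
open Pool.Agent.RHCB (BadC cred cemb uk PrC hM f00)

/-- forms preserve congruences -/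
theorem PLB_congr {A : Type} [CommRing A] {r D : ℕ} (g : Mon r D → A) (x y : Fin r → A) (b : A)
    (h : ∀ j, b ∣ x j - y j) : b ∣ ev g x - ev g y := by
  rw [← Ideal.mem_span_singleton, ← Ideal.Quotient.eq_zero_iff_mem, map_sub,
    ← Pool.Agent.RHP.ev_map, ← Pool.Agent.RHP.ev_map, sub_eq_zero]
  congr 1
  funext j
  have h1 := Ideal.Quotient.eq_zero_iff_mem.2 (Ideal.mem_span_singleton.2 (h j))
  rw [map_sub, sub_eq_zero] at h1
  exact h1

theorem thm_PLB : St_PLB := by
  intro K _ _ r D g b k ω w₀ e hb hD hbk hω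
  have hb0 : (b : 𝓞 K) ≠ 0 := by
    exact_mod_cast (Nat.one_le_iff_ne_zero.1 hb)
  obtain ⟨P₁, h1, h2, h3⟩ := thm_LNP (𝓞 K) r D g (fun j => ω j + k * w₀ j) (fun j => k * e j)
  -- the explicit polynomial
  have hev : P₁ = ev (fun μ => Polynomial.C (g μ)) (fun j =>
      Polynomial.C (ω j + k * w₀ j) + Polynomial.X * Polynomial.C (k * e j)) := by
    apply Polynomial.funext
    intro T
    have h4 := (Pool.Agent.RHP.ev_map (Polynomial.evalRingHom T)
      (fun μ => Polynomial.C (g μ)) (fun j =>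
      Polynomial.C (ω j + k * w₀ j) + Polynomial.X * Polynomial.C (k * e j)))
    rw [h1 T]
    simpa using h4
  have hdvd : Polynomial.C (b : 𝓞 K) ∣ P₁ := by
    have h4 := PLB_congr (fun μ => Polynomial.C (g μ)) (fun j =>
      Polynomial.C (ω j + k * w₀ j) + Polynomial.X * Polynomial.C (k * e j))
      (fun j => Polynomial.C (ω j)) (Polynomial.C (b : 𝓞 K)) (fun j => by
        obtain ⟨q, rfl⟩ := hbk
        refine ⟨Polynomial.C (q * w₀ j) + Polynomial.X * Polynomial.C (q * e j), ?_⟩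
        simp only [map_add, map_mul, Nat.cast_mul]
        ring)
    have h5 : ev (fun μ => Polynomial.C (g μ)) (fun j => Polynomial.C (ω j)) =
        Polynomial.C (ev g ω) := Pool.Agent.RHP.ev_map Polynomial.C g ω
    rw [← hev, h5] at h4
    have h6 : Polynomial.C (b : 𝓞 K) ∣ Polynomial.C (ev g ω) := map_dvd Polynomial.C hω
    exact (dvd_sub_left h6).1 h4
  obtain ⟨P, hP⟩ := hdvd
  refine ⟨P, fun T => ?_, ?_, ?_⟩
  · have h4 : (b : 𝓞 K) * P.eval T =
        ev g (fun j => ω j + (k : 𝓞 K) * (w₀ j + T * e j)) := by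
      have h5 := h1 T
      rw [hP, Polynomial.eval_mul, Polynomial.eval_C] at h5
      rw [h5]
      congr 1
      funext j
      ring
    have h5 : (b : 𝓞 K) * aK g b k ω (fun j => w₀ j + T * e j) =
        ev g (fun j => ω j + (k : 𝓞 K) * (w₀ j + T * e j)) :=
      aG_mul ⟨_, h4.symm⟩
    exact mul_left_cancel₀ hb0 (h4.trans h5.symm)
  · rw [hP, Polynomial.natDegree_C_mul hb0] at h2
    exact h2
  · rw [← Polynomial.coeff_C_mul, ← hP, h3]
    exact Pool.Agent.RHP.ev_smul_pt (k : 𝓞 K) g e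

end Pool.Agent.NRN
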