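import Pool.Agent.NRN.StF
import Pool.Agent.RHC.Final

/-!
NRN [PO1] (helper95): a positive proportion has a point (from NRM/POSN.lean, with the cubes of CUB).
-/

set_option autoImplicit false

namespace Pool.Agent.NRN

open scoped BigOperators
open Classical NumberField IsDedekindDomain
open Pool.Agent.RHP (Mon mono ev Sys Prim pd WB WW ev_map card_le_add WW_pos dvd_WW)
open Pool.Agent.RHK Pool.Agent.RHC Pool.Agent.NRM
open Pool.Agent.RHKB (mI hh jj qv MK uu BadK)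
open Pool.Agent.RHCB (BadC cred cemb uk PrC hM f00)

variable {K : Type} [Field K] [NumberField K]

/-- the expected number is positive -/
private theorem PO1_EN (n s D m r c v t V H : ℕ) (ht : 1 ≤ t) (hH : CR D v t V H) :
    0 < EN n s D m r c t V H := by
  unfold EN QN
  have hV : 0 < V := lt_of_lt_of_le (pow_pos ht _) hH.1
  have hH' : 0 < H := lt_of_lt_of_le (pow_pos hV _) hH.2.2.1
  have hX : 0 < XC s c t := XC_pos s c t ht
  have hV' : (0 : ℝ) < V := by exact_mod_cast hV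
  have hH'' : (0 : ℝ) < H := by exact_mod_cast hH'
  have hX' : (0 : ℝ) < XC s c t := by exact_mod_cast hX
  push_cast
  positivity

/-- a point counted by `NA` gives a point over `K` -/
private theorem PO1_pt {s r D m : ℕ} (g : Mon r D → 𝓞 K) (c t k : ℕ) (ω : Fin r → 𝓞 K)
    (B : Finset (Fin r → 𝓞 K)) (P : Set ((Fin s → 𝓞 K) × (Fin r → 𝓞 K)))
    (f : Mon s (D * m) → 𝓞 K) (h : NA B (aK g 1 k ω) P c t f ≠ 0) :
    ∃ (x : Fin s → K) (w : Fin r → K), IsPtN g f x w := by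
  unfold NA at h
  obtain ⟨x, hx, h1⟩ := Finset.exists_ne_zero_of_sum_ne_zero h
  obtain ⟨w0, hw, h2⟩ := Finset.exists_ne_zero_of_sum_ne_zero h1
  have h3 : ev f x = aG g 1 (fun j => ω j + k * w0 j) := by
    by_contra h3
    apply h2
    have h4 : ¬ ev f x = aK g 1 k ω w0 := h3
    rw [if_neg h4, ite_self]
  obtain ⟨w, hwd⟩ : ∃ w : Fin r → 𝓞 K, w = fun j => ω j + k * w0 j := ⟨_, rfl⟩
  rw [← hwd] at h3
  have h4 : ((1 : ℕ) : 𝓞 K) * aG g 1 w = ev g w := by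
    refine aG_mul ?_
    rw [Nat.cast_one]
    exact one_dvd _
  rw [Nat.cast_one, one_mul] at h4
  rw [h4] at h3
  unfold CG at hx
  rw [Finset.mem_filter] at hx
  refine ⟨fun i => (x i : K), fun j => (w j : K), ?_, ?_⟩
  · intro h0
    obtain ⟨c, hc⟩ := hx.2.1
    have : ∀ i, x i = 0 := fun i => by
      have h2 : (x i : K) = 0 := congrFun h0 i
      exact RingOfIntegers.coe_eq_zero_iff.1 h2
    simp [this] at hc
  · have h5 : ∀ (q d : ℕ) (f : Mon q d → 𝓞 K) (x : Fin q → 𝓞 K),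
        ev (cemb (1 : K) f) (fun i => (x i : K)) = algebraMap (𝓞 K) K (ev f x) := by
      intro q d f x
      have h6 : cemb (1 : K) f = fun μ => algebraMap (𝓞 K) K (f μ) := by
        funext μ
        unfold cemb jj
        rw [one_mul]
        rfl
      rw [h6]
      exact ev_map (algebraMap (𝓞 K) K) f x
    change ev (cemb (1 : K) f) (fun i => (x i : K)) = ev (cemb (1 : K) g) (fun j => (w j : K))
    rw [h5, h5, h3]

/-- Chebyshev -/
private theorem PO1_cheb {s r D m : ℕ} {Q : Type} (B : Finset Q) (a : Q → 𝓞 K)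
    (P : Set ((Fin s → 𝓞 K) × Q)) (c v t V H κ W : ℕ) (γ : ℝ) (hγ : 0 < γ) (ht : 1 ≤ t)
    (hH : CR D v t V H)
    (ε : ℝ) (hs : ∑ F ∈ box K s (D * m) H, (NA B a P c t F - NAL B a P c t H κ W F) ^ 2
      ≤ ε * EN (dg K) s D m r c t V H ^ 2 * ((box K s (D * m) H).card : ℝ)) :
    (((box K s (D * m) H).filter fun F => NA B a P c t F = 0 ∧
      γ * EN (dg K) s D m r c t V H ≤ NAL B a P c t H κ W F).card : ℝ)
      ≤ ε / γ ^ 2 * ((box K s (D * m) H).card : ℝ) := by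
  have hE := PO1_EN (dg K) s D m r c v t V H ht hH
  obtain ⟨E, hEd⟩ : ∃ E : ℝ, E = EN (dg K) s D m r c t V H := ⟨_, rfl⟩
  rw [← hEd] at hE hs ⊢
  have hcE : 0 < γ * E := mul_pos hγ hE
  obtain ⟨S, hS⟩ : ∃ S : Finset (Mon s (D * m) → 𝓞 K), S = (box K s (D * m) H).filter fun F =>
    NA B a P c t F = 0 ∧ γ * E ≤ NAL B a P c t H κ W F := ⟨_, rfl⟩
  rw [← hS]
  have h1 : (S.card : ℝ) * (γ * E) ^ 2 ≤
      ∑ F ∈ box K s (D * m) H, (NA B a P c t F - NAL B a P c t H κ W F) ^ 2 := by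
    calc (S.card : ℝ) * (γ * E) ^ 2
        = ∑ F ∈ S, (γ * E) ^ 2 := by
          rw [Finset.sum_const, nsmul_eq_mul]
      _ ≤ ∑ F ∈ S, (NA B a P c t F - NAL B a P c t H κ W F) ^ 2 := by
          apply Finset.sum_le_sum
          intro F hF
          rw [hS] at hF
          obtain ⟨_, hF1, hF2⟩ := Finset.mem_filter.1 hF
          rw [hF1, zero_sub, neg_sq]
          exact pow_le_pow_left₀ hcE.le hF2 2
      _ ≤ ∑ F ∈ box K s (D * m) H, (NA B a P c t F - NAL B a P c t H κ W F) ^ 2 := by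
          apply Finset.sum_le_sum_of_subset_of_nonneg
          · rw [hS]
            exact Finset.filter_subset _ _
          intros
          positivity
  have h2 := h1.trans hs
  have h3 : (γ * E) ^ 2 = γ ^ 2 * E ^ 2 := by ring
  rw [h3] at h2
  have h4 : 0 < E ^ 2 := by positivity
  have h5 : 0 < γ ^ 2 := by positivity
  have h6 : (S.card : ℝ) * γ ^ 2 ≤ ε * ((box K s (D * m) H).card : ℝ) := by
    have : ((S.card : ℝ) * γ ^ 2) * E ^ 2 ≤
        (ε * ((box K s (D * m) H).card : ℝ)) * E ^ 2 := by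
      nlinarith [h2]
    exact le_of_mul_le_mul_right this h4
  rw [div_mul_eq_mul_div, le_div_iff₀ h5]
  exact h6

theorem thm_PO1 (hLP : St_LP1) (hCUB : St_CUB) : St_PO1 := by
  intro K _ _ D m hD hm g hg hSGP hpar
  obtain ⟨c, v, hc, hv, sm, hfam⟩ := hpar
  obtain ⟨A, hA, γ, hγ, γ', hγ', m2, h2⟩ := hLP K 2 D D m ⟨le_rfl, hD, hm⟩ g hg hSGP c v hc hv
  obtain ⟨A', n₁, hA', Q0, hQ0⟩ := hCUB K D D m (by omega) g A 1 1 hA le_rfl le_rfl (dvd_refl 1) 1
    one_pos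
  obtain ⟨C0, hC0, hfam⟩ := hfam A' 1 1 hA' le_rfl le_rfl (dvd_refl 1)
  obtain ⟨Z, hZ⟩ : ∃ Z : Finset ((Fin D → 𝓞 K) × (Fin D → IX K → ℤ)),
    Z = ((db K D 1).filter (fun ω => ((1 : ℕ) : 𝓞 K) ∣ ev g ω)) ×ˢ
      Fintype.piFinset (fun _ : Fin D => Fintype.piFinset fun _ : IX K =>
        Finset.Icc (-(n₁ : ℤ)) n₁) := ⟨_, rfl⟩
  obtain ⟨n0, hn0⟩ : ∃ n0 : ℝ, n0 = (Z.card : ℝ) + 1 := ⟨_, rfl⟩
  have hn0p : 0 < n0 := by
    rw [hn0]
    positivity
  have hγn : 0 < γ / n0 := div_pos hγ hn0p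
  obtain ⟨κ, m1, hκ, h3⟩ := sm C0 ((γ / n0) ^ 2 * γ' / (2 * n0)) hC0 (by positivity)
  obtain ⟨M, hM⟩ : ∃ M, M = max m1 m2 := ⟨_, rfl⟩
  obtain ⟨t1, h4⟩ := h3 (WW M) (WW_pos M)
    (fun g _ hg' => dvd_WW M g ‹_› (hg'.trans (hM ▸ le_max_left _ _)))
  obtain ⟨t2, h5⟩ := h2 M (hM ▸ le_max_right _ _) κ hκ
  obtain ⟨H0, hH0⟩ := exists_CR D v (max (max t1 t2) Q0) (by omega) hv
  refine ⟨γ' / 2, by positivity, H0, fun H hH => ?_⟩
  obtain ⟨t, ht, ht1, V, hR⟩ := hH0 H hH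
  have htt1 : t1 ≤ t := (le_max_left _ _).trans ((le_max_left _ _).trans ht)
  have htt2 : t2 ≤ t := (le_max_right _ _).trans ((le_max_left _ _).trans ht)
  have hQt : Q0 ≤ QN 2 m c t V := by
    have e1 : t ≤ t ^ v := Nat.le_self_pow (by omega) t
    have e2 : 1 ≤ XC 2 c t ^ m := Nat.one_le_pow _ _ (XC_pos 2 c t ht1)
    calc Q0 ≤ t := (le_max_right _ _).trans ht
      _ ≤ V := e1.trans hR.1
      _ ≤ XC 2 c t ^ m * V := Nat.le_mul_of_pos_left _ e2
  obtain ⟨L, hL1, hL2, -, hcub⟩ := hQ0 c t V hQt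
  have h7 := h5 t htt2 V H hR
  have hE := PO1_EN (dg K) 2 D m D c v t V H ht1 hR
  obtain ⟨bx0, hbx0⟩ : ∃ bx0 : ℝ, bx0 = ((box K 2 (D * m) H).card : ℝ) := ⟨_, rfl⟩
  have hbx00 : 0 ≤ bx0 := by
    rw [hbx0]
    exact Nat.cast_nonneg _
  obtain ⟨T, hT⟩ : ∃ T : (Fin D → 𝓞 K) × (Fin D → IX K → ℤ) → Finset (Mon 2 (D * m) → 𝓞 K),
    T = fun z => (box K 2 (D * m) H).filter fun F =>
      NA (BK g 1 z.1 (fun j i => L * z.2 j i) L) (aK g 1 1 z.1)
        {p | p.1 ∈ (Set.univ : Set (Fin 2 → 𝓞 K))} c t F = 0 ∧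
      γ / n0 * EN (dg K) 2 D m D c t V H ≤
        NAL (BK g 1 z.1 (fun j i => L * z.2 j i) L) (aK g 1 1 z.1)
          {p | p.1 ∈ (Set.univ : Set (Fin 2 → 𝓞 K))} c t H κ (WW M) F := ⟨_, rfl⟩
  have hT1 : ∀ z ∈ Z, ((T z).card : ℝ) ≤ γ' / (2 * n0) * bx0 := by
    intro z hz
    rw [hZ] at hz
    obtain ⟨hz1, hz2⟩ := Finset.mem_product.1 hz
    obtain ⟨hz3, hz4⟩ := Finset.mem_filter.1 hz1
    have hz5 : ∀ j i, |((L : ℤ) * z.2 j i)| ≤ ((A' * QN 2 m c t V : ℕ) : ℤ) := by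
      intro j i
      have e1 := Finset.mem_Icc.1 (Fintype.mem_piFinset.1 (Fintype.mem_piFinset.1 hz2 j) i)
      have e2 : |z.2 j i| ≤ n₁ := abs_le.2 e1
      calc |((L : ℤ) * z.2 j i)| = L * |z.2 j i| := by
            rw [abs_mul, Nat.abs_cast]
        _ ≤ L * n₁ := mul_le_mul_of_nonneg_left e2 (Nat.cast_nonneg _)
        _ ≤ ((A' * QN 2 m c t V : ℕ) : ℤ) := by exact_mod_cast hL2
    have h6 := h4 t htt1 V H hR (BK g 1 z.1 (fun j i => L * z.2 j i) L) (aK g 1 1 z.1)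
      (hfam t ht1 V H hR z.1 hz3 hz4 (fun j i => L * z.2 j i) L
        (fun j i => by exact_mod_cast hz5 j i) hL1) Set.univ
    have h8 := PO1_cheb _ _ _ c v t V H κ (WW M) (γ / n0) hγn ht1 hR _ h6
    have h10 : (γ / n0) ^ 2 * γ' / (2 * n0) / (γ / n0) ^ 2 = γ' / (2 * n0) := by field_simp
    rw [h10] at h8
    rw [hT, hbx0]
    exact h8
  have h9 : (((box K 2 (D * m) H).filter fun F =>
        γ * EN (dg K) 2 D m D c t V H ≤
          NAL (BG g 1 (A * QN 2 m c t V)) (aG g 1) Set.univ c t H κ (WW M) F).card : ℝ)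
      ≤ (((box K 2 (D * m) H).filter fun F =>
            ∃ (x : Fin 2 → K) (w : Fin D → K), IsPtN g F x w).card : ℝ)
        + ∑ z ∈ Z, ((T z).card : ℝ) := by
    have hsub : ((box K 2 (D * m) H).filter fun F =>
        γ * EN (dg K) 2 D m D c t V H ≤
          NAL (BG g 1 (A * QN 2 m c t V)) (aG g 1) Set.univ c t H κ (WW M) F) ⊆
        ((box K 2 (D * m) H).filter fun F =>
            ∃ (x : Fin 2 → K) (w : Fin D → K), IsPtN g F x w) ∪ Z.biUnion T := by
      intro F hF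
      obtain ⟨hF1, hF2⟩ := Finset.mem_filter.1 hF
      rw [Finset.mem_union]
      by_contra hcon
      push Not at hcon
      obtain ⟨hc1, hc2⟩ := hcon
      have hlt : ∀ z ∈ Z, NAL (BK g 1 z.1 (fun j i => L * z.2 j i) L) (aK g 1 1 z.1)
          {p | p.1 ∈ (Set.univ : Set (Fin 2 → 𝓞 K))} c t H κ (WW M) F <
          γ / n0 * EN (dg K) 2 D m D c t V H := by
        intro z hz
        by_contra hge
        push Not at hge
        by_cases hN : NA (BK g 1 z.1 (fun j i => L * z.2 j i) L) (aK g 1 1 z.1)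
            {p | p.1 ∈ (Set.univ : Set (Fin 2 → 𝓞 K))} c t F = 0
        · refine hc2 (Finset.mem_biUnion.2 ⟨z, hz, ?_⟩)
          rw [hT]
          exact Finset.mem_filter.2 ⟨hF1, hN, hge⟩
        · exact hc1 (Finset.mem_filter.2 ⟨hF1, PO1_pt g c t 1 z.1 _ _ F hN⟩)
      have h10 := hcub Set.univ Set.univ (fun p _ => Set.mem_univ _) H κ (WW M) F
      have hge0 : 0 < γ / n0 * EN (dg K) 2 D m D c t V H := mul_pos hγn hE
      have h11 : ∑ ω ∈ (db K D 1).filter (fun ω => ((1 : ℕ) : 𝓞 K) ∣ ev g ω),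
          ∑ n ∈ Fintype.piFinset (fun _ : Fin D => Fintype.piFinset fun _ : IX K =>
            Finset.Icc (-(n₁ : ℤ)) n₁),
          (if ∃ w ∈ BK g 1 ω (fun j i => L * n j i) L, ∃ x,
              (x, fun j => ω j + (1 : ℕ) * w j) ∈
                (Set.univ : Set ((Fin 2 → 𝓞 K) × (Fin D → 𝓞 K))) then
            NAL (BK g 1 ω (fun j i => L * n j i) L) (aK g 1 1 ω)
              {p | p.1 ∈ (Set.univ : Set (Fin 2 → 𝓞 K))} c t H κ (WW M) F
          else 0) ≤ (Z.card : ℝ) * (γ / n0 * EN (dg K) 2 D m D c t V H) := by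
        rw [← Finset.sum_product' (s := (db K D 1).filter (fun ω => ((1 : ℕ) : 𝓞 K) ∣ ev g ω)), ← hZ]
        refine (Finset.sum_le_sum (g := fun _ => γ / n0 * EN (dg K) 2 D m D c t V H)
          fun z hz => ?_).trans (le_of_eq ?_)
        · split_ifs
          · exact (hlt z hz).le
          · exact hge0.le
        · rw [Finset.sum_const, nsmul_eq_mul]
      have h12 : (Z.card : ℝ) * (γ / n0 * EN (dg K) 2 D m D c t V H) <
          n0 * (γ / n0 * EN (dg K) 2 D m D c t V H) := by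
        refine mul_lt_mul_of_pos_right ?_ hge0
        rw [hn0]
        linarith
      have h13 : n0 * (γ / n0 * EN (dg K) 2 D m D c t V H) = γ * EN (dg K) 2 D m D c t V H := by
        field_simp
      have h14 := (hF2.trans h10).trans h11
      linarith
    have h15 := (Finset.card_le_card hsub).trans ((Finset.card_union_le _ _).trans
      (Nat.add_le_add le_rfl Finset.card_biUnion_le))
    exact_mod_cast h15
  have h16 : ∑ z ∈ Z, ((T z).card : ℝ) ≤ (Z.card : ℝ) * (γ' / (2 * n0) * bx0) := by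
    refine (Finset.sum_le_sum hT1).trans (le_of_eq ?_)
    rw [Finset.sum_const, nsmul_eq_mul]
  have h17 : (Z.card : ℝ) * (γ' / (2 * n0) * bx0) ≤ n0 * (γ' / (2 * n0) * bx0) := by
    refine mul_le_mul_of_nonneg_right ?_ (by positivity)
    rw [hn0]
    linarith
  have h18 : n0 * (γ' / (2 * n0) * bx0) = γ' / 2 * bx0 := by field_simp
  rw [← hbx0] at h7 ⊢
  linarith

end Pool.Agent.NRN
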