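import Pool.Agent.NRN.StS
import Pool.Agent.RHK.Sz

/-!
# NRN, module PS1: the sums of `G` over the pairs
-/

set_option autoImplicit false

namespace Pool.Agent.NRN

open scoped BigOperators
open Classical NumberField IsDedekindDomain
open Pool.Agent.RHP (Mon mono ev Sys Prim pd WB WW)
open Pool.Agent.RHK Pool.Agent.RHC Pool.Agent.NRM
open Pool.Agent.RHKB (mI hh jj qv MK uu BadK)
open Pool.Agent.RHCB (BadC cred cemb uk PrC hM f00)

section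

variable {K : Type} [Field K] [NumberField K]

theorem PS1_PT (T0 : ℝ) : PT (fun _ : InfinitePlace K => T0) = T0 ^ dg K := by
  unfold PT
  rw [Finset.prod_pow_eq_pow_sum, InfinitePlace.sum_mult_eq]

theorem PS1_ne (h5 : St_DTB) (x y : Fin 2 → 𝓞 K) (h : ¬ Par x y) : gI x y ≠ ⊥ := by
  have h1 := h5 K x y
  rw [h1.1]
  intro h2
  rw [Ideal.span_singleton_eq_bot] at h2
  exact h (h1.2.2.1.2 h2)

/-- the count for EQI -/
theorem PS1_cnt (C : ℝ) (hC : 0 < C)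
    (hE : ∀ (X : ℝ) (x : Fin 2 → 𝓞 K), 0 ≤ X →
      Prim x → (∀ v : InfinitePlace K, X < 2 * vs v x) → ∀ T : InfinitePlace K → ℝ, (∀ v, 0 < T v) →
      ∀ I : Ideal (𝓞 K), I ≠ ⊥ →
        (((bx K 2 X).filter fun y => ¬ Par x y ∧ (∀ v, wv v x y ≤ T v) ∧ gI x y ≤ I).card : ℝ) *
          Ideal.absNorm I ≤ C * PT T)
    (c t : ℕ) (ht : 1 ≤ t) (x : Fin 2 → 𝓞 K) (hx : x ∈ CG K 2 c t) (I : Ideal (𝓞 K)) (hI : I ≠ ⊥) :
    ((((CG K 2 c t).filter fun y => ¬ Par x y).filter fun y => gI x y ≤ I).card : ℝ) *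
      Ideal.absNorm I ≤ C * 2 ^ dg K * ((XC 2 c t : ℝ) ^ 2) ^ dg K := by
  have hX1 : 1 ≤ XC 2 c t := Nat.one_le_pow _ _ ht
  have hX1' : (1 : ℝ) ≤ (XC 2 c t : ℝ) := by exact_mod_cast hX1
  have hX0 : (0 : ℝ) ≤ (XC 2 c t : ℝ) := by linarith
  unfold CG at hx
  rw [Finset.mem_filter] at hx
  have h1 := hE (XC 2 c t : ℝ) x hX0 hx.2.1 hx.2.2.1 (fun _ => 2 * (XC 2 c t : ℝ) ^ 2)
    (fun _ => by positivity) I hI
  rw [PS1_PT, mul_pow, ← mul_assoc] at h1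
  refine le_trans (mul_le_mul_of_nonneg_right ?_ (Nat.cast_nonneg _)) h1
  refine Nat.cast_le.2 (Finset.card_le_card ?_)
  intro y hy
  rw [Finset.mem_filter, Finset.mem_filter] at hy
  obtain ⟨⟨hy1, hy2⟩, hy3⟩ := hy
  unfold CG at hy1
  rw [Finset.mem_filter] at hy1
  refine Finset.mem_filter.2 ⟨hy1.1, hy2, fun v => ?_, hy3⟩
  have h2 := (mem_bx hX0).1 hx.1 v
  have h3 := (mem_bx hX0).1 hy1.1 v
  have h4 := mul_le_mul h2 h3 (vs_nonneg v y) hX0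
  have h5 := wv_le_mul v x y
  rw [sq]
  linarith

end

/-- **PS1**: the sums of `G` over the pairs. -/
theorem thm_PS1 (h1 : St_EQI) (h2 : St_GEX) (h3 : St_GDF) (_h4 : St_GBA) (h5 : St_DTB) :
    St_PS1 := by
  intro K _ _ D hD C0 hC0
  obtain ⟨C1, hC1, hE⟩ := h1 K
  obtain ⟨C2, hC2, hG⟩ := h2 K D C0 (by linarith)
  refine ⟨C2 * (C1 * 2 ^ dg K), by positivity, ?_, ?_⟩
  · intro r a ha c t ht x hx
    have h6 := (hG r a ha (Fin 2 → 𝓞 K) ((CG K 2 c t).filter fun y => ¬ Par x y)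
      (fun y => gI x y) (C1 * 2 ^ dg K * ((XC 2 c t : ℝ) ^ 2) ^ dg K) (by positivity)
      (fun y hy => PS1_ne h5 x y (Finset.mem_filter.1 hy).2)
      (fun I hI => PS1_cnt C1 hC1 hE c t ht x hx I hI)).1
    rw [mul_assoc C2]
    exact h6
  · intro ε hε
    have hk : 0 < C1 * 2 ^ dg K := by positivity
    obtain ⟨m0, hm⟩ := h3 K D hD C0 (ε / (C1 * 2 ^ dg K)) (by linarith) (div_pos hε hk)
    refine ⟨m0, fun r a ha W hW hdiv c t ht x hx => ?_⟩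
    have h6 := hm r a ha (Fin 2 → 𝓞 K) ((CG K 2 c t).filter fun y => ¬ Par x y)
      (fun y => gI x y) (C1 * 2 ^ dg K * ((XC 2 c t : ℝ) ^ 2) ^ dg K) (by positivity)
      (fun y hy => PS1_ne h5 x y (Finset.mem_filter.1 hy).2)
      (fun I hI => PS1_cnt C1 hC1 hE c t ht x hx I hI) W hW hdiv
    have h7 : ε / (C1 * 2 ^ dg K) * (C1 * 2 ^ dg K * ((XC 2 c t : ℝ) ^ 2) ^ dg K) =
        ε * ((XC 2 c t : ℝ) ^ 2) ^ dg K := by
      rw [← mul_assoc, div_mul_cancel₀ _ hk.ne']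
    rw [h7] at h6
    exact h6

end Pool.Agent.NRN
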