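import Pool.Agent.NRN.StS
import Pool.Agent.RHK.Sz

/-!
NRN: [PS2] the sum over the pairs which are nearly parallel at an infinite place.
-/

set_option autoImplicit false

namespace Pool.Agent.NRN

open scoped BigOperators
open Classical NumberField IsDedekindDomain
open Pool.Agent.RHP (Mon mono ev Sys Prim pd WB WW)
open Pool.Agent.RHK Pool.Agent.RHC Pool.Agent.NRM

/-! ### Real numbers -/

/-- the dyadic interval of `w` -/
theorem PS2_dyad {T w : ℝ} (hw : 0 < w) (hwT : w ≤ T) :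
    ∃ b : ℕ, T < w * 2 ^ (b + 1) ∧ w * 2 ^ b ≤ T := by
  have hex : ∃ b : ℕ, T < w * 2 ^ (b + 1) := by
    obtain ⟨n, hn⟩ := pow_unbounded_of_one_lt (T / w) (one_lt_two (α := ℝ))
    refine ⟨n, ?_⟩
    have h1 : T < w * 2 ^ n := by
      rw [div_lt_iff₀ hw] at hn
      linarith
    have h2 : (2 : ℝ) ^ n ≤ 2 ^ (n + 1) := pow_le_pow_right₀ (by norm_num) (Nat.le_succ n)
    nlinarith
  refine ⟨Nat.find hex, Nat.find_spec hex, ?_⟩
  rcases h : Nat.find hex with _ | b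
  · simpa using hwT
  · have h1 := Nat.find_min hex (m := b) (by omega)
    exact not_lt.1 h1

theorem PS2_geom {q : ℝ} (hq0 : 0 < q) (hq1 : q < 1) (N : ℕ) :
    ∑ j ∈ Finset.range N, q ^ j ≤ 1 / (1 - q) := by
  rw [geom_sum_eq hq1.ne]
  rw [show (q ^ N - 1) / (q - 1) = (1 - q ^ N) / (1 - q) by
    rw [← neg_div_neg_eq, neg_sub, neg_sub]]
  exact div_le_div_of_nonneg_right (by linarith [pow_pos hq0 N]) (by linarith)

theorem PS2_tail {q M : ℝ} (hq0 : 0 < q) (hq1 : q < 1) (hM : 0 ≤ M) (N : ℕ) :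
    ∑ j ∈ Finset.range N, (if q ^ j ≤ M then q ^ j else 0) ≤ M * (1 / (1 - q)) := by
  have h0 : 0 < 1 - q := by linarith
  by_cases hex : ∃ j, q ^ j ≤ M
  · set k := Nat.find hex with hk
    have hk1 : q ^ k ≤ M := Nat.find_spec hex
    have h1 : ∑ j ∈ Finset.range N, (if q ^ j ≤ M then q ^ j else 0) ≤
        ∑ j ∈ Finset.range (k + N), (if q ^ j ≤ M then q ^ j else 0) := by
      refine Finset.sum_le_sum_of_subset_of_nonneg (Finset.range_mono (by omega)) fun j _ _ => ?_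
      split_ifs
      · exact (pow_pos hq0 _).le
      · exact le_rfl
    refine h1.trans ?_
    rw [Finset.sum_range_add]
    have h2 : ∑ j ∈ Finset.range k, (if q ^ j ≤ M then q ^ j else 0) = 0 := by
      refine Finset.sum_eq_zero fun j hj => ?_
      rw [if_neg (Nat.find_min hex (Finset.mem_range.1 hj))]
    rw [h2, zero_add]
    calc ∑ j ∈ Finset.range N, (if q ^ (k + j) ≤ M then q ^ (k + j) else 0) ≤
        ∑ j ∈ Finset.range N, q ^ k * q ^ j := by
          refine Finset.sum_le_sum fun j _ => ?_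
          split_ifs
          · rw [pow_add]
          · positivity
      _ = q ^ k * ∑ j ∈ Finset.range N, q ^ j := by rw [Finset.mul_sum]
      _ ≤ M * (1 / (1 - q)) :=
          mul_le_mul hk1 (PS2_geom hq0 hq1 N) (Finset.sum_nonneg fun _ _ => (pow_pos hq0 _).le) hM
  · push Not at hex
    rw [Finset.sum_eq_zero fun j _ => if_neg (not_le.2 (hex j))]
    positivity

/-- the sum over the dyadic parts -/
theorem PS2_parts {ι : Type} [Fintype ι] {q M : ℝ} (hq0 : 0 < q) (hq1 : q < 1) (hM : 0 ≤ M)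
    (P : Finset (ι → ℕ)) (hP : ∀ b ∈ P, ∃ u, q ^ b u ≤ M) :
    ∑ b ∈ P, ∏ v, q ^ b v ≤ Fintype.card ι * (M * (1 / (1 - q)) ^ Fintype.card ι) := by
  set E : ℕ := P.sup fun b => Finset.univ.sup b with hE
  set g : ι → ι → ℕ → ℝ := fun u v j => if v = u then (if q ^ j ≤ M then q ^ j else 0) else q ^ j
    with hg
  have hg0 : ∀ u v j, 0 ≤ g u v j := by
    intro u v j
    simp only [hg]
    split_ifs
    · exact (pow_pos hq0 _).le
    · exact le_rfl
    · exact (pow_pos hq0 _).le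
  have hsub : P ⊆ Fintype.piFinset fun _ : ι => Finset.range (E + 1) := by
    intro b hb
    rw [Fintype.mem_piFinset]
    intro v
    rw [Finset.mem_range]
    have h1 : b v ≤ Finset.univ.sup b := Finset.le_sup (Finset.mem_univ v)
    have h2 : Finset.univ.sup b ≤ E := Finset.le_sup (f := fun b : ι → ℕ => Finset.univ.sup b) hb
    omega
  have h1 : ∀ b ∈ P, ∏ v, q ^ b v ≤ ∑ u, ∏ v, g u v (b v) := by
    intro b hb
    obtain ⟨u, hu⟩ := hP b hb
    refine le_trans ?_ (Finset.single_le_sum (f := fun u => ∏ v, g u v (b v))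
      (fun u _ => Finset.prod_nonneg fun v _ => hg0 u v _) (Finset.mem_univ u))
    refine Finset.prod_le_prod (fun v _ => (pow_pos hq0 _).le) fun v _ => ?_
    simp only [hg]
    by_cases h : v = u
    · rw [if_pos h, h, if_pos hu]
    · rw [if_neg h]
  calc ∑ b ∈ P, ∏ v, q ^ b v ≤ ∑ b ∈ P, ∑ u, ∏ v, g u v (b v) := Finset.sum_le_sum h1
    _ ≤ ∑ b ∈ Fintype.piFinset fun _ : ι => Finset.range (E + 1), ∑ u, ∏ v, g u v (b v) :=
        Finset.sum_le_sum_of_subset_of_nonneg hsub fun b _ _ =>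
          Finset.sum_nonneg fun u _ => Finset.prod_nonneg fun v _ => hg0 u v _
    _ = ∑ u, ∑ b ∈ Fintype.piFinset fun _ : ι => Finset.range (E + 1), ∏ v, g u v (b v) :=
        Finset.sum_comm
    _ = ∑ u, ∏ v, ∑ j ∈ Finset.range (E + 1), g u v j := by
        refine Finset.sum_congr rfl fun u _ => ?_
        rw [Finset.prod_univ_sum]
    _ ≤ ∑ _u : ι, M * (1 / (1 - q)) ^ Fintype.card ι := by
        refine Finset.sum_le_sum fun u _ => ?_
        have h2 : ∀ v, ∑ j ∈ Finset.range (E + 1), g u v j ≤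
            (if v = u then M else 1) * (1 / (1 - q)) := by
          intro v
          simp only [hg]
          by_cases h : v = u
          · simp only [if_pos h]
            exact PS2_tail hq0 hq1 hM _
          · simp only [if_neg h]
            rw [one_mul]
            exact PS2_geom hq0 hq1 _
        refine (Finset.prod_le_prod (fun v _ => Finset.sum_nonneg fun j _ => hg0 u v j)
          fun v _ => h2 v).trans (le_of_eq ?_)
        rw [Finset.prod_mul_distrib, Finset.prod_ite_eq' Finset.univ u (fun _ => M),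
          if_pos (Finset.mem_univ u), Finset.prod_const, Finset.card_univ]
    _ = Fintype.card ι * (M * (1 / (1 - q)) ^ Fintype.card ι) := by
        rw [Finset.sum_const, Finset.card_univ, nsmul_eq_mul]

/-- `β^(1 - 1/D) / β ≤ ∏ q^(b v)` for `β = ∏ (2^(b v))^(m v)`, `q = 2^(-1/D)` -/
theorem PS2_beta {ι : Type} [Fintype ι] {D : ℕ} (hD : 2 ≤ D) (b m : ι → ℕ) (hm : ∀ v, 1 ≤ m v) :
    (∏ v, ((2 : ℝ) ^ b v) ^ m v) ^ (1 - (1 : ℝ) / D) * (∏ v, ((2 : ℝ) ^ b v) ^ m v)⁻¹ ≤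
      ∏ v, ((2 : ℝ) ^ (-(1 : ℝ) / D)) ^ b v := by
  have hβ : 0 < ∏ v, ((2 : ℝ) ^ b v) ^ m v := Finset.prod_pos fun v _ => by positivity
  have hD0 : (0 : ℝ) < D := by
    have : 0 < D := by omega
    exact_mod_cast this
  rw [← Real.rpow_neg_one, ← Real.rpow_add hβ,
    show 1 - (1 : ℝ) / D + -1 = -(1 : ℝ) / D by ring,
    ← Real.finsetProd_rpow _ _ (fun v _ => by positivity)]
  refine Finset.prod_le_prod (fun v _ => Real.rpow_nonneg (by positivity) _) fun v _ => ?_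
  have h1 : (2 : ℝ) ^ b v ≤ ((2 : ℝ) ^ b v) ^ m v := by
    refine le_self_pow₀ (one_le_pow₀ (by norm_num)) ?_
    have := hm v
    omega
  have h2 : (((2 : ℝ) ^ b v) ^ m v) ^ (-(1 : ℝ) / D) ≤ ((2 : ℝ) ^ b v) ^ (-(1 : ℝ) / D) := by
    refine Real.rpow_le_rpow_of_nonpos (by positivity) h1 ?_
    rw [neg_div]
    have : (0 : ℝ) ≤ 1 / D := by positivity
    linarith
  refine h2.trans (le_of_eq ?_)
  rw [← Real.rpow_natCast (2 : ℝ) (b v), ← Real.rpow_mul (by norm_num),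
    ← Real.rpow_natCast ((2 : ℝ) ^ (-(1 : ℝ) / D)) (b v), ← Real.rpow_mul (by norm_num), mul_comm]

/-- [PS2] -/
theorem thm_PS2 (h1 : St_EQI) (h2 : St_GEX) (_h3 : St_DTB) : St_PS2 := by
  intro K _ _ D hD C0 hC0
  obtain ⟨C1, hC1, hEQI⟩ := h1 K
  obtain ⟨C2, hC2, hGEX⟩ := h2 K D C0 (by linarith)
  have hD0 : (0 : ℝ) < D := by
    have : 0 < D := by omega
    exact_mod_cast this
  set q : ℝ := (2 : ℝ) ^ (-(1 : ℝ) / D) with hq
  have hq0 : 0 < q := Real.rpow_pos_of_pos (by norm_num) _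
  have hq1 : q < 1 := by
    refine Real.rpow_lt_one_of_one_lt_of_neg (by norm_num) ?_
    rw [neg_div]
    have : (0 : ℝ) < 1 / D := by positivity
    linarith
  have h1q : (0 : ℝ) < 1 - q := by linarith
  set ρ : ℕ := Fintype.card (InfinitePlace K) with hρ
  have hρ0 : 0 < ρ := Fintype.card_pos
  refine ⟨C2 * C1 * 2 ^ dg K * (ρ * (1 / (1 - q)) ^ ρ), by positivity, ?_⟩
  intro r a hLOC c t m1 ht hm1 x hx
  set X : ℕ := XC 2 c t with hX
  have hX1 : 1 ≤ X := Nat.one_le_pow _ _ ht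
  have hXr : (1 : ℝ) ≤ X := by exact_mod_cast hX1
  have hX0 : (0 : ℝ) < X := by linarith
  have good : ∀ y ∈ CG K 2 c t, Prim y ∧
      ∀ v : InfinitePlace K, (X : ℝ) < 2 * vs v y ∧ vs v y ≤ X := by
    intro y hy
    unfold CG at hy
    rw [Finset.mem_filter, mem_bx (Nat.cast_nonneg _)] at hy
    exact ⟨hy.2.1, fun v => ⟨hy.2.2.1 v, hy.1 v⟩⟩
  have hxg := good x hx
  set S := (CG K 2 c t).filter (fun y => ¬ Par x y ∧
    ∃ u : InfinitePlace K, m1 * wv u x y < (X : ℝ) ^ 2) with hS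
  have hSm : ∀ y ∈ S, y ∈ CG K 2 c t ∧ ¬ Par x y ∧
      ∃ u : InfinitePlace K, m1 * wv u x y < (X : ℝ) ^ 2 := fun y hy => Finset.mem_filter.1 hy
  -- the dyadic parts
  have hb : ∀ y : Fin 2 → 𝓞 K, ∃ b : InfinitePlace K → ℕ, y ∈ S → ∀ v,
      2 * (X : ℝ) ^ 2 < wv v x y * 2 ^ (b v + 1) ∧ wv v x y * 2 ^ b v ≤ 2 * (X : ℝ) ^ 2 := by
    intro y
    by_cases hy : y ∈ S
    · obtain ⟨hy1, hy2, -⟩ := hSm y hy
      have h4 : ∀ v : InfinitePlace K, ∃ b : ℕ, 2 * (X : ℝ) ^ 2 < wv v x y * 2 ^ (b + 1) ∧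
          wv v x y * 2 ^ b ≤ 2 * (X : ℝ) ^ 2 := by
        intro v
        refine PS2_dyad (wv_pos hy2) ?_
        refine (wv_le_mul v x y).trans ?_
        have h5 : vs v x * vs v y ≤ X * X :=
          mul_le_mul (hxg.2 v).2 ((good y hy1).2 v).2 (vs_nonneg v y) hX0.le
        rw [pow_two]
        linarith
      choose b hb using h4
      exact ⟨b, fun _ => hb⟩
    · exact ⟨fun _ => 0, fun h => absurd h hy⟩
  choose bb hbb using hb
  set M : ℝ := (m1 : ℝ) ^ (-(1 : ℝ) / D) with hM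
  have hm1r : (1 : ℝ) ≤ m1 := by exact_mod_cast hm1
  have hM0 : 0 ≤ M := Real.rpow_nonneg (by linarith) _
  have hmult : ∀ v : InfinitePlace K, 1 ≤ v.mult := fun v => InfinitePlace.mult_pos
  have hsum : ∏ v : InfinitePlace K, ((X : ℝ) ^ 2) ^ v.mult = ((X : ℝ) ^ 2) ^ dg K := by
    rw [Finset.prod_pow_eq_pow_sum, InfinitePlace.sum_mult_eq]
  -- one part
  have part : ∀ b ∈ S.image bb,
      ∑ y ∈ S.filter (fun y => bb y = b),
        GI a (gI x y) * (((X : ℝ) ^ 2) ^ dg K / wp x y) ^ (1 - (1 : ℝ) / D) ≤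
      (C2 * C1 * 2 ^ dg K * ((X : ℝ) ^ 2) ^ dg K) * ∏ v, q ^ b v := by
    intro b hbS
    set β : ℝ := ∏ v : InfinitePlace K, ((2 : ℝ) ^ b v) ^ v.mult with hβ
    have hβ0 : 0 < β := Finset.prod_pos fun v _ => by positivity
    have hdist : ∀ y ∈ S.filter (fun y => bb y = b), ∀ v,
        (X : ℝ) ^ 2 < 2 ^ b v * wv v x y ∧ wv v x y * 2 ^ b v ≤ 2 * (X : ℝ) ^ 2 := by
      intro y hy v
      obtain ⟨hy1, rfl⟩ := Finset.mem_filter.1 hy
      obtain ⟨h4, h5⟩ := hbb y hy1 v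
      rw [pow_succ (2 : ℝ)] at h4
      exact ⟨by nlinarith, h5⟩
    have hGI0 : ∀ I : Ideal (𝓞 K), 0 ≤ GI a I := by
      intro I
      unfold GI
      positivity
    have hterm : ∀ y ∈ S.filter (fun y => bb y = b),
        GI a (gI x y) * (((X : ℝ) ^ 2) ^ dg K / wp x y) ^ (1 - (1 : ℝ) / D) ≤
        β ^ (1 - (1 : ℝ) / D) * GI a (gI x y) := by
      intro y hy
      have hy1 := (Finset.mem_filter.1 hy).1
      have hPar := (hSm y hy1).2.1
      have hwp : 0 < wp x y := wp_pos hPar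
      rw [mul_comm]
      refine mul_le_mul_of_nonneg_right ?_ (hGI0 _)
      have h4 : ((X : ℝ) ^ 2) ^ dg K / wp x y ≤ β := by
        rw [div_le_iff₀ hwp, ← hsum, hβ]
        unfold wp
        rw [← Finset.prod_mul_distrib]
        refine Finset.prod_le_prod (fun v _ => by positivity) fun v _ => ?_
        rw [← mul_pow]
        exact pow_le_pow_left₀ (by positivity) (hdist y hy v).1.le _
      refine Real.rpow_le_rpow (by positivity) h4 ?_
      have h5 : (1 : ℝ) / D ≤ 1 := by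
        rw [div_le_one hD0]
        have : 1 ≤ D := by omega
        exact_mod_cast this
      linarith
    set T : InfinitePlace K → ℝ := fun v => 2 * (X : ℝ) ^ 2 * ((2 : ℝ) ^ b v)⁻¹ with hT
    have hT0 : ∀ v, 0 < T v := fun v => by
      simp only [hT]
      positivity
    have hPT : PT T = 2 ^ dg K * ((X : ℝ) ^ 2) ^ dg K * β⁻¹ := by
      unfold PT
      simp only [hT]
      have h4 : ∀ v : InfinitePlace K, (2 * (X : ℝ) ^ 2 * ((2 : ℝ) ^ b v)⁻¹) ^ v.mult =
          (2 : ℝ) ^ v.mult * ((X : ℝ) ^ 2) ^ v.mult * (((2 : ℝ) ^ b v) ^ v.mult)⁻¹ := by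
        intro v
        rw [mul_pow, mul_pow, inv_pow]
      simp only [h4]
      rw [Finset.prod_mul_distrib, Finset.prod_mul_distrib, hsum, Finset.prod_inv_distrib,
        Finset.prod_pow_eq_pow_sum, InfinitePlace.sum_mult_eq]
    have hPT0 : 0 ≤ PT T := Finset.prod_nonneg fun v _ => pow_nonneg (hT0 v).le _
    have hG := (hGEX r a hLOC (Fin 2 → 𝓞 K) (S.filter (fun y => bb y = b)) (fun y => gI x y)
      (C1 * PT T) (by positivity)
      (fun y hy => gI_ne_bot (hSm y (Finset.mem_filter.1 hy).1).2.1) (by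
        intro I hI
        refine le_trans ?_ (hEQI X x hX0.le hxg.1 (fun v => (hxg.2 v).1) T hT0 I hI)
        refine mul_le_mul_of_nonneg_right ?_ (Nat.cast_nonneg _)
        refine Nat.cast_le.2 (Finset.card_le_card ?_)
        intro y hy
        obtain ⟨hy1, hy2⟩ := Finset.mem_filter.1 hy
        have hyS := (Finset.mem_filter.1 hy1).1
        obtain ⟨hyC, hyP, -⟩ := hSm y hyS
        rw [Finset.mem_filter]
        refine ⟨?_, hyP, fun v => ?_, hy2⟩
        · rw [mem_bx hX0.le]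
          exact fun v => ((good y hyC).2 v).2
        · simp only [hT]
          rw [← div_eq_mul_inv, le_div_iff₀ (by positivity)]
          exact (hdist y hy1 v).2)).1
    calc ∑ y ∈ S.filter (fun y => bb y = b),
        GI a (gI x y) * (((X : ℝ) ^ 2) ^ dg K / wp x y) ^ (1 - (1 : ℝ) / D)
        ≤ ∑ y ∈ S.filter (fun y => bb y = b), β ^ (1 - (1 : ℝ) / D) * GI a (gI x y) :=
          Finset.sum_le_sum hterm
      _ = β ^ (1 - (1 : ℝ) / D) * ∑ y ∈ S.filter (fun y => bb y = b), GI a (gI x y) := by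
          rw [Finset.mul_sum]
      _ ≤ β ^ (1 - (1 : ℝ) / D) * (C2 * (C1 * PT T)) :=
          mul_le_mul_of_nonneg_left hG (Real.rpow_nonneg hβ0.le _)
      _ = (C2 * C1 * 2 ^ dg K * ((X : ℝ) ^ 2) ^ dg K) * (β ^ (1 - (1 : ℝ) / D) * β⁻¹) := by
          rw [hPT]
          ring
      _ ≤ (C2 * C1 * 2 ^ dg K * ((X : ℝ) ^ 2) ^ dg K) * ∏ v, q ^ b v :=
          mul_le_mul_of_nonneg_left (PS2_beta hD b _ hmult) (by positivity)
  have hPq : ∀ b ∈ S.image bb, ∃ u, q ^ b u ≤ M := by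
    intro b hb
    obtain ⟨y, hy, rfl⟩ := Finset.mem_image.1 hb
    obtain ⟨hyC, hyP, u, hu⟩ := hSm y hy
    refine ⟨u, ?_⟩
    have h4 := (hbb y hy u).1
    have hw : 0 < wv u x y := wv_pos hyP
    have h5 : (m1 : ℝ) ≤ 2 ^ bb y u := by
      rw [pow_succ (2 : ℝ)] at h4
      by_contra h6
      push Not at h6
      have h7 : wv u x y * 2 ^ bb y u < wv u x y * m1 := mul_lt_mul_of_pos_left h6 hw
      nlinarith
    have h6 : q ^ bb y u = ((2 : ℝ) ^ bb y u) ^ (-(1 : ℝ) / D) := by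
      rw [hq, ← Real.rpow_natCast (2 : ℝ) (bb y u), ← Real.rpow_mul (by norm_num),
        ← Real.rpow_natCast ((2 : ℝ) ^ (-(1 : ℝ) / D)) (bb y u), ← Real.rpow_mul (by norm_num),
        mul_comm]
    rw [h6, hM]
    refine Real.rpow_le_rpow_of_nonpos (by linarith) h5 ?_
    rw [neg_div]
    have : (0 : ℝ) ≤ 1 / D := by positivity
    linarith
  have hP := PS2_parts hq0 hq1 hM0 (S.image bb) hPq
  calc ∑ y ∈ S, GI a (gI x y) * (((X : ℝ) ^ 2) ^ dg K / wp x y) ^ (1 - (1 : ℝ) / D)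
      = ∑ b ∈ S.image bb, ∑ y ∈ S.filter (fun y => bb y = b),
        GI a (gI x y) * (((X : ℝ) ^ 2) ^ dg K / wp x y) ^ (1 - (1 : ℝ) / D) :=
        (Finset.sum_fiberwise_of_maps_to (fun y hy => Finset.mem_image_of_mem bb hy) _).symm
    _ ≤ ∑ b ∈ S.image bb, (C2 * C1 * 2 ^ dg K * ((X : ℝ) ^ 2) ^ dg K) * ∏ v, q ^ b v :=
        Finset.sum_le_sum part
    _ = (C2 * C1 * 2 ^ dg K * ((X : ℝ) ^ 2) ^ dg K) * ∑ b ∈ S.image bb, ∏ v, q ^ b v := by
        rw [Finset.mul_sum]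
    _ ≤ (C2 * C1 * 2 ^ dg K * ((X : ℝ) ^ 2) ^ dg K) * (ρ * (M * (1 / (1 - q)) ^ ρ)) :=
        mul_le_mul_of_nonneg_left hP (by positivity)
    _ = C2 * C1 * 2 ^ dg K * (ρ * (1 / (1 - q)) ^ ρ) * M * ((X : ℝ) ^ 2) ^ dg K := by ring

end Pool.Agent.NRN
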