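import Pool.Agent.NRN.StF
import Pool.Agent.RHK.IDU
import Pool.Agent.RHK.DVN
import Pool.Agent.RHK.CELL
import Pool.Agent.RHK.Sz

/-!
# NRN [RTS]: small values of a polynomial at the infinite places
-/

set_option autoImplicit false

namespace Pool.Agent.NRN

open scoped BigOperators
open Classical NumberField IsDedekindDomain
open Pool.Agent.RHK

/-- a point with a small value is near to a root -/
theorem RTS_root {D : ℕ} (hD : 1 ≤ D) (Q : Polynomial ℂ) (hdeg : Q.natDegree ≤ D)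
    (hc : Q.coeff D ≠ 0) (τ ρ : ℝ) (hρ : 0 ≤ ρ) (hρτ : ρ ^ D = τ / ‖Q.coeff D‖) (x : ℂ)
    (hx : ‖Q.eval x‖ ≤ τ) : ∃ r ∈ Q.roots.toFinset, ‖x - r‖ ≤ ρ := by
  have hnd : Q.natDegree = D := le_antisymm hdeg (Polynomial.le_natDegree_of_ne_zero hc)
  have hs := IsAlgClosed.splits Q
  have hcard : Q.roots.card = D := by
    rw [← hs.natDegree_eq_card_roots, hnd]
  have hlc : Q.leadingCoeff = Q.coeff D := by
    rw [Polynomial.leadingCoeff, hnd]
  by_contra hcon
  push Not at hcon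
  have key : ∀ s : Multiset ℂ, (∀ r ∈ s, ρ < ‖x - r‖) → s = 0 ∨
      ρ ^ s.card < ‖(s.map (x - ·)).prod‖ := by
    intro s
    induction s using Multiset.induction_on with
    | empty => exact fun _ => Or.inl rfl
    | cons a s ih =>
      intro h
      right
      rw [Multiset.card_cons, Multiset.map_cons, Multiset.prod_cons, norm_mul, pow_succ']
      have h1 := h a (Multiset.mem_cons_self a s)
      rcases ih fun r hr => h r (Multiset.mem_cons_of_mem hr) with h2 | h2
      · rw [h2]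
        simpa using h1
      · exact mul_lt_mul'' h1 h2 hρ (pow_nonneg hρ _)
  have h0 : Q.roots ≠ 0 := by
    intro h
    rw [h, Multiset.card_zero] at hcard
    omega
  have h1 := (key Q.roots fun r hr => hcon r (Multiset.mem_toFinset.2 hr)).resolve_left h0
  rw [hcard, hρτ] at h1
  have h2 : 0 < ‖Q.coeff D‖ := norm_pos_iff.2 hc
  rw [hs.eval_eq_prod_roots, norm_mul, hlc] at hx
  rw [div_lt_iff₀ h2] at h1
  linarith

theorem thm_RTS : St_RTS := by
  intro K _ _ D hD alpha halpha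
  obtain ⟨C₀, hC₀, hI⟩ := (thm_IDU thm_DVN thm_CELL) K
  obtain ⟨Na, hNa⟩ : ∃ Na : ℝ, Na = ∏ v : InfinitePlace K, av v alpha ^ v.mult := ⟨_, rfl⟩
  have hNa1 : 1 ≤ Na := by
    have h := (thm_DVN K ⊤ alpha trivial halpha).2
    rw [← hNa, Ideal.absNorm_top] at h
    simpa using h
  obtain ⟨κ, hκ⟩ : ∃ κ : ℝ, κ = 2 * Na := ⟨_, rfl⟩
  have hκ1 : 1 ≤ κ := by linarith
  have hκ2 : 2 ≤ κ := by linarith
  obtain ⟨R, hR⟩ : ∃ R : ℕ, R = ∑ v : InfinitePlace K, v.mult := ⟨_, rfl⟩
  have hR1 : 1 ≤ R := by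
    obtain ⟨v⟩ : Nonempty (InfinitePlace K) := inferInstance
    rw [hR]
    exact (Nat.one_le_iff_ne_zero.2 v.mult_ne_zero).trans
      (Finset.single_le_sum (f := fun v : InfinitePlace K => v.mult) (fun _ _ => Nat.zero_le _)
        (Finset.mem_univ v))
  have hDR : (0 : ℝ) < D := by exact_mod_cast (by omega : 0 < D)
  refine ⟨(D : ℝ) ^ Fintype.card (InfinitePlace K) * (C₀ * κ ^ R), by positivity, ?_⟩
  intro P hP hPD U τ hτ hPT z
  have hav : ∀ v : InfinitePlace K, 0 < av v alpha := fun v => av_pos halpha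
  obtain ⟨ρ, hρ⟩ : ∃ ρ : InfinitePlace K → ℝ, ρ = fun v => (τ v / av v alpha) ^ ((1 : ℝ) / D) :=
    ⟨_, rfl⟩
  have hρ0 : ∀ v, 0 < ρ v := by
    intro v
    rw [hρ]
    have h1 := hτ v
    have h2 := hav v
    positivity
  have hρD : ∀ v, ρ v ^ D = τ v / av v alpha := by
    intro v
    rw [hρ]
    show ((τ v / av v alpha) ^ ((1 : ℝ) / D)) ^ D = _
    rw [one_div]
    exact Real.rpow_inv_natCast_pow (div_pos (hτ v) (hav v)).le (by omega)
  -- the size of the box
  have hPTρ : PT ρ = (PT τ / Na) ^ ((1 : ℝ) / D) := by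
    have e1 : PT τ / Na = ∏ v : InfinitePlace K, (τ v / av v alpha) ^ v.mult := by
      rw [hNa, PT, ← Finset.prod_div_distrib]
      exact Finset.prod_congr rfl fun v _ => (div_pow _ _ _).symm
    rw [e1, ← Real.finsetProd_rpow _ _ fun v _ => pow_nonneg (div_pos (hτ v) (hav v)).le _]
    refine Finset.prod_congr rfl fun v _ => ?_
    rw [hρ]
    show ((τ v / av v alpha) ^ ((1 : ℝ) / D)) ^ v.mult = _
    rw [← Real.rpow_natCast, ← Real.rpow_mul (div_pos (hτ v) (hav v)).le, mul_comm,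
      Real.rpow_mul (div_pos (hτ v) (hav v)).le, Real.rpow_natCast]
  have hNa0 : 0 < Na := by linarith
  have hPT0 : 0 < PT τ := by linarith
  have hPTκ : PT (fun v => κ * ρ v) = κ ^ R * PT ρ := by
    rw [PT, PT, hR, ← Finset.prod_pow_eq_pow_sum, ← Finset.prod_mul_distrib]
    exact Finset.prod_congr rfl fun v _ => mul_pow _ _ _
  have hup : PT (fun v => κ * ρ v) ≤ κ ^ R * PT τ ^ ((1 : ℝ) / D) := by
    rw [hPTκ, hPTρ]
    refine mul_le_mul_of_nonneg_left ?_ (by positivity)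
    refine Real.rpow_le_rpow (by positivity) ?_ (by positivity)
    exact div_le_self hPT0.le hNa1
  have hlow : 1 ≤ PT (fun v => κ * ρ v) := by
    rw [hPTκ, hPTρ]
    have e1 : 1 / Na ≤ (PT τ / Na) ^ ((1 : ℝ) / D) := by
      calc 1 / Na = (1 / Na) ^ (1 : ℝ) := (Real.rpow_one _).symm
        _ ≤ (1 / Na) ^ ((1 : ℝ) / D) := by
            refine Real.rpow_le_rpow_of_exponent_ge (by positivity) ?_ ?_
            · rw [div_le_one hNa0]
              exact hNa1
            · rw [div_le_one hDR]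
              exact_mod_cast hD
        _ ≤ (PT τ / Na) ^ ((1 : ℝ) / D) :=
            Real.rpow_le_rpow (by positivity) (div_le_div_of_nonneg_right hPT hNa0.le)
              (by positivity)
    have e2 : Na ≤ κ ^ R := by
      calc Na ≤ κ := by linarith
        _ = κ ^ 1 := (pow_one κ).symm
        _ ≤ κ ^ R := pow_le_pow_right₀ hκ1 hR1
    calc (1 : ℝ) = Na * (1 / Na) := by field_simp
      _ ≤ κ ^ R * (PT τ / Na) ^ ((1 : ℝ) / D) :=
          mul_le_mul e2 e1 (by positivity) (by positivity)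
  -- the polynomials
  obtain ⟨φ, hφ⟩ : ∃ φ : InfinitePlace K → 𝓞 K →+* ℂ,
      φ = fun v => v.embedding.comp (algebraMap (𝓞 K) K) := ⟨_, rfl⟩
  have hφa : ∀ v a, φ v a = v.embedding (a : K) := by
    intro v a
    rw [hφ]
    rfl
  have hφn : ∀ v a, ‖φ v a‖ = av v a := by
    intro v a
    rw [hφa, InfinitePlace.norm_embedding_eq]
    rfl
  obtain ⟨Q, hQ⟩ : ∃ Q : InfinitePlace K → Polynomial ℂ,
      Q = fun v => P.map (φ v) - Polynomial.C (z v) := ⟨_, rfl⟩
  have hQc : ∀ v, (Q v).coeff D = φ v alpha := by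
    intro v
    rw [hQ]
    show (P.map (φ v) - Polynomial.C (z v)).coeff D = _
    rw [Polynomial.coeff_sub, Polynomial.coeff_map, hPD, Polynomial.coeff_C,
      if_neg (by omega), sub_zero]
  have hQn : ∀ v, ‖(Q v).coeff D‖ = av v alpha := fun v => by rw [hQc, hφn]
  have hQ0 : ∀ v, (Q v).coeff D ≠ 0 := by
    intro v h
    have h1 := hQn v
    rw [h, norm_zero] at h1
    exact (hav v).ne h1
  have hQd : ∀ v, (Q v).natDegree ≤ D := by
    intro v
    rw [hQ]
    refine (Polynomial.natDegree_sub_le _ _).trans (max_le ?_ ?_)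
    · exact Polynomial.natDegree_map_le.trans hP
    · rw [Polynomial.natDegree_C]
      omega
  have hQe : ∀ v (T : 𝓞 K), (Q v).eval (φ v T) = v.embedding ((P.eval T : 𝓞 K) : K) - z v := by
    intro v T
    rw [hQ]
    show (P.map (φ v) - Polynomial.C (z v)).eval (φ v T) = _
    rw [Polynomial.eval_sub, Polynomial.eval_C, Polynomial.eval_map, Polynomial.eval₂_at_apply,
      hφa]
  obtain ⟨S, hS⟩ : ∃ S : Finset (𝓞 K), S = (pb K U).filter fun T => ∀ v : InfinitePlace K,
      ‖v.embedding ((P.eval T : 𝓞 K) : K) - z v‖ ≤ τ v := ⟨_, rfl⟩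
  rw [← hS]
  -- the covering
  obtain ⟨Ch, hCh⟩ : ∃ Ch : Finset (InfinitePlace K → ℂ),
      Ch = Fintype.piFinset fun v => (Q v).roots.toFinset := ⟨_, rfl⟩
  have hcov : S ⊆ Ch.biUnion fun i => S.filter fun T => ∀ v, ‖φ v T - i v‖ ≤ ρ v := by
    intro T hT
    have hT' := hT
    rw [hS, Finset.mem_filter] at hT'
    have h1 : ∀ v, ∃ r ∈ (Q v).roots.toFinset, ‖φ v T - r‖ ≤ ρ v := by
      intro v
      refine RTS_root hD (Q v) (hQd v) (hQ0 v) (τ v) (ρ v) (hρ0 v).le ?_ (φ v T) ?_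
      · rw [hQn, hρD]
      · rw [hQe]
        exact hT'.2 v
    choose i hi hi' using h1
    rw [Finset.mem_biUnion]
    refine ⟨i, ?_, Finset.mem_filter.2 ⟨hT, hi'⟩⟩
    rw [hCh, Fintype.mem_piFinset]
    exact hi
  have hChc : (Ch.card : ℝ) ≤ (D : ℝ) ^ Fintype.card (InfinitePlace K) := by
    have h1 : Ch.card ≤ D ^ Fintype.card (InfinitePlace K) := by
      rw [hCh, Fintype.card_piFinset, ← Finset.card_univ, ← Finset.prod_const]
      refine Finset.prod_le_prod' fun v _ => ?_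
      refine (Multiset.toFinset_card_le _).trans ?_
      exact (Polynomial.card_roots' _).trans (hQd v)
    exact_mod_cast h1
  have hfib : ∀ i ∈ Ch, ((S.filter fun T => ∀ v, ‖φ v T - i v‖ ≤ ρ v).card : ℝ) ≤
      C₀ * κ ^ R * PT τ ^ ((1 : ℝ) / D) := by
    intro i _
    rcases Finset.eq_empty_or_nonempty (S.filter fun T => ∀ v, ‖φ v T - i v‖ ≤ ρ v) with h | h
    · rw [h, Finset.card_empty, Nat.cast_zero]
      positivity
    · obtain ⟨T₀, hT₀⟩ := h
      have hT₀' := (Finset.mem_filter.1 hT₀).2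
      have h1 : (S.filter fun T => ∀ v, ‖φ v T - i v‖ ≤ ρ v).card ≤
          (pT (fun v => κ * ρ v)).card := by
        refine Finset.card_le_card_of_injOn (fun T => T - T₀) ?_ ?_
        · intro T hT
          have hT' := (Finset.mem_filter.1 hT).2
          show T - T₀ ∈ pT (fun v => κ * ρ v)
          rw [mem_pT]
          intro v
          rw [← hφn, map_sub]
          have e1 : φ v T - φ v T₀ = (φ v T - i v) - (φ v T₀ - i v) := by ring
          have e2 := norm_sub_le (φ v T - i v) (φ v T₀ - i v)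
          have e3 := hT' v
          have e4 := hT₀' v
          have e5 := hρ0 v
          rw [e1]
          nlinarith
        · intro T _ T' _ h
          exact sub_left_injective h
      have h2 := hI ⊤ (fun v => κ * ρ v) (fun v => mul_pos (by linarith) (hρ0 v)) top_ne_bot (by
        rw [Ideal.absNorm_top, Nat.cast_one]
        exact hlow)
      rw [Ideal.absNorm_top, Nat.cast_one, mul_one, Finset.filter_true_of_mem fun a _ =>
        Submodule.mem_top] at h2
      have h3 : ((S.filter fun T => ∀ v, ‖φ v T - i v‖ ≤ ρ v).card : ℝ) ≤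
          ((pT (fun v => κ * ρ v)).card : ℝ) := by exact_mod_cast h1
      calc _ ≤ ((pT (fun v => κ * ρ v)).card : ℝ) := h3
        _ ≤ C₀ * PT (fun v => κ * ρ v) := h2
        _ ≤ C₀ * (κ ^ R * PT τ ^ ((1 : ℝ) / D)) := mul_le_mul_of_nonneg_left hup hC₀.le
        _ = _ := by ring
  have hfin : (S.card : ℝ) ≤ ∑ i ∈ Ch,
      ((S.filter fun T => ∀ v, ‖φ v T - i v‖ ≤ ρ v).card : ℝ) := by
    have h1 := (Finset.card_le_card hcov).trans Finset.card_biUnion_le
    exact_mod_cast h1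
  calc (S.card : ℝ) ≤ ∑ i ∈ Ch, C₀ * κ ^ R * PT τ ^ ((1 : ℝ) / D) :=
        hfin.trans (Finset.sum_le_sum hfib)
    _ = Ch.card * (C₀ * κ ^ R * PT τ ^ ((1 : ℝ) / D)) := by rw [Finset.sum_const, nsmul_eq_mul]
    _ ≤ (D : ℝ) ^ Fintype.card (InfinitePlace K) * (C₀ * κ ^ R * PT τ ^ ((1 : ℝ) / D)) :=
        mul_le_mul_of_nonneg_right hChc (by positivity)
    _ = _ := by ring

end Pool.Agent.NRN
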