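import Pool.Agent.NRN.StF
import Pool.Agent.NRM.SIGN
import Pool.Agent.RHKB.UNI
import Pool.Agent.RHKB.CNTH
import Pool.Agent.RHKB.PRM
import Pool.Agent.RHKB.PRS
import Pool.Agent.RHKB.HSUM
import Pool.Agent.RHKB.PAIR
import Pool.Agent.RHCB.PAIRC

/-!
NRN, module SG2: the variance of the local densities for two variables (helper41, after
`NRM/SIGN.lean`).
-/

set_option autoImplicit false
set_option linter.unusedSectionVars false
set_option linter.unusedVariables false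

namespace Pool.Agent.NRN

open scoped BigOperators
open Classical NumberField IsDedekindDomain
open Pool.Agent.RHP (Mon mono ev Sys Prim pd WB WW)
open Pool.Agent.RHK Pool.Agent.RHC Pool.Agent.NRM
open Pool.Agent.RHKB (mI hh jj qv MK uu BadK)
open Pool.Agent.RHCB (BadC cred cemb uk PrC hM f00 SIGC_card SIGC_uni SIGC_key)

/-! ### Pairs -/

theorem SG2_sum {N Z : Type} [Fintype N] [Fintype Z] (v : N → Z) (c : Z) :
    (Nat.card {n : N // v n = c} : ℝ) = ∑ n : N, if v n = c then (1 : ℝ) else 0 :=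
  SIGC_card fun n => v n = c

/-- Cauchy-Schwarz for the pairs -/
theorem SG2_cs {N Z : Type} [Fintype N] [Fintype Z] (v : N → Z) (σ : Z ≃ Z) :
    (Nat.card {p : N × N // v p.2 = σ (v p.1)} : ℝ) ≤ Nat.card {p : N × N // v p.1 = v p.2} := by
  have key : ∀ τ : Z ≃ Z, (Nat.card {p : N × N // v p.2 = τ (v p.1)} : ℝ) =
      ∑ c : Z, (Nat.card {n : N // v n = c} : ℝ) * (Nat.card {n : N // v n = τ c} : ℝ) := by
    intro τ
    rw [SIGC_card (fun p : N × N => v p.2 = τ (v p.1)), Fintype.sum_prod_type]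
    have h1 : ∀ c : Z, (Nat.card {n : N // v n = c} : ℝ) * (Nat.card {n : N // v n = τ c} : ℝ) =
        ∑ n : N, if v n = c then (Nat.card {n : N // v n = τ c} : ℝ) else 0 := by
      intro c
      rw [SG2_sum, Finset.sum_mul]
      refine Finset.sum_congr rfl fun n _ => ?_
      split_ifs
      · rw [one_mul]
      · rw [zero_mul]
    simp only [h1]
    conv_rhs => rw [Finset.sum_comm]
    refine Finset.sum_congr rfl fun n _ => ?_
    rw [Finset.sum_ite_eq, if_pos (Finset.mem_univ _), SG2_sum]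
  have h2 : (Nat.card {p : N × N // v p.1 = v p.2} : ℝ) =
      ∑ c : Z, (Nat.card {n : N // v n = c} : ℝ) * (Nat.card {n : N // v n = c} : ℝ) := by
    have h3 := key (Equiv.refl Z)
    rw [show Nat.card {p : N × N // v p.1 = v p.2} = Nat.card {p : N × N // v p.2 =
      Equiv.refl Z (v p.1)} from Nat.card_congr (Equiv.subtypeEquivRight fun p => eq_comm)]
    exact h3
  rw [key, h2]
  have h4 : ∑ c : Z, (Nat.card {n : N // v n = σ c} : ℝ) * (Nat.card {n : N // v n = σ c} : ℝ) =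
      ∑ c : Z, (Nat.card {n : N // v n = c} : ℝ) * (Nat.card {n : N // v n = c} : ℝ) :=
    Equiv.sum_comp σ fun c => (Nat.card {n : N // v n = c} : ℝ) * (Nat.card {n : N // v n = c} : ℝ)
  have h5 : ∑ c : Z, (Nat.card {n : N // v n = c} : ℝ) * (Nat.card {n : N // v n = σ c} : ℝ) ≤
      ∑ c : Z, ((Nat.card {n : N // v n = c} : ℝ) * (Nat.card {n : N // v n = c} : ℝ) +
        (Nat.card {n : N // v n = σ c} : ℝ) * (Nat.card {n : N // v n = σ c} : ℝ)) / 2 := by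
    refine Finset.sum_le_sum fun c _ => ?_
    nlinarith [sq_nonneg ((Nat.card {n : N // v n = c} : ℝ) - Nat.card {n : N // v n = σ c})]
  refine h5.trans (le_of_eq ?_)
  rw [← Finset.sum_div, Finset.sum_add_distrib, h4]
  ring

theorem SG2_pair {A : Type} [CommRing A] [Fintype A] {W : Type} [Fintype W]
    (h : W → A) {d : ℕ} (hd : 1 ≤ d) {ρ ρ' : Fin 2 → A} (hρ : Prim ρ) (hρ' : Prim ρ') (G : ℝ)
    (hV : ∀ μ : A ⧸ mI ρ ρ', IsUnit μ →
      (Nat.card {p : W × W // Ideal.Quotient.mk (mI ρ ρ') (h p.2) =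
        μ * Ideal.Quotient.mk (mI ρ ρ') (h p.1)} : ℝ) * (Nat.card (A ⧸ mI ρ ρ') : ℝ) ≤
        G * (Nat.card W : ℝ) ^ 2) :
    ∑ ω : W, ∑ ω' : W, (Nat.card {f : Mon 2 d → A // ev f ρ = h ω ∧ ev f ρ' = h ω'} : ℝ) ≤
      G * (Nat.card A : ℝ) ^ Fintype.card (Mon 2 d) *
        ((Nat.card W : ℝ) / (Nat.card A : ℝ)) ^ 2 := by
  obtain ⟨μ, hμ⟩ := SIGC_key hρ ρ'
  have hfin : Finite (A ⧸ mI ρ ρ') := Finite.of_surjective _ Ideal.Quotient.mk_surjective
  have hunit : IsUnit (μ ^ d) := by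
    obtain ⟨f, hf⟩ := hρ'.exists_one d
    have h1 := hμ d f
    rw [hf, map_one] at h1
    exact IsUnit.of_mul_eq_one _ h1.symm
  have hV := hV (μ ^ d) hunit
  set q : ℝ := (Nat.card A : ℝ) with hq
  set y : ℝ := (Nat.card W : ℝ) with hy
  set x : ℝ := (Nat.card (A ⧸ mI ρ ρ') : ℝ) with hx
  set Q : ℝ := q ^ Fintype.card (Mon 2 d) with hQ
  have hq0 : 0 < q := by
    rw [hq]
    exact_mod_cast Nat.card_pos
  have hn : ∀ a b : A, (Nat.card {f : Mon 2 d → A // ev f ρ = a ∧ ev f ρ' = b} : ℝ) ≤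
      x * Q / q ^ 2 := by
    intro a b
    rw [le_div_iff₀ (by positivity)]
    have h1 : ((Nat.card {f : Mon 2 d → A // ev f ρ = a ∧ ev f ρ' = b} * Nat.card A ^ 2 : ℕ) : ℝ) ≤
        ((Nat.card (A ⧸ mI ρ ρ') * Nat.card A ^ Fintype.card (Mon 2 d) : ℕ) : ℝ) :=
      Nat.cast_le.2 (RHCB.thm_PAIRC RHKB.thm_PAIR A 2 d hd ρ ρ' hρ hρ' a b)
    rw [Nat.cast_mul, Nat.cast_mul, Nat.cast_pow, Nat.cast_pow] at h1
    exact h1
  have hz : ∀ ω ω' : W, ¬ (Ideal.Quotient.mk (mI ρ ρ') (h ω') =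
      μ ^ d * Ideal.Quotient.mk (mI ρ ρ') (h ω)) →
      Nat.card {f : Mon 2 d → A // ev f ρ = h ω ∧ ev f ρ' = h ω'} = 0 := by
    intro ω ω' h0
    rw [Nat.card_eq_zero]
    left
    refine ⟨fun f => h0 ?_⟩
    have h1 := hμ d f.1
    rw [f.2.1, f.2.2] at h1
    exact h1
  calc ∑ ω : W, ∑ ω' : W, (Nat.card {f : Mon 2 d → A // ev f ρ = h ω ∧ ev f ρ' = h ω'} : ℝ) ≤
      ∑ ω : W, ∑ ω' : W, (if Ideal.Quotient.mk (mI ρ ρ') (h ω') =
        μ ^ d * Ideal.Quotient.mk (mI ρ ρ') (h ω) then (1 : ℝ) else 0) * (x * Q / q ^ 2) := by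
        refine Finset.sum_le_sum fun ω _ => Finset.sum_le_sum fun ω' _ => ?_
        split_ifs with h
        · rw [one_mul]
          exact hn _ _
        · rw [hz ω ω' h]
          simp
    _ = (Nat.card {p : W × W // Ideal.Quotient.mk (mI ρ ρ') (h p.2) =
        μ ^ d * Ideal.Quotient.mk (mI ρ ρ') (h p.1)} : ℝ) * (x * Q / q ^ 2) := by
        rw [SIGC_card (fun p : W × W => Ideal.Quotient.mk (mI ρ ρ') (h p.2) =
          μ ^ d * Ideal.Quotient.mk (mI ρ ρ') (h p.1)), Fintype.sum_prod_type, Finset.sum_mul]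
        refine Finset.sum_congr rfl fun ω _ => ?_
        rw [Finset.sum_mul]
    _ = (Nat.card {p : W × W // Ideal.Quotient.mk (mI ρ ρ') (h p.2) =
        μ ^ d * Ideal.Quotient.mk (mI ρ ρ') (h p.1)} : ℝ) * x * (Q / q ^ 2) := by ring
    _ ≤ G * y ^ 2 * (Q / q ^ 2) := mul_le_mul_of_nonneg_right hV (by positivity)
    _ = G * Q * (y / q) ^ 2 := by rw [div_pow]; ring

theorem SG2_main {A : Type} [CommRing A] [Finite A] {W : Type} [Finite W] [Nonempty W] (w : W → A)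
    {d : ℕ} (hd : 1 ≤ d) (G : Ideal A → ℝ) (T : ℝ)
    (hV : ∀ (J : Ideal A) (μ : A ⧸ J), IsUnit μ →
      (Nat.card {p : W × W // Ideal.Quotient.mk J (w p.2) = μ * Ideal.Quotient.mk J (w p.1)} : ℝ) *
        (Nat.card (A ⧸ J) : ℝ) ≤ G J * (Nat.card W : ℝ) ^ 2)
    (hG : ∀ (P : Finset (Fin 2 → A)), (∀ ρ, ρ ∈ P ↔ Prim ρ) → ∀ ρ ∈ P,
      ∑ ρ' ∈ P, G (mI ρ ρ') ≤ (1 + T) * (Nat.card A : ℝ) ^ 2)
    (sig : (Mon 2 d → A) → ℝ)
    (hsig : ∀ f, sig f = (SIGN_n w f : ℝ) * Nat.card A / Nat.card W / (Nat.card A : ℝ) ^ 2) :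
    (Nat.card {f : Mon 2 d → A // sig f < 1 / 2} : ℝ) ≤
      4 * (T + 2 * hh A) * (Nat.card (Mon 2 d → A) : ℝ) := by
  let _ : Fintype A := Fintype.ofFinite A
  let _ : Fintype W := Fintype.ofFinite W
  obtain ⟨q, hqdef⟩ : ∃ q : ℕ, q = Nat.card A := ⟨_, rfl⟩
  have hq : 0 < q := hqdef ▸ Nat.card_pos
  have hq0 : (0 : ℝ) < q := by exact_mod_cast hq
  obtain ⟨y, hydef⟩ : ∃ y : ℕ, y = Nat.card W := ⟨_, rfl⟩
  have hy : 0 < y := hydef ▸ Nat.card_pos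
  have hy0 : (0 : ℝ) < y := by exact_mod_cast hy
  obtain ⟨Q, hQ⟩ : ∃ Q : ℝ, Q = (Nat.card (Mon 2 d → A) : ℝ) := ⟨_, rfl⟩
  obtain ⟨P, hPdef⟩ : ∃ P : Finset (Fin 2 → A),
    P = Finset.univ.filter (fun ρ : Fin 2 → A => Prim ρ) := ⟨_, rfl⟩
  obtain ⟨h, hh_def⟩ : ∃ h : ℝ, h = hh A := ⟨_, rfl⟩
  have hQ0 : 0 ≤ Q := hQ ▸ Nat.cast_nonneg _
  have hQeq : Q = (q : ℝ) ^ Fintype.card (Mon 2 d) := by
    rw [hQ, hqdef, Nat.card_fun, Nat.card_eq_fintype_card (α := Mon 2 d)]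
    push_cast
    rfl
  have hmem' : ∀ ρ, ρ ∈ P ↔ Prim ρ := fun ρ => by
    rw [hPdef, Finset.mem_filter]
    exact ⟨fun h => h.2, fun h => ⟨Finset.mem_univ _, h⟩⟩
  have hmem : ∀ ρ, ρ ∈ P → Prim ρ := fun ρ h => (hmem' ρ).1 h
  have hPc : (Nat.card {ρ : Fin 2 → A // Prim ρ} : ℝ) = (P.card : ℝ) := by
    rw [Nat.card_eq_fintype_card, Fintype.card_subtype, hPdef]
  have hPle : (P.card : ℝ) ≤ (q : ℝ) ^ 2 := by
    have h1 : P.card ≤ q ^ 2 := by
      refine (Finset.card_le_univ _).trans (le_of_eq ?_)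
      rw [Fintype.card_fun, hqdef, Nat.card_eq_fintype_card, Fintype.card_fin]
    exact_mod_cast h1
  -- the first moment
  have m1 : ∑ f : Mon 2 d → A, (SIGN_n w f : ℝ) = P.card * Q * (y / q) := by
    simp only [SIGN_cnt]
    rw [← hPdef, Finset.sum_comm]
    have h1 : ∀ ρ ∈ P, ∑ f : Mon 2 d → A,
        ∑ ω : W, (if ev f ρ = w ω then (1 : ℝ) else 0) = Q * (y / q) := by
      intro ρ hρ
      rw [Finset.sum_comm]
      have h2 : ∀ ω : W, ∑ f : Mon 2 d → A, (if ev f ρ = w ω then (1 : ℝ) else 0) = Q / q := by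
        intro ω
        rw [← SIGC_card (fun f : Mon 2 d → A => ev f ρ = w ω), eq_div_iff hq0.ne', hQeq]
        have h3 := SIGC_uni RHKB.thm_UNI (d := d) (hmem ρ hρ) (w ω)
        rw [← hqdef] at h3
        exact_mod_cast h3
      rw [Finset.sum_congr rfl fun ω _ => h2 ω, Finset.sum_const, nsmul_eq_mul, Finset.card_univ,
        ← Nat.card_eq_fintype_card, ← hydef]
      field_simp
    rw [Finset.sum_congr rfl h1, Finset.sum_const, nsmul_eq_mul, mul_assoc]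
  -- the second moment
  have m2 : ∑ f : Mon 2 d → A, (SIGN_n w f : ℝ) ^ 2 ≤
      Q * (∑ ρ ∈ P, ∑ ρ' ∈ P, G (mI ρ ρ')) * (y / q) ^ 2 := by
    have h1 : ∀ f : Mon 2 d → A, (SIGN_n w f : ℝ) ^ 2 = ∑ ρ ∈ P, ∑ ρ' ∈ P, ∑ ω : W, ∑ ω' : W,
        if ev f ρ = w ω ∧ ev f ρ' = w ω' then (1 : ℝ) else 0 := by
      intro f
      rw [sq, SIGN_cnt, Finset.sum_mul_sum, ← hPdef]
      refine Finset.sum_congr rfl fun ρ _ => Finset.sum_congr rfl fun ρ' _ => ?_
      rw [Finset.sum_mul_sum]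
      refine Finset.sum_congr rfl fun ω _ => Finset.sum_congr rfl fun ω' _ => ?_
      by_cases h2 : ev f ρ = w ω
      · by_cases h3 : ev f ρ' = w ω'
        · rw [if_pos h2, if_pos h3, if_pos ⟨h2, h3⟩, one_mul]
        · have h4 : ¬ (ev f ρ = w ω ∧ ev f ρ' = w ω') := fun h => h3 h.2
          rw [if_neg h3, if_neg h4, mul_zero]
      · have h4 : ¬ (ev f ρ = w ω ∧ ev f ρ' = w ω') := fun h => h2 h.1
        rw [if_neg h2, if_neg h4, zero_mul]
    simp only [h1]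
    rw [Finset.sum_comm, Finset.mul_sum, Finset.sum_mul]
    refine Finset.sum_le_sum fun ρ hρ => ?_
    rw [Finset.sum_comm, Finset.mul_sum, Finset.sum_mul]
    refine Finset.sum_le_sum fun ρ' hρ' => ?_
    have h2 : ∑ f : Mon 2 d → A, ∑ ω : W, ∑ ω' : W,
        (if ev f ρ = w ω ∧ ev f ρ' = w ω' then (1 : ℝ) else 0) =
        ∑ ω : W, ∑ ω' : W,
          (Nat.card {f : Mon 2 d → A // ev f ρ = w ω ∧ ev f ρ' = w ω'} : ℝ) := by
      rw [Finset.sum_comm]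
      refine Finset.sum_congr rfl fun ω _ => ?_
      rw [Finset.sum_comm]
      refine Finset.sum_congr rfl fun ω' _ => ?_
      rw [SIGC_card]
    rw [h2, hQeq, mul_comm ((q : ℝ) ^ _), hqdef, hydef]
    exact SG2_pair w hd (hmem ρ hρ) (hmem ρ' hρ') (G (mI ρ ρ')) (hV (mI ρ ρ'))
  -- the variance
  have hprm : (1 - h) * (q : ℝ) ^ 2 ≤ (P.card : ℝ) := by
    rw [← hPc, hh_def, hqdef]
    exact RHKB.thm_PRM A 2 le_rfl
  have hqs : (0 : ℝ) < (q : ℝ) ^ 2 := by positivity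
  have hyq : (0 : ℝ) < y / q := by positivity
  have m3 : ∑ ρ ∈ P, ∑ ρ' ∈ P, G (mI ρ ρ') ≤ P.card * ((1 + T) * (q : ℝ) ^ 2) := by
    calc ∑ ρ ∈ P, ∑ ρ' ∈ P, G (mI ρ ρ') ≤ ∑ _ρ ∈ P, (1 + T) * (q : ℝ) ^ 2 := by
          refine Finset.sum_le_sum fun ρ hρ => ?_
          have := hG P hmem' ρ hρ
          rwa [← hqdef] at this
      _ = P.card * ((1 + T) * (q : ℝ) ^ 2) := by rw [Finset.sum_const, nsmul_eq_mul]
  rw [← hqdef, ← hydef] at hsig
  have hsig' : ∀ f : Mon 2 d → A, sig f = (SIGN_n w f : ℝ) / (y / q * (q : ℝ) ^ 2) := by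
    intro f
    rw [hsig]
    field_simp
  have s1 : ∑ f : Mon 2 d → A, sig f = P.card * Q / (q : ℝ) ^ 2 := by
    simp only [hsig']
    rw [← Finset.sum_div, m1]
    field_simp
  have h00 : 0 ≤ 1 + T := by
    obtain ⟨ρ, hρ⟩ : ∃ ρ : Fin 2 → A, Prim ρ := ⟨fun _ => 1, fun i => if i = 0 then 1 else 0, by simp⟩
    have h1 := hG P hmem' ρ ((hmem' ρ).2 hρ)
    have h2 : 0 ≤ ∑ ρ' ∈ P, G (mI ρ ρ') := by
      refine Finset.sum_nonneg fun ρ' _ => ?_
      have h3 := hV (mI ρ ρ') 1 isUnit_one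
      have h4 : 0 < (Nat.card W : ℝ) ^ 2 := by
        have : (0 : ℝ) < Nat.card W := by exact_mod_cast Nat.card_pos
        positivity
      have h5 : 0 ≤ G (mI ρ ρ') * (Nat.card W : ℝ) ^ 2 := le_trans (by positivity) h3
      exact nonneg_of_mul_nonneg_left h5 h4
    rw [← hqdef] at h1
    exact nonneg_of_mul_nonneg_left (h2.trans h1) hqs
  have s2 : ∑ f : Mon 2 d → A, sig f ^ 2 ≤ Q * (1 + T) := by
    have h1 : ∀ f : Mon 2 d → A, sig f ^ 2 =
        (SIGN_n w f : ℝ) ^ 2 / (y / q * (q : ℝ) ^ 2) ^ 2 := by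
      intro f
      rw [hsig', div_pow]
    simp only [h1]
    rw [← Finset.sum_div, div_le_iff₀ (by positivity)]
    refine m2.trans ?_
    rw [mul_pow, mul_comm ((y / q : ℝ) ^ 2), ← mul_assoc]
    refine mul_le_mul_of_nonneg_right ?_ (by positivity)
    rw [mul_assoc Q]
    refine mul_le_mul_of_nonneg_left ?_ hQ0
    refine m3.trans ?_
    calc (P.card : ℝ) * ((1 + T) * (q : ℝ) ^ 2) ≤ (q : ℝ) ^ 2 * ((1 + T) * (q : ℝ) ^ 2) :=
          mul_le_mul_of_nonneg_right hPle (by positivity)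
      _ = (1 + T) * ((q : ℝ) ^ 2) ^ 2 := by ring
  have s3 : (1 - h) * Q ≤ ∑ f : Mon 2 d → A, sig f := by
    rw [s1, le_div_iff₀ hqs]
    calc (1 - h) * Q * (q : ℝ) ^ 2 = (1 - h) * (q : ℝ) ^ 2 * Q := by ring
      _ ≤ _ := mul_le_mul_of_nonneg_right hprm hQ0
  have s4 : ∑ f : Mon 2 d → A, (sig f - 1) ^ 2 ≤ (T + 2 * h) * Q := by
    have h1 : ∑ f : Mon 2 d → A, (sig f - 1) ^ 2 =
        ∑ f : Mon 2 d → A, sig f ^ 2 - 2 * ∑ f : Mon 2 d → A, sig f + Q := by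
      have h2 : ∑ _f : Mon 2 d → A, (1 : ℝ) = Q := by
        rw [Finset.sum_const, nsmul_eq_mul, mul_one, Finset.card_univ, hQ,
          Nat.card_eq_fintype_card]
      rw [← h2, Finset.mul_sum, ← Finset.sum_sub_distrib, ← Finset.sum_add_distrib]
      exact Finset.sum_congr rfl fun f _ => by ring
    rw [h1]
    nlinarith
  have s5 : (Nat.card {f : Mon 2 d → A // sig f < 1 / 2} : ℝ) * (1 / 4) ≤
      ∑ f : Mon 2 d → A, (sig f - 1) ^ 2 := by
    rw [SIGC_card, Finset.sum_mul]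
    refine Finset.sum_le_sum fun f _ => ?_
    split_ifs with h
    · nlinarith
    · rw [zero_mul]
      positivity
  rw [← hQ, ← hh_def]
  have h6 : (Nat.card {f : Mon 2 d → A // sig f < 1 / 2} : ℝ) ≤ 4 * ((T + 2 * h) * Q) := by
    linarith
  refine h6.trans (le_of_eq ?_)
  ring

/-! ### The preimage of an ideal of the quotient -/

section field

variable {K : Type} [Field K] [NumberField K]

/-- the quotient by the preimage -/
noncomputable def SG2_e (I0 : Ideal (𝓞 K)) (J : Ideal (𝓞 K ⧸ I0)) :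
    (𝓞 K ⧸ Ideal.comap (Ideal.Quotient.mk I0) J) ≃+* ((𝓞 K ⧸ I0) ⧸ J) :=
  RingEquiv.ofBijective (Ideal.quotientMap J (Ideal.Quotient.mk I0) le_rfl)
    ⟨Ideal.quotientMap_injective, Ideal.quotientMap_surjective Ideal.Quotient.mk_surjective⟩

theorem SG2_e_mk (I0 : Ideal (𝓞 K)) (J : Ideal (𝓞 K ⧸ I0)) (x : 𝓞 K) :
    SG2_e I0 J (Ideal.Quotient.mk _ x) = Ideal.Quotient.mk J (Ideal.Quotient.mk I0 x) := rfl

theorem SG2_norm (I0 : Ideal (𝓞 K)) (J : Ideal (𝓞 K ⧸ I0)) :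
    Ideal.absNorm (Ideal.comap (Ideal.Quotient.mk I0) J) = Nat.card ((𝓞 K ⧸ I0) ⧸ J) := by
  rw [Ideal.absNorm_apply, Submodule.cardQuot_apply]
  exact Nat.card_congr (SG2_e I0 J).toEquiv

theorem SG2_le (I0 : Ideal (𝓞 K)) (J : Ideal (𝓞 K ⧸ I0)) :
    I0 ≤ Ideal.comap (Ideal.Quotient.mk I0) J := by
  intro x hx
  rw [Ideal.mem_comap, Ideal.Quotient.eq_zero_iff_mem.2 hx]
  exact J.zero_mem

theorem SG2_cnt {I0 : Ideal (𝓞 K)} (hI0 : I0 ≠ ⊥) {r D : ℕ} (g : Mon r D → 𝓞 K)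
    (a : (Fin r → 𝓞 K) → 𝓞 K) (ha : ∀ w, a w = ev g w) (J : Ideal (𝓞 K ⧸ I0))
    (lam : (𝓞 K ⧸ I0) ⧸ J) (hlam : IsUnit lam) :
    (Nat.card {p : (Fin r → 𝓞 K ⧸ I0) × (Fin r → 𝓞 K ⧸ I0) //
      Ideal.Quotient.mk J (ev (cred I0 g) p.2) = lam * Ideal.Quotient.mk J (ev (cred I0 g) p.1)} :
      ℝ) * (Nat.card ((𝓞 K ⧸ I0) ⧸ J) : ℝ) ≤
    GI a (Ideal.comap (Ideal.Quotient.mk I0) J) * (Nat.card (Fin r → 𝓞 K ⧸ I0) : ℝ) ^ 2 := by
  obtain ⟨I, hI⟩ : ∃ I, I = Ideal.comap (Ideal.Quotient.mk I0) J := ⟨_, rfl⟩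
  have hn : Ideal.absNorm I = Nat.card ((𝓞 K ⧸ I0) ⧸ J) := by rw [hI, SG2_norm]
  have hIb : I ≠ ⊥ := fun h => hI0 (by
    have h1 := SG2_le I0 J
    rw [← hI, h] at h1
    exact le_bot_iff.1 h1)
  have hfin0 : Finite (𝓞 K ⧸ I0) := Ideal.finiteQuotientOfFreeOfNeBot _ hI0
  have hfin : Finite (𝓞 K ⧸ I) := Ideal.finiteQuotientOfFreeOfNeBot _ hIb
  let _ : Fintype (𝓞 K ⧸ I) := Fintype.ofFinite _
  let e : (𝓞 K ⧸ I) ≃+* ((𝓞 K ⧸ I0) ⧸ J) := hI ▸ SG2_e I0 J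
  have he : ∀ x : 𝓞 K, e (Ideal.Quotient.mk I x) = Ideal.Quotient.mk J (Ideal.Quotient.mk I0 x) := by
    subst hI
    intro x
    exact SG2_e_mk I0 J x
  rw [← hI]
  clear_value e
  -- the reduction
  let ψ : (𝓞 K ⧸ I0) →+ (𝓞 K ⧸ I) :=
    ((e.symm : ((𝓞 K ⧸ I0) ⧸ J) →+* (𝓞 K ⧸ I)).comp (Ideal.Quotient.mk J)).toAddMonoidHom
  have hψ : ∀ x, e (ψ x) = Ideal.Quotient.mk J x := fun x => e.apply_symm_apply _
  have hψs : Function.Surjective ψ := fun y => by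
    obtain ⟨x, hx⟩ := Ideal.Quotient.mk_surjective (I := J) (e y)
    exact ⟨x, e.injective (by rw [hψ, hx])⟩
  let π : (Fin r → 𝓞 K ⧸ I0) × (Fin r → 𝓞 K ⧸ I0) →+ (Fin r → 𝓞 K ⧸ I) × (Fin r → 𝓞 K ⧸ I) :=
    (ψ.compLeft (Fin r)).prodMap (ψ.compLeft (Fin r))
  have hπ : Function.Surjective π := by
    rintro ⟨y, y'⟩
    choose z hz using fun j => hψs (y j)
    choose z' hz' using fun j => hψs (y' j)
    exact ⟨(z, z'), Prod.ext (funext hz) (funext hz')⟩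
  have hev : ∀ ν : Fin r → 𝓞 K ⧸ I, Ideal.Quotient.mk I (a (lf ν)) = ev (cred I g) ν := by
    intro ν
    rw [ha, ← Pool.Agent.RHP.ev_map (Ideal.Quotient.mk I) g (lf ν)]
    congr 1
    funext j
    exact mk_lf ν j
  have hev2 : ∀ ω : Fin r → 𝓞 K ⧸ I0, e (ev (cred I g) (fun j => ψ (ω j))) =
      Ideal.Quotient.mk J (ev (cred I0 g) ω) := by
    intro ω
    have h1 := Pool.Agent.RHP.ev_map (e : (𝓞 K ⧸ I) →+* ((𝓞 K ⧸ I0) ⧸ J)) (cred I g)
      (fun j => ψ (ω j))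
    have h2 := Pool.Agent.RHP.ev_map (Ideal.Quotient.mk J) (cred I0 g) ω
    refine Eq.trans h1.symm (Eq.trans ?_ h2)
    have h3 : (fun m => (e : (𝓞 K ⧸ I) →+* ((𝓞 K ⧸ I0) ⧸ J)) (cred I g m)) =
        fun m => Ideal.Quotient.mk J (cred I0 g m) := funext fun m => he (g m)
    have h4 : (fun j => (e : (𝓞 K ⧸ I) →+* ((𝓞 K ⧸ I0) ⧸ J)) (ψ (ω j))) =
        fun j => Ideal.Quotient.mk J (ω j) := funext fun j => hψ (ω j)
    rw [h3, h4]
  obtain ⟨lu, hlu⟩ : IsUnit (e.symm lam) := hlam.map (e.symm : ((𝓞 K ⧸ I0) ⧸ J) →+* (𝓞 K ⧸ I))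
  have h1 := SIGN_lift π hπ (fun p => Ideal.Quotient.mk I (a (lf p.2)) =
    (lu : 𝓞 K ⧸ I) * Ideal.Quotient.mk I (a (lf p.1)))
  have h2 := SG2_cs (fun ν : Fin r → 𝓞 K ⧸ I => Ideal.Quotient.mk I (a (lf ν))) (Units.mulLeft lu)
  have h3 : Nat.card {p : (Fin r → 𝓞 K ⧸ I0) × (Fin r → 𝓞 K ⧸ I0) //
      Ideal.Quotient.mk J (ev (cred I0 g) p.2) = lam * Ideal.Quotient.mk J (ev (cred I0 g) p.1)} =
      Nat.card {p : (Fin r → 𝓞 K ⧸ I0) × (Fin r → 𝓞 K ⧸ I0) //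
        Ideal.Quotient.mk I (a (lf (π p).2)) =
          (lu : 𝓞 K ⧸ I) * Ideal.Quotient.mk I (a (lf (π p).1))} := by
    refine Nat.card_congr (Equiv.subtypeEquivRight fun p => ?_)
    rw [hev, hev, ← hev2, ← hev2, hlu]
    constructor
    · intro h
      apply e.injective
      rw [map_mul, e.apply_symm_apply]
      exact h
    · intro h
      have h4 := congrArg e h
      rw [map_mul, e.apply_symm_apply] at h4
      exact h4
  have hx0 : 0 < (Ideal.absNorm I : ℝ) := by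
    have : Ideal.absNorm I ≠ 0 := Ideal.absNorm_ne_zero_iff_mem_nonZeroDivisors.2
      (mem_nonZeroDivisors_of_ne_zero hIb)
    exact_mod_cast Nat.pos_of_ne_zero this
  have hY : (Nat.card ((Fin r → 𝓞 K ⧸ I) × (Fin r → 𝓞 K ⧸ I)) : ℝ) =
      (Ideal.absNorm I : ℝ) ^ (2 * r) := by
    rw [Nat.card_prod, Nat.card_fun, Nat.card_eq_fintype_card (α := Fin r), Fintype.card_fin,
      Ideal.absNorm_apply, Submodule.cardQuot_apply]
    push_cast
    ring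
  have h5 := (Nat.cast_le (α := ℝ)).2 h1
  rw [Nat.cast_mul, Nat.cast_mul, hY, Nat.card_prod, Nat.cast_mul, ← h3] at h5
  rw [← hn]
  unfold GI
  have h6 : (Nat.card {p : (Fin r → 𝓞 K ⧸ I) × (Fin r → 𝓞 K ⧸ I) //
      Ideal.Quotient.mk I (a (lf p.2)) = (lu : 𝓞 K ⧸ I) * Ideal.Quotient.mk I (a (lf p.1))} : ℝ) ≤
      Nat.card {p : (Fin r → 𝓞 K ⧸ I) × (Fin r → 𝓞 K ⧸ I) //
        Ideal.Quotient.mk I (a (lf p.1)) = Ideal.Quotient.mk I (a (lf p.2))} := h2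
  generalize (Nat.card {p : (Fin r → 𝓞 K ⧸ I0) × (Fin r → 𝓞 K ⧸ I0) //
      Ideal.Quotient.mk J (ev (cred I0 g) p.2) =
        lam * Ideal.Quotient.mk J (ev (cred I0 g) p.1)} : ℝ) = n1 at h5 ⊢
  generalize (Nat.card {p : (Fin r → 𝓞 K ⧸ I) × (Fin r → 𝓞 K ⧸ I) //
      Ideal.Quotient.mk I (a (lf p.2)) =
        (lu : 𝓞 K ⧸ I) * Ideal.Quotient.mk I (a (lf p.1))} : ℝ) = n2 at h5 h6
  generalize (Nat.card {p : (Fin r → 𝓞 K ⧸ I) × (Fin r → 𝓞 K ⧸ I) //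
      Ideal.Quotient.mk I (a (lf p.1)) = Ideal.Quotient.mk I (a (lf p.2))} : ℝ) = n3 at h6 ⊢
  generalize (Nat.card (Fin r → 𝓞 K ⧸ I0) : ℝ) = y at h5 ⊢
  generalize (Ideal.absNorm I : ℝ) = x at hx0 h5 ⊢
  rw [div_mul_eq_mul_div, le_div_iff₀ (by positivity)]
  have h7 : n2 * (y * y) ≤ n3 * (y * y) := mul_le_mul_of_nonneg_right h6 (mul_self_nonneg y)
  calc n1 * x * x ^ (2 * r) = n1 * x ^ (2 * r) * x := by ring
    _ ≤ n3 * (y * y) * x := mul_le_mul_of_nonneg_right (h5.trans h7) hx0.le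
    _ = n3 * x * y ^ 2 := by ring

end field

/-- **SG2** -/
theorem thm_SG2 (h1 : St_GBA) (h2 : St_GEX) (h3 : St_LOK) : St_SG2 := by
  intro K _ _ D d hD hd g hg hg0
  obtain ⟨C, hC, hL⟩ := h3 K D hD g hg hg0 1 1 le_rfl le_rfl (dvd_refl 1)
  have hL := hL (fun _ => 0) (by rw [Nat.cast_one]; exact one_dvd _)
  obtain ⟨C', hC', hE⟩ := h2 K D C hC
  obtain ⟨CH, hCH, hH⟩ := RHKB.thm_HSUM RHKB.thm_PRS K
  have ha : ∀ w, aK g 1 1 (fun _ => 0) w = ev g w := by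
    intro w
    have h4 : ((1 : ℕ) : 𝓞 K) * aK g 1 1 (fun _ => 0) w =
        ev g (fun j => (0 : 𝓞 K) + ((1 : ℕ) : 𝓞 K) * w j) :=
      aG_mul (by rw [Nat.cast_one]; exact one_dvd _)
    calc aK g 1 1 (fun _ => 0) w = ((1 : ℕ) : 𝓞 K) * aK g 1 1 (fun _ => 0) w := by
          rw [Nat.cast_one, one_mul]
      _ = ev g (fun j => (0 : 𝓞 K) + ((1 : ℕ) : 𝓞 K) * w j) := h4
      _ = ev g w := by
          congr 1
          funext j
          rw [Nat.cast_one, one_mul, zero_add]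
  intro ε hε
  refine ⟨max 1 ⌈4 * (C' + 2 * CH) / ε⌉₊, fun p0 hp0 q b hq hb hqp => ?_⟩
  have hp1 : 1 ≤ p0 := (le_max_left _ _).trans hp0
  have hp2 : 4 * (C' + 2 * CH) / ε ≤ p0 :=
    (Nat.le_ceil _).trans (by exact_mod_cast (le_max_right _ _).trans hp0)
  have hbot : Ideal.span {(q : 𝓞 K)} ≠ ⊥ := by
    rw [Ne, Ideal.span_singleton_eq_bot, Nat.cast_eq_zero]
    omega
  have hfin : Finite (𝓞 K ⧸ Ideal.span {(q : 𝓞 K)}) := Ideal.finiteQuotientOfFreeOfNeBot _ hbot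
  obtain ⟨u, hu⟩ := SIGN_unit (K := K) hb
  set A := 𝓞 K ⧸ Ideal.span {(q : 𝓞 K)} with hA
  set G : Mon D D → A := cred (Ideal.span {(q : 𝓞 K)}) g with hG
  have hub : (u⁻¹ : Aˣ) * (b : A) = 1 := by rw [← hu, Units.inv_mul]
  have hqm : ∀ J : Ideal A, (q : 𝓞 K) ∈ Ideal.comap (Ideal.Quotient.mk (Ideal.span {(q : 𝓞 K)})) J :=
    fun J => SG2_le _ J (Ideal.mem_span_singleton_self _)
  have key := SG2_main (W := Fin D → A) (fun ω => ((u⁻¹ : Aˣ) : A) * ev G ω) hd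
    (fun J => GI (aK g 1 1 (fun _ => 0))
      (Ideal.comap (Ideal.Quotient.mk (Ideal.span {(q : 𝓞 K)})) J)) (C' / p0) ?_ ?_
    (fun f => sigN b G f) ?_
  · refine key.trans (mul_le_mul_of_nonneg_right ?_ (Nat.cast_nonneg _))
    have h4 := hH p0 q hp1 hq hqp
    have h5 : (0 : ℝ) < p0 := by exact_mod_cast hp1
    have h6 : 4 * (C' / p0 + 2 * hh A) ≤ 4 * (C' + 2 * CH) / p0 := by
      have h7 : 4 * (C' + 2 * CH) / p0 = 4 * (C' / p0 + 2 * (CH / p0)) := by ring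
      rw [h7]
      linarith
    refine h6.trans ?_
    rw [div_le_iff₀ h5]
    rw [div_le_iff₀ hε] at hp2
    linarith
  · intro J μ hμ
    have h4 := SG2_cnt hbot g (aK g 1 1 (fun _ => 0)) ha J μ hμ
    refine le_trans (le_of_eq ?_) h4
    congr 2
    refine Nat.card_congr (Equiv.subtypeEquivRight fun p => ?_)
    have h5 : Ideal.Quotient.mk J (b : A) * Ideal.Quotient.mk J ((u⁻¹ : Aˣ) : A) = 1 := by
      rw [← map_mul, mul_comm, hub, map_one]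
    have h6 : Ideal.Quotient.mk J ((u⁻¹ : Aˣ) : A) * Ideal.Quotient.mk J (b : A) = 1 := by
      rw [mul_comm, h5]
    constructor
    · intro h
      have h7 := congrArg (fun t => Ideal.Quotient.mk J (b : A) * t) h
      rw [map_mul, map_mul, ← mul_assoc, h5, one_mul, mul_left_comm μ, ← mul_assoc, h5,
        one_mul] at h7
      exact h7
    · intro h
      rw [map_mul, map_mul, h]
      ring
  · intro P hP ρ hρ
    have hc2 : (0 : ℝ) ≤ (Nat.card A : ℝ) ^ 2 := by positivity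
    refine (hE D _ hL (Fin 2 → A) P (fun ρ' =>
      Ideal.comap (Ideal.Quotient.mk (Ideal.span {(q : 𝓞 K)})) (mI ρ ρ')) _ hc2 ?_ ?_).2 p0 hp1 ?_
    · intro ρ' _ h
      refine hbot (le_bot_iff.1 ?_)
      rw [← h]
      exact SG2_le _ _
    · intro I hI
      by_cases hS : (P.filter fun ρ' =>
          Ideal.comap (Ideal.Quotient.mk (Ideal.span {(q : 𝓞 K)})) (mI ρ ρ') ≤ I).Nonempty
      · obtain ⟨ρ₀, hρ₀⟩ := hS
        have hq1 : Ideal.span {(q : 𝓞 K)} ≤ I :=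
          (SG2_le _ _).trans (Finset.mem_filter.1 hρ₀).2
        obtain ⟨J, hJ⟩ : ∃ J : Ideal A, J = I.map (Ideal.Quotient.mk (Ideal.span {(q : 𝓞 K)})) :=
          ⟨_, rfl⟩
        have hJc : Ideal.comap (Ideal.Quotient.mk (Ideal.span {(q : 𝓞 K)})) J = I := by
          rw [hJ, Ideal.comap_map_of_surjective _ Ideal.Quotient.mk_surjective, ← RingHom.ker_eq_comap_bot,
            Ideal.mk_ker, sup_eq_left]
          exact hq1
        have hN : Ideal.absNorm I = Nat.card (A ⧸ J) := by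
          rw [← hJc]
          exact SG2_norm _ J
        have h4 := RHKB.thm_CNTH A 2 J ρ ((hP ρ).1 hρ)
        have hfinJ : Finite (A ⧸ J) := Finite.of_surjective _ Ideal.Quotient.mk_surjective
        have h5 : (P.filter fun ρ' => Ideal.comap (Ideal.Quotient.mk (Ideal.span {(q : 𝓞 K)}))
            (mI ρ ρ') ≤ I).card ≤ Nat.card {ρ' : Fin 2 → A // mI ρ ρ' ≤ J} := by
          let _ : Fintype A := Fintype.ofFinite A
          rw [Nat.card_eq_fintype_card, Fintype.card_subtype]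
          refine Finset.card_le_card fun ρ' h => ?_
          rw [Finset.mem_filter] at h ⊢
          refine ⟨Finset.mem_univ _, ?_⟩
          have h6 := h.2
          rw [← hJc] at h6
          exact (Ideal.comap_le_comap_iff_of_surjective _ Ideal.Quotient.mk_surjective _ _).1 h6
        have h6 : 0 < Nat.card (A ⧸ J) := Nat.card_pos
        have h7 : (P.filter fun ρ' => Ideal.comap (Ideal.Quotient.mk (Ideal.span {(q : 𝓞 K)}))
            (mI ρ ρ') ≤ I).card * Nat.card (A ⧸ J) ≤ Nat.card A ^ 2 := by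
          refine Nat.le_of_mul_le_mul_left ?_ h6
          refine le_trans (le_of_eq ?_) ((Nat.mul_le_mul_right _ h5).trans h4)
          ring
        rw [hN]
        exact_mod_cast h7
      · rw [Finset.not_nonempty_iff_eq_empty.1 hS, Finset.card_empty, Nat.cast_zero, zero_mul]
        exact hc2
    · intro ρ' _ v hv hle
      obtain ⟨p, hp, hpp, hpv⟩ := hv
      have hqv : (q : 𝓞 K) ∈ v.asIdeal := hle (hqm _)
      have hcop : IsCoprime (p : ℤ) (q : ℤ) := by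
        refine Nat.isCoprime_iff_coprime.2 ((Nat.Prime.coprime_iff_not_dvd hp).2 fun h => ?_)
        have := hqp p hp h
        omega
      obtain ⟨x, y, hxy⟩ := hcop
      refine v.isPrime.ne_top ((Ideal.eq_top_iff_one _).2 ?_)
      have h4 : ((x * p + y * q : ℤ) : 𝓞 K) = 1 := by rw [hxy, Int.cast_one]
      push_cast at h4
      rw [← h4]
      exact Ideal.add_mem _ (Ideal.mul_mem_left _ _ hpv) (Ideal.mul_mem_left _ _ hqv)
  · intro f
    have h4 : cntN b G f = SIGN_n (fun ω : Fin D → A => ((u⁻¹ : Aˣ) : A) * ev G ω) f := by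
      unfold cntN SIGN_n
      refine Nat.card_congr (Equiv.subtypeEquivRight fun p => and_congr_right fun _ => ?_)
      constructor
      · intro h
        change _ = _ * _
        rw [← h, ← mul_assoc, hub, one_mul]
      · intro h
        change _ = _ * _ at h
        rw [h, ← mul_assoc, mul_comm (b : A), hub, one_mul]
    have h5 : (Nat.card (Fin D → A) : ℝ) = (Nat.card A : ℝ) ^ D := by
      rw [Nat.card_fun, Nat.card_eq_fintype_card (α := Fin D), Fintype.card_fin, Nat.cast_pow]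
    have h6 : (0 : ℝ) < (Nat.card A : ℝ) := by exact_mod_cast Nat.card_pos
    unfold sigN
    rw [h4, h5, div_div, ← pow_add, add_comm D 2]

end Pool.Agent.NRN
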