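import Pool.Agent.NRN.StG

/-!
# NRN, module SHA: the shifts by the cube `[0, M)` are equidistributed modulo `I`
-/

set_option autoImplicit false

namespace Pool.Agent.NRN

open scoped BigOperators
open Classical NumberField IsDedekindDomain
open Pool.Agent.RHP (Mon mono ev Sys Prim pd WB WW)
open Pool.Agent.RHK Pool.Agent.RHC Pool.Agent.NRM
open Pool.Agent.RHKB (mI hh jj qv MK uu BadK)
open Pool.Agent.RHCB (BadC cred cemb uk PrC hM f00)

section

variable {K : Type} [Field K] [NumberField K]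

variable (K) in
/-- the cube -/
noncomputable def SHA_S (M : ℕ) : Finset (𝓞 K) :=
  (cb K M).filter fun a => ∀ i, 0 ≤ co a i ∧ co a i < M

theorem SHA_mem {M : ℕ} {a : 𝓞 K} : a ∈ SHA_S K M ↔ ∀ i, 0 ≤ co a i ∧ co a i < M := by
  unfold SHA_S
  rw [Finset.mem_filter]
  refine ⟨fun h => h.2, fun h => ⟨?_, h⟩⟩
  rw [mem_cb]
  unfold cz
  rw [Finset.sup_le_iff]
  intro i _
  have := h i
  omega

/-- an integer with given coordinates -/
noncomputable def SHA_mk (x : IX K → ℤ) : 𝓞 K := (RingOfIntegers.basis K).equivFun.symm x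

theorem SHA_co (x : IX K → ℤ) (i : IX K) : co (SHA_mk x) i = x i :=
  congrFun ((RingOfIntegers.basis K).equivFun.apply_symm_apply x) i

theorem SHA_ext {a b : 𝓞 K} (h : ∀ i, co a i = co b i) : a = b :=
  (RingOfIntegers.basis K).equivFun.injective (funext h)

theorem SHA_add (a b : 𝓞 K) (i : IX K) : co (a + b) i = co a i + co b i := by
  unfold co
  rw [map_add, Finsupp.add_apply]

theorem SHA_nmul (M : ℕ) (a : 𝓞 K) (i : IX K) : co ((M : 𝓞 K) * a) i = M * co a i := by
  unfold co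
  rw [← nsmul_eq_mul, map_nsmul, Finsupp.smul_apply, nsmul_eq_mul]

theorem SHA_card (M : ℕ) : (SHA_S K M).card = M ^ dg K := by
  have h1 : SHA_S K M = (Fintype.piFinset fun _ : IX K => Finset.Ico (0 : ℤ) (M : ℤ)).map
      (RingOfIntegers.basis K).equivFun.symm.toEquiv.toEmbedding := by
    ext a
    rw [SHA_mem, Finset.mem_map_equiv, Fintype.mem_piFinset]
    refine forall_congr' fun i => ?_
    rw [Finset.mem_Ico]
    rfl
  rw [h1, Finset.card_map, Fintype.card_piFinset, Finset.prod_const, Finset.card_univ, card_IX,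
    Int.card_Ico]
  congr 1

/-- reduction of the coordinates -/
noncomputable def SHA_red (M : ℕ) (a : 𝓞 K) : 𝓞 K := SHA_mk fun i => co a i % (M : ℤ)

theorem SHA_red_mem {M : ℕ} (hM : 0 < M) (a : 𝓞 K) : SHA_red M a ∈ SHA_S K M := by
  rw [SHA_mem]
  intro i
  unfold SHA_red
  rw [SHA_co]
  have h1 : (M : ℤ) ≠ 0 := by exact_mod_cast hM.ne'
  exact ⟨Int.emod_nonneg _ h1, Int.emod_lt_of_pos _ (by exact_mod_cast hM)⟩

theorem SHA_red_eq (M : ℕ) (a : 𝓞 K) :
    a = SHA_red M a + (M : 𝓞 K) * SHA_mk fun i => co a i / (M : ℤ) := by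
  refine SHA_ext fun i => ?_
  rw [SHA_add, SHA_nmul, SHA_co]
  unfold SHA_red
  rw [SHA_co]
  exact (Int.emod_add_mul_ediv _ _).symm

theorem SHA_mk_red {M : ℕ} (a : 𝓞 K) (I : Ideal (𝓞 K)) (hI : (M : 𝓞 K) ∈ I) :
    Ideal.Quotient.mk I (SHA_red M a) = Ideal.Quotient.mk I a := by
  have h1 := congrArg (Ideal.Quotient.mk I) (SHA_red_eq M a)
  rw [h1, map_add, map_mul, Ideal.Quotient.eq_zero_iff_mem.2 hI, zero_mul, add_zero]

/-- the fibres of the cube -/
noncomputable def SHA_F (M : ℕ) (I : Ideal (𝓞 K)) (u : 𝓞 K ⧸ I) : Finset (𝓞 K) :=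
  (SHA_S K M).filter fun x => Ideal.Quotient.mk I x = u

theorem SHA_le {M : ℕ} (hM : 0 < M) (I : Ideal (𝓞 K)) (hI : (M : 𝓞 K) ∈ I) (u : 𝓞 K ⧸ I)
    (y : 𝓞 K) : (SHA_F M I u).card ≤ (SHA_F M I (u + Ideal.Quotient.mk I y)).card := by
  refine Finset.card_le_card_of_injOn (fun x => SHA_red M (x + y)) ?_ ?_
  · intro x hx
    have hx' : x ∈ SHA_S K M ∧ Ideal.Quotient.mk I x = u := by
      have := Finset.mem_coe.1 hx
      exact Finset.mem_filter.1 this
    refine Finset.mem_coe.2 (Finset.mem_filter.2 ⟨SHA_red_mem hM _, ?_⟩)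
    rw [SHA_mk_red _ I hI, map_add, hx'.2]
  · intro x hx x' hx' h
    have h1 := SHA_mem.1 (Finset.mem_filter.1 (Finset.mem_coe.1 hx)).1
    have h2 := SHA_mem.1 (Finset.mem_filter.1 (Finset.mem_coe.1 hx')).1
    refine SHA_ext fun i => ?_
    have h3 : co (SHA_red M (x + y)) i = co (SHA_red M (x' + y)) i := congrArg (fun z => co z i) h
    unfold SHA_red at h3
    rw [SHA_co, SHA_co, SHA_add, SHA_add] at h3
    have h4 : co x i % (M : ℤ) = co x' i % (M : ℤ) := by
      have h5 : co x i + co y i ≡ co x' i + co y i [ZMOD M] := h3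
      exact Int.ModEq.add_right_cancel' _ h5
    rw [Int.emod_eq_of_lt (h1 i).1 (h1 i).2, Int.emod_eq_of_lt (h2 i).1 (h2 i).2] at h4
    exact h4

theorem SHA_const {M : ℕ} (hM : 0 < M) (I : Ideal (𝓞 K)) (hI : (M : 𝓞 K) ∈ I) (u : 𝓞 K ⧸ I) :
    (SHA_F M I u).card = (SHA_F M I 0).card := by
  obtain ⟨y, hy⟩ := Ideal.Quotient.mk_surjective u
  apply le_antisymm
  · have h1 := SHA_le hM I hI u (-y)
    rwa [map_neg, hy, add_neg_cancel] at h1
  · have h1 := SHA_le hM I hI 0 y
    rwa [hy, zero_add] at h1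

theorem SHA_total {M : ℕ} (hM : 0 < M) (I : Ideal (𝓞 K)) (h0 : I ≠ ⊥) (hI : (M : 𝓞 K) ∈ I) :
    Ideal.absNorm I * (SHA_F M I 0).card = M ^ dg K := by
  have : Finite (𝓞 K ⧸ I) := Ideal.finiteQuotientOfFreeOfNeBot I h0
  have : Fintype (𝓞 K ⧸ I) := Fintype.ofFinite _
  rw [← SHA_card (K := K) M, Finset.card_eq_sum_card_fiberwise (s := SHA_S K M)
    (f := fun x => Ideal.Quotient.mk I x) (t := Finset.univ)
    (fun x _ => Finset.mem_coe.2 (Finset.mem_univ _))]
  have h1 : ∀ u ∈ (Finset.univ : Finset (𝓞 K ⧸ I)),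
      ((SHA_S K M).filter fun x => Ideal.Quotient.mk I x = u).card = (SHA_F M I 0).card :=
    fun u _ => SHA_const hM I hI u
  rw [Finset.sum_congr rfl h1, Finset.sum_const, Finset.card_univ, smul_eq_mul,
    Ideal.absNorm_apply, Submodule.cardQuot_apply, Nat.card_eq_fintype_card]

end

/-- **SHA**: the shifts are equidistributed. -/
theorem thm_SHA (h1 : St_GBA) : St_SHA := by
  intro K _ _ r a ha I M h0 hM hI
  have hdb : db K r M = Fintype.piFinset fun _ => SHA_S K M := rfl
  refine ⟨?_, fun w c => ?_⟩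
  · rw [hdb, Fintype.card_piFinset, Finset.prod_const, SHA_card, Finset.card_univ,
      Fintype.card_fin]
  · have hfin : Finite (𝓞 K ⧸ I) := Ideal.finiteQuotientOfFreeOfNeBot I h0
    have : Fintype (𝓞 K ⧸ I) := Fintype.ofFinite _
    have hlast := (h1 K r a ha I h0).2.2.2.2.2.2
    let Ω : Finset (Fin r → 𝓞 K ⧸ I) :=
      Finset.univ.filter fun ω => Ideal.Quotient.mk I (a (lf ω)) = c
    let f : (Fin r → 𝓞 K) → (Fin r → 𝓞 K ⧸ I) := fun δ j => Ideal.Quotient.mk I (w j + δ j)
    have hmaps : ∀ δ ∈ (db K r M).filter (fun δ =>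
        Ideal.Quotient.mk I (a fun j => w j + δ j) = c), f δ ∈ Ω := by
      intro δ hδ
      refine Finset.mem_filter.2 ⟨Finset.mem_univ _, ?_⟩
      rw [← hlast (f δ) (fun j => w j + δ j) (fun j => rfl)]
      exact (Finset.mem_filter.1 hδ).2
    have hfib : ∀ ω ∈ Ω, (((db K r M).filter (fun δ =>
        Ideal.Quotient.mk I (a fun j => w j + δ j) = c)).filter fun δ => f δ = ω).card =
          (SHA_F M I 0).card ^ r := by
      intro ω hω
      have h2 : ((db K r M).filter (fun δ =>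
          Ideal.Quotient.mk I (a fun j => w j + δ j) = c)).filter (fun δ => f δ = ω) =
            Fintype.piFinset fun j => SHA_F M I (ω j - Ideal.Quotient.mk I (w j)) := by
        ext δ
        rw [Finset.mem_filter, Finset.mem_filter, Fintype.mem_piFinset, hdb, Fintype.mem_piFinset]
        constructor
        · rintro ⟨⟨h3, -⟩, h4⟩ j
          refine Finset.mem_filter.2 ⟨h3 j, ?_⟩
          have h5 : Ideal.Quotient.mk I (w j + δ j) = ω j := congrFun h4 j
          rw [← h5, map_add]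
          ring
        · intro h3
          have h4 : ∀ j, Ideal.Quotient.mk I (w j + δ j) = ω j := fun j => by
            rw [map_add, (Finset.mem_filter.1 (h3 j)).2]
            ring
          refine ⟨⟨fun j => (Finset.mem_filter.1 (h3 j)).1, ?_⟩, funext h4⟩
          rw [hlast ω (fun j => w j + δ j) h4]
          exact (Finset.mem_filter.1 hω).2
      rw [h2, Fintype.card_piFinset]
      simp only [SHA_const hM I hI]
      rw [Finset.prod_const, Finset.card_univ, Fintype.card_fin]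
    have hcard := Finset.card_eq_sum_card_fiberwise (f := f) (t := Ω)
      (s := (db K r M).filter (fun δ => Ideal.Quotient.mk I (a fun j => w j + δ j) = c))
      (fun δ hδ => Finset.mem_coe.2 (hmaps δ (Finset.mem_coe.1 hδ)))
    rw [Finset.sum_congr rfl hfib, Finset.sum_const, smul_eq_mul] at hcard
    have hΩ : Nat.card {ω : Fin r → 𝓞 K ⧸ I // Ideal.Quotient.mk I (a (lf ω)) = c} = Ω.card := by
      rw [Nat.card_eq_fintype_card, Fintype.card_subtype]
    have htot := SHA_total hM I h0 hI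
    have hN : (Ideal.absNorm I : ℝ) ≠ 0 := by
      have : Ideal.absNorm I ≠ 0 := fun h => h0 (Ideal.absNorm_eq_zero_iff.1 h)
      exact_mod_cast this
    have htot' : ((M : ℝ) ^ dg K) = (Ideal.absNorm I : ℝ) * ((SHA_F M I 0).card : ℝ) := by
      exact_mod_cast htot.symm
    have hfinal : ∀ x N y : ℝ, N ≠ 0 → x * y ^ r = x / N ^ r * (N * y) ^ r := by
      intro x N y hN
      rw [mul_pow, div_mul_eq_mul_div, eq_div_iff (pow_ne_zero _ hN)]
      ring
    unfold PQ
    rw [hcard, hΩ, htot', Nat.cast_mul, Nat.cast_pow]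
    exact hfinal _ _ _ hN

end Pool.Agent.NRN
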