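import Pool.Agent.NRN.StG

/-!
NRN, module SHF: shifting a double sum (helper55).
-/

set_option autoImplicit false

namespace Pool.Agent.NRN

open scoped BigOperators
open Classical

/-- shifting a sum -/
theorem SHF_one {V : Type} [AddCommGroup V] (B : Finset V) (δ : V) (b : ℝ)
    (h1 : ((B.filter fun w => w + δ ∉ B).card : ℝ) ≤ b)
    (h2 : ((B.filter fun w => w - δ ∉ B).card : ℝ) ≤ b) (φ : V → ℝ) (M : ℝ)
    (hφ : ∀ w, |φ w| ≤ M) :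
    |∑ w ∈ B, φ w - ∑ w ∈ B, φ (w + δ)| ≤ 2 * b * M := by
  have hM : 0 ≤ M := (abs_nonneg _).trans (hφ 0)
  have e1 : ∑ w ∈ B, φ w = ∑ w ∈ B.filter (fun w => w - δ ∈ B), φ w +
      ∑ w ∈ B.filter (fun w => w - δ ∉ B), φ w :=
    (Finset.sum_filter_add_sum_filter_not B (fun w => w - δ ∈ B) φ).symm
  have e2 : ∑ w ∈ B, φ (w + δ) = ∑ w ∈ B.filter (fun w => w + δ ∈ B), φ (w + δ) +
      ∑ w ∈ B.filter (fun w => w + δ ∉ B), φ (w + δ) :=
    (Finset.sum_filter_add_sum_filter_not B (fun w => w + δ ∈ B) fun w => φ (w + δ)).symm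
  have e3 : ∑ w ∈ B.filter (fun w => w - δ ∈ B), φ w =
      ∑ w ∈ B.filter (fun w => w + δ ∈ B), φ (w + δ) := by
    refine Finset.sum_nbij' (fun w => w - δ) (fun w => w + δ) ?_ ?_ ?_ ?_ ?_
    · intro w hw
      rw [Finset.mem_filter] at hw ⊢
      refine ⟨hw.2, ?_⟩
      rw [sub_add_cancel]; exact hw.1
    · intro w hw
      rw [Finset.mem_filter] at hw ⊢
      refine ⟨hw.2, ?_⟩
      rw [add_sub_cancel_right]; exact hw.1
    · intro w _; exact sub_add_cancel w δ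
    · intro w _; exact add_sub_cancel_right w δ
    · intro w _; rw [sub_add_cancel]
  have hb : ∀ (S : Finset V) (ψ : V → ℝ), (S.card : ℝ) ≤ b → (∀ w, |ψ w| ≤ M) →
      |∑ w ∈ S, ψ w| ≤ b * M := by
    intro S ψ hS hψ
    calc |∑ w ∈ S, ψ w| ≤ ∑ w ∈ S, |ψ w| := Finset.abs_sum_le_sum_abs _ _
      _ ≤ ∑ _w ∈ S, M := Finset.sum_le_sum fun w _ => hψ w
      _ = S.card * M := by rw [Finset.sum_const, nsmul_eq_mul]
      _ ≤ b * M := mul_le_mul_of_nonneg_right hS hM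
  have k1 := hb _ φ h2 hφ
  have k2 := hb _ (fun w => φ (w + δ)) h1 (fun w => hφ _)
  rw [e1, e2, e3]
  have : ∑ w ∈ B.filter (fun w => w + δ ∈ B), φ (w + δ) +
      ∑ w ∈ B.filter (fun w => w - δ ∉ B), φ w -
      (∑ w ∈ B.filter (fun w => w + δ ∈ B), φ (w + δ) +
      ∑ w ∈ B.filter (fun w => w + δ ∉ B), φ (w + δ)) =
      ∑ w ∈ B.filter (fun w => w - δ ∉ B), φ w -
      ∑ w ∈ B.filter (fun w => w + δ ∉ B), φ (w + δ) := by ring
  rw [this]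
  calc _ ≤ |∑ w ∈ B.filter (fun w => w - δ ∉ B), φ w| +
      |∑ w ∈ B.filter (fun w => w + δ ∉ B), φ (w + δ)| := abs_sub _ _
    _ ≤ b * M + b * M := add_le_add k1 k2
    _ = 2 * b * M := by ring

theorem thm_SHF : St_SHF := by
  intro V _ B δ δ' b h1 h2 h3 h4 E Em hE
  have s1 : |∑ p ∈ B ×ˢ B, E p.1 p.2 - ∑ p ∈ B ×ˢ B, E (p.1 + δ) p.2| ≤
      B.card * (2 * b * Em) := by
    rw [Finset.sum_product_right, Finset.sum_product_right, ← Finset.sum_sub_distrib]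
    calc _ ≤ ∑ w' ∈ B, |∑ w ∈ B, E w w' - ∑ w ∈ B, E (w + δ) w'| :=
          Finset.abs_sum_le_sum_abs _ _
      _ ≤ ∑ _w' ∈ B, 2 * b * Em := Finset.sum_le_sum fun w' _ =>
          SHF_one B δ b h1 h2 (fun w => E w w') Em fun w => hE w w'
      _ = B.card * (2 * b * Em) := by rw [Finset.sum_const, nsmul_eq_mul]
  have s2 : |∑ p ∈ B ×ˢ B, E (p.1 + δ) p.2 - ∑ p ∈ B ×ˢ B, E (p.1 + δ) (p.2 + δ')| ≤
      B.card * (2 * b * Em) := by
    rw [Finset.sum_product, Finset.sum_product, ← Finset.sum_sub_distrib]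
    calc _ ≤ ∑ w ∈ B, |∑ w' ∈ B, E (w + δ) w' - ∑ w' ∈ B, E (w + δ) (w' + δ')| :=
          Finset.abs_sum_le_sum_abs _ _
      _ ≤ ∑ _w ∈ B, 2 * b * Em := Finset.sum_le_sum fun w _ =>
          SHF_one B δ' b h3 h4 (fun w' => E (w + δ) w') Em fun w' => hE _ w'
      _ = B.card * (2 * b * Em) := by rw [Finset.sum_const, nsmul_eq_mul]
  calc |∑ p ∈ B ×ˢ B, E p.1 p.2 - ∑ p ∈ B ×ˢ B, E (p.1 + δ) (p.2 + δ')| ≤
      |∑ p ∈ B ×ˢ B, E p.1 p.2 - ∑ p ∈ B ×ˢ B, E (p.1 + δ) p.2| +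
      |∑ p ∈ B ×ˢ B, E (p.1 + δ) p.2 - ∑ p ∈ B ×ˢ B, E (p.1 + δ) (p.2 + δ')| :=
        abs_sub_le _ _ _
    _ ≤ B.card * (2 * b * Em) + B.card * (2 * b * Em) := add_le_add s1 s2
    _ = 4 * b * B.card * Em := by ring

end Pool.Agent.NRN
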