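import Pool.Agent.NRN.StG

/-!
NRN: block G, [SIM] (helper82).  The matrices `N(x) = (∂_j g ∂_k g - g ∂_j ∂_k g)(x)` over `𝓞 K` are
`L^T diag(∏_(m ≠ i) l_m(x)^2) L` over the algebraic closure (`L` the matrix of the linear forms), because
`f ↦ (∂_j f ∂_k f - f ∂_j ∂_k f)/f^2` is additive for products.  So `Θ = adj(N(x₁)) N(x₂)` satisfies
`L Θ = diag(τ) L`, and the `τ_i` are different for suitable `x₁`, `x₂`.
-/

set_option autoImplicit false

namespace Pool.Agent.NRN

open scoped BigOperators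
open Classical NumberField IsDedekindDomain
open Pool.Agent.RHP (Mon mono ev Sys Prim pd ev_map)
open Pool.Agent.RHK Pool.Agent.RHC Pool.Agent.NRM
open Pool.Agent.RHKB (jj)

/-- `∂_j f ∂_k f - f ∂_j ∂_k f` -/
noncomputable def SIM_N {R : Type} [CommRing R] {D : ℕ} (f : MvPolynomial (Fin D) R) (j k : Fin D) :
    MvPolynomial (Fin D) R :=
  MvPolynomial.pderiv j f * MvPolynomial.pderiv k f -
    f * MvPolynomial.pderiv j (MvPolynomial.pderiv k f)

private theorem SIM_N_mul {R : Type} [CommRing R] {D : ℕ} (f₁ f₂ : MvPolynomial (Fin D) R)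
    (j k : Fin D) : SIM_N (f₁ * f₂) j k = f₂ ^ 2 * SIM_N f₁ j k + f₁ ^ 2 * SIM_N f₂ j k := by
  unfold SIM_N
  simp only [Derivation.leibniz, smul_eq_mul, map_add]
  ring

private theorem SIM_N_prod {R : Type} [CommRing R] {D : ℕ} {ι : Type} [DecidableEq ι] (s : Finset ι)
    (f : ι → MvPolynomial (Fin D) R) (j k : Fin D) :
    SIM_N (∏ i ∈ s, f i) j k = ∑ i ∈ s, (∏ m ∈ s.erase i, f m ^ 2) * SIM_N (f i) j k := by
  induction s using Finset.induction_on with
  | empty =>
    simp [SIM_N]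
  | insert a s ha ih =>
    rw [Finset.prod_insert ha, SIM_N_mul, ih, Finset.sum_insert ha, Finset.erase_insert ha,
      ← Finset.prod_pow, Finset.mul_sum]
    congr 1
    refine Finset.sum_congr rfl fun i hi => ?_
    have hia : a ≠ i := fun h => ha (h ▸ hi)
    rw [Finset.erase_insert_of_ne hia, Finset.prod_insert (fun h => ha (Finset.mem_of_mem_erase h)),
      mul_assoc]

private theorem SIM_lin {R : Type} [CommRing R] {D : ℕ} (l : Fin D → R) (k : Fin D) :
    MvPolynomial.pderiv k (∑ j, MvPolynomial.C (l j) * MvPolynomial.X j) = MvPolynomial.C (l k) := by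
  rw [map_sum, Finset.sum_eq_single k]
  · rw [MvPolynomial.pderiv_C_mul, MvPolynomial.pderiv_X_self, mul_one]
  · intro j _ hj
    rw [MvPolynomial.pderiv_C_mul, MvPolynomial.pderiv_X_of_ne hj, mul_zero]
  · intro h
    exact absurd (Finset.mem_univ k) h

private theorem SIM_N_lin {R : Type} [CommRing R] {D : ℕ} (l : Fin D → R) (j k : Fin D) :
    SIM_N (∑ j, MvPolynomial.C (l j) * MvPolynomial.X j) j k =
      MvPolynomial.C (l j) * MvPolynomial.C (l k) := by
  unfold SIM_N
  rw [SIM_lin, SIM_lin, MvPolynomial.pderiv_C, mul_zero, sub_zero]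

private theorem SIM_N_map {R S : Type} [CommRing R] [CommRing S] {D : ℕ} (φ : R →+* S)
    (f : MvPolynomial (Fin D) R) (j k : Fin D) :
    MvPolynomial.map φ (SIM_N f j k) = SIM_N (MvPolynomial.map φ f) j k := by
  unfold SIM_N
  simp only [map_sub, map_mul, MvPolynomial.pderiv_map]

/-- the matrix of the values -/
noncomputable def SIM_M {R : Type} [CommRing R] {D : ℕ} (f : MvPolynomial (Fin D) R) (x : Fin D → R) :
    Matrix (Fin D) (Fin D) R :=
  Matrix.of fun j k => MvPolynomial.eval x (SIM_N f j k)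

/-- the squares of the products of the other forms -/
noncomputable def SIM_q {R : Type} [CommRing R] {D : ℕ} (y : Fin D → R) (i : Fin D) : R :=
  ∏ m ∈ Finset.univ.erase i, y m ^ 2

private theorem SIM_hess {R S : Type} [CommRing R] [CommRing S] {D : ℕ} (φ : R →+* S)
    (G : MvPolynomial (Fin D) R) (L : Matrix (Fin D) (Fin D) S)
    (hG : MvPolynomial.map φ G = ∏ i, ∑ j, MvPolynomial.C (L i j) * MvPolynomial.X j)
    (x : Fin D → R) :
    (SIM_M G x).map φ = L.transpose * Matrix.diagonal (SIM_q (L.mulVec fun j => φ (x j))) * L := by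
  ext j k
  rw [Matrix.map_apply]
  unfold SIM_M
  rw [Matrix.of_apply]
  have h1 : φ (MvPolynomial.eval x (SIM_N G j k)) =
      MvPolynomial.eval (fun j => φ (x j)) (MvPolynomial.map φ (SIM_N G j k)) := by
    rw [MvPolynomial.eval_map]
    exact MvPolynomial.eval₂_comp φ x (SIM_N G j k)
  rw [h1, SIM_N_map, hG, SIM_N_prod, map_sum, Matrix.mul_apply]
  refine Finset.sum_congr rfl fun i _ => ?_
  rw [SIM_N_lin, Matrix.mul_diagonal, Matrix.transpose_apply, map_mul, map_mul, map_prod,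
    MvPolynomial.eval_C, MvPolynomial.eval_C]
  have h2 : ∏ m ∈ Finset.univ.erase i, MvPolynomial.eval (fun j => φ (x j))
      ((∑ j, MvPolynomial.C (L m j) * MvPolynomial.X j : MvPolynomial (Fin D) S) ^ 2) =
      SIM_q (L.mulVec fun j => φ (x j)) i := by
    unfold SIM_q
    refine Finset.prod_congr rfl fun m _ => ?_
    rw [map_pow, map_sum]
    simp only [map_mul, MvPolynomial.eval_C, MvPolynomial.eval_X]
    rfl
  rw [h2]
  ring

/-- the eigenvalues -/
noncomputable def SIM_tau {R : Type} [CommRing R] {D : ℕ} (c : R) (y₁ y₂ : Fin D → R) (i : Fin D) : R :=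
  c ^ 2 * (∏ m ∈ Finset.univ.erase i, SIM_q y₁ m) * SIM_q y₂ i

private theorem SIM_conj {R S : Type} [CommRing R] [CommRing S] {D : ℕ} (φ : R →+* S)
    (G : MvPolynomial (Fin D) R) (L : Matrix (Fin D) (Fin D) S)
    (hG : MvPolynomial.map φ G = ∏ i, ∑ j, MvPolynomial.C (L i j) * MvPolynomial.X j)
    (x₁ x₂ : Fin D → R) :
    L * ((SIM_M G x₁).adjugate * SIM_M G x₂).map φ =
      Matrix.diagonal (SIM_tau L.det (L.mulVec fun j => φ (x₁ j)) (L.mulVec fun j => φ (x₂ j))) *
        L := by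
  have h1 : ((SIM_M G x₁).adjugate * SIM_M G x₂).map φ =
      ((SIM_M G x₁).map φ).adjugate * (SIM_M G x₂).map φ := by
    rw [Matrix.map_mul]
    congr 1
    exact RingHom.map_adjugate φ (SIM_M G x₁)
  rw [h1, SIM_hess φ G L hG, SIM_hess φ G L hG, Matrix.adjugate_mul_distrib,
    Matrix.adjugate_mul_distrib, Matrix.adjugate_diagonal]
  set A := Matrix.diagonal fun i =>
    ∏ m ∈ Finset.univ.erase i, SIM_q (L.mulVec fun j => φ (x₁ j)) m with hA
  set B := Matrix.diagonal (SIM_q (L.mulVec fun j => φ (x₂ j))) with hB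
  have h2 : L * (L.adjugate * (A * L.transpose.adjugate) * (L.transpose * B * L)) =
      (L * L.adjugate) * A * (L.transpose.adjugate * L.transpose) * B * L := by
    simp only [Matrix.mul_assoc]
  rw [h2, Matrix.mul_adjugate, Matrix.adjugate_mul, Matrix.det_transpose]
  have h3 : Matrix.diagonal (SIM_tau L.det (L.mulVec fun j => φ (x₁ j)) (L.mulVec fun j => φ (x₂ j))) =
      L.det • (1 : Matrix (Fin D) (Fin D) S) * A * L.det • (1 : Matrix (Fin D) (Fin D) S) * B := by
    rw [hA, hB, smul_mul_assoc, one_mul, mul_smul_comm, mul_one, smul_mul_assoc, smul_mul_assoc,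
      Matrix.diagonal_mul_diagonal, ← Matrix.diagonal_smul, ← Matrix.diagonal_smul]
    congr 1
    funext i
    simp only [Pi.smul_apply, smul_eq_mul]
    unfold SIM_tau
    ring
  rw [h3]

/-- the different eigenvalues -/
private theorem SIM_inj {F : Type} [Field F] {D : ℕ} (c : F) (y₁ y₂ : Fin D → F) (hc : c ≠ 0)
    (h1 : ∀ i, y₁ i ≠ 0) (h2 : ∀ i, y₂ i ≠ 0)
    (h3 : ∀ i k, i ≠ k → y₁ i * y₂ k - y₁ k * y₂ i ≠ 0)
    (h4 : ∀ i k, i ≠ k → y₁ i * y₂ k + y₁ k * y₂ i ≠ 0) :
    Function.Injective (SIM_tau c y₁ y₂) := by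
  have hq : ∀ (y : Fin D → F) (i : Fin D), SIM_q y i * y i ^ 2 = ∏ m, y m ^ 2 := by
    intro y i
    unfold SIM_q
    exact Finset.prod_erase_mul _ _ (Finset.mem_univ i)
  have hY : ∀ y : Fin D → F, (∀ i, y i ≠ 0) → ∏ m, y m ^ 2 ≠ 0 := by
    intro y hy
    exact Finset.prod_ne_zero_iff.2 fun m _ => pow_ne_zero 2 (hy m)
  have hq0 : ∀ y : Fin D → F, (∀ i, y i ≠ 0) → ∀ i, SIM_q y i ≠ 0 := by
    intro y hy i h
    have h5 := hq y i
    rw [h, zero_mul] at h5
    exact hY y hy h5.symm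
  have hE : ∀ i, SIM_tau c y₁ y₂ i * (∏ m, y₁ m ^ 2) * y₂ i ^ 2 =
      c ^ 2 * (∏ m, SIM_q y₁ m) * (∏ m, y₂ m ^ 2) * y₁ i ^ 2 := by
    intro i
    have h5 : (∏ m ∈ Finset.univ.erase i, SIM_q y₁ m) * SIM_q y₁ i = ∏ m, SIM_q y₁ m :=
      Finset.prod_erase_mul _ _ (Finset.mem_univ i)
    rw [← h5, ← hq y₁ i, ← hq y₂ i]
    unfold SIM_tau
    ring
  have hne : c ^ 2 * (∏ m, SIM_q y₁ m) * (∏ m, y₂ m ^ 2) ≠ 0 :=
    mul_ne_zero (mul_ne_zero (pow_ne_zero 2 hc)
      (Finset.prod_ne_zero_iff.2 fun m _ => hq0 y₁ h1 m)) (hY y₂ h2)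
  intro i k hik
  by_contra hne'
  have h5 : c ^ 2 * (∏ m, SIM_q y₁ m) * (∏ m, y₂ m ^ 2) *
      ((y₁ i * y₂ k - y₁ k * y₂ i) * (y₁ i * y₂ k + y₁ k * y₂ i)) = 0 := by
    have h6 := hE i
    have h7 := hE k
    rw [← hik] at h7
    linear_combination (-(y₂ k ^ 2)) * h6 + (y₂ i ^ 2) * h7
  rcases mul_eq_zero.1 h5 with h6 | h6
  · exact hne h6
  · rcases mul_eq_zero.1 h6 with h7 | h7
    · exact h3 i k hne' h7
    · exact h4 i k hne' h7

private theorem SIM_pt {F : Type} [Field F] [CharZero F] {D : ℕ} {ι : Type} [Fintype ι]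
    (c : ι → Fin D → F) (hc : ∀ i, c i ≠ 0) :
    ∃ t : ℕ, ∀ i, ∑ j, c i j * (t : F) ^ (j : ℕ) ≠ 0 := by
  let P : ι → Polynomial F := fun i => ∑ j : Fin D, Polynomial.monomial (j : ℕ) (c i j)
  have hP : ∀ i, P i ≠ 0 := by
    intro i h
    apply hc i
    funext j
    have h1 : (P i).coeff (j : ℕ) = c i j := by
      change (∑ j' : Fin D, Polynomial.monomial (j' : ℕ) (c i j')).coeff (j : ℕ) = c i j
      rw [Polynomial.finsetSum_coeff, Finset.sum_eq_single j]
      · rw [Polynomial.coeff_monomial, if_pos rfl]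
      · intro b _ hb
        rw [Polynomial.coeff_monomial, if_neg]
        intro h2
        exact hb (Fin.ext h2)
      · intro h2
        exact absurd (Finset.mem_univ j) h2
    rw [← h1, h, Polynomial.coeff_zero, Pi.zero_apply]
  obtain ⟨t, ht⟩ := Infinite.exists_notMem_finset
    ((Finset.univ.biUnion fun i => (P i).roots.toFinset).preimage (fun n : ℕ => (n : F))
      Nat.cast_injective.injOn)
  refine ⟨t, fun i h => ht ?_⟩
  rw [Finset.mem_preimage, Finset.mem_biUnion]
  refine ⟨i, Finset.mem_univ i, ?_⟩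
  rw [Multiset.mem_toFinset, Polynomial.mem_roots (hP i), Polynomial.IsRoot.def]
  change (∑ j : Fin D, Polynomial.monomial (j : ℕ) (c i j)).eval (t : F) = 0
  rw [Polynomial.eval_finsetSum, ← h]
  refine Finset.sum_congr rfl fun j _ => ?_
  rw [Polynomial.eval_monomial]

private theorem SIM_ind {F : Type} [Field F] {D : ℕ} (L : Matrix (Fin D) (Fin D) F)
    (hL : L.det ≠ 0) (p q : Fin D) (hpq : p ≠ q) (a b : F) (ha : a ≠ 0) :
    (fun j => a * L p j + b * L q j) ≠ 0 := by
  intro h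
  apply hL
  rw [← Matrix.exists_vecMul_eq_zero_iff]
  refine ⟨Pi.single p a + Pi.single q b, ?_, ?_⟩
  · intro h1
    have h2 := congrFun h1 p
    rw [Pi.add_apply, Pi.single_eq_same, Pi.single_eq_of_ne hpq, add_zero, Pi.zero_apply] at h2
    exact ha h2
  · rw [Matrix.add_vecMul, Matrix.single_vecMul, Matrix.single_vecMul]
    exact h

private theorem SIM_aev {F : Type} [Field F] {D : ℕ} (L T : Matrix (Fin D) (Fin D) F)
    (τ : Fin D → F) (h : L * T = Matrix.diagonal τ * L) (p : Polynomial F) :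
    L * Polynomial.aeval T p = Matrix.diagonal (fun i => p.eval (τ i)) * L := by
  induction p using Polynomial.induction_on' with
  | add p q hp hq =>
    rw [map_add, mul_add, hp, hq, ← add_mul, Matrix.diagonal_add]
    congr 2
    funext i
    rw [Polynomial.eval_add]
  | monomial n a =>
    have h1 : L * T ^ n = Matrix.diagonal τ ^ n * L := (SemiconjBy.pow_right h n).eq
    rw [Polynomial.aeval_monomial, ← Algebra.smul_def, mul_smul_comm, h1, Matrix.diagonal_pow,
      ← smul_mul_assoc, ← Matrix.diagonal_smul]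
    congr 2
    funext i
    rw [Polynomial.eval_monomial, Pi.smul_apply, Pi.pow_apply, smul_eq_mul]

theorem thm_SIM : St_SIM := by
  intro K _ _ D _ g hg
  obtain ⟨l, hl, hl0⟩ := hg
  let φ : 𝓞 K →+* AlgebraicClosure K := jj (AlgebraicClosure K)
  have hφ : Function.Injective φ :=
    (algebraMap K (AlgebraicClosure K)).injective.comp (RingOfIntegers.coe_injective)
  let L : Matrix (Fin D) (Fin D) (AlgebraicClosure K) := Matrix.of l
  have hdet : L.det ≠ 0 := by
    intro h
    obtain ⟨v, hv, h0⟩ := Matrix.exists_mulVec_eq_zero_iff.2 h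
    exact hv (hl0 v fun i => congrFun h0 i)
  let G : MvPolynomial (Fin D) (𝓞 K) :=
    ev (fun μ => MvPolynomial.C (g μ)) (fun j => MvPolynomial.X j)
  have hG : MvPolynomial.map φ G = ∏ i, ∑ j, MvPolynomial.C (L i j) * MvPolynomial.X j := by
    apply MvPolynomial.funext
    intro x
    change MvPolynomial.eval x (MvPolynomial.map φ
      (ev (fun μ => MvPolynomial.C (g μ)) (fun j => MvPolynomial.X j))) = _
    rw [← ev_map (MvPolynomial.map φ), ← ev_map (MvPolynomial.eval x)]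
    simp only [MvPolynomial.map_C, MvPolynomial.map_X, MvPolynomial.eval_C, MvPolynomial.eval_X,
      map_prod, map_sum, map_mul]
    exact hl x
  have hrow : ∀ i, l i ≠ 0 := by
    intro i h
    exact hdet (Matrix.det_eq_zero_of_row_eq_zero i fun j => congrFun h j)
  obtain ⟨t₁, ht₁⟩ := SIM_pt l hrow
  let x₁ : Fin D → 𝓞 K := fun j => (t₁ : 𝓞 K) ^ (j : ℕ)
  have hy : ∀ (t : ℕ) (i : Fin D), L.mulVec (fun j => φ ((t : 𝓞 K) ^ (j : ℕ))) i =
      ∑ j, l i j * (t : AlgebraicClosure K) ^ (j : ℕ) := by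
    intro t i
    change ∑ j, l i j * φ ((t : 𝓞 K) ^ (j : ℕ)) = _
    refine Finset.sum_congr rfl fun j _ => ?_
    rw [map_pow, map_natCast]
  let y₁ : Fin D → AlgebraicClosure K := L.mulVec (fun j => φ (x₁ j))
  have hy₁ : ∀ i, y₁ i ≠ 0 := fun i => by
    change L.mulVec (fun j => φ ((t₁ : 𝓞 K) ^ (j : ℕ))) i ≠ 0
    rw [hy]
    exact ht₁ i
  obtain ⟨t₂, ht₂⟩ := SIM_pt (ι := Fin D ⊕ ({p : Fin D × Fin D // p.1 ≠ p.2} × Bool))
    (fun s => match s with
      | Sum.inl i => l i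
      | Sum.inr (p, b) => fun j => y₁ p.1.1 * l p.1.2 j +
          (if b then y₁ p.1.2 else - y₁ p.1.2) * l p.1.1 j) (by
      intro s
      match s with
      | Sum.inl i => exact hrow i
      | Sum.inr (p, b) => exact SIM_ind L hdet p.1.2 p.1.1 p.2.symm _ _ (hy₁ _))
  let x₂ : Fin D → 𝓞 K := fun j => (t₂ : 𝓞 K) ^ (j : ℕ)
  let y₂ : Fin D → AlgebraicClosure K := L.mulVec (fun j => φ (x₂ j))
  have hy₂ : ∀ i, y₂ i ≠ 0 := fun i => by
    change L.mulVec (fun j => φ ((t₂ : 𝓞 K) ^ (j : ℕ))) i ≠ 0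
    rw [hy]
    exact ht₂ (Sum.inl i)
  have hp : ∀ i k, i ≠ k → ∀ b : Bool,
      y₁ i * y₂ k + (if b then y₁ k else - y₁ k) * y₂ i ≠ 0 := by
    intro i k hik b
    have h1 := ht₂ (Sum.inr (⟨(i, k), hik⟩, b))
    have h2 : ∀ i, y₂ i = ∑ j, l i j * (t₂ : AlgebraicClosure K) ^ (j : ℕ) := fun i => hy t₂ i
    rw [h2, h2, Finset.mul_sum, Finset.mul_sum, ← Finset.sum_add_distrib]
    intro h3
    apply h1
    rw [← h3]
    refine Finset.sum_congr rfl fun j _ => ?_
    ring
  let τ : Fin D → AlgebraicClosure K := SIM_tau L.det y₁ y₂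
  have hτ : Function.Injective τ := SIM_inj L.det y₁ y₂ hdet hy₁ hy₂
    (fun i k hik h => hp i k hik false (by
      rw [if_neg (by decide), neg_mul, ← sub_eq_add_neg]
      exact h))
    (fun i k hik h => hp i k hik true (by
      rw [if_pos rfl]
      exact h))
  let Θ : Matrix (Fin D) (Fin D) (𝓞 K) := (SIM_M G x₁).adjugate * SIM_M G x₂
  have hΘ : L * Θ.map φ = Matrix.diagonal τ * L := SIM_conj φ G L hG x₁ x₂
  refine ⟨Θ, ?_, ?_⟩
  · rw [← Polynomial.separable_map (algebraMap K (AlgebraicClosure K)), Polynomial.map_map]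
    change (Polynomial.map φ Θ.charpoly).Separable
    rw [← Matrix.charpoly_map]
    obtain ⟨U, hU⟩ := (Matrix.isUnit_iff_isUnit_det L).2 (isUnit_iff_ne_zero.2 hdet)
    have h1 : Θ.map φ = ((U⁻¹ : (Matrix (Fin D) (Fin D) (AlgebraicClosure K))ˣ) :
        Matrix (Fin D) (Fin D) (AlgebraicClosure K)) * Matrix.diagonal τ *
        ((U⁻¹ : (Matrix (Fin D) (Fin D) (AlgebraicClosure K))ˣ) :
          Matrix (Fin D) (Fin D) (AlgebraicClosure K))⁻¹ := by
      rw [← Matrix.coe_units_inv, inv_inv, mul_assoc, hU, ← hΘ, ← hU, Units.inv_mul_cancel_left]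
    rw [h1, Matrix.charpoly_units_conj, Matrix.charpoly_diagonal,
      Polynomial.separable_prod_X_sub_C_iff]
    exact hτ
  · intro h w
    apply hφ
    set M := Polynomial.aeval Θ h with hM
    have hM1 : M.map φ = Polynomial.aeval (Θ.map φ) (h.map φ) := by
      have h1 := Polynomial.map_aeval_eq_aeval_map (φ := φ) (ψ := φ.mapMatrix) (by
        ext a i j
        simp [Matrix.algebraMap_matrix_apply, apply_ite φ]) h Θ
      exact h1
    have hM2 : L * M.map φ =
        Matrix.diagonal (fun i => (h.map φ).eval (τ i)) * L := by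
      rw [hM1]
      exact SIM_aev L (Θ.map φ) τ hΘ (h.map φ)
    have hM3 : (M.map φ).det = ∏ i, (h.map φ).eval (τ i) := by
      have h1 := congrArg Matrix.det hM2
      rw [Matrix.det_mul, Matrix.det_mul, Matrix.det_diagonal, mul_comm] at h1
      exact mul_right_cancel₀ hdet h1
    have hev : ∀ x : Fin D → 𝓞 K, φ (ev g x) = ∏ i, L.mulVec (fun j => φ (x j)) i := by
      intro x
      rw [← ev_map φ]
      exact hl _
    have hmv : (fun j => φ (M.mulVec w j)) = (M.map φ).mulVec fun j => φ (w j) := by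
      funext j
      exact RingHom.map_mulVec φ M w j
    rw [map_mul, hev, hev, hmv, Matrix.mulVec_mulVec, hM2, ← Matrix.mulVec_mulVec]
    have hdd : φ M.det = (M.map φ).det := RingHom.map_det φ M
    rw [hdd, hM3, ← Finset.prod_mul_distrib]
    refine Finset.prod_congr rfl fun i _ => ?_
    rw [Matrix.mulVec_diagonal]

end Pool.Agent.NRN
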