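import Pool.Agent.NRN.StS

/-!
NRN, module SIZ: sizes of the parameters.
-/

set_option autoImplicit false

namespace Pool.Agent.NRN

open scoped BigOperators
open Classical NumberField IsDedekindDomain
open Pool.Agent.RHK Pool.Agent.RHC Pool.Agent.NRM

theorem SIZ_XC (c t : ℕ) : XC 2 c t = t ^ (c + 1) := by
  unfold XC
  norm_num

section

variable {K : Type} [Field K] [NumberField K]

theorem SIZ_vs {c t : ℕ} {x : Fin 2 → 𝓞 K} (hx : x ∈ CG K 2 c t) (v : InfinitePlace K) :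
    vs v x ≤ (XC 2 c t : ℝ) := by
  unfold CG at hx
  exact (mem_bx (Nat.cast_nonneg _)).1 (Finset.mem_filter.1 hx).1 v

theorem SIZ_wv {c t : ℕ} {x y : Fin 2 → 𝓞 K} (hx : x ∈ CG K 2 c t) (hy : y ∈ CG K 2 c t)
    (v : InfinitePlace K) : wv v x y ≤ 2 * (XC 2 c t : ℝ) ^ 2 := by
  refine (wv_le_mul v x y).trans ?_
  have := mul_le_mul (SIZ_vs hx v) (SIZ_vs hy v) (vs_nonneg v y) (Nat.cast_nonneg _)
  rw [sq]
  linarith

theorem SIZ_wp {c t : ℕ} {x y : Fin 2 → 𝓞 K} (hx : x ∈ CG K 2 c t) (hy : y ∈ CG K 2 c t) :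
    wp x y ≤ (2 * (XC 2 c t : ℝ) ^ 2) ^ dg K := by
  rw [← prod_pow_mult (K := K)]
  exact Finset.prod_le_prod (fun v _ => pow_nonneg (wv_nonneg v x y) _) fun v _ =>
    pow_le_pow_left₀ (wv_nonneg v x y) (SIZ_wv hx hy v) _

theorem SIZ_low {c t : ℕ} (ht : 1 ≤ t) {x y : Fin 2 → 𝓞 K} (hx : x ∈ CG K 2 c t)
    (hy : y ∈ CG K 2 c t) (h1 : 1 ≤ wp x y) (u : InfinitePlace K) :
    1 ≤ wv u x y * (2 * (XC 2 c t : ℝ) ^ 2) ^ dg K := by
  have hX : (1 : ℝ) ≤ XC 2 c t := by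
    rw [SIZ_XC]
    exact_mod_cast Nat.one_le_pow _ _ ht
  have hB : (1 : ℝ) ≤ 2 * (XC 2 c t : ℝ) ^ 2 := by nlinarith
  refine h1.trans ?_
  rw [← prod_pow_mult (K := K)]
  unfold wp
  rw [← Finset.mul_prod_erase _ _ (Finset.mem_univ u),
    ← Finset.mul_prod_erase _ _ (Finset.mem_univ u), ← mul_assoc]
  refine mul_le_mul ?_ (Finset.prod_le_prod (fun v _ => pow_nonneg (wv_nonneg v x y) _) fun v _ =>
    pow_le_pow_left₀ (wv_nonneg v x y) (SIZ_wv hx hy v) _)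
    (Finset.prod_nonneg fun v _ => pow_nonneg (wv_nonneg v x y) _)
    (mul_nonneg (wv_nonneg u x y) (by positivity))
  obtain ⟨j, hj⟩ := Nat.exists_eq_succ_of_ne_zero u.mult_ne_zero
  rw [hj, pow_succ' (wv u x y)]
  refine mul_le_mul_of_nonneg_left ?_ (wv_nonneg u x y)
  exact (pow_le_pow_left₀ (wv_nonneg u x y) (SIZ_wv hx hy u) _).trans
    (pow_le_pow_right₀ hB (Nat.le_succ j))

end

theorem thm_SIZ (h1 : St_DTB) : St_SIZ := by
  intro K _ _ D m c v hD hm hv A κ W hκ hW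
  set ρ := dg K with hρ
  obtain ⟨t1, ht1⟩ := exists_nat_ge (|A| * 4 ^ ρ)
  refine ⟨1 + t1 + 2 ^ ρ * κ * W, fun t ht V H hCR x hx y hy hpar => ?_⟩
  obtain ⟨-, -, -, hwn, hwp⟩ := h1 K x y
  have hwp1 := hwp hpar
  have ht0 : 1 ≤ t := by omega
  obtain ⟨hV1, hV2, hV3, hV4⟩ := hCR
  have hX : XC 2 c t = t ^ (c + 1) := SIZ_XC c t
  have hX1 : 1 ≤ XC 2 c t := by
    rw [hX]
    exact Nat.one_le_pow _ _ ht0
  have htX : t ≤ XC 2 c t := by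
    rw [hX]
    exact Nat.le_self_pow (by omega) t
  have hXV : XC 2 c t ^ (8 * ρ + 8) ≤ V := by
    refine le_trans ?_ hV1
    rw [hX, ← pow_mul]
    exact Nat.pow_le_pow_right ht0 (by rw [mul_comm]; exact hv)
  have hVpos : 1 ≤ V := le_trans (Nat.one_le_pow _ _ hX1) hXV
  have hVQ : V ≤ QN 2 m c t V := by
    unfold QN
    exact Nat.le_mul_of_pos_left _ (Nat.one_le_pow _ _ hX1)
  have hVH : V ≤ H := le_trans (Nat.le_self_pow (by omega) V) hV3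
  have hQ1 : 1 ≤ QN 2 m c t V := hVpos.trans hVQ
  have hwpX := SIZ_wp hx hy
  rw [← hρ] at hwpX
  set X : ℕ := XC 2 c t with hXdef
  have hX1r : (1 : ℝ) ≤ X := by exact_mod_cast hX1
  have htXr : (t : ℝ) ≤ X := by exact_mod_cast htX
  have ht0r : (1 : ℝ) ≤ t := by exact_mod_cast ht0
  have hXQ : (X : ℝ) ^ (8 * ρ + 8) ≤ QN 2 m c t V := by exact_mod_cast hXV.trans hVQ
  have hA : |A| * 4 ^ ρ ≤ t := by
    refine ht1.trans ?_
    have : t1 ≤ t := by omega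
    exact_mod_cast this
  have h24 : (2 : ℝ) ^ ρ ≤ 4 ^ ρ := pow_le_pow_left₀ (by norm_num) (by norm_num) _
  have h20 : (0 : ℝ) < 2 ^ ρ := by positivity
  have hwnX : (wn x y : ℝ) ≤ 2 ^ ρ * (X : ℝ) ^ (2 * ρ) := by
    rw [hwn]
    refine hwpX.trans (le_of_eq ?_)
    rw [mul_pow, ← pow_mul]
  have hpowle : ∀ a : ℕ, a ≤ 8 * ρ + 8 → (X : ℝ) ^ a ≤ QN 2 m c t V := fun a ha =>
    (pow_le_pow_right₀ hX1r ha).trans hXQ
  have hwn0 : (0 : ℝ) ≤ wn x y := Nat.cast_nonneg _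
  have hA0 : 0 ≤ |A| := abs_nonneg A
  have hd : (wn x y : ℝ) * t ≤ ((ThC 2 c t H κ (D * m) / W : ℕ) : ℝ) := by
    have hκW : 0 < κ * W := Nat.mul_pos hκ hW
    have e1 : wn x y * t ≤ ThC 2 c t H κ (D * m) / W := by
      unfold ThC
      rw [Nat.div_div_eq_div_mul, Nat.le_div_iff_mul_le hκW]
      have e2 : wn x y ≤ 2 ^ ρ * X ^ (2 * ρ) := by exact_mod_cast hwnX
      have e3 : 2 ^ ρ * κ * W ≤ X := le_trans (by omega) htX
      calc wn x y * t * (κ * W) ≤ (2 ^ ρ * X ^ (2 * ρ)) * X * (κ * W) :=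
            Nat.mul_le_mul_right _ (Nat.mul_le_mul e2 htX)
        _ = X ^ (2 * ρ) * X * (2 ^ ρ * κ * W) := by ring
        _ ≤ X ^ (2 * ρ) * X * X := Nat.mul_le_mul_left _ e3
        _ = X ^ (2 * ρ + 2) := by ring
        _ ≤ X ^ (8 * ρ + 8) := Nat.pow_le_pow_right hX1 (by omega)
        _ ≤ H := hXV.trans hVH
        _ ≤ H * X ^ (D * m) := Nat.le_mul_of_pos_right _ (Nat.one_le_pow _ _ hX1)
    exact_mod_cast e1
  refine ⟨ht0, hQ1, ?_, fun u => ?_, hd, ?_, ?_⟩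
  · calc A * t * wn x y * (((X : ℝ) ^ 2) ^ ρ) ^ 2
        ≤ |A| * t * wn x y * (((X : ℝ) ^ 2) ^ ρ) ^ 2 := by
          have := le_abs_self A
          gcongr
      _ ≤ |A| * t * (2 ^ ρ * (X : ℝ) ^ (2 * ρ)) * (((X : ℝ) ^ 2) ^ ρ) ^ 2 := by
          gcongr
      _ = (|A| * 2 ^ ρ) * t * ((X : ℝ) ^ (2 * ρ) * (((X : ℝ) ^ 2) ^ ρ) ^ 2) := by ring
      _ ≤ X * X * ((X : ℝ) ^ (2 * ρ) * (((X : ℝ) ^ 2) ^ ρ) ^ 2) := by
          have : |A| * 2 ^ ρ ≤ X :=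
            (mul_le_mul_of_nonneg_left h24 hA0).trans (hA.trans htXr)
          gcongr
      _ = (X : ℝ) ^ (6 * ρ + 2) := by
          rw [← pow_mul, ← pow_mul, ← pow_add, ← sq, ← pow_add]
          congr 1
          ring
      _ ≤ QN 2 m c t V := hpowle _ (by omega)
  · have e1 := SIZ_low ht0 hx hy hwp1 u
    rw [← hρ, ← hXdef, mul_pow, ← pow_mul] at e1
    have hw0 := wv_nonneg u x y
    calc A * wn x y * (X : ℝ) ^ 2 ≤ |A| * wn x y * (X : ℝ) ^ 2 := by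
          have := le_abs_self A
          gcongr
      _ ≤ |A| * (2 ^ ρ * (X : ℝ) ^ (2 * ρ)) * (X : ℝ) ^ 2 := by gcongr
      _ = |A| * (2 ^ ρ * (X : ℝ) ^ (2 * ρ)) * (X : ℝ) ^ 2 * 1 := (mul_one _).symm
      _ ≤ |A| * (2 ^ ρ * (X : ℝ) ^ (2 * ρ)) * (X : ℝ) ^ 2 *
          (wv u x y * (2 ^ ρ * (X : ℝ) ^ (2 * ρ))) := by gcongr
      _ = (|A| * 4 ^ ρ) * (X : ℝ) ^ (4 * ρ + 2) * wv u x y := by
          rw [show (4 : ℝ) = 2 * 2 by norm_num, mul_pow,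
            show 4 * ρ + 2 = 2 * ρ + 2 * ρ + 2 by ring, pow_add, pow_add]
          ring
      _ ≤ X * (X : ℝ) ^ (4 * ρ + 2) * wv u x y := by
          have := hA.trans htXr
          gcongr
      _ = (X : ℝ) ^ (4 * ρ + 3) * wv u x y := by ring
      _ ≤ QN 2 m c t V * wv u x y := by
          have := hpowle (4 * ρ + 3) (by omega)
          gcongr
  · have e1 : (wn x y : ℝ) ≤ ((ThC 2 c t H κ (D * m) / W : ℕ) : ℝ) :=
      le_trans (le_mul_of_one_le_right hwn0 ht0r) hd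
    exact_mod_cast e1
  · have e1 : (X : ℝ) ^ 2 ≤ QN 2 m c t V := hpowle 2 (by omega)
    have e2 : ((X : ℝ) ^ 2) ^ ρ ≤ (QN 2 m c t V : ℝ) ^ ρ := pow_le_pow_left₀ (by positivity) e1 _
    exact e2.trans (le_mul_of_one_le_left (by positivity) hwp1)

end Pool.Agent.NRN
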