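import Pool.Agent.NRN.StL
import Pool.Agent.RHCB.SIGLOWC

/-!
NRN: copy with two or more variables x of the following module.
NRM, module SIGLOWN: the local densities of the points in a residue class are seldom small, uniformly in the
class (helper21; port of `RHCW/SIGLOWCW.lean`).
-/

set_option autoImplicit false

namespace Pool.Agent.NRN

open scoped BigOperators
open Classical NumberField IsDedekindDomain
open Pool.Agent.RHP (Mon mono ev Sys Prim pd WB WW)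
open Pool.Agent.RHK Pool.Agent.RHC Pool.Agent.NRM
open Pool.Agent.RHKB (mI hh jj qv MK uu BadK)
open Pool.Agent.RHCB (BadC cred cemb uk PrC hM f00 SIGLOWC_frac SIGLOWC_finite)
open Pool.Agent.RHCW (cmk)

/-- multiplication of a form by a constant -/
theorem SIGLOWN_bad {K : Type} [Field K] {L : Type} [NormedField L] [Algebra K L] {s d : ℕ}
    (b : L) (hb : b ≠ 0) (τ : ℝ) (f : Mon s d → 𝓞 K)
    (h : BadC (‖b‖ * τ) (cemb b f)) : BadC τ (cemb (1 : L) f) := by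
  have hb0 : 0 < ‖b‖ := norm_pos_iff.2 hb
  have hf : cemb b f = fun μ => b * cemb (1 : L) f μ := by
    funext μ
    unfold cemb
    rw [one_mul]
  obtain ⟨z, lam, hz, hlam, h1, h2⟩ := h
  refine ⟨z, lam, hz, hlam, fun i => ?_, fun t => ?_⟩
  · have h3 : ‖ev (cemb b f) z‖ < ‖b‖ * τ := h1 i
    rw [hf, Pool.Agent.RHP.ev_smul, norm_mul] at h3
    exact lt_of_mul_lt_mul_left h3 hb0.le
  · have h3 : ‖∑ i : Fin 1, lam i * pd t (cemb b f) z‖ < ‖b‖ * τ := h2 t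
    have h4 : ∑ i : Fin 1, lam i * pd t (cemb b f) z =
        b * ∑ i : Fin 1, lam i * pd t (cemb (1 : L) f) z := by
      rw [hf, Finset.mul_sum]
      refine Finset.sum_congr rfl fun i _ => ?_
      rw [Pool.Agent.RHP.pd_smul]
      ring
    rw [h4, norm_mul] at h3
    exact lt_of_mul_lt_mul_left h3 hb0.le

/-- the lower bound at one finite place -/
theorem SIGLOWN_place (hU : St_UIFTN) (hP : St_PCNN) (hV : Pool.Agent.RHKB.St_PLV) {K : Type}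
    [Field K] [NumberField K] (s r D m : ℕ) (hD : 2 ≤ D) (hm : 1 ≤ m) (g : Mon r D → 𝓞 K)
    (v : HeightOneSpectrum (𝓞 K)) (b q : ℕ) (hb : 0 < b) (hq : 0 < q) (τ : ℝ) (hτ : 0 < τ) :
    ∃ c : ℝ, 0 < c ∧ ∀ (ρ₀ : Fin s → 𝓞 K) (ω₀ : Fin r → 𝓞 K) (f : Mon s (D * m) → 𝓞 K),
      LocZN v b q g ρ₀ ω₀ f → ¬ BadC τ (cemb (1 : v.adicCompletion K) f) →
        ∀ j : ℕ, c ≤ wsigN b q (cred (v.asIdeal ^ j) g) (cmk (v.asIdeal ^ j) ρ₀)
          (cmk (v.asIdeal ^ j) ω₀) (cred (v.asIdeal ^ j) f) := by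
  obtain ⟨hprop, hq1, hnt, hultra, hint, happ, hval⟩ := hV K v
  have hcast : ∀ n : ℕ, 0 < n → (n : v.adicCompletion K) ≠ 0 := by
    intro n hn
    have h1 : ((n : ℕ) : K) ≠ 0 := Nat.cast_ne_zero.2 (by omega)
    have h2 : algebraMap K (v.adicCompletion K) ((n : ℕ) : K) = ((n : ℕ) : v.adicCompletion K) :=
      map_natCast _ _
    rw [← h2]
    exact (map_ne_zero _).2 h1
  have hle : ∀ a : 𝓞 K, ‖jj (v.adicCompletion K) a‖ ≤ 1 := by
    intro a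
    have h4 := (hint a 0).2 (by rw [pow_zero, Ideal.one_eq_top]; exact Submodule.mem_top)
    rwa [pow_zero, inv_one] at h4
  have hb1 : ‖(b : v.adicCompletion K)‖ ≤ 1 := by
    have h1 := hle (b : 𝓞 K)
    have h2 : jj (v.adicCompletion K) (b : 𝓞 K) = (b : v.adicCompletion K) := map_natCast _ b
    rwa [h2] at h1
  have hb0 : 0 < ‖(b : v.adicCompletion K)‖ := norm_pos_iff.2 (hcast b hb)
  have hq0 : (0 : ℝ) < ‖(q : v.adicCompletion K)‖ := norm_pos_iff.2 (hcast q hq)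
  obtain ⟨δ, hδ, h1⟩ := hU (v.adicCompletion K) hnt s r D m (by omega) hm (hcast D (by omega))
    (gL (v.adicCompletion K) g) 1 one_ne_zero 1 1 (‖(b : v.adicCompletion K)‖ * τ)
    (‖(q : v.adicCompletion K)‖ / 2) (mul_pos hb0 hτ) (by linarith)
  obtain ⟨c, hc, h2⟩ := hP K v q hq s r D (D * m) δ hδ
  refine ⟨c, hc, fun ρ₀ ω₀ f hz hbad j => ?_⟩
  obtain ⟨z, hz1, hz2, ⟨hz3, hz4⟩, hz5⟩ := hz
  refine h2 b g ρ₀ ω₀ f z hz1 hz2 hz3 hz4
    (h1 (cemb (b : v.adicCompletion K) f) (fun μ => ?_)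
      (fun h => hbad (SIGLOWN_bad _ (hcast b hb) τ f h)) z ?_ ?_ hz5) j
  · rw [Nat.cast_one]
    unfold cemb
    rw [norm_mul]
    exact mul_le_one₀ hb1 (norm_nonneg _) (hle _)
  · rw [hz1, norm_one]
  · intro j
    rw [Nat.cast_one]
    exact hz2 j

theorem SIGLOWN_p0 (C C1 C2 ε : ℝ) (hε : 0 < ε) (M : ℕ) (hM : 1 ≤ M) :
    ∃ p00 : ℕ, ∀ p0 ≥ p00, 1 ≤ p0 ∧
      2 * (C * (C1 / (p0 : ℝ) + C2 * (p0 : ℝ) ^ (-(1 : ℝ) / (M : ℝ)))) ≤ ε := by
  have hM0 : (0 : ℝ) < 1 / (M : ℝ) := by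
    have : (0 : ℝ) < (M : ℝ) := by exact_mod_cast (show 0 < M by omega)
    positivity
  have h1 : Filter.Tendsto (fun n : ℕ => C1 / (n : ℝ)) Filter.atTop (nhds 0) :=
    tendsto_const_div_atTop_nhds_zero_nat C1
  have h2 : Filter.Tendsto (fun n : ℕ => (n : ℝ) ^ (-(1 : ℝ) / (M : ℝ))) Filter.atTop (nhds 0) := by
    have h3 := (tendsto_rpow_neg_atTop hM0).comp (tendsto_natCast_atTop_atTop (R := ℝ))
    rw [show (-(1 : ℝ) / (M : ℝ)) = -(1 / (M : ℝ)) from neg_div _ _]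
    exact h3
  have h3 : Filter.Tendsto (fun n : ℕ => 2 * (C * (C1 / (n : ℝ) +
      C2 * (n : ℝ) ^ (-(1 : ℝ) / (M : ℝ))))) Filter.atTop (nhds (2 * (C * (0 + C2 * 0)))) :=
    ((h1.add (h2.const_mul C2)).const_mul C).const_mul 2
  rw [mul_zero, add_zero, mul_zero, mul_zero] at h3
  obtain ⟨p00, hp⟩ := Filter.eventually_atTop.1
    ((h3.eventually_lt_const hε).and (Filter.eventually_ge_atTop 1))
  exact ⟨p00, fun p0 hp0 => ⟨(hp p0 hp0).2, (hp p0 hp0).1.le⟩⟩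

theorem thm_SL1 (hA : St_WABN) (hB : Pool.Agent.RHCB.St_BADC)
    (hU : St_UIFTN) (hP : St_PCNN) (hE : Pool.Agent.RHCB.St_EQUC)
    (hV : Pool.Agent.RHKB.St_PLV) : St_SL1 := by
  intro K _ _ s r D m hyp g hg hSG ε hε
  have hs3 := hyp.hs
  have hD2 := hyp.hD
  have hm1 := hyp.hm
  have hDm : 1 ≤ D * m := Nat.mul_pos (by omega) hm1
  obtain ⟨p00, hp00⟩ := hSG (ε / 4) (by positivity)
  refine ⟨p00, fun p0 hp0' b q hb hq hbp hqp => ?_⟩
  obtain ⟨S, hS1, hS2⟩ := hA K p0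
  obtain ⟨ε', hε', hεS⟩ : ∃ ε' : ℝ, 0 < ε' ∧ (S.card : ℝ) * ε' ≤ ε / 2 := by
    refine ⟨ε / (2 * ((S.card : ℝ) + 1)), by positivity, ?_⟩
    rw [mul_div_assoc', div_le_div_iff₀ (by positivity) (by norm_num)]
    have : (0 : ℝ) ≤ (S.card : ℝ) := Nat.cast_nonneg _
    nlinarith
  choose τ hτ Hv hHv using (hB K s (D * m) (by omega) hDm ε' hε').1
  choose c hc hcF using fun v => SIGLOWN_place hU hP hV s r D m hD2 hm1 g v b q hb hq (τ v) (hτ v)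
  refine ⟨(∏ v ∈ S, c v) * (1 / 2), by
    have : 0 < ∏ v ∈ S, c v := Finset.prod_pos fun v _ => hc v
    positivity, p0, fun m0 hm0 => ?_⟩
  obtain ⟨hWB0, hWBp, n, hWBs⟩ := hS2 m0 hm0
  have hWBs' := hWBs q hq hqp s r D (D * m) b g
  have hcop : b.Coprime (WB p0 m0) := by
    refine Nat.Coprime.symm (Nat.coprime_of_dvd fun p hp h1 h2 => ?_)
    exact absurd (hbp p hp h2) (not_le.2 (hWBp p hp h1))
  obtain ⟨H1, hH1⟩ := hE K s (D * m) (Ideal.span {(WB p0 m0 : 𝓞 K)}) (by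
    rw [Ne, Ideal.span_singleton_eq_bot]
    exact_mod_cast hWB0.ne')
  refine ⟨max H1 (S.sup Hv), fun H hHH => ?_⟩
  have hHH1 : H1 ≤ H := (le_max_left _ _).trans hHH
  have hHHv : ∀ v ∈ S, Hv v ≤ H := fun v hv =>
    (Finset.le_sup hv).trans ((le_max_right _ _).trans hHH)
  have hfin := SIGLOWC_finite (K := K) (WB p0 m0) hWB0
  -- the bad forms
  obtain ⟨B1, hB1⟩ : ∃ B1 : HeightOneSpectrum (𝓞 K) → Finset (Mon s (D * m) → 𝓞 K), B1 = fun v =>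
    (box K s (D * m) H).filter fun f => BadC (τ v) (cemb (1 : v.adicCompletion K) f) := ⟨_, rfl⟩
  obtain ⟨B2, hB2⟩ : ∃ B2 : Finset (Mon s (D * m) → 𝓞 K), B2 = (box K s (D * m) H).filter fun f =>
    sigN b (cred (Ideal.span {(WB p0 m0 : 𝓞 K)}) g)
      (cred (Ideal.span {(WB p0 m0 : 𝓞 K)}) f) < 1 / 2 := ⟨_, rfl⟩
  have h1 : (B2.card : ℝ) ≤ ε / 2 * ((box K s (D * m) H).card : ℝ) := by
    have h2 := SIGLOWC_frac (Ideal.span {(WB p0 m0 : 𝓞 K)}) hfin H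
      (fun G : Mon s (D * m) → 𝓞 K ⧸ Ideal.span {(WB p0 m0 : 𝓞 K)} =>
        sigN b (cred (Ideal.span {(WB p0 m0 : 𝓞 K)}) g) G < 1 / 2)
      (hH1 H hHH1 _) (ε / 4) (hp00 p0 hp0' (WB p0 m0) b hWB0 hcop hWBp)
    rw [hB2]
    refine h2.trans (le_of_eq ?_)
    ring
  have h2 : ∀ v ∈ S, ((B1 v).card : ℝ) ≤ ε' * ((box K s (D * m) H).card : ℝ) := by
    intro v hv
    rw [hB1]
    exact hHv v H (hHHv v hv)
  obtain ⟨BB, hBB⟩ : ∃ BB : Finset (Mon s (D * m) → 𝓞 K), BB = (box K s (D * m) H).filter fun f =>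
      ∃ (ρ₀ : Fin s → 𝓞 K) (ω₀ : Fin r → 𝓞 K), (∀ v, LowP p0 v → LocZN v b q g ρ₀ ω₀ f) ∧
        wsigN b q (cred (Ideal.span {(WW m0 : 𝓞 K)}) g) (cmk (Ideal.span {(WW m0 : 𝓞 K)}) ρ₀)
          (cmk (Ideal.span {(WW m0 : 𝓞 K)}) ω₀) (cred (Ideal.span {(WW m0 : 𝓞 K)}) f) <
          (∏ v ∈ S, c v) * (1 / 2) := ⟨_, rfl⟩
  have hsub : BB ⊆ S.biUnion B1 ∪ B2 := by
    intro F hF
    rw [hBB, Finset.mem_filter] at hF
    obtain ⟨hF1, ρ₀, ω₀, hF2, hF3⟩ := hF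
    by_contra hcon
    rw [Finset.mem_union, not_or, Finset.mem_biUnion] at hcon
    obtain ⟨hc1, hc2⟩ := hcon
    have h3 : (1 : ℝ) / 2 ≤ sigN b (cred (Ideal.span {(WB p0 m0 : 𝓞 K)}) g)
        (cred (Ideal.span {(WB p0 m0 : 𝓞 K)}) F) := by
      by_contra h4
      apply hc2
      rw [hB2, Finset.mem_filter]
      exact ⟨hF1, not_le.1 h4⟩
    have h4 : ∏ v ∈ S, c v ≤ ∏ v ∈ S, wsigN b q (cred (v.asIdeal ^ n v) g)
        (cmk (v.asIdeal ^ n v) ρ₀) (cmk (v.asIdeal ^ n v) ω₀) (cred (v.asIdeal ^ n v) F) := by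
      refine Finset.prod_le_prod (fun v _ => (hc v).le) fun v hv => ?_
      apply hcF v ρ₀ ω₀ F (hF2 v (hS1 v hv))
      intro h5
      apply hc1
      refine ⟨v, hv, ?_⟩
      rw [hB1]
      exact Finset.mem_filter.2 ⟨hF1, h5⟩
    have h5 : 0 ≤ ∏ v ∈ S, c v := Finset.prod_nonneg fun v _ => (hc v).le
    rw [hWBs' ρ₀ ω₀ F] at hF3
    exact absurd hF3 (not_lt.2 (mul_le_mul h4 h3 (by norm_num) (h5.trans h4)))
  rw [← hBB]
  have h3 : (BB.card : ℝ) ≤ ∑ v ∈ S, ((B1 v).card : ℝ) + (B2.card : ℝ) := by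
    have h4 := (Finset.card_le_card hsub).trans ((Finset.card_union_le _ _).trans
      (Nat.add_le_add_right Finset.card_biUnion_le _))
    exact_mod_cast h4
  have h4 := Finset.sum_le_sum h2
  rw [Finset.sum_const, nsmul_eq_mul] at h4
  have h6 : (S.card : ℝ) * (ε' * ((box K s (D * m) H).card : ℝ)) ≤
      ε / 2 * ((box K s (D * m) H).card : ℝ) := by
    rw [← mul_assoc]
    exact mul_le_mul_of_nonneg_right hεS (Nat.cast_nonneg _)
  linarith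

end Pool.Agent.NRN
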