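import Pool.Agent.NRN.StS
import Pool.Agent.RHC.CSM
import Pool.Agent.RHC.ABSC
import Pool.Agent.RHC.PHI
import Pool.Agent.RHC.TSC
import Pool.Agent.RHM.PBC
import Pool.Agent.RHK.IDU
import Pool.Agent.RHK.DVN
import Pool.Agent.RHK.CELL

/-!
NRN [SM1]: the second moment for two variables `x` (assembly of block S).
-/

set_option autoImplicit false

namespace Pool.Agent.NRN

open scoped BigOperators
open Classical NumberField IsDedekindDomain
open Pool.Agent.RHP (Mon mono ev Prim)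
open Pool.Agent.RHK Pool.Agent.RHC Pool.Agent.NRM

/-- sums over filtered products -/
theorem SM1_prod {G : Type} (S : Finset G) (φ : G → G → Prop)
    [DecidablePred fun p : G × G => φ p.1 p.2] [∀ x, DecidablePred fun y => φ x y]
    (f : G → G → ℝ) :
    ∑ p ∈ (S ×ˢ S).filter (fun p => φ p.1 p.2), f p.1 p.2 =
      ∑ x ∈ S, ∑ y ∈ S.filter (fun y => φ x y), f x y := by
  rw [Finset.sum_filter, Finset.sum_product]
  exact Finset.sum_congr rfl fun x _ => (Finset.sum_filter _ _).symm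

/-- exchange of sums -/
theorem SM1_exch {Ω Q : Type} (S : Finset Ω) (B : Finset Q) (Φ : Ω → ℝ) (u v : Q → Ω → ℝ) :
    ∑ F ∈ S, Φ F * ((∑ w ∈ B, u w F) * ∑ w ∈ B, v w F) =
      ∑ q ∈ B ×ˢ B, ∑ F ∈ S, Φ F * (u q.1 F * v q.2 F) := by
  rw [Finset.sum_comm]
  refine Finset.sum_congr rfl fun F _ => ?_
  rw [Finset.sum_mul_sum, ← Finset.sum_product', Finset.mul_sum]

theorem SM1_gI {K : Type} [Field K] [NumberField K] {x y : Fin 2 → 𝓞 K} (h : ¬ Par x y) :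
    gI x y ≠ ⊥ := by
  intro h0
  apply h
  intro p
  have h1 : mn x y p ∈ gI x y := Ideal.subset_span ⟨p, rfl⟩
  rw [h0] at h1
  exact (Ideal.mem_bot).1 h1

theorem thm_SM1 (h1 : St_TYS) (h2 : St_ATS) (h3 : St_CP1) (h4 : St_PS1) (h5 : St_PS2)
    (h6 : St_DLX) (h7 : St_DTB) (h8 : St_GBA) : St_SM1 := by
  intro K _ _ D m r c v hD hm hc hv1 hv2 C0 ε hC0 hε
  obtain ⟨C1, hC1, h1'⟩ := h1 K D m hD hm
  obtain ⟨C2, hC2, h2'⟩ := h2 K D m hD hm
  obtain ⟨C3, hC3, h3'⟩ := h3 K 2 D m ⟨le_rfl, hD, hm⟩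
  obtain ⟨C4, hC4, h4a, h4b⟩ := h4 K D hD C0 hC0
  obtain ⟨C5, hC5, h5'⟩ := h5 K D hD C0 hC0
  obtain ⟨C7, hC7, h7a⟩ := RHM.thm_PBC (thm_IDU thm_DVN thm_CELL) K 2
  obtain ⟨m1, hm1, hm1'⟩ := CSM_rp D (by omega) (C2 * C0 ^ 2 * C5 * C7) (ε / 8) (by positivity)
  have hC0' : 0 < C0 := by linarith
  obtain ⟨D2, hD2⟩ : ∃ D2 : ℝ, D2 = C1 * C0 ^ 2 * (m1 : ℝ) ^ dg K := ⟨_, rfl⟩
  have hD20 : 0 ≤ D2 := by rw [hD2]; positivity
  have hD10 : 0 ≤ D2 * C7 := by positivity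
  obtain ⟨k', hk'⟩ := exists_nat_ge (max 1 (D2 * C7 * C4 * 16 / ε))
  have hk1R : (1 : ℝ) ≤ k' := (le_max_left _ _).trans hk'
  have hk1 : 1 ≤ k' := by exact_mod_cast hk1R
  have hk2 : D2 * C7 * C4 / k' ≤ ε / 16 := by
    have e1 : D2 * C7 * C4 * 16 / ε ≤ k' := (le_max_right _ _).trans hk'
    rw [div_le_iff₀ hε] at e1
    rw [div_le_iff₀ (by linarith)]
    linarith
  obtain ⟨ε', hε'⟩ : ∃ ε' : ℝ, ε' = ε / (16 * (D2 * C7 + 1)) := ⟨_, rfl⟩
  have hε'0 : 0 < ε' := by rw [hε']; positivity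
  have hε'1 : D2 * C7 * ε' ≤ ε / 16 := by
    rw [hε', ← mul_div_assoc, div_le_div_iff₀ (by positivity) (by norm_num)]
    nlinarith
  obtain ⟨m0, h4c⟩ := h4b ε' hε'0
  obtain ⟨κ, hκ, h1W⟩ := h1' r c v k' m1 C0 hv1 hv2 hk1 hm1 hC0
  refine ⟨κ, m0, hκ, fun W hW hWd => ?_⟩
  obtain ⟨t1, h1t⟩ := h1W W hW
  obtain ⟨t2, h2t⟩ := h2' r c v κ W C0 hv1 hv2 hκ hW hC0
  obtain ⟨t3, h3t⟩ := h3' c v κ W hv1 hκ hW
  obtain ⟨t6, ht6⟩ := exists_nat_ge (max 1 (max (D2 * C7 * (C4 + C7) * 16 / ε)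
    (C3 * C0 ^ 2 * 8 / ε)))
  refine ⟨t1 + t2 + t3 + t6, fun t ht V H hR B a hF P => ?_⟩
  have ht6' : (t6 : ℝ) ≤ t := by
    have : t6 ≤ t := by omega
    exact_mod_cast this
  have htR : (1 : ℝ) ≤ t := ((le_max_left _ _).trans ht6).trans ht6'
  have ht1 : 1 ≤ t := by exact_mod_cast htR
  have ht0 : (0 : ℝ) < t := by linarith
  have htε1 : D2 * C7 * (C4 + C7) / t ≤ ε / 16 := by
    have e1 : D2 * C7 * (C4 + C7) * 16 / ε ≤ t :=
      (((le_max_left _ _).trans (le_max_right _ _)).trans ht6).trans ht6'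
    rw [div_le_iff₀ hε] at e1
    rw [div_le_iff₀ ht0]
    linarith
  have htε2 : C3 * C0 ^ 2 / t ≤ ε / 8 := by
    have e1 : C3 * C0 ^ 2 * 8 / ε ≤ t :=
      (((le_max_right _ _).trans (le_max_right _ _)).trans ht6).trans ht6'
    rw [div_le_iff₀ hε] at e1
    rw [div_le_iff₀ ht0]
    linarith
  have h1t' := h1t t (by omega) V H hR B a hF
  have h2t' := h2t t (by omega) V H hR B a hF
  have h3t' := h3t t (by omega) V H hR r (Fin r → 𝓞 K) B a C0 hC0 hF.card hF.diag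
  clear h1t h2t h3t h1' h2' h3' h1W
  have hV1 : 1 ≤ V := le_trans (Nat.one_le_pow _ _ ht1) hR.1
  have hH1 : 1 ≤ H := le_trans (Nat.one_le_pow _ _ hV1) hR.2.2.1
  have hX1 : 1 ≤ XC 2 c t := Nat.one_le_pow _ _ ht1
  have hU1 : 1 ≤ QN 2 m c t V := by
    unfold QN
    exact Nat.mul_pos (Nat.one_le_pow _ _ hX1) hV1
  obtain ⟨hP1, hP2, -, -⟩ := thm_PHI K 2 (D * m) H hH1
  have hTS := (thm_TSC K (ThC 2 c t H κ (D * m)) W hW).1
  obtain ⟨E, hE⟩ : ∃ E : ℝ, E = EN (dg K) 2 D m r c t V H := ⟨_, rfl⟩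
  obtain ⟨Q, hQ⟩ : ∃ Q : ℝ, Q = ((H : ℝ) * (XC 2 c t : ℝ) ^ (D * m)) ^ dg K := ⟨_, rfl⟩
  obtain ⟨Xs, hXs⟩ : ∃ Xs : ℝ, Xs = ((XC 2 c t : ℝ) ^ 2) ^ dg K := ⟨_, rfl⟩
  obtain ⟨Ur, hUr⟩ : ∃ Ur : ℝ, Ur = ((QN 2 m c t V : ℝ) ^ r) ^ dg K := ⟨_, rfl⟩
  obtain ⟨Bx, hBx⟩ : ∃ Bx : ℝ, Bx = ((box K 2 (D * m) H).card : ℝ) := ⟨_, rfl⟩
  have hBx0 : 0 ≤ Bx := by rw [hBx]; exact Nat.cast_nonneg _
  have hHR : (0 : ℝ) < H := by exact_mod_cast hH1
  have hXR : (0 : ℝ) < XC 2 c t := by exact_mod_cast hX1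
  have hQR : (0 : ℝ) < QN 2 m c t V := by exact_mod_cast hU1
  have hQ0 : 0 < Q := by rw [hQ]; positivity
  have hE0 : 0 < E := by rw [hE]; unfold EN; positivity
  have hXs0 : 0 < Xs := by rw [hXs]; positivity
  have hUr0 : 0 < Ur := by rw [hUr]; positivity
  have hmain : Xs * Ur = E * Q := by
    rw [hXs, hUr, hE, hQ]
    unfold EN
    rw [← mul_pow, ← mul_pow]
    congr 1
    field_simp
  obtain ⟨M, hM⟩ : ∃ M : ℝ, M = Ur ^ 2 / Q ^ 2 * Bx := ⟨_, rfl⟩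
  have hM0 : 0 ≤ M := by rw [hM]; positivity
  have hXM : Xs ^ 2 * M = E ^ 2 * Bx := by
    rw [hM]
    have e1 : Xs ^ 2 * (Ur ^ 2 / Q ^ 2 * Bx) = (Xs * Ur) ^ 2 / Q ^ 2 * Bx := by ring
    rw [e1, hmain]
    field_simp
  have hGB : ((CG K 2 c t).card : ℝ) ≤ C7 * Xs := by
    rw [hXs]
    refine le_trans ?_ (h7a _ hX1)
    exact_mod_cast Finset.card_le_card (Finset.filter_subset _ _)
  -- facts on `GI`
  have hGI1 : ∀ x y : Fin 2 → 𝓞 K, ¬ Par x y → 1 ≤ GI a (gI x y) := fun x y h =>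
    (h8 K r a hF.loc.cp (gI x y) (SM1_gI h)).2.2.2.2.1.1
  have hGI2 : ∀ x y : Fin 2 → 𝓞 K, ¬ Par x y →
      0 ≤ GI a (gI x y) - GI a (gI x y ⊔ Ideal.span {(W : 𝓞 K)}) := fun x y h =>
    sub_nonneg.2 ((h8 K r a hF.loc.cp (gI x y) (SM1_gI h)).2.2.2.1 _ le_sup_left)
  obtain ⟨b, hb⟩ : ∃ b : (Fin 2 → 𝓞 K) → (Fin 2 → 𝓞 K) → ℝ, b = fun x y =>
      D2 * ((GI a (gI x y) - GI a (gI x y ⊔ Ideal.span {(W : 𝓞 K)})) +
        (1 / k' + 1 / t) * GI a (gI x y) + 1 / t) * M := ⟨_, rfl⟩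
  have hb0 : ∀ x y : Fin 2 → 𝓞 K, ¬ Par x y → 0 ≤ b x y := by
    intro x y h
    have e1 := hGI1 x y h
    have e2 := hGI2 x y h
    rw [hb]
    positivity
  rw [← hE, ← hBx] at h3t'
  rw [← hE, ← hBx]
  have hnn1 : ∀ (x : Fin 2 → 𝓞 K) (w : Fin r → 𝓞 K) (f : Mon 2 (D * m) → 𝓞 K),
      0 ≤ dlt (a w) x f := by
    intro x w f
    unfold dlt
    split_ifs <;> norm_num
  have hnn2 : ∀ (x : Fin 2 → 𝓞 K) (w : Fin r → 𝓞 K) (f : Mon 2 (D * m) → 𝓞 K),
      0 ≤ lmt (ThC 2 c t H κ (D * m)) W (a w) x f := by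
    intro x w f
    unfold lmt
    split_ifs
    · positivity
    · exact le_refl _
  obtain ⟨dl, hdl⟩ : ∃ dl : (Fin 2 → 𝓞 K) → (Mon 2 (D * m) → 𝓞 K) → ℝ, dl = fun x f =>
      ∑ w ∈ B, dlt (a w) x f := ⟨_, rfl⟩
  obtain ⟨lm, hlm⟩ : ∃ lm : (Fin 2 → 𝓞 K) → (Mon 2 (D * m) → 𝓞 K) → ℝ, lm = fun x f =>
      ∑ w ∈ B, lmt (ThC 2 c t H κ (D * m)) W (a w) x f := ⟨_, rfl⟩
  have hdl0 : ∀ x f, 0 ≤ dl x f := fun x f => by
    rw [hdl]
    exact Finset.sum_nonneg fun w _ => hnn1 x w f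
  have hlm0 : ∀ x f, 0 ≤ lm x f := fun x f => by
    rw [hlm]
    exact Finset.sum_nonneg fun w _ => hnn2 x w f
  obtain ⟨A, hA⟩ : ∃ A : (Fin 2 → 𝓞 K) → (Fin 2 → 𝓞 K) → ℝ, A = fun x y =>
      ∑ q ∈ B ×ˢ B,
        (∑ f ∈ box K 2 (D * m) (2 * H), Ph H f * (dlt (a q.1) x f * dlt (a q.2) y f) +
        ∑ f ∈ box K 2 (D * m) (2 * H), Ph H f *
          (lmt (ThC 2 c t H κ (D * m)) W (a q.1) x f *
            lmt (ThC 2 c t H κ (D * m)) W (a q.2) y f)) := ⟨_, rfl⟩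
  have hA1 : ∀ x y, ∑ f ∈ box K 2 (D * m) (2 * H), Ph H f * (dl x f * dl y f) +
      ∑ f ∈ box K 2 (D * m) (2 * H), Ph H f * (lm x f * lm y f) = A x y := by
    intro x y
    rw [hdl, hlm, hA]
    rw [SM1_exch (box K 2 (D * m) (2 * H)) B (Ph H) (fun w f => dlt (a w) x f)
      (fun w f => dlt (a w) y f),
      SM1_exch (box K 2 (D * m) (2 * H)) B (Ph H)
      (fun w f => lmt (ThC 2 c t H κ (D * m)) W (a w) x f)
      (fun w f => lmt (ThC 2 c t H κ (D * m)) W (a w) y f), ← Finset.sum_add_distrib]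
  obtain ⟨Ty, hTy⟩ : ∃ Ty : (Fin 2 → 𝓞 K) → (Fin 2 → 𝓞 K) → Prop, Ty = fun x y =>
      ¬ Par x y ∧ ∀ u : InfinitePlace K, (XC 2 c t : ℝ) ^ 2 ≤ m1 * wv u x y := ⟨_, rfl⟩
  have key := thm_ABSC (Mon 2 (D * m) → 𝓞 K) (Fin 2 → 𝓞 K) Unit (box K 2 (D * m) (2 * H)) (Ph H)
    (CG K 2 c t) {()}
    (fun x _ f => if x ∈ P then dl x f else 0)
    (fun x _ f => if x ∈ P then lm x f else 0)
    Ty b (fun f _ => (hP2 f).1)
    (fun x _ f => by
      constructor
      · show 0 ≤ (if x ∈ P then dl x f else 0)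
        split_ifs
        · exact hdl0 x f
        · exact le_refl _
      · show 0 ≤ (if x ∈ P then lm x f else 0)
        split_ifs
        · exact hlm0 x f
        · exact le_refl _)
    (fun x hx y hy hxy _ _ _ _ => by
      rw [hTy] at hxy
      have hbb := hb0 x y hxy.1
      by_cases hx' : x ∈ P
      · by_cases hy' : y ∈ P
        · simp only [if_pos hx', if_pos hy']
          have e1 : ∑ F ∈ box K 2 (D * m) (2 * H),
              Ph H F * ((dl x F - lm x F) * (dl y F - lm y F)) =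
              ∑ q ∈ B ×ˢ B, alt (TS K (ThC 2 c t H κ (D * m)) W) (cP (D * m) H x y)
                (a q.1) (a q.2) := by
            have e2 : ∀ (z : Fin 2 → 𝓞 K) (F : Mon 2 (D * m) → 𝓞 K), dl z F - lm z F =
                ∑ w ∈ B, (dlt (a w) z F - lmt (ThC 2 c t H κ (D * m)) W (a w) z F) := by
              intro z F
              rw [hdl, hlm, Finset.sum_sub_distrib]
            simp only [e2]
            rw [SM1_exch (box K 2 (D * m) (2 * H)) B (Ph H)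
              (fun w F => dlt (a w) x F - lmt (ThC 2 c t H κ (D * m)) W (a w) x F)
              (fun w F => dlt (a w) y F - lmt (ThC 2 c t H κ (D * m)) W (a w) y F)]
            exact Finset.sum_congr rfl fun q _ => h6 K 2 (D * m) H _ W x y (a q.1) (a q.2) hW
          rw [e1]
          refine (le_abs_self _).trans ((h1t' x hx y hy hxy.1 hxy.2).trans (le_of_eq ?_))
          rw [hb, hM, hD2, hUr, hQ, hBx]
        · simp only [if_neg hy', sub_zero, mul_zero, Finset.sum_const_zero]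
          exact hbb
      · simp only [if_neg hx', sub_zero, zero_mul, mul_zero, Finset.sum_const_zero]
        exact hbb)
  have hLHS : ∑ f ∈ box K 2 (D * m) H, (NA B a {p | p.1 ∈ P} c t f -
      NAL B a {p | p.1 ∈ P} c t H κ W f) ^ 2 ≤
      ∑ F ∈ box K 2 (D * m) (2 * H), Ph H F * (∑ x ∈ CG K 2 c t,
        ∑ w ∈ ({()} : Finset Unit),
          ((if x ∈ P then dl x F else 0) - (if x ∈ P then lm x F else 0))) ^ 2 := by
    have hd : ∀ f : Mon 2 (D * m) → 𝓞 K, NA B a {p | p.1 ∈ P} c t f -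
        NAL B a {p | p.1 ∈ P} c t H κ W f =
        ∑ x ∈ CG K 2 c t, ∑ w ∈ ({()} : Finset Unit),
          ((if x ∈ P then dl x f else 0) - (if x ∈ P then lm x f else 0)) := by
      intro f
      unfold NA NAL
      rw [← Finset.sum_sub_distrib]
      apply Finset.sum_congr rfl
      intro x _
      rw [Finset.sum_singleton, hdl, hlm]
      by_cases hx : x ∈ P
      · have hx' : ∀ w : Fin r → 𝓞 K,
            (x, w) ∈ ({p | p.1 ∈ P} : Set ((Fin 2 → 𝓞 K) × (Fin r → 𝓞 K))) := fun w => hx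
        simp only [if_pos hx, if_pos (hx' _)]
        unfold dlt lmt TC
        rw [hTS]
      · have hx' : ∀ w : Fin r → 𝓞 K,
            (x, w) ∉ ({p | p.1 ∈ P} : Set ((Fin 2 → 𝓞 K) × (Fin r → 𝓞 K))) := fun w => hx
        simp only [if_neg hx, if_neg (hx' _), Finset.sum_const_zero]
    have hsub : box K 2 (D * m) H ⊆ box K 2 (D * m) (2 * H) := by
      unfold box
      apply Fintype.piFinset_subset
      intro _ a ha
      rw [mem_cb] at ha ⊢
      omega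
    refine le_trans ?_ (Finset.sum_le_sum_of_subset_of_nonneg hsub
      fun f _ _ => mul_nonneg (hP2 f).1 (sq_nonneg _))
    apply Finset.sum_le_sum
    intro f hf
    rw [hd f]
    have := hP1 f hf
    have h0 := sq_nonneg (∑ x ∈ CG K 2 c t, ∑ w ∈ ({()} : Finset Unit),
          ((if x ∈ P then dl x f else 0) - (if x ∈ P then lm x f else 0)))
    nlinarith
  refine (hLHS.trans key).trans ?_
  clear hLHS key
  -- typical pairs
  have hT : ∑ p ∈ (CG K 2 c t ×ˢ CG K 2 c t).filter (fun p => Ty p.1 p.2), b p.1 p.2 ≤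
      3 * ε / 16 * (E ^ 2 * Bx) := by
    rw [SM1_prod (CG K 2 c t) Ty b]
    have e1 : ∀ x ∈ CG K 2 c t, ∑ y ∈ (CG K 2 c t).filter (fun y => Ty x y), b x y ≤
        D2 * (ε' * Xs + (1 / k' + 1 / t) * (C4 * Xs) + 1 / t * (C7 * Xs)) * M := by
      intro x hx
      have e2 : ∑ y ∈ (CG K 2 c t).filter (fun y => Ty x y), b x y ≤
          ∑ y ∈ (CG K 2 c t).filter (fun y => ¬ Par x y), b x y := by
        refine Finset.sum_le_sum_of_subset_of_nonneg ?_ ?_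
        · intro y hy
          rw [Finset.mem_filter] at hy ⊢
          rw [hTy] at hy
          exact ⟨hy.1, hy.2.1⟩
        · intro y hy _
          rw [Finset.mem_filter] at hy
          exact hb0 x y hy.2
      refine e2.trans ?_
      have e3 : ∑ y ∈ (CG K 2 c t).filter (fun y => ¬ Par x y), b x y =
          D2 * (∑ y ∈ (CG K 2 c t).filter (fun y => ¬ Par x y),
            (GI a (gI x y) - GI a (gI x y ⊔ Ideal.span {(W : 𝓞 K)})) +
            (1 / k' + 1 / t) * ∑ y ∈ (CG K 2 c t).filter (fun y => ¬ Par x y), GI a (gI x y) +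
            1 / t * (((CG K 2 c t).filter (fun y => ¬ Par x y)).card : ℝ)) * M := by
        rw [hb]
        simp only
        rw [← Finset.sum_mul, ← Finset.mul_sum, Finset.sum_add_distrib, Finset.sum_add_distrib,
          ← Finset.mul_sum, Finset.sum_const, nsmul_eq_mul]
        ring
      rw [e3]
      refine mul_le_mul_of_nonneg_right (mul_le_mul_of_nonneg_left ?_ hD20) hM0
      have e4 := h4c r a hF.loc W hW hWd c t ht1 x hx
      have e5 := h4a r a hF.loc c t ht1 x hx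
      rw [← hXs] at e4 e5
      have e6 : (((CG K 2 c t).filter (fun y => ¬ Par x y)).card : ℝ) ≤ C7 * Xs := by
        refine le_trans ?_ hGB
        exact_mod_cast Finset.card_le_card (Finset.filter_subset _ _)
      have e7 : (0 : ℝ) ≤ 1 / k' + 1 / t := by positivity
      have e8 : (0 : ℝ) ≤ 1 / t := by positivity
      exact add_le_add (add_le_add e4 (mul_le_mul_of_nonneg_left e5 e7))
        (mul_le_mul_of_nonneg_left e6 e8)
    refine (Finset.sum_le_sum e1).trans ?_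
    rw [Finset.sum_const, nsmul_eq_mul]
    have e9 : 0 ≤ D2 * (ε' * Xs + (1 / k' + 1 / t) * (C4 * Xs) + 1 / t * (C7 * Xs)) * M := by
      positivity
    refine (mul_le_mul_of_nonneg_right hGB e9).trans ?_
    have e10 : C7 * Xs * (D2 * (ε' * Xs + (1 / k' + 1 / t) * (C4 * Xs) + 1 / t * (C7 * Xs)) * M) =
        (D2 * C7 * ε' + D2 * C7 * C4 / k' + D2 * C7 * (C4 + C7) / t) * (Xs ^ 2 * M) := by
      ring
    rw [e10, hXM]
    refine mul_le_mul_of_nonneg_right ?_ (by positivity)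
    linarith
  -- parallel pairs
  have hPar : ∑ p ∈ (CG K 2 c t ×ˢ CG K 2 c t).filter (fun p => Par p.1 p.2), A p.1 p.2 ≤
      ε / 8 * (E ^ 2 * Bx) := by
    rw [hA]
    refine h3t'.trans ?_
    calc _ = C3 * C0 ^ 2 / t * (E ^ 2 * Bx) := by ring
      _ ≤ _ := mul_le_mul_of_nonneg_right htε2 (by positivity)
  -- the other pairs
  have hOth : ∑ p ∈ (CG K 2 c t ×ˢ CG K 2 c t).filter
      (fun p => ¬ Par p.1 p.2 ∧ ∃ u : InfinitePlace K, m1 * wv u p.1 p.2 < (XC 2 c t : ℝ) ^ 2),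
      A p.1 p.2 ≤ ε / 8 * (E ^ 2 * Bx) := by
    rw [@SM1_prod _ (CG K 2 c t) (fun x y => ¬ Par x y ∧ ∃ u : InfinitePlace K,
      m1 * wv u x y < (XC 2 c t : ℝ) ^ 2) (fun _ => instDecidableAnd)
      (fun _ _ => instDecidableAnd) A]
    have e1 : ∀ x ∈ CG K 2 c t, ∑ y ∈ (CG K 2 c t).filter (fun y => ¬ Par x y ∧
        ∃ u : InfinitePlace K, m1 * wv u x y < (XC 2 c t : ℝ) ^ 2), A x y ≤
        C2 * C0 ^ 2 * M * (C5 * rp m1 D * Xs) := by
      intro x hx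
      have e2 : ∀ y ∈ (CG K 2 c t).filter (fun y => ¬ Par x y ∧
          ∃ u : InfinitePlace K, m1 * wv u x y < (XC 2 c t : ℝ) ^ 2), A x y ≤
          C2 * C0 ^ 2 * M * (GI a (gI x y) *
            (((XC 2 c t : ℝ) ^ 2) ^ dg K / wp x y) ^ (1 - (1 : ℝ) / D)) := by
        intro y hy
        rw [Finset.mem_filter] at hy
        rw [hA]
        refine (h2t' x hx y hy.1 hy.2.1).trans (le_of_eq ?_)
        rw [hM, hUr, hQ, hBx]
        ring
      refine (Finset.sum_le_sum e2).trans ?_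
      rw [← Finset.mul_sum]
      refine mul_le_mul_of_nonneg_left ?_ (by positivity)
      have e3 := h5' r a hF.loc c t m1 ht1 hm1 x hx
      rw [← hXs] at e3
      rw [← hXs]
      exact e3
    refine (Finset.sum_le_sum e1).trans ?_
    rw [Finset.sum_const, nsmul_eq_mul]
    have hrp : 0 ≤ rp m1 D := CSM_rp_nonneg _ _
    have e9 : 0 ≤ C2 * C0 ^ 2 * M * (C5 * rp m1 D * Xs) := by positivity
    refine (mul_le_mul_of_nonneg_right hGB e9).trans ?_
    have e10 : C7 * Xs * (C2 * C0 ^ 2 * M * (C5 * rp m1 D * Xs)) =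
        (C2 * C0 ^ 2 * C5 * C7 * rp m1 D) * (Xs ^ 2 * M) := by
      ring
    rw [e10, hXM]
    exact mul_le_mul_of_nonneg_right hm1' (by positivity)
  have hsplit : ∀ g : (Fin 2 → 𝓞 K) × (Fin 2 → 𝓞 K) → ℝ,
      ∑ p ∈ (CG K 2 c t ×ˢ CG K 2 c t).filter (fun p => ¬ Ty p.1 p.2), g p =
      ∑ p ∈ (CG K 2 c t ×ˢ CG K 2 c t).filter (fun p => Par p.1 p.2), g p +
      ∑ p ∈ (CG K 2 c t ×ˢ CG K 2 c t).filter
        (fun p => ¬ Par p.1 p.2 ∧ ∃ u : InfinitePlace K,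
          m1 * wv u p.1 p.2 < (XC 2 c t : ℝ) ^ 2), g p := by
    intro g
    rw [← Finset.sum_union]
    · apply Finset.sum_congr _ fun _ _ => rfl
      ext p
      rw [hTy]
      simp only [Finset.mem_filter, Finset.mem_union]
      have e1 : (∃ u : InfinitePlace K, m1 * wv u p.1 p.2 < (XC 2 c t : ℝ) ^ 2) ↔
          ¬ ∀ u : InfinitePlace K, (XC 2 c t : ℝ) ^ 2 ≤ m1 * wv u p.1 p.2 := by
        push Not
        rfl
      rw [e1]
      tauto
    · rw [Finset.disjoint_left]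
      intro p hp hq
      rw [Finset.mem_filter] at hp hq
      exact hq.2.1 hp.2
  have hEB : 0 ≤ E ^ 2 * Bx := by positivity
  have hfin : 3 * ε / 16 * (E ^ 2 * Bx) + (ε / 8 * (E ^ 2 * Bx) + ε / 8 * (E ^ 2 * Bx)) ≤
      ε * E ^ 2 * Bx := by
    have e1 : 3 * ε / 16 * (E ^ 2 * Bx) + (ε / 8 * (E ^ 2 * Bx) + ε / 8 * (E ^ 2 * Bx)) =
      (7 / 16 * ε) * (E ^ 2 * Bx) := by ring
    rw [e1]
    calc _ ≤ ε * (E ^ 2 * Bx) := mul_le_mul_of_nonneg_right (by linarith) hEB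
      _ = _ := by ring
  refine le_trans (add_le_add ?_ ?_) hfin
  · refine le_trans (le_of_eq ?_) hT
    refine Finset.sum_congr rfl fun p _ => ?_
    rw [Finset.card_singleton]
    push_cast
    ring
  · have hle : ∀ p : (Fin 2 → 𝓞 K) × (Fin 2 → 𝓞 K),
        ∑ q ∈ ({()} : Finset Unit) ×ˢ ({()} : Finset Unit),
          (∑ F ∈ box K 2 (D * m) (2 * H), Ph H F *
            ((if p.1 ∈ P then dl p.1 F else 0) * (if p.2 ∈ P then dl p.2 F else 0)) +
          ∑ F ∈ box K 2 (D * m) (2 * H), Ph H F *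
            ((if p.1 ∈ P then lm p.1 F else 0) * (if p.2 ∈ P then lm p.2 F else 0))) ≤
        A p.1 p.2 := by
      intro p
      rw [Finset.singleton_product_singleton, Finset.sum_singleton, ← hA1]
      have hi : ∀ (a b : ℝ) (A B : Prop) [Decidable A] [Decidable B], 0 ≤ a → 0 ≤ b →
          (if A then a else 0) * (if B then b else 0) ≤ a * b := by
        intro a b A B _ _ ha hb
        split_ifs
        · exact le_refl _
        · rw [mul_zero]; exact mul_nonneg ha hb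
        · rw [zero_mul]; exact mul_nonneg ha hb
        · rw [zero_mul]; exact mul_nonneg ha hb
      refine add_le_add ?_ ?_
      · exact Finset.sum_le_sum fun f _ => mul_le_mul_of_nonneg_left
          (hi _ _ _ _ (hdl0 _ _) (hdl0 _ _)) (hP2 f).1
      · exact Finset.sum_le_sum fun f _ => mul_le_mul_of_nonneg_left
          (hi _ _ _ _ (hlm0 _ _) (hlm0 _ _)) (hP2 f).1
    refine (Finset.sum_le_sum fun p _ => hle p).trans ?_
    rw [hsplit fun p => A p.1 p.2]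
    exact add_le_add hPar hOth

end Pool.Agent.NRN
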