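import Pool.Agent.NRN.StL

/-!
NRN: copy with two or more variables x of the following module.
NRM, block B, [SIGPOSN]: a positive proportion of forms near the explicit one (helper88, port of
RHCB/SIGPOSC.lean).
-/

set_option autoImplicit false

namespace Pool.Agent.NRN

open scoped BigOperators
open Classical NumberField IsDedekindDomain
open Pool.Agent.RHP (Mon mono ev Sys Prim pd WB WW)
open Pool.Agent.RHK Pool.Agent.RHC Pool.Agent.NRM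
open Pool.Agent.RHKB (mI hh jj qv MK uu BadK)
open Pool.Agent.RHCB (BadC cred cemb uk PrC hM f00)
open Pool.Agent.RHCW (cmk)

section

variable {s r D d : ℕ}

theorem SIGPOSN_map {A B : Type} [CommRing A] [CommRing B] (φ : A →+* B) (μ : Mon s d) :
    φ (f00 A s d μ) = f00 B s d μ := by
  unfold f00
  split_ifs
  · exact map_one φ
  · exact map_zero φ

/-- a ring isomorphism to a product, for forms -/
noncomputable def SIGPOSN_e {A B C : Type} [CommRing A] [CommRing B] [CommRing C]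
    (φ : A ≃+* B × C) : (Mon s d → A) ≃ (Mon s d → B) × (Mon s d → C) where
  toFun G := (fun m => (φ (G m)).1, fun m => (φ (G m)).2)
  invFun P := fun m => φ.symm (P.1 m, P.2 m)
  left_inv G := by
    funext m
    exact φ.symm_apply_apply (G m)
  right_inv P := by
    refine Prod.ext ?_ ?_
    · funext m
      show (φ (φ.symm (P.1 m, P.2 m))).1 = _
      rw [RingEquiv.apply_symm_apply]
    · funext m
      show (φ (φ.symm (P.1 m, P.2 m))).2 = _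
      rw [RingEquiv.apply_symm_apply]

/-- modulo one there is no congruence condition -/
theorem SIGPOSN_wsig {A : Type} [CommRing A] (b : ℕ) (g : Mon r D → A) (ρ₀ : Fin s → A)
    (ω₀ : Fin r → A) (f : Mon s d → A) : wsigN b 1 g ρ₀ ω₀ f = sigN b g f := by
  unfold wsigN sigN
  have h : wcntN b 1 g ρ₀ ω₀ f = cntN b g f := by
    unfold wcntN cntN
    refine Nat.card_congr (Equiv.subtypeEquivRight fun p => ?_)
    refine ⟨fun h => ⟨h.1, h.2.2⟩, fun h => ⟨h.1, ⟨fun l => ?_, fun j => ?_⟩, h.2⟩⟩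
    · rw [Nat.cast_one]
      exact one_dvd _
    · rw [Nat.cast_one]
      exact one_dvd _
  rw [h]

end

section

variable {K : Type} [Field K] [NumberField K]

theorem SIGPOSN_w00 {r D : ℕ} (g : Mon r D → 𝓞 K) (e : Fin r → 𝓞 K) (s d : ℕ) (m : Mon s d)
    (j : IX K) : |w00N g e s d m j| ≤ 1 := by
  unfold w00N
  have h1 : (0 : ℝ) ≤ (cz (ev g e) : ℝ) := Nat.cast_nonneg _
  rw [abs_div, abs_of_nonneg h1]
  refine div_le_one_of_le₀ ?_ h1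
  have h2 : (f00 (𝓞 K) s d m = 1) ∨ (f00 (𝓞 K) s d m = 0) := by
    unfold f00
    split_ifs
    · exact Or.inl rfl
    · exact Or.inr rfl
  rcases h2 with h2 | h2
  · rw [h2, mul_one]
    have h3 : (co (ev g e) j).natAbs ≤ cz (ev g e) := by
      unfold cz
      exact Finset.le_sup (f := fun j => (co (ev g e) j).natAbs) (Finset.mem_univ j)
    rw [← Int.cast_abs, Int.abs_eq_natAbs]
    exact_mod_cast h3
  · rw [h2, mul_zero]
    have h3 : co (0 : 𝓞 K) j = 0 := by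
      unfold co
      rw [map_zero]
      rfl
    rw [h3, Int.cast_zero, abs_zero]
    exact h1

theorem SIGPOSN_p0 (C C' C'' : ℝ) (M : ℕ) (hM : 1 ≤ M) :
    ∃ p0 : ℕ, 1 ≤ p0 ∧ C * (C' / p0 + C'' * (p0 : ℝ) ^ (-(1 : ℝ) / (M : ℝ))) ≤ 1 / 4 := by
  have h1 : Filter.Tendsto (fun p : ℕ => C' / (p : ℝ)) Filter.atTop (nhds 0) :=
    tendsto_const_div_atTop_nhds_zero_nat C'
  have h2 : Filter.Tendsto (fun p : ℕ => (p : ℝ) ^ (-(1 : ℝ) / (M : ℝ))) Filter.atTop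
      (nhds 0) := by
    have h3 : (0 : ℝ) < 1 / (M : ℝ) := by
      have : (0 : ℝ) < M := by exact_mod_cast hM
      positivity
    have h4 := (tendsto_rpow_neg_atTop h3).comp tendsto_natCast_atTop_atTop
    rw [neg_div]
    exact h4
  have h5 : Filter.Tendsto (fun p : ℕ => C * (C' / (p : ℝ) + C'' * (p : ℝ) ^ (-(1 : ℝ) / (M : ℝ))))
      Filter.atTop (nhds (C * (0 + C'' * 0))) := (h1.add (h2.const_mul C'')).const_mul C
  rw [mul_zero, add_zero, mul_zero] at h5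
  have h6 := h5.eventually (gt_mem_nhds (show (0 : ℝ) < 1 / 4 by norm_num))
  obtain ⟨p0, h7, h8⟩ := (h6.and (Filter.eventually_ge_atTop 1)).exists
  exact ⟨p0, h8, h7.le⟩

/-- The finite places: the forms near the explicit one have many points modulo the powers of `v`. -/
theorem SIGPOSN_place (h6 : St_NZ0N) (h7 : St_PCNN) (h9 : RHKB.St_PLV) {s r D m : ℕ}
    (hyp : NHyp1 s D m) (g : Mon r D → 𝓞 K) (e : Fin r → 𝓞 K) (hge : ev g e ≠ 0)
    (v : HeightOneSpectrum (𝓞 K)) : ∃ (b : ℕ) (c : ℝ), 0 < c ∧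
      ∀ f : Mon s (D * m) → 𝓞 K,
        (∀ μ, f μ - ev g e * f00 (𝓞 K) s (D * m) μ ∈ v.asIdeal ^ b) →
      ∀ j : ℕ, c ≤ sigN 1 (cred (v.asIdeal ^ j) g) (cred (v.asIdeal ^ j) f) := by
  have hs3 := hyp.hs
  have hk2 := hyp.hD
  have hm1 := hyp.hm
  obtain ⟨hps, hq, hx, hult, hint, -, -⟩ := h9 K v
  have hk0 : ((D : ℕ) : v.adicCompletion K) ≠ 0 := by
    rw [← map_natCast (algebraMap K (v.adicCompletion K)) D]
    rw [Ne, map_eq_zero]
    exact_mod_cast (by omega : D ≠ 0)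
  have hgL : gL (v.adicCompletion K) g = fun μ => jj (v.adicCompletion K) (g μ) := by
    funext μ
    show 1 * jj (v.adicCompletion K) (g μ) = _
    rw [one_mul]
  have hGe : ev (gL (v.adicCompletion K) g) (fun j => jj (v.adicCompletion K) (e j)) =
      jj (v.adicCompletion K) (ev g e) := by
    rw [hgL]
    exact RHP.ev_map _ _ _
  have hGe0 : ev (gL (v.adicCompletion K) g) (fun j => jj (v.adicCompletion K) (e j)) ≠ 0 := by
    rw [hGe]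
    show algebraMap K (v.adicCompletion K) (algebraMap (𝓞 K) K (ev g e)) ≠ 0
    rw [Ne, map_eq_zero]
    exact fun h => hge (RingOfIntegers.coe_injective (by rw [h, map_zero]))
  obtain ⟨z₀, hz1, hz2, δ, hδ, hδN⟩ := h6 (v.adicCompletion K) hx s r D m (by omega) (by omega)
    hm1 hk0 (gL (v.adicCompletion K) g) (fun j => jj (v.adicCompletion K) (e j)) hGe0 1 1
    one_ne_zero one_ne_zero (1 / 2) (by norm_num)
  obtain ⟨c, hc, hcF⟩ := h7 K v 1 Nat.one_pos s r D (D * m) δ hδ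
  have hn1 : ‖((1 : ℕ) : v.adicCompletion K)‖ = 1 := by
    rw [Nat.cast_one]
    exact norm_one
  rw [norm_one] at hz1
  have hwz : ∀ j, ‖wz z₀ j‖ ≤ 1 := by
    intro j
    rw [hz2 j, one_pow, one_mul, one_mul]
    have h2 := (hint (e j) 0).2 (by
      rw [pow_zero, Ideal.one_eq_top]
      exact Submodule.mem_top)
    rwa [pow_zero, inv_one] at h2
  have hq1 : (1 : ℝ) < (qv v : ℝ) := by exact_mod_cast hq
  obtain ⟨b, hb⟩ := exists_pow_lt_of_lt_one hδ (inv_lt_one_of_one_lt₀ hq1)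
  refine ⟨b, c, hc, fun f hf j => ?_⟩
  have key : NZN (cemb (1 : v.adicCompletion K) f) (gL (v.adicCompletion K) g) z₀ δ (1 / 2) := by
    refine hδN (cemb (1 : v.adicCompletion K) f) fun μ => ?_
    have h2 := (hint (f μ - ev g e * f00 (𝓞 K) s (D * m) μ) b).2 (hf μ)
    rw [map_sub, map_mul, SIGPOSN_map] at h2
    unfold cemb
    rw [one_mul, one_pow, one_mul, hGe]
    refine h2.trans ?_
    rw [← inv_pow]
    exact hb.le
  have h3 := hcF 1 g (fun _ => 0) (fun _ => 0) f z₀ hz1 hwz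
    (fun l => by
      rw [map_zero, sub_zero, hn1]
      exact (norm_le_pi_norm (xz z₀) l).trans hz1.le)
    (fun l => by
      rw [map_zero, sub_zero, hn1]
      exact hwz l)
    (by
      rw [hn1, Nat.cast_one]
      exact key) j
  rw [SIGPOSN_wsig] at h3
  exact h3

end

theorem thm_SP1 (h4 : St_WABN)
    (h6 : St_NZ0N) (h7 : St_PCNN) (h8 : RHCB.St_EQLC) (h9 : RHKB.St_PLV) :
    St_SP1 := by
  intro K _ _ s r D m hyp g e hge hSG
  have hs3 := hyp.hs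
  have hk2 := hyp.hD
  have hm1 := hyp.hm
  have hkm : 1 ≤ D * m := Nat.mul_pos (by omega) (by omega)
  obtain ⟨p0, hp0⟩ := hSG (1 / 4) (by norm_num)
  obtain ⟨S, hS1, hS2⟩ := h4 K p0
  -- the constants at the places in `S`
  have hcp := SIGPOSN_place h6 h7 h9 hyp g e hge
  choose b c hc hcF using hcp
  obtain ⟨bm, hbm⟩ : ∃ bm : ℕ, ∀ v ∈ S, b v ≤ bm := ⟨S.sup b, fun v hv => Finset.le_sup hv⟩
  obtain ⟨Q, hQ⟩ : ∃ Q : ℕ, Q = p0.factorial ^ bm := ⟨_, rfl⟩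
  have hQ0 : 0 < Q := by
    rw [hQ]
    exact pow_pos (Nat.factorial_pos p0) _
  have hQv : ∀ v ∈ S, Ideal.span {(Q : 𝓞 K)} ≤ v.asIdeal ^ b v := by
    intro v hv
    obtain ⟨p, hp, hpp, hpv⟩ := hS1 v hv
    rw [Ideal.span_singleton_le_iff_mem]
    obtain ⟨a, ha⟩ : p ∣ p0.factorial := (Nat.Prime.dvd_factorial hp).2 hpp
    have h1 : (Q : 𝓞 K) = (p : 𝓞 K) ^ b v * ((p : 𝓞 K) ^ (bm - b v) * (a : 𝓞 K) ^ bm) := by
      rw [hQ, ha, ← mul_assoc, ← pow_add, Nat.add_sub_cancel' (hbm v hv)]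
      push_cast
      ring
    rw [h1]
    exact Ideal.mul_mem_right _ _ (Ideal.pow_mem_pow hpv _)
  have hIQ : Ideal.span {(Q : 𝓞 K)} ≠ ⊥ := by
    rw [Ne, Ideal.span_singleton_eq_bot]
    exact_mod_cast hQ0.ne'
  have hfQ : Finite (𝓞 K ⧸ Ideal.span {(Q : 𝓞 K)}) := Ideal.finiteQuotientOfFreeOfNeBot _ hIQ
  refine ⟨(∏ v ∈ S, c v) * (1 / 2), by
    have : 0 < ∏ v ∈ S, c v := Finset.prod_pos fun v _ => hc v
    positivity, p0, fun δ hδ => ?_⟩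
  obtain ⟨η, hη, hE⟩ := h8 K s (D * m) δ hδ
  have hSQ : (0 : ℝ) < (Nat.card (Mon s (D * m) → 𝓞 K ⧸ Ideal.span {(Q : 𝓞 K)}) : ℝ) := by
    exact_mod_cast (Nat.card_pos : 0 < Nat.card ((Mon s (D * m) → 𝓞 K ⧸ Ideal.span {(Q : 𝓞 K)})))
  refine ⟨η * (3 / 4) / (Nat.card (Mon s (D * m) → 𝓞 K ⧸ Ideal.span {(Q : 𝓞 K)}) : ℝ),
    by positivity, fun m0 hm0 => ?_⟩
  obtain ⟨hWB0, hWBp, n, hWBs⟩ := hS2 m0 hm0
  obtain ⟨V, hV'⟩ : ∃ V : ℕ, V = WB p0 m0 := ⟨_, rfl⟩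
  rw [← hV'] at hWB0 hWBp hWBs
  have hIV : Ideal.span {(V : 𝓞 K)} ≠ ⊥ := by
    rw [Ne, Ideal.span_singleton_eq_bot]
    exact_mod_cast hWB0.ne'
  have hfV : Finite (𝓞 K ⧸ Ideal.span {(V : 𝓞 K)}) := Ideal.finiteQuotientOfFreeOfNeBot _ hIV
  have hcop : Q.Coprime V := by
    by_contra hcon
    obtain ⟨p, hp, hpQ, hpV⟩ := Nat.Prime.not_coprime_iff_dvd.1 hcon
    have h1 := hWBp p hp hpV
    rw [hQ] at hpQ
    have h2 := (Nat.Prime.dvd_factorial hp).1 (hp.dvd_of_dvd_pow hpQ)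
    omega
  have hcopI : IsCoprime (Ideal.span {(Q : 𝓞 K)}) (Ideal.span {(V : 𝓞 K)}) := by
    rw [Ideal.isCoprime_span_singleton_iff]
    have h1 := (Nat.isCoprime_iff_coprime.2 hcop).map (Int.castRingHom (𝓞 K))
    simpa using h1
  have hne : Ideal.span {(Q : 𝓞 K)} * Ideal.span {(V : 𝓞 K)} ≠ ⊥ := mul_ne_zero hIQ hIV
  obtain ⟨H0, hH0⟩ := hE (w00N g e s (D * m)) (SIGPOSN_w00 g e s (D * m))
    (Ideal.span {(Q : 𝓞 K)} * Ideal.span {(V : 𝓞 K)}) hne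
  refine ⟨H0, fun H hH => ?_⟩
  let φ := Ideal.quotientMulEquivQuotientProd (Ideal.span {(Q : 𝓞 K)}) (Ideal.span {(V : 𝓞 K)})
    hcopI
  obtain ⟨E, he1, he2⟩ : ∃ E : (Mon s (D * m) → 𝓞 K ⧸ Ideal.span {(Q : 𝓞 K)} * Ideal.span {(V : 𝓞 K)}) ≃
      (Mon s (D * m) → 𝓞 K ⧸ Ideal.span {(Q : 𝓞 K)}) × (Mon s (D * m) → 𝓞 K ⧸ Ideal.span {(V : 𝓞 K)}),
      (∀ F : (Mon s (D * m) → 𝓞 K), (E (cred (Ideal.span {(Q : 𝓞 K)} * Ideal.span {(V : 𝓞 K)}) F)).1 =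
        cred (Ideal.span {(Q : 𝓞 K)}) F) ∧
      (∀ F : (Mon s (D * m) → 𝓞 K), (E (cred (Ideal.span {(Q : 𝓞 K)} * Ideal.span {(V : 𝓞 K)}) F)).2 =
        cred (Ideal.span {(V : 𝓞 K)}) F) := by
    refine ⟨SIGPOSN_e φ, fun F => ?_, fun F => ?_⟩
    · rfl
    · rfl
  obtain ⟨T, hT⟩ : ∃ T : Set ((Mon s (D * m) → 𝓞 K ⧸ Ideal.span {(Q : 𝓞 K)} * Ideal.span {(V : 𝓞 K)})),
      T = {G | (E G).1 = cred (Ideal.span {(Q : 𝓞 K)}) (fun μ => ev g e * f00 (𝓞 K) s (D * m) μ) ∧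
        ¬ sigN 1 (cred (Ideal.span {(V : 𝓞 K)}) g) (E G).2 < 1 / 2} :=
    ⟨_, rfl⟩
  have h1 := hH0 H hH T
  have hfQV : Finite (𝓞 K ⧸ Ideal.span {(Q : 𝓞 K)} * Ideal.span {(V : 𝓞 K)}) :=
    Ideal.finiteQuotientOfFreeOfNeBot _ hne
  -- the cardinality of `T`
  have h2 : Nat.card {G : (Mon s (D * m) → 𝓞 K ⧸ Ideal.span {(V : 𝓞 K)}) // ¬ sigN 1 (cred (Ideal.span {(V : 𝓞 K)}) g) G < 1 / 2} ≤
      T.ncard := by
    rw [← Nat.card_coe_set_eq]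
    refine Nat.card_le_card_of_injective
      (fun G => ⟨E.symm (cred (Ideal.span {(Q : 𝓞 K)}) (fun μ => ev g e * f00 (𝓞 K) s (D * m) μ), G.1), ?_⟩) ?_
    · rw [hT, Set.mem_ofPred_eq, E.apply_symm_apply]
      exact ⟨rfl, G.2⟩
    · intro G G' hGG
      have h3 := congrArg Subtype.val hGG
      have h4 := E.symm.injective h3
      exact Subtype.ext (congrArg Prod.snd h4)
  have h3 : (Nat.card {G : (Mon s (D * m) → 𝓞 K ⧸ Ideal.span {(V : 𝓞 K)}) // sigN 1 (cred (Ideal.span {(V : 𝓞 K)}) g) G < 1 / 2} : ℝ) +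
      (Nat.card {G : (Mon s (D * m) → 𝓞 K ⧸ Ideal.span {(V : 𝓞 K)}) // ¬ sigN 1 (cred (Ideal.span {(V : 𝓞 K)}) g) G < 1 / 2} : ℝ) =
      (Nat.card (Mon s (D * m) → 𝓞 K ⧸ Ideal.span {(V : 𝓞 K)}) : ℝ) := by
    have h4 := Nat.card_congr (Equiv.sumCompl
      fun G : (Mon s (D * m) → 𝓞 K ⧸ Ideal.span {(V : 𝓞 K)}) => sigN 1 (cred (Ideal.span {(V : 𝓞 K)}) g) G < 1 / 2)
    rw [Nat.card_sum] at h4
    exact_mod_cast h4
  have hSV : (0 : ℝ) < (Nat.card (Mon s (D * m) → 𝓞 K ⧸ Ideal.span {(V : 𝓞 K)}) : ℝ) := by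
    exact_mod_cast (Nat.card_pos : 0 < Nat.card ((Mon s (D * m) → 𝓞 K ⧸ Ideal.span {(V : 𝓞 K)})))
  have h4 := hp0 p0 le_rfl V 1 hWB0 (Nat.coprime_one_left V) hWBp
  have h5 : (3 : ℝ) / 4 * (Nat.card (Mon s (D * m) → 𝓞 K ⧸ Ideal.span {(V : 𝓞 K)}) : ℝ) ≤
      (T.ncard : ℝ) := by
    have h6 : (Nat.card {G : (Mon s (D * m) → 𝓞 K ⧸ Ideal.span {(V : 𝓞 K)}) // ¬ sigN 1 (cred (Ideal.span {(V : 𝓞 K)}) g) G < 1 / 2} : ℝ) ≤
        (T.ncard : ℝ) := by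
      exact_mod_cast h2
    linarith
  have h6 : (Nat.card (Mon s (D * m) → 𝓞 K ⧸ Ideal.span {(Q : 𝓞 K)} * Ideal.span {(V : 𝓞 K)}) : ℝ) =
      (Nat.card (Mon s (D * m) → 𝓞 K ⧸ Ideal.span {(Q : 𝓞 K)}) : ℝ) *
        (Nat.card (Mon s (D * m) → 𝓞 K ⧸ Ideal.span {(V : 𝓞 K)}) : ℝ) := by
    have h7 := Nat.card_congr E
    rw [Nat.card_prod] at h7
    exact_mod_cast h7
  -- the systems
  have h7 : ((box K s (D * m) H).filter fun F =>
      (∀ μ j, |(co (F μ) j : ℝ) / H - w00N g e s (D * m) μ j| ≤ δ) ∧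
      cred (Ideal.span {(Q : 𝓞 K)} * Ideal.span {(V : 𝓞 K)}) F ∈ T) ⊆
      (box K s (D * m) H).filter fun F =>
        (∀ μ j, |(co (F μ) j : ℝ) / H - w00N g e s (D * m) μ j| ≤ δ) ∧
          (∏ v ∈ S, c v) * (1 / 2) ≤ sigN 1 (cred (Ideal.span {(WW m0 : 𝓞 K)}) g) (cred (Ideal.span {(WW m0 : 𝓞 K)}) F) := by
    intro F hF
    rw [Finset.mem_filter] at hF
    obtain ⟨hF1, hF2, hF3⟩ := hF
    rw [hT, Set.mem_ofPred_eq, he1, he2] at hF3
    obtain ⟨hF3, hF4⟩ := hF3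
    rw [Finset.mem_filter]
    refine ⟨hF1, hF2, ?_⟩
    have hQd : ∀ μ, F μ - ev g e * f00 (𝓞 K) s (D * m) μ ∈ Ideal.span {(Q : 𝓞 K)} := by
      intro μ
      rw [← Ideal.Quotient.eq_zero_iff_mem, map_sub, sub_eq_zero]
      exact congrFun hF3 μ
    have h8 : ∏ v ∈ S, c v ≤ ∏ v ∈ S, sigN 1 (cred (v.asIdeal ^ n v) g) (cred (v.asIdeal ^ n v) F) :=
      Finset.prod_le_prod (fun v _ => (hc v).le) fun v hv =>
        hcF v F (fun μ => hQv v hv (hQd μ)) (n v)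
    have h9 : 0 ≤ ∏ v ∈ S, c v := Finset.prod_nonneg fun v _ => (hc v).le
    have hWBs' := hWBs 1 Nat.one_pos (fun p hp h => absurd (Nat.dvd_one.1 h) hp.one_lt.ne') s r D
      (D * m) 1 g (fun _ => 0) (fun _ => 0) F
    simp only [SIGPOSN_wsig] at hWBs'
    rw [hWBs']
    exact mul_le_mul h8 (not_lt.1 hF4) (by norm_num) (h9.trans h8)
  have h8 : (((box K s (D * m) H).filter fun F =>
      (∀ μ j, |(co (F μ) j : ℝ) / H - w00N g e s (D * m) μ j| ≤ δ) ∧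
      cred (Ideal.span {(Q : 𝓞 K)} * Ideal.span {(V : 𝓞 K)}) F ∈ T).card : ℝ) ≤
      (((box K s (D * m) H).filter fun F =>
        (∀ μ j, |(co (F μ) j : ℝ) / H - w00N g e s (D * m) μ j| ≤ δ) ∧
          (∏ v ∈ S, c v) * (1 / 2) ≤ sigN 1 (cred (Ideal.span {(WW m0 : 𝓞 K)}) g) (cred (Ideal.span {(WW m0 : 𝓞 K)}) F)).card : ℝ) := by
    exact_mod_cast Finset.card_le_card h7
  refine le_trans ?_ h8
  obtain ⟨a, ha⟩ : ∃ a : ℝ, a = (((box K s (D * m) H).filter fun F =>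
      (∀ μ j, |(co (F μ) j : ℝ) / H - w00N g e s (D * m) μ j| ≤ δ) ∧
      cred (Ideal.span {(Q : 𝓞 K)} * Ideal.span {(V : 𝓞 K)}) F ∈ T).card : ℝ) := ⟨_, rfl⟩
  rw [← ha]
  rw [← ha, h6] at h1
  rw [div_mul_eq_mul_div, div_le_iff₀ hSQ]
  have hb0 : (0 : ℝ) ≤ ((box K s (D * m) H).card : ℝ) := by positivity
  have h9 : η * (3 / 4) * ((box K s (D * m) H).card : ℝ) *
      (Nat.card (Mon s (D * m) → 𝓞 K ⧸ Ideal.span {(V : 𝓞 K)}) : ℝ) ≤
      a * (Nat.card (Mon s (D * m) → 𝓞 K ⧸ Ideal.span {(Q : 𝓞 K)}) : ℝ) *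
        (Nat.card (Mon s (D * m) → 𝓞 K ⧸ Ideal.span {(V : 𝓞 K)}) : ℝ) := by
    have h10 := mul_le_mul_of_nonneg_left h5 (mul_nonneg hη.le hb0)
    linarith
  exact le_of_mul_le_mul_right h9 hSV

end Pool.Agent.NRN
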