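import Pool.Agent.NRN.StG
import Pool.Agent.RHP.Ev

/-!
NRN, block G, [SUN]: the values of `g` are equidistributed in the units modulo prime powers (helper84).
-/

set_option autoImplicit false

namespace Pool.Agent.NRN

open scoped BigOperators
open Classical NumberField IsDedekindDomain
open Pool.Agent.RHP (Mon mono ev ev_map)

/-- elements outside of a maximal ideal are invertible modulo its powers -/
theorem SUN_inv {R : Type} [CommRing R] (I : Ideal R) (hI : I.IsMaximal) (j : ℕ) (x : R)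
    (hx : x ∉ I) : ∃ y : R, x * y - 1 ∈ I ^ j := by
  obtain ⟨y, i, hi, h⟩ := hI.exists_inv hx
  have h1 : IsCoprime x i := ⟨y, 1, by rw [one_mul]; exact h⟩
  obtain ⟨a, b, hab⟩ := h1.pow_right (n := j)
  refine ⟨a, ?_⟩
  have h2 : x * a - 1 = -b * i ^ j := by
    rw [← hab]; ring
  rw [h2]
  exact Ideal.mul_mem_left _ _ (Ideal.pow_mem_pow hi j)

/-- powers of elements which are one modulo `I` -/
theorem SUN_pow {R : Type} [CommRing R] (I : Ideal R) (p : ℕ) (hp : (p : R) ∈ I) (x : R)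
    (hx : x - 1 ∈ I) (i : ℕ) : x ^ p ^ i - 1 ∈ I ^ (i + 1) := by
  induction i with
  | zero => simpa using hx
  | succ i ih =>
    have h1 : x ^ p ^ (i + 1) = (x ^ p ^ i) ^ p := by rw [← pow_mul, ← pow_succ]
    rw [h1, ← mul_geom_sum, pow_succ (I) (i + 1)]
    refine Ideal.mul_mem_mul ih ?_
    have hx1 : Ideal.Quotient.mk I x = 1 := by
      rw [← map_one (Ideal.Quotient.mk I)]
      exact Ideal.Quotient.eq.2 hx
    rw [← Ideal.Quotient.eq_zero_iff_mem, map_sum]
    simp only [map_pow, hx1, one_pow, Finset.sum_const, Finset.card_range, nsmul_eq_mul, mul_one]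
    rw [← map_natCast (Ideal.Quotient.mk I)]
    exact Ideal.Quotient.eq_zero_iff_mem.2 hp

/-- `D`-th roots of elements which are one modulo a maximal ideal -/
theorem SUN_root {R : Type} [CommRing R] (I : Ideal R) (hI : I.IsMaximal) (hfin : Finite (R ⧸ I))
    (D j : ℕ) (hD : (D : R) ∉ I) (hj : 1 ≤ j) (x : R) (hx : x - 1 ∈ I) :
    ∃ y : R, y ^ D - x ∈ I ^ j := by
  let _ := Ideal.Quotient.field I
  obtain ⟨p, hp⟩ := CharP.exists (R ⧸ I)
  have hpp : p.Prime := CharP.char_is_prime (R ⧸ I) p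
  have hpI : (p : R) ∈ I := by
    rw [← Ideal.Quotient.eq_zero_iff_mem, map_natCast]
    exact CharP.cast_eq_zero (R ⧸ I) p
  have hpD : ¬ p ∣ D := by
    intro h
    apply hD
    rw [← Ideal.Quotient.eq_zero_iff_mem, map_natCast]
    exact (CharP.cast_eq_zero_iff (R ⧸ I) p D).2 h
  have hcop : Nat.Coprime D (p ^ j) :=
    Nat.Coprime.pow_right j ((Nat.Prime.coprime_iff_not_dvd hpp).2 hpD).symm
  have h1 : 1 < p ^ j := Nat.one_lt_pow (by omega) hpp.one_lt
  obtain ⟨e, he⟩ := Nat.exists_mul_mod_eq_one_of_coprime hcop h1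
  refine ⟨x ^ e, ?_⟩
  have h2 : (x ^ e) ^ D = (x ^ p ^ j) ^ (D * e / p ^ j) * x := by
    rw [← pow_mul, ← pow_mul, ← pow_succ]
    congr 1
    have h3 := Nat.div_add_mod (D * e) (p ^ j)
    rw [he.2] at h3
    rw [mul_comm e D]
    exact h3.symm
  have h4 : Ideal.Quotient.mk (I ^ j) (x ^ p ^ j) = 1 := by
    rw [← map_one (Ideal.Quotient.mk (I ^ j))]
    exact Ideal.Quotient.eq.2 (Ideal.pow_le_pow_right (Nat.le_succ j) (SUN_pow I p hpI x hx j))
  rw [← Ideal.Quotient.eq_zero_iff_mem, h2, map_sub, map_mul, map_pow, h4, one_pow, one_mul,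
    sub_self]

/-- the determinants of the `h(Θ)` are dense in the units -/
theorem SUN_det (h2 : St_NSF) {R : Type} [CommRing R] (I : Ideal R) (hI : I.IsMaximal)
    (hfin : Finite (R ⧸ I)) (D j : ℕ) (hD1 : 1 ≤ D) (hD : (D : R) ∉ I) (hj : 1 ≤ j)
    (Θ : Matrix (Fin D) (Fin D) R) (hs : (Θ.charpoly.map (Ideal.Quotient.mk I)).Separable)
    (a : R) (ha : a ∉ I) : ∃ h : Polynomial R, (Polynomial.aeval Θ h).det - a ∈ I ^ j := by
  have hle : I ^ j ≤ I := Ideal.pow_le_self (by omega)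
  have h3 : ∃ h : Polynomial R, Ideal.Quotient.mk I (Polynomial.aeval Θ h).det =
      Ideal.Quotient.mk I a := by
    let _ := Ideal.Quotient.field I
    obtain ⟨hF, hhF⟩ := h2 (R ⧸ I) D hD1 (Θ.map (Ideal.Quotient.mk I))
      (by rw [Matrix.charpoly_map]; exact hs) (Ideal.Quotient.mk I a)
      (fun h => ha (Ideal.Quotient.eq_zero_iff_mem.1 h))
    obtain ⟨h0, rfl⟩ := Polynomial.map_surjective (Ideal.Quotient.mk I)
      Ideal.Quotient.mk_surjective hF
    refine ⟨h0, ?_⟩
    rw [← hhF, RingHom.map_det]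
    congr 1
    have hcomp : (algebraMap (R ⧸ I) (Matrix (Fin D) (Fin D) (R ⧸ I))).comp
        (Ideal.Quotient.mk I) = ((Ideal.Quotient.mk I).mapMatrix (m := Fin D)).comp
          (algebraMap R (Matrix (Fin D) (Fin D) R)) := by
      ext r i k
      simp only [RingHom.comp_apply, RingHom.mapMatrix_apply, Matrix.map_apply,
        Matrix.algebraMap_matrix_apply]
      by_cases h : i = k
      · simp [h]
      · simp [h]
    exact Polynomial.map_aeval_eq_aeval_map hcomp h0 Θ
  obtain ⟨h0, hh0⟩ := h3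
  set δ : R := (Polynomial.aeval Θ h0).det with hδ
  have hδI : δ ∉ I := by
    intro h
    rw [Ideal.Quotient.eq_zero_iff_mem.2 h] at hh0
    exact ha (Ideal.Quotient.eq_zero_iff_mem.1 hh0.symm)
  obtain ⟨δ', hδ'⟩ := SUN_inv I hI j δ hδI
  have hx : a * δ' - 1 ∈ I := by
    have h5 : a * δ' - 1 = (δ * δ' - 1) - (δ - a) * δ' := by ring
    rw [h5]
    exact sub_mem (hle hδ') (Ideal.mul_mem_right _ _ (Ideal.Quotient.eq.1 hh0))
  obtain ⟨y, hy⟩ := SUN_root I hI hfin D j hD hj _ hx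
  refine ⟨Polynomial.C y * h0, ?_⟩
  have h6 : (Polynomial.aeval Θ (Polynomial.C y * h0)).det = y ^ D * δ := by
    rw [map_mul, Polynomial.aeval_C, ← Algebra.smul_def, Matrix.det_smul, Fintype.card_fin]
  have h7 : y ^ D * δ - a = (y ^ D - a * δ') * δ + a * (δ * δ' - 1) := by ring
  rw [h6, h7]
  exact add_mem (Ideal.mul_mem_right _ _ hy) (Ideal.mul_mem_left _ _ hδ')

/-- a separable polynomial over the field of fractions -/
theorem SUN_sep {R K : Type} [CommRing R] [IsDomain R] [Field K] [Algebra R K]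
    [IsFractionRing R K] (P : Polynomial R) (hP : (P.map (algebraMap R K)).Separable) :
    ∃ c : R, c ≠ 0 ∧ ∃ u w : Polynomial R,
      u * P + w * Polynomial.derivative P = Polynomial.C c := by
  obtain ⟨u', w', h⟩ := hP
  obtain ⟨b1, hm1, hb1⟩ := IsLocalization.integerNormalization_spec (nonZeroDivisors R) u'
  obtain ⟨b2, hm2, hb2⟩ := IsLocalization.integerNormalization_spec (nonZeroDivisors R) w'
  refine ⟨b1 * b2, mul_ne_zero (nonZeroDivisors.ne_zero hm1) (nonZeroDivisors.ne_zero hm2),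
    Polynomial.C b2 * IsLocalization.integerNormalization (nonZeroDivisors R) u',
    Polynomial.C b1 * IsLocalization.integerNormalization (nonZeroDivisors R) w', ?_⟩
  apply Polynomial.map_injective (algebraMap R K) (IsFractionRing.injective R K)
  have e1 : (b1 • u' : Polynomial K) = Polynomial.C (algebraMap R K b1) * u' := by
    rw [← Polynomial.smul_eq_C_mul, algebraMap_smul]
  have e2 : (b2 • w' : Polynomial K) = Polynomial.C (algebraMap R K b2) * w' := by
    rw [← Polynomial.smul_eq_C_mul, algebraMap_smul]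
  rw [Polynomial.map_add, Polynomial.map_mul, Polynomial.map_mul, Polynomial.map_mul,
    Polynomial.map_mul, Polynomial.map_C, Polynomial.map_C, hb1, hb2, e1, e2, Polynomial.map_C,
    map_mul, Polynomial.C_mul, ← Polynomial.derivative_map]
  linear_combination (Polynomial.C (algebraMap R K b1) * Polynomial.C (algebraMap R K b2)) * h

theorem SUN_sep2 {R : Type} [CommRing R] (P u w : Polynomial R) (c : R)
    (h : u * P + w * Polynomial.derivative P = Polynomial.C c) (I : Ideal R) (hI : I.IsMaximal)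
    (hc : c ∉ I) : (P.map (Ideal.Quotient.mk I)).Separable := by
  obtain ⟨c', i, hi, h1⟩ := hI.exists_inv hc
  refine ⟨Polynomial.C (Ideal.Quotient.mk I c') * u.map (Ideal.Quotient.mk I),
    Polynomial.C (Ideal.Quotient.mk I c') * w.map (Ideal.Quotient.mk I), ?_⟩
  have h2 := congrArg (Polynomial.map (Ideal.Quotient.mk I)) h
  rw [Polynomial.map_add, Polynomial.map_mul, Polynomial.map_mul, Polynomial.map_C,
    ← Polynomial.derivative_map] at h2
  have h3 : Ideal.Quotient.mk I c' * Ideal.Quotient.mk I c = 1 := by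
    have h4 := congrArg (Ideal.Quotient.mk I) h1
    rw [map_add, map_mul, Ideal.Quotient.eq_zero_iff_mem.2 hi, add_zero, map_one] at h4
    exact h4
  have h5 : Polynomial.C (Ideal.Quotient.mk I c') * Polynomial.C (Ideal.Quotient.mk I c) = 1 := by
    rw [← Polynomial.C_mul, h3, Polynomial.C_1]
  rw [mul_assoc, mul_assoc, ← mul_add, h2, h5]

/-- the value modulo `I` of a form at a lift -/
theorem SUN_lift {K : Type} [Field K] [NumberField K] {D : ℕ} (g : Mon D D → 𝓞 K)
    (I : Ideal (𝓞 K)) (w w' : Fin D → 𝓞 K)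
    (h : ∀ i, Ideal.Quotient.mk I (w i) = Ideal.Quotient.mk I (w' i)) :
    Ideal.Quotient.mk I (ev g w) = Ideal.Quotient.mk I (ev g w') := by
  rw [← ev_map, ← ev_map]
  congr 1
  exact funext h

/-- similitudes permute the residues -/
theorem SUN_card {K : Type} [Field K] [NumberField K] {D : ℕ} (g : Mon D D → 𝓞 K)
    (I : Ideal (𝓞 K)) (T : Matrix (Fin D) (Fin D) (𝓞 K)) (b a a' : 𝓞 K)
    (hT : ∀ w : Fin D → 𝓞 K, ev g (T.mulVec w) = T.det * ev g w)
    (hb : Ideal.Quotient.mk I T.det = Ideal.Quotient.mk I b)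
    (hu : IsUnit (Ideal.Quotient.mk I b))
    (hab : Ideal.Quotient.mk I b * Ideal.Quotient.mk I a = Ideal.Quotient.mk I a') :
    PQ (fun w => ev g w) I (Ideal.Quotient.mk _ a) =
      PQ (fun w => ev g w) I (Ideal.Quotient.mk _ a') := by
  set TA : Matrix (Fin D) (Fin D) (𝓞 K ⧸ I) := T.map (Ideal.Quotient.mk I) with hTA
  have hdet : IsUnit TA.det := by
    have h1 : TA.det = Ideal.Quotient.mk I T.det := by
      rw [RingHom.map_det]
      rfl
    rw [h1, hb]
    exact hu
  let e : (Fin D → 𝓞 K ⧸ I) ≃ (Fin D → 𝓞 K ⧸ I) :=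
    { toFun := fun ω => TA.mulVec ω
      invFun := fun ω => TA⁻¹.mulVec ω
      left_inv := fun ω => by
        show TA⁻¹.mulVec (TA.mulVec ω) = ω
        rw [Matrix.mulVec_mulVec, Matrix.nonsing_inv_mul _ hdet, Matrix.one_mulVec]
      right_inv := fun ω => by
        show TA.mulVec (TA⁻¹.mulVec ω) = ω
        rw [Matrix.mulVec_mulVec, Matrix.mul_nonsing_inv _ hdet, Matrix.one_mulVec] }
  have key : ∀ ω : Fin D → 𝓞 K ⧸ I, Ideal.Quotient.mk I (ev g (lf (e ω))) =
      Ideal.Quotient.mk I b * Ideal.Quotient.mk I (ev g (lf ω)) := by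
    intro ω
    rw [← hb, ← map_mul, ← hT]
    refine SUN_lift g I _ _ fun i => ?_
    rw [mk_lf]
    show (TA.mulVec ω) i = _
    rw [Matrix.mulVec, Matrix.mulVec, dotProduct, dotProduct, map_sum]
    refine Finset.sum_congr rfl fun k _ => ?_
    rw [map_mul, mk_lf]
    rfl
  unfold PQ
  congr 2
  refine Nat.card_congr (Equiv.subtypeEquiv e fun ω => ?_)
  show Ideal.Quotient.mk I (ev g (lf ω)) = _ ↔ Ideal.Quotient.mk I (ev g (lf (e ω))) = _
  rw [key, ← hab]
  constructor
  · intro h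
    rw [h]
  · intro h
    exact hu.mul_left_cancel h

/-- [SUN] -/
theorem thm_SUN (h1 : St_SIM) (h2 : St_NSF) : St_SUN := by
  intro K _ _ D hD g hg
  obtain ⟨Θ, hs, hΘ⟩ := h1 K D hD g hg
  obtain ⟨c, hc, u, w, hcuw⟩ := SUN_sep (R := 𝓞 K) (K := K) _ hs
  have hDne : (D : 𝓞 K) ≠ 0 := Nat.cast_ne_zero.2 (by omega)
  have hcD : Ideal.span {c * (D : 𝓞 K)} ≠ 0 := by
    rw [Ne, Ideal.zero_eq_bot, Ideal.span_singleton_eq_bot]
    exact mul_ne_zero hc hDne
  have hfin := Ideal.finite_factors hcD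
  refine ⟨hfin.toFinset, fun v hv j hj a a' ha ha' => ?_⟩
  have hv' : c * (D : 𝓞 K) ∉ v.asIdeal := fun h => hv (by
    rw [Set.Finite.mem_toFinset]
    exact Ideal.dvd_span_singleton.2 h)
  have hcv : c ∉ v.asIdeal := fun h => hv' (Ideal.mul_mem_right _ _ h)
  have hDv : (D : 𝓞 K) ∉ v.asIdeal := fun h => hv' (Ideal.mul_mem_left _ _ h)
  have hq : Finite (𝓞 K ⧸ v.asIdeal) := Ideal.finiteQuotientOfFreeOfNeBot _ v.ne_bot
  have hI := v.isMaximal
  have hle : v.asIdeal ^ j ≤ v.asIdeal := Ideal.pow_le_self (by omega)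
  obtain ⟨a1, ha1⟩ := SUN_inv v.asIdeal hI j a ha
  have hb : a1 * a' ∉ v.asIdeal := by
    intro h
    rcases v.isPrime.mem_or_mem h with h | h
    · have h3 : (1 : 𝓞 K) ∈ v.asIdeal := by
        have h4 : (1 : 𝓞 K) = a * a1 - (a * a1 - 1) := by ring
        rw [h4]
        exact sub_mem (Ideal.mul_mem_left _ _ h) (hle ha1)
      exact v.isPrime.ne_top ((Ideal.eq_top_iff_one _).2 h3)
    · exact ha' h
  obtain ⟨h, hh⟩ := SUN_det h2 v.asIdeal hI hq D j hD hDv hj Θ
    (SUN_sep2 _ u w c hcuw v.asIdeal hI hcv) _ hb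
  obtain ⟨b', hb'⟩ := SUN_inv v.asIdeal hI j _ hb
  refine SUN_card g (v.asIdeal ^ j) (Polynomial.aeval Θ h) (a1 * a') a a' (hΘ h)
    (Ideal.Quotient.eq.2 hh) ?_ ?_
  · refine IsUnit.of_mul_eq_one (Ideal.Quotient.mk (v.asIdeal ^ j) b') ?_
    rw [← map_mul, ← map_one (Ideal.Quotient.mk (v.asIdeal ^ j))]
    exact Ideal.Quotient.eq.2 hb'
  · rw [← map_mul]
    refine Ideal.Quotient.eq.2 ?_
    have h5 : a1 * a' * a - a' = (a * a1 - 1) * a' := by ring
    rw [h5]
    exact Ideal.mul_mem_right _ _ ha1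

end Pool.Agent.NRN
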