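import Pool.Agent.NRN.StS
import Pool.Agent.RHC.PHI
import Pool.Agent.RHC.TSC
import Pool.Agent.RHK.CMP
import Pool.Agent.RHC.CTYP

/-!
NRN [TYS] (helper77): typical pairs for two variables `x`.
-/

set_option autoImplicit false

namespace Pool.Agent.NRN

open scoped BigOperators
open Classical NumberField IsDedekindDomain
open Pool.Agent.RHP (Mon mono ev Sys Prim pd WB WW)
open Pool.Agent.RHK Pool.Agent.RHC Pool.Agent.NRM
open Pool.Agent.RHKB (mI hh jj qv MK uu BadK)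
open Pool.Agent.RHCB (BadC cred cemb uk PrC hM f00)

section basic

variable {K : Type} [Field K] [NumberField K]

theorem TYS_cz_add (a b : 𝓞 K) : cz (a + b) ≤ cz a + cz b := by
  unfold cz
  refine Finset.sup_le fun j _ => ?_
  have h1 : co (a + b) j = co a j + co b j := by
    unfold co
    rw [map_add]
    rfl
  have h2 : (co a j).natAbs ≤ Finset.univ.sup fun j => (co a j).natAbs :=
    Finset.le_sup (f := fun j => (co a j).natAbs) (Finset.mem_univ j)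
  have h3 : (co b j).natAbs ≤ Finset.univ.sup fun j => (co b j).natAbs :=
    Finset.le_sup (f := fun j => (co b j).natAbs) (Finset.mem_univ j)
  rw [h1]
  exact (Int.natAbs_add_le _ _).trans (add_le_add h2 h3)

theorem TYS_cz_neg (a : 𝓞 K) : cz (-a) = cz a := by
  unfold cz
  refine Finset.sup_congr rfl fun j _ => ?_
  have h1 : co (-a) j = - co a j := by
    unfold co
    rw [map_neg]
    rfl
  rw [h1, Int.natAbs_neg]

theorem TYS_cz_sub (a b : 𝓞 K) : cz (a - b) ≤ cz a + cz b := by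
  rw [sub_eq_add_neg]
  refine (TYS_cz_add _ _).trans ?_
  rw [TYS_cz_neg]

theorem TYS_memTS {Θ W : ℕ} {u : 𝓞 K} (h : u ∈ TS K Θ W) : cz u ≤ Θ := by
  unfold TS at h
  rw [Finset.mem_filter, mem_cb] at h
  exact h.1

theorem TYS_db1 (M : ℕ) :
    ((cb K M).filter fun a => ∀ i, 0 ≤ co a i ∧ co a i < M).card = M ^ dg K := by
  have h : ((cb K M).filter fun a => ∀ i, 0 ≤ co a i ∧ co a i < M) =
      (Fintype.piFinset fun _ : IX K => Finset.Ico (0 : ℤ) (M : ℤ)).map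
        (RingOfIntegers.basis K).equivFun.symm.toEquiv.toEmbedding := by
    ext a
    rw [Finset.mem_filter, Finset.mem_map_equiv, Fintype.mem_piFinset, mem_cb]
    constructor
    · rintro ⟨-, h⟩ j
      rw [Finset.mem_Ico]
      exact h j
    · intro h
      have h' : ∀ i, 0 ≤ co a i ∧ co a i < M := fun i => Finset.mem_Ico.1 (h i)
      refine ⟨?_, h'⟩
      unfold cz
      refine Finset.sup_le fun j _ => ?_
      have := h' j
      omega
  rw [h, Finset.card_map, Fintype.card_piFinset, Finset.prod_const, Finset.card_univ, card_IX,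
    Int.card_Ico]
  congr 1

theorem TYS_db (r M : ℕ) : (db K r M).card = (M ^ dg K) ^ r := by
  unfold db
  rw [Fintype.card_piFinset, Finset.prod_const, Finset.card_univ, Fintype.card_fin]
  exact congrArg (· ^ r) (TYS_db1 M)

omit [NumberField K] in
theorem TYS_avg (T : Finset (𝓞 K)) (g : 𝓞 K → ℝ) (Fm : ℝ) (hFm : 0 ≤ Fm)
    (h0 : ∀ u ∈ T, 0 ≤ g u) (h1 : ∀ u ∈ T, g u ≤ Fm) :
    0 ≤ 1 / (T.card : ℝ) * ∑ v ∈ T, g v ∧ 1 / (T.card : ℝ) * ∑ v ∈ T, g v ≤ Fm := by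
  refine ⟨mul_nonneg (by positivity) (Finset.sum_nonneg h0), ?_⟩
  rcases T.eq_empty_or_nonempty with rfl | hT
  · simpa using hFm
  · have hc : (0 : ℝ) < T.card := by exact_mod_cast hT.card_pos
    have h2 : ∑ v ∈ T, g v ≤ T.card * Fm := by
      refine (Finset.sum_le_card_nsmul T g Fm h1).trans ?_
      rw [nsmul_eq_mul]
    rw [one_div, inv_mul_le_iff₀ hc]
    exact h2

omit [NumberField K] in
theorem TYS_alt (T : Finset (𝓞 K)) (F : 𝓞 K → 𝓞 K → ℝ) (Fm : ℝ) (h0 : ∀ α β, 0 ≤ F α β)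
    (h1 : ∀ α β, F α β ≤ Fm) (α β : 𝓞 K) : |alt T F α β| ≤ 2 * Fm := by
  have hFm : 0 ≤ Fm := (h0 0 0).trans (h1 0 0)
  have a1 := TYS_avg T (fun v => F α (β + v)) Fm hFm (fun _ _ => h0 _ _) (fun _ _ => h1 _ _)
  have a2 := TYS_avg T (fun u => F (α + u) β) Fm hFm (fun _ _ => h0 _ _) (fun _ _ => h1 _ _)
  have a3 := TYS_avg T (fun u => 1 / (T.card : ℝ) * ∑ v ∈ T, F (α + u) (β + v)) Fm hFm
    (fun u _ => (TYS_avg T (fun v => F (α + u) (β + v)) Fm hFm (fun _ _ => h0 _ _)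
      (fun _ _ => h1 _ _)).1)
    (fun u _ => (TYS_avg T (fun v => F (α + u) (β + v)) Fm hFm (fun _ _ => h0 _ _)
      (fun _ _ => h1 _ _)).2)
  have e3 : 1 / (T.card : ℝ) ^ 2 * ∑ p ∈ T ×ˢ T, F (α + p.1) (β + p.2) =
      1 / (T.card : ℝ) * ∑ u ∈ T, 1 / (T.card : ℝ) * ∑ v ∈ T, F (α + u) (β + v) := by
    rw [Finset.sum_product, ← Finset.mul_sum, ← mul_assoc]
    congr 1
    rw [sq, one_div_mul_one_div]
  have b1 := h0 α β
  have b2 := h1 α β
  unfold alt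
  rw [e3, abs_le]
  constructor
  · linarith [a1.1, a1.2, a2.1, a2.2, a3.1, a3.2]
  · linarith [a1.1, a1.2, a2.1, a2.2, a3.1, a3.2]

theorem TYS_N {I : Ideal (𝓞 K)} (hI : I ≠ ⊥) : 0 < Ideal.absNorm I :=
  Nat.pos_of_ne_zero fun h => hI (Ideal.absNorm_eq_zero_iff.1 h)

theorem TYS_G0 {r : ℕ} (a : (Fin r → 𝓞 K) → 𝓞 K) (I : Ideal (𝓞 K)) : 0 ≤ GI a I := by
  unfold GI
  positivity

theorem TYS_dG (h1 : St_ABT) {r : ℕ} (a : (Fin r → 𝓞 K) → 𝓞 K) (ha : CP a) (I : Ideal (𝓞 K))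
    (hI : I ≠ ⊥) (W : ℕ) (hW : 0 < W) :
    0 ≤ GI a I - GI a (I ⊔ Ideal.span {(W : 𝓞 K)}) := by
  obtain ⟨C, hC, h⟩ := h1 K
  have hN := TYS_N hI
  set N := Ideal.absNorm I with hNdef
  have hNR : (0 : ℝ) < N := by exact_mod_cast hN
  have hG := TYS_G0 a I
  set G := GI a I with hGdef
  set dG := G - GI a (I ⊔ Ideal.span {(W : 𝓞 K)}) with hdG
  have key : ∀ n : ℕ, N ≤ n → 0 ≤ 2 * dG + C * ((N : ℝ) / n) ^ 2 * G := by
    intro n hn
    have h2 := h r a ha I 1 hI (by rw [map_one]; exact isUnit_one) (W * n) W hW (by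
      rw [Nat.mul_div_cancel_left _ hW]
      exact hn) (fun _ _ => 0) 1 0 0 0 le_rfl (fun _ _ => le_rfl) (fun _ _ => zero_le_one)
      (fun _ _ _ => rfl) (fun _ _ _ _ _ _ _ _ _ _ _ _ _ _ _ _ _ _ => by simp)
    have h3 := (abs_nonneg _).trans h2
    rw [Nat.mul_div_cancel_left _ hW, ← hNdef, ← hGdef, ← hdG] at h3
    have h4 : (0 : ℝ) < (((N : ℝ) ^ dg K) ^ r) ^ 2 / N := by positivity
    have h5 := nonneg_of_mul_nonneg_right h3 h4
    linarith
  by_contra hneg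
  rw [not_le] at hneg
  obtain ⟨n, hn⟩ := exists_nat_gt (max (N : ℝ) (C * (N : ℝ) ^ 2 * G / (-2 * dG)))
  have hn1 : (N : ℝ) < n := lt_of_le_of_lt (le_max_left _ _) hn
  have hn2 : C * (N : ℝ) ^ 2 * G / (-2 * dG) < n := lt_of_le_of_lt (le_max_right _ _) hn
  have hn3 : N ≤ n := by exact_mod_cast hn1.le
  have h6 := key n hn3
  have hn0 : (0 : ℝ) < n := hNR.trans hn1
  have hn1' : (1 : ℝ) ≤ n := by exact_mod_cast (hN.trans_le hn3 : 1 ≤ n)
  rw [div_lt_iff₀ (by linarith)] at hn2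
  have h7 : C * ((N : ℝ) / n) ^ 2 * G * n ≤ C * (N : ℝ) ^ 2 * G := by
    rw [div_pow, mul_div_assoc', div_mul_eq_mul_div, div_mul_eq_mul_div, div_le_iff₀ (by positivity)]
    have h8 : 0 ≤ C * (N : ℝ) ^ 2 * G := by positivity
    nlinarith [mul_nonneg h8 (sub_nonneg.2 hn1'), mul_nonneg (mul_nonneg h8 (sub_nonneg.2 hn1')) hn0.le]
  nlinarith

end basic

theorem TYS_real {CB CA C0 Nn E2 bx mr t k dG G N X2 Q nB th S : ℝ} (hCB : 0 < CB)
    (hCA : 0 < CA) (hC0 : 1 ≤ C0) (hNn : 0 ≤ Nn) (hE2 : 0 < E2) (hbx : 0 ≤ bx) (hmr : 1 ≤ mr)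
    (ht : 1 ≤ t) (hk : 1 ≤ k) (hdG : 0 ≤ dG) (hG : 0 ≤ G) (hN : 1 ≤ N) (hX2 : 1 ≤ X2)
    (hQ : 1 ≤ Q) (hnB0 : 0 ≤ nB) (hnB : nB ≤ C0 * Nn) (hth : N * t ≤ th) (hXm : X2 ≤ mr * N)
    (hQ3 : t * N * X2 ≤ Q)
    (hS : S ≤ 4 * (C0 * N * Nn / Q) * nB * (2 * (2 * (CB * X2 / E2 * bx))) +
      nB ^ 2 * (1 / N * (2 * (2 * (CB * X2 / E2 * bx)) * dG +
        (CA * (2 * (CB * X2 / E2 * bx)) * (N / th) ^ 2 + 4 * (CB * X2 / E2 * bx / k)) * G))) :
    S ≤ CB * (20 + 2 * CA) * C0 ^ 2 * mr * (dG + (1 / k + 1 / t) * G + 1 / t) *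
      (Nn ^ 2 / E2 * bx) := by
  have ht0 : 0 < t := by linarith
  have hk0 : 0 < k := by linarith
  have hN0 : 0 < N := by linarith
  have hQ0 : 0 < Q := by linarith
  have hX20 : 0 < X2 := by linarith
  have hmr0 : 0 < mr := by linarith
  have hC00 : 0 < C0 := by linarith
  have hth0 : 0 < th := lt_of_lt_of_le (by positivity) hth
  set P := CB * C0 ^ 2 * (Nn ^ 2 / E2 * bx) with hP
  have hP0 : 0 ≤ P := by positivity
  have e1 : 4 * (C0 * N * Nn / Q) * nB * (2 * (2 * (CB * X2 / E2 * bx))) ≤ 16 * (1 / t) * P := by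
    have a1 : N * X2 / Q ≤ 1 / t := by
      rw [div_le_div_iff₀ hQ0 ht0]
      linarith
    calc 4 * (C0 * N * Nn / Q) * nB * (2 * (2 * (CB * X2 / E2 * bx)))
        = 16 * (N * X2 / Q) * (CB * C0 * (Nn / E2 * bx)) * nB := by ring
      _ ≤ 16 * (1 / t) * (CB * C0 * (Nn / E2 * bx)) * (C0 * Nn) := by
          gcongr
      _ = 16 * (1 / t) * P := by
          rw [hP]
          ring
  have e2 : nB ^ 2 * (1 / N * (2 * (2 * (CB * X2 / E2 * bx)) * dG +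
        (CA * (2 * (CB * X2 / E2 * bx)) * (N / th) ^ 2 + 4 * (CB * X2 / E2 * bx / k)) * G)) ≤
      mr * P * (4 * dG + (2 * CA * (1 / t) + 4 * (1 / k)) * G) := by
    have a1 : X2 / N ≤ mr := by
      rw [div_le_iff₀ hN0]
      exact hXm
    have a2 : (N / th) ^ 2 ≤ 1 / t := by
      have a3 : N / th ≤ 1 / t := by
        rw [div_le_div_iff₀ hth0 ht0]
        linarith
      have a4 : 0 ≤ N / th := by positivity
      have a5 : 1 / t ≤ 1 := by
        rw [div_le_one ht0]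
        exact ht
      calc (N / th) ^ 2 ≤ (1 / t) ^ 2 := pow_le_pow_left₀ a4 a3 2
        _ = (1 / t) * (1 / t) := sq _
        _ ≤ (1 / t) * 1 := mul_le_mul_of_nonneg_left a5 (by positivity)
        _ = 1 / t := mul_one _
    calc nB ^ 2 * (1 / N * (2 * (2 * (CB * X2 / E2 * bx)) * dG +
        (CA * (2 * (CB * X2 / E2 * bx)) * (N / th) ^ 2 + 4 * (CB * X2 / E2 * bx / k)) * G))
        = nB ^ 2 * ((X2 / N) * (CB / E2 * bx) *
          (4 * dG + (2 * CA * (N / th) ^ 2 + 4 * (1 / k)) * G)) := by ring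
      _ ≤ (C0 * Nn) ^ 2 * (mr * (CB / E2 * bx) *
          (4 * dG + (2 * CA * (1 / t) + 4 * (1 / k)) * G)) := by
          gcongr
      _ = mr * P * (4 * dG + (2 * CA * (1 / t) + 4 * (1 / k)) * G) := by
          rw [hP]
          ring
  have e3 : CB * (20 + 2 * CA) * C0 ^ 2 * mr * (dG + (1 / k + 1 / t) * G + 1 / t) *
      (Nn ^ 2 / E2 * bx) = mr * P * ((20 + 2 * CA) * (dG + (1 / k + 1 / t) * G + 1 / t)) := by
    rw [hP]
    ring
  rw [e3]
  have e4 : 16 * (1 / t) * P ≤ mr * P * (16 * (1 / t)) := by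
    have : 0 ≤ P * (16 * (1 / t)) := by positivity
    nlinarith
  have e5 : mr * P * (4 * dG + (2 * CA * (1 / t) + 4 * (1 / k)) * G) + mr * P * (16 * (1 / t)) ≤
      mr * P * ((20 + 2 * CA) * (dG + (1 / k + 1 / t) * G + 1 / t)) := by
    rw [← mul_add]
    refine mul_le_mul_of_nonneg_left ?_ (by positivity)
    have b1 : 0 ≤ 1 / t := by positivity
    have b2 : 0 ≤ 1 / k := by positivity
    have b3 : 0 ≤ (1 / t) * G := by positivity
    have b4 : 0 ≤ (1 / k) * G := by positivity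
    have b5 : 0 ≤ CA * dG := by positivity
    have b6 : 0 ≤ CA * ((1 / k) * G) := by positivity
    have b7 : 0 ≤ CA * (1 / t) := by positivity
    nlinarith
  linarith

theorem TYS_sum {V : Type} [AddCommGroup V] (B : Finset V) (D1 : Finset (V × V))
    (E : V → V → ℝ) (c1 c2 : ℝ) (hD : 0 < D1.card)
    (hs : ∀ δ ∈ D1, |∑ p ∈ B ×ˢ B, E p.1 p.2 - ∑ p ∈ B ×ˢ B, E (p.1 + δ.1) (p.2 + δ.2)| ≤ c1)
    (hp : ∀ w ∈ B, ∀ w' ∈ B, |∑ δ ∈ D1, E (w + δ.1) (w' + δ.2)| ≤ (D1.card : ℝ) * c2) :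
    |∑ p ∈ B ×ˢ B, E p.1 p.2| ≤ c1 + (B.card : ℝ) ^ 2 * c2 := by
  have hDR : (0 : ℝ) < D1.card := by exact_mod_cast hD
  have e1 : (D1.card : ℝ) * ∑ p ∈ B ×ˢ B, E p.1 p.2 =
      ∑ δ ∈ D1, (∑ p ∈ B ×ˢ B, E p.1 p.2 - ∑ p ∈ B ×ˢ B, E (p.1 + δ.1) (p.2 + δ.2)) +
        ∑ p ∈ B ×ˢ B, ∑ δ ∈ D1, E (p.1 + δ.1) (p.2 + δ.2) := by
    rw [Finset.sum_sub_distrib, Finset.sum_const, nsmul_eq_mul, Finset.sum_comm (s := B ×ˢ B)]
    ring
  have e2 : |(D1.card : ℝ) * ∑ p ∈ B ×ˢ B, E p.1 p.2| ≤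
      (D1.card : ℝ) * (c1 + (B.card : ℝ) ^ 2 * c2) := by
    rw [e1]
    refine (abs_add_le _ _).trans ?_
    have b1 : |∑ δ ∈ D1, (∑ p ∈ B ×ˢ B, E p.1 p.2 -
        ∑ p ∈ B ×ˢ B, E (p.1 + δ.1) (p.2 + δ.2))| ≤ (D1.card : ℝ) * c1 := by
      refine (Finset.abs_sum_le_sum_abs _ _).trans ?_
      refine (Finset.sum_le_card_nsmul D1 _ c1 hs).trans ?_
      rw [nsmul_eq_mul]
    have b2 : |∑ p ∈ B ×ˢ B, ∑ δ ∈ D1, E (p.1 + δ.1) (p.2 + δ.2)| ≤
        (B.card : ℝ) ^ 2 * ((D1.card : ℝ) * c2) := by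
      refine (Finset.abs_sum_le_sum_abs _ _).trans ?_
      refine (Finset.sum_le_card_nsmul (B ×ˢ B) _ ((D1.card : ℝ) * c2) (fun p hpB => ?_)).trans ?_
      · rw [Finset.mem_product] at hpB
        exact hp p.1 hpB.1 p.2 hpB.2
      · rw [nsmul_eq_mul, Finset.card_product, Nat.cast_mul, sq]
    linarith
  rw [abs_mul, abs_of_pos hDR] at e2
  exact le_of_mul_le_mul_left e2 hDR

theorem TYS_filt {V : Type} (B : Finset V) (p q : V → Prop) (i1 : DecidablePred p)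
    (i2 : DecidablePred q) (h : ∀ w, p w ↔ q w) :
    (@Finset.filter V p i1 B).card = (@Finset.filter V q i2 B).card := by
  have e : @Finset.filter V p i1 B = @Finset.filter V q i2 B := by
    ext w
    rw [Finset.mem_filter, Finset.mem_filter, h w]
  rw [e]

theorem TYS_shf (h2 : St_SHF) {K : Type} [Field K] {r : ℕ} (B : Finset (Fin r → 𝓞 K))
    (δ δ' : Fin r → 𝓞 K) (b : ℝ)
    (a1 : ((B.filter fun w => (fun j => w j + δ j) ∉ B).card : ℝ) ≤ b)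
    (a2 : ((B.filter fun w => (fun j => w j - δ j) ∉ B).card : ℝ) ≤ b)
    (a3 : ((B.filter fun w => (fun j => w j + δ' j) ∉ B).card : ℝ) ≤ b)
    (a4 : ((B.filter fun w => (fun j => w j - δ' j) ∉ B).card : ℝ) ≤ b)
    (E : (Fin r → 𝓞 K) → (Fin r → 𝓞 K) → ℝ) (Em : ℝ) (hE : ∀ w w', |E w w'| ≤ Em) :
    |∑ p ∈ B ×ˢ B, E p.1 p.2 - ∑ p ∈ B ×ˢ B, E (p.1 + δ) (p.2 + δ')| ≤ 4 * b * B.card * Em := by
  refine h2 (Fin r → 𝓞 K) B δ δ' b ?_ ?_ ?_ ?_ E Em hE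
  · refine le_trans (le_of_eq (congrArg (Nat.cast (R := ℝ)) (TYS_filt B _ _ _ _ ?_))) a1
    exact fun w => Iff.rfl
  · refine le_trans (le_of_eq (congrArg (Nat.cast (R := ℝ)) (TYS_filt B _ _ _ _ ?_))) a2
    exact fun w => Iff.rfl
  · refine le_trans (le_of_eq (congrArg (Nat.cast (R := ℝ)) (TYS_filt B _ _ _ _ ?_))) a3
    exact fun w => Iff.rfl
  · refine le_trans (le_of_eq (congrArg (Nat.cast (R := ℝ)) (TYS_filt B _ _ _ _ ?_))) a4
    exact fun w => Iff.rfl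

theorem thm_TYS (h1 : St_ABT) (h2 : St_SHF) (h3 : St_CTW) (h4 : St_CMU) (h5 : St_CB1)
    (h6 : St_DTB) (h7 : St_SIZ) : St_TYS := by
  intro K _ _ D m hD hm
  have hd : 2 ≤ D * m := by nlinarith
  obtain ⟨CA, hCA, hA⟩ := h1 K
  obtain ⟨CT, hCT, hT⟩ := h3 K 2 (D * m) hd
  obtain ⟨CB, hCB, hB⟩ := h5 K 2 D m ⟨le_rfl, hD, hm⟩
  obtain ⟨CC, hCC, -, hcz, -⟩ := thm_CMP K
  refine ⟨CB * (20 + 2 * CA), by positivity, fun r c v k' m1 C0 hpar hv hk' hm1 hC0 => ?_⟩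
  have hκ' : 0 < CT * m1 * k' := by positivity
  set κ' := CT * m1 * k' with hκ'def
  have hκ : 0 < 3 * κ' := by omega
  refine ⟨3 * κ', hκ, fun W hW => ?_⟩
  obtain ⟨t1, ht1⟩ := hB c v hpar
  obtain ⟨t2, ht2⟩ := h7 K D m c v hD hm hv (2 * CC * C0 * ((3 * κ' : ℕ) : ℝ) + 1) (3 * κ') W hκ hW
  refine ⟨max (max t1 t2) (CT * k' + 1), fun t ht V H hCR B a hF x hx y hy hPxy hTy => ?_⟩
  have htt1 : t ≥ t1 := le_trans (le_trans (le_max_left _ _) (le_max_left _ _)) ht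
  have htt2 : t ≥ t2 := le_trans (le_trans (le_max_right _ _) (le_max_left _ _)) ht
  have htC : CT * k' + 1 ≤ t := le_trans (le_max_right _ _) ht
  obtain ⟨ht, hQ1, hS3, -, hS5, hS6, -⟩ := ht2 t htt2 V H hCR x hx y hy hPxy
  obtain ⟨-, hyc⟩ := ht1 t htt1 V H hCR x hx
  obtain ⟨hCv, hc2⟩ := hyc y hy hPxy
  have hH : 1 ≤ H := CTYP_H ht hCR
  obtain ⟨-, -, hP3, hP4⟩ := thm_PHI K 2 (D * m) H hH
  obtain ⟨hgx1, hgx2⟩ := CTYP_good hx
  obtain ⟨hgy1, hgy2⟩ := CTYP_good hy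
  obtain ⟨-, -, -, hwnwp, hwp1⟩ := h6 K x y
  have hwp1 := hwp1 hPxy
  obtain ⟨lam, hlu, hlam⟩ := h4 K 2 x y hgx1 hgy1
  have hI := gI_ne_bot hPxy
  have hNeq : Ideal.absNorm (gI x y) = wn x y := rfl
  have hNpos : 0 < wn x y := wn_pos hPxy
  set Θ := ThC 2 c t H (3 * κ') (D * m) with hΘ
  set I := gI x y with hIdef
  set F := cP (D * m) H x y with hFdef
  have hX1 : 1 ≤ XC 2 c t := Nat.one_le_pow _ _ ht
  have htR : (1 : ℝ) ≤ t := by exact_mod_cast ht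
  have hHR : (1 : ℝ) ≤ H := by exact_mod_cast hH
  have hXR : (1 : ℝ) ≤ (XC 2 c t : ℝ) := by exact_mod_cast hX1
  have hkR : (1 : ℝ) ≤ k' := by exact_mod_cast hk'
  have hm1R : (1 : ℝ) ≤ m1 := by exact_mod_cast hm1
  have hNR : (1 : ℝ) ≤ (wn x y : ℝ) := by exact_mod_cast hNpos
  have hQR : (1 : ℝ) ≤ (QN 2 m c t V : ℝ) := by exact_mod_cast hQ1
  have hCCR : (1 : ℝ) ≤ (CC : ℝ) := by exact_mod_cast hCC
  have hκR : (1 : ℝ) ≤ ((3 * κ' : ℕ) : ℝ) := by exact_mod_cast hκ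
  have hX2 : (1 : ℝ) ≤ ((XC 2 c t : ℝ) ^ 2) ^ dg K := one_le_pow₀ (one_le_pow₀ hXR)
  have hE2 : (0 : ℝ) < (((H : ℝ) * (XC 2 c t : ℝ) ^ (D * m)) ^ dg K) ^ 2 := by positivity
  have hHX : (0 : ℝ) < (H : ℝ) * (XC 2 c t : ℝ) ^ (D * m) := by positivity
  -- sizes
  have hbig : (2 * CC * C0 * ((3 * κ' : ℕ) : ℝ) + 1) * t * wn x y *
      (((XC 2 c t : ℝ) ^ 2) ^ dg K) ≤ QN 2 m c t V := by
    refine le_trans ?_ hS3
    refine mul_le_mul_of_nonneg_left ?_ (by positivity)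
    nlinarith
  have hQN1 : (t : ℝ) * wn x y * (((XC 2 c t : ℝ) ^ 2) ^ dg K) ≤ QN 2 m c t V := by
    refine le_trans ?_ hbig
    rw [mul_assoc, mul_assoc, mul_assoc]
    have h0 : 0 ≤ (t : ℝ) * (wn x y * (((XC 2 c t : ℝ) ^ 2) ^ dg K)) := by positivity
    have h3 : 0 ≤ 2 * CC * C0 * ((3 * κ' : ℕ) : ℝ) := by positivity
    nlinarith [mul_nonneg h3 h0]
  have hQN2 : 2 * CC * C0 * ((3 * κ' : ℕ) : ℝ) * wn x y ≤ QN 2 m c t V := by
    refine le_trans ?_ hbig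
    have h3 : 0 ≤ 2 * CC * C0 * ((3 * κ' : ℕ) : ℝ) := by positivity
    have h4 : (1 : ℝ) ≤ t * (((XC 2 c t : ℝ) ^ 2) ^ dg K) := one_le_mul_of_one_le_of_one_le htR hX2
    calc 2 * CC * C0 * ((3 * κ' : ℕ) : ℝ) * wn x y
        ≤ (2 * CC * C0 * ((3 * κ' : ℕ) : ℝ) + 1) * wn x y *
          (t * (((XC 2 c t : ℝ) ^ 2) ^ dg K)) := by
          have h5 : 2 * CC * C0 * ((3 * κ' : ℕ) : ℝ) * wn x y ≤
              (2 * CC * C0 * ((3 * κ' : ℕ) : ℝ) + 1) * wn x y :=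
            mul_le_mul_of_nonneg_right (by linarith) (by positivity)
          exact h5.trans (le_mul_of_one_le_right (by positivity) h4)
      _ = _ := by ring
  have hNQ : wn x y ≤ QN 2 m c t V := by
    have h3 : (wn x y : ℝ) ≤ QN 2 m c t V := by
      refine le_trans ?_ hQN1
      have h4 : (1 : ℝ) ≤ t * (((XC 2 c t : ℝ) ^ 2) ^ dg K) :=
        one_le_mul_of_one_le_of_one_le htR hX2
      calc (wn x y : ℝ) ≤ wn x y * (t * (((XC 2 c t : ℝ) ^ 2) ^ dg K)) :=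
            le_mul_of_one_le_right (by positivity) h4
        _ = _ := by ring
    exact_mod_cast h3
  have hΘκ : Θ * (3 * κ') ≤ H * XC 2 c t ^ (D * m) := Nat.div_mul_le_self _ _
  -- the values
  have hc2' : ∀ α β : 𝓞 K, (c2 (d := D * m) (3 * H) x y α β : ℝ) ≤
      CB * ((XC 2 c t : ℝ) ^ 2) ^ dg K / (((H : ℝ) * (XC 2 c t : ℝ) ^ (D * m)) ^ dg K) ^ 2 *
        ((box K 2 (D * m) H).card : ℝ) := by
    intro α β
    have e1 := hc2 α β
    rw [← hwnwp] at e1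
    have e2 : ((c2 (d := D * m) (3 * H) x y α β : ℝ) *
        (((H : ℝ) * (XC 2 c t : ℝ) ^ (D * m)) ^ dg K) ^ 2) * wn x y ≤
        (CB * ((XC 2 c t : ℝ) ^ 2) ^ dg K * ((box K 2 (D * m) H).card : ℝ)) * wn x y := by
      linarith
    have e3 := le_of_mul_le_mul_right e2 (by linarith)
    rw [div_mul_eq_mul_div, le_div_iff₀ hE2]
    exact e3
  have hF0 : ∀ α β, 0 ≤ F α β := fun α β => (hP3 x y α β).1
  have hF1 : ∀ α β, F α β ≤ 2 * (CB * ((XC 2 c t : ℝ) ^ 2) ^ dg K /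
      (((H : ℝ) * (XC 2 c t : ℝ) ^ (D * m)) ^ dg K) ^ 2 * ((box K 2 (D * m) H).card : ℝ)) :=
    fun α β => (hP3 x y α β).2.trans (mul_le_mul_of_nonneg_left (hc2' α β) (by norm_num))
  have hFz : ∀ α β : 𝓞 K, β - lam ^ (D * m) * α ∉ I → F α β = 0 := by
    intro α β hαβ
    rw [hFdef]
    unfold cP
    refine Finset.sum_eq_zero fun f hf => ?_
    rw [Finset.mem_filter] at hf
    exact absurd (by rw [← hf.2.1, ← hf.2.2]; exact hlam (D * m) f) hαβ
  have hL : ∀ w ∈ B, ∀ δ ∈ db K r (wn x y), ∀ ε ∈ db K r (wn x y),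
      cz (a (fun j => w j + δ j) - a (fun j => w j + ε j)) * (3 * κ') ≤
        H * XC 2 c t ^ (D * m) := by
    intro w hw δ hδ ε hε
    have e1 : ∀ v : InfinitePlace K, av v (a (fun j => w j + δ j) - a (fun j => w j + ε j)) ≤
        2 * (C0 * wn x y * (H * (XC 2 c t : ℝ) ^ (D * m))) / QN 2 m c t V := by
      intro v
      have e2 := hF.lip (wn x y) hNpos hNQ w hw δ hδ v
      have e3 := hF.lip (wn x y) hNpos hNQ w hw ε hε v
      have e4 : a (fun j => w j + δ j) - a (fun j => w j + ε j) =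
          (a (fun j => w j + δ j) - a w) - (a (fun j => w j + ε j) - a w) := by ring
      rw [e4, le_div_iff₀ (by linarith)]
      refine (mul_le_mul_of_nonneg_right (av_sub_le v _ _) (by positivity)).trans ?_
      linarith
    have e5 := hcz _ _ e1
    have e6 : (cz (a (fun j => w j + δ j) - a (fun j => w j + ε j)) : ℝ) * ((3 * κ' : ℕ) : ℝ) ≤
        H * (XC 2 c t : ℝ) ^ (D * m) := by
      refine (mul_le_mul_of_nonneg_right e5 (by positivity)).trans ?_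
      calc (CC : ℝ) * (2 * (C0 * wn x y * (H * (XC 2 c t : ℝ) ^ (D * m))) / QN 2 m c t V) *
            ((3 * κ' : ℕ) : ℝ)
          = (2 * CC * C0 * ((3 * κ' : ℕ) : ℝ) * wn x y) / QN 2 m c t V *
            (H * (XC 2 c t : ℝ) ^ (D * m)) := by ring
        _ ≤ 1 * (H * (XC 2 c t : ℝ) ^ (D * m)) := by
            refine mul_le_mul_of_nonneg_right ?_ hHX.le
            rw [div_le_one (by linarith)]
            exact hQN2
        _ = _ := one_mul _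
    exact_mod_cast e6
  have hM : ∀ w ∈ B, ∀ δ ∈ db K r (wn x y), ∀ ε ∈ db K r (wn x y), ∀ u ∈ TS K Θ W,
      ∀ u' ∈ TS K Θ W,
      cz ((a (fun j => w j + δ j) + u) - (a (fun j => w j + ε j) + u')) * κ' ≤
        H * XC 2 c t ^ (D * m) := by
    intro w hw δ hδ ε hε u hu u' hu'
    have e1 := hL w hw δ hδ ε hε
    have e2 : (a (fun j => w j + δ j) + u) - (a (fun j => w j + ε j) + u') =
        (a (fun j => w j + δ j) - a (fun j => w j + ε j)) + (u - u') := by ring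
    have e3 := TYS_cz_add (a (fun j => w j + δ j) - a (fun j => w j + ε j)) (u - u')
    have e4 := TYS_cz_sub u u'
    have e5 := TYS_memTS hu
    have e6 := TYS_memTS hu'
    rw [e2]
    have e7 : cz ((a (fun j => w j + δ j) - a (fun j => w j + ε j)) + (u - u')) ≤
        cz (a (fun j => w j + δ j) - a (fun j => w j + ε j)) + (Θ + Θ) := by omega
    have e8 : cz ((a (fun j => w j + δ j) - a (fun j => w j + ε j)) + (u - u')) * (3 * κ') ≤
        3 * (H * XC 2 c t ^ (D * m)) := by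
      refine (Nat.mul_le_mul_right _ e7).trans ?_
      rw [add_mul, add_mul]
      omega
    have e9 : 3 * (cz ((a (fun j => w j + δ j) - a (fun j => w j + ε j)) + (u - u')) * κ') ≤
        3 * (H * XC 2 c t ^ (D * m)) := by
      refine le_trans (le_of_eq ?_) e8
      ring
    exact Nat.le_of_mul_le_mul_left e9 (by norm_num)
  -- the average over the shifts, for one pair
  have hlu' : IsUnit (Ideal.Quotient.mk I (lam ^ (D * m))) := by
    rw [map_pow]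
    exact hlu.pow _
  have hpair : ∀ w ∈ B, ∀ w' ∈ B,
      |∑ δ ∈ db K r (Ideal.absNorm I) ×ˢ db K r (Ideal.absNorm I),
        alt (TS K Θ W) F (a fun j => w j + δ.1 j) (a fun j => w' j + δ.2 j)| ≤
      ((((Ideal.absNorm I : ℝ) ^ dg K) ^ r) ^ 2) / Ideal.absNorm I *
        (2 * (2 * (CB * ((XC 2 c t : ℝ) ^ 2) ^ dg K /
          (((H : ℝ) * (XC 2 c t : ℝ) ^ (D * m)) ^ dg K) ^ 2 * ((box K 2 (D * m) H).card : ℝ))) *
          (GI a I - GI a (I ⊔ Ideal.span {(W : 𝓞 K)})) +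
          (CA * (2 * (CB * ((XC 2 c t : ℝ) ^ 2) ^ dg K /
          (((H : ℝ) * (XC 2 c t : ℝ) ^ (D * m)) ^ dg K) ^ 2 * ((box K 2 (D * m) H).card : ℝ))) *
            ((Ideal.absNorm I : ℝ) / ((Θ / W : ℕ) : ℝ)) ^ 2 +
            4 * (CB * ((XC 2 c t : ℝ) ^ 2) ^ dg K /
          (((H : ℝ) * (XC 2 c t : ℝ) ^ (D * m)) ^ dg K) ^ 2 * ((box K 2 (D * m) H).card : ℝ) /
            k')) * GI a I) := by
    intro w hw w' hw'
    refine hA r a hF.loc.cp I (lam ^ (D * m)) hI hlu' Θ W hW hS6 F _ _ w w' (by positivity) hF0 hF1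
      hFz ?_
    intro δ hδ δ' hδ' ε hε ε' hε' u hu v hv u' hu' v' hv' hc1 hc2
    rw [hNeq] at hδ hδ' hε hε'
    obtain ⟨z, hz1, hz2, hz3⟩ := hT (XC 2 c t) H κ' m1 k' ((H : ℝ) / t) x y (lam ^ (D * m)) hX1
      hgx1 hgy1 hgx2 hgy2 hPxy hCv (by positivity) (hlam (D * m)) hTy hk' le_rfl (by
        rw [mul_div_assoc', div_le_iff₀ (by linarith), mul_comm]
        apply mul_le_mul_of_nonneg_left _ (by linarith)
        exact_mod_cast (by omega : CT * k' ≤ t))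
      ((a (fun j => w j + δ j) + u) - (a (fun j => w j + ε j) + u'))
      ((a (fun j => w' j + δ' j) + v) - (a (fun j => w' j + ε' j) + v')) (by
        have e1 := I.sub_mem hc1 hc2
        have e2 : (a (fun j => w' j + δ' j) + v) - (a (fun j => w' j + ε' j) + v') -
            lam ^ (D * m) * ((a (fun j => w j + δ j) + u) - (a (fun j => w j + ε j) + u')) =
            ((a (fun j => w' j + δ' j) + v) - lam ^ (D * m) * (a (fun j => w j + δ j) + u)) -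
            ((a (fun j => w' j + ε' j) + v') - lam ^ (D * m) * (a (fun j => w j + ε j) + u')) := by
          ring
        rw [e2]
        exact e1)
      (hM w hw δ hδ ε hε u hu u' hu') (hM w' hw' δ' hδ' ε' hε' v hv v' hv')
    have e3 := hP4 x y (a (fun j => w j + ε j) + u') (a (fun j => w' j + ε' j) + v') _ _ z k' hk'
      hz1 hz2 hz3
    rw [add_sub_cancel, add_sub_cancel] at e3
    refine e3.trans ?_
    rw [one_div, inv_mul_eq_div]
    exact div_le_div_of_nonneg_right (hc2' _ _) (by linarith)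
  have hDc : (((db K r (Ideal.absNorm I) ×ˢ db K r (Ideal.absNorm I)).card : ℕ) : ℝ) =
      (((Ideal.absNorm I : ℝ) ^ dg K) ^ r) ^ 2 := by
    rw [Finset.card_product, TYS_db]
    push_cast
    ring
  have hDpos : 0 < (db K r (Ideal.absNorm I) ×ˢ db K r (Ideal.absNorm I)).card := by
    rw [Finset.card_product, TYS_db, hNeq]
    positivity
  have hsum := TYS_sum B (db K r (Ideal.absNorm I) ×ˢ db K r (Ideal.absNorm I))
    (fun w w' => alt (TS K Θ W) F (a w) (a w'))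
    (4 * (C0 * wn x y * (((QN 2 m c t V : ℝ) ^ r) ^ dg K) / QN 2 m c t V) * B.card *
      (2 * (2 * (CB * ((XC 2 c t : ℝ) ^ 2) ^ dg K /
          (((H : ℝ) * (XC 2 c t : ℝ) ^ (D * m)) ^ dg K) ^ 2 * ((box K 2 (D * m) H).card : ℝ)))))
    (1 / wn x y *
        (2 * (2 * (CB * ((XC 2 c t : ℝ) ^ 2) ^ dg K /
          (((H : ℝ) * (XC 2 c t : ℝ) ^ (D * m)) ^ dg K) ^ 2 * ((box K 2 (D * m) H).card : ℝ))) *
          (GI a I - GI a (I ⊔ Ideal.span {(W : 𝓞 K)})) +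
          (CA * (2 * (CB * ((XC 2 c t : ℝ) ^ 2) ^ dg K /
          (((H : ℝ) * (XC 2 c t : ℝ) ^ (D * m)) ^ dg K) ^ 2 * ((box K 2 (D * m) H).card : ℝ))) *
            ((wn x y : ℝ) / ((Θ / W : ℕ) : ℝ)) ^ 2 +
            4 * (CB * ((XC 2 c t : ℝ) ^ 2) ^ dg K /
          (((H : ℝ) * (XC 2 c t : ℝ) ^ (D * m)) ^ dg K) ^ 2 * ((box K 2 (D * m) H).card : ℝ) /
            k')) * GI a I)) hDpos
    (by
      intro δ hδ
      rw [Finset.mem_product, hNeq] at hδ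
      have hsh : ∀ ε ∈ db K r (wn x y),
          ((B.filter fun w => (fun j => w j + ε j) ∉ B).card : ℝ) ≤
            C0 * wn x y * (((QN 2 m c t V : ℝ) ^ r) ^ dg K) / QN 2 m c t V ∧
          ((B.filter fun w => (fun j => w j - ε j) ∉ B).card : ℝ) ≤
            C0 * wn x y * (((QN 2 m c t V : ℝ) ^ r) ^ dg K) / QN 2 m c t V := by
        intro ε hε
        have e1 := hF.shift (wn x y) hNpos ε hε
        refine ⟨?_, ?_⟩
        · rw [le_div_iff₀ (by linarith)]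
          exact e1.1
        · rw [le_div_iff₀ (by linarith)]
          exact e1.2
      exact TYS_shf h2 B δ.1 δ.2 _ (hsh δ.1 hδ.1).1 (hsh δ.1 hδ.1).2 (hsh δ.2 hδ.2).1
        (hsh δ.2 hδ.2).2 (fun w w' => alt (TS K Θ W) F (a w) (a w')) _
        (fun w w' => TYS_alt (TS K Θ W) F _ hF0 hF1 (a w) (a w')))
    (by
      intro w hw w' hw'
      refine (hpair w hw w' hw').trans (le_of_eq ?_)
      rw [hDc, hNeq]
      ring)
  have hXm : ((XC 2 c t : ℝ) ^ 2) ^ dg K ≤ (m1 : ℝ) ^ dg K * wn x y := by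
    rw [hwnwp, ← prod_pow_mult (K := K), ← prod_pow_mult (K := K) (m1 : ℝ)]
    unfold wp
    rw [← Finset.prod_mul_distrib]
    refine Finset.prod_le_prod (fun v _ => by positivity) fun v _ => ?_
    rw [← mul_pow]
    exact pow_le_pow_left₀ (by positivity) (hTy v) _
  exact TYS_real hCB hCA hC0 (by positivity) hE2 (Nat.cast_nonneg _) (one_le_pow₀ hm1R) htR hkR
    (TYS_dG h1 a hF.loc.cp I hI W hW) (TYS_G0 a I) hNR hX2 hQR (Nat.cast_nonneg _) hF.card hS5 hXm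
    hQN1 hsum

end Pool.Agent.NRN
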