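import Pool.Agent.NRN.StG
import Pool.Agent.NRM.LNP
import Pool.Agent.NRM.VDQN

/-!
NRN, block G, [ZRO]: the number of the zeros of `g` modulo a prime ideal (helper91).
-/

set_option autoImplicit false

namespace Pool.Agent.NRN

open scoped BigOperators
open Classical NumberField IsDedekindDomain
open Pool.Agent.RHP (Mon mono ev Sys Prim pd WB WW ev_map)
open Pool.Agent.RHK Pool.Agent.RHC Pool.Agent.NRM
open Pool.Agent.RHKB (mI hh jj qv MK uu BadK)
open Pool.Agent.RHCB (BadC cred cemb uk PrC hM f00)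

/-- zeros on a line over a domain -/
theorem ZRO_line {B : Type} [CommRing B] [IsDomain B] {r D : ℕ} (G : Mon r D → B)
    (e : Fin r → B) (he : ev G e ≠ 0) (w0 : Fin r → B) :
    (Nat.card {T : B // ev G (fun j => w0 j + T * e j) = 0} : ℝ) ≤ D := by
  obtain ⟨P, hP, hPD, hPc⟩ := thm_LNP B r D G w0 e
  have hP0 : P ≠ 0 := by
    rintro rfl
    rw [Polynomial.coeff_zero] at hPc
    exact he hPc.symm
  let F : {T : B // ev G (fun j => w0 j + T * e j) = 0} → {T : B // T ∈ P.roots.toFinset} :=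
    fun T => ⟨T.1, by
      rw [Multiset.mem_toFinset, Polynomial.mem_roots hP0, Polynomial.IsRoot.def, hP]
      exact T.2⟩
  have hF : Function.Injective F := by
    intro T T' h
    exact Subtype.ext (congrArg (fun z : {T : B // T ∈ P.roots.toFinset} => z.1) h)
  have h1 := Nat.card_le_card_of_injective F hF
  rw [Nat.card_eq_fintype_card (α := {T : B // T ∈ P.roots.toFinset}), Fintype.card_coe] at h1
  have h2 : P.roots.toFinset.card ≤ D :=
    (Multiset.toFinset_card_le _).trans ((Polynomial.card_roots' P).trans hPD)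
  exact_mod_cast h1.trans h2

/-- finitely many prime ideals contain a given nonzero integer -/
theorem ZRO_fin {K : Type} [Field K] [NumberField K] (c : 𝓞 K) (hc : c ≠ 0) :
    {v : HeightOneSpectrum (𝓞 K) | c ∈ v.asIdeal}.Finite := by
  have h1 : Ideal.span {c} ≠ 0 := by
    rwa [Ne, Ideal.zero_eq_bot, Ideal.span_singleton_eq_bot]
  refine (Ideal.finite_factors h1).subset fun v hv => ?_
  exact Ideal.dvd_span_singleton.2 hv

/-- [ZRO] -/
theorem thm_ZRO : St_ZRO := by
  intro K _ _ r D g hg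
  have : Infinite (𝓞 K) := Infinite.of_injective (Nat.cast : ℕ → 𝓞 K) Nat.cast_injective
  obtain ⟨e, he⟩ := VG_exists g hg
  refine ⟨(ZRO_fin (ev g e) he).toFinset, fun v hv => ?_⟩
  rw [Set.Finite.mem_toFinset] at hv
  have hv' : ev g e ∉ v.asIdeal := hv
  have hfin : Finite (𝓞 K ⧸ v.asIdeal) := Ring.HasFiniteQuotients.finiteQuotient v.ne_bot
  have hdom : IsDomain (𝓞 K ⧸ v.asIdeal) := by
    have := v.isPrime
    infer_instance
  have hcard : Nat.card (𝓞 K ⧸ v.asIdeal) = qv v := by
    unfold qv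
    rw [Ideal.absNorm_apply, Submodule.cardQuot_apply]
  have h1 := VDQN_card (fun μ => Ideal.Quotient.mk v.asIdeal (g μ))
    (fun j => Ideal.Quotient.mk v.asIdeal (e j)) 0 (D : ℝ)
    (ZRO_line (fun μ => Ideal.Quotient.mk v.asIdeal (g μ))
      (fun j => Ideal.Quotient.mk v.asIdeal (e j)) (by
        rw [ev_map, Ne, Ideal.Quotient.eq_zero_iff_mem]
        exact hv'))
  have h2 : ∀ ω : Fin r → 𝓞 K ⧸ v.asIdeal, Ideal.Quotient.mk v.asIdeal (ev g (lf ω)) =
      ev (fun μ => Ideal.Quotient.mk v.asIdeal (g μ)) ω := by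
    intro ω
    rw [← ev_map]
    congr 1
    funext j
    exact mk_lf ω j
  unfold PQ
  simp only [h2]
  rw [hcard] at h1
  have hq : (0 : ℝ) < (qv v : ℝ) := by
    rw [← hcard]
    exact_mod_cast Nat.card_pos
  change _ / (qv v : ℝ) ^ r * (qv v : ℝ) ≤ D
  rw [div_mul_eq_mul_div, div_le_iff₀ (pow_pos hq r)]
  linarith

end Pool.Agent.NRN
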