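import Pool.Agent.NRN.ABT
import Pool.Agent.NRN.ABU
import Pool.Agent.NRN.ACM
import Pool.Agent.NRN.ATS
import Pool.Agent.NRN.AVT
import Pool.Agent.NRN.Asm
import Pool.Agent.NRN.CB1
import Pool.Agent.NRN.CMU
import Pool.Agent.NRN.CP1
import Pool.Agent.NRN.CTW
import Pool.Agent.NRN.CUB
import Pool.Agent.NRN.DGA
import Pool.Agent.NRN.DLX
import Pool.Agent.NRN.DT1
import Pool.Agent.NRN.DTB
import Pool.Agent.NRN.EQI
import Pool.Agent.NRN.FAC
import Pool.Agent.NRN.FAR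
import Pool.Agent.NRN.FBR
import Pool.Agent.NRN.FCD
import Pool.Agent.NRN.FDI
import Pool.Agent.NRN.FLG
import Pool.Agent.NRN.FLI
import Pool.Agent.NRN.FLM
import Pool.Agent.NRN.FN1
import Pool.Agent.NRN.FP1
import Pool.Agent.NRN.GBA
import Pool.Agent.NRN.GDF
import Pool.Agent.NRN.GEX
import Pool.Agent.NRN.GPF
import Pool.Agent.NRN.HP1
import Pool.Agent.NRN.IP1
import Pool.Agent.NRN.LGB
import Pool.Agent.NRN.LL1
import Pool.Agent.NRN.LOK
import Pool.Agent.NRN.LP1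
import Pool.Agent.NRN.NL1
import Pool.Agent.NRN.NSF
import Pool.Agent.NRN.PEX
import Pool.Agent.NRN.PLB
import Pool.Agent.NRN.PO1
import Pool.Agent.NRN.PS1
import Pool.Agent.NRN.PS2
import Pool.Agent.NRN.RTS
import Pool.Agent.NRN.SG2
import Pool.Agent.NRN.SHA
import Pool.Agent.NRN.SHF
import Pool.Agent.NRN.SIM
import Pool.Agent.NRN.SIZ
import Pool.Agent.NRN.SL1
import Pool.Agent.NRN.SM1
import Pool.Agent.NRN.SP1
import Pool.Agent.NRN.SUN
import Pool.Agent.NRN.TP1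
import Pool.Agent.NRN.TYS
import Pool.Agent.NRN.ZRO

/-!
NRN: the Hasse principle and weak approximation for one hundred percent of the equations `g(w) = f(x)`, also with two
variables `x`, over a number field (helper95).
-/

set_option autoImplicit false

namespace Pool.Agent.NRN

open scoped BigOperators
open Classical NumberField IsDedekindDomain
open Pool.Agent.RHP (Mon)
open Pool.Agent.RHK Pool.Agent.RHC Pool.Agent.NRM
open Pool.Agent.RHCB (InC)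

theorem block_CB1 : St_CB1 := thm_CB1 block_CWR block_COV1 block_COV2 block_T1 block_T2
theorem block_CP1 : St_CP1 := thm_CP1 block_CB1 thm_PHI thm_DLT thm_TSC thm_PAR RHM.block_PBC
theorem block_CTW : St_CTW := thm_CTW thm_RF2 thm_GCD thm_CMP
theorem block_SUN : St_SUN := thm_SUN thm_SIM thm_NSF
theorem block_LGB : St_LGB := thm_LGB thm_GBA block_SUN thm_ZRO
theorem block_SHA : St_SHA := thm_SHA thm_GBA
theorem block_FLG : St_FLG := thm_FLG thm_GBA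
theorem block_ABU : St_ABU := thm_ABU block_SHA thm_FLM thm_GBA
theorem block_EQI : St_EQI := thm_EQI thm_FBR thm_DTB
theorem block_SIZ : St_SIZ := thm_SIZ thm_DTB

/-- block B, for two or more variables `x` -/
theorem block_B : St_LL1 ∧ St_TP1 ∧ St_HP1 ∧ St_LP1 := by
  have hCUP := RHKB.thm_CUP RHKB.thm_LAT2 RHKB.thm_LAT3
  have hNPRB := RHKB.thm_NPRB hCUP RHKB.thm_LAT3 RHKB.thm_PRS RHKB.thm_PLW
  have hCLOW := RHKB.thm_CLOW RHKB.thm_LAT1
  have hUIFT := thm_UIFTN thm_IFTN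
  have hPCN := thm_PCNN RHKB.thm_PLV
  have hNPR := thm_NPRN hNPRB hCUP
  have hCEN := thm_CENN RHKB.thm_SEP
  have hSML := thm_SMLN RHKB.thm_LIPK RHKB.thm_LAT2 RHKB.thm_PLW
  have hRC := thm_RCN hCEN hSML hCLOW hNPR RHKB.thm_PLW
  have hBADG := RHKB.thm_BADG RHKB.thm_TRIG RHKB.thm_LIPK
  have hBADVW := RHKB.thm_BADVW hBADG (RHKB.thm_NETV RHKB.thm_PLV)
    (RHKB.thm_DISCV RHKB.thm_PLV RHKB.thm_EQU)
    (RHKB.thm_NETW RHKB.thm_PLW) (RHKB.thm_DISCW RHKB.thm_PLW) RHKB.thm_PLV RHKB.thm_PLW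
  have hBAD := RHCB.thm_BADC hBADVW
  have hEQU := RHCB.thm_EQUC RHKB.thm_EQU
  have hWAB := thm_WABN thm_CRTN
  have hSL := thm_SL1 hWAB hBAD hUIFT hPCN hEQU RHKB.thm_PLV
  have hNG := RHCB.thm_NGCC RHK.block_NG
  have hNL := thm_NL1 hNG hCUP block_GZ
  have hDT := thm_DT1 hRC hNL
  have hNZ0 := thm_NZ0N thm_IFTN
  have hSP := thm_SP1 hWAB hNZ0 hPCN (RHCB.thm_EQLC RHKB.thm_EQL) RHKB.thm_PLV
  exact ⟨thm_LL1 hSL hBAD hUIFT RHKB.thm_PLW hDT,
    thm_TP1 (thm_FP1 thm_CONE RHKB.thm_PLV) (thm_IP1 RHKB.thm_PLW) (RHCW.thm_SZC hBAD),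
    thm_HP1 thm_CONE, thm_LP1 hSP hNZ0 RHKB.thm_PLW hDT⟩

theorem block_PO1 : St_PO1 := thm_PO1 block_B.2.2.2 thm_CUB

theorem block_GPF : St_GPF := thm_GPF thm_GBA
theorem block_GEX : St_GEX := thm_GEX thm_GBA block_GPF thm_PEX
theorem block_GDF : St_GDF := thm_GDF thm_GBA block_GPF thm_PEX
theorem block_LOK : St_LOK := thm_LOK block_LGB thm_GBA thm_PLB
theorem block_SG2 : St_SG2 := thm_SG2 thm_GBA block_GEX block_LOK
theorem block_FAC : St_FAC := thm_FAC thm_PLB thm_RTS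
theorem block_FAR : St_FAR := thm_FAR block_LOK thm_DGA thm_FCD thm_FDI thm_FLI block_FAC
theorem block_PS1 : St_PS1 := thm_PS1 block_EQI block_GEX block_GDF thm_GBA thm_DTB
theorem block_PS2 : St_PS2 := thm_PS2 block_EQI block_GEX thm_DTB
theorem block_ABT : St_ABT := thm_ABT block_SHA thm_AVT thm_FLM block_FLG block_ABU thm_GBA
theorem block_TYS : St_TYS :=
  thm_TYS block_ABT thm_SHF block_CTW thm_CMU block_CB1 thm_DTB block_SIZ
theorem block_ATS : St_ATS :=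
  thm_ATS block_ABU thm_SHF thm_ACM thm_CMU block_CB1 thm_DTB block_SIZ thm_GBA
theorem block_SM1 : St_SM1 :=
  thm_SM1 block_TYS block_ATS block_CP1 block_PS1 block_PS2 thm_DLX thm_DTB thm_GBA
theorem block_FN1 : St_FN1 := thm_FN1 block_B.1 thm_CUB

/-- the theorem for polynomials with at least two variables `x` -/
theorem main_all (K : Type) [Field K]
    [NumberField K] (n r D m : ℕ) (hn : 1 ≤ n) (hD : 2 ≤ D) (hm : 1 ≤ m)
    (g : MvPolynomial (Fin r) (𝓞 K)) (hg : g.IsHomogeneous D) (hg0 : g ≠ 0)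
    (hF : (2 ≤ n ∧ m * (D - 1) ≤ n) ∨
      (DecP D g ∧ m * D ≤ n + m * r ∧ (2 ≤ n ∨ r = D))) :
    (∃ c : ℝ, 0 < c ∧ ∀ᶠ H : ℕ in Filter.atTop,
      c * (({f | InC (D * m) H f} : Set (MvPolynomial (Fin (n + 1)) (𝓞 K))).ncard : ℝ) ≤
      (({f | InC (D * m) H f ∧ (SmoP g f ∧ LocP g f)} :
        Set (MvPolynomial (Fin (n + 1)) (𝓞 K))).ncard : ℝ)) ∧
    ∀ (S : Finset (HeightOneSpectrum (𝓞 K))) (η : ℝ), 0 < η → Filter.Tendsto (fun H : ℕ =>
      (({f | InC (D * m) H f ∧ (SmoP g f ∧ HasPtP g f K ∧ AppP D m S η g f)} :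
        Set (MvPolynomial (Fin (n + 1)) (𝓞 K))).ncard : ℝ) /
      (({f | InC (D * m) H f ∧ (SmoP g f ∧ LocP g f)} :
        Set (MvPolynomial (Fin (n + 1)) (𝓞 K))).ncard : ℝ)) Filter.atTop (nhds 1) :=
  main_all_of block_SM1 block_FAR block_SG2 block_FN1 block_PO1 block_B.2.1 block_B.2.2.1
    K n r D m hn hD hm g hg hg0 hF

end Pool.Agent.NRN
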