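import Pool.Agent.NRN.Defs

/-!
NRN, block G (residues): statements of the modules (helper95).  Every module proves `theorem thm_NAME : St_NAME`,
or `theorem thm_NAME (h : St_OTHER) ... : St_NAME`, in the file `Pool/Agent/NRN/NAME.lean`, namespace
`Pool.Agent.NRN`, using other statements (of this file, RHK/StA, RHKB/StB, RHCB/StB, RHC/StA, NRM) as hypotheses
or imports of the finished theorems.  `N(I) = absNorm I`, `rho = dg K`, `M = MM D`.  `PQ`, `GI`, `LOC`, `db`, `alt`,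
`UV` are in `Pool/Agent/NRN/Defs.lean`.
-/

set_option autoImplicit false

namespace Pool.Agent.NRN

open scoped BigOperators
open Classical NumberField IsDedekindDomain
open Pool.Agent.RHP (Mon mono ev Sys Prim pd WB WW)
open Pool.Agent.RHK Pool.Agent.RHC Pool.Agent.NRM
open Pool.Agent.RHKB (mI hh jj qv MK uu BadK)
open Pool.Agent.RHCB (BadC cred cemb uk PrC hM f00)

/-! ### Distribution of congruence preserving maps -/

/-- [GBA] basic facts on `PQ` and `GI`.  PROOF.  `I ≠ ⊥`, so the quotient is finite with `N = N(I)` elements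
(`Ideal.absNorm_apply`, `Submodule.cardQuot_apply`).  First: the pairs are grouped by the common value `c`.
Second: every `ω` has one value.  Third (reduction): for `I ≤ J` the map `(O/I)^r → (O/J)^r` is onto with fibres of
`(N(I)/N(J))^r` elements, and `a (lf ω)` modulo `J` depends on the class of `ω` modulo `J` only (`CP`).
Fourth: Cauchy-Schwarz for the fibres of `O/I → O/J`, which have `N(I)/N(J)` elements:
`N(J) PQ_J(c)^2 ≤ N(J) (N(I)/N(J)) ∑_(c' ↦ c) PQ_I(c')^2`.  Fifth: `J = ⊤` in the fourth (`GI a ⊤ = 1`: one class).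
Sixth: Chinese remainder theorem (`Ideal.quotientMulEquivQuotientProd`) for the vectors and the values;
`a (lf ω)` modulo `I` depends on `ω` modulo `I` only.  Last: `PQ` from lifts: for all `w` with
`mk (w j) = ω j` one has `mk (a w) = mk (a (lf ω))`. -/
def St_GBA : Prop :=
  ∀ (K : Type) [Field K] [NumberField K] (r : ℕ) (a : (Fin r → 𝓞 K) → 𝓞 K), CP a →
    ∀ I : Ideal (𝓞 K), I ≠ ⊥ →
    (∀ [Fintype (𝓞 K ⧸ I)], GI a I = (Ideal.absNorm I : ℝ) * ∑ c : 𝓞 K ⧸ I, PQ a I c ^ 2) ∧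
    (∀ [Fintype (𝓞 K ⧸ I)], ∑ c : 𝓞 K ⧸ I, PQ a I c = 1) ∧
    (∀ J : Ideal (𝓞 K), ∀ h : I ≤ J, ∀ [Fintype (𝓞 K ⧸ I)] (c : 𝓞 K ⧸ J),
      PQ a J c = ∑ c' ∈ Finset.univ.filter (fun c' => Ideal.Quotient.factor h c' = c), PQ a I c') ∧
    (∀ J : Ideal (𝓞 K), I ≤ J → GI a J ≤ GI a I) ∧
    (1 ≤ GI a I ∧ GI a ⊤ = 1) ∧
    (∀ J : Ideal (𝓞 K), J ≠ ⊥ → IsCoprime I J → GI a (I * J) = GI a I * GI a J) ∧
    ∀ (ω : Fin r → 𝓞 K ⧸ I) (w : Fin r → 𝓞 K), (∀ j, Ideal.Quotient.mk I (w j) = ω j) →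
      Ideal.Quotient.mk I (a w) = Ideal.Quotient.mk I (a (lf ω))

/-- [PEX] expansion of products (real numbers only).  PROOF.
`∏_i ∑_(j ≤ e_i) g i j = ∑_(k, k_i ≤ e_i) ∏_i g i (k_i)` (`Finset.prod_univ_sum`).  Exchange the sums over `u` and
over the `k` with all `k_i ≤ E`: first sum `≤ ∑_k (∏ g i (k_i)) Z/∏ N_i^(k_i) = Z ∏_i ∑_(j ≤ E) g i j/N_i^j`.  In the
second sum only the `k ≤ e_u` with `w_i < k_i` for some `i` remain; for given `i` the sum over these `k` is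
`Z (∑_(w_i < j ≤ E) g i j/N_i^j) ∏_(i' ≠ i) (...)`, and every factor of the product is at least `g i' 0 = 1`. -/
def St_PEX : Prop :=
  ∀ (ι U : Type) [Fintype ι] (g : ι → ℕ → ℝ) (N : ι → ℝ) (S : Finset U) (e : U → ι → ℕ)
    (w : ι → ℕ) (E : ℕ) (Z : ℝ), (∀ i j, 0 ≤ g i j) → (∀ i, g i 0 = 1) → (∀ i, 1 ≤ N i) → 0 ≤ Z →
    (∀ u ∈ S, ∀ i, e u i ≤ E) →
    (∀ k : ι → ℕ, (∀ i, k i ≤ E) →
      ((S.filter fun u => ∀ i, k i ≤ e u i).card : ℝ) * ∏ i, N i ^ k i ≤ Z) →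
    ∑ u ∈ S, ∏ i, ∑ j ∈ Finset.range (e u i + 1), g i j ≤
      Z * ∏ i, ∑ j ∈ Finset.range (E + 1), g i j / N i ^ j ∧
    ∑ u ∈ S, (∏ i, ∑ j ∈ Finset.range (e u i + 1), g i j -
        ∏ i, ∑ j ∈ Finset.range (min (e u i) (w i) + 1), g i j) ≤
      Z * (∑ i, ∑ j ∈ Finset.Ioc (w i) E, g i j / N i ^ j) *
        ∏ i, ∑ j ∈ Finset.range (E + 1), g i j / N i ^ j

/-- [GPF] the product formula; from GBA.  PROOF.  `P ⊇` the prime ideals dividing `I`,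
`e v = (Associates.mk v.asIdeal).count (Associates.mk I).factors` or the multiplicity of `v.asIdeal` in
`normalizedFactors I`: `I = ∏_(v ∈ P) v^(e v)` (`Ideal.finprod_heightOneSpectrum_factorization`), and `GI` is
multiplicative (induction on `P`); `I ⊔ J` has the exponents `min`; `I ≤ ∏ v^(k v)` iff all `k v ≤ e v`. -/
def St_GPF : Prop :=
  ∀ (K : Type) [Field K] [NumberField K], ∃ e : Ideal (𝓞 K) → HeightOneSpectrum (𝓞 K) → ℕ,
    (∀ (I : Ideal (𝓞 K)) (v : HeightOneSpectrum (𝓞 K)) (j : ℕ), I ≠ ⊥ →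
      (j ≤ e I v ↔ I ≤ v.asIdeal ^ j)) ∧
    (∀ I : Ideal (𝓞 K), I ≠ ⊥ → {v | e I v ≠ 0}.Finite) ∧
    (∀ (I J : Ideal (𝓞 K)) (v : HeightOneSpectrum (𝓞 K)), I ≠ ⊥ → J ≠ ⊥ →
      e (I ⊔ J) v = min (e I v) (e J v)) ∧
    (∀ (I : Ideal (𝓞 K)) (P : Finset (HeightOneSpectrum (𝓞 K))) (k : HeightOneSpectrum (𝓞 K) → ℕ),
      I ≠ ⊥ → ((∀ v ∈ P, k v ≤ e I v) ↔ I ≤ ∏ v ∈ P, v.asIdeal ^ k v)) ∧
    (∀ (P : Finset (HeightOneSpectrum (𝓞 K))) (k : HeightOneSpectrum (𝓞 K) → ℕ),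
      ∏ v ∈ P, v.asIdeal ^ k v ≠ ⊥ ∧
        (Ideal.absNorm (∏ v ∈ P, v.asIdeal ^ k v) : ℝ) = ∏ v ∈ P, (qv v : ℝ) ^ k v) ∧
    ∀ (r : ℕ) (a : (Fin r → 𝓞 K) → 𝓞 K), CP a → ∀ (I : Ideal (𝓞 K))
      (P : Finset (HeightOneSpectrum (𝓞 K))), I ≠ ⊥ → (∀ v, e I v ≠ 0 → v ∈ P) →
      GI a I = ∏ v ∈ P, GI a (v.asIdeal ^ e I v)

/-- [GEX] sums of `G` over a family of ideals `𝒥 u` which are equidistributed: `#{u : 𝒥 u ≤ I} ≤ Z/N(I)`.
From GBA, GPF, PEX, `RHKB.St_PRS`.  PROOF.  `P` = the set of the prime ideals dividing some `𝒥 u`, `E` = the maximum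
of the `e (𝒥 u) v`; PEX with `ι = P`, `g v j = GI a (v^j) - GI a (v^(j-1))` for `j ≥ 1` (nonnegative by GBA),
`g v 0 = 1`, `N v = qv v`, `e u v = e (𝒥 u) v`: `∑_(j ≤ e) g v j = GI a (v^e)`, the product is `GI a (𝒥 u)` (GPF), and
`{u : k ≤ e u} = {u : 𝒥 u ≤ ∏ v^(k v)}` (GPF).  By `LOC.str` every factor is at most `1 + C/qv^2`, so the product is at
most `exp (C ∑_(v ∈ P) qv^(-2))`; PRS with `m0 = 1`, and for the second part with `m0 = p0` and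
`exp x ≤ 1 + C' x` for `x ≤ C'`. -/
def St_GEX : Prop :=
  ∀ (K : Type) [Field K] [NumberField K] (D : ℕ) (C : ℝ), 0 < C → ∃ C' : ℝ, 0 < C' ∧
    ∀ (r : ℕ) (a : (Fin r → 𝓞 K) → 𝓞 K), LOC D a C → ∀ (U : Type) (S : Finset U)
      (𝒥 : U → Ideal (𝓞 K)) (Z : ℝ), 0 ≤ Z → (∀ u ∈ S, 𝒥 u ≠ ⊥) →
      (∀ I : Ideal (𝓞 K), I ≠ ⊥ → ((S.filter fun u => 𝒥 u ≤ I).card : ℝ) * Ideal.absNorm I ≤ Z) →
      ∑ u ∈ S, GI a (𝒥 u) ≤ C' * Z ∧
      ∀ p0 : ℕ, 1 ≤ p0 → (∀ u ∈ S, ∀ v : HeightOneSpectrum (𝓞 K), LowP p0 v → ¬ 𝒥 u ≤ v.asIdeal) →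
        ∑ u ∈ S, GI a (𝒥 u) ≤ (1 + C' / p0) * Z

/-- [GDF] the part of `G` which is not seen modulo `W`; from GBA, GPF, PEX, PRS.  PROOF.  As GEX, second part of PEX
with `w v = e (span {W}) v`: the sum is at most `C' Z ∑_(v ∈ P) τ_v`, `τ_v = ∑_(w v < j ≤ E) g v j/qv^j`.  For the `v` not
`LowP z v`: `τ_v ≤ C/qv^2` (`LOC.str`, all terms are nonnegative), total `≤ C C_PRS/z`.  For the `v` with
`LowP z v` (at most `C z^rho` of them: `qv v ≤ z^rho`, PRS second part): `g v j ≤ GI a (v^j) ≤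
C qv^j qv^(-j/M)` (`LOC.weak`), so `τ_v ≤ C ∑_(j > w v) 2^(-j/M) ≤ C_M 2^(-(w v)/M)`, and `w v ≥ k` if `z^k ≤ m0` (then
`p^k ∣ W` for the prime number `p ≤ z` in `v`).  Choose `z`, then `k`. -/
def St_GDF : Prop :=
  ∀ (K : Type) [Field K] [NumberField K] (D : ℕ), 2 ≤ D → ∀ C ε : ℝ, 0 < C → 0 < ε → ∃ m0 : ℕ,
    ∀ (r : ℕ) (a : (Fin r → 𝓞 K) → 𝓞 K), LOC D a C → ∀ (U : Type) (S : Finset U)
      (𝒥 : U → Ideal (𝓞 K)) (Z : ℝ), 0 ≤ Z → (∀ u ∈ S, 𝒥 u ≠ ⊥) →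
      (∀ I : Ideal (𝓞 K), I ≠ ⊥ → ((S.filter fun u => 𝒥 u ≤ I).card : ℝ) * Ideal.absNorm I ≤ Z) →
      ∀ W : ℕ, 0 < W → (∀ h, 1 ≤ h → h ≤ m0 → h ∣ W) →
        ∑ u ∈ S, (GI a (𝒥 u) - GI a (𝒥 u ⊔ Ideal.span {(W : 𝓞 K)})) ≤ ε * Z

/-! ### Shifts -/

/-- [SHA] the shifts by `db` are equidistributed; from GBA (last part).  PROOF.  The reduction
`{x : coordinates in [0,M)} → O/(M)` is a bijection, `O/(M) → O/I` is onto (as `(M : O) ∈ I`) with fibres of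
`M^rho/N(I)` elements; translation by `w j`; coordinates `j` independent.  So every `ω` is the class of `w + δ` for
`(M^rho/N(I))^r` of the `δ`. -/
def St_SHA : Prop :=
  ∀ (K : Type) [Field K] [NumberField K] (r : ℕ) (a : (Fin r → 𝓞 K) → 𝓞 K), CP a →
    ∀ (I : Ideal (𝓞 K)) (M : ℕ), I ≠ ⊥ → 0 < M → (M : 𝓞 K) ∈ I →
    (db K r M).card = (M ^ dg K) ^ r ∧
    ∀ (w : Fin r → 𝓞 K) (c : 𝓞 K ⧸ I),
      (((db K r M).filter fun δ =>
        Ideal.Quotient.mk I (a fun j => w j + δ j) = c).card : ℝ) =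
        PQ a I c * (((M : ℝ) ^ dg K) ^ r)

/-- [AVT] the residues of the multiples of `W`; PROOF.  `N = N(J)`, `(N : O) ∈ J`, `Θ' = Θ/W`: the elements of
`TS K Θ W` are the `W τ`, `τ ∈ cb K Θ'` (TSC), the box with the side `S = 2 Θ' + 1 ≥ N`.  A residue class of `τ` modulo
`N` contains between `(S/N - 1)^rho` and `(S/N + 1)^rho` elements of the box.  The map `τ ↦ W τ` from `O/(N)` to `O/J` has
the image `(W) + J/J` with `N/N(J ⊔ (W))` elements (`N(J)` and `N(J ⊔ (W))` are the numbers of elements of the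
quotients), all fibres have the same number of elements.  So the proportion of the `u` with the class `c` in
the image differs from `N(J ⊔ (W))/N(J)` by the relative error `(1 + N/S)^rho - 1 ≤ 2^rho rho N/S`, and
`S ≥ Θ'`. -/
def St_AVT : Prop :=
  ∀ (K : Type) [Field K] [NumberField K], ∃ C : ℝ, 0 < C ∧ ∀ (Θ W : ℕ) (J : Ideal (𝓞 K)), 0 < W →
    J ≠ ⊥ → Ideal.absNorm J ≤ Θ / W → ∀ c : 𝓞 K ⧸ J,
    |(((TS K Θ W).filter fun u => Ideal.Quotient.mk J u = c).card : ℝ) / ((TS K Θ W).card : ℝ) -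
      UV J W c| ≤ C * ((Ideal.absNorm J : ℝ) / ((Θ / W : ℕ) : ℝ)) * UV J W c

/-- [FLM] finite rings.  `p(u,v) = ∑_c P(c - u) P(lam c - v)`.  PROOF.  With `q = P - T*P`,
`(T*P)(c) = ∑_v T(v) P(c - v)`: the alternating sum is `∑_c q(c) q(lam c)` (expand; `T` is only used linearly), at
most `∑ q^2` in absolute value (Cauchy-Schwarz, `c ↦ lam c` is a bijection).  `q = (P - U*P) + (U - T)*P`,
`|(U - T)*P| ≤ η U*P` pointwise (`P ≥ 0`), `∑ (U*P)^2 ≤ ∑ P^2` and `∑ (P - U*P)^2 = ∑ P^2 - ∑ (U*P)^2` (`U*` is the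
averaging over the classes modulo the ideal `V`, an orthogonal projection).  So
`∑ q^2 ≤ 2 (∑ P^2 - ∑ (U*P)^2) + 2 η^2 ∑ P^2`.  Second line: Cauchy-Schwarz. -/
def St_FLM : Prop :=
  ∀ (Z : Type) [CommRing Z] [Fintype Z] (P T U : Z → ℝ) (V : Ideal Z) (lam : Zˣ) (η : ℝ), 0 ≤ η →
    (∀ c, 0 ≤ P c) → (∀ c, U c = if c ∈ V then 1 / (Nat.card V : ℝ) else 0) →
    (∀ c, |T c - U c| ≤ η * U c) →
    |∑ c, P c * P (lam * c) - ∑ v, T v * ∑ c, P c * P (lam * c - v) -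
        ∑ u, T u * ∑ c, P (c - u) * P (lam * c) +
        ∑ u, ∑ v, T u * T v * ∑ c, P (c - u) * P (lam * c - v)| ≤
      2 * (∑ c, P c ^ 2 - ∑ c, (∑ v, U v * P (c - v)) ^ 2) + 2 * η ^ 2 * ∑ c, P c ^ 2 ∧
    ∀ u v, 0 ≤ ∑ c, P (c - u) * P (lam * c - v) ∧
      ∑ c, P (c - u) * P (lam * c - v) ≤ ∑ c, P c ^ 2

/-- [FLG] the averages over the classes modulo `W`; from GBA.  PROOF.  `U = UV I W` is `1/#V` on the ideal
`V = (W) + I/I` of `O/I` (`#V = N(I)/N(I ⊔ (W))`), `(U*P)(c) = (1/#V) PQ a (I ⊔ (W)) (class of c)` (GBA, reduction), and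
every class modulo `I ⊔ (W)` has `#V` elements in `O/I`. -/
def St_FLG : Prop :=
  ∀ (K : Type) [Field K] [NumberField K] (r : ℕ) (a : (Fin r → 𝓞 K) → 𝓞 K), CP a →
    ∀ (I : Ideal (𝓞 K)) (W : ℕ), I ≠ ⊥ → 0 < W → ∀ [Fintype (𝓞 K ⧸ I)],
    (∀ c, UV I W c = if c ∈ Ideal.map (Ideal.Quotient.mk I) (Ideal.span {(W : 𝓞 K)}) then
      1 / (Nat.card (Ideal.map (Ideal.Quotient.mk I) (Ideal.span {(W : 𝓞 K)})) : ℝ) else 0) ∧
    (Ideal.absNorm I : ℝ) * ∑ c : 𝓞 K ⧸ I, (∑ v, UV I W v * PQ a I (c - v)) ^ 2 =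
      GI a (I ⊔ Ideal.span {(W : 𝓞 K)})

/-- [ABU] compatible shifts, upper bound; from SHA, FLM (second line), GBA.  PROOF.  By SHA the number of the
pairs `(δ, δ')` is `M'^2 ∑_c P(c - u) P(lam c - v)`, `M' = (N^rho)^r`, `P = PQ a I`
(`c = a(w + δ) + u`, `a(w' + δ') = lam c - v`), and `∑ P^2 = GI a I/N`.  (`N = N(I) ∈ I`: `Ideal.absNorm_mem`.) -/
def St_ABU : Prop :=
  ∀ (K : Type) [Field K] [NumberField K] (r : ℕ) (a : (Fin r → 𝓞 K) → 𝓞 K), CP a →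
    ∀ (I : Ideal (𝓞 K)) (lam : 𝓞 K), I ≠ ⊥ → IsUnit (Ideal.Quotient.mk I lam) →
    ∀ (w w' : Fin r → 𝓞 K) (u v : 𝓞 K),
      (((db K r (Ideal.absNorm I) ×ˢ db K r (Ideal.absNorm I)).filter fun δ =>
        (a (fun j => w' j + δ.2 j) + v) - lam * (a (fun j => w j + δ.1 j) + u) ∈ I).card : ℝ) *
        Ideal.absNorm I ≤ ((((Ideal.absNorm I : ℝ) ^ dg K) ^ r) ^ 2) * GI a I

/-- [ABT] the alternating sum over the shifts; from SHA, AVT, FLM, FLG, ABU, GBA, TSC (`0 ∈ TS`).  PROOF.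
`N = N(I)`, `D = db K r N`, `T = TS K Θ W`.  Every term of `alt T F` is an average of values
`F (a(w+δ) + u) (a(w'+δ') + v)` over `u, v` in `{0}` or `T` (`0 ∈ T`).  Such a value is zero if it is not compatible
(`β - lam α ∈ I`), and all compatible values differ by at most `e` from one of them, `F₀ ≤ Fm` (if there is no
compatible one everything is zero).  So the sum over `(δ, δ')` differs from `F₀` times the alternating sum of the
numbers of the compatible `(δ, δ')` by at most `e` times the sum of these four numbers (absolute values), each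
at most `#D^2 GI/N` (ABU).  The alternating sum of the numbers is (SHA) `#D^2` times the expression of FLM with
`P = PQ a I` and `T(c)` = the proportion of the `u ∈ T` with the class `c` (AVT), `V = (W) + I/I`, `U = UV I W`, so by
FLM, FLG and `∑ P^2 = GI/N` at most `#D^2/N (2 (GI a I - GI a (I ⊔ (W))) + 2 η^2 GI a I)`,
`η = C N/(Θ/W)`. -/
def St_ABT : Prop :=
  ∀ (K : Type) [Field K] [NumberField K], ∃ C : ℝ, 0 < C ∧
    ∀ (r : ℕ) (a : (Fin r → 𝓞 K) → 𝓞 K), CP a →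
    ∀ (I : Ideal (𝓞 K)) (lam : 𝓞 K), I ≠ ⊥ → IsUnit (Ideal.Quotient.mk I lam) →
    ∀ Θ W : ℕ, 0 < W → Ideal.absNorm I ≤ Θ / W →
    ∀ (F : 𝓞 K → 𝓞 K → ℝ) (Fm e : ℝ) (w w' : Fin r → 𝓞 K), 0 ≤ e → (∀ α β, 0 ≤ F α β) →
      (∀ α β, F α β ≤ Fm) → (∀ α β, β - lam * α ∉ I → F α β = 0) →
      (∀ δ ∈ db K r (Ideal.absNorm I), ∀ δ' ∈ db K r (Ideal.absNorm I),
        ∀ ε ∈ db K r (Ideal.absNorm I), ∀ ε' ∈ db K r (Ideal.absNorm I),
        ∀ u ∈ TS K Θ W, ∀ v ∈ TS K Θ W, ∀ u' ∈ TS K Θ W, ∀ v' ∈ TS K Θ W,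
        (a (fun j => w' j + δ' j) + v) - lam * (a (fun j => w j + δ j) + u) ∈ I →
        (a (fun j => w' j + ε' j) + v') - lam * (a (fun j => w j + ε j) + u') ∈ I →
        |F (a (fun j => w j + δ j) + u) (a (fun j => w' j + δ' j) + v) -
          F (a (fun j => w j + ε j) + u') (a (fun j => w' j + ε' j) + v')| ≤ e) →
      |∑ δ ∈ db K r (Ideal.absNorm I) ×ˢ db K r (Ideal.absNorm I),
        alt (TS K Θ W) F (a fun j => w j + δ.1 j) (a fun j => w' j + δ.2 j)| ≤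
      ((((Ideal.absNorm I : ℝ) ^ dg K) ^ r) ^ 2) / Ideal.absNorm I *
        (2 * Fm * (GI a I - GI a (I ⊔ Ideal.span {(W : 𝓞 K)})) +
          (C * Fm * ((Ideal.absNorm I : ℝ) / ((Θ / W : ℕ) : ℝ)) ^ 2 + 4 * e) * GI a I)

/-- [SHF] shifting a double sum.  PROOF.  `∑_(w ∈ B) φ(w) - ∑_(w ∈ B) φ(w + δ)` = the sum of `φ` over the `w ∈ B` with
`w - δ ∉ B` minus the sum of `φ(w + δ)` over the `w ∈ B` with `w + δ ∉ B`.  First for `w`, then for `w'`. -/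
def St_SHF : Prop :=
  ∀ (V : Type) [AddCommGroup V] (B : Finset V) (δ δ' : V) (b : ℝ),
    ((B.filter fun w => w + δ ∉ B).card : ℝ) ≤ b → ((B.filter fun w => w - δ ∉ B).card : ℝ) ≤ b →
    ((B.filter fun w => w + δ' ∉ B).card : ℝ) ≤ b → ((B.filter fun w => w - δ' ∉ B).card : ℝ) ≤ b →
    ∀ (E : V → V → ℝ) (Em : ℝ), (∀ w w', |E w w'| ≤ Em) →
      |∑ p ∈ B ×ˢ B, E p.1 p.2 - ∑ p ∈ B ×ˢ B, E (p.1 + δ) (p.2 + δ')| ≤ 4 * b * B.card * Em

/-! ### Similitudes of decomposable forms -/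

/-- [SIM] a decomposable form of degree `D` in `D` variables without a common zero has many similitudes.
PROOF (elementary).  Let `l_i` be the linear forms (over the algebraic closure `Ω`); the matrix `(l i j)` is
invertible.  Choose `w₁` in `(𝓞 K)^D` with `g(w₁) ≠ 0`, and `w₂` such that the `θ_i = l_i(w₂)/l_i(w₁)` are different
(for `i ≠ j` the linear form `l_i(w) l_j(w₁) - l_j(w) l_i(w₁)` is not zero; a product of nonzero polynomials over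
`Ω` is not zero at some point of `(𝓞 K)^D`, an infinite set of coordinates).
`P(T) = ∏ (T - θ_i) = g(T w₁ - w₂)/g(w₁)` is in `K[T]`.  For `w` in `K^D` put `η_i(w) = l_i(w)/l_i(w₁)` and
`R_w(T) = ∑_i η_i(w) ∏_(j ≠ i) (T - θ_j)`: this is in `K[T]`, because it is the coefficient of `S` in
`g(T w₁ - w₂ + S w)/g(w₁) = ∏ (T - θ_i + S η_i(w))`.  `R_w(θ_i) = η_i(w) P'(θ_i)`, `P'(θ_i) ≠ 0`.  So `w ↦ R_w` is
`K`-linear and injective from `K^D` to the polynomials of degree `< D`, hence bijective; let `w'` be such that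
`R_w' = T R_w` modulo `P`.  Then `η_i(w') = θ_i η_i(w)`, i.e. `l_i(w') = θ_i l_i(w)`.  The `K`-linear map `w ↦ w'` has a
matrix `Θ_K` over `K`, `(l) Θ_K = diag(θ) (l)`; `Θ = c Θ_K` with an integer `c > 0` such that the entries are in `𝓞 K`.
Its characteristic polynomial is `∏ (T - c θ_i)`, and for `h` in `𝓞 K[T]`: `l_i(h(Θ) w) = h(c θ_i) l_i(w)`, so
`g(h(Θ) w) = ∏ h(c θ_i) g(w) = det h(Θ) g(w)`. -/
def St_SIM : Prop :=
  ∀ (K : Type) [Field K] [NumberField K] (D : ℕ), 1 ≤ D → ∀ g : Mon D D → 𝓞 K, Decomp g →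
    ∃ Θ : Matrix (Fin D) (Fin D) (𝓞 K), (Θ.charpoly.map (algebraMap (𝓞 K) K)).Separable ∧
      ∀ (h : Polynomial (𝓞 K)) (w : Fin D → 𝓞 K),
        ev g ((Polynomial.aeval Θ h).mulVec w) = (Polynomial.aeval Θ h).det * ev g w

/-- [NSF] finite fields.  PROOF.  `P` = the characteristic polynomial, separable of degree `D ≥ 1`, `p` an
irreducible factor, `P = p q`, `p` and `q` coprime.  The norm of the finite field `F[T]/(p)` over `F` is onto
(`FiniteField.norm_surjective` in `Mathlib/FieldTheory/Finite/GaloisField.lean`): `h₁` with norm `a` modulo `p`.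
`h ≡ h₁` modulo `p`, `h ≡ 1` modulo `q` (`u p + v q = 1`, `h = u p + v q h₁`).  Over the algebraic closure
`det h(Θ) = ∏ h(root of P)` (write `h = c ∏ (T - μ_j)`: `det (Θ - μ_j) = ± P(μ_j)`), the product over the roots of
`q` is one and the product over the roots of `p` is the norm of `h₁`
(`Algebra.norm_eq_prod_embeddings`, or `PowerBasis.norm...`, or resultants). -/
def St_NSF : Prop :=
  ∀ (F : Type) [Field F] [Finite F] (D : ℕ), 1 ≤ D → ∀ Θ : Matrix (Fin D) (Fin D) F,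
    Θ.charpoly.Separable → ∀ a : F, a ≠ 0 →
      ∃ h : Polynomial F, (Polynomial.aeval Θ h).det = a

/-- [SUN] the values of `g` are equidistributed in the units; from SIM, NSF.  PROOF.  `Θ` from SIM, `P` its
characteristic polynomial: `u P + w P' = c` with `c ≠ 0` in `𝓞 K`, `u, w` in `𝓞 K[T]` (clear denominators).
`S` = the `v` dividing `c` or `D` (finite).  Let `v ∉ S`, `j ≥ 1`, `A = O/v^j`, `F = O/v`.  Let `a ∉ v`.  NSF for `Θ` modulo
`v`: `h` in `𝓞 K[T]` with `det h(Θ) ≡ a` modulo `v`.  In `A` (local ring) the unit `x = a/det h(Θ)` is `1` modulo `v`;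
these units form a group with `(qv v)^(j-1)` elements, a power of the residue characteristic, coprime to `D`, so
`x = y^D` (`powCoprime`).  The matrix `T = y h(Θ)` over `A` is invertible (its determinant is a unit) and
`g(T ω) = y^D det h(Θ) g(ω) = a g(ω)`.  So `{g = 1}` and `{g = a}` have the same number of elements in `A^D`. -/
def St_SUN : Prop :=
  ∀ (K : Type) [Field K] [NumberField K] (D : ℕ), 1 ≤ D → ∀ g : Mon D D → 𝓞 K, Decomp g →
    ∃ S : Finset (HeightOneSpectrum (𝓞 K)), ∀ v ∉ S, ∀ j : ℕ, 1 ≤ j → ∀ a a' : 𝓞 K,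
      a ∉ v.asIdeal → a' ∉ v.asIdeal →
      PQ (fun w => ev g w) (v.asIdeal ^ j) (Ideal.Quotient.mk _ a) =
        PQ (fun w => ev g w) (v.asIdeal ^ j) (Ideal.Quotient.mk _ a')

/-- [ZRO] the number of the zeros modulo a prime ideal; from LNP (NRM).  PROOF.  `e` with `ev g e ≠ 0`, `S` = the `v`
dividing `ev g e`.  `#F #{ω : g(ω) = 0} = #{(ω₀, T) : g(ω₀ + T e) = 0}`, and for given `ω₀` (lift it to `𝓞 K`) the
polynomial of LNP has degree `D` modulo `v`, so at most `D` zeros. -/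
def St_ZRO : Prop :=
  ∀ (K : Type) [Field K] [NumberField K] (r D : ℕ) (g : Mon r D → 𝓞 K), g ≠ 0 →
    ∃ S : Finset (HeightOneSpectrum (𝓞 K)), ∀ v ∉ S,
      PQ (fun w => ev g w) v.asIdeal 0 * (qv v : ℝ) ≤ D

/-- [LGB] the strong bound at almost all prime ideals; from GBA, SUN, ZRO, VDQN (NRM).  PROOF.  `N = qv v`,
`P_j = PQ g (v^j)`, `v` outside of the exceptional sets of SUN, ZRO.  On the `N^j (1 - 1/N)` units `P_j` is constant, at
most `1/#units`, so `∑_(units) P_j^2 ≤ 1/#units ≤ N^(-j) (1 + 2/N) ≤ 2 N^(-j)`.  The sum of `P_j` over the nonunits is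
`P_1(0) ≤ D/N` (GBA, reduction), and every value of `P_j` at a nonunit is at most `min (D/N) (C N^(-j/M))` (VDQN with
`B = O/v^j`), so `∑_(nonunits) P_j^2 ≤ (D/N) min (D/N) (C N^(-j/M))`.  `j = 1`:
`GI(v) ≤ N (N^(-1) (1 + 2/N) + D^2/N^2)`, so `(GI(v) - 1)/N ≤ (2 + D^2)/N^2`.  `j ≥ 2`:
`(GI(v^j) - GI(v^(j-1)))/N^j ≤ GI(v^j)/N^j ≤ 2 N^(-j) + (D/N) min (D/N) (C N^(-j/M))`; the sum over `2 ≤ j ≤ M` is at most
`4 N^(-2) + M D^2 N^(-2)`, the sum over `j > M` at most `4 N^(-2) + (D C/N) N^(-1-1/M)/(1 - 2^(-1/M))`. -/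
def St_LGB : Prop :=
  ∀ (K : Type) [Field K] [NumberField K] (D : ℕ), 2 ≤ D → ∀ g : Mon D D → 𝓞 K, Decomp g → g ≠ 0 →
    ∃ S : Finset (HeightOneSpectrum (𝓞 K)), ∃ C : ℝ, 0 < C ∧ ∀ v ∉ S, ∀ J : ℕ,
      ∑ j ∈ Finset.Icc 1 J, (GI (fun w => ev g w) (v.asIdeal ^ j) -
        GI (fun w => ev g w) (v.asIdeal ^ (j - 1))) / (qv v : ℝ) ^ j ≤ C / (qv v : ℝ) ^ 2

/-- [PLB] the restriction of `w ↦ g(ω + k w)/b` to a line; from LNP.  PROOF.  Let `P₀` be the polynomial of LNP for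
the point `ω + k w₀` and the direction `k e`: `P₀(T) = g(ω + k (w₀ + T e))`.  All coefficients of `P₀` are divisible by
`b`: modulo `b` the polynomial is the constant `g(ω) = 0` (`b ∣ k`; explicit form of `P₀` in the proof of LNP,
`P₀ = ∑_μ C (g μ) ∏_j (C (ω_j + k w₀_j) + X C (k e_j))^(μ_j)`, `Polynomial.map`).  `P = P₀/b`; its coefficient of
`T^D` is `k^D g(e)/b` (`g(k e) = k^D g(e)`).  `b * aG = g` because `b` divides the value. -/
def St_PLB : Prop :=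
  ∀ (K : Type) [Field K] [NumberField K] (r D : ℕ) (g : Mon r D → 𝓞 K) (b k : ℕ)
    (ω w₀ e : Fin r → 𝓞 K), 1 ≤ b → 1 ≤ D → b ∣ k → (b : 𝓞 K) ∣ ev g ω →
    ∃ P : Polynomial (𝓞 K), (∀ T, P.eval T = aK g b k ω (fun j => w₀ j + T * e j)) ∧
      P.natDegree ≤ D ∧ (b : 𝓞 K) * P.coeff D = (k : 𝓞 K) ^ D * ev g e

/-- [LOK] the local properties of the families; from LGB, GBA, PLB, VDQP (NRM).  PROOF.  `a = aK g b k ω`; for all
`w` `b ∣ g(ω + k w)` (as in PLB), so `b a(w) = g(ω + k w)`.  `cp`: if `w - w' ∈ I` then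
`g(ω + k w) - g(ω + k w') ∈ b I`, so `a(w) - a(w') ∈ I` (`b` is not a zero divisor).  `weak`: every `PQ a I c` is at most
`C N(I)^(-1/M)`: as VDQN, from PLB (with `e` such that `g(e) ≠ 0`, `alpha = P.coeff D`; there are finitely many `ω`
modulo `k`... the constant of VDQP depends on `alpha` with `b alpha = k^D g(e)` only) and VDQP; so
`GI = N ∑ PQ^2 ≤ N max PQ`.  `str`: for `v ∤ k` and `v ∉ S`: `GI a (v^j) = GI g (v^j)`, because `w ↦ ω + k w` is a bijection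
modulo `v^j` and `b` is a unit: LGB.  For the finitely many other `v`: `GI a (v^j) - GI a (v^(j-1)) ≤ GI a (v^j)` and
`weak`: the sum is at most `C ∑_(j ≥ 1) qv^(-j/M) ≤ C_M`, and `qv v` is bounded. -/
def St_LOK : Prop :=
  ∀ (K : Type) [Field K] [NumberField K] (D : ℕ), 2 ≤ D → ∀ g : Mon D D → 𝓞 K, Decomp g → g ≠ 0 →
    ∀ b k : ℕ, 1 ≤ b → 1 ≤ k → b ∣ k → ∃ C : ℝ, 0 < C ∧ ∀ ω : Fin D → 𝓞 K,
      (b : 𝓞 K) ∣ ev g ω → LOC D (aK g b k ω) C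

end Pool.Agent.NRN
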