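import Pool.Agent.NRN.StG

/-!
NRN, block S (second moment for two variables `x`): statements of the modules (helper95).  Rules as in StG.lean.
`rho = dg K`, `X = XC 2 c t = t^(c+1)`, `Q = QN 2 m c t V = X^m V`, `d = D m`, `E = (H X^d)^rho`, `Nn = (Q^r)^rho`,
`Δ = mn x y (0,1) = x_0 y_1 - x_1 y_0`.  The hypothesis `(8 rho + 8) (c + 1) ≤ v` gives `Q ≥ V ≥ t^v ≥ X^(8 rho + 8)`.
-/

set_option autoImplicit false

namespace Pool.Agent.NRN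

open scoped BigOperators
open Classical NumberField IsDedekindDomain
open Pool.Agent.RHP (Mon mono ev Sys Prim pd WB WW)
open Pool.Agent.RHK Pool.Agent.RHC Pool.Agent.NRM
open Pool.Agent.RHKB (mI hh jj qv MK uu BadK)
open Pool.Agent.RHCB (BadC cred cemb uk PrC hM f00)

/-! ### Two variables -/

/-- [DTB] basic facts for two variables.  PROOF.  The minors of `(x, y)` are `0` and `± Δ`. -/
def St_DTB : Prop :=
  ∀ (K : Type) [Field K] [NumberField K] (x y : Fin 2 → 𝓞 K),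
    gI x y = Ideal.span {mn x y (0, 1)} ∧ (∀ v : InfinitePlace K, wv v x y = av v (mn x y (0, 1))) ∧
    (Par x y ↔ mn x y (0, 1) = 0) ∧ (wn x y : ℝ) = wp x y ∧ (¬ Par x y → 1 ≤ wp x y)

/-- [FBR] the fibres of `y ↦ Δ(x, y)`.  PROOF.  `Δ(x, y) = Δ(x, y')` gives `Δ(x, y - y') = 0`, so `y - y' = u x` with
`u` in `𝓞 K` (`Prim x`, as in PAR), `av v u * vs v x = vs v (y - y') ≤ 2 X`, so `av v u ≤ 4`: at most `#pb K 4`
possibilities. -/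
def St_FBR : Prop :=
  ∀ (K : Type) [Field K] [NumberField K], ∃ C : ℕ, ∀ (X : ℝ) (x : Fin 2 → 𝓞 K), 0 ≤ X →
    Prim x → (∀ v : InfinitePlace K, X < 2 * vs v x) → ∀ u : 𝓞 K,
      ((bx K 2 X).filter fun y => mn x y (0, 1) = u).card ≤ C

/-- [CMU] the unit `lam`; from CMPT.  PROOF.  `lam` of CMPT (`lam = ∑ c_i y_i`, `∑ c_i x_i = 1`), `y_j - lam x_j ∈ gI`
(CMPT for the linear form `z ↦ z_j`, or directly).  `∑ c'_j y_j = 1` gives `lam (∑ c'_j x_j) - 1 ∈ gI`. -/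
def St_CMU : Prop :=
  ∀ (K : Type) [Field K] [NumberField K] (s : ℕ) (x y : Fin s → 𝓞 K), Prim x → Prim y →
    ∃ lam : 𝓞 K, IsUnit (Ideal.Quotient.mk (gI x y) lam) ∧
      ∀ (d : ℕ) (f : Mon s d → 𝓞 K), ev f y - lam ^ d * ev f x ∈ gI x y

/-- [CTW] translations with given compatible values; from RF2, GCD, CMP (RHK).  PROOF.  As RHC/CTR.lean, where
`W ∣ a`, `W ∣ b`, `W ∈ gI` are only used to get an integral form with the values `a`, `b`: this is now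
the hypothesis (`b - lam^d a ∈ gI`, `h(x) = 1`: `a h` has the values `a`, `a h(y)`, and `b - a h(y) ∈ gI` as
`h(y) - lam^d h(x) ∈ gI`; GCD). -/
def St_CTW : Prop :=
  ∀ (K : Type) [Field K] [NumberField K] (s d : ℕ), 2 ≤ d → ∃ C : ℕ, 0 < C ∧
    ∀ (X H κ m1 k : ℕ) (ρ : ℝ) (x y : Fin s → 𝓞 K) (lam : 𝓞 K), 1 ≤ X → Prim x → Prim y →
      (∀ v : InfinitePlace K, (X : ℝ) < 2 * vs v x ∧ vs v x ≤ X) →
      (∀ v : InfinitePlace K, (X : ℝ) < 2 * vs v y ∧ vs v y ≤ X) →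
      ¬ Par x y → Cv2 d x y ρ → 0 ≤ ρ →
      (∀ f : Mon s d → 𝓞 K, ev f y - lam * ev f x ∈ gI x y) →
      (∀ v : InfinitePlace K, (X : ℝ) ^ 2 ≤ m1 * wv v x y) → 1 ≤ k → C * m1 * k ≤ κ →
      (C : ℝ) * k * ρ ≤ H →
      ∀ a b : 𝓞 K, b - lam * a ∈ gI x y → cz a * κ ≤ H * X ^ d → cz b * κ ≤ H * X ^ d →
      ∃ z : Mon s d → 𝓞 K, ev z x = a ∧ ev z y = b ∧ ∀ μ, cz (z μ) * k ≤ H

/-- [ACM] the values at the infinite places.  PROOF.  `σ = v.embedding`, `|σ(a)| = av v a`.  Choose `i` with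
`av v (x i) = vs v x > X/2`, `μ = σ(y_i)/σ(x_i)`, `|μ| ≤ 2`; `e_j = σ(y_j) - μ σ(x_j)` is zero for `j = i` and
`± σ(Δ)/σ(x_i)` otherwise, `|e_j| ≤ 2 av v Δ/X`.  `ev f y = ev f (μ x + e)`, `μ^d ev f x = ev f (μ x)` over `ℂ`; all
coordinates have absolute value `≤ 4 X` (`av v Δ ≤ 2 X^2`), the coefficients `≤ C H` (CMP), so the difference is
at most `C H X^(d-1) |e|` (difference of the monomials, LIPK after scaling by `4 X`). -/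
def St_ACM : Prop :=
  ∀ (K : Type) [Field K] [NumberField K] (d : ℕ), 1 ≤ d → ∃ C : ℝ, 1 ≤ C ∧
    ∀ (X H : ℕ) (x y : Fin 2 → 𝓞 K), 1 ≤ X →
      (∀ v : InfinitePlace K, (X : ℝ) < 2 * vs v x ∧ vs v x ≤ X) →
      (∀ v : InfinitePlace K, vs v y ≤ X) → ∀ v : InfinitePlace K, ∃ μ : ℂ, ‖μ‖ ≤ 2 ^ d ∧
      ∀ f ∈ box K 2 d (2 * H), ‖v.embedding ((ev f y : 𝓞 K) : K) - μ * v.embedding ((ev f x : 𝓞 K) : K)‖ ≤
        C * (H * (X : ℝ) ^ d) * (wv v x y / (X : ℝ) ^ 2)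

/-- [DLX] the exact form of DLT.  PROOF.  As RHC/DLT.lean: `lmt Θ W a x f = (1/#TS) ∑_(u ∈ TS) dlt (a+u) x f`, exchange
the sums; the sum over `box (2H)` of `Ph H f * dlt a x f * dlt b y f` is `cP d H x y a b`. -/
def St_DLX : Prop :=
  ∀ (K : Type) [Field K] [NumberField K] (s d H Θ W : ℕ) (x y : Fin s → 𝓞 K) (a b : 𝓞 K), 0 < W →
    ∑ f ∈ box K s d (2 * H), Ph H f * ((dlt a x f - lmt Θ W a x f) * (dlt b y f - lmt Θ W b y f)) =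
      alt (TS K Θ W) (cP d H x y) a b

/-- [CB1] counting forms with given values.  Copy of NRM/CBN.lean with `NHyp1`. -/
def St_CB1 : Prop :=
  ∀ (K : Type) [Field K] [NumberField K] (s D m : ℕ), NHyp1 s D m → ∃ C : ℝ, 0 < C ∧
    ∀ c v : ℕ, 2 * c + 4 ≤ D * v → ∃ t0 : ℕ, ∀ t ≥ t0, ∀ V H : ℕ, CR D v t V H → ∀ x ∈ CG K s c t,
      (∀ a : 𝓞 K, (c1 (d := D * m) (3 * H) x a : ℝ) *
        ((H : ℝ) * (XC s c t : ℝ) ^ (D * m)) ^ dg K ≤ C * (box K s (D * m) H).card) ∧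
      ∀ y ∈ CG K s c t, ¬ Par x y → Cv2 (D * m) x y ((H : ℝ) / t) ∧ ∀ a b : 𝓞 K,
        (c2 (d := D * m) (3 * H) x y a b : ℝ) *
          ((((H : ℝ) * (XC s c t : ℝ) ^ (D * m)) ^ dg K) ^ 2 * wp x y) ≤
        C * (wn x y * ((XC s c t : ℝ) ^ 2) ^ dg K) * (box K s (D * m) H).card

/-- [CP1] parallel pairs.  Copy of NRM/CPARN.lean with `NHyp1`; only `card` and `diag` of FAM are used there. -/
def St_CP1 : Prop :=
  ∀ (K : Type) [Field K] [NumberField K] (s D m : ℕ), NHyp1 s D m → ∃ C : ℝ, 0 < C ∧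
    ∀ (c v κ W : ℕ), 2 * c + 4 ≤ D * v → 0 < κ → 0 < W → ∃ t0 : ℕ, ∀ t ≥ t0, ∀ V H : ℕ,
    CR D v t V H → ∀ (r : ℕ) (Q : Type) (B : Finset Q) (a : Q → 𝓞 K) (C0 : ℝ), 1 ≤ C0 →
      (B.card : ℝ) ≤ C0 * ((QN s m c t V : ℝ) ^ r) ^ dg K →
      (((B ×ˢ B).filter fun p => a p.1 = a p.2).card : ℝ) * t *
        ((H : ℝ) * (XC s c t : ℝ) ^ (D * m)) ^ dg K ≤
        C0 * ((XC s c t : ℝ) ^ s) ^ dg K * (((QN s m c t V : ℝ) ^ r) ^ dg K) ^ 2 →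
      ∑ p ∈ (CG K s c t ×ˢ CG K s c t).filter (fun p => Par p.1 p.2),
      ∑ q ∈ B ×ˢ B,
        (∑ f ∈ box K s (D * m) (2 * H), Ph H f * (dlt (a q.1) p.1 f * dlt (a q.2) p.2 f) +
        ∑ f ∈ box K s (D * m) (2 * H), Ph H f *
          (lmt (ThC s c t H κ (D * m)) W (a q.1) p.1 f *
            lmt (ThC s c t H κ (D * m)) W (a q.2) p.2 f)) ≤
      C * C0 ^ 2 / t * EN (dg K) s D m r c t V H ^ 2 * (box K s (D * m) H).card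

/-! ### Pairs -/

/-- [SIZ] sizes of the parameters.  PROOF.  `X = t^(c+1) ≥ t`, `V ≥ t^v ≥ X^(8 rho + 8)`, `Q ≥ V`, and for a pair of good
points `1 ≤ N(Δ) = wp ≤ (2 X^2)^rho` (`wv_le_mul`), `wv v x y ≥ (2 X^2)^(-rho)` (the product of all `wv^mult` is at
least one, the others are at most `2 X^2`).  `H X^(D m) ≥ V^D X^(D m) ≥ Q^2`, so `Θ/W ≥ H X^(D m)/(κ W) - 2` is larger
than `t N(Δ)` for large `t`. -/
def St_SIZ : Prop :=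
  ∀ (K : Type) [Field K] [NumberField K] (D m c v : ℕ), 2 ≤ D → 1 ≤ m →
    (8 * dg K + 8) * (c + 1) ≤ v → ∀ (A : ℝ) (κ W : ℕ), 0 < κ → 0 < W →
    ∃ t0 : ℕ, ∀ t ≥ t0, ∀ V H : ℕ, CR D v t V H → ∀ x ∈ CG K 2 c t, ∀ y ∈ CG K 2 c t, ¬ Par x y →
      1 ≤ t ∧ 1 ≤ QN 2 m c t V ∧
      A * t * wn x y * (((XC 2 c t : ℝ) ^ 2) ^ dg K) ^ 2 ≤ QN 2 m c t V ∧
      (∀ u : InfinitePlace K, A * wn x y * (XC 2 c t : ℝ) ^ 2 ≤ QN 2 m c t V * wv u x y) ∧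
      (wn x y : ℝ) * t ≤ ((ThC 2 c t H κ (D * m) / W : ℕ) : ℝ) ∧
      wn x y ≤ ThC 2 c t H κ (D * m) / W ∧
      ((XC 2 c t : ℝ) ^ 2) ^ dg K ≤ wp x y * (QN 2 m c t V : ℝ) ^ dg K

/-- [TYS] typical pairs; from ABT, SHF, CTW, CMU, CB1, PHI, DTB, SIZ, CMP, TSC.  PROOF.  Let `I = gI x y`,
`N = N(I) = wp x y` (DTB), `T = TS K Θ W`, `F = cP d H x y`, `lam` from CMU, `lam^d` is a unit modulo `I`.
(1) `0 ≤ F ≤ Fm = C X^(2 rho)/E^2 #box` (PHI, CB1, `wn = wp`), `F α β = 0` if `β - lam^d α ∉ I` (no form has these values).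
(2) `|alt T F| ≤ 4 Fm`, so by SHF (`FAMR.shift` with `M = N`) the sum over `B × B` differs from the sum of
`alt T F (a(w+δ)) (a(w'+δ'))` by at most `16 C0 (N/Q) Nn #B Fm ≤ 16 C0^2 N X^(2 rho)/Q Nn^2/E^2 C #box`, at most
`C/t Nn^2/E^2 #box` (SIZ).  Average over all `δ, δ'` in `db K r N`.
(3) For given `w, w' ∈ B`: ABT with `e = (1/k') C X^(2 rho)/E^2 #box`: two compatible pairs of values differ by
`(α, β)` with `β - lam^d α ∈ I` and `cz α, cz β ≤ 2 Θ + C C0 (N/Q) H X^d ≤ 3 H X^d/κ` (`FAMR.lip`, CMP, SIZ), so CTW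
(`κ ≥ 3 C m1 k'`, `ρ = H/t`, CB1) gives `z` and PHI (fourth part) `|F - F'| ≤ (1/k') c2 (3H) ≤ e`.  So the average of
`alt T F` over the shifts is at most `1/N (2 Fm (GI a I - GI a (I ⊔ (W))) + (C Fm/t + 4 e) GI a I)`, and
`Fm/N ≤ C m1^rho/E^2 #box` because `X^(2 rho) ≤ m1^rho wp = m1^rho N`.  Sum over `w, w'`: `#B^2 ≤ C0^2 Nn^2`. -/
def St_TYS : Prop :=
  ∀ (K : Type) [Field K] [NumberField K] (D m : ℕ), 2 ≤ D → 1 ≤ m → ∃ C : ℝ, 0 < C ∧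
    ∀ (r c v k' m1 : ℕ) (C0 : ℝ), 2 * c + 4 ≤ D * v → (8 * dg K + 8) * (c + 1) ≤ v → 1 ≤ k' →
    1 ≤ m1 → 1 ≤ C0 → ∃ κ : ℕ, 0 < κ ∧ ∀ W : ℕ, 0 < W → ∃ t0 : ℕ, ∀ t ≥ t0, ∀ V H : ℕ,
    CR D v t V H → ∀ (B : Finset (Fin r → 𝓞 K)) (a : (Fin r → 𝓞 K) → 𝓞 K),
      FAMR D m c t V H B a C0 →
    ∀ x ∈ CG K 2 c t, ∀ y ∈ CG K 2 c t, ¬ Par x y →
      (∀ u : InfinitePlace K, (XC 2 c t : ℝ) ^ 2 ≤ m1 * wv u x y) →
      |∑ q ∈ B ×ˢ B, alt (TS K (ThC 2 c t H κ (D * m)) W) (cP (D * m) H x y) (a q.1) (a q.2)| ≤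
        C * C0 ^ 2 * (m1 : ℝ) ^ dg K *
          ((GI a (gI x y) - GI a (gI x y ⊔ Ideal.span {(W : 𝓞 K)})) +
            (1 / k' + 1 / t) * GI a (gI x y) + 1 / t) *
          ((((QN 2 m c t V : ℝ) ^ r) ^ dg K) ^ 2 /
            (((H : ℝ) * (XC 2 c t : ℝ) ^ (D * m)) ^ dg K) ^ 2 * (box K 2 (D * m) H).card)

/-- [ATS] all pairs which are not parallel; from ABU, SHF, ACM, CMU, CB1, PHI, DLT, DTB, SIZ, CMP.  PROOF.  Symbols of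
TYS.  By DLT the left side is `F(a_w, a_w')` plus the average over `u, v` in `T` of `F(a_w + u, a_w' + v)`, so it is
enough to bound for fixed `u, v` the sum over `B × B` of `F(a_w + u, a_w' + v) ≤ Fm`.  By SHF it differs from the
average over `δ, δ'` in `db K r N` of the sum of `F(a(w+δ) + u, a(w'+δ') + v)` by at most
`4 C0 (N/Q) Nn #B Fm ≤ (1/t) C Nn^2/E^2 #box` (SIZ).  A term is not zero only if the values are compatible modulo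
`I` and (ACM; `F ≠ 0` gives a form in `box (2H)`) `|σ(a(w'+δ') + v) - μ σ(a(w+δ) + u)| ≤ C H X^d θ_v`,
`θ_v = wv v x y/X^2`, hence by `FAMR.lip` and SIZ (`C0 N/Q (1 + 2^d) ≤ θ_v`)
`|σ(a(w')) - z_v| ≤ (C + 1) θ_v H X^d` with `z_v = μ σ(a(w) + u) - σ(v)`: for given `w` at most
`C0 Nn PT ((C+1) θ)^(1/D) ≤ C' C0 Nn (wp/X^(2 rho))^(1/D)` of the `w'` (`FAMR.arc`; `PT θ Q^rho ≥ 1` by SIZ).  For
given `w, w'` the average over `δ, δ'` of the indicator of compatibility is at most `GI a I/N` (ABU).  Total: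
`Fm GI a I/N C0 Nn C' C0 Nn (wp/X^(2 rho))^(1/D)`, and `Fm/N = C X^(2 rho)/wp/E^2 #box`.  The error term is
smaller than the right side because `GI a I ≥ 1` and `X^(2 rho)/wp ≥ 2^(-rho)`. -/
def St_ATS : Prop :=
  ∀ (K : Type) [Field K] [NumberField K] (D m : ℕ), 2 ≤ D → 1 ≤ m → ∃ C : ℝ, 0 < C ∧
    ∀ (r c v κ W : ℕ) (C0 : ℝ), 2 * c + 4 ≤ D * v → (8 * dg K + 8) * (c + 1) ≤ v → 0 < κ →
    0 < W → 1 ≤ C0 → ∃ t0 : ℕ, ∀ t ≥ t0, ∀ V H : ℕ,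
    CR D v t V H → ∀ (B : Finset (Fin r → 𝓞 K)) (a : (Fin r → 𝓞 K) → 𝓞 K),
      FAMR D m c t V H B a C0 →
    ∀ x ∈ CG K 2 c t, ∀ y ∈ CG K 2 c t, ¬ Par x y →
      ∑ q ∈ B ×ˢ B,
        (∑ f ∈ box K 2 (D * m) (2 * H), Ph H f * (dlt (a q.1) x f * dlt (a q.2) y f) +
        ∑ f ∈ box K 2 (D * m) (2 * H), Ph H f *
          (lmt (ThC 2 c t H κ (D * m)) W (a q.1) x f *
            lmt (ThC 2 c t H κ (D * m)) W (a q.2) y f)) ≤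
        C * C0 ^ 2 * (GI a (gI x y) *
          (((XC 2 c t : ℝ) ^ 2) ^ dg K / wp x y) ^ (1 - (1 : ℝ) / D)) *
          ((((QN 2 m c t V : ℝ) ^ r) ^ dg K) ^ 2 /
            (((H : ℝ) * (XC 2 c t : ℝ) ^ (D * m)) ^ dg K) ^ 2 * (box K 2 (D * m) H).card)

/-- [EQI] equidistribution of the ideals `(Δ(x, y))`; from FBR, DTB, IDU (RHK).  PROOF.  `T : InfinitePlace K → ℝ`.
The `y` with `wv v x y ≤ T v` and `gI x y ≤ I`: `Δ(x, y)` is a nonzero element of `I` in `pT T`; if there is one,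
`N(I) ≤ N(Δ) ≤ PT T`, so IDU gives at most `C PT T/N(I)` values of `Δ`, and FBR at most `C` points `y` for each. -/
def St_EQI : Prop :=
  ∀ (K : Type) [Field K] [NumberField K], ∃ C : ℝ, 0 < C ∧ ∀ (X : ℝ) (x : Fin 2 → 𝓞 K), 0 ≤ X →
    Prim x → (∀ v : InfinitePlace K, X < 2 * vs v x) → ∀ T : InfinitePlace K → ℝ, (∀ v, 0 < T v) →
    ∀ I : Ideal (𝓞 K), I ≠ ⊥ →
      (((bx K 2 X).filter fun y => ¬ Par x y ∧ (∀ v, wv v x y ≤ T v) ∧ gI x y ≤ I).card : ℝ) *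
        Ideal.absNorm I ≤ C * PT T

/-- [PS1] the sums of `G` over the pairs; from EQI, GEX, GDF, GBA, DTB.  PROOF.  GEX and GDF with
`S` = the good `y` not parallel to `x`, `𝒥 y = gI x y`, `Z = C (2 X^2)^rho` (EQI with `T v = 2 X^2`, `wv_le_mul`). -/
def St_PS1 : Prop :=
  ∀ (K : Type) [Field K] [NumberField K] (D : ℕ), 2 ≤ D → ∀ C0 : ℝ, 1 ≤ C0 → ∃ C : ℝ, 0 < C ∧
    (∀ (r : ℕ) (a : (Fin r → 𝓞 K) → 𝓞 K), LOC D a C0 → ∀ c t : ℕ, 1 ≤ t → ∀ x ∈ CG K 2 c t,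
      ∑ y ∈ (CG K 2 c t).filter (fun y => ¬ Par x y), GI a (gI x y) ≤
        C * ((XC 2 c t : ℝ) ^ 2) ^ dg K) ∧
    ∀ ε : ℝ, 0 < ε → ∃ m0 : ℕ, ∀ (r : ℕ) (a : (Fin r → 𝓞 K) → 𝓞 K), LOC D a C0 →
      ∀ W : ℕ, 0 < W → (∀ h, 1 ≤ h → h ≤ m0 → h ∣ W) → ∀ c t : ℕ, 1 ≤ t → ∀ x ∈ CG K 2 c t,
      ∑ y ∈ (CG K 2 c t).filter (fun y => ¬ Par x y),
        (GI a (gI x y) - GI a (gI x y ⊔ Ideal.span {(W : 𝓞 K)})) ≤
        ε * ((XC 2 c t : ℝ) ^ 2) ^ dg K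

/-- [PS2] the sum over the pairs which are nearly parallel at an infinite place; from EQI, GEX, DTB.  PROOF.
For a good `y` not parallel to `x` let `b_v` be the natural number with `2 X^2 2^(-b_v - 1) < wv v x y ≤ 2 X^2 2^(-b_v)`.
For given `b` GEX with `𝒥 y = gI x y`, `Z = C PT (2 X^2 2^(-b_v)) = C (2 X^2)^rho ∏ 2^(-b_v mult)` (EQI), and
`(X^(2 rho)/wp)^(1-1/D) ≤ ∏ 2^(b_v mult (1 - 1/D))` (`wp ≥ ∏ (X^2 2^(-b_v))^mult`).  So the group contributes at most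
`C X^(2 rho) ∏ 2^(-b_v mult/D) ≤ C X^(2 rho) ∏ 2^(-b_v/D)`.  If `m1 wv u x y < X^2` for some `u` then
`2^(b_u) > m1`... (`X^2 2^(-b_u) < wv u`, so `2^(b_u) > m1`), so one factor is at most `m1^(-1/D)`: the sum over `b` of
`∏_v 2^(-b_v/D)` with `2^(b_u) > m1` for some `u` is at most `rho m1^(-1/D) (1 - 2^(-1/D))^(-rho)`. -/
def St_PS2 : Prop :=
  ∀ (K : Type) [Field K] [NumberField K] (D : ℕ), 2 ≤ D → ∀ C0 : ℝ, 1 ≤ C0 → ∃ C : ℝ, 0 < C ∧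
    ∀ (r : ℕ) (a : (Fin r → 𝓞 K) → 𝓞 K), LOC D a C0 → ∀ c t m1 : ℕ, 1 ≤ t → 1 ≤ m1 →
    ∀ x ∈ CG K 2 c t,
      ∑ y ∈ (CG K 2 c t).filter (fun y => ¬ Par x y ∧
        ∃ u : InfinitePlace K, m1 * wv u x y < (XC 2 c t : ℝ) ^ 2),
        GI a (gI x y) * (((XC 2 c t : ℝ) ^ 2) ^ dg K / wp x y) ^ (1 - (1 : ℝ) / D) ≤
        C * (m1 : ℝ) ^ (-(1 : ℝ) / D) * ((XC 2 c t : ℝ) ^ 2) ^ dg K

/-- [SM1] OUTPUT of block S; from TYS, ATS, CP1, PS1, PS2, DLX, PHI, TSC, PBC.  PROOF.  `C0, ε` given.  `m1` with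
`C C0^2 C m1^(-1/D) ≤ ε/8`, then `k'` with `C C0^2 m1^rho C/k' ≤ ε/16`, then `ε'` and `m0` of PS1 with
`C C0^2 m1^rho ε' ≤ ε/16`, `κ` of TYS.  The left side is at most the sum over `box (2H)` with the weight `Ph` (PHI);
`NA - NAL = ∑_(x ∈ CG, x ∈ P) ∑_(w ∈ B) (dlt (a w) x f - lmt Θ W (a w) x f)` (TSC: `#TS = TC`).  Expand into the
sum over the pairs `x, y ∈ CG ∩ P`: for the pairs not parallel with `X^2 ≤ m1 wv u x y` for all `u`: DLX and TYS; for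
the other pairs not parallel `(δ - λ)(δ' - λ') ≤ δ δ' + λ λ'` and ATS; for the parallel pairs the same and CP1.
Sums over `y`: PS1, PS2; over `x`: `#CG ≤ C X^(2 rho)` (PBC).  `EN^2 = X^(4 rho) Nn^2/E^2`. -/
def St_SM1 : Prop :=
  ∀ (K : Type) [Field K] [NumberField K] (D m r c v : ℕ), 2 ≤ D → 1 ≤ m → 1 ≤ c →
    2 * c + 4 ≤ D * v → (8 * dg K + 8) * (c + 1) ≤ v → SMN1 K D m r c v

end Pool.Agent.NRN
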